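import Pool.Agent.Mg.Fb3b911.G6bbfaa

section

/-! The Engel lattice and its extension by the flip. -/

namespace Pool.Agent.MP_b3b911_al.Fil

/-- `x (x - 1) / 2` -/
def tri (x : ℤ) : ℤ := x * (x - 1) / 2

/-- `x (x - 1) (x - 2) / 6` -/
def tet (x : ℤ) : ℤ := x * (x - 1) * (x - 2) / 6

theorem two_tri (x : ℤ) : 2 * tri x = x * (x - 1) :=
  Int.mul_ediv_cancel' (Int.even_mul_pred_self x).two_dvd

theorem six_tet (x : ℤ) : 6 * tet x = x * (x - 1) * (x - 2) := by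
  refine Int.mul_ediv_cancel' (Int.dvd_of_emod_eq_zero ?_)
  have h : x % 6 = 0 ∨ x % 6 = 1 ∨ x % 6 = 2 ∨ x % 6 = 3 ∨ x % 6 = 4 ∨ x % 6 = 5 := by omega
  rcases h with h | h | h | h | h | h <;> simp [Int.mul_emod, Int.sub_emod, h]

theorem tri_add (x y : ℤ) : tri (x + y) = tri x + tri y + x * y := by
  have h1 := two_tri (x + y); have h2 := two_tri x; have h3 := two_tri y
  have : 2 * tri (x + y) = 2 * (tri x + tri y + x * y) := by linear_combination h1 - h2 - h3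
  omega

theorem tri_cast (x : ℤ) : (tri x : ℝ) = x * (x - 1) / 2 := by
  have h : (2 : ℝ) * tri x = x * (x - 1) := by exact_mod_cast two_tri x
  linarith

theorem tet_cast (x : ℤ) : (tet x : ℝ) = x * (x - 1) * (x - 2) / 6 := by
  have h : (6 : ℝ) * tet x = x * (x - 1) * (x - 2) := by exact_mod_cast six_tet x
  linarith

/-- The Engel lattice. -/
@[ext] structure En where
  x : ℤ
  p : ℤ
  q : ℤ
  r : ℤ
  deriving DecidableEq

namespace En

instance : Mul En :=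
  ⟨fun g h => ⟨g.x + h.x, g.p + h.p, g.q + h.q + g.x * h.p, g.r + h.r + g.x * h.q + tri g.x * h.p⟩⟩

instance : One En := ⟨⟨0, 0, 0, 0⟩⟩

instance : Inv En :=
  ⟨fun g => ⟨-g.x, -g.p, -g.q + g.x * g.p, -g.r + g.x * g.q - tri (-g.x) * g.p⟩⟩

@[simp] theorem mul_x (g h : En) : (g * h).x = g.x + h.x := rfl
@[simp] theorem mul_p (g h : En) : (g * h).p = g.p + h.p := rfl
@[simp] theorem mul_q (g h : En) : (g * h).q = g.q + h.q + g.x * h.p := rfl
@[simp] theorem mul_r (g h : En) : (g * h).r = g.r + h.r + g.x * h.q + tri g.x * h.p := rfl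
@[simp] theorem one_x : (1 : En).x = 0 := rfl
@[simp] theorem one_p : (1 : En).p = 0 := rfl
@[simp] theorem one_q : (1 : En).q = 0 := rfl
@[simp] theorem one_r : (1 : En).r = 0 := rfl
@[simp] theorem inv_x (g : En) : g⁻¹.x = -g.x := rfl
@[simp] theorem inv_p (g : En) : g⁻¹.p = -g.p := rfl
@[simp] theorem inv_q (g : En) : g⁻¹.q = -g.q + g.x * g.p := rfl
@[simp] theorem inv_r (g : En) : g⁻¹.r = -g.r + g.x * g.q - tri (-g.x) * g.p := rfl

theorem real_ext {g h : En} (hx : g.x = h.x) (hp : g.p = h.p) (hq : (g.q : ℝ) = h.q)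
    (hr : (g.r : ℝ) = h.r) : g = h :=
  En.ext hx hp (by exact_mod_cast hq) (by exact_mod_cast hr)

instance : Group En :=
  Group.ofLeftAxioms
    (fun a b c => real_ext (by simp [add_assoc]) (by simp [add_assoc])
      (by simp only [mul_q, mul_x, mul_p]; push_cast; ring)
      (by simp only [mul_q, mul_x, mul_p, mul_r]; push_cast; simp only [tri_cast]; push_cast; ring))
    (fun a => real_ext (by simp) (by simp) (by simp) (by simp [tri]))
    (fun a => real_ext (by simp) (by simp) (by simp) (by simp; ring))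

/-- first generator -/
def a : En := ⟨1, 0, 0, 0⟩

/-- second generator -/
def b : En := ⟨-1, 1, -1, 1⟩

/-- the flip, as a map -/
def fl (g : En) : En := ⟨-g.x, g.x + g.p, -g.q - g.p - tri (g.x + 1), g.r + 2 * g.q + g.p + tet (g.x + 2)⟩

theorem fl_fl (g : En) : fl (fl g) = g :=
  real_ext (by simp [fl]) (by simp [fl])
    (by simp only [fl]; push_cast; simp only [tri_cast]; push_cast; ring)
    (by simp only [fl]; push_cast; simp only [tri_cast, tet_cast]; push_cast; ring)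

theorem fl_mul (g h : En) : fl (g * h) = fl g * fl h :=
  real_ext (by simp [fl]; ring) (by simp [fl]; ring)
    (by simp only [fl, mul_q, mul_x, mul_p]; push_cast; simp only [tri_cast]; push_cast; ring)
    (by simp only [fl, mul_q, mul_x, mul_p, mul_r]; push_cast; simp only [tri_cast, tet_cast]
        push_cast; ring)

/-- the flip, as an automorphism -/
def flA : MulAut En where
  toFun := fl
  invFun := fl
  left_inv := fl_fl
  right_inv := fl_fl
  map_mul' := fl_mul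

theorem fl_a : fl a = b := by decide
theorem fl_b : fl b = a := by decide

/-- the action of the group of order two -/
def act : ℤˣ →* MulAut En where
  toFun u := if u = 1 then 1 else flA
  map_one' := by simp
  map_mul' u v := by
    have h : flA * flA = 1 := MulEquiv.ext fl_fl
    rcases Int.units_eq_one_or u with rfl | rfl <;> rcases Int.units_eq_one_or v with rfl | rfl <;>
      simp [h]

theorem act_one (g : En) : act 1 g = g := by simp

theorem act_neg (g : En) : act (-1) g = fl g := by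
  have : (-1 : ℤˣ) ≠ 1 := by decide
  simp [act, this, flA]

end En

/-- The extension of the Engel lattice by the flip. -/
abbrev VE : Type := En ⋊[En.act] ℤˣ

/-- the generators of the Engel lattice -/
def SE : Finset En := {En.a, En.b}

/-- the generator of infinite order -/
def va : VE := ⟨En.a, 1⟩

/-- the generator of order two -/
def vt : VE := ⟨1, -1⟩

open Classical in
/-- the generators of the extension -/
noncomputable def SV : Finset VE := {va, vt}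

/-- the type of a letter: `1` for the first generator and its inverse, `-1` otherwise -/
def ty (s : En) : ℤˣ := if s.p = 0 then 1 else -1

/-- the length of the word over `SV` that follows a word over `SE` from the state `σ` -/
def kap : ℤˣ → List En → ℕ
  | _, [] => 0
  | σ, s :: l => (if ty s = σ then 1 else 2) + kap (ty s) l

/-- the end point of the model path, perturbed by `i` and `j` -/
def elt (n s x₀ x₁ i j : ℕ) : En :=
  ⟨(n : ℤ) - 2 * s, (s : ℤ) - x₁, s * x₀ - tri x₁ + i, s * tri x₀ - tet x₁ + j⟩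

/-- the range of the parameters -/
structure Par (h k n s x₀ x₁ i j : ℕ) : Prop where
  k_le : k ≤ 101 * h
  n_ge : 99 * h ≤ n
  n_le : n ≤ k
  s_ge : 4 * h ≤ s
  s_lt : s < 5 * h
  x₀_ge : 87 * h ≤ x₀
  x₀_lt : x₀ < 88 * h
  x₁_ge : h ≤ x₁
  x₁_lt : x₁ < 2 * h
  i_lt : i < h
  j_lt : j < h ^ 2

end Pool.Agent.MP_b3b911_al.Fil

end

section

namespace Pool.Agent.MP_b3b911_al.Fil

theorem EBig_a_inv : En.a⁻¹ = ⟨-1, 0, 0, 0⟩ := by decide

theorem EBig_b_inv : En.b⁻¹ = ⟨1, -1, 0, 0⟩ := by decide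

theorem EBig_vt_mul : vt * vt = 1 := by
  refine SemidirectProduct.ext ?_ ?_
  · simp [vt]
  · simp [vt]

theorem EBig_vt_inv : vt⁻¹ = vt := inv_eq_of_mul_eq_one_right EBig_vt_mul

theorem EBig_tri_zero : tri 0 = 0 := by decide

theorem EBig_tet_succ (m : ℤ) : tet (m + 1) = tet m + tri m := by
  have h1 := six_tet (m + 1); have h2 := six_tet m; have h3 := two_tri m
  have : 6 * tet (m + 1) = 6 * (tet m + tri m) := by linear_combination h1 - h2 - 3 * h3
  omega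

theorem EBig_zpow (f : ℤ → En) (h0 : f 0 = 1) (hadd : ∀ y, f (y + 1) = f y * f 1) (y : ℤ) :
    f 1 ^ y = f y := by
  induction y using Int.induction_on with
  | zero => simp [h0]
  | succ n ih => rw [zpow_add_one, ih, hadd]
  | pred n ih =>
    rw [zpow_sub_one, ih]
    have := hadd (-(n : ℤ) - 1)
    rw [sub_add_cancel] at this
    rw [this, mul_inv_cancel_right]

theorem EBig_nu_zpow (y : ℤ) : (⟨0, 1, 0, 0⟩ : En) ^ y = ⟨0, y, 0, 0⟩ :=
  EBig_zpow (fun y => ⟨0, y, 0, 0⟩) rfl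
    (fun y => En.ext (by simp) (by simp) (by simp) (by simp [EBig_tri_zero])) y

theorem EBig_mu_zpow (y : ℤ) : (⟨0, 0, 1, 0⟩ : En) ^ y = ⟨0, 0, y, 0⟩ :=
  EBig_zpow (fun y => ⟨0, 0, y, 0⟩) rfl
    (fun y => En.ext (by simp) (by simp) (by simp) (by simp)) y

theorem EBig_ka_zpow (y : ℤ) : (⟨0, 0, 0, 1⟩ : En) ^ y = ⟨0, 0, 0, y⟩ :=
  EBig_zpow (fun y => ⟨0, 0, 0, y⟩) rfl
    (fun y => En.ext (by simp) (by simp) (by simp) (by simp)) y

theorem EBig_binv_pow (m : ℕ) :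
    (En.b⁻¹) ^ m = ⟨m, -m, -tri m, -tet m⟩ := by
  induction m with
  | zero => exact En.ext (by simp) (by simp) (by simp [tri]) (by simp [tet])
  | succ m ih =>
    rw [pow_succ, ih, EBig_b_inv]
    refine En.ext (by simp) (by simp; ring) ?_ ?_
    · have := tri_add m 1
      have h1 : tri 1 = 0 := by decide
      simp only [En.mul_q]; push_cast; rw [this, h1]; ring
    · simp only [En.mul_r]; push_cast; rw [EBig_tet_succ]; ring

theorem EBig_word_append {G : Type*} [Group G] {S : Finset G} {l m : List G} :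
    Word S (l ++ m) ↔ Word S l ∧ Word S m := by
  simp only [Word, List.mem_append]
  exact ⟨fun h => ⟨fun x hx => h x (Or.inl hx), fun x hx => h x (Or.inr hx)⟩,
    fun h x hx => hx.elim (h.1 x) (h.2 x)⟩

/-- a coordinate that moves by at most one at each letter -/
theorem EBig_move {G : Type*} [Group G] {S : Finset G} (φ : G → ℤ) (h1 : φ 1 = 0)
    (hs : ∀ g s, (s ∈ S ∨ s⁻¹ ∈ S) → |φ (g * s) - φ g| ≤ 1) (g : G) {l : List G}
    (h : Word S l) : |φ (g * l.prod) - φ g| ≤ l.length := by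
  induction l using List.reverseRecOn with
  | nil => simp
  | append_singleton l s ih =>
    have hw := EBig_word_append.1 h
    have h2 := hs (g * l.prod) s (hw.2 s (by simp))
    have h3 := ih hw.1
    simp only [List.prod_append, List.prod_cons, List.prod_nil, mul_one, List.length_append,
      List.length_singleton]
    rw [← mul_assoc]
    push_cast
    rw [abs_le] at *
    constructor <;> linarith [h2.1, h2.2, h3.1, h3.2]

theorem EBig_range {G : Type*} [Group G] {S : Finset G} (φ : G → ℤ) (h1 : φ 1 = 0)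
    (hs : ∀ g s, (s ∈ S ∨ s⁻¹ ∈ S) → |φ (g * s) - φ g| ≤ 1) {l : List G}
    (h : Word S l) (n : ℕ) :
    φ l.prod - l.length ≤ 2 * φ (l.take n).prod ∧ φ (l.take n).prod ≤ l.length := by
  have hl : l = l.take n ++ l.drop n := (List.take_append_drop n l).symm
  have hw : Word S (l.take n) ∧ Word S (l.drop n) := EBig_word_append.1 (hl ▸ h)
  have h2 := EBig_move φ h1 hs 1 hw.1
  have h3 := EBig_move φ h1 hs (l.take n).prod hw.2
  have h4 : (l.take n).prod * (l.drop n).prod = l.prod := by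
    rw [← List.prod_append, List.take_append_drop]
  have h5 : ((l.take n).length : ℤ) + (l.drop n).length = l.length := by
    have : (l.take n).length + (l.drop n).length = l.length := by
      rw [← List.length_append, List.take_append_drop]
    exact_mod_cast this
  rw [h4] at h3
  rw [one_mul, h1, sub_zero] at h2
  rw [abs_le] at h2 h3
  have h6 : (0 : ℤ) ≤ (l.drop n).length := Int.natCast_nonneg _
  constructor <;> linarith [h2.1, h2.2, h3.1, h3.2]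

theorem word_SE {s : En} : (s ∈ SE ∨ s⁻¹ ∈ SE) ↔
    s = En.a ∨ s = En.a⁻¹ ∨ s = En.b ∨ s = En.b⁻¹ := by
  simp only [SE, Finset.mem_insert, Finset.mem_singleton, inv_eq_iff_eq_inv]
  tauto

theorem word_SV {s : VE} : (s ∈ SV ∨ s⁻¹ ∈ SV) ↔ s = va ∨ s = va⁻¹ ∨ s = vt := by
  simp only [SV, Finset.mem_insert, Finset.mem_singleton, inv_eq_iff_eq_inv, EBig_vt_inv]
  tauto

theorem a_zpow (y : ℤ) : En.a ^ y = ⟨y, 0, 0, 0⟩ :=
  EBig_zpow (fun y => ⟨y, 0, 0, 0⟩) rfl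
    (fun y => En.ext (by simp) (by simp) (by simp) (by simp)) y

theorem ebig {l : List En} (h : Word SE l) : |l.prod.x| ≤ l.length ∧ |l.prod.p| ≤ l.length ∧
    |l.prod.q| ≤ (l.length : ℤ) ^ 2 ∧ |l.prod.r| ≤ (l.length : ℤ) ^ 3 := by
  induction l using List.reverseRecOn with
  | nil => simp
  | append_singleton l s ih =>
    have hw := EBig_word_append.1 h
    obtain ⟨hx, hp, hq, hr⟩ := ih hw.1
    have hs := word_SE.1 (hw.2 s (by simp))
    simp only [List.prod_append, List.prod_cons, List.prod_nil, mul_one, List.length_append,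
      List.length_singleton]
    push_cast
    generalize l.prod = g at *
    have hn : (0 : ℤ) ≤ l.length := Int.natCast_nonneg _
    generalize (l.length : ℤ) = n at *
    have ht := two_tri g.x
    rw [abs_le] at hx hp hq hr
    have hxx : g.x * g.x ≤ n * n := by nlinarith [hx.1, hx.2]
    have ht0 : 0 ≤ g.x * (g.x - 1) := by
      rcases le_or_gt g.x 0 with h0 | h0
      · exact mul_nonneg_of_nonpos_of_nonpos h0 (by linarith)
      · exact mul_nonneg h0.le (by linarith)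
    have ht1 : 0 ≤ (g.x - 1) * (g.x - 2) := by
      rcases le_or_gt g.x 1 with h0 | h0
      · exact mul_nonneg_of_nonpos_of_nonpos (by linarith) (by linarith)
      · exact mul_nonneg (by linarith) (by linarith)
    have hn2 : 0 ≤ n * n := mul_nonneg hn hn
    have e2 : (n + 1) ^ 2 = n ^ 2 + 2 * n + 1 := by ring
    have e3 : (n + 1) ^ 3 = n ^ 3 + 3 * (n * n) + 3 * n + 1 := by ring
    rw [e2, e3]
    simp only [abs_le, En.mul_x, En.mul_p, En.mul_q, En.mul_r]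
    rcases hs with rfl | rfl | rfl | rfl
    · simp only [En.a]
      refine ⟨⟨?_, ?_⟩, ⟨?_, ?_⟩, ⟨?_, ?_⟩, ⟨?_, ?_⟩⟩ <;>
        linarith [hx.1, hx.2, hp.1, hp.2, hq.1, hq.2, hr.1, hr.2]
    · rw [EBig_a_inv]
      refine ⟨⟨?_, ?_⟩, ⟨?_, ?_⟩, ⟨?_, ?_⟩, ⟨?_, ?_⟩⟩ <;>
        simp only [] <;> linarith [hx.1, hx.2, hp.1, hp.2, hq.1, hq.2, hr.1, hr.2]
    · simp only [En.b]
      refine ⟨⟨?_, ?_⟩, ⟨?_, ?_⟩, ⟨?_, ?_⟩, ⟨?_, ?_⟩⟩ <;>
        nlinarith [hx.1, hx.2, hp.1, hp.2, hq.1, hq.2, hr.1, hr.2]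
    · rw [EBig_b_inv]
      refine ⟨⟨?_, ?_⟩, ⟨?_, ?_⟩, ⟨?_, ?_⟩, ⟨?_, ?_⟩⟩ <;>
        simp only [] <;> nlinarith [hx.1, hx.2, hp.1, hp.2, hq.1, hq.2, hr.1, hr.2]

theorem closure_SE : Subgroup.closure (SE : Set En) = ⊤ := by
  rw [eq_top_iff]
  intro g _
  set H := Subgroup.closure (SE : Set En)
  have ha : En.a ∈ H := Subgroup.subset_closure (by simp [SE])
  have hb : En.b ∈ H := Subgroup.subset_closure (by simp [SE])
  have e1 : En.a * En.b = ⟨0, 1, 0, 0⟩ := by decide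
  have e2 : En.a * (⟨0, 1, 0, 0⟩ : En) * En.a⁻¹ * (⟨0, 1, 0, 0⟩ : En)⁻¹ = ⟨0, 0, 1, 0⟩ := by decide
  have e3 : En.a * (⟨0, 0, 1, 0⟩ : En) * En.a⁻¹ * (⟨0, 0, 1, 0⟩ : En)⁻¹ = ⟨0, 0, 0, 1⟩ := by decide
  have hnu : (⟨0, 1, 0, 0⟩ : En) ∈ H := e1 ▸ H.mul_mem ha hb
  have hmu : (⟨0, 0, 1, 0⟩ : En) ∈ H :=
    e2 ▸ H.mul_mem (H.mul_mem (H.mul_mem ha hnu) (H.inv_mem ha)) (H.inv_mem hnu)
  have hka : (⟨0, 0, 0, 1⟩ : En) ∈ H :=
    e3 ▸ H.mul_mem (H.mul_mem (H.mul_mem ha hmu) (H.inv_mem ha)) (H.inv_mem hmu)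
  have hg : g = (⟨0, 1, 0, 0⟩ : En) ^ g.p * (⟨0, 0, 1, 0⟩ : En) ^ g.q *
      (⟨0, 0, 0, 1⟩ : En) ^ g.r * En.a ^ g.x := by
    rw [EBig_nu_zpow, EBig_mu_zpow, EBig_ka_zpow, a_zpow]
    exact En.ext (by simp) (by simp) (by simp) (by simp)
  rw [hg]
  exact H.mul_mem (H.mul_mem (H.mul_mem (H.zpow_mem hnu _) (H.zpow_mem hmu _))
    (H.zpow_mem hka _)) (H.zpow_mem ha _)

theorem range_E {l : List En} (h : Word SE l) (n : ℕ) :
    l.prod.x - l.length ≤ 2 * (l.take n).prod.x ∧ (l.take n).prod.x ≤ l.length := by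
  refine EBig_range (S := SE) (fun g : En => g.x) rfl ?_ h n
  intro g s hs
  rcases word_SE.1 hs with rfl | rfl | rfl | rfl <;> simp [En.a, En.b]

theorem range_V {l : List VE} (h : Word SV l) (n : ℕ) :
    l.prod.left.x - l.length ≤ 2 * (l.take n).prod.left.x ∧
      (l.take n).prod.left.x ≤ l.length := by
  refine EBig_range (S := SV) (fun g : VE => g.left.x) rfl ?_ h n
  intro g s hs
  have key : |s.left.x| ≤ 1 := by
    rcases word_SV.1 hs with rfl | rfl | rfl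
    · simp [va, En.a]
    · simp [va, En.a]
    · simp [vt]
  simp only [SemidirectProduct.mul_left, En.mul_x, add_sub_cancel_left]
  rcases Int.units_eq_one_or g.right with h1 | h1 <;> rw [h1]
  · rw [En.act_one]; exact key
  · rw [En.act_neg]; simpa [En.fl] using key

theorem word_elt {h k n s x₀ x₁ i j : ℕ} (hP : Par h k n s x₀ x₁ i j) :
    ∃ l : List En, Word SE l ∧ l.length = n ∧ l.prod = elt n s x₀ x₁ 0 0 := by
  have h1 := hP.n_ge; have h2 := hP.s_lt; have h3 := hP.x₀_lt; have h4 := hP.x₀_ge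
  have h5 := hP.x₁_lt
  have hx : x₁ ≤ x₀ := by omega
  have hn : 2 * s + x₀ ≤ n := by omega
  obtain ⟨u, hu⟩ := Nat.exists_eq_add_of_le hx
  obtain ⟨v, hv⟩ := Nat.exists_eq_add_of_le hn
  have e1 : En.a * En.b = ⟨0, 1, 0, 0⟩ := by decide
  have hflat : ∀ m : ℕ, Word SE (List.replicate m [En.a, En.b]).flatten ∧
      (List.replicate m [En.a, En.b]).flatten.length = 2 * m ∧
      (List.replicate m [En.a, En.b]).flatten.prod = (En.a * En.b) ^ m := by
    intro m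
    induction m with
    | zero => simp [Word]
    | succ m ih =>
      rw [List.replicate_succ, List.flatten_cons]
      refine ⟨EBig_word_append.2 ⟨?_, ih.1⟩, ?_, ?_⟩
      · intro x hx
        rw [word_SE]
        simp only [List.mem_cons, List.not_mem_nil, or_false] at hx
        tauto
      · rw [List.length_append, ih.2.1]; simp; ring
      · rw [List.prod_append, ih.2.2, pow_succ']; simp
  have hrep : ∀ (m : ℕ) (c : En), (c ∈ SE ∨ c⁻¹ ∈ SE) → Word SE (List.replicate m c) := by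
    intro m c hc x hx
    rw [List.eq_of_mem_replicate hx]; exact hc
  refine ⟨List.replicate x₁ En.b⁻¹ ++ List.replicate u En.a ++
    (List.replicate s [En.a, En.b]).flatten ++ List.replicate v En.a, ?_, ?_, ?_⟩
  · refine EBig_word_append.2 ⟨EBig_word_append.2 ⟨EBig_word_append.2 ⟨?_, ?_⟩, (hflat s).1⟩, ?_⟩
    · exact hrep _ _ (word_SE.2 (by simp))
    · exact hrep _ _ (word_SE.2 (by simp))
    · exact hrep _ _ (word_SE.2 (by simp))
  · simp only [List.length_append, List.length_replicate, (hflat s).2.1]; omega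
  · simp only [List.prod_append, List.prod_replicate, (hflat s).2.2, e1]
    rw [EBig_binv_pow, ← zpow_natCast, ← zpow_natCast, ← zpow_natCast, a_zpow, a_zpow,
      EBig_nu_zpow]
    have hu' : (x₀ : ℤ) = x₁ + u := by exact_mod_cast hu
    have hv' : (n : ℤ) = 2 * s + x₀ + v := by exact_mod_cast hv
    refine En.ext ?_ ?_ ?_ ?_
    · simp only [elt, En.mul_x]; linarith
    · simp only [elt, En.mul_p]; ring
    · simp only [elt, En.mul_q, En.mul_x, En.mul_p]; rw [hu']; push_cast; ring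
    · simp only [elt, En.mul_r, En.mul_q, En.mul_x, En.mul_p]; rw [hu']; push_cast; ring

end Pool.Agent.MP_b3b911_al.Fil

end

section

namespace Pool.Agent.MP_b3b911_al.Fil

theorem ePre_tri0 : tri 0 = 0 := by simp [tri]

theorem ePre_tri1 : tri 1 = 0 := by simp [tri]

theorem ePre_succ (y : ℤ) : tri (y + 1) = tri y + y := by
  rw [tri_add, ePre_tri1]; ring

theorem ePre_conj (g : En) (hg : g.x = 0) (y : ℤ) :
    En.a ^ y * g * En.a ^ (-y) = ⟨0, g.p, g.q + y * g.p, g.r + y * g.q + tri y * g.p⟩ := by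
  rw [a_zpow, a_zpow]
  ext <;> simp [hg]

theorem ePre_ker (g : En) : g * En.a ^ (-g.x) = ⟨0, g.p, g.q, g.r⟩ := by
  rw [a_zpow]
  ext <;> simp

/-- the coordinates -/
def ePreV (g : En) : Fin 3 → ℤ := ![g.p, g.q, g.r]

/-- the weights -/
def ePreW : Fin 3 → ℕ := ![1, 2, 3]

/-- the filtration of the kernel -/
def ePreP (p : ℕ) (g : En) : Prop :=
  g.x = 0 ∧ (2 ≤ p → g.p = 0) ∧ (3 ≤ p → g.q = 0) ∧ (4 ≤ p → g.r = 0)

/-- small elements of the kernel -/
def ePreSm (K A : ℝ) (g : En) : Prop :=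
  1 ≤ K ∧ g.x = 0 ∧ |(g.p : ℝ)| / K + |(g.q : ℝ)| / K ^ 2 + |(g.r : ℝ)| / K ^ 3 ≤ A

theorem ePre_add (x u y : En) (hx : x.x = 0) (hu : u.x = 0) (j : Fin 3) :
    ePreV (x * u * y) j = ePreV (x * y) j + ePreV u j := by
  fin_cases j <;> simp [ePreV, hx, hu, ePre_tri0] <;> ring

theorem ePre_deg (p : ℕ) (g : En) (j : Fin 3) (hp : 1 ≤ p) (hP : ePreP p g) (hw : p ≤ ePreW j) :
    (fwdDiff (1 : ℤ))^[ePreW j - p + 1]
      (fun y : ℤ => ePreV (En.a ^ y * g * En.a ^ (-y)) j) = 0 := by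
  obtain ⟨hx, h2, h3, -⟩ := hP
  simp only [ePre_conj g hx]
  funext y
  fin_cases j
  · have : p = 1 := by simp [ePreW] at hw; omega
    subst this
    simp [ePreW, ePreV, fwdDiff]
  · have hw' : p ≤ 2 := by simpa [ePreW] using hw
    interval_cases p
    · simp [ePreW, ePreV, fwdDiff]; ring
    · simp [ePreW, ePreV, fwdDiff, h2 le_rfl]
  · have hw' : p ≤ 3 := by simpa [ePreW] using hw
    interval_cases p
    · simp [ePreW, ePreV, fwdDiff, ePre_succ]; ring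
    · simp [ePreW, ePreV, fwdDiff, h2 le_rfl]; ring
    · simp [ePreW, ePreV, fwdDiff, h2 (by norm_num), h3 le_rfl]

theorem ePre_winj {i j : Fin 3} (h : ePreW j = ePreW i) : j = i := by
  fin_cases i <;> fin_cases j <;> simp [ePreW] at h ⊢

theorem ePre_top (p : ℕ) (i : Fin 3) (hp : 1 ≤ p) (hw : p ≤ ePreW i) :
    ∃ (q : ℤ) (g : En), 0 < q ∧ ePreP p g ∧ ∀ j, ePreW j = ePreW i →
      (fwdDiff (1 : ℤ))^[ePreW i - p] (fun y : ℤ => ePreV (En.a ^ y * g * En.a ^ (-y)) j) =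
        fun _ => if j = i then q else 0 := by
  have h3 : p ≤ 3 := hw.trans (by fin_cases i <;> simp [ePreW])
  interval_cases p
  · refine ⟨1, ⟨0, 1, 0, 0⟩, one_pos, by simp [ePreP], fun j hj => ?_⟩
    obtain rfl := ePre_winj hj
    simp only [ePre_conj ⟨0, 1, 0, 0⟩ rfl]
    funext y
    fin_cases j
    · simp [ePreW, ePreV]
    · simp [ePreW, ePreV, fwdDiff]
    · simp [ePreW, ePreV, fwdDiff, ePre_succ]
  · refine ⟨1, ⟨0, 0, 1, 0⟩, one_pos, by simp [ePreP], fun j hj => ?_⟩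
    obtain rfl := ePre_winj hj
    simp only [ePre_conj ⟨0, 0, 1, 0⟩ rfl]
    funext y
    fin_cases j
    · simp [ePreW] at hw
    · simp [ePreW, ePreV]
    · simp [ePreW, ePreV, fwdDiff]
  · refine ⟨1, ⟨0, 0, 0, 1⟩, one_pos, by simp [ePreP], fun j hj => ?_⟩
    obtain rfl := ePre_winj hj
    simp only [ePre_conj ⟨0, 0, 0, 1⟩ rfl]
    funext y
    fin_cases j
    · simp [ePreW] at hw
    · simp [ePreW] at hw
    · simp [ePreW, ePreV]

theorem ePre_bas (p : ℕ) (i : Fin 3) (hw : p ≤ ePreW i) :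
    ∃ g, ePreP p g ∧ ePreV g = Pi.single i 1 := by
  fin_cases i
  · have : p ≤ 1 := by simpa [ePreW] using hw
    refine ⟨⟨0, 1, 0, 0⟩, ⟨rfl, fun h => by omega, fun _ => rfl, fun _ => rfl⟩, ?_⟩
    funext j; fin_cases j <;> simp [ePreV]
  · have : p ≤ 2 := by simpa [ePreW] using hw
    refine ⟨⟨0, 0, 1, 0⟩, ⟨rfl, fun _ => rfl, fun h => by omega, fun _ => rfl⟩, ?_⟩
    funext j; fin_cases j <;> simp [ePreV]
  · have : p ≤ 3 := by simpa [ePreW] using hw
    refine ⟨⟨0, 0, 0, 1⟩, ⟨rfl, fun _ => rfl, fun _ => rfl, fun h => by omega⟩, ?_⟩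
    funext j; fin_cases j <;> simp [ePreV]

theorem ePre_sm_mul (K A B : ℝ) (x y : En) (hx : ePreSm K A x) (hy : ePreSm K B y) :
    ePreSm K (A + B) (x * y) := by
  obtain ⟨hK, hx0, hx1⟩ := hx
  obtain ⟨-, hy0, hy1⟩ := hy
  refine ⟨hK, by simp [hx0, hy0], ?_⟩
  have hK0 : 0 < K := by linarith
  have e1 : ((x * y).p : ℝ) = x.p + y.p := by simp
  have e2 : ((x * y).q : ℝ) = x.q + y.q := by simp [hx0]
  have e3 : ((x * y).r : ℝ) = x.r + y.r := by simp [hx0, ePre_tri0]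
  rw [e1, e2, e3]
  have t1 : |(x.p : ℝ) + y.p| / K ≤ |(x.p : ℝ)| / K + |(y.p : ℝ)| / K := by
    rw [← add_div]; exact div_le_div_of_nonneg_right (abs_add_le _ _) hK0.le
  have t2 : |(x.q : ℝ) + y.q| / K ^ 2 ≤ |(x.q : ℝ)| / K ^ 2 + |(y.q : ℝ)| / K ^ 2 := by
    rw [← add_div]; exact div_le_div_of_nonneg_right (abs_add_le _ _) (by positivity)
  have t3 : |(x.r : ℝ) + y.r| / K ^ 3 ≤ |(x.r : ℝ)| / K ^ 3 + |(y.r : ℝ)| / K ^ 3 := by
    rw [← add_div]; exact div_le_div_of_nonneg_right (abs_add_le _ _) (by positivity)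
  linarith

theorem ePre_sm_inv (K A : ℝ) (x : En) (hx : ePreSm K A x) : ePreSm K A x⁻¹ := by
  obtain ⟨hK, hx0, hx1⟩ := hx
  refine ⟨hK, by simp [hx0], ?_⟩
  have e1 : ((x⁻¹).p : ℝ) = -x.p := by simp
  have e2 : ((x⁻¹).q : ℝ) = -x.q := by simp [hx0]
  have e3 : ((x⁻¹).r : ℝ) = -x.r := by simp [hx0, ePre_tri0]
  rw [e1, e2, e3, abs_neg, abs_neg, abs_neg]
  exact hx1

theorem ePre_sm_ball (A K : ℝ) (hK : 1 ≤ K) (g : En) (hg : Ball SE (A * K) g) :
    ePreSm K (|A| + |A| ^ 2 + |A| ^ 3) (g * En.a ^ (-g.x)) := by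
  rw [ePre_ker]
  obtain ⟨l, hl, hw, rfl⟩ := hg
  obtain ⟨-, h1, h2, h3⟩ := ebig hw
  have hK0 : 0 < K := by linarith
  have hl' : (l.length : ℝ) ≤ |A| * K :=
    hl.trans (mul_le_mul_of_nonneg_right (le_abs_self A) hK0.le)
  have hl0 : (0 : ℝ) ≤ l.length := Nat.cast_nonneg _
  have c1 : |(l.prod.p : ℝ)| ≤ l.length := by exact_mod_cast h1
  have c2 : |(l.prod.q : ℝ)| ≤ (l.length : ℝ) ^ 2 := by exact_mod_cast h2
  have c3 : |(l.prod.r : ℝ)| ≤ (l.length : ℝ) ^ 3 := by exact_mod_cast h3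
  refine ⟨hK, rfl, ?_⟩
  have t1 : |(l.prod.p : ℝ)| / K ≤ |A| := by
    rw [div_le_iff₀ hK0]; exact c1.trans hl'
  have t2 : |(l.prod.q : ℝ)| / K ^ 2 ≤ |A| ^ 2 := by
    rw [div_le_iff₀ (by positivity), ← mul_pow]
    exact c2.trans (pow_le_pow_left₀ hl0 hl' 2)
  have t3 : |(l.prod.r : ℝ)| / K ^ 3 ≤ |A| ^ 3 := by
    rw [div_le_iff₀ (by positivity), ← mul_pow]
    exact c3.trans (pow_le_pow_left₀ hl0 hl' 3)
  exact add_le_add (add_le_add t1 t2) t3

/-- the data for the Engel lattice -/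
def ePreZ : Pre SE (Fin 3) where
  X g := g.x
  X_mul _ _ := rfl
  t := En.a
  X_t := rfl
  gen := closure_SE
  v := ePreV
  w := ePreW
  r := 3
  w_pos j := by fin_cases j <;> simp [ePreW]
  w_le j := by fin_cases j <;> simp [ePreW]
  occ q h1 h3 := by
    interval_cases q
    · exact ⟨0, rfl⟩
    · exact ⟨1, rfl⟩
    · exact ⟨2, rfl⟩
  v_one := by funext j; fin_cases j <;> simp [ePreV]
  inj g h hg hh hv := by
    have h0 := congrFun hv 0
    have h1 := congrFun hv 1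
    have h2 := congrFun hv 2
    simp only [ePreV, Matrix.cons_val_zero, Matrix.cons_val_one, Matrix.cons_val] at h0 h1 h2
    exact En.ext (hg.trans hh.symm) h0 h1 h2
  surj y := ⟨⟨0, y 0, y 1, y 2⟩, rfl, by funext j; fin_cases j <;> simp [ePreV]⟩
  P := ePreP
  P_X _ _ h := h.1
  P_one g hg := ⟨hg, fun h => by omega, fun h => by omega, fun h => by omega⟩
  P_conj p g y h := by
    obtain ⟨hx, h2, h3, h4⟩ := h
    rw [ePre_conj g hx]
    refine ⟨rfl, h2, fun h => ?_, fun h => ?_⟩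
    · simp [h2 (by omega), h3 h]
    · simp [h2 (by omega), h3 (by omega), h4 h]
  P_low p g j h hj := by
    obtain ⟨-, h2, h3, h4⟩ := h
    fin_cases j
    · have : 1 < p := by simpa [ePreW] using hj
      simpa [ePreV] using h2 this
    · have : 2 < p := by simpa [ePreW] using hj
      simpa [ePreV] using h3 this
    · have : 3 < p := by simpa [ePreW] using hj
      simpa [ePreV] using h4 this
  P_deg := ePre_deg
  P_top := ePre_top
  P_bas p i _ hw := ePre_bas p i hw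
  Sm := ePreSm
  Sm_mul := ePre_sm_mul
  Sm_inv := ePre_sm_inv
  Sm_mono K A B x hAB h := ⟨h.1, h.2.1, h.2.2.trans hAB⟩
  Sm_v K hK g hg := ⟨hK, hg, by simp [Fin.sum_univ_three, ePreV, ePreW]⟩
  Sm_ball A := ⟨|A| + |A| ^ 2 + |A| ^ 3, by positivity, fun K hK g hg => ePre_sm_ball A K hK g hg⟩
  KE A := ⟨0, le_rfl, fun K ε _ _ x u y hx hu _ _ _ _ j => by
    rw [ePre_add x u y hx hu j]
    simp⟩
  KV p x u y j hx hu _ _ := ePre_add x u y hx hu.1 j

theorem ePre_V (g : En) : ePreZ.V g = ![g.p, g.q, g.r] := by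
  show ePreV (g * En.a ^ (-g.x)) = _
  rw [ePre_ker]
  rfl

theorem eh2 (A : ℝ) : ∃ C : ℝ, 0 ≤ C ∧ ∀ K L R : ℝ, 1 ≤ L → L ≤ K → 1 ≤ R →
    R * (K / L) ^ 3 ≤ A * K → ∀ l : List En, Word SE l → (l.length : ℝ) ≤ K →
    (∃ n, L ≤ |((l.take n).prod.x : ℝ)|) → ∀ g : En, |(g.x : ℝ) - l.prod.x| ≤ R →
      |(g.p : ℝ) - l.prod.p| ≤ R → |(g.q : ℝ) - l.prod.q| ≤ R * K →
      |(g.r : ℝ) - l.prod.r| ≤ R * K ^ 2 →
      ∃ l' : List En, Word SE l' ∧ l'.prod = g ∧ l.Sublist l' ∧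
        (l'.length : ℝ) ≤ l.length + C * R * (K / L) ^ 3 := by
  obtain ⟨C, hC, h⟩ := Pre.h2 ePreZ A
  have hr : ∑ q ∈ Finset.range ePreZ.r, q = 3 := by
    show ∑ q ∈ Finset.range 3, q = 3
    decide
  rw [hr] at h
  refine ⟨C, hC, fun K L R hL hLK hR hA l hl hlK hn g hx hp hq hr' => ?_⟩
  refine h K L R hL hLK hR hA l hl hlK hn g hx fun j => ?_
  rw [ePre_V, ePre_V]
  show _ ≤ R * K ^ (ePreW j - 1)
  fin_cases j
  · simpa [ePreW] using hp
  · simpa [ePreW] using hq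
  · simpa [ePreW] using hr'

theorem ecore : ∃ c C : ℝ, 0 < c ∧ ∀ k : ℕ, 1 ≤ k →
    |(growth SE k : ℝ) - c * (k : ℝ) ^ 7| ≤ C * (k : ℝ) ^ 6 := by
  obtain ⟨c, C, hc, h⟩ := Pre.core ePreZ
  have hs : ∑ j, ePreZ.w j = 6 := by
    show ∑ j, ePreW j = 6
    simp [Fin.sum_univ_three, ePreW]
  rw [hs] at h
  exact ⟨c, C, hc, h⟩

end Pool.Agent.MP_b3b911_al.Fil

end

section

namespace Pool.Agent.MP_b3b911_al.Fil

/-- the calibrating quadratic function -/
noncomputable def Qf (x₀ x₁ y : ℤ) : ℝ := ((x₀ : ℝ) - x₁) ^ 2 - ((y : ℝ) - x₀) ^ 2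

/-- its negative part to the left of `x₁` -/
noncomputable def Qm (x₀ x₁ y : ℤ) : ℝ := if y < x₁ then -Qf x₀ x₁ y else 0

/-- the calibrating linear form -/
noncomputable def Lam (x₀ x₁ : ℤ) (g : En) : ℝ :=
  (((x₀ : ℝ) - x₁) ^ 2 - (x₀ : ℝ) ^ 2) * g.p + (2 * (x₀ : ℝ) - 1) * g.q - 2 * g.r

/-- the calibration -/
noncomputable def Phi (x₀ x₁ : ℤ) (g : En) : ℝ :=
  g.x + 2 * (Lam x₀ x₁ g - ∑ y ∈ Finset.Ico g.x x₁, Qf x₀ x₁ y + ∑ y ∈ Finset.Ico 0 x₁, Qf x₀ x₁ y) /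
    ((x₀ : ℝ) - x₁) ^ 2

theorem ECal_sum (x₀ x₁ y : ℤ) : ∑ z ∈ Finset.Ico (y + 1) x₁, Qf x₀ x₁ z =
    ∑ z ∈ Finset.Ico y x₁, Qf x₀ x₁ z + Qm x₀ x₁ y := by
  unfold Qm
  split_ifs with h
  · have e : Finset.Ico y x₁ = insert y (Finset.Ico (y + 1) x₁) := by
      ext z
      simp only [Finset.mem_Ico, Finset.mem_insert]
      omega
    rw [e, Finset.sum_insert (by simp)]
    ring
  · rw [Finset.Ico_eq_empty (by omega), Finset.Ico_eq_empty (by omega)]
    simp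

theorem ECal_sum0 (x₀ x₁ : ℤ) (m : ℕ) : ∑ z ∈ Finset.Ico (0 : ℤ) m, Qf x₀ x₁ z =
    (((x₀ : ℝ) - x₁) ^ 2 - (x₀ : ℝ) ^ 2) * m + (2 * (x₀ : ℝ) - 1) * tri m - 2 * tet m := by
  induction m with
  | zero => simp [tri, tet]
  | succ m ih =>
    have e : Finset.Ico (0 : ℤ) ((m + 1 : ℕ) : ℤ) = insert (m : ℤ) (Finset.Ico (0 : ℤ) m) := by
      ext z
      simp only [Finset.mem_Ico, Finset.mem_insert]
      omega
    rw [e, Finset.sum_insert (by simp), ih]
    simp only [Qf, tri_cast, tet_cast]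
    push_cast
    ring

theorem ECal_ineq {h x₀ x₁ : ℕ} (hh : 1 ≤ h) (h1 : 87 * h ≤ x₀) (h2 : x₀ < 88 * h)
    (h4 : x₁ < 2 * h) (y : ℤ) :
    0 ≤ Qm x₀ x₁ y ∧ (-6 * (h : ℤ) - 1 ≤ y → Qm x₀ x₁ y ≤ (((x₀ : ℤ) : ℝ) - (x₁ : ℤ)) ^ 2) ∧
    Qf x₀ x₁ y + Qm x₀ x₁ y ≤ (((x₀ : ℤ) : ℝ) - (x₁ : ℤ)) ^ 2 ∧
    (y ≤ 101 * (h : ℤ) → 0 ≤ Qf x₀ x₁ y + Qm x₀ x₁ y) := by
  have a0 : (1 : ℝ) ≤ h := by exact_mod_cast hh
  have a1 : 87 * (h : ℝ) ≤ x₀ := by exact_mod_cast h1
  have a2 : (x₀ : ℝ) + 1 ≤ 88 * h := by exact_mod_cast h2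
  have a4 : (x₁ : ℝ) ≤ 2 * h := by exact_mod_cast h4.le
  unfold Qm Qf
  simp only [Int.cast_natCast]
  split_ifs with hy
  · have b1 : (y : ℝ) ≤ x₁ := by exact_mod_cast hy.le
    refine ⟨by nlinarith, fun hy' => ?_, by nlinarith [sq_nonneg ((x₀ : ℝ) - x₁)], fun _ => by simp⟩
    have b2 : -6 * (h : ℝ) - 1 ≤ y := by exact_mod_cast hy'
    have c1 : ((y : ℝ) - x₀) ^ 2 ≤ (94 * h) ^ 2 := by
      apply sq_le_sq' <;> linarith
    have c2 : (85 * (h : ℝ)) ^ 2 ≤ ((x₀ : ℝ) - x₁) ^ 2 := by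
      apply sq_le_sq' <;> linarith
    nlinarith
  · have b1 : (x₁ : ℝ) ≤ y := by exact_mod_cast not_lt.1 hy
    refine ⟨le_rfl, fun _ => sq_nonneg _, by nlinarith [sq_nonneg ((y : ℝ) - x₀)], fun hy' => ?_⟩
    have b2 : (y : ℝ) ≤ 101 * h := by exact_mod_cast hy'
    have c1 : ((y : ℝ) - x₀) ^ 2 ≤ ((x₀ : ℝ) - x₁) ^ 2 := by
      apply sq_le_sq' <;> linarith
    linarith

theorem phi_one (x₀ x₁ : ℤ) : Phi x₀ x₁ 1 = 0 := by
  simp [Phi, Lam]

theorem phi_a (x₀ x₁ : ℤ) (g : En) : Phi x₀ x₁ (g * En.a) =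
    Phi x₀ x₁ g + 1 - 2 * Qm x₀ x₁ g.x / ((x₀ : ℝ) - x₁) ^ 2 := by
  simp only [Phi, Lam, En.mul_x, En.mul_p, En.mul_q, En.mul_r, En.a, ECal_sum]
  push_cast
  ring

theorem phi_a_inv (x₀ x₁ : ℤ) (g : En) : Phi x₀ x₁ (g * En.a⁻¹) =
    Phi x₀ x₁ g - 1 + 2 * Qm x₀ x₁ (g.x - 1) / ((x₀ : ℝ) - x₁) ^ 2 := by
  have h := phi_a x₀ x₁ (g * En.a⁻¹)
  have e : (g * En.a⁻¹).x = g.x - 1 := by simp [En.a, sub_eq_add_neg]
  rw [inv_mul_cancel_right, e] at h
  linarith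

theorem phi_b (x₀ x₁ : ℤ) (g : En) : Phi x₀ x₁ (g * En.b) =
    Phi x₀ x₁ g - 1 + 2 * (Qf x₀ x₁ (g.x - 1) + Qm x₀ x₁ (g.x - 1)) / ((x₀ : ℝ) - x₁) ^ 2 := by
  have h := ECal_sum x₀ x₁ (g.x - 1)
  rw [sub_add_cancel] at h
  have e : (g * En.b).x = g.x - 1 := by simp [En.b, sub_eq_add_neg]
  unfold Phi
  rw [e, h]
  simp only [Lam, Qf, En.mul_p, En.mul_q, En.mul_r, En.b]
  push_cast
  rw [tri_cast]
  ring

theorem phi_b_inv (x₀ x₁ : ℤ) (g : En) : Phi x₀ x₁ (g * En.b⁻¹) =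
    Phi x₀ x₁ g + 1 - 2 * (Qf x₀ x₁ g.x + Qm x₀ x₁ g.x) / ((x₀ : ℝ) - x₁) ^ 2 := by
  have h := phi_b x₀ x₁ (g * En.b⁻¹)
  have e : (g * En.b⁻¹).x - 1 = g.x := by simp [En.b]
  rw [inv_mul_cancel_right, e] at h
  linarith

theorem phi_elt {h k n s x₀ x₁ i j : ℕ} (hP : Par h k n s x₀ x₁ i j) :
    (n : ℝ) - 1 ≤ Phi x₀ x₁ (elt n s x₀ x₁ i j) := by
  obtain ⟨p1, p2, p3, p4, p5, p6, p7, p8, p9, p10, p11⟩ := hP
  have e : Finset.Ico (elt n s x₀ x₁ i j).x (x₁ : ℤ) = ∅ :=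
    Finset.Ico_eq_empty (by simp only [elt]; omega)
  have a0 : (1 : ℝ) ≤ h := by exact_mod_cast (by omega : 1 ≤ h)
  have a1 : 87 * (h : ℝ) ≤ x₀ := by exact_mod_cast p6
  have a4 : (x₁ : ℝ) ≤ 2 * h := by exact_mod_cast p9.le
  have a5 : (j : ℝ) ≤ (h : ℝ) ^ 2 := by exact_mod_cast p11.le
  have a6 : (0 : ℝ) ≤ i := Nat.cast_nonneg i
  have c2 : (85 * (h : ℝ)) ^ 2 ≤ ((x₀ : ℝ) - x₁) ^ 2 := by
    apply sq_le_sq' <;> linarith
  have c3 : (0 : ℝ) < ((x₀ : ℝ) - x₁) ^ 2 := by nlinarith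
  have key : Phi x₀ x₁ (elt n s x₀ x₁ i j) =
      n + 2 * ((2 * (x₀ : ℝ) - 1) * i - 2 * j) / ((x₀ : ℝ) - x₁) ^ 2 := by
    unfold Phi
    rw [e, ECal_sum0]
    simp only [Lam, elt, Finset.sum_empty]
    push_cast
    rw [tri_cast (x₀ : ℤ)]
    push_cast
    have c4 : (x₀ : ℝ) - x₁ ≠ 0 := fun h0 => by rw [h0] at c3; simp at c3
    field_simp
    ring
  rw [key]
  have : -1 ≤ 2 * ((2 * (x₀ : ℝ) - 1) * i - 2 * j) / ((x₀ : ℝ) - x₁) ^ 2 := by
    rw [le_div_iff₀ c3]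
    nlinarith [mul_nonneg (by linarith : (0 : ℝ) ≤ 2 * (x₀ : ℝ) - 1) a6]
  linarith

theorem calE {h k n s x₀ x₁ i j : ℕ} (hP : Par h k n s x₀ x₁ i j) {l : List En} (hl : Word SE l)
    (he : l.prod = elt n s x₀ x₁ i j) (hk : l.length ≤ k) : n ≤ l.length + 1 := by
  have h0 := phi_elt hP
  obtain ⟨p1, p2, p3, p4, p5, p6, p7, p8, p9, p10, p11⟩ := hP
  have hh : 1 ≤ h := by omega
  have c3 : (0 : ℝ) < (((x₀ : ℤ) : ℝ) - (x₁ : ℤ)) ^ 2 := by
    have : ((x₁ : ℤ) : ℝ) < (x₀ : ℤ) := by exact_mod_cast (by omega : x₁ < x₀)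
    exact pow_pos (by linarith) 2
  have hx : l.prod.x = (n : ℤ) - 2 * s := by rw [he]; rfl
  have main : ∀ m : ℕ, m ≤ l.length → Phi x₀ x₁ (l.take m).prod ≤ m := by
    intro m
    induction m with
    | zero => intro _; simp [phi_one]
    | succ m ih =>
      intro hm
      have ih' := ih (by omega)
      have hm' : m < l.length := hm
      obtain ⟨r1, r2⟩ := range_E hl m
      rw [List.prod_take_succ l m hm']
      set g := (l.take m).prod with hg
      obtain ⟨q1, -, -, q4⟩ := ECal_ineq hh p6 p7 p9 g.x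
      obtain ⟨-, q2, q3, -⟩ := ECal_ineq hh p6 p7 p9 (g.x - 1)
      have q2' := q2 (by omega)
      have q4' := q4 (by omega)
      push_cast
      rcases word_SE.1 (hl _ (List.getElem_mem hm')) with e | e | e | e <;> rw [e]
      · rw [phi_a]
        have := div_nonneg (mul_nonneg zero_le_two q1) c3.le
        linarith
      · rw [phi_a_inv]
        have : 2 * Qm x₀ x₁ (g.x - 1) / (((x₀ : ℤ) : ℝ) - (x₁ : ℤ)) ^ 2 ≤ 2 := by
          rw [div_le_iff₀ c3]; linarith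
        linarith
      · rw [phi_b]
        have : 2 * (Qf x₀ x₁ (g.x - 1) + Qm x₀ x₁ (g.x - 1)) /
            (((x₀ : ℤ) : ℝ) - (x₁ : ℤ)) ^ 2 ≤ 2 := by
          rw [div_le_iff₀ c3]; linarith
        linarith
      · rw [phi_b_inv]
        have := div_nonneg (mul_nonneg zero_le_two q4') c3.le
        linarith
  have h1 := main l.length le_rfl
  rw [List.take_length, he] at h1
  have : (n : ℝ) ≤ l.length + 1 := by linarith
  exact_mod_cast this

end Pool.Agent.MP_b3b911_al.Fil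

end

section

namespace Pool.Agent.MP_b3b911_al.Fil

/-- the clamped position -/
def ECalV_psi (x₀ om x : ℤ) : ℤ := max (x₀ - om) (min x (x₀ + om + 1)) - (x₀ - om)

/-- the potential of the state -/
def ECalV_Psi (x₀ om : ℤ) (g : VE) : ℤ :=
  if g.right = 1 then 2 * om + 1 else ECalV_psi x₀ om g.left.x

/-- the total potential -/
noncomputable def ECalV_Fn (x₀ x₁ om : ℤ) (lam : ℝ) (g : VE) : ℝ :=
  -(g.left.x : ℝ) / 2 + ECalV_Psi x₀ om g + lam * Phi x₀ x₁ g.left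

theorem ECalV_psi_mem {x₀ om : ℤ} (hom : 0 ≤ om) (x : ℤ) :
    0 ≤ ECalV_psi x₀ om x ∧ ECalV_psi x₀ om x ≤ 2 * om + 1 := by
  unfold ECalV_psi
  omega

theorem ECalV_psi_in {x₀ om y : ℤ} (h1 : x₀ - om ≤ y) (h2 : y ≤ x₀ + om) :
    ECalV_psi x₀ om (y + 1) = ECalV_psi x₀ om y + 1 := by
  unfold ECalV_psi
  omega

theorem ECalV_psi_out {x₀ om y : ℤ} (hom : 0 ≤ om) (h : y < x₀ - om ∨ x₀ + om < y) :
    ECalV_psi x₀ om (y + 1) = ECalV_psi x₀ om y := by
  unfold ECalV_psi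
  omega

theorem ECalV_Qm_nonneg {x₀ x₁ : ℤ} (h : x₁ ≤ x₀) (y : ℤ) : 0 ≤ Qm x₀ x₁ y := by
  unfold Qm Qf
  split_ifs with hy
  · have h1 : (x₁ : ℝ) ≤ x₀ := by exact_mod_cast h
    have h2 : (y : ℝ) ≤ x₁ := by exact_mod_cast hy.le
    nlinarith
  · exact le_rfl

theorem ECalV_Qm_le {x₀ x₁ H y : ℤ} (hH : 0 ≤ H) (h0 : 87 * H ≤ x₀) (h0' : x₀ < 88 * H)
    (h1' : x₁ < 2 * H) (hy : -6 * H ≤ y) : Qm x₀ x₁ y ≤ ((x₀ : ℝ) - x₁) ^ 2 / 2 := by
  unfold Qm Qf
  split_ifs with hlt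
  · have a0 : (0 : ℝ) ≤ H := by exact_mod_cast hH
    have a1 : 87 * (H : ℝ) ≤ x₀ := by exact_mod_cast h0
    have a2 : (x₀ : ℝ) ≤ 88 * H := by exact_mod_cast h0'.le
    have a3 : (x₁ : ℝ) ≤ 2 * H := by exact_mod_cast h1'.le
    have a4 : -6 * (H : ℝ) ≤ y := by exact_mod_cast hy
    have a5 : (y : ℝ) ≤ x₁ := by exact_mod_cast hlt.le
    have b1 : (85 * (H : ℝ)) ^ 2 ≤ ((x₀ : ℝ) - x₁) ^ 2 :=
      pow_le_pow_left₀ (by positivity) (by linarith) 2
    have b2 : ((x₀ : ℝ) - y) ^ 2 ≤ (94 * (H : ℝ)) ^ 2 :=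
      pow_le_pow_left₀ (by linarith) (by linarith) 2
    nlinarith [sq_nonneg (H : ℝ)]
  · positivity

theorem ECalV_sum_le (x₀ x₁ y : ℤ) : Qf x₀ x₁ y + Qm x₀ x₁ y ≤ ((x₀ : ℝ) - x₁) ^ 2 := by
  unfold Qm
  split_ifs with hlt
  · rw [add_neg_cancel]
    positivity
  · unfold Qf
    nlinarith [sq_nonneg ((y : ℝ) - x₀)]

theorem ECalV_sum_out {x₀ x₁ om y : ℤ} (hom : 0 ≤ om) (hd : om ≤ x₀ - x₁)
    (h : y < x₀ - om ∨ x₀ + om < y) :
    Qf x₀ x₁ y + Qm x₀ x₁ y ≤ ((x₀ : ℝ) - x₁) ^ 2 - (om : ℝ) ^ 2 := by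
  have a0 : (0 : ℝ) ≤ om := by exact_mod_cast hom
  have a1 : (om : ℝ) ≤ x₀ - x₁ := by exact_mod_cast hd
  unfold Qm
  split_ifs with hlt
  · rw [add_neg_cancel]
    nlinarith
  · unfold Qf
    rcases h with h | h
    · have a2 : (y : ℝ) ≤ x₀ - om := by exact_mod_cast h.le
      nlinarith
    · have a2 : (x₀ : ℝ) + om ≤ y := by exact_mod_cast h.le
      nlinarith

theorem ECalV_sum_in {x₀ x₁ om y : ℤ} (hom : 0 ≤ om) (hd : 2 * om ≤ x₀ - x₁)
    (h1 : x₀ - om ≤ y) (h2 : y ≤ x₀ + om) :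
    ((x₀ : ℝ) - x₁) ^ 2 / 2 ≤ Qf x₀ x₁ y + Qm x₀ x₁ y := by
  have a0 : (0 : ℝ) ≤ om := by exact_mod_cast hom
  have a1 : 2 * (om : ℝ) ≤ x₀ - x₁ := by exact_mod_cast hd
  have a2 : (x₀ : ℝ) - om ≤ y := by exact_mod_cast h1
  have a3 : (y : ℝ) ≤ x₀ + om := by exact_mod_cast h2
  have a4 := ECalV_Qm_nonneg (x₀ := x₀) (x₁ := x₁) (by omega) y
  have b1 : ((y : ℝ) - x₀) ^ 2 ≤ (om : ℝ) ^ 2 := sq_le_sq' (by linarith) (by linarith)
  have b2 : (2 * (om : ℝ)) ^ 2 ≤ ((x₀ : ℝ) - x₁) ^ 2 := pow_le_pow_left₀ (by positivity) a1 2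
  unfold Qf
  nlinarith [sq_nonneg (om : ℝ)]

theorem ECalV_sum_nonneg {x₀ x₁ y : ℤ} (h : y - x₀ ≤ x₀ - x₁) :
    0 ≤ Qf x₀ x₁ y + Qm x₀ x₁ y := by
  unfold Qm
  split_ifs with hlt
  · rw [add_neg_cancel]
  · unfold Qf
    have a1 : (y : ℝ) - x₀ ≤ x₀ - x₁ := by exact_mod_cast h
    have a2 : (x₁ : ℝ) ≤ y := by exact_mod_cast not_lt.1 hlt
    have b1 : ((y : ℝ) - x₀) ^ 2 ≤ ((x₀ : ℝ) - x₁) ^ 2 := sq_le_sq' (by linarith) a1
    linarith

theorem ECalV_fl_inv : En.fl En.a⁻¹ = En.b⁻¹ := by decide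

theorem ECalV_neg_ne : (-1 : ℤˣ) ≠ 1 := by decide

theorem ECalV_step {x₀ x₁ H U : ℤ} (hU : 1 ≤ U) (hUH : U ^ 3 ≤ H) (hHU : H ≤ 8 * U ^ 3)
    (h0 : 87 * H ≤ x₀) (h0' : x₀ < 88 * H) (h1 : H ≤ x₁) (h1' : x₁ < 2 * H) (g s : VE)
    (hs : s = va ∨ s = va⁻¹ ∨ s = vt) (hx : g.left.x ≤ 101 * H)
    (hx' : -6 * H ≤ (g * s).left.x) :
    ECalV_Fn x₀ x₁ (U ^ 2) (250000 * (U : ℝ) ^ 2) (g * s) ≤
      ECalV_Fn x₀ x₁ (U ^ 2) (250000 * (U : ℝ) ^ 2) g + (250000 * (U : ℝ) ^ 2 - 1 / 2) := by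
  have hU2 : 1 ≤ U ^ 2 := one_le_pow₀ hU
  have hU23 : U ^ 2 ≤ U ^ 3 := pow_le_pow_right₀ hU (by norm_num)
  have hom : 0 ≤ U ^ 2 := by positivity
  have hH : 1 ≤ H := by omega
  have hUr : (1 : ℝ) ≤ (U : ℝ) ^ 2 := by exact_mod_cast hU2
  have hD : (0 : ℝ) < (x₀ : ℝ) - x₁ := by
    have : x₁ < x₀ := by omega
    have : (x₁ : ℝ) < x₀ := by exact_mod_cast this
    linarith
  have hQ : (0 : ℝ) < ((x₀ : ℝ) - x₁) ^ 2 := by positivity
  have hQU : ((x₀ : ℝ) - x₁) ^ 2 ≤ 500000 * ((U : ℝ) ^ 2) ^ 3 := by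
    have e1 : x₀ - x₁ ≤ 696 * U ^ 3 := by omega
    have e2 : (x₀ : ℝ) - x₁ ≤ 696 * (U : ℝ) ^ 3 := by exact_mod_cast e1
    have e3 : ((x₀ : ℝ) - x₁) ^ 2 ≤ (696 * (U : ℝ) ^ 3) ^ 2 := pow_le_pow_left₀ hD.le e2 2
    have e4 : (696 * (U : ℝ) ^ 3) ^ 2 = 484416 * ((U : ℝ) ^ 2) ^ 3 := by ring
    have e5 : (0 : ℝ) ≤ ((U : ℝ) ^ 2) ^ 3 := by positivity
    linarith
  set lam : ℝ := 250000 * (U : ℝ) ^ 2 with hlam
  have hlam1 : 1 ≤ lam := by linarith
  have hlam0 : 0 ≤ lam := by linarith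
  have hva : va⁻¹ = (⟨En.a⁻¹, 1⟩ : VE) := by
    ext <;> simp [va]
  obtain ⟨g, σ⟩ := g
  rcases Int.units_eq_one_or σ with rfl | rfl
  · rcases hs with rfl | rfl | rfl
    · have e : (⟨g, 1⟩ : VE) * va = ⟨g * En.a, 1⟩ := by
        ext <;> simp [va]
      rw [e]
      simp only [ECalV_Fn, ECalV_Psi, if_true, phi_a, En.mul_x]
      have a1 := ECalV_Qm_nonneg (x₀ := x₀) (x₁ := x₁) (by omega) g.x
      have a2 : 0 ≤ 2 * Qm x₀ x₁ g.x / ((x₀ : ℝ) - x₁) ^ 2 := by positivity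
      have a3 := mul_nonneg hlam0 a2
      have a4 : En.a.x = 1 := rfl
      rw [a4]
      push_cast
      nlinarith
    · have e : (⟨g, 1⟩ : VE) * va⁻¹ = ⟨g * En.a⁻¹, 1⟩ := by
        rw [hva]
        ext <;> simp
      rw [e] at hx' ⊢
      have a4 : En.a.x = 1 := rfl
      simp only [En.mul_x, En.inv_x, a4] at hx'
      simp only [ECalV_Fn, ECalV_Psi, if_true, phi_a_inv, En.mul_x, En.inv_x, a4]
      have a1 := ECalV_Qm_le (x₀ := x₀) (x₁ := x₁) (y := g.x - 1) (by omega) h0 h0' h1' (by omega)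
      have a2 : 2 * Qm x₀ x₁ (g.x - 1) / ((x₀ : ℝ) - x₁) ^ 2 ≤ 1 := by
        rw [div_le_iff₀ hQ]
        linarith
      have a3 := mul_le_mul_of_nonneg_left a2 hlam0
      push_cast
      nlinarith
    · have e : (⟨g, 1⟩ : VE) * vt = ⟨g, -1⟩ := by
        ext <;> simp [vt]
      rw [e]
      simp only [ECalV_Fn, ECalV_Psi, if_true, if_neg ECalV_neg_ne]
      have a1 := (ECalV_psi_mem (x₀ := x₀) hom g.x).2
      have a2 : (ECalV_psi x₀ (U ^ 2) g.x : ℝ) ≤ ((2 * U ^ 2 + 1 : ℤ) : ℝ) := by exact_mod_cast a1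
      linarith
  · rcases hs with rfl | rfl | rfl
    · have e : (⟨g, -1⟩ : VE) * va = ⟨g * En.b, -1⟩ := by
        ext <;> simp [va, En.act_neg, En.fl_a]
      rw [e]
      have a4 : En.b.x = -1 := rfl
      simp only [ECalV_Fn, ECalV_Psi, if_neg ECalV_neg_ne, phi_b, En.mul_x, a4]
      have e1 : g.x + -1 = g.x - 1 := by ring
      rw [e1]
      by_cases hin : x₀ - U ^ 2 ≤ g.x - 1 ∧ g.x - 1 ≤ x₀ + U ^ 2
      · have a1 := ECalV_psi_in hin.1 hin.2
        rw [sub_add_cancel] at a1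
        rw [a1]
        have a2 : 2 * (Qf x₀ x₁ (g.x - 1) + Qm x₀ x₁ (g.x - 1)) / ((x₀ : ℝ) - x₁) ^ 2 ≤ 2 := by
          rw [div_le_iff₀ hQ]
          linarith [ECalV_sum_le x₀ x₁ (g.x - 1)]
        have a3 := mul_le_mul_of_nonneg_left a2 hlam0
        push_cast
        nlinarith
      · have hout : g.x - 1 < x₀ - U ^ 2 ∨ x₀ + U ^ 2 < g.x - 1 := by omega
        have a1 := ECalV_psi_out hom hout
        rw [sub_add_cancel] at a1
        rw [a1]
        have a5 := ECalV_sum_out (x₁ := x₁) hom (by omega) hout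
        have a2 : lam * (2 * (Qf x₀ x₁ (g.x - 1) + Qm x₀ x₁ (g.x - 1)) / ((x₀ : ℝ) - x₁) ^ 2) ≤
            2 * lam - 1 := by
          rw [← mul_div_assoc, div_le_iff₀ hQ]
          have b1 := mul_le_mul_of_nonneg_left a5 hlam0
          have b2 : lam * (((U ^ 2 : ℤ) : ℝ)) ^ 2 = 250000 * ((U : ℝ) ^ 2) ^ 3 := by
            rw [hlam]
            push_cast
            ring
          nlinarith
        push_cast
        nlinarith
    · have e : (⟨g, -1⟩ : VE) * va⁻¹ = ⟨g * En.b⁻¹, -1⟩ := by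
        rw [hva]
        ext <;> simp [En.act_neg, ECalV_fl_inv]
      rw [e]
      have a4 : En.b.x = -1 := rfl
      simp only [ECalV_Fn, ECalV_Psi, if_neg ECalV_neg_ne, phi_b_inv, En.mul_x, En.inv_x, a4,
        neg_neg]
      by_cases hin : x₀ - U ^ 2 ≤ g.x ∧ g.x ≤ x₀ + U ^ 2
      · rw [ECalV_psi_in hin.1 hin.2]
        have a5 := ECalV_sum_in (x₁ := x₁) hom (by omega) hin.1 hin.2
        have a2 : 1 ≤ 2 * (Qf x₀ x₁ g.x + Qm x₀ x₁ g.x) / ((x₀ : ℝ) - x₁) ^ 2 := by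
          rw [le_div_iff₀ hQ]
          linarith
        have a3 := mul_le_mul_of_nonneg_left a2 hlam0
        push_cast
        nlinarith
      · have hout : g.x < x₀ - U ^ 2 ∨ x₀ + U ^ 2 < g.x := by omega
        rw [ECalV_psi_out hom hout]
        have hx2 : g.x ≤ 101 * H := hx
        have a5 := ECalV_sum_nonneg (x₀ := x₀) (x₁ := x₁) (y := g.x) (by omega)
        have a2 : 0 ≤ 2 * (Qf x₀ x₁ g.x + Qm x₀ x₁ g.x) / ((x₀ : ℝ) - x₁) ^ 2 := by positivity
        have a3 := mul_nonneg hlam0 a2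
        push_cast
        nlinarith
    · have e : (⟨g, -1⟩ : VE) * vt = ⟨g, 1⟩ := by
        ext <;> simp [vt]
      rw [e]
      simp only [ECalV_Fn, ECalV_Psi, if_true, if_neg ECalV_neg_ne]
      have a1 := (ECalV_psi_mem (x₀ := x₀) hom g.x).1
      have a2 : (0 : ℝ) ≤ (ECalV_psi x₀ (U ^ 2) g.x : ℝ) := by exact_mod_cast a1
      push_cast
      linarith

theorem calV {h k n s x₀ x₁ i j u : ℕ} (hP : Par h k n s x₀ x₁ i j) (hu : 1 ≤ u) (h1 : u ^ 3 ≤ h)
    (h2 : h ≤ 8 * u ^ 3) (ε : ℤˣ) (hb : Ball SV k (⟨elt n s x₀ x₁ i j, ε⟩ : VE)) :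
    u ≤ 62500 * (k - n + 2) := by
  obtain ⟨l, hl, hw, he⟩ := hb
  have hlk : l.length ≤ k := by exact_mod_cast hl
  have hphi := phi_elt hP
  obtain ⟨p1, p2, p3, p4, p5, p6, p7, p8, p9, -, -⟩ := hP
  have hX : l.prod.left.x = (n : ℤ) - 2 * s := by rw [he]; rfl
  have hU : (1 : ℤ) ≤ u := by exact_mod_cast hu
  have hUH : (u : ℤ) ^ 3 ≤ h := by exact_mod_cast h1
  have hHU : (h : ℤ) ≤ 8 * (u : ℤ) ^ 3 := by exact_mod_cast h2
  set lam : ℝ := 250000 * ((u : ℤ) : ℝ) ^ 2 with hlam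
  have key : ∀ t : ℕ, t ≤ l.length →
      ECalV_Fn x₀ x₁ ((u : ℤ) ^ 2) lam (l.take t).prod ≤
        ECalV_Fn x₀ x₁ ((u : ℤ) ^ 2) lam 1 + t * (lam - 1 / 2) := by
    intro t
    induction t with
    | zero => intro _; simp
    | succ t ih =>
      intro ht
      have ht' : t < l.length := ht
      have e : (l.take (t + 1)).prod = (l.take t).prod * l[t] := List.prod_take_succ l t ht'
      have r1 := (range_V hw t).2
      have r2 := (range_V hw (t + 1)).1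
      rw [e, hX] at r2
      have hs := word_SV.1 (hw _ (List.getElem_mem ht'))
      have st := ECalV_step (x₀ := x₀) (x₁ := x₁) (H := h) (U := u) hU hUH hHU (by omega)
        (by omega) (by omega) (by omega) (l.take t).prod l[t] hs (by omega) (by omega)
      have ih' := ih ht'.le
      rw [e]
      push_cast
      linarith
  have k1 := key l.length le_rfl
  rw [List.take_length, he] at k1
  have hom : (0 : ℤ) ≤ (u : ℤ) ^ 2 := by positivity
  have hPsi : (0 : ℝ) ≤ ECalV_Psi x₀ ((u : ℤ) ^ 2) (⟨elt n s x₀ x₁ i j, ε⟩ : VE) := by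
    have : 0 ≤ ECalV_Psi x₀ ((u : ℤ) ^ 2) (⟨elt n s x₀ x₁ i j, ε⟩ : VE) := by
      unfold ECalV_Psi
      split_ifs
      · omega
      · exact (ECalV_psi_mem hom _).1
    exact_mod_cast this
  have hone : ECalV_Fn x₀ x₁ ((u : ℤ) ^ 2) lam 1 = 2 * (u : ℝ) ^ 2 + 1 := by
    simp [ECalV_Fn, ECalV_Psi, phi_one]
  have hxe : ((elt n s x₀ x₁ i j).x : ℝ) = (n : ℝ) - 2 * s := by
    simp [elt]
  have hur : (1 : ℝ) ≤ u := by exact_mod_cast hu
  have hu2 : (1 : ℝ) ≤ (u : ℝ) ^ 2 := one_le_pow₀ hur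
  have hlam' : lam = 250000 * (u : ℝ) ^ 2 := by rw [hlam]; push_cast; ring
  have hlam0 : 0 ≤ lam - 1 / 2 := by linarith
  rw [hone] at k1
  unfold ECalV_Fn at k1
  simp only [hxe] at k1
  have k2 := mul_le_mul_of_nonneg_left hphi (show 0 ≤ lam by linarith)
  have k3 := mul_le_mul_of_nonneg_right hl hlam0
  have hs8 : 4 * (u : ℝ) ^ 3 ≤ s := by
    have : 4 * u ^ 3 ≤ s := by omega
    exact_mod_cast this
  have hnk : (n : ℝ) ≤ k := by exact_mod_cast p3
  have k4 : 4 * (u : ℝ) ^ 3 ≤ 250000 * (u : ℝ) ^ 2 * ((k : ℝ) - n + 2) := by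
    rw [← hlam']
    nlinarith
  have k5 : (u : ℝ) ≤ 62500 * ((k : ℝ) - n + 2) := by
    by_contra hc
    have hc' := not_le.1 hc
    have : (0 : ℝ) < (u : ℝ) ^ 2 := by positivity
    nlinarith
  have k6 : ((62500 * (k - n + 2) : ℕ) : ℝ) = 62500 * ((k : ℝ) - n + 2) := by
    push_cast [Nat.cast_sub p3]
    ring
  have k7 : (u : ℝ) ≤ ((62500 * (k - n + 2) : ℕ) : ℝ) := by rw [k6]; exact k5
  exact_mod_cast k7

end Pool.Agent.MP_b3b911_al.Fil

end

section

namespace Pool.Agent.MP_b3b911_al.Fil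

theorem EKap_le (l : List En) (σ σ' : ℤˣ) : kap σ l ≤ kap σ' l + 1 := by
  cases l with
  | nil => simp [kap]
  | cons s l => simp only [kap]; split_ifs <;> omega

theorem EKap_step {s : En} (h : s ∈ SE ∨ s⁻¹ ∈ SE) :
    ∃ v : VE, (v ∈ SV ∨ v⁻¹ ∈ SV) ∧ ∀ e : En, (⟨e, ty s⟩ : VE) * v = ⟨e * s, ty s⟩ := by
  have h1 : ty En.a = 1 := by decide
  have h2 : ty En.a⁻¹ = 1 := by decide
  have h3 : ty En.b = -1 := by decide
  have h4 : ty En.b⁻¹ = -1 := by decide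
  have h5 : En.fl En.a⁻¹ = En.b⁻¹ := by decide
  rcases word_SE.1 h with rfl | rfl | rfl | rfl
  · exact ⟨va, word_SV.2 (Or.inl rfl), fun e => by ext1 <;> simp [va, h1]⟩
  · exact ⟨va⁻¹, word_SV.2 (Or.inr (Or.inl rfl)), fun e => by ext1 <;> simp [va, h2]⟩
  · exact ⟨va, word_SV.2 (Or.inl rfl), fun e => by
      ext1 <;> simp [va, h3, En.act_neg, En.fl_a]⟩
  · exact ⟨va⁻¹, word_SV.2 (Or.inr (Or.inl rfl)), fun e => by
      ext1 <;> simp [va, h4, En.act_neg, h5]⟩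

theorem EKap_vt (e : En) {σ τ : ℤˣ} (h : τ ≠ σ) : (⟨e, σ⟩ : VE) * vt = ⟨e, τ⟩ := by
  ext1
  · simp [vt]
  · rcases Int.units_eq_one_or σ with rfl | rfl <;> rcases Int.units_eq_one_or τ with rfl | rfl <;>
      simp_all [vt]

theorem EKap_cons {G : Type*} [Group G] {S : Finset G} {s : G} {l : List G} :
    Word S (s :: l) ↔ (s ∈ S ∨ s⁻¹ ∈ S) ∧ Word S l := List.forall_mem_cons

theorem EKap_word {l : List En} (h : Word SE l) (σ : ℤˣ) (e : En) :
    ∃ (w : List VE) (σ' : ℤˣ), Word SV w ∧ w.length = kap σ l ∧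
      (⟨e, σ⟩ : VE) * w.prod = ⟨e * l.prod, σ'⟩ := by
  induction l generalizing σ e with
  | nil => exact ⟨[], σ, fun _ hx => by simp at hx, rfl, by simp⟩
  | cons s l ih =>
    obtain ⟨hs, hl⟩ := EKap_cons.1 h
    obtain ⟨v, hv, hv'⟩ := EKap_step hs
    obtain ⟨w, σ', hw, hlen, hp⟩ := ih hl (ty s) (e * s)
    by_cases hσ : ty s = σ
    · refine ⟨v :: w, σ', EKap_cons.2 ⟨hv, hw⟩, ?_, ?_⟩
      · simp only [kap, if_pos hσ, List.length_cons, hlen]; omega
      · rw [List.prod_cons, ← mul_assoc, ← hσ, hv', hp, List.prod_cons, mul_assoc]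
    · refine ⟨vt :: v :: w, σ', EKap_cons.2 ⟨word_SV.2 (Or.inr (Or.inr rfl)),
        EKap_cons.2 ⟨hv, hw⟩⟩, ?_, ?_⟩
      · simp only [kap, if_neg hσ, List.length_cons, hlen]; omega
      · rw [List.prod_cons, List.prod_cons, ← mul_assoc, EKap_vt e hσ, ← mul_assoc, hv', hp,
          List.prod_cons, mul_assoc]

theorem EKap_act (σ : ℤˣ) : En.act σ En.a ∈ SE := by
  rcases Int.units_eq_one_or σ with rfl | rfl
  · simp [SE]
  · simp [SE, En.act_neg, En.fl_a]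

theorem EKap_left {w : List VE} (h : Word SV w) (σ : ℤˣ) :
    ∃ l : List En, Word SE l ∧ l.length ≤ w.length ∧ l.prod = En.act σ w.prod.left := by
  induction w generalizing σ with
  | nil => exact ⟨[], fun _ hx => by simp at hx, le_rfl, by simp⟩
  | cons s w ih =>
    obtain ⟨hs, hw⟩ := EKap_cons.1 h
    obtain ⟨l, hl, hlen, hp⟩ := ih hw (σ * s.right)
    have e : En.act σ (s :: w).prod.left = En.act σ s.left * l.prod := by
      rw [hp, List.prod_cons, SemidirectProduct.mul_left, map_mul, map_mul, MulAut.mul_apply]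
    rw [e]
    rcases word_SV.1 hs with rfl | rfl | rfl
    · exact ⟨_ :: l, EKap_cons.2 ⟨Or.inl (EKap_act σ), hl⟩, by simpa using hlen, List.prod_cons⟩
    · refine ⟨_ :: l, EKap_cons.2 ⟨Or.inr ?_, hl⟩, by simpa using hlen, List.prod_cons⟩
      simpa [va] using EKap_act σ
    · exact ⟨l, hl, hlen.trans (by simp), by simp [vt]⟩

theorem EKap_perm {l l' : List En} (h : l.Perm l') :
    l.prod.x = l'.prod.x ∧ l.prod.p = l'.prod.p := by
  induction h with
  | nil => simp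
  | cons s _ ih => simp [ih.1, ih.2]
  | swap s t l => simp only [List.prod_cons, En.mul_x, En.mul_p]; omega
  | trans _ _ ih ih' => exact ⟨ih.1.trans ih'.1, ih.2.trans ih'.2⟩

theorem EKap_app {l₁ l₂ : List En} {τ : ℤˣ} {M : ℕ} (h : ∀ s ∈ l₁, ty s = τ)
    (hM : ∀ σ, kap σ l₂ ≤ M) (σ : ℤˣ) : kap σ (l₁ ++ l₂) ≤ l₁.length + 1 + M := by
  have key : kap τ (l₁ ++ l₂) ≤ l₁.length + M := by
    induction l₁ with
    | nil => simpa using hM τ
    | cons s l ih =>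
      obtain ⟨h1, h2⟩ := List.forall_mem_cons.1 h
      have := ih h2
      simp only [List.cons_append, kap, h1, if_true, List.length_cons]
      omega
  have := EKap_le (l₁ ++ l₂) σ τ
  omega

theorem EKap_sort (T : ℕ) (hT : 1 ≤ T) (K : ℕ) (n : ℕ) : ∀ l : List En, l.length = n → n ≤ K →
    Word SE l → ∃ l' : List En, Word SE l' ∧
    l'.length = l.length ∧ (∀ σ, kap σ l' ≤ l.length + 2 * (l.length / T + 1)) ∧
    l'.prod.x = l.prod.x ∧ l'.prod.p = l.prod.p ∧ |l'.prod.q - l.prod.q| ≤ 2 * T * l.length ∧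
    |l'.prod.r - l.prod.r| ≤ 4 * T * l.length * K := by
  induction n using Nat.strong_induction_on with
  | _ n ih =>
  intro l hn hK h
  rcases Nat.eq_zero_or_pos n with rfl | hpos
  · obtain rfl := List.length_eq_zero_iff.1 hn
    exact ⟨[], h, rfl, fun σ => by simp [kap], rfl, rfl, by simp, by simp⟩
  obtain ⟨R', w1, w2, w3, w4, w5, w6, w7⟩ := ih (l.drop T).length
    (by rw [List.length_drop]; omega) (l.drop T) rfl (by rw [List.length_drop]; omega) (h.drop T)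
  have hl : l.take T ++ l.drop T = l := List.take_append_drop T l
  have hB := h.take T
  have hBT : (l.take T).length ≤ T := List.length_take_le T l
  have hR : (l.drop T).length = l.length - T := List.length_drop
  generalize l.take T = B at hl hB hBT
  generalize l.drop T = R at hl hR w2 w3 w4 w5 w6 w7
  have hlen : B.length + R.length = l.length := by rw [← hl, List.length_append]
  have hp := List.filter_append_perm (fun s => decide (ty s = 1)) B
  have f1 : ∀ s ∈ B.filter fun s => decide (ty s = 1), ty s = 1 := fun s hs => by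
    simpa using (List.mem_filter.1 hs).2
  have f2 : ∀ s ∈ B.filter fun s => !decide (ty s = 1), ty s = -1 := fun s hs =>
    (Int.units_eq_one_or _).resolve_left (by simpa using (List.mem_filter.1 hs).2)
  generalize (B.filter fun s => decide (ty s = 1)) = F₁ at hp f1
  generalize (B.filter fun s => !decide (ty s = 1)) = F₂ at hp f2
  have hF : Word SE (F₁ ++ F₂) := fun s hs => hB s (hp.subset hs)
  have hFl := hp.length_eq
  obtain ⟨e1, e2⟩ := EKap_perm hp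
  obtain ⟨a1, -, a3, a4⟩ := ebig hB
  obtain ⟨-, -, b3, b4⟩ := ebig hF
  rw [hFl] at b3 b4
  have hq : |(F₁ ++ F₂).prod.q - B.prod.q| ≤ 2 * (B.length : ℤ) ^ 2 :=
    (abs_sub _ _).trans (by linarith)
  have hr : |(F₁ ++ F₂).prod.r - B.prod.r| ≤ 2 * (B.length : ℤ) ^ 3 :=
    (abs_sub _ _).trans (by linarith)
  have c1 : (B.length : ℤ) ≤ T := by exact_mod_cast hBT
  have c2 : (B.length : ℤ) + R.length = l.length := by exact_mod_cast hlen
  have c3 : (B.length : ℤ) ≤ K := by omega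
  have c4 : (R.length : ℤ) ≤ K := by omega
  have c5 : (0 : ℤ) ≤ B.length := by positivity
  have c6 : (0 : ℤ) ≤ R.length := by positivity
  have hpr : l.prod = B.prod * R.prod := by rw [← hl, List.prod_append]
  refine ⟨F₁ ++ F₂ ++ R', hF.append w1, by rw [List.length_append, hFl, w2, hlen], fun σ => ?_,
    ?_, ?_, ?_, ?_⟩
  · rw [List.append_assoc]
    rw [List.length_append] at hFl
    by_cases hc : T ≤ l.length
    · have := EKap_app f1 (EKap_app f2 w3) σ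
      have e : l.length / T = R.length / T + 1 := by rw [hR]; exact Nat.div_eq_sub_div hT hc
      omega
    · obtain rfl : R' = [] := List.length_eq_zero_iff.1 (by omega)
      have := EKap_app f1 (EKap_app (M := 0) (l₂ := []) f2 fun _ => le_rfl) σ
      generalize l.length / T = D
      omega
  · rw [List.prod_append, hpr, En.mul_x, En.mul_x, e1, w4]
  · rw [List.prod_append, hpr, En.mul_p, En.mul_p, e2, w5]
  · rw [List.prod_append, hpr, En.mul_q, En.mul_q, e1, w5, ← c2]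
    calc _ = |((F₁ ++ F₂).prod.q - B.prod.q) + (R'.prod.q - R.prod.q)| := by congr 1; ring
      _ ≤ 2 * (B.length : ℤ) ^ 2 + 2 * T * R.length := (abs_add_le _ _).trans (add_le_add hq w6)
      _ ≤ _ := by nlinarith
  · rw [List.prod_append, hpr, En.mul_r, En.mul_r, e1, w5, ← c2]
    have d : |B.prod.x * (R'.prod.q - R.prod.q)| ≤ B.length * (2 * T * R.length) := by
      rw [abs_mul]
      exact mul_le_mul a1 w6 (abs_nonneg _) c5
    have d1 : (B.length : ℤ) ^ 3 ≤ B.length * (T * K) := by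
      rw [pow_succ', sq]
      exact mul_le_mul_of_nonneg_left (mul_le_mul c1 c3 c5 (by positivity)) c5
    have d2 : (B.length : ℤ) * (T * R.length) ≤ B.length * (T * K) := by gcongr
    calc _ = |((F₁ ++ F₂).prod.r - B.prod.r) + (R'.prod.r - R.prod.r) +
          B.prod.x * (R'.prod.q - R.prod.q)| := by congr 1; ring
      _ ≤ 2 * (B.length : ℤ) ^ 3 + 4 * T * R.length * K + B.length * (2 * T * R.length) :=
        (abs_add_le _ _).trans (add_le_add ((abs_add_le _ _).trans (add_le_add hr w7)) d)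
      _ ≤ _ := by nlinarith

theorem kap_sub {l l' : List En} (h : l.Sublist l') (σ : ℤˣ) :
    kap σ l' + 3 * l.length ≤ kap σ l + 3 * l'.length := by
  induction h generalizing σ with
  | slnil => exact le_rfl
  | @cons l l' s _ ih =>
    have h1 := ih (ty s)
    have h2 := EKap_le l (ty s) σ
    simp only [kap, List.length_cons]
    split_ifs <;> omega
  | @cons_cons l l' s _ ih =>
    have h1 := ih (ty s)
    simp only [kap, List.length_cons]
    omega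

theorem kap_ball {l : List En} (h : Word SE l) (ε : ℤˣ) :
    Ball SV ((kap 1 l : ℝ) + 1) (⟨l.prod, ε⟩ : VE) := by
  obtain ⟨w, σ', hw, hlen, hp⟩ := EKap_word h 1 1
  rw [show (⟨1, 1⟩ : VE) = 1 from rfl, one_mul, one_mul] at hp
  by_cases hε : ε = σ'
  · exact ⟨w, by rw [hlen]; linarith, hw, hε ▸ hp⟩
  · refine ⟨w ++ [vt], by simp [hlen], hw.append fun x hx => ?_, ?_⟩
    · rw [List.mem_singleton.1 hx]
      exact word_SV.2 (Or.inr (Or.inr rfl))
    · rw [List.prod_append, hp, List.prod_singleton, EKap_vt _ hε]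

theorem ball_left {q : ℝ} {g : VE} (h : Ball SV q g) : Ball SE q g.left := by
  obtain ⟨w, hq, hw, rfl⟩ := h
  obtain ⟨l, hl, hlen, hp⟩ := EKap_left hw 1
  exact ⟨l, le_trans (by exact_mod_cast hlen) hq, hl, hp.trans (En.act_one _)⟩

theorem esort (T : ℕ) (hT : 1 ≤ T) {l : List En} (h : Word SE l) : ∃ l' : List En, Word SE l' ∧
    l'.length = l.length ∧ (∀ σ, kap σ l' ≤ l.length + 2 * (l.length / T + 1)) ∧
    l'.prod.x = l.prod.x ∧ l'.prod.p = l.prod.p ∧ |l'.prod.q - l.prod.q| ≤ 2 * T * l.length ∧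
    |l'.prod.r - l.prod.r| ≤ 4 * T * (l.length : ℤ) ^ 2 := by
  obtain ⟨l', h1, h2, h3, h4, h5, h6, h7⟩ := EKap_sort T hT l.length l.length l rfl le_rfl h
  exact ⟨l', h1, h2, h3, h4, h5, h6, h7.trans_eq (by ring)⟩

end Pool.Agent.MP_b3b911_al.Fil

end

section

namespace Pool.Agent.MP_b3b911_al.Fil

theorem ECnt_word : ∃ C : ℕ, ∀ h k n s x₀ x₁ i j : ℕ, Par h k n s x₀ x₁ i j → 100 * h ≤ k →
    ∃ l : List En, Word SE l ∧ l.prod = elt n s x₀ x₁ i j ∧ l.length ≤ n + C := by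
  obtain ⟨C, -, hC⟩ := eh2 8
  refine ⟨⌈8 * C⌉₊, fun h k n s x₀ x₁ i j hP hk => ?_⟩
  obtain ⟨l, h1, h2, h3⟩ := word_elt hP
  obtain ⟨a1, a2, a3, a4, a5, -, -, -, -, a6, a7⟩ := hP
  have hk0 : 100 ≤ k := by omega
  have hk1 : (100 : ℝ) ≤ k := by exact_mod_cast hk0
  have e : (k : ℝ) / (k / 2) = 2 := by field_simp
  have b1 : (k : ℤ) ≤ 2 * ((n : ℤ) - 2 * s) := by omega
  have b2 : (k : ℝ) ≤ 2 * ((n : ℝ) - 2 * s) := by exact_mod_cast b1
  have b3 : (i : ℝ) ≤ k := by exact_mod_cast (by omega : i ≤ k)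
  have b4 : (j : ℝ) ≤ (k : ℝ) ^ 2 := by
    exact_mod_cast a7.le.trans (Nat.pow_le_pow_left (by omega : h ≤ k) 2)
  obtain ⟨l', c1, c2, -, c3⟩ := hC k (k / 2) 1 (by linarith) (by linarith) le_rfl
    (by rw [e]; linarith) l h1 (by rw [h2]; exact_mod_cast a3)
    ⟨l.length, by
      rw [List.take_length, h3]
      refine le_trans ?_ (le_abs_self _)
      simp only [elt]
      push_cast
      linarith⟩ (elt n s x₀ x₁ i j) (by simp [h3, elt]) (by simp [h3, elt])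
    (by simpa [h3, elt] using b3) (by simpa [h3, elt] using b4)
  refine ⟨l', c1, c2, ?_⟩
  rw [e, h2] at c3
  have := Nat.le_ceil (8 * C)
  have c4 : (l'.length : ℝ) ≤ n + (⌈8 * C⌉₊ : ℕ) := by linarith
  exact_mod_cast c4

theorem ECnt_inj {n s x₀ x₁ i j s' x₀' x₁' i' j' : ℕ} (hi : i < s) (hi' : i' < s)
    (e : elt n s x₀ x₁ i j = elt n s' x₀' x₁' i' j') :
    s = s' ∧ x₀ = x₀' ∧ x₁ = x₁' ∧ i = i' ∧ j = j' := by
  simp only [elt, En.mk.injEq] at e
  obtain ⟨e1, e2, e3, e4⟩ := e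
  obtain rfl : s = s' := by omega
  obtain rfl : x₁ = x₁' := by omega
  have e5 : i + s * x₀ = i' + s * x₀' := by
    have : (i : ℤ) + s * x₀ = i' + s * x₀' := by linarith
    exact_mod_cast this
  have e6 := congrArg (· / s) e5
  simp only [Nat.add_mul_div_left _ _ (Nat.zero_lt_of_lt hi), Nat.div_eq_of_lt hi,
    Nat.div_eq_of_lt hi', zero_add] at e6
  subst e6
  exact ⟨rfl, rfl, rfl, by omega, by omega⟩

theorem ECnt_count {T : Type} [Fintype T] (k : ℕ) (F : T → En) (hF : Function.Injective F)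
    (h1 : ∀ t, Ball SE k (F t)) (h2 : ∀ t ε, ¬ Ball SV k (⟨F t, ε⟩ : VE)) :
    growth SV k + 2 * Fintype.card T ≤ 2 * growth SE k := by
  rw [growth_eq, growth_eq]
  have hB := ball_finite SE k
  have a1 := Set.ncard_sdiff_add_ncard_of_subset (s := Set.range F)
    (t := {g | Ball SE k g}) (Set.range_subset_iff.2 h1) hB
  have a2 : (Set.range F).ncard = Fintype.card T := by
    rw [← Nat.card_coe_set_eq, Nat.card_range_of_injective hF, Nat.card_eq_fintype_card]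
  have a3 := Set.ncard_le_ncard_of_injOn (s := {g | Ball SV k g})
    (t := ({g | Ball SE k g} \ Set.range F) ×ˢ (Set.univ : Set ℤˣ)) (fun g => (g.left, g.right))
    (fun g hg => ⟨⟨ball_left hg, by
      rintro ⟨t, ht⟩
      exact h2 t g.right (by rw [ht]; exact hg)⟩, trivial⟩)
    (fun g _ g' _ e => SemidirectProduct.ext (congrArg Prod.fst e) (congrArg Prod.snd e))
    (hB.sdiff.prod Set.finite_univ)
  rw [Set.ncard_prod, Set.ncard_univ, Nat.card_eq_fintype_card, Fintype.card_units_int] at a3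
  omega

theorem ecount : ∃ D : ℕ, 1 ≤ D ∧ ∀ h k u N : ℕ, 100 * h ≤ k → k ≤ 101 * h → 1 ≤ u → u ^ 3 ≤ h →
    h ≤ 8 * u ^ 3 → D * (N + 1) ≤ h → 62500 * D * N < u →
    growth SV k + 2 * (N * h ^ 6) ≤ 2 * growth SE k := by
  obtain ⟨C, hC⟩ := ECnt_word
  refine ⟨C + 2, by omega, fun h k u N k1 k2 u1 u2 u3 d1 d2 => ?_⟩
  have hν : ∀ ν : Fin N, (C + 2) * ν + (C + 2) ≤ (C + 2) * N := fun ν =>
    Nat.mul_le_mul_left (C + 2) ν.2
  rw [mul_add_one] at d1
  have hP : ∀ t : Fin N × Fin h × Fin h × Fin h × Fin h × Fin (h ^ 2),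
      Par h k (k - C - (C + 2) * t.1) (4 * h + t.2.1) (87 * h + t.2.2.1) (h + t.2.2.2.1)
        t.2.2.2.2.1 t.2.2.2.2.2 := by
    rintro ⟨ν, s, x₀, x₁, i, j⟩
    have := hν ν
    have := s.2
    have := x₀.2
    have := x₁.2
    refine ⟨k2, ?_, ?_, ?_, ?_, ?_, ?_, ?_, ?_, i.2, j.2⟩ <;> dsimp only <;> omega
  have hW := fun t => hC _ _ _ _ _ _ _ _ (hP t) k1
  have hle : ∀ ν : Fin N, k - C - (C + 2) * ν + C ≤ k := fun ν => by
    have := hν ν
    omega
  have key := ECnt_count k (fun t : Fin N × Fin h × Fin h × Fin h × Fin h × Fin (h ^ 2) =>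
    elt (k - C - (C + 2) * t.1) (4 * h + t.2.1) (87 * h + t.2.2.1) (h + t.2.2.2.1)
      t.2.2.2.2.1 t.2.2.2.2.2) (fun t t' e => ?_) (fun t => ?_) fun t ε hb => ?_
  · simp only [Fintype.card_prod, Fintype.card_fin] at key
    rwa [show N * h ^ 6 = N * (h * (h * (h * (h * h ^ 2)))) by ring]
  · have hlt : ∀ t t' : Fin N × Fin h × Fin h × Fin h × Fin h × Fin (h ^ 2),
        elt (k - C - (C + 2) * t.1) (4 * h + t.2.1) (87 * h + t.2.2.1) (h + t.2.2.2.1)
          t.2.2.2.2.1 t.2.2.2.2.2 =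
        elt (k - C - (C + 2) * t'.1) (4 * h + t'.2.1) (87 * h + t'.2.2.1) (h + t'.2.2.2.1)
          t'.2.2.2.2.1 t'.2.2.2.2.2 → t.1 ≤ t'.1 := fun t t' e => by
      obtain ⟨l, l1, l2, l3⟩ := hW t
      have c1 := calE (hP t') l1 (l2.trans e) (l3.trans (hle _))
      by_contra hc
      have c2 : (C + 2) * t'.1 + (C + 2) ≤ (C + 2) * t.1 :=
        Nat.mul_le_mul_left (C + 2) (not_le.1 hc)
      have := hν t.1
      omega
    have e1 := le_antisymm (hlt t t' e) (hlt t' t e.symm)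
    obtain ⟨ν, s, x₀, x₁, i, j⟩ := t
    obtain ⟨ν', s', x₀', x₁', i', j'⟩ := t'
    obtain rfl : ν = ν' := e1
    have := i.2
    have := i'.2
    obtain ⟨f1, f2, f3, f4, f5⟩ := ECnt_inj (by dsimp only; omega) (by dsimp only; omega) e
    dsimp only at f1 f2 f3 f4 f5
    simp only [Prod.mk.injEq, Fin.ext_iff, true_and]
    omega
  · obtain ⟨l, l1, l2, l3⟩ := hW t
    exact ⟨l, by exact_mod_cast l3.trans (hle _), l1, l2⟩
  · have c1 := calV (hP t) u1 u2 u3 ε hb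
    have := hν t.1
    rw [mul_assoc] at d2
    omega

end Pool.Agent.MP_b3b911_al.Fil

end

section

open Filter Topology

namespace Pool.Agent.MP_b3b911_al.Fil

theorem EUp_root (h : ℕ) : ∃ u : ℕ, u ^ 3 ≤ h ∧ h < (u + 1) ^ 3 := by
  induction h with
  | zero => exact ⟨0, by simp, by simp⟩
  | succ h ih =>
    obtain ⟨u, h1, h2⟩ := ih
    by_cases h3 : h + 1 < (u + 1) ^ 3
    · exact ⟨u, by omega, h3⟩
    · refine ⟨u + 1, by omega, ?_⟩
      have : (u + 1) ^ 3 < (u + 1 + 1) ^ 3 := Nat.pow_lt_pow_left (by omega) (by norm_num)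
      omega

theorem EUp_par (D : ℕ) (hD : 1 ≤ D) (k : ℕ) (hk : 100 * (62502 * D) ^ 3 ≤ k) :
    ∃ h u N : ℕ, 100 * h ≤ k ∧ k ≤ 101 * h ∧ 1 ≤ u ∧ u ^ 3 ≤ h ∧ h ≤ 8 * u ^ 3 ∧
      D * (N + 1) ≤ h ∧ 62500 * D * N < u ∧ u ≤ 125000 * D * N := by
  obtain ⟨u, h1, h2⟩ := EUp_root (k / 100)
  have h3 : (62502 * D) ^ 3 ≤ k / 100 := by omega
  have h4 : 62502 * D < u + 1 := lt_of_pow_lt_pow_left₀ 3 (Nat.zero_le _) (h3.trans_lt h2)
  have hu : 2 ≤ u := by omega
  have h5 : 2 * u ≤ u ^ 3 := by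
    have : 2 ≤ u ^ 2 := by nlinarith
    calc 2 * u ≤ u ^ 2 * u := Nat.mul_le_mul_right u this
      _ = u ^ 3 := by ring
  have h6 : (u + 1) ^ 3 ≤ 8 * u ^ 3 := by
    calc (u + 1) ^ 3 ≤ (2 * u) ^ 3 := Nat.pow_le_pow_left (by omega) 3
      _ = 8 * u ^ 3 := by ring
  have hp : 0 < 62500 * D := by omega
  have h7 := Nat.div_add_mod (u - 1) (62500 * D)
  have h8 := Nat.mod_lt (u - 1) hp
  have h9 : 1 ≤ (u - 1) / (62500 * D) := (Nat.le_div_iff_mul_le hp).2 (by omega)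
  set N := (u - 1) / (62500 * D) with hN
  have e1 : 62500 * D * N = 62500 * (D * N) := by ring
  have e2 : 125000 * D * N = 125000 * (D * N) := by ring
  have e3 : D * (N + 1) = D * N + D := by ring
  have e4 : D ≤ D * N := Nat.le_mul_of_pos_right D h9
  refine ⟨k / 100, u, N, by omega, by omega, by omega, h1, by omega, ?_, ?_, ?_⟩
  · rw [e3]
    rw [e1] at h7
    omega
  · omega
  · rw [e2]
    rw [e1] at h7
    omega

theorem eupper : ∃ c : ℝ, 0 < c ∧ ∀ᶠ k : ℕ in atTop,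
    (growth SV k : ℝ) + c * (k : ℝ) ^ 6 * (k : ℝ) ^ (1 / 3 : ℝ) ≤ 2 * growth SE k := by
  obtain ⟨D, hD, H⟩ := ecount
  have hD' : (0 : ℝ) < D := by exact_mod_cast hD
  refine ⟨2 / (101 ^ 6 * (1250000 * D)), by positivity, ?_⟩
  filter_upwards [eventually_ge_atTop (100 * (62502 * D) ^ 3)] with k hk
  obtain ⟨h, u, N, h1, h2, h3, h4, h5, h6, h7, h8⟩ := EUp_par D hD k hk
  have H1 : (growth SV k : ℝ) + 2 * (N * (h : ℝ) ^ 6) ≤ 2 * growth SE k := by
    exact_mod_cast H h k u N h1 h2 h3 h4 h5 h6 h7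
  have a1 : (k : ℝ) ^ 6 ≤ 101 ^ 6 * (h : ℝ) ^ 6 := by
    rw [← mul_pow]
    exact pow_le_pow_left₀ (Nat.cast_nonneg k) (by exact_mod_cast h2) 6
  have a2 : (k : ℝ) ≤ (10 * u : ℝ) ^ 3 := by
    have : k ≤ (10 * u) ^ 3 := by
      have e : (10 * u) ^ 3 = 1000 * u ^ 3 := by ring
      omega
    exact_mod_cast this
  have a3 : (k : ℝ) ^ (1 / 3 : ℝ) ≤ 10 * u := by
    have e := Real.rpow_le_rpow (Nat.cast_nonneg k) a2 (by norm_num : (0 : ℝ) ≤ 1 / 3)
    have e2 : ((10 * u : ℝ) ^ 3) ^ (1 / 3 : ℝ) = 10 * u := by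
      have := Real.pow_rpow_inv_natCast (x := (10 * u : ℝ)) (by positivity) (n := 3) (by norm_num)
      simpa using this
    rwa [e2] at e
  have a4 : (u : ℝ) ≤ 125000 * D * N := by exact_mod_cast h8
  have a5 : (k : ℝ) ^ (1 / 3 : ℝ) ≤ 1250000 * D * N := by linarith
  have a6 : (k : ℝ) ^ 6 * (k : ℝ) ^ (1 / 3 : ℝ) ≤ (101 ^ 6 * (h : ℝ) ^ 6) * (1250000 * D * N) :=
    mul_le_mul a1 a5 (by positivity) (by positivity)
  have a7 : 2 / (101 ^ 6 * (1250000 * D)) * (k : ℝ) ^ 6 * (k : ℝ) ^ (1 / 3 : ℝ) ≤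
      2 * (N * (h : ℝ) ^ 6) := by
    rw [mul_assoc]
    refine (mul_le_mul_of_nonneg_left a6 (by positivity)).trans (le_of_eq ?_)
    field_simp
  linarith

end Pool.Agent.MP_b3b911_al.Fil

end

section

namespace Pool.Agent.MP_b3b911_al.Fil

theorem EBlock_split {l : List En} (h : Word SE l) : ∃ (β : List En) (n n' : ℕ),
    (β ++ (List.replicate n En.a ++ List.replicate n' En.a⁻¹)).Perm l ∧
    (∀ s ∈ β, ty s = -1 ∧ |s.p| ≤ 1) ∧ l.prod.p = β.prod.p ∧
    ∀ m M : ℤ, (∀ t, m ≤ (β.drop t).prod.p ∧ (β.drop t).prod.p ≤ M) →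
      n * m - n' * M ≤ l.prod.q - β.prod.q ∧ l.prod.q - β.prod.q ≤ n * M - n' * m := by
  induction l with
  | nil => exact ⟨[], 0, 0, by simp, by simp, rfl, by simp⟩
  | cons s l ih =>
    obtain ⟨β, n, n', h1, h2, h3, h4⟩ := ih fun x hx => h x (List.mem_cons_of_mem _ hx)
    have hb : ∀ s : En, ty s = -1 → |s.p| ≤ 1 → ∃ (β : List En) (n n' : ℕ),
        (β ++ (List.replicate n En.a ++ List.replicate n' En.a⁻¹)).Perm (s :: l) ∧
        (∀ s ∈ β, ty s = -1 ∧ |s.p| ≤ 1) ∧ (s :: l).prod.p = β.prod.p ∧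
        ∀ m M : ℤ, (∀ t, m ≤ (β.drop t).prod.p ∧ (β.drop t).prod.p ≤ M) →
          n * m - n' * M ≤ (s :: l).prod.q - β.prod.q ∧
            (s :: l).prod.q - β.prod.q ≤ n * M - n' * m := by
      intro s e1 e2
      refine ⟨s :: β, n, n', h1.cons s, ?_, by simp [h3], fun m M hm => ?_⟩
      · intro x hx
        rcases List.mem_cons.1 hx with rfl | hx
        · exact ⟨e1, e2⟩
        · exact h2 x hx
      · have h5 := h4 m M fun t => hm (t + 1)
        simp only [List.prod_cons, En.mul_q, h3]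
        constructor <;> linarith [h5.1, h5.2]
    rcases word_SE.1 (h s List.mem_cons_self) with rfl | rfl | rfl | rfl
    · refine ⟨β, n + 1, n', ?_, h2, by simp [h3, En.a], fun m M hm => ?_⟩
      · rw [List.replicate_succ, List.cons_append]
        exact List.perm_middle.trans (h1.cons _)
      · have h5 := h4 m M hm
        have h6 := hm 0
        simp only [List.drop_zero] at h6
        simp only [List.prod_cons, En.mul_q, h3, En.a]
        push_cast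
        constructor <;> linarith [h5.1, h5.2, h6.1, h6.2]
    · refine ⟨β, n, n' + 1, ?_, h2, by simp [h3, En.a], fun m M hm => ?_⟩
      · rw [List.replicate_succ, ← List.append_assoc]
        refine List.perm_middle.trans (List.Perm.cons _ ?_)
        rwa [List.append_assoc]
      · have h5 := h4 m M hm
        have h6 := hm 0
        simp only [List.drop_zero] at h6
        simp only [List.prod_cons, En.mul_q, h3, EBig_a_inv]
        push_cast
        constructor <;> linarith [h5.1, h5.2, h6.1, h6.2]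
    · exact hb _ (by decide) (by decide)
    · exact hb _ (by decide) (by decide)

theorem EBlock_len {β : List En} (h : ∀ s ∈ β, |s.p| ≤ 1) : |β.prod.p| ≤ β.length := by
  induction β with
  | nil => simp
  | cons s l ih =>
    have h1 := ih fun x hx => h x (List.mem_cons_of_mem _ hx)
    have h2 := h s List.mem_cons_self
    rw [List.prod_cons, En.mul_p, List.length_cons]
    push_cast
    linarith [abs_add_le s.p l.prod.p]

theorem EBlock_cut (β : List En) {t t' : ℕ} (h : t ≤ t') : ∃ b₁ b₂ b₃ : List En,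
    β = b₁ ++ b₂ ++ b₃ ∧ β.drop t = b₂ ++ b₃ ∧ β.drop t' = b₃ := by
  obtain ⟨u, rfl⟩ := Nat.exists_eq_add_of_le h
  refine ⟨β.take t, (β.drop t).take u, β.drop (t + u), ?_, ?_, rfl⟩
  · rw [List.append_assoc, ← List.drop_drop, List.take_append_drop, List.take_append_drop]
  · rw [← List.drop_drop, List.take_append_drop]

theorem EBlock_near (δ : ℤ) (hδ : 0 ≤ δ) (n : ℕ) (E : ℤ) (h0 : 0 ≤ E) (h1 : E ≤ n * δ) :
    ∃ N ≤ n, |(N : ℤ) * δ - E| ≤ δ := by
  induction n with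
  | zero => exact ⟨0, le_rfl, abs_le.2 ⟨by simp at h1 ⊢; linarith, by simp; linarith⟩⟩
  | succ n ih =>
    by_cases h : E ≤ n * δ
    · obtain ⟨N, h2, h3⟩ := ih h
      exact ⟨N, by omega, h3⟩
    · push_cast at h1
      exact ⟨n, by omega, abs_le.2 ⟨by linarith, by linarith⟩⟩

theorem EBlock_arith {m M D : ℤ} (h : m ≤ M) (n n' : ℕ) (h1 : n * m - n' * M ≤ D)
    (h2 : D ≤ n * M - n' * m) : ∃ i i' j j' : ℕ, n = i + i' ∧ n' = j + j' ∧
      |((i : ℤ) - j) * M + ((i' : ℤ) - j') * m - D| ≤ M - m := by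
  obtain ⟨N, h3, h4⟩ := EBlock_near (M - m) (by linarith) (n + n') (D - (n * m - n' * M))
    (by linarith) (by push_cast; linarith)
  obtain ⟨i, i', j, j', rfl, rfl, rfl⟩ : ∃ i i' j j' : ℕ, n = i + i' ∧ n' = j + j' ∧ N = i + j' :=
    ⟨min N n, n - min N n, n' - (N - min N n), N - min N n, by omega, by omega, by omega⟩
  refine ⟨i, i', j, j', rfl, rfl, ?_⟩
  convert h4 using 2
  push_cast
  ring

theorem EBlock_rep (i j : ℕ) :
    (List.replicate i En.a ++ List.replicate j En.a⁻¹).prod = ⟨(i : ℤ) - j, 0, 0, 0⟩ := by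
  rw [List.prod_append, List.prod_replicate, List.prod_replicate, inv_pow, ← zpow_natCast,
    ← zpow_natCast, ← zpow_sub, a_zpow]

theorem EBlock_ty (i j : ℕ) : ∀ s ∈ List.replicate i En.a ++ List.replicate j En.a⁻¹, ty s = 1 := by
  intro s hs
  rcases List.mem_append.1 hs with h | h <;> rw [List.eq_of_mem_replicate h] <;> decide

theorem EBlock_fin {l b₁ b₂ b₃ : List En} {i i' j j' : ℕ}
    (h1 : (b₁ ++ b₂ ++ b₃ ++ (List.replicate (i + i') En.a ++
      List.replicate (j + j') En.a⁻¹)).Perm l)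
    (h2 : ∀ s ∈ b₁ ++ b₂ ++ b₃, ty s = -1 ∧ |s.p| ≤ 1)
    (h3 : |((i : ℤ) - j) * (b₂ ++ b₃).prod.p + ((i' : ℤ) - j') * b₃.prod.p -
      (l.prod.q - (b₁ ++ b₂ ++ b₃).prod.q)| ≤ |b₂.prod.p|) :
    ∃ l₁ l₂ l₃ l₄ l₅ : List En,
    (l₁ ++ l₂ ++ l₃ ++ l₄ ++ l₅).Perm l ∧ (∀ s ∈ l₁, ty s = -1) ∧ (∀ s ∈ l₂, ty s = 1) ∧
    (∀ s ∈ l₃, ty s = -1) ∧ (∀ s ∈ l₄, ty s = 1) ∧ (∀ s ∈ l₅, ty s = -1) ∧
    |(l₁ ++ l₂ ++ l₃ ++ l₄ ++ l₅).prod.q - l.prod.q| ≤ l.length := by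
  refine ⟨b₁, List.replicate i En.a ++ List.replicate j En.a⁻¹, b₂,
    List.replicate i' En.a ++ List.replicate j' En.a⁻¹, b₃, List.Perm.trans ?_ h1,
    fun s hs => (h2 s (by simp [hs])).1, EBlock_ty i j, fun s hs => (h2 s (by simp [hs])).1,
    EBlock_ty i' j', fun s hs => (h2 s (by simp [hs])).1, ?_⟩
  · rw [List.perm_iff_count]
    intro s
    simp only [List.count_append, List.replicate_add]
    omega
  · have h4 := EBlock_len (β := b₂) fun s hs => (h2 s (by simp [hs])).2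
    have h5 : b₂.length ≤ l.length := by
      rw [← h1.length_eq]
      simp only [List.length_append]
      omega
    have h6 : (b₂.length : ℤ) ≤ l.length := by exact_mod_cast h5
    refine le_trans (le_of_eq ?_) (h3.trans (h4.trans h6))
    congr 1
    rw [List.prod_append, List.prod_append, List.prod_append, List.prod_append, EBlock_rep,
      EBlock_rep]
    simp only [List.prod_append, En.mul_q, En.mul_x, En.mul_p]
    ring

/-- one block: five pieces of constant type, the same letters, almost the same area -/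
theorem eblock {l : List En} (h : Word SE l) : ∃ l₁ l₂ l₃ l₄ l₅ : List En,
    (l₁ ++ l₂ ++ l₃ ++ l₄ ++ l₅).Perm l ∧ (∀ s ∈ l₁, ty s = -1) ∧ (∀ s ∈ l₂, ty s = 1) ∧
    (∀ s ∈ l₃, ty s = -1) ∧ (∀ s ∈ l₄, ty s = 1) ∧ (∀ s ∈ l₅, ty s = -1) ∧
    |(l₁ ++ l₂ ++ l₃ ++ l₄ ++ l₅).prod.q - l.prod.q| ≤ l.length := by
  obtain ⟨β, n, n', h1, h2, -, h4⟩ := EBlock_split h
  have hne : (Finset.range (β.length + 1)).Nonempty := by simp
  obtain ⟨t, -, ht⟩ := Finset.exists_min_image _ (fun t => (β.drop t).prod.p) hne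
  obtain ⟨T, -, hT⟩ := Finset.exists_max_image _ (fun t => (β.drop t).prod.p) hne
  have hb : ∀ u, (β.drop t).prod.p ≤ (β.drop u).prod.p ∧ (β.drop u).prod.p ≤ (β.drop T).prod.p := by
    intro u
    have e : β.drop u = β.drop (min u β.length) := by
      rcases le_total u β.length with h | h
      · rw [min_eq_left h]
      · rw [min_eq_right h, List.drop_eq_nil_of_le h, List.drop_length]
    have hm : min u β.length ∈ Finset.range (β.length + 1) := Finset.mem_range.2 (by omega)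
    rw [e]
    exact ⟨ht _ hm, hT _ hm⟩
  obtain ⟨h5, h6⟩ := h4 _ _ hb
  obtain ⟨i, i', j, j', rfl, rfl, h7⟩ := EBlock_arith (hb t).2 n n' h5 h6
  rcases le_total t T with h8 | h8
  · obtain ⟨b₁, b₂, b₃, e, e1, e2⟩ := EBlock_cut β h8
    rw [e1, e2] at h7
    rw [e, add_comm i, add_comm j] at h1
    rw [e] at h2 h7
    refine EBlock_fin h1 h2 ?_
    rw [add_comm]
    refine h7.trans ?_
    rw [List.prod_append, En.mul_p]
    linarith [neg_le_abs b₂.prod.p]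
  · obtain ⟨b₁, b₂, b₃, e, e1, e2⟩ := EBlock_cut β h8
    rw [e1, e2] at h7
    rw [e] at h1 h2 h7
    refine EBlock_fin h1 h2 (h7.trans ?_)
    rw [List.prod_append, En.mul_p]
    linarith [le_abs_self b₂.prod.p]

end Pool.Agent.MP_b3b911_al.Fil

end

section

namespace Pool.Agent.MP_b3b911_al.Fil

theorem ESort2_block {B : List En} (h : Word SE B) : ∃ F : List En, F.Perm B ∧
    (∀ (R : List En) (M : ℕ), (∀ σ, kap σ R ≤ M) → ∀ σ, kap σ (F ++ R) ≤ B.length + 5 + M) ∧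
    |F.prod.q - B.prod.q| ≤ B.length := by
  obtain ⟨l₁, l₂, l₃, l₄, l₅, hp, f1, f2, f3, f4, f5, hq⟩ := eblock h
  refine ⟨_, hp, fun R M hM σ => ?_, hq⟩
  have h1 := EKap_app f1 (EKap_app f2 (EKap_app f3 (EKap_app f4 (EKap_app f5 hM)))) σ
  have h2 := hp.length_eq
  simp only [List.length_append] at h2
  simp only [List.append_assoc]
  omega

theorem ESort2_aux (T : ℕ) (hT : 1 ≤ T) (n : ℕ) : ∀ l : List En, l.length = n →
    Word SE l → ∃ l' : List En, Word SE l' ∧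
    l'.length = l.length ∧ (∀ σ, kap σ l' ≤ l.length + 5 * (l.length / T + 1)) ∧
    l'.prod.x = l.prod.x ∧ l'.prod.p = l.prod.p ∧ |l'.prod.q - l.prod.q| ≤ l.length ∧
    |l'.prod.r - l.prod.r| ≤ 2 * (T : ℤ) ^ 2 * l.length + (l.length : ℤ) ^ 2 ∧
    ∀ n, ∃ n', |(l.take n).prod.x - (l'.take n').prod.x| ≤ T := by
  induction n using Nat.strong_induction_on with
  | _ n ih =>
  intro l hn h
  rcases Nat.eq_zero_or_pos n with rfl | hpos
  · obtain rfl := List.length_eq_zero_iff.1 hn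
    exact ⟨[], h, rfl, fun σ => by simp [kap], rfl, rfl, by simp, by simp,
      fun _ => ⟨0, by simp⟩⟩
  obtain ⟨R', w1, w2, w3, w4, w5, w6, w7, w8⟩ := ih (l.drop T).length
    (by rw [List.length_drop]; omega) (l.drop T) rfl (h.drop T)
  have hl : l.take T ++ l.drop T = l := List.take_append_drop T l
  have hB := h.take T
  have hBT : (l.take T).length ≤ T := List.length_take_le T l
  have hR : (l.drop T).length = l.length - T := List.length_drop
  generalize l.take T = B at hl hB hBT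
  generalize l.drop T = R at hl hR w2 w3 w4 w5 w6 w7 w8
  have hlen : B.length + R.length = l.length := by rw [← hl, List.length_append]
  obtain ⟨F, hp, hk, hq⟩ := ESort2_block hB
  have hF : Word SE F := fun s hs => hB s (hp.subset hs)
  have hFl := hp.length_eq
  obtain ⟨e1, e2⟩ := EKap_perm hp
  obtain ⟨a1, -, -, a4⟩ := ebig hB
  obtain ⟨-, -, -, b4⟩ := ebig hF
  rw [hFl] at b4
  have hr : |F.prod.r - B.prod.r| ≤ 2 * (B.length : ℤ) ^ 3 :=
    (abs_sub _ _).trans (by linarith)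
  have c1 : (B.length : ℤ) ≤ T := by exact_mod_cast hBT
  have c2 : (B.length : ℤ) + R.length = l.length := by exact_mod_cast hlen
  have c5 : (0 : ℤ) ≤ B.length := by positivity
  have c6 : (0 : ℤ) ≤ R.length := by positivity
  have hpr : l.prod = B.prod * R.prod := by rw [← hl, List.prod_append]
  refine ⟨F ++ R', hF.append w1, by rw [List.length_append, hFl, w2, hlen], fun σ => ?_,
    ?_, ?_, ?_, ?_, fun m => ?_⟩
  · by_cases hc : T ≤ l.length
    · have := hk R' _ w3 σ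
      have e : l.length / T = R.length / T + 1 := by rw [hR]; exact Nat.div_eq_sub_div hT hc
      omega
    · obtain rfl : R' = [] := List.length_eq_zero_iff.1 (by omega)
      have := hk [] 0 (fun _ => le_rfl) σ
      generalize l.length / T = D
      omega
  · rw [List.prod_append, hpr, En.mul_x, En.mul_x, e1, w4]
  · rw [List.prod_append, hpr, En.mul_p, En.mul_p, e2, w5]
  · rw [List.prod_append, hpr, En.mul_q, En.mul_q, e1, w5, ← c2]
    calc _ = |(F.prod.q - B.prod.q) + (R'.prod.q - R.prod.q)| := by congr 1; ring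
      _ ≤ _ := (abs_add_le _ _).trans (add_le_add hq w6)
  · rw [List.prod_append, hpr, En.mul_r, En.mul_r, e1, w5, ← c2]
    have d : |B.prod.x * (R'.prod.q - R.prod.q)| ≤ B.length * R.length := by
      rw [abs_mul]
      exact mul_le_mul a1 w6 (abs_nonneg _) c5
    have d1 : (B.length : ℤ) ^ 3 ≤ (T : ℤ) ^ 2 * B.length := by
      rw [pow_succ]
      exact mul_le_mul_of_nonneg_right (pow_le_pow_left₀ c5 c1 2) c5
    calc _ = |(F.prod.r - B.prod.r) + (R'.prod.r - R.prod.r) +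
          B.prod.x * (R'.prod.q - R.prod.q)| := by congr 1; ring
      _ ≤ 2 * (B.length : ℤ) ^ 3 + (2 * (T : ℤ) ^ 2 * R.length + (R.length : ℤ) ^ 2) +
          B.length * R.length :=
        (abs_add_le _ _).trans (add_le_add ((abs_add_le _ _).trans (add_le_add hr w7)) d)
      _ ≤ _ := by nlinarith [mul_nonneg c5 c6, mul_nonneg c5 c5]
  · rcases le_or_gt m B.length with hm | hm
    · refine ⟨0, ?_⟩
      have h1 := (ebig (h.take m)).1
      have h2 : (l.take m).length ≤ T := (List.length_take_le m l).trans (hm.trans hBT)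
      have h3 : ((l.take m).length : ℤ) ≤ T := by exact_mod_cast h2
      simpa using h1.trans h3
    · obtain ⟨m₁, rfl⟩ := Nat.exists_eq_add_of_le hm.le
      obtain ⟨m', hm'⟩ := w8 m₁
      refine ⟨F.length + m', ?_⟩
      rw [← hl, List.take_length_add_append, List.take_length_add_append, List.prod_append,
        List.prod_append, En.mul_x, En.mul_x, e1]
      simpa using hm'

theorem esort2 (T : ℕ) (hT : 1 ≤ T) {l : List En} (h : Word SE l) : ∃ l' : List En, Word SE l' ∧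
    l'.length = l.length ∧ (∀ σ, kap σ l' ≤ l.length + 5 * (l.length / T + 1)) ∧
    l'.prod.x = l.prod.x ∧ l'.prod.p = l.prod.p ∧ |l'.prod.q - l.prod.q| ≤ l.length ∧
    |l'.prod.r - l.prod.r| ≤ 2 * (T : ℤ) ^ 2 * l.length + (l.length : ℤ) ^ 2 ∧
    ∀ n, ∃ n', |(l.take n).prod.x - (l'.take n').prod.x| ≤ T :=
  ESort2_aux T hT l.length l rfl h

end Pool.Agent.MP_b3b911_al.Fil

end

section

namespace Pool.Agent.MP_b3b911_al.Fil

theorem elow2_pt (R₀ : ℝ) (hR : 1 ≤ R₀) : ∃ C : ℝ, 1 ≤ C ∧ ∀ (k : ℕ) (L : ℝ), 1 ≤ L → L ≤ k →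
    C * (k : ℝ) ^ (1 / 3 : ℝ) * (k / L) ^ 3 ≤ k → ∀ u : List En, Word SE u → u.length ≤ k →
    (∃ n, L ≤ |((u.take n).prod.x : ℝ)|) → ∀ e : En, |(e.x : ℝ) - u.prod.x| ≤ R₀ →
    |(e.p : ℝ) - u.prod.p| ≤ R₀ → |(e.q : ℝ) - u.prod.q| ≤ R₀ * k →
    |(e.r : ℝ) - u.prod.r| ≤ R₀ * (k : ℝ) ^ 2 → ∀ ε : ℤˣ,
    Ball SV (u.length + C * (k : ℝ) ^ (1 / 3 : ℝ) * (k / L) ^ 3 - 1) (⟨e, ε⟩ : VE) := by
  obtain ⟨C₂, hC₂, H⟩ := eh2 1
  have hCR : 0 ≤ C₂ * (R₀ + 10) := mul_nonneg hC₂ (by linarith)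
  refine ⟨76 + 8 * (R₀ + 10) + 24 * (C₂ * (R₀ + 10)), by linarith,
    fun k L hL hLk hC u hu huk hn e hx hp hq hr ε => ?_⟩
  have hk : (1 : ℝ) ≤ k := hL.trans hLk
  have hL0 : 0 < L := by linarith
  have ht1 : 1 ≤ (k : ℝ) ^ (1 / 3 : ℝ) := Real.one_le_rpow hk (by norm_num)
  have ht3 : ((k : ℝ) ^ (1 / 3 : ℝ)) ^ 3 = k := by
    rw [one_div]
    exact_mod_cast Real.rpow_inv_natCast_pow (n := 3) (by linarith : (0 : ℝ) ≤ k) (by norm_num)
  generalize (k : ℝ) ^ (1 / 3 : ℝ) = t at *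
  have hl1 : 1 ≤ ((k : ℝ) / L) ^ 3 := one_le_pow₀ ((one_le_div hL0).2 hLk)
  have hl2 : ((k : ℝ) / (L / 2)) ^ 3 = 8 * (k / L) ^ 3 := by
    field_simp
    norm_num
  have hl3 : ((k : ℝ) / L) ^ 3 * L ^ 3 = k ^ 3 := by field_simp
  generalize ((k : ℝ) / L) ^ 3 = lam at *
  have hs : t ≤ t * lam := le_mul_of_one_le_right (by linarith) hl1
  have hs2 : 0 ≤ C₂ * (R₀ + 10) * (t * lam) := mul_nonneg hCR (by linarith)
  have hs3 : 0 ≤ (R₀ + 10) * (t * lam) := mul_nonneg (by linarith) (by linarith)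
  have ht2 : 1 ≤ t ^ 2 := one_le_pow₀ ht1
  have hT1 : t ^ 2 ≤ ⌈t ^ 2⌉₊ := Nat.le_ceil _
  have hT2 : (⌈t ^ 2⌉₊ : ℝ) ≤ 2 * t ^ 2 := by
    linarith [Nat.ceil_lt_add_one (zero_le_one.trans ht2)]
  generalize ⌈t ^ 2⌉₊ = T at *
  have hLT : 4 * t ^ 2 ≤ L := by
    refine le_of_pow_le_pow_left₀ three_ne_zero hL0.le (le_of_mul_le_mul_left ?_ (by linarith : (0 : ℝ) < k))
    have h1 : 64 * lam ≤ k := by nlinarith
    have h2 := mul_le_mul_of_nonneg_right h1 (pow_pos hL0 3).le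
    calc (k : ℝ) * (4 * t ^ 2) ^ 3 = 64 * (k * (t ^ 3) ^ 2) := by ring
      _ = 64 * lam * L ^ 3 := by rw [ht3, mul_assoc, hl3]; ring
      _ ≤ _ := h2
  have huk' : (u.length : ℝ) ≤ k := by exact_mod_cast huk
  have hu0 : (0 : ℝ) ≤ u.length := Nat.cast_nonneg _
  obtain ⟨l', w1, w2, w3, w4, w5, w6, w7, w8⟩ := esort2 T (by exact_mod_cast ht2.trans hT1) hu
  have hRt : R₀ + 10 ≤ (R₀ + 10) * t := le_mul_of_one_le_right (by linarith) ht1
  obtain ⟨l'', v1, rfl, v3, v4⟩ := H k (L / 2) ((R₀ + 10) * t) (by linarith) (by linarith)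
    (by linarith) (by rw [hl2]; linarith) l' w1 (w2 ▸ huk') (by
      obtain ⟨n, hn⟩ := hn
      obtain ⟨n', hn'⟩ := w8 n
      have h1 : |((u.take n).prod.x : ℝ) - (l'.take n').prod.x| ≤ T := by exact_mod_cast hn'
      exact ⟨n', by linarith [abs_sub_abs_le_abs_sub ((u.take n).prod.x : ℝ) (l'.take n').prod.x]⟩)
    e (by rw [w4]; linarith) (by rw [w5]; linarith) (by
      have h1 : |(l'.prod.q : ℝ) - u.prod.q| ≤ u.length := by exact_mod_cast w6
      have h2 := abs_sub_le (e.q : ℝ) u.prod.q l'.prod.q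
      rw [abs_sub_comm] at h1
      nlinarith) (by
      have h1 : |(l'.prod.r : ℝ) - u.prod.r| ≤ 2 * (T : ℝ) ^ 2 * u.length + (u.length : ℝ) ^ 2 := by
        exact_mod_cast w7
      have h2 := abs_sub_le (e.r : ℝ) u.prod.r l'.prod.r
      rw [abs_sub_comm] at h1
      have h3 : (T : ℝ) ^ 2 * u.length ≤ (2 * t ^ 2) ^ 2 * k :=
        mul_le_mul (pow_le_pow_left₀ (Nat.cast_nonneg _) hT2 2) huk' hu0 (by positivity)
      have h4 : (2 * t ^ 2) ^ 2 * k = 4 * (t * k ^ 2) := by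
        rw [sq (k : ℝ)]
        nth_rw 2 [← ht3]
        ring
      have h5 := pow_le_pow_left₀ hu0 huk' 2
      have h6 : (k : ℝ) ^ 2 ≤ t * k ^ 2 := le_mul_of_one_le_left (by positivity) ht1
      have h7 := mul_le_mul_of_nonneg_left h6 (zero_le_one.trans hR)
      have h8 : (0 : ℝ) ≤ t * k ^ 2 := (sq_nonneg _).trans h6
      linarith)
  refine (kap_ball v1 ε).mono ?_
  have h1 : (kap 1 l'' : ℝ) + 3 * l'.length ≤ kap 1 l' + 3 * l''.length := by
    exact_mod_cast kap_sub v3 1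
  have h2 : (kap 1 l' : ℝ) ≤ u.length + 5 * ((u.length / T : ℕ) + 1) := by exact_mod_cast w3 1
  have h3 : ((u.length / T : ℕ) : ℝ) ≤ t := by
    refine Nat.cast_div_le.trans ((div_le_iff₀ (by linarith)).2 (huk'.trans ?_))
    rw [← ht3, pow_succ']
    exact mul_le_mul_of_nonneg_left hT1 (by linarith)
  rw [hl2, w2] at v4
  rw [w2] at h1
  linarith

end Pool.Agent.MP_b3b911_al.Fil

end

section

namespace Pool.Agent.MP_b3b911_al.Fil

theorem esys : ∃ Z : Sys SE (Option (Fin 3)), Z.j0 = none ∧ Z.p = 3 ∧ Z.W none = 1 ∧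
    Z.W (some 0) = 1 ∧ Z.W (some 1) = 2 ∧ Z.W (some 2) = 3 ∧ ∀ g : En, Z.co g none = g.x ∧
      Z.co g (some 0) = g.p ∧ Z.co g (some 1) = g.q ∧ Z.co g (some 2) = g.r := by
  obtain ⟨Y, h0, hp, hW, hco⟩ := Pre.sys ePreZ
  have hr : ∑ q ∈ Finset.range ePreZ.r, q = 3 := by
    show ∑ q ∈ Finset.range 3, q = 3
    decide
  refine ⟨Y, h0, hp.trans hr, ?_, ?_, ?_, ?_, fun g => ?_⟩
  · rw [hW]; rfl
  · rw [hW]; rfl
  · rw [hW]; rfl
  · rw [hW]; rfl
  · rw [hco]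
    simp only [Option.elim, ePre_V]
    exact ⟨rfl, rfl, rfl, rfl⟩

end Pool.Agent.MP_b3b911_al.Fil

end

section

open Filter Topology MeasureTheory

namespace Pool.Agent.MP_b3b911_al.Fil

variable {J : Type} [Fintype J] {W : J → ℕ} {B : ℝ → Set (J → ℝ)}

theorem CDyad2_geo (k : ℕ) (hk : 1 ≤ k) :
    ∑ i ∈ (Finset.range k).filter (fun i => (2 : ℝ) ^ i ≤ k), (2 : ℝ) ^ i / k ≤ 2 := by
  have hk0 : (0 : ℝ) < k := by exact_mod_cast hk
  rw [← Finset.sum_div, div_le_iff₀ hk0]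
  have hsub : (Finset.range k).filter (fun i => (2 : ℝ) ^ i ≤ k) ⊆
      Finset.range (Nat.log 2 k + 1) := by
    intro i hi
    have h1 : (2 : ℝ) ^ i ≤ k := (Finset.mem_filter.1 hi).2
    have h2 : 2 ^ i ≤ k := by exact_mod_cast h1
    exact Finset.mem_range.2 (Nat.lt_succ_of_le (Nat.le_log_of_pow_le (by norm_num) h2))
  have h3 : ∑ i ∈ Finset.range (Nat.log 2 k + 1), (2 : ℝ) ^ i = 2 ^ (Nat.log 2 k + 1) - 1 := by
    rw [geom_sum_eq (by norm_num)]
    norm_num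
  have h4 : (2 : ℝ) ^ (Nat.log 2 k) ≤ k := by
    exact_mod_cast Nat.pow_log_le_self 2 (by omega : k ≠ 0)
  calc ∑ i ∈ (Finset.range k).filter (fun i => (2 : ℝ) ^ i ≤ k), (2 : ℝ) ^ i
      ≤ ∑ i ∈ Finset.range (Nat.log 2 k + 1), (2 : ℝ) ^ i :=
        Finset.sum_le_sum_of_subset_of_nonneg hsub (fun _ _ _ => by positivity)
    _ = 2 ^ (Nat.log 2 k + 1) - 1 := h3
    _ ≤ 2 * k := by rw [pow_succ]; linarith

theorem CDyad2_pow (x M : ℝ) (hx : 0 ≤ x) (hM : x ≤ M) (d : ℕ) :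
    (1 + x) ^ d - 1 ≤ d * (1 + M) ^ d * x := by
  induction d with
  | zero => simp
  | succ d ih =>
    have h1 : (1 : ℝ) ≤ (1 + M) ^ (d + 1) := one_le_pow₀ (by linarith)
    have h2 : 0 ≤ (d : ℝ) * (1 + M) ^ d * x := by
      have : (0 : ℝ) ≤ 1 + M := by linarith
      positivity
    have h3 : (1 + x) * ((1 + x) ^ d - 1) ≤ (1 + M) * ((d : ℝ) * (1 + M) ^ d * x) :=
      (mul_le_mul_of_nonneg_left ih (by linarith)).trans
        (mul_le_mul_of_nonneg_right (by linarith) h2)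
    have h4 : x ≤ (1 + M) ^ (d + 1) * x := le_mul_of_one_le_left hx h1
    push_cast
    calc (1 + x) ^ (d + 1) - 1 = (1 + x) * ((1 + x) ^ d - 1) + x := by ring
      _ ≤ (1 + M) * ((d : ℝ) * (1 + M) ^ d * x) + (1 + M) ^ (d + 1) * x := add_le_add h3 h4
      _ = ((d : ℝ) + 1) * (1 + M) ^ (d + 1) * x := by ring

theorem CDyad2_cover (hW : ∀ j, 1 ≤ W j) (j0 : J) (hj0 : W j0 = 1) (p : ℕ)
    (hp : p + Fintype.card J ≤ ∑ j, W j) (A C1 : ℝ) (hA : 0 ≤ A) (hC1 : 0 ≤ C1) :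
    ∃ C' : ℝ, ∀ k : ℕ, 1 ≤ k → ∀ M : ℝ, 1 ≤ M →
      ∀ (X Y : Set (J → ℝ)) (U : ℕ → Set (J → ℝ)), volume Y ≠ ⊤ →
      (∀ i, U i ⊆ Box W j0 A (2 ^ i) k) →
      (∀ i, (2 : ℝ) ^ i ≤ k → volume.real (U i) ≤
        C1 * M * (((k : ℝ) / 2 ^ i) ^ p / k) * volume.real (Box W j0 A (2 ^ i) k)) →
      (∀ z ∈ X, z ∈ Y ∨ z ∈ Thin W A k ∨ ∃ i : ℕ, (2 : ℝ) ^ i ≤ k ∧ z ∈ U i) →
      volume.real X ≤ volume.real Y + C' * M * (k : ℝ) ^ (∑ j, W j - 1) := by
  classical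
  obtain ⟨Cb, hCb, hb⟩ := vol_Box W hW j0 hj0 p hp A hA
  obtain ⟨Ct, hCt, ht⟩ := vol_Thin W hW A hA
  refine ⟨Ct + C1 * Cb * 2, fun k hk M hM X Y U hY hU hv hX => ?_⟩
  have hM0 : (0 : ℝ) ≤ M := by linarith
  have hk1 : (1 : ℝ) ≤ k := by exact_mod_cast hk
  set I := (Finset.range k).filter (fun i => (2 : ℝ) ^ i ≤ k) with hI
  have hsub : X ⊆ (Y ∪ Thin W A k) ∪ ⋃ i ∈ I, U i := by
    intro z hz
    rcases hX z hz with h | h | ⟨i, hi, h⟩
    · exact Or.inl (Or.inl h)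
    · exact Or.inl (Or.inr h)
    · refine Or.inr (Set.mem_biUnion (Finset.mem_coe.2 (Finset.mem_filter.2 ⟨?_, hi⟩)) h)
      have h2 : 2 ^ i ≤ k := by exact_mod_cast hi
      exact Finset.mem_range.2 (lt_of_lt_of_le (Nat.lt_two_pow_self) h2)
  have hUf : ∀ i, volume (U i) ≠ ⊤ := fun i =>
    ne_top_of_le_ne_top (fin_Box W j0 A (2 ^ i) k) (measure_mono (hU i))
  have hf1 : volume (⋃ i ∈ I, U i) ≠ ⊤ :=
    ne_top_of_le_ne_top (ENNReal.sum_ne_top.2 fun i _ => hUf i) (measure_biUnion_finset_le I U)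
  have hf2 : volume (Y ∪ Thin W A k) ≠ ⊤ := measure_union_ne_top hY (fin_Thin W A k)
  have hf : volume ((Y ∪ Thin W A k) ∪ ⋃ i ∈ I, U i) ≠ ⊤ := measure_union_ne_top hf2 hf1
  have hP : 0 ≤ (k : ℝ) ^ (∑ j, W j - 1) := by positivity
  have h1 : volume.real (⋃ i ∈ I, U i) ≤ C1 * M * Cb * 2 * (k : ℝ) ^ (∑ j, W j - 1) := by
    calc volume.real (⋃ i ∈ I, U i) ≤ ∑ i ∈ I, volume.real (U i) :=
          measureReal_biUnion_finset_le I U
      _ ≤ ∑ i ∈ I, C1 * M * Cb * (k : ℝ) ^ (∑ j, W j - 1) * ((2 : ℝ) ^ i / k) := by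
          refine Finset.sum_le_sum fun i hi => ?_
          have hi' : (2 : ℝ) ^ i ≤ k := (Finset.mem_filter.1 hi).2
          have h2 := hb (2 ^ i) k (one_le_pow₀ (by norm_num)) hi'
          calc volume.real (U i)
              ≤ C1 * M * (((k : ℝ) / 2 ^ i) ^ p / k) * volume.real (Box W j0 A (2 ^ i) k) :=
                hv i hi'
            _ = C1 * M * (((k : ℝ) / 2 ^ i) ^ p / k * volume.real (Box W j0 A (2 ^ i) k)) := by
                ring
            _ ≤ C1 * M * (Cb * ((2 : ℝ) ^ i / k) * (k : ℝ) ^ (∑ j, W j - 1)) :=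
                mul_le_mul_of_nonneg_left h2 (mul_nonneg hC1 hM0)
            _ = C1 * M * Cb * (k : ℝ) ^ (∑ j, W j - 1) * ((2 : ℝ) ^ i / k) := by ring
      _ = C1 * M * Cb * (k : ℝ) ^ (∑ j, W j - 1) * ∑ i ∈ I, ((2 : ℝ) ^ i / k) := by
          rw [Finset.mul_sum]
      _ ≤ C1 * M * Cb * (k : ℝ) ^ (∑ j, W j - 1) * 2 :=
          mul_le_mul_of_nonneg_left (CDyad2_geo k hk) (by positivity)
      _ = C1 * M * Cb * 2 * (k : ℝ) ^ (∑ j, W j - 1) := by ring
  have h2 := ht k hk1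
  have h3 : Ct * (k : ℝ) ^ (∑ j, W j - 1) ≤ Ct * M * (k : ℝ) ^ (∑ j, W j - 1) :=
    mul_le_mul_of_nonneg_right (le_mul_of_one_le_right hCt hM) hP
  calc volume.real X ≤ volume.real ((Y ∪ Thin W A k) ∪ ⋃ i ∈ I, U i) := measureReal_mono hsub hf
    _ ≤ volume.real (Y ∪ Thin W A k) + volume.real (⋃ i ∈ I, U i) := measureReal_union_le _ _
    _ ≤ (volume.real Y + volume.real (Thin W A k)) + volume.real (⋃ i ∈ I, U i) :=
        add_le_add_left (measureReal_union_le _ _) _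
    _ ≤ volume.real Y + (Ct + C1 * Cb * 2) * M * (k : ℝ) ^ (∑ j, W j - 1) := by linarith

theorem CDyad2_lam (k i p : ℕ) (hi : (2 : ℝ) ^ i ≤ k) : (1 : ℝ) ≤ ((k : ℝ) / 2 ^ i) ^ p :=
  one_le_pow₀ ((one_le_div (by positivity)).2 hi)

theorem CDyad2_ceil (M l : ℝ) (hM : 1 ≤ M) (hl : 1 ≤ l) : (⌈M * l⌉₊ : ℝ) ≤ 2 * (M * l) := by
  have h0 : 1 ≤ M * l := one_le_mul_of_one_le_of_one_le hM hl
  have h1 := (Nat.ceil_lt_add_one (by linarith : (0 : ℝ) ≤ M * l)).le
  linarith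

theorem Fam.dyad_low2 (h : Fam W B) (hW : ∀ j, 1 ≤ W j) (j0 : J) (hj0 : W j0 = 1) (p : ℕ)
    (hp : p + Fintype.card J ≤ ∑ j, W j) (A : ℝ) (hA : 0 ≤ A) :
    ∃ C' : ℝ, ∀ k : ℕ, 1 ≤ k → ∀ M : ℝ, 1 ≤ M → ∀ D : Set (J → ℝ), volume D ≠ ⊤ →
      (∀ z ∈ B k, z ∉ D → z ∈ Thin W A k ∨ ∃ i : ℕ, (2 : ℝ) ^ i ≤ k ∧ z ∈ Box W j0 A (2 ^ i) k ∧
        (M * ((k : ℝ) / 2 ^ i) ^ p ≤ k → z ∉ B (k - M * ((k : ℝ) / 2 ^ i) ^ p))) →
      (k : ℝ) ^ (∑ j, W j) * volume.real (B 1) ≤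
        volume.real D + C' * M * (k : ℝ) ^ (∑ j, W j - 1) := by
  classical
  set d := ∑ j, W j with hd
  set C1 : ℝ := 4 + d * (1 + 1) ^ d * 4 with hC1
  have hC1' : 0 ≤ (d : ℝ) * (1 + 1) ^ d * 4 := by positivity
  obtain ⟨C', hC'⟩ := CDyad2_cover hW j0 hj0 p hp A C1 hA (by linarith)
  refine ⟨C', fun k hk M hM D hDf hD => ?_⟩
  have hk0 : (0 : ℝ) < k := by exact_mod_cast hk
  have hM0 : (0 : ℝ) ≤ M := by linarith
  have key := hC' k hk M hM (B k) D
    (fun i => if M * ((k : ℝ) / 2 ^ i) ^ p ≤ k ∧ 2 * ⌈M * ((k : ℝ) / 2 ^ i) ^ p⌉₊ ≤ k then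
      Box W j0 A (2 ^ i) k ∩ (B k \ B ((k - ⌈M * ((k : ℝ) / 2 ^ i) ^ p⌉₊ : ℕ) : ℝ))
      else Box W j0 A (2 ^ i) k)
    hDf ?_ ?_ ?_
  · rwa [h.vol_nat k hk] at key
  · intro i
    split_ifs
    · exact Set.inter_subset_left
    · exact le_rfl
  · intro i hi
    have hl := CDyad2_lam k i p hi
    have hce := CDyad2_ceil M _ hM hl
    set l : ℝ := ((k : ℝ) / 2 ^ i) ^ p
    set n : ℕ := ⌈M * l⌉₊
    have hv : 0 ≤ volume.real (Box W j0 A (2 ^ i) k) := measureReal_nonneg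
    have hlk : 0 ≤ M * (l / k) := by positivity
    split_ifs with hc
    · obtain ⟨_, hc2⟩ := hc
      have h1 := h.shell (meas_Box W j0 A (2 ^ i) k) (fin_Box W j0 A (2 ^ i) k)
        (fun t ht ht1 => dil_Box W j0 A (2 ^ i) k t ht ht1) (k - n) k (by omega) (Nat.sub_le _ _)
      refine h1.trans (mul_le_mul_of_nonneg_right ?_ hv)
      have hnk : 2 * (n : ℝ) ≤ k := by exact_mod_cast hc2
      have hn0 : (0 : ℝ) ≤ n := Nat.cast_nonneg n
      have hcast : ((k - n : ℕ) : ℝ) = k - n := Nat.cast_sub (by omega)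
      have hpos : (0 : ℝ) < k - n := by linarith
      have h2 : (k : ℝ) / ((k - n : ℕ) : ℝ) = 1 + (n : ℝ) / (k - n) := by
        rw [hcast]
        field_simp
        ring
      have h5 : (n : ℝ) / (k - n) ≤ 1 := (div_le_one hpos).2 (by linarith)
      have h3 : (n : ℝ) / (k - n) ≤ 4 * (M * (l / k)) := by
        have h6 : (n : ℝ) / (k - n) ≤ 2 * n / k := by
          rw [div_le_div_iff₀ hpos hk0]
          nlinarith
        refine h6.trans ?_
        rw [← mul_div_assoc, ← mul_div_assoc]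
        exact div_le_div_of_nonneg_right (by linarith) hk0.le
      rw [h2]
      refine (CDyad2_pow _ _ (by positivity) h5 d).trans ?_
      calc (d : ℝ) * (1 + 1) ^ d * ((n : ℝ) / (k - n))
          ≤ (d : ℝ) * (1 + 1) ^ d * (4 * (M * (l / k))) :=
            mul_le_mul_of_nonneg_left h3 (by positivity)
        _ = (d : ℝ) * (1 + 1) ^ d * 4 * (M * (l / k)) := by ring
        _ ≤ C1 * (M * (l / k)) := mul_le_mul_of_nonneg_right (by linarith) hlk
        _ = C1 * M * (l / k) := by ring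
    · have h4 : 1 ≤ 4 * (M * (l / k)) := by
        rw [← mul_div_assoc, ← mul_div_assoc, one_le_div hk0]
        by_cases hc1 : M * l ≤ k
        · have h6 : k < 2 * n := by
            by_contra h7
            exact hc ⟨hc1, not_lt.1 h7⟩
          have h7 : (k : ℝ) < 2 * n := by exact_mod_cast h6
          linarith
        · have h6 := not_le.1 hc1
          linarith
      have h5 : 1 ≤ C1 * M * (l / k) := by
        rw [mul_assoc]
        exact h4.trans (mul_le_mul_of_nonneg_right (by linarith) hlk)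
      exact le_mul_of_one_le_left hv h5
  · intro z hz
    by_cases hzD : z ∈ D
    · exact Or.inl hzD
    rcases hD z hz hzD with h1 | ⟨i, hi, h1, h2⟩
    · exact Or.inr (Or.inl h1)
    · refine Or.inr (Or.inr ⟨i, hi, ?_⟩)
      split_ifs with hc
      · refine ⟨h1, hz, fun h3 => h2 hc.1 (h.mono ?_ h3)⟩
        have hc2 := hc.2
        rw [Nat.cast_sub (by omega)]
        linarith [Nat.le_ceil (M * ((k : ℝ) / 2 ^ i) ^ p)]
      · exact h1

end Pool.Agent.MP_b3b911_al.Fil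

end

section

open Filter Topology MeasureTheory

namespace Pool.Agent.MP_b3b911_al.Fil

theorem elow2_inj (ε : ℤˣ) : Function.Injective fun e : En => (⟨e, ε⟩ : VE) :=
  fun _ _ h => congrArg SemidirectProduct.left h

theorem elow2_fin (k : ℝ) (ε : ℤˣ) : {e : En | Ball SV k (⟨e, ε⟩ : VE)}.Finite :=
  Set.Finite.preimage (f := fun e : En => (⟨e, ε⟩ : VE)) (elow2_inj ε).injOn (ball_finite SV k)

theorem elow2_sum (k : ℕ) : {e : En | Ball SV k (⟨e, 1⟩ : VE)}.ncard +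
    {e : En | Ball SV k (⟨e, -1⟩ : VE)}.ncard ≤ growth SV k := by
  rw [growth_eq, ← Set.ncard_image_of_injective _ (elow2_inj 1),
    ← Set.ncard_image_of_injective _ (elow2_inj (-1)), ← Set.ncard_union_eq ?_
      ((elow2_fin k 1).image _) ((elow2_fin k (-1)).image _)]
  · refine Set.ncard_le_ncard ?_ (ball_finite SV k)
    rintro g (⟨e, he, rfl⟩ | ⟨e, he, rfl⟩)
    · exact he
    · exact he
  · refine Set.disjoint_left.2 ?_
    rintro g ⟨e, -, rfl⟩ ⟨e', -, h⟩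
    have h1 : (-1 : ℤˣ) = 1 := congrArg SemidirectProduct.right h
    exact absurd h1 (by decide)

theorem elower2 : ∃ c C C' : ℝ, 0 < c ∧
    (∀ k : ℕ, 1 ≤ k → |(growth SE k : ℝ) - c * (k : ℝ) ^ 7| ≤ C * (k : ℝ) ^ 6) ∧
    ∀ k : ℕ, 1 ≤ k →
      2 * (c * (k : ℝ) ^ 7 - C' * (k : ℝ) ^ 6 * (k : ℝ) ^ (1 / 3 : ℝ)) ≤ growth SV k := by
  classical
  obtain ⟨Z, hj0, hp, hW0, hW1, hW2, hW3, hco⟩ := esys
  have hsum : ∑ j, Z.W j = 7 := by
    rw [Fintype.sum_option, Fin.sum_univ_three, hW0, hW1, hW2, hW3]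
    rfl
  obtain ⟨C, hC⟩ := Z.core_vol
  obtain ⟨R, hR, hlow⟩ := Z.low
  obtain ⟨A, hA, hloc⟩ := Z.locate R hR
  obtain ⟨Cp, hCp, hpt⟩ := elow2_pt (R + 1) (by linarith)
  obtain ⟨C', hC'⟩ := Z.fam.dyad_low2 Z.W_pos Z.j0 Z.W_j0 Z.p Z.hp A hA
  rw [hsum] at hC hC'
  refine ⟨volume.real (Z.B 1), C, C' * Cp, CCore_pos Z, hC, fun k hk => ?_⟩
  have hk1 : (1 : ℝ) ≤ k := by exact_mod_cast hk
  have hpw : ∀ j, (1 : ℝ) ≤ (k : ℝ) ^ (Z.W j - 1) := fun j => one_le_pow₀ hk1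
  have hk3 : (1 : ℝ) ≤ (k : ℝ) ^ (1 / 3 : ℝ) := Real.one_le_rpow hk1 (by norm_num)
  have hM : (1 : ℝ) ≤ Cp * (k : ℝ) ^ (1 / 3 : ℝ) := one_le_mul_of_one_le_of_one_le hCp hk3
  have key : ∀ ε : ℤˣ, (k : ℝ) ^ 7 * volume.real (Z.B 1) ≤
      ({e : En | Ball SV k (⟨e, ε⟩ : VE)}.ncard : ℝ) +
        C' * (Cp * (k : ℝ) ^ (1 / 3 : ℝ)) * (k : ℝ) ^ 6 := by
    intro ε
    obtain ⟨hv1, hv2⟩ := Z.vol_pt (elow2_fin k ε)
    rw [← hv2]
    refine hC' k hk _ hM _ hv1 ?_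
    intro z hz hzD
    have hex : ∃ n : ℕ, z ∈ Z.B n := ⟨k, hz⟩
    have hn0 : Nat.find hex ≤ k := Nat.find_min' hex hz
    have hn0' : ((Nat.find hex : ℕ) : ℝ) ≤ k := by exact_mod_cast hn0
    obtain ⟨u, hu, hl, hj⟩ := hlow k (Nat.find hex : ℕ) hk1 hn0' z (Nat.find_spec hex)
    have hlk : (u.length : ℝ) ≤ k := hl.trans hn0'
    have hl' : u.length ≤ k := by exact_mod_cast hlk
    rcases hloc k hk u hu hl' z hj with h | ⟨i, hi, hb, hn⟩
    · exact Or.inl h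
    · refine Or.inr ⟨i, hi, hb, fun hlam hzB => hzD ?_⟩
      rw [hp] at hlam hzB
      have h2 : (1 : ℝ) ≤ 2 ^ i := one_le_pow₀ (by norm_num)
      have h5 := Z.nonneg_B hzB
      have h6 : z ∈ Z.B
          (⌈(k : ℝ) - Cp * (k : ℝ) ^ (1 / 3 : ℝ) * ((k : ℝ) / 2 ^ i) ^ 3⌉₊ : ℕ) :=
        Z.mono_B (Nat.le_ceil _) hzB
      have h7 : ((Nat.find hex : ℕ) : ℝ) ≤
          (⌈(k : ℝ) - Cp * (k : ℝ) ^ (1 / 3 : ℝ) * ((k : ℝ) / 2 ^ i) ^ 3⌉₊ : ℕ) := by
        exact_mod_cast Nat.find_min' hex h6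
      have h8 := (Nat.ceil_lt_add_one h5).le
      have hd : ∀ j, |(Z.co (Z.pt z) j : ℝ) - Z.co u.prod j| ≤
          (R + 1) * (k : ℝ) ^ (Z.W j - 1) := fun j => by
        have e1 := CCore_floor Z z j
        have e2 := hj j
        have e3 := abs_sub_le (Z.co (Z.pt z) j : ℝ) (z j) (Z.co u.prod j : ℝ)
        rw [abs_sub_comm (z j)] at e3
        have e4 := hpw j
        rw [add_mul, one_mul]
        linarith
      have d0 := hd none
      have d1 := hd (some 0)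
      have d2 := hd (some 1)
      have d3 := hd (some 2)
      rw [(hco _).1, (hco _).1, hW0, Nat.sub_self, pow_zero, mul_one] at d0
      rw [(hco _).2.1, (hco _).2.1, hW1, Nat.sub_self, pow_zero, mul_one] at d1
      rw [(hco _).2.2.1, (hco _).2.2.1, hW2, show 2 - 1 = 1 from rfl, pow_one] at d2
      rw [(hco _).2.2.2, (hco _).2.2.2, hW3, show 3 - 1 = 2 from rfl] at d3
      have hn' : ∃ n, (2 : ℝ) ^ i ≤ |((u.take n).prod.x : ℝ)| := by
        obtain ⟨n, hn⟩ := hn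
        rw [hj0, (hco _).1] at hn
        exact ⟨n, hn⟩
      have h9 := hpt k (2 ^ i) h2 hi hlam u hu hl' hn' (Z.pt z) d0 d1 d2 d3 ε
      exact h9.mono (by linarith)
  have h1 := key 1
  have h2 := key (-1)
  have h3 : (({e : En | Ball SV k (⟨e, 1⟩ : VE)}.ncard : ℕ) : ℝ) +
      ({e : En | Ball SV k (⟨e, -1⟩ : VE)}.ncard : ℕ) ≤ growth SV k := by
    exact_mod_cast elow2_sum k
  linarith

end Pool.Agent.MP_b3b911_al.Fil

end

section

namespace Pool.Agent.MP_b3b911_al.Fil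

open scoped commutatorElement

/-- elements with vanishing first two coordinates -/
def EGrp_K1 : Subgroup En where
  carrier := {g | g.x = 0 ∧ g.p = 0}
  mul_mem' := fun ha hb => ⟨by simp [ha.1, hb.1], by simp [ha.2, hb.2]⟩
  one_mem' := ⟨rfl, rfl⟩
  inv_mem' := fun ha => ⟨by simp [ha.1], by simp [ha.2]⟩

/-- elements with vanishing first three coordinates -/
def EGrp_K2 : Subgroup En where
  carrier := {g | g.x = 0 ∧ g.p = 0 ∧ g.q = 0}
  mul_mem' := fun ha hb =>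
    ⟨by simp [ha.1, hb.1], by simp [ha.2.1, hb.2.1], by simp [ha.1, ha.2.2, hb.2.2]⟩
  one_mem' := ⟨rfl, rfl, rfl⟩
  inv_mem' := fun ha => ⟨by simp [ha.1], by simp [ha.2.1], by simp [ha.1, ha.2.2]⟩

theorem EGrp_one : (⊤ : Subgroup En).lowerCentralSeries 1 ≤ EGrp_K1 := by
  rw [Subgroup.lowerCentralSeries_succ, Subgroup.commutator_le]
  intro g _ h _
  exact ⟨by simp [commutatorElement_def], by simp [commutatorElement_def]⟩

theorem EGrp_two : (⊤ : Subgroup En).lowerCentralSeries 2 ≤ EGrp_K2 := by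
  rw [Subgroup.lowerCentralSeries_succ, Subgroup.commutator_le]
  intro g hg h _
  obtain ⟨h1, h2⟩ := EGrp_one hg
  exact ⟨by simp [commutatorElement_def], by simp [commutatorElement_def],
    by simp [commutatorElement_def, h1, h2]⟩

theorem EGrp_three : (⊤ : Subgroup En).lowerCentralSeries 3 = ⊥ := by
  rw [Subgroup.lowerCentralSeries_succ, eq_bot_iff, Subgroup.commutator_le]
  intro g hg h _
  obtain ⟨h1, h2, h3⟩ := EGrp_two hg
  rw [Subgroup.mem_bot, commutatorElement_eq_one_iff_mul_comm]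
  ext <;> simp [h1, h2, h3, tri, add_comm]

theorem EGrp_ne : (⊤ : Subgroup En).lowerCentralSeries 2 ≠ ⊥ := by
  intro h
  have h1 : ⁅⁅En.a, En.b⁆, En.a⁆ ∈ (⊤ : Subgroup En).lowerCentralSeries 2 :=
    Subgroup.commutator_mem_commutator
      (Subgroup.commutator_mem_commutator (Subgroup.mem_top _) (Subgroup.mem_top _))
      (Subgroup.mem_top _)
  rw [h, Subgroup.mem_bot] at h1
  revert h1
  decide

theorem EGrp_nil : Group.IsNilpotent En :=
  Subgroup.nilpotent_iff_lowerCentralSeries.2 ⟨3, EGrp_three⟩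

theorem EGrp_class : Group.nilpotencyClass En = 3 := by
  have := EGrp_nil
  have h1 := Subgroup.lowerCentralSeries_eq_bot_iff_nilpotencyClass_le.1 EGrp_three
  have h2 : ¬ Group.nilpotencyClass En ≤ 2 := fun h =>
    EGrp_ne (Subgroup.lowerCentralSeries_eq_bot_iff_nilpotencyClass_le.2 h)
  omega

theorem closure_SV : Subgroup.closure (SV : Set VE) = ⊤ := by
  have ha : va ∈ Subgroup.closure (SV : Set VE) := Subgroup.subset_closure (by simp [SV])
  have ht : vt ∈ Subgroup.closure (SV : Set VE) := Subgroup.subset_closure (by simp [SV])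
  have hb : (SemidirectProduct.inl En.b : VE) = vt * va * vt := by
    refine SemidirectProduct.ext ?_ ?_
    · have h1 : En.fl 1 = 1 := by decide
      simp [vt, va, En.act_neg, En.fl_a, h1]
    · simp [vt, va]
  have hl : ∀ g : En, (SemidirectProduct.inl g : VE) ∈ Subgroup.closure (SV : Set VE) := by
    have h : Subgroup.closure (SE : Set En) ≤
        (Subgroup.closure (SV : Set VE)).comap SemidirectProduct.inl := by
      rw [Subgroup.closure_le]
      intro s hs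
      simp only [SE, Finset.coe_insert, Finset.coe_singleton, Set.mem_insert_iff,
        Set.mem_singleton_iff] at hs
      rcases hs with rfl | rfl
      · exact ha
      · change (SemidirectProduct.inl En.b : VE) ∈ Subgroup.closure (SV : Set VE)
        rw [hb]
        exact mul_mem (mul_mem ht ha) ht
    intro g
    exact h (closure_SE ▸ Subgroup.mem_top g)
  rw [eq_top_iff]
  intro g _
  rw [← SemidirectProduct.inl_left_mul_inr_right g]
  refine mul_mem (hl _) ?_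
  rcases Int.units_eq_one_or g.right with h | h
  · rw [h, map_one]
    exact one_mem _
  · rw [h]
    exact ht

theorem card_SV : SV.card = 2 := by
  classical
  have h : va ≠ vt := fun h => by
    have h1 : (1 : ℤˣ) = -1 := congrArg SemidirectProduct.right h
    revert h1
    decide
  unfold SV
  convert Finset.card_pair h

theorem exists_index_two : ∃ H : Subgroup VE, H.index = 2 ∧ Group.IsNilpotent H ∧
    Group.nilpotencyClass H = 3 := by
  have := EGrp_nil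
  let e : En ≃* (SemidirectProduct.inl : En →* VE).range :=
    MonoidHom.ofInjective SemidirectProduct.inl_injective
  have hn : Group.IsNilpotent (SemidirectProduct.inl : En →* VE).range :=
    Group.nilpotent_of_mulEquiv e
  refine ⟨(SemidirectProduct.inl : En →* VE).range, ?_, hn, le_antisymm ?_ ?_⟩
  · rw [SemidirectProduct.range_inl_eq_ker_rightHom, Subgroup.index_ker,
      MonoidHom.range_eq_top_of_surjective _ SemidirectProduct.rightHom_surjective,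
      Subgroup.card_top, Nat.card_eq_fintype_card]
    rfl
  · rw [← EGrp_class]
    exact Group.nilpotencyClass_le_of_surjective e.toMonoidHom e.surjective
  · rw [← EGrp_class]
    exact Group.nilpotencyClass_le_of_surjective e.symm.toMonoidHom e.symm.surjective

end Pool.Agent.MP_b3b911_al.Fil

end

section

open Filter Topology MeasureTheory

namespace Pool.Agent.MP_b3b911_al.Fil

theorem EFinal2_small (a : ℝ) :
    Tendsto (fun k : ℕ => a * (k : ℝ) ^ (1 / 3 : ℝ) / k) atTop (𝓝 0) := by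
  have h := ((tendsto_rpow_neg_atTop (y := 2 / 3) (by norm_num)).comp
    tendsto_natCast_atTop_atTop).const_mul a
  rw [mul_zero] at h
  refine h.congr' ?_
  filter_upwards [eventually_gt_atTop 0] with k hk
  have hk' : (0 : ℝ) < k := by exact_mod_cast hk
  rw [mul_div_assoc, ← Real.rpow_sub_one hk'.ne']
  norm_num

theorem sharp : ∃ (G : Type) (_ : Group G) (S : Finset G) (H : Subgroup G),
    Subgroup.closure (S : Set G) = ⊤ ∧ S.card = 2 ∧ H.index = 2 ∧ Group.IsNilpotent H ∧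
    Group.nilpotencyClass H = 3 ∧ ∃ c c₁ c₂ : ℝ, 0 < c ∧ 0 < c₁ ∧
      Tendsto (fun k : ℕ => Real.log (growth S k) / Real.log k) atTop (𝓝 7) ∧
      Tendsto (fun k : ℕ => (growth S k : ℝ) / (k : ℝ) ^ 7) atTop (𝓝 c) ∧
      ∀ᶠ k : ℕ in atTop,
        -c₂ * (k : ℝ) ^ (1 / 3 : ℝ) ≤ ((growth S k : ℝ) - c * (k : ℝ) ^ 7) / (k : ℝ) ^ 6 ∧
        ((growth S k : ℝ) - c * (k : ℝ) ^ 7) / (k : ℝ) ^ 6 ≤ -c₁ * (k : ℝ) ^ (1 / 3 : ℝ) := by
  obtain ⟨c0, C, C', hc0, hC, hlow⟩ := elower2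
  obtain ⟨c1, hc1, hup⟩ := eupper
  obtain ⟨H, h1, h2, h3⟩ := exists_index_two
  have h4 : Tendsto (fun k : ℕ => (k : ℝ) ^ (1 / 3 : ℝ)) atTop atTop :=
    (tendsto_rpow_atTop (by norm_num)).comp tendsto_natCast_atTop_atTop
  have hev : ∀ᶠ k : ℕ in atTop,
      -(2 * C') * (k : ℝ) ^ (1 / 3 : ℝ) ≤
        ((growth SV k : ℝ) - 2 * c0 * (k : ℝ) ^ 7) / (k : ℝ) ^ 6 ∧
      ((growth SV k : ℝ) - 2 * c0 * (k : ℝ) ^ 7) / (k : ℝ) ^ 6 ≤
        -(c1 / 2) * (k : ℝ) ^ (1 / 3 : ℝ) := by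
    filter_upwards [hup, h4.eventually_ge_atTop (4 * C / c1), eventually_ge_atTop 1]
      with k h5 h6 hk
    have hk' : (0 : ℝ) < (k : ℝ) ^ 6 := by positivity
    have h7 := (abs_le.1 (hC k hk)).2
    have h8 := hlow k hk
    rw [div_le_iff₀ hc1] at h6
    rw [div_le_iff₀ hk', le_div_iff₀ hk']
    exact ⟨by nlinarith, by nlinarith [mul_le_mul_of_nonneg_right h6 hk'.le]⟩
  have hV : Tendsto (fun k : ℕ => (growth SV k : ℝ) / (k : ℝ) ^ 7) atTop (𝓝 (2 * c0)) := by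
    have hl := (EFinal2_small (-(2 * C'))).add_const (2 * c0)
    have hu := (EFinal2_small (-(c1 / 2))).add_const (2 * c0)
    rw [zero_add] at hl hu
    refine tendsto_of_tendsto_of_tendsto_of_le_of_le' hl hu ?_ ?_
    all_goals
      filter_upwards [hev, eventually_gt_atTop 0] with k h hk
      have hk' : (0 : ℝ) < k := by exact_mod_cast hk
      have e : (growth SV k : ℝ) / (k : ℝ) ^ 7 =
          ((growth SV k : ℝ) - 2 * c0 * (k : ℝ) ^ 7) / (k : ℝ) ^ 6 / k + 2 * c0 := by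
        field_simp
        ring
      rw [e]
      gcongr
      first | exact h.1 | exact h.2
  exact ⟨VE, inferInstance, SV, H, closure_SV, card_SV, h1, h2, h3, 2 * c0, c1 / 2, 2 * C',
    by positivity, by positivity, by simpa using log_ratio (by positivity) hV, hV, hev⟩

end Pool.Agent.MP_b3b911_al.Fil

end
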