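import Pool.Agent.MP_b3b911_al.Defs
import Mathlib

section

/-! Definitions for the abstract counting theorem. -/

open MeasureTheory

namespace Pool.Agent.MP_b3b911_al.Fil

/-- Riemann sum along a list of letters: the position starts at `y`, the letter `s` moves it by
`a s` and contributes `c s` times the `e`-th power of the position before the move. -/
def Isum {α : Type*} (a : α → ℤ) (c : α → ℝ) (e : ℕ) : ℤ → List α → ℝ
  | _, [] => 0
  | y, s :: l => c s * (y : ℝ) ^ e + Isum a c e (y + a s) l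

/-- Weighted dilation. -/
def dil {J : Type} (W : J → ℕ) (t : ℝ) (z : J → ℝ) : J → ℝ := fun j => t ^ W j * z j

/-- A homogeneous family of balls. -/
structure Fam {J : Type} [Fintype J] (W : J → ℕ) (B : ℝ → Set (J → ℝ)) : Prop where
  meas : ∀ q, MeasurableSet (B q)
  mono : Monotone B
  hom : ∀ a : ℕ, 1 ≤ a → ∀ (q : ℝ) (z : J → ℝ), dil W a z ∈ B (a * q) ↔ z ∈ B q
  fin : ∀ q, volume (B q) ≠ ⊤

/-- The box of points reached by words of length about `K` whose distinguished coordinate stays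
below about `L`. -/
def Box {J : Type} (W : J → ℕ) (j0 : J) (A L K : ℝ) : Set (J → ℝ) :=
  {z | |z j0| ≤ A * L ∧ ∀ j, |z j| ≤ A * K * L ^ (W j - 1)}

/-- The points of the big box that have one small coordinate. -/
def Thin {J : Type} (W : J → ℕ) (A K : ℝ) : Set (J → ℝ) :=
  {z | (∀ j, |z j| ≤ A * K ^ W j) ∧ ∃ j, |z j| ≤ A * K ^ (W j - 1)}

variable {G : Type*} [Group G]

/-- Words in the letters of `S` and their inverses. -/
def Word (S : Finset G) (l : List G) : Prop := ∀ x ∈ l, x ∈ S ∨ x⁻¹ ∈ S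

/-- The ball of real radius `q`. -/
def Ball (S : Finset G) (q : ℝ) (g : G) : Prop :=
  ∃ l : List G, (l.length : ℝ) ≤ q ∧ Word S l ∧ l.prod = g

/-- Weighted integer coordinates on a group, with an increment estimate `H1` and a correction
property `H2`. -/
structure Sys (S : Finset G) (J : Type) [Fintype J] where
  co : G → J → ℤ
  bij : Function.Bijective co
  j0 : J
  W : J → ℕ
  W_pos : ∀ j, 1 ≤ W j
  W_j0 : W j0 = 1
  co_one : co 1 = 0
  add : ∀ g h, co (g * h) j0 = co g j0 + co h j0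
  ex : ∃ s ∈ S, co s j0 ≠ 0
  c : G → J → ℝ
  p : ℕ
  hp : p + Fintype.card J ≤ ∑ j, W j
  H1 : ∃ C : ℝ, 0 ≤ C ∧ ∀ K : ℝ, 1 ≤ K → ∀ g, Ball S K g → ∀ s, (s ∈ S ∨ s⁻¹ ∈ S) → ∀ j,
    K * |(co (g * s) j : ℝ) - co g j - c s j * (co g j0 : ℝ) ^ (W j - 1)| ≤ C * K ^ (W j - 1)
  H2 : ∀ A : ℝ, ∃ C : ℝ, 0 ≤ C ∧ ∀ K L R : ℝ, 1 ≤ L → L ≤ K → 1 ≤ R →
    R * (K / L) ^ p ≤ A * K → ∀ l : List G, Word S l → (l.length : ℝ) ≤ K →
    (∃ n, L ≤ |(co (l.take n).prod j0 : ℝ)|) →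
    ∀ g, (∀ j, |(co g j : ℝ) - co l.prod j| ≤ R * K ^ (W j - 1)) →
    ∃ l' : List G, Word S l' ∧ l'.prod = g ∧ l.Sublist l' ∧
      (l'.length : ℝ) ≤ l.length + C * R * (K / L) ^ p

variable {S : Finset G} {J : Type} [Fintype J]

/-- The group element whose coordinates are the integer parts of those of `z`. -/
noncomputable def Sys.pt (Z : Sys S J) (z : J → ℝ) : G :=
  (Equiv.ofBijective Z.co Z.bij).symm fun j => ⌊z j⌋

/-- The limit ball. -/
def Sys.B (Z : Sys S J) (q : ℝ) : Set (J → ℝ) :=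
  {z | ∃ M : ℕ, 1 ≤ M ∧ ∀ m : ℕ, 1 ≤ m → M ∣ m → Ball S (q * m) (Z.pt (dil Z.W m z))}

/-- The union of the unit cubes attached to the elements of the ball of radius `k`. -/
def Sys.D (Z : Sys S J) (k : ℕ) : Set (J → ℝ) := {z | Ball S k (Z.pt z)}

theorem Sys.co_pt (Z : Sys S J) (z : J → ℝ) (j : J) : Z.co (Z.pt z) j = ⌊z j⌋ :=
  congrFun ((Equiv.ofBijective Z.co Z.bij).apply_symm_apply fun j => ⌊z j⌋) j

theorem growth_eq (S : Finset G) (k : ℕ) : growth S k = Set.ncard {g : G | Ball S k g} := by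
  unfold growth Ball Word
  simp only [Nat.cast_le]

theorem Ball.mono {q q' : ℝ} {g : G} (h : Ball S q g) (hq : q ≤ q') : Ball S q' g := by
  obtain ⟨l, h1, h2, h3⟩ := h
  exact ⟨l, h1.trans hq, h2, h3⟩

theorem Word.append {l l' : List G} (h : Word S l) (h' : Word S l') : Word S (l ++ l') := by
  intro x hx
  rcases List.mem_append.1 hx with hx | hx
  · exact h x hx
  · exact h' x hx

theorem Word.take {l : List G} (h : Word S l) (n : ℕ) : Word S (l.take n) :=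
  fun x hx => h x (List.mem_of_mem_take hx)

theorem Word.drop {l : List G} (h : Word S l) (n : ℕ) : Word S (l.drop n) :=
  fun x hx => h x (List.mem_of_mem_drop hx)

theorem ball_finite (S : Finset G) (q : ℝ) : {g : G | Ball S q g}.Finite := by
  classical
  obtain ⟨n, hn⟩ := exists_nat_ge q
  have h1 : {l : List ↥(S ∪ S.image (·⁻¹)) | l.length ≤ n}.Finite := List.finite_length_le _ n
  refine (h1.image fun l => (l.map Subtype.val).prod).subset ?_
  rintro g ⟨l, hl, hw, rfl⟩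
  have hm : ∀ x ∈ l, x ∈ S ∪ S.image (·⁻¹) := by
    intro x hx
    rcases hw x hx with h | h
    · exact Finset.mem_union_left _ h
    · exact Finset.mem_union_right _ (Finset.mem_image.2 ⟨x⁻¹, h, inv_inv x⟩)
  refine ⟨l.pmap Subtype.mk hm, ?_, ?_⟩
  · simp only [Set.mem_setOf_eq, List.length_pmap]
    exact_mod_cast hl.trans hn
  · simp [List.map_pmap]

theorem exists_word (hS : Subgroup.closure (S : Set G) = ⊤) (g : G) :
    ∃ l : List G, Word S l ∧ l.prod = g := by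
  have hg : g ∈ Subgroup.closure (S : Set G) := hS ▸ Subgroup.mem_top g
  induction hg using Subgroup.closure_induction with
  | mem x hx => exact ⟨[x], fun y hy => Or.inl (by rw [List.mem_singleton.1 hy]; exact hx), by simp⟩
  | one => exact ⟨[], fun y hy => by simp at hy, rfl⟩
  | mul x y _ _ hx hy =>
    obtain ⟨l, h1, h2⟩ := hx
    obtain ⟨l', h1', h2'⟩ := hy
    exact ⟨l ++ l', h1.append h1', by rw [List.prod_append, h2, h2']⟩
  | inv x _ hx =>
    obtain ⟨l, h1, h2⟩ := hx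
    refine ⟨(l.map (·⁻¹)).reverse, ?_, by rw [← h2, List.prod_inv_reverse]⟩
    intro y hy
    obtain ⟨z, hz, rfl⟩ := List.mem_map.1 (List.mem_reverse.1 hy)
    rcases h1 z hz with h | h
    · exact Or.inr (by rwa [inv_inv])
    · exact Or.inl h

end Pool.Agent.MP_b3b911_al.Fil

end

section

/-! Definitions for filtered groups, polynomial functions and adapted coordinates. -/

namespace Pool.Agent.MP_b3b911_al.Fil

variable {G : Type*} [Group G]

/-- A filtration by normal subgroups, compatible with commutators (the index `0` plays no role). -/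
structure Filt (E : ℕ → Subgroup G) : Prop where
  anti : Antitone E
  normal : ∀ n, (E n).Normal
  comm : ∀ i j, 1 ≤ i → 1 ≤ j → ∀ x ∈ E i, ∀ y ∈ E j, x * y * x⁻¹ * y⁻¹ ∈ E (i + j)

/-- Left difference. -/
def Ld (h : G) (f : G → ℤ) : G → ℤ := fun x => f (h * x) - f x

/-- Right difference. -/
def Rd (h : G) (f : G → ℤ) : G → ℤ := fun x => f (x * h) - f x

/-- Conjugation difference. -/
def Cd (a : G) (f : G → ℤ) : G → ℤ := fun x => f (a * x * a⁻¹) - f x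

/-- Iterated left differences. -/
def Lds : List (ℕ × G) → (G → ℤ) → G → ℤ
  | [], f => f
  | p :: l, f => Lds l (Ld p.2 f)

/-- `f` has weighted degree less than `d` on `H`. -/
def Deg (E : ℕ → Subgroup G) (H : Subgroup G) (d : ℕ) (f : G → ℤ) : Prop :=
  ∀ l : List (ℕ × G), (∀ p ∈ l, 1 ≤ p.1 ∧ p.2 ∈ E p.1 ∧ p.2 ∈ H) → d ≤ (l.map Prod.fst).sum →
    ∀ x ∈ H, Lds l f x = 0

/-- `z` is a product of letters whose weighted cost at scale `K` is at most `A`. -/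
def Cst {Λ : Type*} (el : Λ → G) (w : Λ → ℕ) (K A : ℝ) (z : G) : Prop :=
  ∃ l : List Λ, (l.map el).prod = z ∧ (l.map fun a => 1 / K ^ w a).sum ≤ A

/-- A basis letter or its inverse. -/
def lt {J : Type} (b : J → G) (a : J × Bool) : G := if a.2 then b a.1 else (b a.1)⁻¹

/-- Adapted integer coordinates on the subgroup `H`. -/
structure Coord (F : ℕ → Subgroup G) (H : Subgroup G) (J : Type) [Fintype J] [DecidableEq J] where
  b : J → G
  w : J → ℕ
  v : G → J → ℤ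
  w_pos : ∀ j, 1 ≤ w j
  b_mem : ∀ j, b j ∈ H ∧ b j ∈ F (w j)
  v_one : v 1 = 0
  v_b : ∀ j, v (b j) = Pi.single j 1
  inj : ∀ g ∈ H, ∀ h ∈ H, v g = v h → g = h
  surj : ∀ y, ∃ g ∈ H, v g = y
  word : ∀ g ∈ H, ∃ l : List (J × Bool), (l.map (lt b)).prod = g ∧
    ∀ κ : J → ℝ, (l.map fun a => κ a.1).sum = ∑ j, |(v g j : ℝ)| * κ j
  deg : ∀ (E : ℕ → Subgroup G) (σ : ℕ), Filt E → (∀ n, 1 ≤ n → E (n + σ) ⊓ H = F n ⊓ H) →
    ∀ j, Deg E H (w j + σ + 1) fun g => v g j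

/-- The filtration data of a torsion free group with a map onto the integers. -/
structure FData (φ : G →* Multiplicative ℤ) (t : G) (F : ℕ → Subgroup G) : Prop where
  ht : φ t = Multiplicative.ofAdd 1
  filt : Filt F
  top : F 1 = ⊤
  bot : ∃ r, F (r + 1) = ⊥
  iso : ∀ n g (k : ℕ), 0 < k → g ^ k ∈ F n → g ∈ F n
  two : F 2 ≤ φ.ker
  shift : ∀ i j, 1 ≤ i → 1 ≤ j → ∀ x ∈ φ.ker, ∀ y ∈ φ.ker, x ∈ F i → y ∈ F j →
    x * y * x⁻¹ * y⁻¹ ∈ F (i + j + 1)
  gen : ∀ p, 1 ≤ p → ∀ γ ∈ F (p + 1), ∃ n : ℕ, 0 < n ∧ ∃ β ∈ φ.ker, β ∈ F p ∧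
    (t * β * t⁻¹ * β⁻¹)⁻¹ * γ ^ n ∈ F (p + 2)

/-- The data from which the estimates `H1` and `H2` are derived. -/
structure Pre (S : Finset G) (J : Type) [Fintype J] [DecidableEq J] where
  X : G → ℤ
  X_mul : ∀ g h, X (g * h) = X g + X h
  t : G
  X_t : X t = 1
  gen : Subgroup.closure (S : Set G) = ⊤
  v : G → J → ℤ
  w : J → ℕ
  r : ℕ
  w_pos : ∀ j, 1 ≤ w j
  w_le : ∀ j, w j ≤ r
  occ : ∀ q, 1 ≤ q → q ≤ r → ∃ j, w j = q
  v_one : v 1 = 0
  inj : ∀ g h, X g = 0 → X h = 0 → v g = v h → g = h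
  surj : ∀ y, ∃ g, X g = 0 ∧ v g = y
  P : ℕ → G → Prop
  P_X : ∀ p g, P p g → X g = 0
  P_one : ∀ g, X g = 0 → P 1 g
  P_conj : ∀ p g (y : ℤ), P p g → P p (t ^ y * g * t ^ (-y))
  P_low : ∀ p g j, P p g → w j < p → v g j = 0
  P_deg : ∀ p g j, 1 ≤ p → P p g → p ≤ w j →
    (fwdDiff (1 : ℤ))^[w j - p + 1] (fun y : ℤ => v (t ^ y * g * t ^ (-y)) j) = 0
  P_top : ∀ p i, 1 ≤ p → p ≤ w i → ∃ (q : ℤ) (g : G), 0 < q ∧ P p g ∧ ∀ j, w j = w i →
    (fwdDiff (1 : ℤ))^[w i - p] (fun y : ℤ => v (t ^ y * g * t ^ (-y)) j) =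
      fun _ => if j = i then q else 0
  P_bas : ∀ p i, 1 ≤ p → p ≤ w i → ∃ g, P p g ∧ v g = Pi.single i 1
  Sm : ℝ → ℝ → G → Prop
  Sm_mul : ∀ K A B x y, Sm K A x → Sm K B y → Sm K (A + B) (x * y)
  Sm_inv : ∀ K A x, Sm K A x → Sm K A x⁻¹
  Sm_mono : ∀ K A B x, A ≤ B → Sm K A x → Sm K B x
  Sm_v : ∀ K : ℝ, 1 ≤ K → ∀ g, X g = 0 → Sm K (∑ j, |(v g j : ℝ)| / K ^ w j) g
  Sm_ball : ∀ A : ℝ, ∃ C : ℝ, 0 ≤ C ∧ ∀ K : ℝ, 1 ≤ K → ∀ g, Ball S (A * K) g →
    Sm K C (g * t ^ (-X g))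
  KE : ∀ A : ℝ, ∃ C : ℝ, 0 ≤ C ∧ ∀ K ε : ℝ, 1 ≤ K → ε ≤ A → ∀ x u y, X x = 0 → X u = 0 → X y = 0 →
    Sm K A x → Sm K ε u → Sm K A y → ∀ j,
    K * |(v (x * u * y) j : ℝ) - v (x * y) j - v u j| ≤ C * ε * K ^ w j
  KV : ∀ p x u y j, X x = 0 → P p u → X y = 0 → w j ≤ p →
    v (x * u * y) j = v (x * y) j + v u j

variable {S : Finset G} {J : Type} [Fintype J] [DecidableEq J]

/-- The coordinates of the kernel component. -/
def Pre.V (Z : Pre S J) (g : G) : J → ℤ := Z.v (g * Z.t ^ (-Z.X g))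

/-- The coordinates of a conjugate by a power of `t`. -/
def Pre.ψ (Z : Pre S J) (g : G) (y : ℤ) : J → ℤ := Z.v (Z.t ^ y * g * Z.t ^ (-y))

/-- The initial segments of the word come within `a` of every position in the range. -/
def Pre.Cov (Z : Pre S J) (a : ℝ) (σ : ℤ) (L : ℝ) (l : List G) : Prop :=
  ∀ y : ℕ, (y : ℝ) ≤ L + Z.r → ∃ n, |(Z.X (l.take n).prod : ℝ) - σ * y| ≤ a

theorem Pre.X_one (Z : Pre S J) : Z.X 1 = 0 := by
  have := Z.X_mul 1 1
  rw [mul_one] at this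
  omega

theorem Pre.X_inv (Z : Pre S J) (g : G) : Z.X g⁻¹ = -Z.X g := by
  have := Z.X_mul g g⁻¹
  rw [mul_inv_cancel, Z.X_one] at this
  omega

theorem Pre.X_zpow (Z : Pre S J) (g : G) (n : ℤ) : Z.X (g ^ n) = n * Z.X g := by
  induction n using Int.induction_on with
  | zero => simp [Z.X_one]
  | succ n ih => rw [zpow_add_one, Z.X_mul, ih]; ring
  | pred n ih => rw [zpow_sub_one, Z.X_mul, ih, Z.X_inv]; ring

theorem Pre.X_tpow (Z : Pre S J) (n : ℤ) : Z.X (Z.t ^ n) = n := by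
  rw [Z.X_zpow, Z.X_t, mul_one]

end Pool.Agent.MP_b3b911_al.Fil

end

section

namespace Pool.Agent.MP_b3b911_al.Fil

/-- Iterated differences with prescribed steps. -/
def Dl : List ℤ → (ℤ → ℤ) → ℤ → ℤ
  | [], a => a
  | y :: ys, a => fun x => Dl ys a (x + y) - Dl ys a x

theorem NPoly_step {R : Type*} [CommRing R] (f : ℤ → R) (κ : R)
    (h : ∀ x, f (x + 1) - f x = κ) (x y : ℤ) : f (x + y) - f x = κ * y := by
  induction y using Int.induction_on with
  | zero => simp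
  | succ n ih =>
    have := h (x + n)
    rw [add_assoc] at this
    push_cast at ih ⊢
    linear_combination ih + this
  | pred n ih =>
    have := h (x + (-n - 1))
    rw [add_assoc, sub_add_cancel] at this
    push_cast at ih ⊢
    linear_combination ih - this

open Polynomial Finset in
theorem NPoly_anti (n : ℕ) (q : ℚ[X]) (hq : q.natDegree ≤ n) :
    ∃ p : ℚ[X], p.natDegree ≤ n + 1 ∧ ∀ x, p.eval (x + 1) - p.eval x = q.eval x := by
  refine ⟨∑ i ∈ range (n + 1), C (q.coeff i / (i + 1)) * Polynomial.bernoulli (i + 1), ?_,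
    fun x => ?_⟩
  · refine natDegree_sum_le_of_forall_le _ _ fun i hi => (natDegree_C_mul_le _ _).trans ?_
    rw [Polynomial.bernoulli]
    refine natDegree_sum_le_of_forall_le _ _ fun j _ => (natDegree_monomial_le _).trans ?_
    have := mem_range.1 hi
    omega
  · rw [eval_finsetSum, eval_finsetSum, ← sum_sub_distrib,
      eval_eq_sum_range' (Nat.lt_succ_of_le hq)]
    refine sum_congr rfl fun i _ => ?_
    rw [eval_mul, eval_mul, eval_C, eval_C, add_comm x, bernoulli_eval_one_add]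
    have : (i : ℚ) + 1 ≠ 0 := by positivity
    simp only [Nat.cast_add, Nat.cast_one, Nat.add_sub_cancel]
    field_simp
    ring

open Polynomial in
theorem NPoly_poly (e : ℕ) (a : ℤ → ℤ) (h : (fwdDiff (1 : ℤ))^[e + 1] a = 0) :
    ∃ p : ℚ[X], p.natDegree ≤ e ∧ ∀ x : ℤ, (a x : ℚ) = p.eval (x : ℚ) := by
  induction e generalizing a with
  | zero =>
    refine ⟨C (a 0 : ℚ), by simp, fun x => ?_⟩
    have h1 := NPoly_step a 0 (fun x => congrFun h x) 0 x
    rw [zero_add, zero_mul, sub_eq_zero] at h1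
    rw [eval_C, h1]
  | succ e ih =>
    rw [Function.iterate_succ_apply] at h
    obtain ⟨q, hq, hx⟩ := ih _ h
    obtain ⟨p, hp, hpx⟩ := NPoly_anti e q hq
    refine ⟨p + C ((a 0 : ℚ) - p.eval 0), (natDegree_add_C).trans_le hp, fun x => ?_⟩
    have h1 := NPoly_step (fun x : ℤ => (a x : ℚ) - p.eval (x : ℚ)) 0 (fun x => by
      have e1 := hx x
      have e2 := hpx x
      simp only [fwdDiff] at e1
      push_cast at e1 ⊢
      linear_combination e1 - e2) 0 x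
    simp only [zero_add, Int.cast_zero, zero_mul] at h1
    rw [eval_add, eval_C]
    linear_combination h1

theorem poly_asym (e : ℕ) (a : ℤ → ℤ) (h : (fwdDiff (1 : ℤ))^[e + 1] a = 0) :
    ∃ c C : ℝ, 0 ≤ C ∧ ∀ (x : ℤ) (K : ℝ), 1 ≤ K → |(x : ℝ)| ≤ K →
      K * |(a x : ℝ) - c * (x : ℝ) ^ e| ≤ C * K ^ e := by
  obtain ⟨p, hp, hx⟩ := NPoly_poly e a h
  refine ⟨(p.coeff e : ℝ), ∑ i ∈ Finset.range e, |(p.coeff i : ℝ)|,
    Finset.sum_nonneg fun _ _ => abs_nonneg _, fun x K hK hxK => ?_⟩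
  have e1 := hx x
  rw [Polynomial.eval_eq_sum_range' (Nat.lt_succ_of_le hp), Finset.sum_range_succ] at e1
  have e2 : (a x : ℝ) - (p.coeff e : ℝ) * (x : ℝ) ^ e =
      ∑ i ∈ Finset.range e, (p.coeff i : ℝ) * (x : ℝ) ^ i := by
    have := congrArg (fun t : ℚ => (t : ℝ)) e1
    push_cast at this
    linear_combination this
  have hK0 : 0 ≤ K := zero_le_one.trans hK
  rw [e2, Finset.sum_mul]
  refine (mul_le_mul_of_nonneg_left (Finset.abs_sum_le_sum_abs _ _) hK0).trans ?_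
  rw [Finset.mul_sum]
  refine Finset.sum_le_sum fun i hi => ?_
  rw [abs_mul, abs_pow, mul_left_comm]
  refine mul_le_mul_of_nonneg_left ?_ (abs_nonneg _)
  calc K * |(x : ℝ)| ^ i ≤ K * K ^ i :=
        mul_le_mul_of_nonneg_left (pow_le_pow_left₀ (abs_nonneg _) hxK i) hK0
    _ = K ^ (i + 1) := (pow_succ' _ _).symm
    _ ≤ K ^ e := pow_le_pow_right₀ hK (Finset.mem_range.1 hi)

theorem poly_bound (e : ℕ) (a : ℤ → ℤ) (h : (fwdDiff (1 : ℤ))^[e + 1] a = 0) :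
    ∃ C : ℝ, 0 ≤ C ∧ ∀ (x : ℤ) (K : ℝ), 1 ≤ K → |(x : ℝ)| ≤ K → |(a x : ℝ)| ≤ C * K ^ e := by
  obtain ⟨c, C, hC, hx⟩ := poly_asym e a h
  refine ⟨C + |c|, add_nonneg hC (abs_nonneg _), fun x K hK hxK => ?_⟩
  have h1 := (le_mul_of_one_le_left (abs_nonneg _) hK).trans (hx x K hK hxK)
  have h2 : |c * (x : ℝ) ^ e| ≤ |c| * K ^ e := by
    rw [abs_mul, abs_pow]
    exact mul_le_mul_of_nonneg_left (pow_le_pow_left₀ (abs_nonneg _) hxK e) (abs_nonneg _)
  have h3 := abs_add_le ((a x : ℝ) - c * (x : ℝ) ^ e) (c * (x : ℝ) ^ e)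
  rw [sub_add_cancel] at h3
  linarith

theorem NPoly_comm (ys : List ℤ) (a : ℤ → ℤ) (x : ℤ) :
    Dl ys (fwdDiff 1 a) x = Dl ys a (x + 1) - Dl ys a x := by
  induction ys generalizing x with
  | nil => rfl
  | cons y ys ih =>
    simp only [Dl, ih, add_right_comm x y 1]
    ring

theorem Dl_const (ys : List ℤ) (a : ℤ → ℤ) (κ : ℤ)
    (h : (fwdDiff (1 : ℤ))^[ys.length] a = fun _ => κ) (x : ℤ) : Dl ys a x = κ * ys.prod := by
  induction ys generalizing a x with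
  | nil => simpa [Dl] using congrFun h x
  | cons y ys ih =>
    rw [List.length_cons, Function.iterate_succ_apply] at h
    have h1 := NPoly_step (Dl ys a) (κ * ys.prod)
      (fun x => (NPoly_comm ys a x).symm.trans (ih _ h x)) x y
    simp only [Dl, List.prod_cons]
    rw [h1, Int.cast_id]
    ring

theorem iter_zero_of_le {a : ℤ → ℤ} {k m : ℕ} (h : (fwdDiff (1 : ℤ))^[k] a = 0) (hk : k ≤ m) :
    (fwdDiff (1 : ℤ))^[m] a = 0 := by
  obtain ⟨d, rfl⟩ := Nat.exists_eq_add_of_le' hk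
  rw [Function.iterate_add_apply, h]
  exact Function.iterate_fixed (funext fun x => by simp [fwdDiff]) d

theorem digits_sum (k b n : ℕ) (hb : 1 ≤ b) : ∃ l : List (List ℕ),
    (∀ ys ∈ l, ys.length = k ∧ ∀ y ∈ ys, y ≤ b) ∧ l.length ≤ n / b ^ k + k ∧
      (l.map List.prod).sum = n := by
  induction k generalizing n with
  | zero =>
    refine ⟨List.replicate n [], fun ys h => ?_, by simp, by simp⟩
    rw [List.eq_of_mem_replicate h]
    simp
  | succ k ih =>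
    obtain ⟨l, h1, h2, h3⟩ := ih (n / b)
    refine ⟨((n % b) :: List.replicate k 1) :: l.map (b :: ·), fun ys h => ?_, ?_, ?_⟩
    · rcases List.mem_cons.1 h with rfl | h
      · refine ⟨by simp, fun y hy => ?_⟩
        rcases List.mem_cons.1 hy with rfl | hy
        · exact (Nat.mod_lt _ hb).le
        · rwa [List.eq_of_mem_replicate hy]
      · obtain ⟨zs, hz, rfl⟩ := List.mem_map.1 h
        refine ⟨by simp [(h1 zs hz).1], fun y hy => ?_⟩
        rcases List.mem_cons.1 hy with rfl | hy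
        · exact le_rfl
        · exact (h1 zs hz).2 y hy
    · rw [Nat.div_div_eq_div_mul, ← pow_succ'] at h2
      simp only [List.length_cons, List.length_map]
      omega
    · have e : ((l.map (b :: ·)).map List.prod).sum = b * (l.map List.prod).sum := by
        rw [List.map_map, ← List.sum_map_mul_left]
        simp [Function.comp_def]
      rw [List.map_cons, List.sum_cons, e, h3]
      simp [Nat.mod_add_div]

/-- an iterated difference is a signed sum of `2 ^ k` values -/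
theorem Dl_expand (σ : ℤ) (ys : List ℕ) : ∃ l : List (ℕ × ℤ), l.length = 2 ^ ys.length ∧
    (∀ x ∈ l, x.1 ≤ ys.sum ∧ (x.2 = 1 ∨ x.2 = -1)) ∧ ∀ (a : ℤ → ℤ) (x₀ : ℤ),
      Dl (ys.map fun y : ℕ => σ * (y : ℤ)) a x₀ = (l.map fun x => x.2 * a (x₀ + σ * x.1)).sum := by
  induction ys with
  | nil => exact ⟨[(0, 1)], by simp, by simp, fun a x₀ => by simp [Dl]⟩
  | cons y ys ih =>
    obtain ⟨l, h1, h2, h3⟩ := ih
    refine ⟨(l.map fun x => (x.1 + y, x.2)) ++ l.map fun x => (x.1, -x.2), ?_, fun x hx => ?_,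
      fun a x₀ => ?_⟩
    · simp [h1, pow_succ, mul_two]
    · rw [List.sum_cons]
      rcases List.mem_append.1 hx with hx | hx <;> obtain ⟨z, hz, rfl⟩ := List.mem_map.1 hx <;>
        obtain ⟨k1, k2⟩ := h2 z hz
      · exact ⟨by dsimp only; omega, k2⟩
      · exact ⟨by dsimp only; omega, by dsimp only; omega⟩
    · simp only [List.map_cons, Dl, h3, List.map_append, List.sum_append, List.map_map,
        Function.comp_def, neg_mul]
      have e : ∀ f : ℕ × ℤ → ℤ, (l.map fun x => -f x).sum = -(l.map f).sum := fun f => by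
        rw [List.sum_neg, List.map_map]
        rfl
      rw [e, sub_eq_add_neg]
      congr 2
      refine List.map_congr_left fun x _ => ?_
      congr 2
      push_cast
      ring

end Pool.Agent.MP_b3b911_al.Fil

end

section

namespace Pool.Agent.MP_b3b911_al.Fil

variable {G : Type*} [Group G] {S : Finset G} {J : Type} [Fintype J] [DecidableEq J]

theorem NH1_letter (Z : Pre S J) : ∃ a : ℝ, 1 ≤ a ∧ ∀ x : G, (x ∈ S ∨ x⁻¹ ∈ S) →
    |(Z.X x : ℝ)| ≤ a := by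
  have h0 : 0 ≤ ∑ s ∈ S, |(Z.X s : ℝ)| := Finset.sum_nonneg fun _ _ => abs_nonneg _
  have h1 : ∀ s ∈ S, |(Z.X s : ℝ)| ≤ ∑ s ∈ S, |(Z.X s : ℝ)| := fun s hs =>
    Finset.single_le_sum (f := fun s => |(Z.X s : ℝ)|) (fun _ _ => abs_nonneg _) hs
  refine ⟨1 + ∑ s ∈ S, |(Z.X s : ℝ)|, by linarith, ?_⟩
  rintro x (hx | hx)
  · linarith [h1 x hx]
  · have := h1 _ hx
    rw [Z.X_inv, Int.cast_neg, abs_neg] at this
    linarith

theorem NH1_ivt (f : ℕ → ℝ) (a y : ℝ) (ha : 0 ≤ a) (hf : ∀ m, |f (m + 1) - f m| ≤ a)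
    (h0 : f 0 ≤ y) : ∀ n, y ≤ f n → ∃ m, |f m - y| ≤ a := by
  intro n
  induction n with
  | zero =>
    intro h
    refine ⟨0, ?_⟩
    rw [le_antisymm h0 h, sub_self, abs_zero]
    exact ha
  | succ n ih =>
    intro h
    by_cases hn : y ≤ f n
    · exact ih hn
    · refine ⟨n, ?_⟩
      have := (abs_le.1 (hf n)).2
      rw [abs_le]
      constructor <;> linarith [not_le.1 hn]

theorem Pre.step (Z : Pre S J) : ∃ a : ℝ, 1 ≤ a ∧ ∀ l : List G, Word S l →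
    |(Z.X l.prod : ℝ)| ≤ a * l.length := by
  obtain ⟨a, ha, h⟩ := NH1_letter Z
  refine ⟨a, ha, fun l => ?_⟩
  induction l with
  | nil => intro _; simp [Z.X_one]
  | cons x l ih =>
    intro hw
    have h1 := h x (hw x (List.mem_cons_self))
    have h2 := ih fun y hy => hw y (List.mem_cons_of_mem _ hy)
    rw [List.prod_cons, Z.X_mul, List.length_cons]
    push_cast
    have := abs_add_le (Z.X x : ℝ) (Z.X l.prod)
    linarith

theorem Pre.sm_conj (Z : Pre S J) {p : ℕ} (hp : 1 ≤ p) {β : G} (hβ : Z.P p β) (A : ℝ) :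
    ∃ C : ℝ, 0 ≤ C ∧ ∀ (K : ℝ) (y : ℤ), 1 ≤ K → |(y : ℝ)| ≤ A * K →
      Z.Sm K (C / K ^ p) (Z.t ^ y * β * Z.t ^ (-y)) := by
  have key : ∀ j, ∃ C : ℝ, 0 ≤ C ∧ ∀ (K : ℝ) (y : ℤ), 1 ≤ K → |(y : ℝ)| ≤ A * K →
      |(Z.v (Z.t ^ y * β * Z.t ^ (-y)) j : ℝ)| / K ^ Z.w j ≤ C / K ^ p := by
    intro j
    by_cases hj : p ≤ Z.w j
    · obtain ⟨C, hC, h⟩ := poly_bound (Z.w j - p) _ (Z.P_deg p β j hp hβ hj)
      have hM : (1 : ℝ) ≤ max A 1 := le_max_right _ _
      refine ⟨C * (max A 1) ^ (Z.w j - p), by positivity, fun K y hK hy => ?_⟩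
      have hK0 : 0 < K := by linarith
      have h1 := h y (max A 1 * K) (by nlinarith)
        (hy.trans (mul_le_mul_of_nonneg_right (le_max_left _ _) hK0.le))
      have h2 : K ^ Z.w j = K ^ (Z.w j - p) * K ^ p := by
        rw [← pow_add, Nat.sub_add_cancel hj]
      rw [div_le_div_iff₀ (by positivity) (by positivity), h2]
      rw [mul_pow] at h1
      calc _ ≤ C * ((max A 1) ^ (Z.w j - p) * K ^ (Z.w j - p)) * K ^ p :=
            mul_le_mul_of_nonneg_right h1 (by positivity)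
        _ = _ := by ring
    · refine ⟨0, le_rfl, fun K y hK hy => ?_⟩
      rw [Z.P_low p _ j (Z.P_conj p β y hβ) (not_le.1 hj)]
      simp
  choose C hC h using key
  refine ⟨∑ j, C j, Finset.sum_nonneg fun j _ => hC j, fun K y hK hy => ?_⟩
  refine Z.Sm_mono K _ _ _ ?_ (Z.Sm_v K hK _ (Z.P_X p _ (Z.P_conj p β y hβ)))
  rw [Finset.sum_div]
  exact Finset.sum_le_sum fun j _ => h j K y hK hy

theorem Pre.h1 (Z : Pre S J) : ∃ (c : G → J → ℝ) (C : ℝ), 0 ≤ C ∧ ∀ K : ℝ, 1 ≤ K → ∀ g,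
    Ball S K g → ∀ s, (s ∈ S ∨ s⁻¹ ∈ S) → ∀ j,
    K * |(Z.V (g * s) j : ℝ) - Z.V g j - c s j * (Z.X g : ℝ) ^ (Z.w j - 1)| ≤
      C * K ^ (Z.w j - 1) := by
  classical
  obtain ⟨a, ha, hstep⟩ := Z.step
  have hn : ∀ s : G, Z.X (s * Z.t ^ (-Z.X s)) = 0 := fun s => by
    rw [Z.X_mul, Z.X_tpow]; ring
  have hP : ∀ s : G, Z.P 1 (s * Z.t ^ (-Z.X s)) := fun s => Z.P_one _ (hn s)
  choose c C1 hC1 h1 using fun (s : G) (j : J) =>
    poly_asym (Z.w j - 1) _ (Z.P_deg 1 _ j le_rfl (hP s) (Z.w_pos j))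
  choose C2 hC2 h2 using fun s : G => Z.sm_conj le_rfl (hP s) a
  obtain ⟨C3, hC3, h3⟩ := Z.Sm_ball 1
  set T : Finset G := S ∪ S.image (·⁻¹) with hT
  have hTm : ∀ s, (s ∈ S ∨ s⁻¹ ∈ S) → s ∈ T := by
    rintro s (h | h)
    · exact Finset.mem_union_left _ h
    · exact Finset.mem_union_right _ (Finset.mem_image.2 ⟨s⁻¹, h, inv_inv s⟩)
  set B : ℝ := ∑ s ∈ T, C2 s with hB
  have hB0 : 0 ≤ B := Finset.sum_nonneg fun s _ => hC2 s
  have hBs : ∀ s ∈ T, C2 s ≤ B := fun s hs => Finset.single_le_sum (fun s _ => hC2 s) hs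
  obtain ⟨C4, hC4, h4⟩ := Z.KE (C3 + B)
  set D : ℝ := ∑ s ∈ T, ∑ j, C1 s j * a ^ (Z.w j - 1) with hD
  have ha0 : 0 < a := by linarith
  have hnn : ∀ s j, 0 ≤ C1 s j * a ^ (Z.w j - 1) := fun s j =>
    mul_nonneg (hC1 s j) (by positivity)
  have hD0 : 0 ≤ D := Finset.sum_nonneg fun s _ => Finset.sum_nonneg fun j _ => hnn s j
  have hDs : ∀ s ∈ T, ∀ j, C1 s j * a ^ (Z.w j - 1) ≤ D := fun s hs j =>
    (Finset.single_le_sum (f := fun j => C1 s j * a ^ (Z.w j - 1)) (fun j _ => hnn s j)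
      (Finset.mem_univ j)).trans
      (Finset.single_le_sum (f := fun s => ∑ j, C1 s j * a ^ (Z.w j - 1))
        (fun s _ => Finset.sum_nonneg fun j _ => hnn s j) hs)
  refine ⟨c, C4 * B + D, by positivity, fun K hK g hg s hs j => ?_⟩
  have hK0 : 0 < K := by linarith
  have hXg : |(Z.X g : ℝ)| ≤ a * K := by
    obtain ⟨l, hl, hw, rfl⟩ := hg
    exact (hstep l hw).trans (mul_le_mul_of_nonneg_left hl ha0.le)
  set x := g * Z.t ^ (-Z.X g) with hx
  set u := Z.t ^ Z.X g * (s * Z.t ^ (-Z.X s)) * Z.t ^ (-Z.X g) with hu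
  have hV : Z.V (g * s) = Z.v (x * u * 1) := by
    unfold Pre.V
    congr 1
    rw [hx, hu, Z.X_mul]
    group
  have hV0 : Z.V g = Z.v (x * 1) := by rw [mul_one]; rfl
  have hsx : Z.Sm K (C3 + B) x :=
    Z.Sm_mono K _ _ _ (by linarith) (h3 K hK g (by rwa [one_mul]))
  have hsu : Z.Sm K (C2 s / K ^ 1) u := h2 s K _ hK hXg
  have hs1 : Z.Sm K (C3 + B) 1 := by
    refine Z.Sm_mono K _ _ _ ?_ (Z.Sm_v K hK 1 Z.X_one)
    rw [Z.v_one]
    simp only [Pi.zero_apply, Int.cast_zero, abs_zero, zero_div, Finset.sum_const_zero]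
    linarith
  have hε : C2 s / K ^ 1 ≤ C3 + B := by
    rw [pow_one]
    have := div_le_self (hC2 s) hK
    linarith [hBs s (hTm s hs)]
  have k4 := h4 K _ hK hε x u 1 (hn g) (Z.P_X 1 _ (Z.P_conj 1 _ _ (hP s))) Z.X_one hsx hsu hs1 j
  have k1 := h1 s j (Z.X g) (a * K) (by nlinarith) hXg
  rw [hV, hV0]
  have hw : K ^ Z.w j = K ^ (Z.w j - 1) * K := by
    rw [← pow_succ, Nat.sub_add_cancel (Z.w_pos j)]
  have e4 : C4 * (C2 s / K ^ 1) * K ^ Z.w j = C4 * C2 s * K ^ (Z.w j - 1) := by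
    rw [hw, pow_one]; field_simp
  rw [e4] at k4
  have hpw : 0 ≤ K ^ (Z.w j - 1) := by positivity
  have k4' : C4 * C2 s * K ^ (Z.w j - 1) ≤ C4 * B * K ^ (Z.w j - 1) :=
    mul_le_mul_of_nonneg_right (mul_le_mul_of_nonneg_left (hBs s (hTm s hs)) hC4) hpw
  have k1' : K * |(Z.v u j : ℝ) - c s j * (Z.X g : ℝ) ^ (Z.w j - 1)| ≤ D * K ^ (Z.w j - 1) := by
    calc _ ≤ a * K * |(Z.v u j : ℝ) - c s j * (Z.X g : ℝ) ^ (Z.w j - 1)| :=
          mul_le_mul_of_nonneg_right (by nlinarith) (abs_nonneg _)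
      _ ≤ C1 s j * (a * K) ^ (Z.w j - 1) := k1
      _ = C1 s j * a ^ (Z.w j - 1) * K ^ (Z.w j - 1) := by rw [mul_pow]; ring
      _ ≤ _ := mul_le_mul_of_nonneg_right (hDs s (hTm s hs) j) hpw
  have tri : |(Z.v (x * u * 1) j : ℝ) - Z.v (x * 1) j - c s j * (Z.X g : ℝ) ^ (Z.w j - 1)| ≤
      |(Z.v (x * u * 1) j : ℝ) - Z.v (x * 1) j - Z.v u j| +
        |(Z.v u j : ℝ) - c s j * (Z.X g : ℝ) ^ (Z.w j - 1)| := by
    refine le_trans (le_of_eq ?_) (abs_add_le _ _)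
    congr 1
    ring
  have := mul_le_mul_of_nonneg_left tri hK0.le
  rw [mul_add] at this
  calc _ ≤ _ := this
    _ ≤ C4 * B * K ^ (Z.w j - 1) + D * K ^ (Z.w j - 1) := add_le_add (k4.trans k4') k1'
    _ = _ := by ring

theorem Pre.cov (Z : Pre S J) : ∃ a : ℝ, ∀ (L : ℝ) (l : List G), Word S l →
    (∃ n, L ≤ |(Z.X (l.take n).prod : ℝ)|) → ∃ σ : ℤ, (σ = 1 ∨ σ = -1) ∧ Z.Cov a σ L l := by
  obtain ⟨a, ha, h⟩ := NH1_letter Z
  refine ⟨a + Z.r, ?_⟩
  rintro L l hw ⟨n, hn⟩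
  have hr : (0 : ℝ) ≤ Z.r := Nat.cast_nonneg _
  have hst : ∀ m, |(Z.X (l.take (m + 1)).prod : ℝ) - Z.X (l.take m).prod| ≤ a := by
    intro m
    by_cases hm : m < l.length
    · rw [List.prod_take_succ l m hm, Z.X_mul]
      push_cast
      rw [add_sub_cancel_left]
      exact h _ (hw _ (List.getElem_mem hm))
    · rw [List.take_of_length_le (by omega), List.take_of_length_le (by omega), sub_self,
        abs_zero]
      linarith
  have main : ∀ σ : ℤ, (σ = 1 ∨ σ = -1) → L ≤ σ * (Z.X (l.take n).prod : ℝ) →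
      Z.Cov (a + Z.r) σ L l := by
    intro σ hσ hL y hy
    have habs : ∀ z : ℝ, |(σ : ℝ) * z| = |z| := fun z => by
      rcases hσ with rfl | rfl <;> simp
    have hsq : (σ : ℝ) * σ = 1 := by rcases hσ with rfl | rfl <;> simp
    have hconv : ∀ m, |(Z.X (l.take m).prod : ℝ) - σ * y| =
        |(σ : ℝ) * Z.X (l.take m).prod - y| := fun m => by
      rw [← habs, mul_sub, ← mul_assoc, hsq, one_mul]
    by_cases hyn : (y : ℝ) ≤ σ * (Z.X (l.take n).prod : ℝ)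
    · obtain ⟨m, hm⟩ := NH1_ivt (fun m => (σ : ℝ) * Z.X (l.take m).prod) a y (by linarith)
        (fun m => by rw [← mul_sub, habs]; exact hst m)
        (by simp [Z.X_one]) n hyn
      exact ⟨m, by rw [hconv]; linarith⟩
    · refine ⟨n, ?_⟩
      rw [hconv, abs_le]
      constructor <;> linarith [not_le.1 hyn]
  by_cases h0 : 0 ≤ (Z.X (l.take n).prod : ℝ)
  · refine ⟨1, Or.inl rfl, main 1 (Or.inl rfl) ?_⟩
    rw [abs_of_nonneg h0] at hn
    simpa using hn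
  · refine ⟨-1, Or.inr rfl, main (-1) (Or.inr rfl) ?_⟩
    rw [abs_of_neg (not_le.1 h0)] at hn
    simpa using hn

end Pool.Agent.MP_b3b911_al.Fil

end

section

namespace Pool.Agent.MP_b3b911_al.Fil

variable {G : Type*} [Group G] {S : Finset G} {J : Type} [Fintype J] [DecidableEq J]

theorem NIns_take (Z : Pre S J) (l₁ m l₂ : List G) (hm : Z.X m.prod = 0) (n : ℕ) :
    ∃ n', Z.X ((l₁ ++ m ++ l₂).take n').prod = Z.X ((l₁ ++ l₂).take n).prod := by
  by_cases h : n ≤ l₁.length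
  · refine ⟨n, ?_⟩
    rw [List.append_assoc, List.take_append_of_le_length h, List.take_append_of_le_length h]
  · refine ⟨n + m.length, ?_⟩
    have h1 : (l₁ ++ m).length ≤ n + m.length := by
      rw [List.length_append]; omega
    have h2 : n + m.length - (l₁ ++ m).length = n - l₁.length := by
      rw [List.length_append]; omega
    have h3 : l₁.length ≤ n := by omega
    rw [List.take_append (l₁ := l₁ ++ m), List.take_of_length_le h1, h2, List.take_append,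
      List.take_of_length_le h3]
    simp only [List.prod_append, Z.X_mul, hm, add_zero]

theorem NIns_words (Z : Pre S J) (T : Finset G) (a : ℝ) : ∃ C₀ : ℝ, 0 ≤ C₀ ∧ ∀ β ∈ T, ∀ d τ : ℤ,
    |(d : ℝ)| ≤ a → (τ = 1 ∨ τ = -1) → ∃ m : List G, Word S m ∧
      m.prod = Z.t ^ d * β ^ τ * Z.t ^ (-d) ∧ (m.length : ℝ) ≤ C₀ := by
  classical
  choose W hW1 hW2 using exists_word Z.gen
  let F : Finset (G × ℤ × ℤ) := T ×ˢ Finset.Icc (-⌈a⌉) ⌈a⌉ ×ˢ ({1, -1} : Finset ℤ)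
  let f : G × ℤ × ℤ → ℝ := fun q => ((W (Z.t ^ q.2.1 * q.1 ^ q.2.2 * Z.t ^ (-q.2.1))).length : ℝ)
  have hf : ∀ q, 0 ≤ f q := fun q => Nat.cast_nonneg _
  refine ⟨∑ q ∈ F, f q, Finset.sum_nonneg fun q _ => hf q, ?_⟩
  intro β hβ d τ hd hτ
  refine ⟨W _, hW1 _, hW2 _, ?_⟩
  have hq : (β, d, τ) ∈ F := by
    have h1 := Int.le_ceil a
    have h2 := abs_le.1 hd
    have h3 : d ≤ ⌈a⌉ := by exact_mod_cast h2.2.trans h1
    have h4 : -⌈a⌉ ≤ d := by
      have : (-(⌈a⌉ : ℝ)) ≤ d := by linarith [h2.1]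
      exact_mod_cast this
    simp only [F, Finset.mem_product, Finset.mem_Icc, Finset.mem_insert, Finset.mem_singleton]
    exact ⟨hβ, ⟨h4, h3⟩, hτ⟩
  exact Finset.single_le_sum (f := f) (fun q _ => hf q) hq

theorem NIns_conj (Z : Pre S J) {p : ℕ} (hp : 1 ≤ p) (T : Finset G) (hT : ∀ β ∈ T, Z.P p β)
    (A : ℝ) : ∃ C : ℝ, 0 ≤ C ∧ ∀ β ∈ T, ∀ (K : ℝ) (y : ℤ), 1 ≤ K → |(y : ℝ)| ≤ A * K →
      Z.Sm K (C / K ^ p) (Z.t ^ y * β * Z.t ^ (-y)) := by
  classical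
  have key : ∀ β : G, ∃ C : ℝ, 0 ≤ C ∧ (β ∈ T → ∀ (K : ℝ) (y : ℤ), 1 ≤ K → |(y : ℝ)| ≤ A * K →
      Z.Sm K (C / K ^ p) (Z.t ^ y * β * Z.t ^ (-y))) := by
    intro β
    by_cases hβ : β ∈ T
    · obtain ⟨C, hC, h⟩ := Z.sm_conj hp (hT β hβ) A
      exact ⟨C, hC, fun _ => h⟩
    · exact ⟨0, le_rfl, fun h => absurd h hβ⟩
  choose C hC h using key
  refine ⟨∑ β ∈ T, C β, Finset.sum_nonneg fun β _ => hC β, ?_⟩
  intro β hβ K y hK hy
  refine Z.Sm_mono _ _ _ _ ?_ (h β hβ K y hK hy)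
  have hKp : 0 < K ^ p := by positivity
  exact div_le_div_of_nonneg_right (Finset.single_le_sum (f := C) (fun q _ => hC q) hβ) hKp.le

theorem Pre.ins (Z : Pre S J) {p : ℕ} (hp : 1 ≤ p) (T : Finset G) (hT : ∀ β ∈ T, Z.P p β)
    (a : ℝ) : ∃ C₀ : ℝ, 0 ≤ C₀ ∧ ∀ A : ℝ, ∃ C : ℝ, 0 ≤ C ∧ ∀ (K L : ℝ) (σ : ℤ) (l : List G),
      1 ≤ L → L ≤ K → (σ = 1 ∨ σ = -1) → Word S l → (l.length : ℝ) ≤ A * K → Z.Cov a σ L l →
      ∀ β ∈ T, ∀ y : ℕ, (y : ℝ) ≤ L + Z.r → ∀ τ : ℤ, (τ = 1 ∨ τ = -1) →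
      ∃ l' : List G, Word S l' ∧ l.Sublist l' ∧ (l'.length : ℝ) ≤ l.length + C₀ ∧
        Z.Cov a σ L l' ∧ Z.X l'.prod = Z.X l.prod ∧ ∀ j,
        (Z.w j ≤ p → Z.V l'.prod j = Z.V l.prod j + τ * Z.ψ β (σ * y) j) ∧
        K ^ (p + 1) * |(Z.V l'.prod j : ℝ) - Z.V l.prod j - τ * Z.ψ β (σ * y) j| ≤
          C * K ^ Z.w j := by
  obtain ⟨C₀, hC₀, hword⟩ := NIns_words Z T a
  refine ⟨C₀, hC₀, fun A => ?_⟩
  obtain ⟨C₁, hC₁, hball⟩ := Z.Sm_ball A
  obtain ⟨C₂, hC₂, hconj⟩ := NIns_conj Z hp T hT (1 + Z.r)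
  obtain ⟨C₃, hC₃, hKE⟩ := Z.KE (C₁ + C₁ + C₂)
  refine ⟨C₃ * C₂, mul_nonneg hC₃ hC₂, ?_⟩
  intro K L σ l hL hLK hσ hw hlen hcov β hβ y hy τ hτ
  have hK : 1 ≤ K := hL.trans hLK
  have hKp : 1 ≤ K ^ p := one_le_pow₀ hK
  obtain ⟨n, hn⟩ := hcov y hy
  obtain ⟨m, hm1, hm2, hm3⟩ := hword β hβ (σ * y - Z.X (l.take n).prod) τ
    (by push_cast; rwa [abs_sub_comm]) hτ
  have hXβ : Z.X β = 0 := Z.P_X _ _ (hT β hβ)
  have hXm : Z.X m.prod = 0 := by
    rw [hm2, Z.X_mul, Z.X_mul, Z.X_tpow, Z.X_tpow, Z.X_zpow, hXβ]; ring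
  have hsplit : l.take n ++ l.drop n = l := List.take_append_drop n l
  have hprod : l.prod = (l.take n).prod * (l.drop n).prod := by
    rw [← List.prod_append, hsplit]
  have hX : Z.X (l.take n ++ m ++ l.drop n).prod = Z.X l.prod := by
    rw [hprod]
    simp only [List.prod_append, Z.X_mul, hXm, add_zero]
  refine ⟨l.take n ++ m ++ l.drop n, ((hw.take n).append hm1).append (hw.drop n), ?_, ?_, ?_,
    hX, ?_⟩
  · conv_lhs => rw [← hsplit]
    exact (List.sublist_append_left _ _).append_right _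
  · have : (l.take n ++ m ++ l.drop n).length = l.length + m.length := by
      conv_rhs => rw [← hsplit]
      simp only [List.length_append]
      omega
    rw [this]
    push_cast
    linarith
  · intro y' hy'
    obtain ⟨n', hn'⟩ := hcov y' hy'
    obtain ⟨n'', h⟩ := NIns_take Z (l.take n) m (l.drop n) hXm n'
    rw [hsplit] at h
    exact ⟨n'', by rw [h]; exact hn'⟩
  · -- the estimates
    set p₀ := (l.take n).prod with hp₀
    set n₀ := p₀ * Z.t ^ (-Z.X p₀) with hn₀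
    set h := l.prod * Z.t ^ (-Z.X l.prod) with hh
    set u := Z.t ^ (σ * y : ℤ) * β * Z.t ^ (-(σ * y : ℤ)) with hu
    have hPu : Z.P p u := Z.P_conj _ _ _ (hT β hβ)
    have hXu : Z.X u = 0 := Z.P_X _ _ hPu
    have hXn : Z.X n₀ = 0 := by rw [hn₀, Z.X_mul, Z.X_tpow]; ring
    have hXh : Z.X h = 0 := by rw [hh, Z.X_mul, Z.X_tpow]; ring
    have hXy : Z.X (n₀⁻¹ * h) = 0 := by rw [Z.X_mul, Z.X_inv, hXn, hXh]; ring
    have hXx : Z.X (n₀ * u⁻¹) = 0 := by rw [Z.X_mul, Z.X_inv, hXn, hXu]; ring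
    have hSn : Z.Sm K C₁ n₀ := by
      refine hball K hK p₀ ⟨l.take n, le_trans ?_ hlen, hw.take n, rfl⟩
      exact_mod_cast List.length_take_le' n l
    have hSh : Z.Sm K C₁ h := hball K hK l.prod ⟨l, hlen, hw, rfl⟩
    have hε : C₂ / K ^ p ≤ C₂ := div_le_self hC₂ hKp
    have hSu : Z.Sm K (C₂ / K ^ p) u := by
      refine hconj β hβ K _ hK ?_
      have hr : (0 : ℝ) ≤ Z.r := Nat.cast_nonneg _
      have hy0 : (0 : ℝ) ≤ y := Nat.cast_nonneg _
      have : |((σ * y : ℤ) : ℝ)| = y := by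
        rcases hσ with rfl | rfl
        · simp
        · simp
      rw [this]
      nlinarith
    have hSy : Z.Sm K (C₁ + C₁ + C₂) (n₀⁻¹ * h) :=
      Z.Sm_mono _ _ _ _ (by linarith) (Z.Sm_mul _ _ _ _ _ (Z.Sm_inv _ _ _ hSn) hSh)
    have hSn' : Z.Sm K (C₁ + C₁ + C₂) n₀ := Z.Sm_mono _ _ _ _ (by linarith) hSn
    have hSx : Z.Sm K (C₁ + C₁ + C₂) (n₀ * u⁻¹) :=
      Z.Sm_mono _ _ _ _ (by linarith) (Z.Sm_mul _ _ _ _ _ hSn (Z.Sm_inv _ _ _ hSu))
    have hV : Z.V l.prod = Z.v (n₀ * (n₀⁻¹ * h)) := by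
      rw [mul_inv_cancel_left]; rfl
    have hV' : Z.V (l.take n ++ m ++ l.drop n).prod = Z.v (n₀ * u ^ τ * (n₀⁻¹ * h)) := by
      unfold Pre.V
      rw [hX]
      congr 1
      have hd : (l.drop n).prod = p₀⁻¹ * l.prod := by rw [hprod]; group
      have hu' : u ^ τ = Z.t ^ (σ * y : ℤ) * β ^ τ * Z.t ^ (-(σ * y : ℤ)) := by
        rw [hu, zpow_neg, conj_zpow]
      rw [List.prod_append, List.prod_append, hm2, hd, hu', hn₀, hh, ← hp₀]
      group
    have hψ : Z.ψ β (σ * y) = Z.v u := rfl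
    have hfin : ∀ (E : ℝ) (j : J), K * E ≤ C₃ * (C₂ / K ^ p) * K ^ Z.w j →
        K ^ (p + 1) * E ≤ C₃ * C₂ * K ^ Z.w j := by
      intro E j hE
      have hKp0 : 0 < K ^ p := by positivity
      have := mul_le_mul_of_nonneg_left hE hKp0.le
      calc K ^ (p + 1) * E = K ^ p * (K * E) := by ring
        _ ≤ K ^ p * (C₃ * (C₂ / K ^ p) * K ^ Z.w j) := this
        _ = C₃ * C₂ * K ^ Z.w j := by field_simp
    intro j
    rw [hV, hV', hψ]
    rcases hτ with rfl | rfl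
    · rw [zpow_one]
      refine ⟨fun hj => ?_, hfin _ j ?_⟩
      · rw [Z.KV p n₀ u _ j hXn hPu hXy hj, one_mul]
      · have := hKE K (C₂ / K ^ p) hK (by linarith) n₀ u _ hXn hXu hXy hSn' hSu hSy j
        simpa using this
    · rw [zpow_neg_one]
      have e : n₀ * u⁻¹ * u * (n₀⁻¹ * h) = n₀ * (n₀⁻¹ * h) := by group
      refine ⟨fun hj => ?_, hfin _ j ?_⟩
      · have := Z.KV p (n₀ * u⁻¹) u _ j hXx hPu hXy hj
        rw [e] at this
        rw [this]; ring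
      · have := hKE K (C₂ / K ^ p) hK (by linarith) (n₀ * u⁻¹) u _ hXx hXu hXy hSx hSu hSy j
        rw [e] at this
        refine le_trans (le_of_eq ?_) this
        congr 1
        rw [← abs_neg]
        congr 1
        push_cast
        ring

end Pool.Agent.MP_b3b911_al.Fil

end

section

namespace Pool.Agent.MP_b3b911_al.Fil

theorem NLemV_apply {β J : Type*} (f : β → J → ℤ) (l : List β) (j : J) :
    (l.map f).sum j = (l.map fun x => f x j).sum := by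
  induction l with
  | nil => rfl
  | cons x l ih => simp only [List.map_cons, List.sum_cons, Pi.add_apply, ih]

theorem NLemV_prod (σ : ℤ) (ys : List ℕ) :
    (ys.map fun y : ℕ => σ * (y : ℤ)).prod = σ ^ ys.length * (ys.prod : ℕ) := by
  induction ys with
  | nil => simp
  | cons y ys ih =>
    simp only [List.map_cons, List.prod_cons, List.length_cons, ih, Nat.cast_mul, pow_succ]
    ring

theorem NLemV_sum_le (b : ℕ) (ys : List ℕ) (h : ∀ y ∈ ys, y ≤ b) : ys.sum ≤ ys.length * b := by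
  simpa using List.sum_le_card_nsmul ys b h

theorem NLemV_block {α : Type*} {J : Type} (P : J → Prop) (k b : ℕ) (ψ : α → ℤ → J → ℤ) (g₁ : α)
    (κ : J → ℤ) (top : ∀ j, P j → (fwdDiff (1 : ℤ))^[k] (fun y => ψ g₁ y j) = fun _ => κ j)
    (σ s : ℤ) (hs : s = 1 ∨ s = -1) (ys : List ℕ) (hl : ys.length = k) (hb : ∀ y ∈ ys, y ≤ b) :
    ∃ l : List (α × ℕ × ℤ), (∀ x ∈ l, x.1 = g₁ ∧ x.2.1 ≤ k * b ∧ (x.2.2 = 1 ∨ x.2.2 = -1)) ∧
      l.length = 2 ^ k ∧ ∀ j, P j → (l.map fun x => x.2.2 • ψ x.1 (σ * x.2.1)).sum j =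
        s * σ ^ k * κ j * (ys.prod : ℕ) := by
  obtain ⟨l, h1, h2, h3⟩ := Dl_expand σ ys
  refine ⟨l.map fun x => (g₁, x.1, s * x.2), ?_, by rw [List.length_map, h1, hl], fun j hj => ?_⟩
  · intro x hx
    obtain ⟨y, hy, rfl⟩ := List.mem_map.1 hx
    refine ⟨rfl, (h2 y hy).1.trans (hl ▸ NLemV_sum_le b ys hb), ?_⟩
    rcases hs with rfl | rfl <;> rcases (h2 y hy).2 with h | h <;> simp [h]
  · have h4 := Dl_const (ys.map fun y : ℕ => σ * (y : ℤ)) (fun y => ψ g₁ y j) (κ j)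
      (by rw [List.length_map, hl]; exact top j hj) 0
    rw [h3, NLemV_prod, hl] at h4
    rw [NLemV_apply, List.map_map]
    have h5 : ((fun x : α × ℕ × ℤ => (x.2.2 • ψ x.1 (σ * x.2.1)) j) ∘
        fun x : ℕ × ℤ => (g₁, x.1, s * x.2)) = fun x => s * (x.2 * ψ g₁ (0 + σ * x.1) j) := by
      funext x
      simp only [Function.comp_apply, Pi.smul_apply, smul_eq_mul, zero_add, mul_assoc]
    rw [h5, List.sum_map_mul_left, h4]
    ring

theorem NLemV_blocks {α : Type*} {J : Type} (P : J → Prop) (k b : ℕ) (ψ : α → ℤ → J → ℤ) (g₁ : α)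
    (κ : J → ℤ) (top : ∀ j, P j → (fwdDiff (1 : ℤ))^[k] (fun y => ψ g₁ y j) = fun _ => κ j)
    (σ s : ℤ) (hs : s = 1 ∨ s = -1) (Y : List (List ℕ))
    (hY : ∀ ys ∈ Y, ys.length = k ∧ ∀ y ∈ ys, y ≤ b) :
    ∃ l : List (α × ℕ × ℤ), (∀ x ∈ l, x.1 = g₁ ∧ x.2.1 ≤ k * b ∧ (x.2.2 = 1 ∨ x.2.2 = -1)) ∧
      l.length = 2 ^ k * Y.length ∧ ∀ j, P j → (l.map fun x => x.2.2 • ψ x.1 (σ * x.2.1)).sum j =
        s * σ ^ k * κ j * ((Y.map List.prod).sum : ℕ) := by
  induction Y with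
  | nil => exact ⟨[], by simp, by simp, fun j _ => by simp⟩
  | cons ys Y ih =>
    obtain ⟨l, h1, h2, h3⟩ := ih fun zs hz => hY zs (List.mem_cons_of_mem _ hz)
    obtain ⟨l', h1', h2', h3'⟩ := NLemV_block P k b ψ g₁ κ top σ s hs ys
      (hY ys List.mem_cons_self).1 (hY ys List.mem_cons_self).2
    refine ⟨l' ++ l, fun x hx => ?_, ?_, fun j hj => ?_⟩
    · rcases List.mem_append.1 hx with hx | hx
      · exact h1' x hx
      · exact h1 x hx
    · rw [List.length_append, h2, h2', List.length_cons]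
      ring
    · rw [List.map_append, List.sum_append, Pi.add_apply, h3 j hj, h3' j hj, List.map_cons,
        List.sum_cons, Nat.cast_add]
      ring

theorem NLemV_sign (σ : ℤ) (hσ : σ = 1 ∨ σ = -1) (k : ℕ) (m : ℤ) :
    ∃ s : ℤ, (s = 1 ∨ s = -1) ∧ s * σ ^ k * (m.natAbs : ℕ) = m := by
  have h : σ ^ k = 1 ∨ σ ^ k = -1 := by
    rcases hσ with rfl | rfl
    · exact Or.inl (one_pow k)
    · exact neg_one_pow_eq_or ℤ k
  rcases h with h | h <;> rcases Int.natAbs_eq m with h' | h'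
  · exact ⟨1, Or.inl rfl, by rw [h]; omega⟩
  · exact ⟨-1, Or.inr rfl, by rw [h]; omega⟩
  · exact ⟨-1, Or.inr rfl, by rw [h]; omega⟩
  · exact ⟨1, Or.inl rfl, by rw [h]; omega⟩

theorem NLemV_base (k : ℕ) (L : ℝ) (hL : 1 ≤ L) :
    ∃ b : ℕ, 1 ≤ b ∧ ((k * b : ℕ) : ℝ) ≤ L + k ∧ L ^ k ≤ (k : ℝ) ^ k * (b : ℝ) ^ k := by
  rcases Nat.eq_zero_or_pos k with rfl | hk
  · exact ⟨1, le_rfl, by simp; linarith, by simp⟩
  · have hk' : (0 : ℝ) < k := by exact_mod_cast hk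
    have h0 : 0 ≤ L / k := div_nonneg (by linarith) hk'.le
    have h1 := Nat.floor_le h0
    have h2 := Nat.lt_floor_add_one (L / k)
    refine ⟨⌊L / k⌋₊ + 1, by omega, ?_, ?_⟩
    · push_cast
      rw [le_div_iff₀ hk'] at h1
      nlinarith
    · rw [← mul_pow]
      refine pow_le_pow_left₀ (by linarith) ?_ k
      push_cast
      rw [div_lt_iff₀ hk'] at h2
      nlinarith

theorem lemV {α : Type*} {J : Type} [Fintype J] [DecidableEq J] (w : J → ℕ) (r p k : ℕ)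
    (ψ : α → ℤ → J → ℤ) (i : J) (hk : k ≤ r) (g₀ g₁ : α) (q : ℤ) (hq : 0 < q)
    (bas : ψ g₀ 0 = Pi.single i 1)
    (top : ∀ j, w j ≤ p + k →
      (fwdDiff (1 : ℤ))^[k] (fun y => ψ g₁ y j) = fun _ => if j = i then q else 0) :
    ∃ C : ℝ, 0 ≤ C ∧ ∀ (σ : ℤ) (K L M : ℝ), (σ = 1 ∨ σ = -1) → 1 ≤ L → L ≤ K → 1 ≤ M →
      ∀ n : ℤ, |(n : ℝ)| ≤ M * K ^ k → ∃ l : List (α × ℕ × ℤ),
        (∀ x ∈ l, (x.1 = g₀ ∧ x.2.1 = 0 ∨ x.1 = g₁) ∧ (x.2.1 : ℝ) ≤ L + r ∧
          (x.2.2 = 1 ∨ x.2.2 = -1)) ∧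
        (l.length : ℝ) ≤ C * M * (K / L) ^ k ∧ ∀ j, w j ≤ p + k →
        (l.map fun x => x.2.2 • ψ x.1 (σ * x.2.1)).sum j = if j = i then n else 0 := by
  have hq' : (0 : ℝ) < q := by exact_mod_cast hq
  refine ⟨2 ^ k * ((k : ℝ) ^ k + k) + q, by positivity, fun σ K L M hσ hL hLK hM n hn => ?_⟩
  obtain ⟨b, hb1, hb2, hb3⟩ := NLemV_base k L hL
  obtain ⟨s, hs, hs'⟩ := NLemV_sign σ hσ k (n / q)
  obtain ⟨Y, hY1, hY2, hY3⟩ := digits_sum k b (n / q).natAbs hb1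
  obtain ⟨l, h1, h2, h3⟩ := NLemV_blocks (fun j => w j ≤ p + k) k b ψ g₁
    (fun j => if j = i then q else 0) top σ s hs Y hY1
  have hr0 : 0 ≤ n % q := Int.emod_nonneg n hq.ne'
  have hr1 : n % q < q := Int.emod_lt_of_pos n hq
  have hkr : (k : ℝ) ≤ r := by exact_mod_cast hk
  have hL0 : 0 < L := by linarith
  refine ⟨l ++ List.replicate (n % q).toNat (g₀, 0, 1), fun x hx => ?_, ?_, fun j hj => ?_⟩
  · rcases List.mem_append.1 hx with hx | hx
    · refine ⟨Or.inr (h1 x hx).1, ?_, (h1 x hx).2.2⟩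
      have : (x.2.1 : ℝ) ≤ ((k * b : ℕ) : ℝ) := by exact_mod_cast (h1 x hx).2.1
      linarith
    · rw [List.eq_of_mem_replicate hx]
      refine ⟨Or.inl ⟨rfl, rfl⟩, ?_, Or.inl rfl⟩
      have : (0 : ℝ) ≤ r := Nat.cast_nonneg r
      simp only [Nat.cast_zero]
      linarith
  · have hT : 1 ≤ M * (K / L) ^ k :=
      one_le_mul_of_one_le_of_one_le hM (one_le_pow₀ ((one_le_div hL0).2 hLK))
    have hb0 : (0 : ℝ) < (b : ℝ) ^ k := pow_pos (by exact_mod_cast hb1) k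
    have hLk : 0 < L ^ k := pow_pos hL0 k
    have hn1 : (((n / q).natAbs : ℕ) : ℝ) ≤ M * K ^ k := by
      refine le_trans ?_ hn
      have h := Int.natAbs_ediv_le_natAbs n q
      rw [← Int.cast_abs, Int.abs_eq_natAbs, Int.cast_natCast]
      exact_mod_cast h
    have hn0 : 0 ≤ M * K ^ k := (abs_nonneg _).trans hn
    have hd : ((((n / q).natAbs / b ^ k : ℕ)) : ℝ) ≤ (k : ℝ) ^ k * (M * (K / L) ^ k) := by
      refine Nat.cast_div_le.trans ?_
      rw [Nat.cast_pow, div_le_iff₀ hb0, div_pow]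
      refine hn1.trans ?_
      have : M * K ^ k = M * (K ^ k / L ^ k) * L ^ k := by field_simp
      rw [this]
      have h0 : 0 ≤ M * (K ^ k / L ^ k) := by rw [← div_pow]; linarith
      nlinarith [mul_le_mul_of_nonneg_left hb3 h0]
    have hY : (Y.length : ℝ) ≤ (k : ℝ) ^ k * (M * (K / L) ^ k) + k := by
      have : (Y.length : ℝ) ≤ (((n / q).natAbs / b ^ k + k : ℕ) : ℝ) := by exact_mod_cast hY2
      rw [Nat.cast_add] at this
      linarith
    have hρ : (((n % q).toNat : ℕ) : ℝ) ≤ q := by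
      have : (((n % q).toNat : ℕ) : ℤ) ≤ q := by omega
      exact_mod_cast this
    rw [List.length_append, List.length_replicate, h2, mul_assoc]
    push_cast
    generalize M * (K / L) ^ k = T at hT hY
    have hk0 : (0 : ℝ) ≤ k := Nat.cast_nonneg k
    have h2k : (0 : ℝ) < 2 ^ k := by positivity
    have e1 : (k : ℝ) ≤ k * T := by nlinarith
    have e2 : (q : ℝ) ≤ q * T := by nlinarith
    have e3 : (2 : ℝ) ^ k * Y.length ≤ 2 ^ k * ((k : ℝ) ^ k * T + k * T) :=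
      mul_le_mul_of_nonneg_left (by linarith) h2k.le
    nlinarith
  · rw [List.map_append, List.sum_append, Pi.add_apply, h3 j hj, hY3, List.map_replicate,
      List.sum_replicate]
    simp only [Nat.cast_zero, mul_zero, bas, one_smul, Pi.smul_apply, Pi.single_apply]
    split_ifs with h
    · have e := Int.mul_ediv_add_emod n q
      have e' : (((n % q).toNat : ℕ) : ℤ) = n % q := Int.toNat_of_nonneg hr0
      rw [nsmul_eq_mul, mul_one, e', mul_right_comm, hs']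
      linarith
    · simp

end Pool.Agent.MP_b3b911_al.Fil

end

section

namespace Pool.Agent.MP_b3b911_al.Fil

theorem NLemW_sum {β J : Type*} (f : β → J → ℤ) (j : J) (B : ℝ) (l : List β)
    (h : ∀ x ∈ l, |(f x j : ℝ)| ≤ B) : |((l.map f).sum j : ℝ)| ≤ l.length * B := by
  induction l with
  | nil => simp
  | cons x l ih =>
    have h1 := h x List.mem_cons_self
    have h2 := ih fun y hy => h y (List.mem_cons_of_mem _ hy)
    rw [List.map_cons, List.sum_cons, Pi.add_apply, Int.cast_add, List.length_cons, Nat.cast_succ]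
    refine (abs_add_le _ _).trans ?_
    linarith

theorem NLemW_ent {J : Type} [Fintype J] (w : J → ℕ) (r p : ℕ) (hr : ∀ j, w j ≤ r)
    (a : ℤ → J → ℤ)
    (deg : ∀ j, p ≤ w j → (fwdDiff (1 : ℤ))^[w j - p + 1] (fun y => a y j) = 0) :
    ∃ D : ℝ, 0 ≤ D ∧ ∀ j, p ≤ w j → ∀ (x : ℤ) (L : ℝ), 1 ≤ L → |(x : ℝ)| ≤ L + r →
      |(a x j : ℝ)| ≤ D * L ^ (w j - p) := by
  have h : ∀ j, ∃ C : ℝ, 0 ≤ C ∧ (p ≤ w j → ∀ (x : ℤ) (K : ℝ), 1 ≤ K → |(x : ℝ)| ≤ K →
      |(a x j : ℝ)| ≤ C * K ^ (w j - p)) := fun j => by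
    by_cases hj : p ≤ w j
    · obtain ⟨C, h0, h1⟩ := poly_bound _ _ (deg j hj)
      exact ⟨C, h0, fun _ => h1⟩
    · exact ⟨0, le_rfl, fun h => absurd h hj⟩
  choose C h0 h1 using h
  have hr1 : (1 : ℝ) ≤ 1 + r := le_add_of_nonneg_right (Nat.cast_nonneg r)
  refine ⟨(∑ j, C j) * (1 + r) ^ r,
    mul_nonneg (Finset.sum_nonneg fun j _ => h0 j) (by positivity), fun j hj x L hL hx => ?_⟩
  have hr0 : (0 : ℝ) ≤ r := Nat.cast_nonneg r
  have h2 := h1 j hj x ((1 + r) * L) (by nlinarith) (by nlinarith)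
  refine h2.trans ?_
  rw [mul_pow, ← mul_assoc]
  refine mul_le_mul_of_nonneg_right ?_ (by positivity)
  exact mul_le_mul (Finset.single_le_sum (fun j _ => h0 j) (Finset.mem_univ j))
    (pow_le_pow_right₀ hr1 ((Nat.sub_le _ _).trans (hr j))) (by positivity)
    (Finset.sum_nonneg fun j _ => h0 j)

theorem NLemW_ind {α : Type*} {J : Type} [Fintype J] [DecidableEq J] (w : J → ℕ) (r p : ℕ)
    (hr : ∀ j, w j ≤ r) (P : α → Prop) (ψ : α → ℤ → J → ℤ)
    (low : ∀ g y j, P g → w j < p → ψ g y j = 0)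
    (deg : ∀ g j, P g → p ≤ w j → (fwdDiff (1 : ℤ))^[w j - p + 1] (fun y => ψ g y j) = 0)
    (top : ∀ i, p ≤ w i → ∃ (q : ℤ) (g : α), 0 < q ∧ P g ∧ ∀ j, w j = w i →
      (fwdDiff (1 : ℤ))^[w i - p] (fun y => ψ g y j) = fun _ => if j = i then q else 0)
    (bas : ∀ i, p ≤ w i → ∃ g, P g ∧ ψ g 0 = Pi.single i 1) (A : Finset J) :
    (∀ i ∈ A, p ≤ w i) → (∀ i ∈ A, ∀ j, w i < w j → j ∈ A) →
    ∃ (T : Finset α) (C : ℝ), 0 ≤ C ∧ (∀ g ∈ T, P g) ∧ ∀ (σ : ℤ) (K L M : ℝ), (σ = 1 ∨ σ = -1) →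
      1 ≤ L → L ≤ K → 1 ≤ M → ∀ e : J → ℤ, (∀ j, j ∉ A → e j = 0) →
      (∀ j, K ^ p * |(e j : ℝ)| ≤ M * K ^ w j) → ∃ l : List (α × ℕ × ℤ),
        (∀ x ∈ l, x.1 ∈ T ∧ (x.2.1 : ℝ) ≤ L + r ∧ (x.2.2 = 1 ∨ x.2.2 = -1)) ∧
        (l.length : ℝ) ≤ C * M * (K / L) ^ (r - p) ∧
        (l.map fun x => x.2.2 • ψ x.1 (σ * x.2.1)).sum = e := by
  classical
  induction A using Finset.induction_on_min_value w with
  | empty =>
    intro _ _
    refine ⟨∅, 0, le_rfl, by simp, fun σ K L M _ _ _ _ e he _ => ⟨[], by simp, by simp, ?_⟩⟩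
    funext j
    rw [he j (Finset.notMem_empty j)]
    rfl
  | insert i s his hmin ih =>
    intro hp hup
    obtain ⟨T, C₂, hC₂, hT, H₂⟩ := ih (fun j hj => hp j (Finset.mem_insert_of_mem hj))
      (fun j hj j' hjj => by
        rcases Finset.mem_insert.1 (hup j (Finset.mem_insert_of_mem hj) j' hjj) with h | h
        · have := hmin j hj
          rw [h] at hjj
          omega
        · exact h)
    have hi : p ≤ w i := hp i (Finset.mem_insert_self _ _)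
    obtain ⟨q, g₁, hq, hg₁, ht⟩ := top i hi
    obtain ⟨g₀, hg₀, hb⟩ := bas i hi
    obtain ⟨k, hk⟩ : ∃ k, w i = p + k := Nat.exists_eq_add_of_le hi
    have hk' : w i - p = k := by omega
    have hri := hr i
    obtain ⟨C₁, hC₁, H₁⟩ := lemV w r p k ψ i (by omega) g₀ g₁ q hq hb (fun j hj => by
      by_cases h1 : w j = w i
      · rw [← hk']; exact ht j h1
      · have hji : j ≠ i := fun e => h1 (e ▸ rfl)
        rw [if_neg hji]
        by_cases h2 : p ≤ w j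
        · exact iter_zero_of_le (deg g₁ j hg₁ h2) (by omega)
        · refine iter_zero_of_le (k := 0) ?_ (Nat.zero_le _)
          funext y
          exact low g₁ y j hg₁ (not_le.1 h2))
    obtain ⟨D₀, hD₀, E₀⟩ := NLemW_ent w r p hr (ψ g₀) fun j hj => deg g₀ j hg₀ hj
    obtain ⟨D₁, hD₁, E₁⟩ := NLemW_ent w r p hr (ψ g₁) fun j hj => deg g₁ j hg₁ hj
    have hCD : 0 ≤ C₁ * (D₀ + D₁) := mul_nonneg hC₁ (add_nonneg hD₀ hD₁)
    refine ⟨insert g₀ (insert g₁ T), C₁ + C₂ * (1 + C₁ * (D₀ + D₁)), by positivity, ?_, ?_⟩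
    · intro g hg
      rcases Finset.mem_insert.1 hg with rfl | hg
      · exact hg₀
      rcases Finset.mem_insert.1 hg with rfl | hg
      · exact hg₁
      · exact hT g hg
    intro σ K L M hσ hL hLK hM e he hb'
    have hL0 : 0 < L := one_pos.trans_le hL
    have hK0 : 0 < K := hL0.trans_le hLK
    have hM0 : 0 ≤ M := zero_le_one.trans hM
    have hKL : 1 ≤ K / L := (one_le_div hL0).2 hLK
    have hn : |(e i : ℝ)| ≤ M * K ^ k := by
      have h1 := hb' i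
      rw [hk, pow_add, mul_left_comm] at h1
      exact le_of_mul_le_mul_left h1 (pow_pos hK0 p)
    obtain ⟨l₁, m₁, n₁, s₁⟩ := H₁ σ K L M hσ hL hLK hM (e i) hn
    obtain ⟨u, hu⟩ : ∃ u, u = (l₁.map fun x => x.2.2 • ψ x.1 (σ * x.2.1)).sum := ⟨_, rfl⟩
    rw [← hu] at s₁
    have hbig : ∀ j, p + k < w j → K ^ p * |(u j : ℝ)| ≤ C₁ * (D₀ + D₁) * M * K ^ w j := by
      intro j hj
      obtain ⟨c, hc⟩ : ∃ c, w j = p + k + c := Nat.exists_eq_add_of_le hj.le
      have hc' : w j - p = k + c := by omega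
      have h1 : |(u j : ℝ)| ≤ l₁.length * ((D₀ + D₁) * L ^ (k + c)) := by
        rw [hu]
        refine NLemW_sum _ j _ l₁ fun x hx => ?_
        obtain ⟨a1, a2, a3⟩ := m₁ x hx
        have b1 : |((σ * x.2.1 : ℤ) : ℝ)| ≤ L + r := by
          rcases hσ with rfl | rfl <;> simpa using a2
        have b2 : |((x.2.2 • ψ x.1 (σ * x.2.1)) j : ℝ)| = |(ψ x.1 (σ * x.2.1) j : ℝ)| := by
          rcases a3 with h | h <;> simp [h]
        have b3 : 0 ≤ L ^ (k + c) := by positivity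
        rw [b2]
        rcases a1 with ⟨h, -⟩ | h
        · have := E₀ j (by omega) _ L hL b1
          rw [hc'] at this
          rw [h]
          nlinarith [mul_nonneg hD₁ b3]
        · have := E₁ j (by omega) _ L hL b1
          rw [hc'] at this
          rw [h]
          nlinarith [mul_nonneg hD₀ b3]
      have h2 : |(u j : ℝ)| ≤ C₁ * M * (K / L) ^ k * ((D₀ + D₁) * L ^ (k + c)) :=
        h1.trans (mul_le_mul_of_nonneg_right n₁ (by positivity))
      have h3 : C₁ * M * (K / L) ^ k * ((D₀ + D₁) * L ^ (k + c)) =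
          C₁ * (D₀ + D₁) * M * K ^ k * L ^ c := by
        rw [div_pow, pow_add]
        field_simp
      have h4 : C₁ * (D₀ + D₁) * M * K ^ k * L ^ c ≤ C₁ * (D₀ + D₁) * M * K ^ k * K ^ c :=
        mul_le_mul_of_nonneg_left (pow_le_pow_left₀ hL0.le hLK c) (by positivity)
      calc K ^ p * |(u j : ℝ)| ≤ K ^ p * (C₁ * (D₀ + D₁) * M * K ^ k * K ^ c) :=
            mul_le_mul_of_nonneg_left (h2.trans (h3.le.trans h4)) (by positivity)
        _ = _ := by rw [hc, pow_add, pow_add]; ring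
    obtain ⟨l₂, m₂, n₂, s₂⟩ := H₂ σ K L ((1 + C₁ * (D₀ + D₁)) * M) hσ hL hLK (by nlinarith)
      (e - u) (fun j hj => by
        rw [Pi.sub_apply]
        by_cases hji : j = i
        · rw [s₁ j (by rw [hji, hk]), if_pos hji, hji, sub_self]
        · have h1 : j ∉ insert i s := fun h => hj ((Finset.mem_insert.1 h).resolve_left hji)
          have h2 : w j ≤ p + k := by
            by_contra h
            exact h1 (hup i (Finset.mem_insert_self _ _) j (by omega))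
          rw [s₁ j h2, if_neg hji, he j h1, sub_zero])
      (fun j => by
        have h0 : 0 ≤ C₁ * (D₀ + D₁) * M * K ^ w j := by positivity
        have h1 := hb' j
        have h5 : 0 ≤ M * K ^ w j := by positivity
        rw [Pi.sub_apply]
        by_cases h2 : w j ≤ p + k
        · rw [s₁ j h2]
          by_cases hji : j = i
          · rw [if_pos hji, hji, sub_self, Int.cast_zero, abs_zero, mul_zero]
            positivity
          · rw [if_neg hji, sub_zero]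
            nlinarith
        · have h3 := hbig j (not_le.1 h2)
          have h4 : K ^ p * |((e j - u j : ℤ) : ℝ)| ≤ K ^ p * (|(e j : ℝ)| + |(u j : ℝ)|) := by
            refine mul_le_mul_of_nonneg_left ?_ (by positivity)
            rw [Int.cast_sub]
            exact abs_sub _ _
          nlinarith)
    refine ⟨l₁ ++ l₂, fun x hx => ?_, ?_, ?_⟩
    · rcases List.mem_append.1 hx with hx | hx
      · obtain ⟨a1, a2, a3⟩ := m₁ x hx
        refine ⟨?_, a2, a3⟩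
        rcases a1 with ⟨h, -⟩ | h
        · rw [h]; exact Finset.mem_insert_self _ _
        · rw [h]; exact Finset.mem_insert_of_mem (Finset.mem_insert_self _ _)
      · obtain ⟨a1, a2, a3⟩ := m₂ x hx
        exact ⟨Finset.mem_insert_of_mem (Finset.mem_insert_of_mem a1), a2, a3⟩
    · have h1 : C₁ * M * (K / L) ^ k ≤ C₁ * M * (K / L) ^ (r - p) :=
        mul_le_mul_of_nonneg_left (pow_le_pow_right₀ hKL (by omega)) (by positivity)
      rw [List.length_append, Nat.cast_add]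
      nlinarith
    · rw [List.map_append, List.sum_append, s₂, ← hu]
      abel

theorem lemW {α : Type*} {J : Type} [Fintype J] [DecidableEq J] (w : J → ℕ) (r p : ℕ)
    (hr : ∀ j, w j ≤ r) (P : α → Prop) (ψ : α → ℤ → J → ℤ)
    (low : ∀ g y j, P g → w j < p → ψ g y j = 0)
    (deg : ∀ g j, P g → p ≤ w j → (fwdDiff (1 : ℤ))^[w j - p + 1] (fun y => ψ g y j) = 0)
    (top : ∀ i, p ≤ w i → ∃ (q : ℤ) (g : α), 0 < q ∧ P g ∧ ∀ j, w j = w i →
      (fwdDiff (1 : ℤ))^[w i - p] (fun y => ψ g y j) = fun _ => if j = i then q else 0)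
    (bas : ∀ i, p ≤ w i → ∃ g, P g ∧ ψ g 0 = Pi.single i 1) :
    ∃ (T : Finset α) (C : ℝ), 0 ≤ C ∧ (∀ g ∈ T, P g) ∧ ∀ (σ : ℤ) (K L M : ℝ), (σ = 1 ∨ σ = -1) →
      1 ≤ L → L ≤ K → 1 ≤ M → ∀ e : J → ℤ, (∀ j, w j < p → e j = 0) →
      (∀ j, K ^ p * |(e j : ℝ)| ≤ M * K ^ w j) → ∃ l : List (α × ℕ × ℤ),
        (∀ x ∈ l, x.1 ∈ T ∧ (x.2.1 : ℝ) ≤ L + r ∧ (x.2.2 = 1 ∨ x.2.2 = -1)) ∧
        (l.length : ℝ) ≤ C * M * (K / L) ^ (r - p) ∧
        (l.map fun x => x.2.2 • ψ x.1 (σ * x.2.1)).sum = e := by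
  obtain ⟨T, C, h0, h1, h2⟩ := NLemW_ind w r p hr P ψ low deg top bas
    (Finset.univ.filter fun j => p ≤ w j) (fun i hi => (Finset.mem_filter.1 hi).2)
    (fun i hi j hij => Finset.mem_filter.2
      ⟨Finset.mem_univ j, (Finset.mem_filter.1 hi).2.trans hij.le⟩)
  refine ⟨T, C, h0, h1, fun σ K L M hσ hL hLK hM e he hb => h2 σ K L M hσ hL hLK hM e
    (fun j hj => he j ?_) hb⟩
  by_contra h
  exact hj (Finset.mem_filter.2 ⟨Finset.mem_univ j, not_lt.1 h⟩)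

end Pool.Agent.MP_b3b911_al.Fil

end

section

namespace Pool.Agent.MP_b3b911_al.Fil

variable {G : Type*} [Group G] {S : Finset G} {J : Type} [Fintype J] [DecidableEq J]

theorem NPass_iter (Z : Pre S J) {p : ℕ} {T : Finset G} {a C₀ C B K L : ℝ} {σ : ℤ}
    (hC₀ : 0 ≤ C₀) (hK : 0 ≤ K)
    (H : ∀ l : List G, Word S l → (l.length : ℝ) ≤ B → Z.Cov a σ L l →
      ∀ β ∈ T, ∀ y : ℕ, (y : ℝ) ≤ L + Z.r → ∀ τ : ℤ, (τ = 1 ∨ τ = -1) →
      ∃ l' : List G, Word S l' ∧ l.Sublist l' ∧ (l'.length : ℝ) ≤ l.length + C₀ ∧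
        Z.Cov a σ L l' ∧ Z.X l'.prod = Z.X l.prod ∧ ∀ j,
        (Z.w j ≤ p → Z.V l'.prod j = Z.V l.prod j + τ * Z.ψ β (σ * y) j) ∧
        K ^ (p + 1) * |(Z.V l'.prod j : ℝ) - Z.V l.prod j - τ * Z.ψ β (σ * y) j| ≤
          C * K ^ Z.w j)
    (m : List (G × ℕ × ℤ))
    (hm : ∀ x ∈ m, x.1 ∈ T ∧ (x.2.1 : ℝ) ≤ L + Z.r ∧ (x.2.2 = 1 ∨ x.2.2 = -1)) :
    ∀ l : List G, Word S l → (l.length : ℝ) + C₀ * m.length ≤ B → Z.Cov a σ L l →
      ∃ l' : List G, Word S l' ∧ l.Sublist l' ∧ (l'.length : ℝ) ≤ l.length + C₀ * m.length ∧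
        Z.Cov a σ L l' ∧ Z.X l'.prod = Z.X l.prod ∧ ∀ j,
        (Z.w j ≤ p → Z.V l'.prod j =
          Z.V l.prod j + (m.map fun x => x.2.2 • Z.ψ x.1 (σ * x.2.1)).sum j) ∧
        K ^ (p + 1) * |(Z.V l'.prod j : ℝ) - Z.V l.prod j -
          ((m.map fun x => x.2.2 • Z.ψ x.1 (σ * x.2.1)).sum j : ℤ)| ≤
          m.length * (C * K ^ Z.w j) := by
  induction m with
  | nil => exact fun l h1 _ h3 => ⟨l, h1, List.Sublist.refl l, by simp, h3, rfl, by simp⟩
  | cons x m ih =>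
    intro l h1 h2 h3
    obtain ⟨k1, k2, k3⟩ := hm x List.mem_cons_self
    rw [List.length_cons] at h2 ⊢
    push_cast at h2 ⊢
    have h0 : 0 ≤ C₀ * (m.length : ℝ) := by positivity
    obtain ⟨l₁, a1, a2, a3, a4, a5, a6⟩ := H l h1 (by linarith) h3 x.1 k1 x.2.1 k2 x.2.2 k3
    obtain ⟨l₂, b1, b2, b3, b4, b5, b6⟩ := ih (fun z hz => hm z (List.mem_cons_of_mem _ hz)) l₁ a1
      (by linarith) a4
    refine ⟨l₂, b1, a2.trans b2, by linarith, b4, b5.trans a5, fun j => ⟨fun hj => ?_, ?_⟩⟩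
    · rw [(b6 j).1 hj, (a6 j).1 hj, List.map_cons, List.sum_cons, Pi.add_apply, Pi.smul_apply,
        smul_eq_mul, add_assoc]
    · have c1 := (a6 j).2
      have c2 := (b6 j).2
      rw [List.map_cons, List.sum_cons, Pi.add_apply, Pi.smul_apply, smul_eq_mul]
      push_cast
      generalize (((m.map fun x => x.2.2 • Z.ψ x.1 (σ * x.2.1)).sum j : ℤ) : ℝ) = u at c2 ⊢
      have c3 := mul_le_mul_of_nonneg_left (abs_add_le
        ((Z.V l₁.prod j : ℝ) - Z.V l.prod j - x.2.2 * Z.ψ x.1 (σ * x.2.1) j)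
        ((Z.V l₂.prod j : ℝ) - Z.V l₁.prod j - u)) (pow_nonneg hK (p + 1))
      rw [show (Z.V l₂.prod j : ℝ) - Z.V l.prod j - (x.2.2 * Z.ψ x.1 (σ * x.2.1) j + u) =
        ((Z.V l₁.prod j : ℝ) - Z.V l.prod j - x.2.2 * Z.ψ x.1 (σ * x.2.1) j) +
          ((Z.V l₂.prod j : ℝ) - Z.V l₁.prod j - u) by ring]
      linarith

/-- one pass: the error of class `p` is replaced by an error of class `p + 1` -/
theorem Pre.pass (Z : Pre S J) {p : ℕ} (hp : 1 ≤ p) (a A : ℝ) : ∃ C : ℝ, 1 ≤ C ∧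
    ∀ (K L M : ℝ) (σ : ℤ) (l : List G), 1 ≤ L → L ≤ K → 1 ≤ M → (σ = 1 ∨ σ = -1) →
      M * (K / L) ^ (Z.r - p) ≤ A * K → Word S l → (l.length : ℝ) ≤ A * K → Z.Cov a σ L l →
      ∀ y : J → ℤ, (∀ j, Z.w j < p → y j = Z.V l.prod j) →
      (∀ j, K ^ p * |(y j : ℝ) - Z.V l.prod j| ≤ M * K ^ Z.w j) →
      ∃ l' : List G, Word S l' ∧ l.Sublist l' ∧
        (l'.length : ℝ) ≤ l.length + C * M * (K / L) ^ (Z.r - p) ∧ Z.Cov a σ L l' ∧
        Z.X l'.prod = Z.X l.prod ∧ (∀ j, Z.w j < p + 1 → y j = Z.V l'.prod j) ∧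
        ∀ j, K ^ (p + 1) * |(y j : ℝ) - Z.V l'.prod j| ≤
          C * M * (K / L) ^ (Z.r - p) * K ^ Z.w j := by
  obtain ⟨T, CW, hCW, hT, HW⟩ := lemW Z.w Z.r p Z.w_le (Z.P p) Z.ψ
    (fun g y j hg hj => Z.P_low p _ j (Z.P_conj p g y hg) hj)
    (fun g j hg hj => Z.P_deg p g j hp hg hj) (fun i hi => Z.P_top p i hp hi)
    (fun i hi => by
      obtain ⟨g, h1, h2⟩ := Z.P_bas p i hp hi
      exact ⟨g, h1, by simpa [Pre.ψ] using h2⟩)
  obtain ⟨C₀, hC₀, HI⟩ := Z.ins hp T hT a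
  obtain ⟨C₁, hC₁, HI⟩ := HI (A + C₀ * CW * A)
  have q0 := mul_nonneg hC₀ hCW
  have q1 := mul_nonneg hC₁ hCW
  refine ⟨1 + C₀ * CW + C₁ * CW, by linarith,
    fun K L M σ l hL hLK hM hσ hA hl hlen hcov y hy hy' => ?_⟩
  have hK : 0 ≤ K := by linarith
  obtain ⟨m, hm, hml, hsum⟩ := HW σ K L M hσ hL hLK hM (fun j => y j - Z.V l.prod j)
    (fun j hj => by rw [hy j hj, sub_self]) (fun j => by push_cast; exact hy' j)
  have hR : 0 ≤ M * (K / L) ^ (Z.r - p) := by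
    have : 0 ≤ L := by linarith
    have : 0 ≤ M := by linarith
    positivity
  simp only [mul_assoc _ M] at hml ⊢
  generalize M * (K / L) ^ (Z.r - p) = R at hA hml hR ⊢
  have e1 := mul_le_mul_of_nonneg_left hml hC₀
  have e2 := mul_le_mul_of_nonneg_left hA q0
  obtain ⟨l', b1, b2, b3, b4, b5, b6⟩ := NPass_iter Z hC₀ hK
    (fun l => HI K L σ l hL hLK hσ) m hm l hl (by linarith) hcov
  have e3 := mul_nonneg q0 hR
  have e4 := mul_nonneg q1 hR
  refine ⟨l', b1, b2, by linarith, b4, b5, fun j hj => ?_, fun j => ?_⟩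
  · rw [(b6 j).1 (Nat.lt_succ_iff.1 hj), hsum]
    ring
  · have c1 := (b6 j).2
    rw [hsum] at c1
    push_cast at c1
    rw [show (Z.V l'.prod j : ℝ) - Z.V l.prod j - (y j - Z.V l.prod j) =
      -(y j - Z.V l'.prod j) by ring, abs_neg, ← mul_assoc] at c1
    refine c1.trans (mul_le_mul_of_nonneg_right ?_ (pow_nonneg hK _))
    have := mul_le_mul_of_nonneg_left hml hC₁
    linarith

end Pool.Agent.MP_b3b911_al.Fil

end

section

namespace Pool.Agent.MP_b3b911_al.Fil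

variable {G : Type*} [Group G] {S : Finset G} {J : Type} [Fintype J] [DecidableEq J]

theorem NH2_pow {u : List G} (hu : Word S u) (n : ℕ) :
    ∃ l : List G, Word S l ∧ l.prod = u.prod ^ n ∧ l.length = n * u.length := by
  induction n with
  | zero => exact ⟨[], fun y hy => by simp at hy, by simp, by simp⟩
  | succ n ih =>
    obtain ⟨l, h1, h2, h3⟩ := ih
    refine ⟨l ++ u, h1.append hu, by rw [List.prod_append, h2, pow_succ], ?_⟩
    rw [List.length_append, h3]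
    ring

theorem NH2_tw (hS : Subgroup.closure (S : Set G) = ⊤) (t : G) : ∃ C : ℝ, 0 ≤ C ∧ ∀ d : ℤ,
    ∃ l : List G, Word S l ∧ l.prod = t ^ d ∧ (l.length : ℝ) ≤ C * |(d : ℝ)| := by
  obtain ⟨u, hu, hup⟩ := exists_word hS t
  obtain ⟨u', hu', hup'⟩ := exists_word hS t⁻¹
  have h0 : (0 : ℝ) ≤ u.length := Nat.cast_nonneg _
  have h0' : (0 : ℝ) ≤ u'.length := Nat.cast_nonneg _
  refine ⟨u.length + u'.length, by linarith, fun d => ?_⟩
  obtain ⟨n, rfl | rfl⟩ := Int.eq_nat_or_neg d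
  · obtain ⟨l, h1, h2, h3⟩ := NH2_pow hu n
    refine ⟨l, h1, by rw [h2, hup, zpow_natCast], ?_⟩
    have hn : (0 : ℝ) ≤ n := Nat.cast_nonneg _
    rw [h3]
    push_cast
    rw [abs_of_nonneg hn]
    nlinarith [mul_nonneg hn h0']
  · obtain ⟨l, h1, h2, h3⟩ := NH2_pow hu' n
    refine ⟨l, h1, by rw [h2, hup', zpow_neg, zpow_natCast, inv_pow], ?_⟩
    have hn : (0 : ℝ) ≤ n := Nat.cast_nonneg _
    rw [h3]
    push_cast
    rw [abs_neg, abs_of_nonneg hn]
    nlinarith [mul_nonneg hn h0]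

theorem NH2_iter (Z : Pre S J) (a : ℝ) (m : ℕ) (hm : m ≤ Z.r) : ∀ A : ℝ, ∃ C : ℝ, 0 ≤ C ∧
    ∀ (K L M : ℝ) (σ : ℤ) (l : List G), 1 ≤ L → L ≤ K → 1 ≤ M → (σ = 1 ∨ σ = -1) →
      M * (K / L) ^ (∑ q ∈ Finset.range m, q) ≤ A * K → Word S l → (l.length : ℝ) ≤ A * K →
      Z.Cov a σ L l → ∀ y : J → ℤ, (∀ j, Z.w j < Z.r + 1 - m → y j = Z.V l.prod j) →
      (∀ j, K ^ (Z.r + 1 - m) * |(y j : ℝ) - Z.V l.prod j| ≤ M * K ^ Z.w j) →
      ∃ l' : List G, Word S l' ∧ l.Sublist l' ∧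
        (l'.length : ℝ) ≤ l.length + C * M * (K / L) ^ (∑ q ∈ Finset.range m, q) ∧
        Z.X l'.prod = Z.X l.prod ∧ Z.V l'.prod = y := by
  induction m with
  | zero =>
    intro A
    refine ⟨0, le_rfl, fun K L M σ l _ _ _ _ _ hw _ _ y h1 _ => ⟨l, hw, List.Sublist.refl _,
      by simp, rfl, ?_⟩⟩
    funext j
    exact (h1 j (by have := Z.w_le j; omega)).symm
  | succ m ih =>
    intro A
    have hp : 1 ≤ Z.r - m := by omega
    have e1 : Z.r - (Z.r - m) = m := by omega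
    have e2 : Z.r + 1 - (m + 1) = Z.r - m := by omega
    have e3 : Z.r - m + 1 = Z.r + 1 - m := by omega
    obtain ⟨C₁, hC₁, H₁⟩ := Z.pass hp a A
    obtain ⟨C₂, hC₂, H₂⟩ := ih (by omega) (A + C₁ * A)
    refine ⟨C₁ + C₂ * C₁, by positivity, ?_⟩
    intro K L M σ l hL hLK hM hσ hMA hw hl hcov y h1 h2
    rw [e1, e3] at H₁
    rw [e2] at h1 h2
    rw [Finset.sum_range_succ] at hMA ⊢
    set E := ∑ q ∈ Finset.range m, q with hE
    have hq : 1 ≤ K / L := by rw [le_div_iff₀ (by linarith)]; linarith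
    have hqm : 1 ≤ (K / L) ^ m := one_le_pow₀ hq
    have hqE : 1 ≤ (K / L) ^ E := one_le_pow₀ hq
    rw [pow_add] at hMA ⊢
    set a₁ := (K / L) ^ m
    set a₂ := (K / L) ^ E
    have hM0 : 0 ≤ M := by linarith
    have hMa : M * a₁ ≤ M * (a₂ * a₁) := by
      apply mul_le_mul_of_nonneg_left _ hM0
      nlinarith
    have hMa0 : 0 ≤ M * a₁ := by positivity
    have hAK : 0 ≤ A * K := by linarith
    obtain ⟨l₁, w₁, s₁, n₁, c₁, x₁, p₁, q₁⟩ :=
      H₁ K L M σ l hL hLK hM hσ (by linarith) hw hl hcov y h1 h2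
    have k1 : C₁ * (M * a₁) ≤ C₁ * (A * K) :=
      mul_le_mul_of_nonneg_left (by linarith) (by linarith)
    have k2 : C₁ * (M * (a₂ * a₁)) ≤ C₁ * (A * K) :=
      mul_le_mul_of_nonneg_left hMA (by linarith)
    have k3 : C₁ * (M * a₁) ≤ C₁ * (M * (a₂ * a₁)) :=
      mul_le_mul_of_nonneg_left hMa (by linarith)
    have k4 : 1 ≤ C₁ * M * a₁ := one_le_mul_of_one_le_of_one_le
      (one_le_mul_of_one_le_of_one_le hC₁ hM) hqm
    obtain ⟨l₂, w₂, s₂, n₂, x₂, v₂⟩ := H₂ K L (C₁ * M * a₁) σ l₁ hL hLK k4 hσ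
      (by nlinarith) w₁ (by nlinarith) c₁ y p₁ q₁
    refine ⟨l₂, w₂, s₁.trans s₂, ?_, x₂.trans x₁, v₂⟩
    nlinarith

theorem Pre.h2 (Z : Pre S J) (A : ℝ) : ∃ C : ℝ, 0 ≤ C ∧ ∀ K L R : ℝ, 1 ≤ L → L ≤ K → 1 ≤ R →
    R * (K / L) ^ (∑ q ∈ Finset.range Z.r, q) ≤ A * K → ∀ l : List G, Word S l →
    (l.length : ℝ) ≤ K → (∃ n, L ≤ |(Z.X (l.take n).prod : ℝ)|) →
    ∀ g, |(Z.X g : ℝ) - Z.X l.prod| ≤ R →
      (∀ j, |(Z.V g j : ℝ) - Z.V l.prod j| ≤ R * K ^ (Z.w j - 1)) →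
      ∃ l' : List G, Word S l' ∧ l'.prod = g ∧ l.Sublist l' ∧
        (l'.length : ℝ) ≤ l.length + C * R * (K / L) ^ (∑ q ∈ Finset.range Z.r, q) := by
  obtain ⟨a, ha⟩ := Z.cov
  obtain ⟨Ct, hCt, Ht⟩ := NH2_tw Z.gen Z.t
  obtain ⟨C, hC, H⟩ := NH2_iter Z a Z.r le_rfl (A + 1 + Ct * A)
  refine ⟨Ct + C, by positivity, ?_⟩
  intro K L R hL hLK hR hRA l hw hl hn g hX hV
  obtain ⟨σ, hσ, hcov⟩ := ha L l hw hn
  obtain ⟨u, hu, hup, hul⟩ := Ht (Z.X g - Z.X l.prod)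
  have hq : 1 ≤ K / L := by rw [le_div_iff₀ (by linarith)]; linarith
  set a₂ := (K / L) ^ (∑ q ∈ Finset.range Z.r, q) with ha₂
  have hqE : 1 ≤ a₂ := one_le_pow₀ hq
  have hK : 1 ≤ K := by linarith
  have hRa : R ≤ R * a₂ := by nlinarith
  have hAK : 0 ≤ A * K := by linarith
  have hul' : (u.length : ℝ) ≤ Ct * (R * a₂) := by
    refine hul.trans (mul_le_mul_of_nonneg_left ?_ hCt)
    push_cast
    linarith
  have k1 : Ct * (R * a₂) ≤ Ct * (A * K) := mul_le_mul_of_nonneg_left hRA hCt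
  have k2 : 0 ≤ Ct * (A * K) := mul_nonneg hCt hAK
  have hX1 : Z.X (l ++ u).prod = Z.X g := by
    rw [List.prod_append, Z.X_mul, hup, Z.X_tpow]; ring
  have hV1 : Z.V (l ++ u).prod = Z.V l.prod := by
    unfold Pre.V
    rw [hX1, List.prod_append, hup, mul_assoc, ← zpow_add]
    congr 3
    ring
  have hcov1 : Z.Cov a σ L (l ++ u) := by
    intro y hy
    obtain ⟨n, hn⟩ := hcov y hy
    refine ⟨min n l.length, ?_⟩
    rw [List.take_append_of_le_length (min_le_right _ _), ← List.take_eq_take_min]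
    exact hn
  have e1 : Z.r + 1 - Z.r = 1 := by omega
  have hlen : ((l ++ u).length : ℝ) = l.length + u.length := by
    rw [List.length_append]; push_cast; ring
  obtain ⟨l', w', s', n', x', v'⟩ := H K L R σ (l ++ u) hL hLK hR hσ (by nlinarith)
    (hw.append hu) (by rw [hlen]; nlinarith) hcov1 (Z.V g)
    (fun j hj => by have := Z.w_pos j; omega)
    (fun j => by
      rw [e1, hV1, pow_one]
      have h1 : K ^ Z.w j = K * K ^ (Z.w j - 1) := by
        rw [← pow_succ']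
        congr 1
        have := Z.w_pos j
        omega
      rw [h1]
      have := mul_le_mul_of_nonneg_left (hV j) (show (0 : ℝ) ≤ K by linarith)
      linarith)
  refine ⟨l', w', ?_, (List.sublist_append_left l u).trans s', ?_⟩
  · have hx : Z.X l'.prod = Z.X g := x'.trans hX1
    unfold Pre.V at v'
    rw [hx] at v'
    have := Z.inj _ _ (by rw [Z.X_mul, Z.X_tpow, hx]; ring) (by rw [Z.X_mul, Z.X_tpow]; ring) v'
    exact mul_right_cancel this
  · rw [hlen] at n'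
    nlinarith

end Pool.Agent.MP_b3b911_al.Fil

end

section

open MeasureTheory

namespace Pool.Agent.MP_b3b911_al.Fil

variable {G : Type*} [Group G] {S : Finset G} {J : Type} [Fintype J]

theorem CSum_bound (S : Finset G) (f : G → ℝ) :
    ∃ b : ℝ, 1 ≤ b ∧ ∀ s, (s ∈ S ∨ s⁻¹ ∈ S) → |f s| ≤ b := by
  have h1 : 0 ≤ ∑ s ∈ S, |f s| := Finset.sum_nonneg fun _ _ => abs_nonneg _
  have h2 : 0 ≤ ∑ s ∈ S, |f s⁻¹| := Finset.sum_nonneg fun _ _ => abs_nonneg _
  refine ⟨1 + ∑ s ∈ S, |f s| + ∑ s ∈ S, |f s⁻¹|, by linarith, ?_⟩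
  intro s hs
  rcases hs with h | h
  · have := Finset.single_le_sum (f := fun s => |f s|) (fun _ _ => abs_nonneg _) h
    linarith
  · have := Finset.single_le_sum (f := fun s => |f s⁻¹|) (fun _ _ => abs_nonneg _) h
    simp only [inv_inv] at this
    linarith

theorem CSum_bound2 (S : Finset G) (f : G → J → ℝ) :
    ∃ b : ℝ, 1 ≤ b ∧ ∀ s, (s ∈ S ∨ s⁻¹ ∈ S) → ∀ j, |f s j| ≤ b := by
  obtain ⟨b, hb, h⟩ := CSum_bound S fun s => ∑ j, |f s j|
  refine ⟨b, hb, fun s hs j => ?_⟩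
  have h1 := Finset.single_le_sum (f := fun j => |f s j|) (fun _ _ => abs_nonneg _)
    (Finset.mem_univ j)
  exact h1.trans ((le_abs_self _).trans (h s hs))

theorem CSum_snoc {α : Type*} (a : α → ℤ) (c : α → ℝ) (e : ℕ) (s : α) (l : List α) :
    ∀ y : ℤ, Isum a c e y (l ++ [s]) =
      Isum a c e y l + c s * ((y + (l.map a).sum : ℤ) : ℝ) ^ e := by
  induction l with
  | nil => intro y; simp [Isum]
  | cons t l ih =>
    intro y
    rw [List.cons_append, Isum, Isum, ih, List.map_cons, List.sum_cons, add_assoc y]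
    ring

theorem CSum_co_prod (Z : Sys S J) (l : List G) :
    Z.co l.prod Z.j0 = (l.map fun s => Z.co s Z.j0).sum := by
  induction l with
  | nil => simp [Z.co_one]
  | cons t l ih => rw [List.prod_cons, Z.add, ih, List.map_cons, List.sum_cons]

theorem CSum_word_left {l : List G} {s : G} (h : Word S (l ++ [s])) : Word S l :=
  fun x hx => h x (List.mem_append_left _ hx)

theorem CSum_word_last {l : List G} {s : G} (h : Word S (l ++ [s])) : s ∈ S ∨ s⁻¹ ∈ S :=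
  h s (List.mem_append_right _ (List.mem_singleton_self s))

theorem CSum_isum_le (Z : Sys S J) (γ ρ : ℝ) (hγ : ∀ s, (s ∈ S ∨ s⁻¹ ∈ S) → ∀ j, |Z.c s j| ≤ γ)
    (j : J) (l : List G) : Word S l → (∀ n, |(Z.co (l.take n).prod Z.j0 : ℝ)| ≤ ρ) →
    |Isum (fun s => Z.co s Z.j0) (fun s => Z.c s j) (Z.W j - 1) 0 l| ≤
      γ * l.length * ρ ^ (Z.W j - 1) := by
  induction l using List.reverseRecOn with
  | nil => intro _ _; simp [Isum]
  | append_singleton l s ih =>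
    intro hw hρ
    have hl : |(Z.co l.prod Z.j0 : ℝ)| ≤ ρ := by
      have := hρ l.length
      rwa [List.take_left'  rfl] at this
    have ih' := ih (CSum_word_left hw) (by
      intro n
      rcases le_total n l.length with hn | hn
      · have := hρ n
        rwa [List.take_append_of_le_length hn] at this
      · rw [List.take_of_length_le hn]
        exact hl)
    rw [CSum_snoc, zero_add, ← CSum_co_prod]
    have h1 : |Z.c s j * (Z.co l.prod Z.j0 : ℝ) ^ (Z.W j - 1)| ≤ γ * ρ ^ (Z.W j - 1) := by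
      rw [abs_mul, abs_pow]
      have hs := hγ s (CSum_word_last hw) j
      exact mul_le_mul hs (pow_le_pow_left₀ (abs_nonneg _) hl _) (by positivity)
        ((abs_nonneg _).trans hs)
    refine (abs_add_le _ _).trans ?_
    rw [List.length_append, List.length_singleton]
    push_cast
    linarith

theorem Sys.step (Z : Sys S J) : ∃ a : ℝ, 1 ≤ a ∧ ∀ l : List G, Word S l →
    |(Z.co l.prod Z.j0 : ℝ)| ≤ a * l.length := by
  obtain ⟨a, ha, h⟩ := CSum_bound S fun s => (Z.co s Z.j0 : ℝ)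
  refine ⟨a, ha, fun l => ?_⟩
  induction l with
  | nil => intro _; simp [Z.co_one]
  | cons t l ih =>
    intro hw
    have h1 := ih fun x hx => hw x (List.mem_cons_of_mem _ hx)
    have h2 := h t (hw t List.mem_cons_self)
    rw [List.prod_cons, Z.add, List.length_cons]
    push_cast
    refine (abs_add_le _ _).trans ?_
    linarith

theorem Sys.sum_est (Z : Sys S J) : ∃ C : ℝ, 0 ≤ C ∧ ∀ K : ℝ, 1 ≤ K → ∀ l : List G, Word S l →
    (l.length : ℝ) ≤ K → ∀ j,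
    |(Z.co l.prod j : ℝ) - Isum (fun s => Z.co s Z.j0) (fun s => Z.c s j) (Z.W j - 1) 0 l| ≤
      C * K ^ (Z.W j - 1) := by
  obtain ⟨C, hC, h⟩ := Z.H1
  refine ⟨C, hC, fun K hK l hw hl j => ?_⟩
  have key : ∀ l : List G, Word S l → (l.length : ℝ) ≤ K →
      K * |(Z.co l.prod j : ℝ) -
        Isum (fun s => Z.co s Z.j0) (fun s => Z.c s j) (Z.W j - 1) 0 l| ≤
      C * K ^ (Z.W j - 1) * l.length := by
    intro l
    induction l using List.reverseRecOn with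
    | nil => intro _ _; simp [Isum, Z.co_one]
    | append_singleton l s ih =>
      intro hw hl
      rw [List.length_append, List.length_singleton] at hl ⊢
      push_cast at hl ⊢
      have hl' : (l.length : ℝ) ≤ K := by linarith
      have ih' := ih (CSum_word_left hw) hl'
      have h1 := h K hK l.prod ⟨l, hl', CSum_word_left hw, rfl⟩ s (CSum_word_last hw) j
      rw [CSum_snoc, zero_add, ← CSum_co_prod, List.prod_append, List.prod_singleton]
      have h2 : (Z.co (l.prod * s) j : ℝ) -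
          (Isum (fun s => Z.co s Z.j0) (fun s => Z.c s j) (Z.W j - 1) 0 l +
            Z.c s j * (Z.co l.prod Z.j0 : ℝ) ^ (Z.W j - 1)) =
          ((Z.co l.prod j : ℝ) - Isum (fun s => Z.co s Z.j0) (fun s => Z.c s j) (Z.W j - 1) 0 l) +
          ((Z.co (l.prod * s) j : ℝ) - Z.co l.prod j -
            Z.c s j * (Z.co l.prod Z.j0 : ℝ) ^ (Z.W j - 1)) := by ring
      rw [h2]
      have h3 := mul_le_mul_of_nonneg_left (abs_add_le
        ((Z.co l.prod j : ℝ) - Isum (fun s => Z.co s Z.j0) (fun s => Z.c s j) (Z.W j - 1) 0 l)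
        ((Z.co (l.prod * s) j : ℝ) - Z.co l.prod j -
            Z.c s j * (Z.co l.prod Z.j0 : ℝ) ^ (Z.W j - 1))) (zero_le_one.trans hK)
      linarith
  have h1 := key l hw hl
  have hK0 : 0 < K := by linarith
  have h2 : C * K ^ (Z.W j - 1) * l.length ≤ C * K ^ (Z.W j - 1) * K :=
    mul_le_mul_of_nonneg_left hl (by positivity)
  refine le_of_mul_le_mul_left ?_ hK0
  linarith

theorem Sys.box_est (Z : Sys S J) : ∃ C : ℝ, 0 ≤ C ∧ ∀ K ρ : ℝ, 1 ≤ K → 1 ≤ ρ → ∀ l : List G,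
    Word S l → (l.length : ℝ) ≤ K → (∀ n, |(Z.co (l.take n).prod Z.j0 : ℝ)| ≤ ρ) → ∀ j,
    |(Z.co l.prod j : ℝ)| ≤ C * (K * ρ ^ (Z.W j - 1) + K ^ (Z.W j - 1)) := by
  obtain ⟨C, hC, h⟩ := Z.sum_est
  obtain ⟨γ, hγ, hγ'⟩ := CSum_bound2 S Z.c
  refine ⟨C + γ, by linarith, fun K ρ hK hρ l hw hl hn j => ?_⟩
  have h1 := h K hK l hw hl j
  have h2 := CSum_isum_le Z γ ρ hγ' j l hw hn
  have hρ0 : 0 ≤ ρ ^ (Z.W j - 1) := by positivity
  have hK0 : 0 ≤ K ^ (Z.W j - 1) := by positivity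
  have h3 : γ * l.length * ρ ^ (Z.W j - 1) ≤ γ * K * ρ ^ (Z.W j - 1) :=
    mul_le_mul_of_nonneg_right (mul_le_mul_of_nonneg_left hl (by linarith)) hρ0
  have h4 := abs_add_le
    ((Z.co l.prod j : ℝ) - Isum (fun s => Z.co s Z.j0) (fun s => Z.c s j) (Z.W j - 1) 0 l)
    (Isum (fun s => Z.co s Z.j0) (fun s => Z.c s j) (Z.W j - 1) 0 l)
  rw [sub_add_cancel] at h4
  have h5 : 0 ≤ C * (K * ρ ^ (Z.W j - 1)) := by positivity
  have h6 : 0 ≤ γ * K ^ (Z.W j - 1) := by positivity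
  nlinarith

theorem Sys.big_est (Z : Sys S J) : ∃ C : ℝ, 0 ≤ C ∧ ∀ K : ℝ, 1 ≤ K → ∀ g, Ball S K g → ∀ j,
    |(Z.co g j : ℝ)| ≤ C * K ^ Z.W j := by
  obtain ⟨C, hC, h⟩ := Z.box_est
  obtain ⟨a, ha, hs⟩ := Z.step
  have hA : 0 ≤ ∑ j, a ^ (Z.W j - 1) := Finset.sum_nonneg fun _ _ => by positivity
  refine ⟨C * (∑ j, a ^ (Z.W j - 1) + 1), by positivity, ?_⟩
  rintro K hK g ⟨l, hl, hw, rfl⟩ j
  have hρ : 1 ≤ a * K := one_le_mul_of_one_le_of_one_le ha hK
  have h1 := h K (a * K) hK hρ l hw hl (by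
    intro n
    refine (hs _ (hw.take n)).trans (mul_le_mul_of_nonneg_left ?_ (by linarith))
    refine le_trans ?_ hl
    exact_mod_cast List.length_take_le' n l) j
  have h2 : a ^ (Z.W j - 1) ≤ ∑ j, a ^ (Z.W j - 1) :=
    Finset.single_le_sum (f := fun j => a ^ (Z.W j - 1)) (fun _ _ => by positivity)
      (Finset.mem_univ j)
  have hW := Z.W_pos j
  have h3 : K ^ Z.W j = K * K ^ (Z.W j - 1) := by
    rw [← pow_succ']
    congr 1
    omega
  have hK0 : 0 ≤ K ^ (Z.W j - 1) := by positivity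
  have h4 : K ^ (Z.W j - 1) ≤ K ^ Z.W j := pow_le_pow_right₀ hK (Nat.sub_le _ _)
  have h5 : K * (a * K) ^ (Z.W j - 1) ≤ (∑ j, a ^ (Z.W j - 1)) * K ^ Z.W j := by
    rw [mul_pow, h3]
    have : 0 ≤ K * K ^ (Z.W j - 1) := by positivity
    nlinarith
  refine h1.trans ?_
  rw [mul_assoc]
  refine mul_le_mul_of_nonneg_left ?_ hC
  linarith

end Pool.Agent.MP_b3b911_al.Fil

end

section

open MeasureTheory

namespace Pool.Agent.MP_b3b911_al.Fil

theorem CRef_append {α : Type*} (a : α → ℤ) (c : α → ℝ) (e : ℕ) (l₁ l₂ : List α) (y : ℤ) :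
    Isum a c e y (l₁ ++ l₂) = Isum a c e y l₁ + Isum a c e (y + (l₁.map a).sum) l₂ := by
  induction l₁ generalizing y with
  | nil => simp [Isum]
  | cons s l ih =>
    simp only [List.cons_append, Isum, ih, List.map_cons, List.sum_cons]
    rw [add_assoc y]
    ring

theorem CRef_pow (x w M δ : ℝ) (e : ℕ) (h1 : |x - w| ≤ δ) (h2 : |w| + δ ≤ M) :
    M * |x ^ e - w ^ e| ≤ e * δ * M ^ e := by
  have hδ : 0 ≤ δ := (abs_nonneg _).trans h1
  have hM : 0 ≤ M := by have := abs_nonneg w; linarith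
  rcases Nat.eq_zero_or_pos e with rfl | he
  · simp
  · have hx : |x| ≤ M := by
      have : |x| ≤ |x - w| + |w| := by
        have := abs_add_le (x - w) w
        simpa using this
      linarith
    have hw : |w| ≤ M := by linarith
    have h3 := abs_pow_sub_pow_le x w e
    have h4 : max |x| |w| ^ (e - 1) ≤ M ^ (e - 1) :=
      pow_le_pow_left₀ (le_max_of_le_left (abs_nonneg _)) (max_le hx hw) _
    have h5 : |x - w| * e * max |x| |w| ^ (e - 1) ≤ δ * e * M ^ (e - 1) := by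
      apply mul_le_mul _ h4 (by positivity) (by positivity)
      exact mul_le_mul_of_nonneg_right h1 (by positivity)
    have h6 : M ^ e = M * M ^ (e - 1) := by
      conv_lhs => rw [show e = (e - 1) + 1 by omega]
      ring
    calc M * |x ^ e - w ^ e| ≤ M * (δ * e * M ^ (e - 1)) :=
          mul_le_mul_of_nonneg_left (h3.trans h5) hM
      _ = e * δ * M ^ e := by rw [h6]; ring

theorem CRef_block {α : Type*} (a : α → ℤ) (c : α → ℝ) (e : ℕ) (s : α) (A D M δ w : ℝ)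
    (ha : |(a s : ℝ)| ≤ A) (hc : |c s| ≤ D) (h2 : |w| + δ ≤ M) (n : ℕ) (z : ℤ)
    (h1 : |(z : ℝ) - w| + n * A ≤ δ) :
    M * |Isum a c e z (List.replicate n s) - n * (c s * w ^ e)| ≤ n * (D * (e * δ * M ^ e)) := by
  have hA : 0 ≤ A := (abs_nonneg _).trans ha
  have hD : 0 ≤ D := (abs_nonneg _).trans hc
  induction n generalizing z with
  | zero => simp [Isum]
  | succ n ih =>
    have hn : (0 : ℝ) ≤ n * A := by positivity
    push_cast at h1
    have hz : |(z : ℝ) - w| ≤ δ := by nlinarith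
    have hM : 0 ≤ M := by
      have := abs_nonneg w
      have := abs_nonneg ((z : ℝ) - w)
      linarith
    have h3 := CRef_pow z w M δ e hz h2
    have h4 := ih (z + a s) (by
      push_cast
      have : |(z : ℝ) + a s - w| ≤ |(z : ℝ) - w| + |(a s : ℝ)| := by
        have := abs_add_le ((z : ℝ) - w) (a s)
        rwa [show (z : ℝ) - w + a s = z + a s - w by ring] at this
      nlinarith)
    rw [List.replicate_succ]
    simp only [Isum]
    push_cast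
    have h5 : c s * (z : ℝ) ^ e + Isum a c e (z + a s) (List.replicate n s) -
        (n + 1) * (c s * w ^ e) = c s * ((z : ℝ) ^ e - w ^ e) +
        (Isum a c e (z + a s) (List.replicate n s) - n * (c s * w ^ e)) := by ring
    rw [h5]
    have h6 := abs_add_le (c s * ((z : ℝ) ^ e - w ^ e))
      (Isum a c e (z + a s) (List.replicate n s) - n * (c s * w ^ e))
    have h7 : M * |c s * ((z : ℝ) ^ e - w ^ e)| ≤ D * (e * δ * M ^ e) := by
      rw [abs_mul]
      calc M * (|c s| * |(z : ℝ) ^ e - w ^ e|) = |c s| * (M * |(z : ℝ) ^ e - w ^ e|) := by ring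
        _ ≤ D * (e * δ * M ^ e) :=
          mul_le_mul hc h3 (by positivity) hD
    have h8 := mul_le_mul_of_nonneg_left h6 hM
    nlinarith

theorem CRef_main {α : Type*} (T : Finset α) (a : α → ℤ) (c : α → ℝ) (e : ℕ) (A D B : ℝ)
    (ha : ∀ s ∈ T, |(a s : ℝ)| ≤ A) (hc : ∀ s ∈ T, |c s| ≤ D) (m : ℕ) (hm : 1 ≤ m)
    (l : List α) (hl : ∀ s ∈ l, s ∈ T) (y : ℤ) (hy : |(y : ℝ)| + A * l.length ≤ B) :
    B * |Isum a c e (m * y) (l.flatMap (List.replicate m)) - (m : ℝ) ^ (e + 1) * Isum a c e y l|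
      ≤ (D * e * A * (m : ℝ) ^ (e + 1) * B ^ e) * l.length := by
  induction l generalizing y with
  | nil => simp [Isum]
  | cons s l ih =>
    have hs := hl s (by simp)
    have hA : 0 ≤ A := (abs_nonneg _).trans (ha s hs)
    have hm' : (0 : ℝ) < m := by exact_mod_cast hm
    simp only [List.length_cons] at hy ⊢
    push_cast at hy ⊢
    have hl0 : (0 : ℝ) ≤ A * l.length := by positivity
    have hB : 0 ≤ B := by have := abs_nonneg (y : ℝ); nlinarith
    have h1 := ih (fun t ht => hl t (List.mem_cons_of_mem _ ht)) (y + a s) (by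
      push_cast
      have := abs_add_le (y : ℝ) (a s)
      have := ha s hs
      nlinarith)
    have h2 := CRef_block a c e s A D (m * B) (m * A) (m * y) (ha s hs) (hc s hs) (by
      rw [abs_mul, abs_of_pos hm']
      nlinarith) m (m * y) (by push_cast; simp)
    rw [List.flatMap_cons, CRef_append]
    have h3 : (m : ℤ) * y + ((List.replicate m s).map a).sum = m * (y + a s) := by
      simp [mul_add]
    rw [h3]
    simp only [Isum]
    set X := Isum a c e (m * y) (List.replicate m s) with hX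
    set Y := Isum a c e (m * (y + a s)) (l.flatMap (List.replicate m)) with hY
    set Z := Isum a c e (y + a s) l with hZ
    have h4 : B * |X - m * (c s * ((m : ℝ) * y) ^ e)| ≤ D * e * A * (m : ℝ) ^ (e + 1) * B ^ e := by
      have h5 : (m : ℝ) * (B * |X - m * (c s * ((m : ℝ) * y) ^ e)|) ≤
          m * (D * e * A * (m : ℝ) ^ (e + 1) * B ^ e) := by
        calc (m : ℝ) * (B * |X - m * (c s * ((m : ℝ) * y) ^ e)|)
            = m * B * |X - m * (c s * ((m : ℝ) * y) ^ e)| := by ring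
          _ ≤ m * (D * (e * (m * A) * (m * B) ^ e)) := h2
          _ = m * (D * e * A * (m : ℝ) ^ (e + 1) * B ^ e) := by rw [mul_pow]; ring
      exact le_of_mul_le_mul_left h5 hm'
    have h6 : X + Y - (m : ℝ) ^ (e + 1) * (c s * (y : ℝ) ^ e + Z) =
        (X - m * (c s * ((m : ℝ) * y) ^ e)) + (Y - (m : ℝ) ^ (e + 1) * Z) := by
      rw [mul_pow]; ring
    rw [h6]
    have h7 := mul_le_mul_of_nonneg_left (abs_add_le (X - m * (c s * ((m : ℝ) * y) ^ e))
      (Y - (m : ℝ) ^ (e + 1) * Z)) hB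
    nlinarith

theorem refine_est {α : Type*} (T : Finset α) (a : α → ℤ) (c : α → ℝ) (e : ℕ) :
    ∃ C : ℝ, 0 ≤ C ∧ ∀ (m : ℕ) (K : ℝ) (l : List α), 1 ≤ m → 1 ≤ K → (∀ s ∈ l, s ∈ T) →
      (l.length : ℝ) ≤ K →
      |Isum a c e 0 (l.flatMap (List.replicate m)) - (m : ℝ) ^ (e + 1) * Isum a c e 0 l| ≤
        C * (m : ℝ) ^ (e + 1) * K ^ e := by
  set A : ℝ := 1 + ∑ s ∈ T, |(a s : ℝ)| with hAdef
  set D : ℝ := ∑ s ∈ T, |c s| with hDdef
  have hA0 : 0 ≤ ∑ s ∈ T, |(a s : ℝ)| := Finset.sum_nonneg fun _ _ => abs_nonneg _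
  have hA : 0 < A := by linarith
  have hD : 0 ≤ D := Finset.sum_nonneg fun _ _ => abs_nonneg _
  have ha : ∀ s ∈ T, |(a s : ℝ)| ≤ A := fun s hs => by
    have := Finset.single_le_sum (f := fun s => |(a s : ℝ)|) (fun _ _ => abs_nonneg _) hs
    linarith
  have hc : ∀ s ∈ T, |c s| ≤ D := fun s hs =>
    Finset.single_le_sum (f := fun s => |c s|) (fun _ _ => abs_nonneg _) hs
  refine ⟨D * e * A ^ e, by positivity, fun m K l hm hK hl hlen => ?_⟩
  have hK0 : 0 < K := by linarith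
  have h1 := CRef_main T a c e A D (A * K) ha hc m hm l hl 0 (by
    simp only [Int.cast_zero, abs_zero, zero_add]
    exact mul_le_mul_of_nonneg_left hlen hA.le)
  rw [mul_zero] at h1
  have h2 : (D * e * A * (m : ℝ) ^ (e + 1) * (A * K) ^ e) * l.length ≤
      (D * e * A * (m : ℝ) ^ (e + 1) * (A * K) ^ e) * K :=
    mul_le_mul_of_nonneg_left hlen (by positivity)
  have h3 : (D * e * A * (m : ℝ) ^ (e + 1) * (A * K) ^ e) * K =
      A * K * (D * e * A ^ e * (m : ℝ) ^ (e + 1) * K ^ e) := by rw [mul_pow]; ring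
  exact le_of_mul_le_mul_left (h1.trans (h2.trans h3.le)) (by positivity)

end Pool.Agent.MP_b3b911_al.Fil

end

section

open MeasureTheory

namespace Pool.Agent.MP_b3b911_al.Fil

theorem CCoa_snoc {α : Type*} (a : α → ℤ) (c : α → ℝ) (e : ℕ) (s : α) (l : List α) :
    ∀ y : ℤ, Isum a c e y (l ++ [s]) =
      Isum a c e y l + c s * ((y : ℝ) + ((l.map a).sum : ℤ)) ^ e := by
  induction l with
  | nil => intro y; simp [Isum]
  | cons x l ih =>
    intro y
    simp only [List.cons_append, Isum, ih, List.map_cons, List.sum_cons]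
    push_cast
    ring

theorem CCoa_pow {x y M : ℝ} (hx : |x| ≤ M) (hy : |y| ≤ M) (e : ℕ) :
    M * |x ^ e - y ^ e| ≤ e * |x - y| * M ^ e := by
  have hM : 0 ≤ M := (abs_nonneg x).trans hx
  induction e with
  | zero => simp
  | succ n ih =>
    have h1 : x ^ (n + 1) - y ^ (n + 1) = x * (x ^ n - y ^ n) + (x - y) * y ^ n := by ring
    have h2 : |x ^ (n + 1) - y ^ (n + 1)| ≤ M * |x ^ n - y ^ n| + |x - y| * M ^ n := by
      rw [h1]
      refine (abs_add_le _ _).trans (add_le_add ?_ ?_)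
      · rw [abs_mul]
        exact mul_le_mul_of_nonneg_right hx (abs_nonneg _)
      · rw [abs_mul, abs_pow]
        exact mul_le_mul_of_nonneg_left (pow_le_pow_left₀ (abs_nonneg _) hy n) (abs_nonneg _)
    calc M * |x ^ (n + 1) - y ^ (n + 1)|
        ≤ M * (n * |x - y| * M ^ n + |x - y| * M ^ n) :=
          mul_le_mul_of_nonneg_left (h2.trans (by linarith)) hM
      _ = ((n + 1 : ℕ) : ℝ) * |x - y| * M ^ (n + 1) := by push_cast; ring

theorem CCoa_bump {α : Type*} [DecidableEq α] {T : Finset α} {s : α} (hs : s ∈ T)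
    {ρ ρ' : α → ℕ} {k : ℕ} (h : ∀ x, ρ' x = ρ x + if x = s then k else 0) (f : α → ℝ) :
    ∑ x ∈ T, (ρ' x : ℝ) * f x = ∑ x ∈ T, (ρ x : ℝ) * f x + k * f s := by
  have : ∀ x ∈ T, (ρ' x : ℝ) * f x = (ρ x : ℝ) * f x + if x = s then (k : ℝ) * f x else 0 := by
    intro x _
    rw [h x]
    split_ifs <;> push_cast <;> ring
  rw [Finset.sum_congr rfl this, Finset.sum_add_distrib, Finset.sum_ite_eq' T s, if_pos hs]

theorem CCoa_sum_le {α : Type*} {T : Finset α} {ρ : α → ℕ} {m : ℕ} (hρ : ∀ x, ρ x ≤ m)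
    {f : α → ℝ} {γ : ℝ} (hf : ∀ x ∈ T, |f x| ≤ γ) :
    |∑ x ∈ T, (ρ x : ℝ) * f x| ≤ T.card * m * γ := by
  refine (Finset.abs_sum_le_sum_abs _ _).trans ?_
  have : ∀ x ∈ T, |(ρ x : ℝ) * f x| ≤ m * γ := by
    intro x hx
    rw [abs_mul, Nat.abs_cast]
    exact mul_le_mul (by exact_mod_cast hρ x) (hf x hx) (abs_nonneg _) (Nat.cast_nonneg _)
  refine (Finset.sum_le_sum this).trans ?_
  rw [Finset.sum_const, nsmul_eq_mul, mul_assoc]

theorem CCoa_pos {α : Type*} {T : Finset α} {a : α → ℤ} {A : ℝ}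
    (hA : ∀ s ∈ T, |(a s : ℝ)| ≤ A) (l : List α) (hl : ∀ s ∈ l, s ∈ T) :
    |(((l.map a).sum : ℤ) : ℝ)| ≤ A * l.length := by
  induction l with
  | nil => simp
  | cons x l ih =>
    have h1 := ih fun s hs => hl s (List.mem_cons_of_mem _ hs)
    have h2 := hA x (hl x List.mem_cons_self)
    simp only [List.map_cons, List.sum_cons, List.length_cons]
    push_cast at h1 ⊢
    refine (abs_add_le _ _).trans ?_
    linarith

/-- The invariant of the coarsening procedure. -/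
structure CCoaInv {α : Type*} (T : Finset α) (a : α → ℤ) {J : Type} (c : α → J → ℝ) (e : J → ℕ)
    (D : J → ℝ) (m : ℕ) (K : ℝ) (l u : List α) (ρ : α → ℕ) : Prop where
  mem : ∀ s ∈ u, s ∈ T
  len : (m : ℝ) * u.length + ∑ x ∈ T, (ρ x : ℝ) * 1 = l.length
  pos : (((l.map a).sum : ℤ) : ℝ) = m * (((u.map a).sum : ℤ) : ℝ) + ∑ x ∈ T, (ρ x : ℝ) * a x
  err : ∀ j, K * |Isum a (fun s => c s j) (e j) 0 l -
      (m : ℝ) ^ (e j + 1) * Isum a (fun s => c s j) (e j) 0 u -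
      (∑ x ∈ T, (ρ x : ℝ) * c x j) * (((l.map a).sum : ℤ) : ℝ) ^ e j| ≤
    D j * m ^ e j * K ^ e j * l.length + D j * m ^ (e j + 1) * K ^ e j * u.length

section

variable {α : Type*} [DecidableEq α] {T : Finset α} {a : α → ℤ} {J : Type} {c : α → J → ℝ}
  {e : J → ℕ} {A γ : ℝ} {m : ℕ} {K : ℝ}

theorem CCoa_key (hA1 : 1 ≤ A) (hm : 1 ≤ m) (hK : 1 ≤ K) {x y w b δ : ℝ} (n : ℕ)
    (hx : |x| ≤ A * (m * K)) (hy : |y| ≤ A * (m * K)) (hw : |w| ≤ m * b) (hd : |x - y| ≤ δ) :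
    K * |w * (x ^ n - y ^ n)| ≤ b * n * δ * (A * (m * K)) ^ n := by
  have hm' : (1 : ℝ) ≤ m := by exact_mod_cast hm
  have hb : 0 ≤ b := by
    have := (abs_nonneg w).trans hw
    by_contra h
    nlinarith
  have h1 := CCoa_pow hx hy n
  have hmK : 0 ≤ (m : ℝ) * K := by positivity
  have h2 : (m * K) * |x ^ n - y ^ n| ≤ A * (m * K) * |x ^ n - y ^ n| :=
    mul_le_mul_of_nonneg_right (by nlinarith) (abs_nonneg _)
  have h3 : n * |x - y| * (A * (m * K)) ^ n ≤ n * δ * (A * (m * K)) ^ n := by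
    gcongr
  calc K * |w * (x ^ n - y ^ n)| = K * |w| * |x ^ n - y ^ n| := by rw [abs_mul]; ring
    _ ≤ K * (m * b) * |x ^ n - y ^ n| := by gcongr
    _ = b * ((m * K) * |x ^ n - y ^ n|) := by ring
    _ ≤ b * (n * δ * (A * (m * K)) ^ n) :=
        mul_le_mul_of_nonneg_left (h2.trans (h1.trans h3)) hb
    _ = _ := by ring

theorem CCoa_step1 (hA1 : 1 ≤ A) (hA : ∀ s ∈ T, |(a s : ℝ)| ≤ A)
    (hγ : ∀ s ∈ T, ∀ j, |c s j| ≤ γ) (hm : 1 ≤ m) (hK : 1 ≤ K) {l u : List α} {ρ ρ' : α → ℕ}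
    {s : α} (hl : ∀ x ∈ l ++ [s], x ∈ T) (hlen : ((l ++ [s]).length : ℝ) ≤ m * K)
    (h : ∀ x, ρ' x = ρ x + if x = s then 1 else 0) (hρ : ∀ x, ρ' x ≤ m)
    (H : CCoaInv T a c e (fun j => T.card * γ * e j * A ^ (e j + 1)) m K l u ρ) :
    CCoaInv T a c e (fun j => T.card * γ * e j * A ^ (e j + 1)) m K (l ++ [s]) u ρ' := by
  have hs : s ∈ T := hl s (by simp)
  have hP : ((((l ++ [s]).map a).sum : ℤ) : ℝ) = (((l.map a).sum : ℤ) : ℝ) + a s := by
    simp
  have hL : ((l ++ [s]).length : ℝ) = l.length + 1 := by simp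
  refine ⟨H.mem, ?_, ?_, fun j => ?_⟩
  · rw [CCoa_bump hs h, hL, ← H.len]
    push_cast
    ring
  · rw [CCoa_bump hs h, hP, H.pos]
    push_cast
    ring
  · have hy := CCoa_pos hA _ hl
    have hx := CCoa_pos hA l fun x hx => hl x (List.mem_append_left _ hx)
    have hA0 : 0 ≤ A := by linarith
    have hy' := hy.trans (mul_le_mul_of_nonneg_left hlen hA0)
    have hx' := hx.trans (mul_le_mul_of_nonneg_left
      (show (l.length : ℝ) ≤ m * K by linarith) hA0)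
    have hw : |∑ x ∈ T, (ρ' x : ℝ) * c x j| ≤ m * (T.card * γ) :=
      (CCoa_sum_le hρ fun x hx => hγ x hx j).trans_eq (by ring)
    have hd : |(((l.map a).sum : ℤ) : ℝ) - ((((l ++ [s]).map a).sum : ℤ) : ℝ)| ≤ A := by
      rw [hP, sub_add_cancel_left, abs_neg]
      exact hA s hs
    have hk := CCoa_key hA1 hm hK (e j) hx' hy' hw hd
    have he := H.err j
    have hsplit : Isum a (fun s => c s j) (e j) 0 (l ++ [s]) -
        (m : ℝ) ^ (e j + 1) * Isum a (fun s => c s j) (e j) 0 u -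
        (∑ x ∈ T, (ρ' x : ℝ) * c x j) * ((((l ++ [s]).map a).sum : ℤ) : ℝ) ^ e j =
        (Isum a (fun s => c s j) (e j) 0 l -
        (m : ℝ) ^ (e j + 1) * Isum a (fun s => c s j) (e j) 0 u -
        (∑ x ∈ T, (ρ x : ℝ) * c x j) * (((l.map a).sum : ℤ) : ℝ) ^ e j) +
        (∑ x ∈ T, (ρ' x : ℝ) * c x j) * ((((l.map a).sum : ℤ) : ℝ) ^ e j -
          ((((l ++ [s]).map a).sum : ℤ) : ℝ) ^ e j) := by
      rw [CCoa_snoc, CCoa_bump hs h fun x => c x j]
      simp only [Int.cast_zero, zero_add, Nat.cast_one]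
      ring
    rw [hsplit, hL]
    refine (mul_le_mul_of_nonneg_left (abs_add_le _ _) (by linarith)).trans ?_
    rw [mul_add]
    refine (add_le_add he hk).trans_eq ?_
    simp only [mul_pow]
    ring

theorem CCoa_step2 (hA1 : 1 ≤ A) (hA : ∀ s ∈ T, |(a s : ℝ)| ≤ A)
    (hγ : ∀ s ∈ T, ∀ j, |c s j| ≤ γ) (hm : 1 ≤ m) (hK : 1 ≤ K) {l u : List α} {ρ ρ' : α → ℕ}
    {s : α} (hs : s ∈ T) (hl : ∀ x ∈ l, x ∈ T) (hlen : (l.length : ℝ) ≤ m * K)
    (h : ∀ x, ρ x = ρ' x + if x = s then m else 0) (hρ : ∀ x, ρ x ≤ m)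
    (H : CCoaInv T a c e (fun j => T.card * γ * e j * A ^ (e j + 1)) m K l u ρ) :
    CCoaInv T a c e (fun j => T.card * γ * e j * A ^ (e j + 1)) m K l (u ++ [s]) ρ' := by
  have hP : ((((u ++ [s]).map a).sum : ℤ) : ℝ) = (((u.map a).sum : ℤ) : ℝ) + a s := by
    simp
  have hL : ((u ++ [s]).length : ℝ) = u.length + 1 := by simp
  refine ⟨?_, ?_, ?_, fun j => ?_⟩
  · intro x hx
    rcases List.mem_append.1 hx with hx | hx
    · exact H.mem x hx
    · rw [List.mem_singleton.1 hx]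
      exact hs
  · rw [hL, ← H.len, CCoa_bump hs h]
    ring
  · rw [hP, H.pos, CCoa_bump hs h]
    ring
  · have hA0 : 0 ≤ A := by linarith
    have hx := (CCoa_pos hA l hl).trans (mul_le_mul_of_nonneg_left hlen hA0)
    have hu := CCoa_pos hA u H.mem
    have hS : 0 ≤ ∑ x ∈ T, (ρ x : ℝ) * 1 := Finset.sum_nonneg fun x _ => by positivity
    have hul : (m : ℝ) * u.length ≤ m * K := by linarith [H.len]
    have hy : |(m : ℝ) * (((u.map a).sum : ℤ) : ℝ)| ≤ A * (m * K) := by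
      rw [abs_mul, Nat.abs_cast]
      calc (m : ℝ) * |(((u.map a).sum : ℤ) : ℝ)| ≤ m * (A * u.length) := by gcongr
        _ = A * (m * u.length) := by ring
        _ ≤ A * (m * K) := by gcongr
    have hw : |(m : ℝ) * c s j| ≤ m * γ := by
      rw [abs_mul, Nat.abs_cast]
      exact mul_le_mul_of_nonneg_left (hγ s hs j) (Nat.cast_nonneg _)
    have hd : |(((l.map a).sum : ℤ) : ℝ) - (m : ℝ) * (((u.map a).sum : ℤ) : ℝ)| ≤
        T.card * m * A := by
      rw [H.pos, add_sub_cancel_left]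
      exact CCoa_sum_le hρ hA
    have hk := CCoa_key hA1 hm hK (e j) hx hy hw hd
    have he := H.err j
    have hsplit : Isum a (fun s => c s j) (e j) 0 l -
        (m : ℝ) ^ (e j + 1) * Isum a (fun s => c s j) (e j) 0 (u ++ [s]) -
        (∑ x ∈ T, (ρ' x : ℝ) * c x j) * (((l.map a).sum : ℤ) : ℝ) ^ e j =
        (Isum a (fun s => c s j) (e j) 0 l -
        (m : ℝ) ^ (e j + 1) * Isum a (fun s => c s j) (e j) 0 u -
        (∑ x ∈ T, (ρ x : ℝ) * c x j) * (((l.map a).sum : ℤ) : ℝ) ^ e j) +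
        ((m : ℝ) * c s j) * ((((l.map a).sum : ℤ) : ℝ) ^ e j -
          ((m : ℝ) * (((u.map a).sum : ℤ) : ℝ)) ^ e j) := by
      rw [CCoa_snoc, CCoa_bump hs h fun x => c x j]
      simp only [Int.cast_zero, zero_add, mul_pow]
      ring
    rw [hsplit, hL]
    refine (mul_le_mul_of_nonneg_left (abs_add_le _ _) (by linarith)).trans ?_
    rw [mul_add]
    refine (add_le_add he hk).trans_eq ?_
    simp only [mul_pow]
    ring

theorem CCoa_inv (hA1 : 1 ≤ A) (hA : ∀ s ∈ T, |(a s : ℝ)| ≤ A)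
    (hγ : ∀ s ∈ T, ∀ j, |c s j| ≤ γ) (hm : 1 ≤ m) (hK : 1 ≤ K) (l : List α) :
    (∀ x ∈ l, x ∈ T) → (l.length : ℝ) ≤ m * K → ∃ u ρ, (∀ x, ρ x < m) ∧
      CCoaInv T a c e (fun j => T.card * γ * e j * A ^ (e j + 1)) m K l u ρ := by
  induction l using List.reverseRecOn with
  | nil =>
    intro _ _
    exact ⟨[], fun _ => 0, fun _ => hm, by simp, by simp, by simp, fun j => by simp [Isum]⟩
  | append_singleton l s ih =>
    intro hl hlen
    have hL : ((l ++ [s]).length : ℝ) = l.length + 1 := by simp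
    obtain ⟨u, ρ, hρ, H⟩ := ih (fun x hx => hl x (List.mem_append_left _ hx)) (by linarith)
    have hρ1 : ∀ x, (ρ x + if x = s then 1 else 0) ≤ m := by
      intro x
      have := hρ x
      split_ifs <;> omega
    have H1 := CCoa_step1 hA1 hA hγ hm hK (ρ' := fun x => ρ x + if x = s then 1 else 0) hl hlen
      (fun _ => rfl) hρ1 H
    by_cases hs : ρ s + 1 < m
    · refine ⟨u, _, fun x => ?_, H1⟩
      have := hρ x
      split_ifs with hx
      · subst hx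
        exact hs
      · omega
    · refine ⟨u ++ [s], fun x => if x = s then 0 else ρ x, fun x => ?_, ?_⟩
      · have := hρ x
        dsimp only
        split_ifs <;> omega
      · refine CCoa_step2 hA1 hA hγ hm hK (hl s (by simp)) hl hlen (fun x => ?_) hρ1 H1
        have := hρ s
        split_ifs with hx
        · subst hx
          omega
        · rfl

end

theorem coarsen_est {α : Type*} (T : Finset α) (a : α → ℤ) {J : Type} [Fintype J]
    (c : α → J → ℝ) (e : J → ℕ) :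
    ∃ C : ℝ, 0 ≤ C ∧ ∀ (m : ℕ) (K : ℝ) (l : List α), 1 ≤ m → 1 ≤ K → (∀ s ∈ l, s ∈ T) →
      (l.length : ℝ) ≤ m * K → ∃ u : List α, (∀ s ∈ u, s ∈ T) ∧ m * u.length ≤ l.length ∧ ∀ j,
      |Isum a (fun s => c s j) (e j) 0 l -
          (m : ℝ) ^ (e j + 1) * Isum a (fun s => c s j) (e j) 0 u| ≤
        C * (m : ℝ) ^ (e j + 1) * K ^ e j := by
  classical
  obtain ⟨A, hA1, hA⟩ : ∃ A : ℝ, 1 ≤ A ∧ ∀ s ∈ T, |(a s : ℝ)| ≤ A := by
    have h0 : 0 ≤ ∑ s ∈ T, |(a s : ℝ)| := Finset.sum_nonneg fun _ _ => abs_nonneg _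
    refine ⟨1 + ∑ s ∈ T, |(a s : ℝ)|, by linarith, fun s hs => ?_⟩
    have := Finset.single_le_sum (f := fun s => |(a s : ℝ)|) (fun _ _ => abs_nonneg _) hs
    linarith
  obtain ⟨γ, hγ0, hγ⟩ : ∃ γ : ℝ, 0 ≤ γ ∧ ∀ s ∈ T, ∀ j, |c s j| ≤ γ := by
    have h0 : ∀ s, 0 ≤ ∑ j, |c s j| := fun s => Finset.sum_nonneg fun _ _ => abs_nonneg _
    refine ⟨∑ s ∈ T, ∑ j, |c s j|, Finset.sum_nonneg fun s _ => h0 s, fun s hs j => ?_⟩
    exact (Finset.single_le_sum (f := fun j => |c s j|) (fun _ _ => abs_nonneg _)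
      (Finset.mem_univ j)).trans
      (Finset.single_le_sum (f := fun s => ∑ j, |c s j|) (fun s _ => h0 s) hs)
  have hA0 : 0 ≤ A := by linarith
  have hC : ∀ j, 0 ≤ 2 * (T.card * γ * e j * A ^ (e j + 1)) + T.card * γ * A ^ e j :=
    fun j => by positivity
  refine ⟨∑ j, (2 * (T.card * γ * e j * A ^ (e j + 1)) + T.card * γ * A ^ e j),
    Finset.sum_nonneg fun j _ => hC j, fun m K l hm hK hl hlen => ?_⟩
  obtain ⟨u, ρ, hρ, H⟩ := CCoa_inv (e := e) hA1 hA hγ hm hK l hl hlen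
  have hS : 0 ≤ ∑ x ∈ T, (ρ x : ℝ) * 1 := Finset.sum_nonneg fun x _ => by positivity
  have hul : (m : ℝ) * u.length ≤ l.length := by linarith [H.len]
  have hm' : (0 : ℝ) < m := by exact_mod_cast hm
  have hK0 : 0 < K := by linarith
  have huK : (u.length : ℝ) ≤ K := le_of_mul_le_mul_left (hul.trans hlen) hm'
  refine ⟨u, H.mem, by exact_mod_cast hul, fun j => ?_⟩
  have he := H.err j
  set E := Isum a (fun s => c s j) (e j) 0 l -
      (m : ℝ) ^ (e j + 1) * Isum a (fun s => c s j) (e j) 0 u with hE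
  set R := (∑ x ∈ T, (ρ x : ℝ) * c x j) * (((l.map a).sum : ℤ) : ℝ) ^ e j with hR
  set D := T.card * γ * e j * A ^ (e j + 1) with hD
  have hD0 : 0 ≤ D := by positivity
  have h1 : |E - R| ≤ 2 * D * m ^ (e j + 1) * K ^ e j := by
    refine le_of_mul_le_mul_left (he.trans ?_) hK0
    calc D * m ^ e j * K ^ e j * l.length + D * m ^ (e j + 1) * K ^ e j * u.length
        ≤ D * m ^ e j * K ^ e j * (m * K) + D * m ^ (e j + 1) * K ^ e j * K := by gcongr
      _ = _ := by ring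
  have h2 : |R| ≤ T.card * γ * A ^ e j * m ^ (e j + 1) * K ^ e j := by
    have hx := (CCoa_pos hA l hl).trans (mul_le_mul_of_nonneg_left hlen hA0)
    have hw := CCoa_sum_le (fun x => (hρ x).le) fun x hx => hγ x hx j
    rw [hR, abs_mul, abs_pow]
    calc _ ≤ T.card * m * γ * (A * (m * K)) ^ e j := by gcongr
      _ = _ := by simp only [mul_pow]; ring
  have h3 := Finset.single_le_sum
    (f := fun j => 2 * (T.card * γ * e j * A ^ (e j + 1)) + T.card * γ * A ^ e j)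
    (fun j _ => hC j) (Finset.mem_univ j)
  calc |E| = |(E - R) + R| := by rw [sub_add_cancel]
    _ ≤ 2 * D * m ^ (e j + 1) * K ^ e j + T.card * γ * A ^ e j * m ^ (e j + 1) * K ^ e j :=
        (abs_add_le _ _).trans (add_le_add h1 h2)
    _ = (2 * D + T.card * γ * A ^ e j) * m ^ (e j + 1) * K ^ e j := by ring
    _ ≤ _ := by gcongr

end Pool.Agent.MP_b3b911_al.Fil

end

section

open MeasureTheory

namespace Pool.Agent.MP_b3b911_al.Fil

variable {G : Type*} [Group G] {S : Finset G} {J : Type} [Fintype J]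

theorem CUL_comb {a b Il Iu m K Cs Cc : ℝ} {e : ℕ} (hm : 1 ≤ m) (hK : 1 ≤ K) (hCs : 0 ≤ Cs)
    (h1 : |a - Il| ≤ Cs * (m * K) ^ e) (h2 : |Il - m ^ (e + 1) * Iu| ≤ Cc * m ^ (e + 1) * K ^ e)
    (h3 : |b - Iu| ≤ Cs * K ^ e) :
    |a - m ^ (e + 1) * b| ≤ (2 * Cs + Cc) * (m ^ (e + 1) * K ^ e) := by
  have hm0 : 0 ≤ m := by linarith
  have hK0 : 0 ≤ K := by linarith
  have h4 : Cs * (m * K) ^ e ≤ Cs * (m ^ (e + 1) * K ^ e) := by
    rw [mul_pow]
    gcongr
    omega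
  have h5 : |m ^ (e + 1) * Iu - m ^ (e + 1) * b| ≤ m ^ (e + 1) * (Cs * K ^ e) := by
    rw [← mul_sub, abs_mul, abs_of_nonneg (pow_nonneg hm0 _), abs_sub_comm]
    gcongr
  have h6 := abs_sub_le a Il (m ^ (e + 1) * b)
  have h7 := abs_sub_le Il (m ^ (e + 1) * Iu) (m ^ (e + 1) * b)
  nlinarith

theorem CUL_floor (x : ℝ) : |((⌊x⌋ : ℤ) : ℝ) - x| ≤ 1 := by
  have h1 := Int.floor_le x
  have h2 := Int.lt_floor_add_one x
  rw [abs_le]
  constructor <;> linarith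

open Classical in
theorem CUL_mem {x : G} : x ∈ S ∪ S.image (·⁻¹) ↔ x ∈ S ∨ x⁻¹ ∈ S := by
  rw [Finset.mem_union, Finset.mem_image]
  refine or_congr_right ⟨?_, fun h => ⟨x⁻¹, h, inv_inv x⟩⟩
  rintro ⟨y, hy, rfl⟩
  rwa [inv_inv]

theorem CUL_rep (Z : Sys S J) (m : ℕ) (v : List G) :
    Z.co (v.flatMap (List.replicate m)).prod Z.j0 = m * Z.co v.prod Z.j0 := by
  have h1 : ∀ s : G, Z.co (s ^ m) Z.j0 = m * Z.co s Z.j0 := by
    intro s
    induction m with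
    | zero => simp [Z.co_one]
    | succ m ih => rw [pow_succ, Z.add, ih]; push_cast; ring
  induction v with
  | nil => simp [Z.co_one]
  | cons s v ih =>
    rw [List.flatMap_cons, List.prod_append, List.prod_replicate, List.prod_cons, Z.add, Z.add, ih,
      h1, mul_add]

omit [Group G] in
theorem CUL_len (m : ℕ) (v : List G) : (v.flatMap (List.replicate m)).length = m * v.length := by
  induction v with
  | nil => simp
  | cons s v ih =>
    rw [List.flatMap_cons, List.length_append, List.length_replicate, ih, List.length_cons]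
    ring

theorem Sys.low (Z : Sys S J) : ∃ R : ℝ, 1 ≤ R ∧ ∀ K q : ℝ, 1 ≤ K → q ≤ K → ∀ z ∈ Z.B q,
    ∃ u : List G, Word S u ∧ (u.length : ℝ) ≤ q ∧
      ∀ j, |(Z.co u.prod j : ℝ) - z j| ≤ R * K ^ (Z.W j - 1) := by
  classical
  obtain ⟨Cs, hCs, hs⟩ := Z.sum_est
  obtain ⟨Cc, hCc, hc⟩ := coarsen_est (S ∪ S.image (·⁻¹)) (fun s => Z.co s Z.j0) Z.c
    (fun j => Z.W j - 1)
  refine ⟨2 * Cs + Cc + 1, by linarith, fun K q hK hq z hz => ?_⟩
  obtain ⟨m, hm, hz⟩ := hz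
  obtain ⟨l, hl, hw, hp⟩ := hz m hm dvd_rfl
  have hm1 : (1 : ℝ) ≤ m := by exact_mod_cast hm
  have hl' : (l.length : ℝ) ≤ m * K := by nlinarith
  obtain ⟨u, hu, hul, hI⟩ := hc m K l hm hK (fun s hs => by
    convert CUL_mem.2 (hw s hs)) hl'
  have huw : Word S u := fun s hs => CUL_mem.1 (by convert hu s hs)
  have huq : (u.length : ℝ) ≤ q := by
    have h1 : (m : ℝ) * u.length ≤ l.length := by exact_mod_cast hul
    refine le_of_mul_le_mul_left (a := (m : ℝ)) ?_ (by linarith)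
    linarith
  refine ⟨u, huw, huq, fun j => ?_⟩
  have h1 := CUL_comb hm1 hK hCs (hs (m * K) (by nlinarith) l hw hl' j) (hI j)
    (hs K hK u huw (huq.trans hq) j)
  have h2 := CUL_floor ((m : ℝ) ^ Z.W j * z j)
  rw [Nat.sub_add_cancel (Z.W_pos j), hp, Z.co_pt] at h1
  have hM : (1 : ℝ) ≤ (m : ℝ) ^ Z.W j := one_le_pow₀ hm1
  have hKe : (1 : ℝ) ≤ K ^ (Z.W j - 1) := one_le_pow₀ hK
  refine le_of_mul_le_mul_left (a := (m : ℝ) ^ Z.W j) ?_ (by linarith)
  have h3 : (m : ℝ) ^ Z.W j * |(Z.co u.prod j : ℝ) - z j| =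
      |(m : ℝ) ^ Z.W j * Z.co u.prod j - (m : ℝ) ^ Z.W j * z j| := by
    rw [← mul_sub, abs_mul, abs_of_nonneg (by linarith : (0 : ℝ) ≤ (m : ℝ) ^ Z.W j)]
  have h4 := abs_sub_le ((m : ℝ) ^ Z.W j * Z.co u.prod j) ((⌊(m : ℝ) ^ Z.W j * z j⌋ : ℤ) : ℝ)
    ((m : ℝ) ^ Z.W j * z j)
  rw [abs_sub_comm] at h1
  have h5 : (1 : ℝ) ≤ (m : ℝ) ^ Z.W j * K ^ (Z.W j - 1) := one_le_mul_of_one_le_of_one_le hM hKe
  simp only [dil] at h1
  rw [h3]
  nlinarith

theorem Sys.up (Z : Sys S J) : ∃ C : ℝ, 0 ≤ C ∧ ∀ K L : ℝ, 1 ≤ L → L ≤ K → (K / L) ^ Z.p ≤ K →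
    ∀ u : List G, Word S u → (u.length : ℝ) ≤ K → (∃ n, L ≤ |(Z.co (u.take n).prod Z.j0 : ℝ)|) →
    ∀ z : J → ℝ, (∀ j, |(Z.co u.prod j : ℝ) - z j| ≤ 1) →
      z ∈ Z.B (u.length + C * (K / L) ^ Z.p) := by
  classical
  obtain ⟨Cs, hCs, hs⟩ := Z.sum_est
  choose Cj hCj hr using fun j => refine_est (S ∪ S.image (·⁻¹)) (fun s => Z.co s Z.j0)
    (fun s => Z.c s j) (Z.W j - 1)
  have hle : ∀ j, Cj j ≤ ∑ i, Cj i := fun j =>
    Finset.single_le_sum (fun i _ => hCj i) (Finset.mem_univ j)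
  have hCr : 0 ≤ ∑ i, Cj i := Finset.sum_nonneg fun i _ => hCj i
  set R0 : ℝ := 2 * Cs + ∑ i, Cj i + 2 with hR0
  have hR1 : 1 ≤ R0 := by linarith
  obtain ⟨C, hC, hH⟩ := Z.H2 R0
  refine ⟨C * R0, by positivity, fun K L hL hLK hp u hw hu ⟨n, hn⟩ z hz => ⟨1, le_rfl, ?_⟩⟩
  intro m hm _
  have hK : 1 ≤ K := hL.trans hLK
  have hm1 : (1 : ℝ) ≤ m := by exact_mod_cast hm
  have hm0 : (0 : ℝ) < m := by linarith
  set l := u.flatMap (List.replicate m) with hl
  have hlen : (l.length : ℝ) = m * u.length := by rw [hl, CUL_len]; push_cast; rfl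
  have hlK : (l.length : ℝ) ≤ m * K := by rw [hlen]; gcongr
  have hlw : Word S l := by
    intro s hs
    obtain ⟨t, ht, hst⟩ := List.mem_flatMap.1 hs
    rw [List.eq_of_mem_replicate hst]
    exact hw t ht
  have hdiv : m * K / (m * L) = K / L := mul_div_mul_left _ _ hm0.ne'
  obtain ⟨l', h1, h2, -, h3⟩ := hH (m * K) (m * L) (R0 * m) (by nlinarith) (by gcongr)
    (by nlinarith) (by rw [hdiv, mul_assoc]; gcongr) l hlw hlK
    ⟨((u.take n).flatMap (List.replicate m)).length, by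
      have e : l = (u.take n).flatMap (List.replicate m) ++ (u.drop n).flatMap (List.replicate m) := by
        rw [← List.flatMap_append, List.take_append_drop]
      rw [e, List.take_left, CUL_rep]
      push_cast
      rw [abs_mul, abs_of_pos hm0]
      gcongr⟩
    (Z.pt (dil Z.W m z)) (fun j => by
      have a1 := CUL_comb hm1 hK hCs (hs (m * K) (by nlinarith) l hlw hlK j)
        (hr j m K u hm hK (fun s hs => by convert CUL_mem.2 (hw s hs)) hu) (hs K hK u hw hu j)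
      have a2 := CUL_floor ((m : ℝ) ^ Z.W j * z j)
      have e : R0 * m * (m * K) ^ (Z.W j - 1) = R0 * ((m : ℝ) ^ Z.W j * K ^ (Z.W j - 1)) := by
        conv_rhs => rw [← Nat.sub_add_cancel (Z.W_pos j), pow_succ, Nat.add_sub_cancel]
        ring
      rw [Nat.sub_add_cancel (Z.W_pos j), abs_sub_comm] at a1
      rw [e, Z.co_pt]
      simp only [dil]
      have hM : (1 : ℝ) ≤ (m : ℝ) ^ Z.W j := one_le_pow₀ hm1
      have hKe : (1 : ℝ) ≤ K ^ (Z.W j - 1) := one_le_pow₀ hK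
      have a3 : |(m : ℝ) ^ Z.W j * z j - (m : ℝ) ^ Z.W j * Z.co u.prod j| ≤ (m : ℝ) ^ Z.W j := by
        rw [← mul_sub, abs_mul, abs_of_nonneg (by linarith : (0 : ℝ) ≤ (m : ℝ) ^ Z.W j),
          abs_sub_comm]
        exact mul_le_of_le_one_right (by linarith) (hz j)
      have a4 := abs_sub_le ((⌊(m : ℝ) ^ Z.W j * z j⌋ : ℤ) : ℝ) ((m : ℝ) ^ Z.W j * z j)
        (Z.co l.prod j : ℝ)
      have a5 := abs_sub_le ((m : ℝ) ^ Z.W j * z j) ((m : ℝ) ^ Z.W j * Z.co u.prod j)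
        (Z.co l.prod j : ℝ)
      have a6 : (m : ℝ) ^ Z.W j ≤ (m : ℝ) ^ Z.W j * K ^ (Z.W j - 1) :=
        le_mul_of_one_le_right (by linarith) hKe
      have a7 : Cj j * ((m : ℝ) ^ Z.W j * K ^ (Z.W j - 1)) ≤
          (∑ i, Cj i) * ((m : ℝ) ^ Z.W j * K ^ (Z.W j - 1)) :=
        mul_le_mul_of_nonneg_right (hle j) (by linarith)
      rw [hR0]
      nlinarith)
  refine ⟨l', h3.trans_eq ?_, h1, h2⟩
  rw [hdiv, hlen]
  ring

end Pool.Agent.MP_b3b911_al.Fil

end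

section

open MeasureTheory

namespace Pool.Agent.MP_b3b911_al.Fil

variable {G : Type*} [Group G] {S : Finset G} {J : Type} [Fintype J]

theorem CLoc_max (Z : Sys S J) (u : List G) : ∃ n0 : ℕ, ∀ n : ℕ,
    (Z.co (u.take n).prod Z.j0).natAbs ≤ (Z.co (u.take n0).prod Z.j0).natAbs := by
  obtain ⟨n0, -, h⟩ := Finset.exists_max_image (Finset.range (u.length + 1))
    (fun n => (Z.co (u.take n).prod Z.j0).natAbs) ⟨0, by simp⟩
  refine ⟨n0, fun n => ?_⟩
  by_cases hn : n ≤ u.length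
  · exact h n (Finset.mem_range.2 (by omega))
  · have h1 := h u.length (Finset.mem_range.2 (by omega))
    rw [List.take_of_length_le (by omega : u.length ≤ n)]
    rwa [List.take_length] at h1

theorem CLoc_pow (k : ℝ) (w : ℕ) (hw : 1 ≤ w) : k ^ w = k * k ^ (w - 1) := by
  obtain ⟨v, rfl⟩ : ∃ v, w = v + 1 := ⟨w - 1, by omega⟩
  rw [Nat.add_sub_cancel, pow_succ']

theorem CLoc_abs (x : ℤ) : |(x : ℝ)| = (x.natAbs : ℝ) := by
  rw [Nat.cast_natAbs, Int.cast_abs]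

theorem Sys.locate (Z : Sys S J) (R : ℝ) (hR : 1 ≤ R) : ∃ A : ℝ, 0 ≤ A ∧ ∀ k : ℕ, 1 ≤ k →
    ∀ u : List G, Word S u → u.length ≤ k → ∀ z : J → ℝ,
    (∀ j, |(Z.co u.prod j : ℝ) - z j| ≤ R * (k : ℝ) ^ (Z.W j - 1)) →
    z ∈ Thin Z.W A k ∨ ∃ i : ℕ, (2 : ℝ) ^ i ≤ k ∧ z ∈ Box Z.W Z.j0 A (2 ^ i) k ∧
      ∃ n, (2 : ℝ) ^ i ≤ |(Z.co (u.take n).prod Z.j0 : ℝ)| := by
  obtain ⟨Cb, hCb, hbig⟩ := Z.big_est
  obtain ⟨C, hC, hbox⟩ := Z.box_est
  obtain ⟨a, ha, hstep⟩ := Z.step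
  obtain ⟨T, hT0, hT⟩ : ∃ T : ℝ, 0 ≤ T ∧ ∀ j, (2 * a) ^ (Z.W j - 1) ≤ T := by
    refine ⟨∑ j, (2 * a) ^ (Z.W j - 1), Finset.sum_nonneg fun _ _ => by positivity, fun j => ?_⟩
    exact Finset.single_le_sum (f := fun j => (2 * a) ^ (Z.W j - 1))
      (fun _ _ => by positivity) (Finset.mem_univ j)
  have hCT : 0 ≤ C * T := mul_nonneg hC hT0
  obtain ⟨A, hA⟩ : ∃ A : ℝ, A = 2 * (C + R) + Cb + R + 2 * a + 2 * (C * T) := ⟨_, rfl⟩
  have hA0 : 0 ≤ A := by rw [hA]; linarith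
  refine ⟨A, hA0, fun k hk u hu hlen z hz => ?_⟩
  have hk1 : (1 : ℝ) ≤ k := by exact_mod_cast hk
  have hlen' : (u.length : ℝ) ≤ k := by exact_mod_cast hlen
  have hzabs : ∀ j, |z j| ≤ |(Z.co u.prod j : ℝ)| + R * (k : ℝ) ^ (Z.W j - 1) := by
    intro j
    have h1 := hz j
    have h2 := abs_sub_abs_le_abs_sub (z j) (Z.co u.prod j : ℝ)
    rw [abs_sub_comm] at h2
    linarith
  by_cases hth : ∃ j, |z j| ≤ A * (k : ℝ) ^ (Z.W j - 1)
  · left
    refine ⟨fun j => ?_, hth⟩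
    have h1 := hbig k hk1 u.prod ⟨u, hlen', hu, rfl⟩ j
    have h2 := hzabs j
    have h3 : (k : ℝ) ^ (Z.W j - 1) ≤ (k : ℝ) ^ Z.W j := pow_le_pow_right₀ hk1 (Nat.sub_le _ _)
    have h4 : R * (k : ℝ) ^ (Z.W j - 1) ≤ R * (k : ℝ) ^ Z.W j :=
      mul_le_mul_of_nonneg_left h3 (by linarith)
    have h5 : (Cb + R) * (k : ℝ) ^ Z.W j ≤ A * (k : ℝ) ^ Z.W j :=
      mul_le_mul_of_nonneg_right (by rw [hA]; linarith) (by positivity)
    linarith
  · right
    push Not at hth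
    obtain ⟨n0, hn0⟩ := CLoc_max Z u
    obtain ⟨ρ, hρ⟩ : ∃ ρ : ℕ, ρ = (Z.co (u.take n0).prod Z.j0).natAbs := ⟨_, rfl⟩
    have hρn : ∀ n, |(Z.co (u.take n).prod Z.j0 : ℝ)| ≤ ρ := by
      intro n
      rw [CLoc_abs, hρ]
      exact_mod_cast hn0 n
    have hρu : |(Z.co u.prod Z.j0 : ℝ)| ≤ ρ := by
      have := hρn u.length
      rwa [List.take_length] at this
    have hρe : |(Z.co (u.take n0).prod Z.j0 : ℝ)| = ρ := by rw [CLoc_abs, hρ]
    have hρk : (ρ : ℝ) ≤ a * k := by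
      rw [← hρe]
      refine (hstep _ (hu.take n0)).trans (mul_le_mul_of_nonneg_left ?_ (by linarith))
      refine le_trans ?_ hlen'
      exact_mod_cast List.length_take_le' n0 u
    have hj0 : |z Z.j0| ≤ ρ + R := by
      have h1 := hzabs Z.j0
      rw [Z.W_j0, Nat.sub_self, pow_zero, mul_one] at h1
      linarith
    have hρ1 : 1 ≤ ρ := by
      have h1 := hth Z.j0
      rw [Z.W_j0, Nat.sub_self, pow_zero, mul_one] at h1
      have h2 : (0 : ℝ) < ρ := by rw [hA] at h1; linarith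
      exact_mod_cast h2
    have hm : min ρ k ≠ 0 := by omega
    have hl1 := Nat.pow_log_le_self 2 hm
    have hl2 := Nat.lt_pow_succ_log_self (by norm_num : 1 < 2) (min ρ k)
    obtain ⟨i, hi⟩ : ∃ i, i = Nat.log 2 (min ρ k) := ⟨_, rfl⟩
    rw [← hi] at hl1 hl2
    have hik : (2 : ℝ) ^ i ≤ k := by exact_mod_cast hl1.trans (min_le_right _ _)
    have hiρ : (2 : ℝ) ^ i ≤ ρ := by exact_mod_cast hl1.trans (min_le_left _ _)
    have hL : (1 : ℝ) ≤ 2 ^ i := one_le_pow₀ (by norm_num)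
    have hρL : (ρ : ℝ) ≤ 2 * a * 2 ^ i := by
      rcases le_total ρ k with h | h
      · rw [min_eq_left h] at hl2
        have h1 : (ρ : ℝ) ≤ 2 ^ i * 2 := by
          rw [← pow_succ]
          exact_mod_cast hl2.le
        nlinarith
      · rw [min_eq_right h] at hl2
        have h1 : (k : ℝ) ≤ 2 ^ i * 2 := by
          rw [← pow_succ]
          exact_mod_cast hl2.le
        nlinarith
    refine ⟨i, hik, ⟨?_, fun j => ?_⟩, n0, by rw [hρe]; exact hiρ⟩
    · have h1 : R ≤ R * 2 ^ i := le_mul_of_one_le_right (by linarith) hL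
      have h2 : (2 * a + R) * 2 ^ i ≤ A * 2 ^ i :=
        mul_le_mul_of_nonneg_right (by rw [hA]; linarith) (by positivity)
      linarith
    · have h1 := hbox k (2 * a * 2 ^ i) hk1 (by nlinarith) u hu hlen'
        (fun n => (hρn n).trans hρL) j
      have h2 := hzabs j
      have h3 := hth j
      rw [mul_pow] at h1
      have hLp : (0 : ℝ) ≤ (k : ℝ) * (2 ^ i) ^ (Z.W j - 1) := by positivity
      have hkp : (0 : ℝ) ≤ (k : ℝ) ^ (Z.W j - 1) := by positivity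
      have h4 : C * ((2 * a) ^ (Z.W j - 1)) * ((k : ℝ) * (2 ^ i) ^ (Z.W j - 1)) ≤
          C * T * ((k : ℝ) * (2 ^ i) ^ (Z.W j - 1)) :=
        mul_le_mul_of_nonneg_right (mul_le_mul_of_nonneg_left (hT j) hC) hLp
      have h5 : 2 * (C + R) * (k : ℝ) ^ (Z.W j - 1) ≤ A * (k : ℝ) ^ (Z.W j - 1) :=
        mul_le_mul_of_nonneg_right (by rw [hA]; linarith) hkp
      have h6 : 2 * (C * T) * ((k : ℝ) * (2 ^ i) ^ (Z.W j - 1)) ≤
          A * ((k : ℝ) * (2 ^ i) ^ (Z.W j - 1)) :=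
        mul_le_mul_of_nonneg_right (by rw [hA]; linarith) hLp
      rw [mul_assoc A]
      linarith

theorem Sys.cube (Z : Sys S J) : ∃ n : ℕ, 1 ≤ n ∧ ∀ z : J → ℝ, (∀ j, 0 ≤ z j ∧ z j ≤ 1) →
    z ∈ Z.B n := by
  obtain ⟨Cb, hCb, hbig⟩ := Z.big_est
  obtain ⟨C, hC, h2⟩ := Z.H2 (1 + Cb)
  obtain ⟨s, hs, hs0⟩ := Z.ex
  obtain ⟨n, hn⟩ := exists_nat_ge (1 + C * (1 + Cb))
  have hCC : 0 ≤ C * (1 + Cb) := by positivity
  have hn1 : 1 ≤ n := by
    have : (1 : ℝ) ≤ n := by linarith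
    exact_mod_cast this
  refine ⟨n, hn1, fun z hz => ⟨1, le_rfl, fun m hm _ => ?_⟩⟩
  have hm1 : (1 : ℝ) ≤ m := by exact_mod_cast hm
  have hm0 : (m : ℝ) ≠ 0 := by linarith
  have hw : Word S (List.replicate m s) := by
    intro x hx
    rw [List.eq_of_mem_replicate hx]
    exact Or.inl hs
  have hlen : ((List.replicate m s).length : ℝ) = m := by rw [List.length_replicate]
  have hdiv : ((m : ℝ) / m) ^ Z.p = 1 := by rw [div_self hm0, one_pow]
  obtain ⟨l', hw', hp, -, hl'⟩ := h2 m m ((1 + Cb) * m) hm1 le_rfl (by nlinarith)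
    (by rw [hdiv, mul_one]) (List.replicate m s) hw hlen.le
    (by
      refine ⟨m, ?_⟩
      rw [List.take_of_length_le (by rw [List.length_replicate]), CSum_co_prod,
        List.map_replicate, List.sum_replicate, nsmul_eq_mul]
      push_cast
      rw [abs_mul, abs_of_nonneg (by linarith : (0 : ℝ) ≤ m)]
      have h1 : (1 : ℝ) ≤ |(Z.co s Z.j0 : ℝ)| := by
        have := Int.one_le_abs hs0
        exact_mod_cast this
      nlinarith)
    (Z.pt (dil Z.W m z))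
    (by
      intro j
      have h1 := hbig m hm1 _ ⟨List.replicate m s, hlen.le, hw, rfl⟩ j
      rw [Z.co_pt]
      have hp0 : (0 : ℝ) ≤ (m : ℝ) ^ Z.W j := by positivity
      have h3 : 0 ≤ dil Z.W m z j := mul_nonneg hp0 (hz j).1
      have h4 : dil Z.W m z j ≤ (m : ℝ) ^ Z.W j := mul_le_of_le_one_right hp0 (hz j).2
      have h5 : (0 : ℝ) ≤ (⌊dil Z.W m z j⌋ : ℝ) := by exact_mod_cast Int.floor_nonneg.2 h3
      have h6 := Int.floor_le (dil Z.W m z j)
      have h7 := abs_sub (⌊dil Z.W m z j⌋ : ℝ) (Z.co (List.replicate m s).prod j : ℝ)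
      rw [abs_of_nonneg h5] at h7
      rw [mul_assoc, ← CLoc_pow _ _ (Z.W_pos j)]
      linarith)
  refine ⟨l', ?_, hw', hp⟩
  rw [hdiv, hlen] at hl'
  have h3 : (1 + C * (1 + Cb)) * m ≤ (n : ℝ) * m := mul_le_mul_of_nonneg_right hn (by linarith)
  linarith

end Pool.Agent.MP_b3b911_al.Fil

end

section

open MeasureTheory

namespace Pool.Agent.MP_b3b911_al.Fil

variable {G : Type*} [Group G] {S : Finset G} {J : Type} [Fintype J]

omit [Fintype J] in
theorem CBall_dil_dil (W : J → ℕ) (s t : ℝ) (z : J → ℝ) :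
    dil W s (dil W t z) = dil W (s * t) z := by
  funext j
  simp only [dil, mul_pow]
  ring

theorem CBall_meas_floor (W : J → ℕ) (t : ℝ) :
    Measurable fun z : J → ℝ => fun j => ⌊dil W t z j⌋ := by
  refine measurable_pi_lambda _ fun j => ?_
  refine Int.measurable_floor.comp ?_
  unfold dil
  exact (measurable_pi_apply j).const_mul _

theorem CBall_meas_pt (Z : Sys S J) (t : ℝ) (P : G → Prop) :
    MeasurableSet {z : J → ℝ | P (Z.pt (dil Z.W t z))} := by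
  have h : {z : J → ℝ | P (Z.pt (dil Z.W t z))} =
      (fun z : J → ℝ => fun j => ⌊dil Z.W t z j⌋) ⁻¹'
        {v : J → ℤ | P ((Equiv.ofBijective Z.co Z.bij).symm v)} := rfl
  rw [h]
  exact CBall_meas_floor Z.W t (Set.to_countable _).measurableSet

theorem CBall_pt_eq_iff (Z : Sys S J) (z : J → ℝ) (g : G) :
    Z.pt z = g ↔ ∀ j, ⌊z j⌋ = Z.co g j := by
  constructor
  · rintro rfl j
    exact (Z.co_pt z j).symm
  · intro h
    apply Z.bij.1
    funext j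
    rw [Z.co_pt, h j]

theorem Sys.meas_B (Z : Sys S J) (q : ℝ) : MeasurableSet (Z.B q) := by
  have h : Z.B q = ⋃ M : ℕ, ⋃ _ : 1 ≤ M, ⋂ m : ℕ, ⋂ _ : 1 ≤ m, ⋂ _ : M ∣ m,
      {z : J → ℝ | Ball S (q * m) (Z.pt (dil Z.W m z))} := by
    ext z
    simp only [Sys.B, Set.mem_setOf_eq, Set.mem_iUnion, Set.mem_iInter, exists_prop]
  rw [h]
  exact MeasurableSet.iUnion fun M => MeasurableSet.iUnion fun _ => MeasurableSet.iInter fun m =>
    MeasurableSet.iInter fun _ => MeasurableSet.iInter fun _ =>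
      CBall_meas_pt Z m (Ball S (q * m))

theorem Sys.mono_B (Z : Sys S J) : Monotone Z.B := by
  rintro q q' hq z ⟨M, hM, h⟩
  exact ⟨M, hM, fun m hm hd =>
    (h m hm hd).mono (mul_le_mul_of_nonneg_right hq (Nat.cast_nonneg m))⟩

theorem Sys.hom_B (Z : Sys S J) (a : ℕ) (ha : 1 ≤ a) (q : ℝ) (z : J → ℝ) :
    dil Z.W a z ∈ Z.B (a * q) ↔ z ∈ Z.B q := by
  constructor
  · rintro ⟨M, hM, h⟩
    refine ⟨a * M, Nat.one_le_iff_ne_zero.2 (Nat.mul_ne_zero (by omega) (by omega)),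
      fun m hm hd => ?_⟩
    obtain ⟨r, rfl⟩ := hd
    have h1 : 1 ≤ M * r := by
      rcases Nat.eq_zero_or_pos (M * r) with h0 | h0
      · rw [mul_assoc, h0] at hm
        omega
      · exact h0
    have h2 := h (M * r) h1 (Dvd.intro r rfl)
    rw [CBall_dil_dil] at h2
    have e1 : (((M * r : ℕ) : ℝ)) * (a : ℝ) = ((a * M * r : ℕ) : ℝ) := by
      push_cast
      ring
    have e2 : (a : ℝ) * q * ((M * r : ℕ) : ℝ) = q * ((a * M * r : ℕ) : ℝ) := by
      push_cast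
      ring
    rwa [e1, e2] at h2
  · rintro ⟨M, hM, h⟩
    refine ⟨M, hM, fun m hm hd => ?_⟩
    have h1 : 1 ≤ m * a := Nat.one_le_iff_ne_zero.2 (Nat.mul_ne_zero (by omega) (by omega))
    have h2 := h (m * a) h1 (hd.mul_right a)
    rw [CBall_dil_dil]
    have e1 : (m : ℝ) * (a : ℝ) = ((m * a : ℕ) : ℝ) := by
      push_cast
      ring
    have e2 : (a : ℝ) * q * (m : ℝ) = q * ((m * a : ℕ) : ℝ) := by
      push_cast
      ring
    rwa [e1, e2]

theorem Sys.nonneg_B (Z : Sys S J) {q : ℝ} {z : J → ℝ} (h : z ∈ Z.B q) : 0 ≤ q := by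
  obtain ⟨M, hM, h⟩ := h
  obtain ⟨l, hl, -, -⟩ := h M hM dvd_rfl
  have h1 : (0 : ℝ) ≤ q * M := (Nat.cast_nonneg _).trans hl
  have h2 : (0 : ℝ) < M := by exact_mod_cast hM
  exact nonneg_of_mul_nonneg_left h1 h2

theorem Sys.vol_D (Z : Sys S J) (k : ℕ) : volume.real (Z.D k) = growth S k := by
  classical
  set T : Finset G := (ball_finite S (k : ℝ)).toFinset with hT
  let Q : G → Set (J → ℝ) := fun g =>
    Set.pi Set.univ fun j => Set.Ico ((Z.co g j : ℤ) : ℝ) (((Z.co g j : ℤ) : ℝ) + 1)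
  have hQ : ∀ g z, z ∈ Q g ↔ Z.pt z = g := by
    intro g z
    rw [CBall_pt_eq_iff]
    simp only [Q, Set.mem_pi, Set.mem_univ, true_imp_iff, Set.mem_Ico, Int.floor_eq_iff]
  have hD : Z.D k = ⋃ g ∈ T, Q g := by
    ext z
    simp only [Sys.D, Set.mem_setOf_eq, Set.mem_iUnion, hQ, hT, Set.Finite.mem_toFinset,
      exists_prop, exists_eq_right']
  have hmeas : ∀ g, MeasurableSet (Q g) := fun g =>
    MeasurableSet.univ_pi fun j => measurableSet_Ico
  have hvol : ∀ g, volume (Q g) = 1 := by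
    intro g
    simp only [Q]
    rw [Real.volume_pi_Ico]
    simp
  have hdisj : (T : Set G).PairwiseDisjoint Q := by
    intro g _ g' _ hne
    refine Set.disjoint_left.2 fun z hz hz' => hne ?_
    rw [← (hQ g z).1 hz, ← (hQ g' z).1 hz']
  rw [measureReal_def, hD, measure_biUnion_finset hdisj fun g _ => hmeas g, growth_eq,
    Set.ncard_eq_toFinset_card _ (ball_finite S (k : ℝ))]
  simp [hvol, hT]

end Pool.Agent.MP_b3b911_al.Fil

end

section

open MeasureTheory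

namespace Pool.Agent.MP_b3b911_al.Fil

variable {J : Type} [Fintype J] {W : J → ℕ} {B : ℝ → Set (J → ℝ)}

theorem CShell_pre (W : J → ℕ) {t : ℝ} (ht : 0 < t) (s : Set (J → ℝ)) :
    volume (dil W t ⁻¹' s) = ENNReal.ofReal (t ^ (∑ j, W j))⁻¹ * volume s := by
  classical
  have hdet : LinearMap.det (Matrix.toLin' (Matrix.diagonal fun j => t ^ W j)) =
      t ^ (∑ j, W j) := by
    rw [LinearMap.det_toLin', Matrix.det_diagonal, Finset.prod_pow_eq_pow_sum]
  have hpos : 0 < t ^ (∑ j, W j) := pow_pos ht _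
  have hfun : (Matrix.toLin' (Matrix.diagonal fun j => t ^ W j) : (J → ℝ) → J → ℝ) =
      dil W t := by
    funext z j
    simp [dil, Matrix.toLin'_apply, Matrix.mulVec_diagonal]
  have := Measure.addHaar_preimage_linearMap (volume : Measure (J → ℝ))
    (f := Matrix.toLin' (Matrix.diagonal fun j => t ^ W j)) (by rw [hdet]; exact hpos.ne') s
  rw [hfun, hdet, abs_of_pos (inv_pos.2 hpos)] at this
  exact this

theorem CShell_pre_real (W : J → ℕ) {t : ℝ} (ht : 0 < t) (s : Set (J → ℝ)) :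
    volume.real (dil W t ⁻¹' s) = (t ^ (∑ j, W j))⁻¹ * volume.real s := by
  simp only [Measure.real]
  rw [CShell_pre W ht, ENNReal.toReal_mul,
    ENNReal.toReal_ofReal (inv_pos.2 (pow_pos ht _)).le]

omit [Fintype J] in
theorem CShell_dil_dil (W : J → ℕ) (s t : ℝ) (z : J → ℝ) :
    dil W s (dil W t z) = dil W (s * t) z := by
  funext j
  simp only [dil, mul_pow, mul_assoc]

theorem CShell_rat (h : Fam W B) (a b : ℕ) (ha : 1 ≤ a) (hb : 1 ≤ b) (z : J → ℝ)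
    (hz : z ∈ B b) : dil W ((a : ℝ) / b) z ∈ B a := by
  have hb' : (b : ℝ) ≠ 0 := by positivity
  rw [← h.hom b hb, CShell_dil_dil, mul_div_cancel₀ _ hb', mul_comm]
  exact (h.hom a ha b z).2 hz

theorem Fam.vol_nat (h : Fam W B) (k : ℕ) (hk : 1 ≤ k) :
    volume.real (B k) = (k : ℝ) ^ (∑ j, W j) * volume.real (B 1) := by
  have hk' : (0 : ℝ) < k := by exact_mod_cast hk
  have e : B 1 = dil W k ⁻¹' B k := by
    ext z
    have := h.hom k hk 1 z
    rw [mul_one] at this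
    exact this.symm
  rw [e, CShell_pre_real W hk', mul_inv_cancel_left₀ (pow_pos hk' _).ne']

theorem Fam.shell (h : Fam W B) {P : Set (J → ℝ)} (hP : MeasurableSet P) (hfin : volume P ≠ ⊤)
    (hc : ∀ t : ℝ, 0 < t → t ≤ 1 → ∀ z ∈ P, dil W t z ∈ P) (a b : ℕ) (ha : 1 ≤ a) (hab : a ≤ b) :
    volume.real (P ∩ (B b \ B a)) ≤ (((b : ℝ) / a) ^ (∑ j, W j) - 1) * volume.real P := by
  have ha' : (0 : ℝ) < a := by exact_mod_cast ha
  have hab' : (a : ℝ) ≤ b := by exact_mod_cast hab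
  have hb' : (0 : ℝ) < b := ha'.trans_le hab'
  have ht : (0 : ℝ) < (a : ℝ) / b := div_pos ha' hb'
  have hfa : volume (P ∩ B a) ≠ ⊤ := ne_top_of_le_ne_top hfin (measure_mono Set.inter_subset_left)
  have hfb : volume (P ∩ B b) ≠ ⊤ := ne_top_of_le_ne_top hfin (measure_mono Set.inter_subset_left)
  have hsub : P ∩ B b ⊆ dil W ((a : ℝ) / b) ⁻¹' (P ∩ B a) := fun z hz =>
    ⟨hc _ ht ((div_le_one hb').2 hab') z hz.1, CShell_rat h a b ha (ha.trans hab) z hz.2⟩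
  have h1 : volume.real (P ∩ B b) ≤ ((b : ℝ) / a) ^ (∑ j, W j) * volume.real (P ∩ B a) := by
    have := measureReal_mono (μ := volume) hsub (by
      rw [CShell_pre W ht]
      exact ENNReal.mul_ne_top ENNReal.ofReal_ne_top hfa)
    rwa [CShell_pre_real W ht, ← inv_pow, inv_div] at this
  have e : P ∩ (B b \ B a) = (P ∩ B b) \ (P ∩ B a) := by
    ext z
    simp only [Set.mem_inter_iff, Set.mem_sdiff]
    tauto
  have h2 : volume.real (P ∩ (B b \ B a)) = volume.real (P ∩ B b) - volume.real (P ∩ B a) := by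
    rw [e]
    exact measureReal_sdiff (Set.inter_subset_inter_right _ (h.mono hab')) (hP.inter (h.meas _)) hfb
  have h3 : volume.real (P ∩ B a) ≤ volume.real P := measureReal_mono Set.inter_subset_left hfin
  have h4 : 0 ≤ ((b : ℝ) / a) ^ (∑ j, W j) - 1 :=
    sub_nonneg.2 (one_le_pow₀ ((one_le_div ha').2 hab'))
  have h5 := mul_le_mul_of_nonneg_left h3 h4
  rw [h2]
  linarith

end Pool.Agent.MP_b3b911_al.Fil

end

section

open MeasureTheory

namespace Pool.Agent.MP_b3b911_al.Fil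

variable {J : Type} [Fintype J]

omit [Fintype J] in
theorem CBox_eq (r : J → ℝ) : {z : J → ℝ | ∀ j, |z j| ≤ r j} = Set.Icc (fun j => -r j) r := by
  ext z
  simp only [Set.mem_ofPred_eq, Set.mem_Icc, Pi.le_def, abs_le, forall_and]

theorem CBox_fin (r : J → ℝ) : volume {z : J → ℝ | ∀ j, |z j| ≤ r j} ≠ ⊤ := by
  rw [CBox_eq]
  exact isCompact_Icc.measure_lt_top.ne

theorem CBox_vol (r : J → ℝ) (hr : ∀ j, 0 ≤ r j) :
    volume.real {z : J → ℝ | ∀ j, |z j| ≤ r j} = ∏ j, 2 * r j := by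
  rw [CBox_eq, measureReal_def, Real.volume_Icc_pi_toReal fun j => by linarith [hr j]]
  exact Finset.prod_congr rfl fun j _ => by ring

theorem meas_Box (W : J → ℕ) (j0 : J) (A L K : ℝ) : MeasurableSet (Box W j0 A L K) := by
  have h1 : IsClosed {z : J → ℝ | |z j0| ≤ A * L} := isClosed_le (by fun_prop) continuous_const
  have h2 : IsClosed {z : J → ℝ | ∀ j, |z j| ≤ A * K * L ^ (W j - 1)} := by
    rw [CBox_eq]
    exact isClosed_Icc
  exact (h1.inter h2).measurableSet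

theorem dil_Box (W : J → ℕ) (j0 : J) (A L K t : ℝ) (ht : 0 < t) (ht1 : t ≤ 1) :
    ∀ z ∈ Box W j0 A L K, dil W t z ∈ Box W j0 A L K := by
  intro z hz
  have h : ∀ j, |dil W t z j| ≤ |z j| := fun j => by
    rw [dil, abs_mul, abs_of_pos (pow_pos ht _)]
    exact mul_le_of_le_one_left (abs_nonneg _) (pow_le_one₀ ht.le ht1)
  exact ⟨(h j0).trans hz.1, fun j => (h j).trans (hz.2 j)⟩

theorem fin_Box (W : J → ℕ) (j0 : J) (A L K : ℝ) : volume (Box W j0 A L K) ≠ ⊤ :=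
  ne_top_of_le_ne_top (CBox_fin fun j => A * K * L ^ (W j - 1)) (measure_mono fun _ hz => hz.2)

theorem fin_Thin (W : J → ℕ) (A K : ℝ) : volume (Thin W A K) ≠ ⊤ :=
  ne_top_of_le_ne_top (CBox_fin fun j => A * K ^ W j) (measure_mono fun _ hz => hz.1)

theorem fin_big (W : J → ℕ) (A K : ℝ) : volume {z : J → ℝ | ∀ j, |z j| ≤ A * K ^ W j} ≠ ⊤ :=
  CBox_fin _

/-- the volume of the box times the relative cost -/
theorem vol_Box (W : J → ℕ) (hW : ∀ j, 1 ≤ W j) (j0 : J) (hj0 : W j0 = 1) (p : ℕ)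
    (hp : p + Fintype.card J ≤ ∑ j, W j) (A : ℝ) (hA : 0 ≤ A) : ∃ C : ℝ, 0 ≤ C ∧
    ∀ L K : ℝ, 1 ≤ L → L ≤ K →
      (K / L) ^ p / K * volume.real (Box W j0 A L K) ≤ C * (L / K) * K ^ (∑ j, W j - 1) := by
  classical
  refine ⟨(2 * A) ^ Fintype.card J, by positivity, fun L K hL hK => ?_⟩
  have L0 : 0 < L := by linarith
  have K0 : 0 < K := by linarith
  obtain ⟨e, he⟩ := Nat.exists_eq_add_of_le hp
  obtain ⟨m, hm⟩ : ∃ m, Fintype.card J = m + 1 :=
    ⟨Fintype.card J - 1, by have := Fintype.card_pos_iff.2 ⟨j0⟩; omega⟩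
  have hc : (Finset.univ.erase j0).card = m := by
    rw [Finset.card_erase_of_mem (Finset.mem_univ _), Finset.card_univ, hm]
    rfl
  have hs : ∑ j ∈ Finset.univ.erase j0, (W j - 1) = p + e := by
    have h1 : ∑ j ∈ Finset.univ.erase j0, (W j - 1 + 1) = ∑ j ∈ Finset.univ.erase j0, W j :=
      Finset.sum_congr rfl fun j _ => Nat.sub_add_cancel (hW j)
    have h2 := Finset.add_sum_erase Finset.univ W (Finset.mem_univ j0)
    rw [Finset.sum_add_distrib, Finset.sum_const, hc, smul_eq_mul] at h1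
    omega
  let r : J → ℝ := fun j => if j = j0 then A * L else A * K * L ^ (W j - 1)
  have hr : ∀ j, 0 ≤ r j := fun j => by
    simp only [r]
    split_ifs <;> positivity
  have h1 : volume.real (Box W j0 A L K) ≤ ∏ j, 2 * r j := by
    rw [← CBox_vol r hr]
    refine measureReal_mono (fun z hz j => ?_) (CBox_fin r)
    simp only [r]
    split_ifs with h
    · rw [h]; exact hz.1
    · exact hz.2 j
  have h2 : ∏ j, 2 * r j = (2 * A) ^ (m + 1) * L * K ^ m * L ^ (p + e) := by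
    rw [← Finset.mul_prod_erase _ _ (Finset.mem_univ j0), Finset.prod_congr rfl
      (g := fun j => 2 * A * K * L ^ (W j - 1)) fun j hj => by
        simp only [r, if_neg (Finset.ne_of_mem_erase hj)]; ring,
      Finset.prod_mul_distrib, Finset.prod_const, hc, Finset.prod_pow_eq_pow_sum, hs]
    simp only [r, if_true]
    ring
  have h3 : ∑ j, W j - 1 = m + p + e := by omega
  rw [h3, hm]
  calc (K / L) ^ p / K * volume.real (Box W j0 A L K)
      ≤ (K / L) ^ p / K * ((2 * A) ^ (m + 1) * L * K ^ m * L ^ (p + e)) := by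
        rw [← h2]; gcongr
    _ = (2 * A) ^ (m + 1) * (L / K) * (K ^ (m + p) * L ^ e) := by
        rw [div_pow]; field_simp; ring
    _ ≤ (2 * A) ^ (m + 1) * (L / K) * (K ^ (m + p) * K ^ e) := by gcongr
    _ = (2 * A) ^ (m + 1) * (L / K) * K ^ (m + p + e) := by ring

theorem vol_Thin (W : J → ℕ) (hW : ∀ j, 1 ≤ W j) (A : ℝ) (hA : 0 ≤ A) : ∃ C : ℝ, 0 ≤ C ∧
    ∀ K : ℝ, 1 ≤ K → volume.real (Thin W A K) ≤ C * K ^ (∑ j, W j - 1) := by
  classical
  refine ⟨Fintype.card J * (2 * A) ^ Fintype.card J, by positivity, fun K hK => ?_⟩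
  have K0 : 0 < K := by linarith
  let r : J → J → ℝ := fun j i => A * K ^ (if i = j then W i - 1 else W i)
  have hr : ∀ j i, 0 ≤ r j i := fun j i => by positivity
  have h1 : Thin W A K ⊆ ⋃ j, {z : J → ℝ | ∀ i, |z i| ≤ r j i} := by
    rintro z ⟨h, j, hj⟩
    refine Set.mem_iUnion.2 ⟨j, fun i => ?_⟩
    simp only [r]
    split_ifs with e
    · rw [e]; exact hj
    · exact h i
  have h2 : ∀ j, volume.real {z : J → ℝ | ∀ i, |z i| ≤ r j i} =
      (2 * A) ^ Fintype.card J * K ^ (∑ j, W j - 1) := fun j => by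
    have h3 : ∑ i, (if i = j then W i - 1 else W i) = ∑ j, W j - 1 := by
      have k1 := Finset.add_sum_erase Finset.univ W (Finset.mem_univ j)
      have k2 := Finset.add_sum_erase Finset.univ (fun i => if i = j then W i - 1 else W i)
        (Finset.mem_univ j)
      rw [Finset.sum_congr rfl (g := W) fun i hi => if_neg (Finset.ne_of_mem_erase hi),
        if_pos rfl] at k2
      have := hW j
      rw [← k2, show ∑ j, W j = _ from k1.symm]
      generalize (Finset.univ.erase j).sum W = s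
      omega
    rw [CBox_vol _ (hr j), ← h3, ← Finset.prod_pow_eq_pow_sum, ← Finset.card_univ,
      ← Finset.prod_const, ← Finset.prod_mul_distrib]
    exact Finset.prod_congr rfl fun i _ => by simp only [r]; ring
  calc volume.real (Thin W A K)
      ≤ volume.real (⋃ j, {z : J → ℝ | ∀ i, |z i| ≤ r j i}) :=
        measureReal_mono h1 (by
          refine ne_top_of_le_ne_top ?_ (measure_iUnion_fintype_le _ _)
          exact (ENNReal.sum_lt_top.2 fun j _ => (CBox_fin _).lt_top).ne)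
    _ ≤ ∑ j, volume.real {z : J → ℝ | ∀ i, |z i| ≤ r j i} := measureReal_iUnion_fintype_le _
    _ = Fintype.card J * (2 * A) ^ Fintype.card J * K ^ (∑ j, W j - 1) := by
        simp only [h2, Finset.sum_const, Finset.card_univ, nsmul_eq_mul]
        ring

end Pool.Agent.MP_b3b911_al.Fil

end

section

open MeasureTheory

namespace Pool.Agent.MP_b3b911_al.Fil

variable {J : Type} [Fintype J] {W : J → ℕ} {B : ℝ → Set (J → ℝ)}

theorem CDyad_geo (k : ℕ) (hk : 1 ≤ k) :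
    ∑ i ∈ (Finset.range k).filter (fun i => (2 : ℝ) ^ i ≤ k), (2 : ℝ) ^ i / k ≤ 2 := by
  have hk0 : (0 : ℝ) < k := by exact_mod_cast hk
  rw [← Finset.sum_div, div_le_iff₀ hk0]
  have hsub : (Finset.range k).filter (fun i => (2 : ℝ) ^ i ≤ k) ⊆
      Finset.range (Nat.log 2 k + 1) := by
    intro i hi
    have h1 : (2 : ℝ) ^ i ≤ k := (Finset.mem_filter.1 hi).2
    have h2 : 2 ^ i ≤ k := by exact_mod_cast h1
    exact Finset.mem_range.2 (Nat.lt_succ_of_le (Nat.le_log_of_pow_le (by norm_num) h2))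
  have h3 : ∑ i ∈ Finset.range (Nat.log 2 k + 1), (2 : ℝ) ^ i = 2 ^ (Nat.log 2 k + 1) - 1 := by
    rw [geom_sum_eq (by norm_num)]
    norm_num
  have h4 : (2 : ℝ) ^ (Nat.log 2 k) ≤ k := by
    exact_mod_cast Nat.pow_log_le_self 2 (by omega : k ≠ 0)
  calc ∑ i ∈ (Finset.range k).filter (fun i => (2 : ℝ) ^ i ≤ k), (2 : ℝ) ^ i
      ≤ ∑ i ∈ Finset.range (Nat.log 2 k + 1), (2 : ℝ) ^ i :=
        Finset.sum_le_sum_of_subset_of_nonneg hsub (fun _ _ _ => by positivity)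
    _ = 2 ^ (Nat.log 2 k + 1) - 1 := h3
    _ ≤ 2 * k := by rw [pow_succ]; linarith

theorem CDyad_pow (x M : ℝ) (hx : 0 ≤ x) (hM : x ≤ M) (d : ℕ) :
    (1 + x) ^ d - 1 ≤ d * (1 + M) ^ d * x := by
  induction d with
  | zero => simp
  | succ d ih =>
    have h1 : (1 : ℝ) ≤ (1 + M) ^ (d + 1) := one_le_pow₀ (by linarith)
    have h2 : 0 ≤ (d : ℝ) * (1 + M) ^ d * x := by
      have : (0 : ℝ) ≤ 1 + M := by linarith
      positivity
    have h3 : (1 + x) * ((1 + x) ^ d - 1) ≤ (1 + M) * ((d : ℝ) * (1 + M) ^ d * x) :=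
      (mul_le_mul_of_nonneg_left ih (by linarith)).trans
        (mul_le_mul_of_nonneg_right (by linarith) h2)
    have h4 : x ≤ (1 + M) ^ (d + 1) * x := le_mul_of_one_le_left hx h1
    push_cast
    calc (1 + x) ^ (d + 1) - 1 = (1 + x) * ((1 + x) ^ d - 1) + x := by ring
      _ ≤ (1 + M) * ((d : ℝ) * (1 + M) ^ d * x) + (1 + M) ^ (d + 1) * x := add_le_add h3 h4
      _ = ((d : ℝ) + 1) * (1 + M) ^ (d + 1) * x := by ring

theorem CDyad_cover (hW : ∀ j, 1 ≤ W j) (j0 : J) (hj0 : W j0 = 1) (p : ℕ)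
    (hp : p + Fintype.card J ≤ ∑ j, W j) (A C1 : ℝ) (hA : 0 ≤ A) (hC1 : 0 ≤ C1) :
    ∃ C' : ℝ, ∀ k : ℕ, 1 ≤ k → ∀ (X Y : Set (J → ℝ)) (U : ℕ → Set (J → ℝ)), volume Y ≠ ⊤ →
      (∀ i, U i ⊆ Box W j0 A (2 ^ i) k) →
      (∀ i, (2 : ℝ) ^ i ≤ k → volume.real (U i) ≤
        C1 * (((k : ℝ) / 2 ^ i) ^ p / k) * volume.real (Box W j0 A (2 ^ i) k)) →
      (∀ z ∈ X, z ∈ Y ∨ z ∈ Thin W A k ∨ ∃ i : ℕ, (2 : ℝ) ^ i ≤ k ∧ z ∈ U i) →
      volume X ≠ ⊤ ∧ volume.real X ≤ volume.real Y + C' * (k : ℝ) ^ (∑ j, W j - 1) := by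
  classical
  obtain ⟨Cb, hCb, hb⟩ := vol_Box W hW j0 hj0 p hp A hA
  obtain ⟨Ct, _, ht⟩ := vol_Thin W hW A hA
  refine ⟨Ct + C1 * Cb * 2, fun k hk X Y U hY hU hv hX => ?_⟩
  have hk1 : (1 : ℝ) ≤ k := by exact_mod_cast hk
  set I := (Finset.range k).filter (fun i => (2 : ℝ) ^ i ≤ k) with hI
  have hsub : X ⊆ (Y ∪ Thin W A k) ∪ ⋃ i ∈ I, U i := by
    intro z hz
    rcases hX z hz with h | h | ⟨i, hi, h⟩
    · exact Or.inl (Or.inl h)
    · exact Or.inl (Or.inr h)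
    · refine Or.inr (Set.mem_biUnion (Finset.mem_coe.2 (Finset.mem_filter.2 ⟨?_, hi⟩)) h)
      have h2 : 2 ^ i ≤ k := by exact_mod_cast hi
      exact Finset.mem_range.2 (lt_of_lt_of_le (Nat.lt_two_pow_self) h2)
  have hUf : ∀ i, volume (U i) ≠ ⊤ := fun i =>
    ne_top_of_le_ne_top (fin_Box W j0 A (2 ^ i) k) (measure_mono (hU i))
  have hf1 : volume (⋃ i ∈ I, U i) ≠ ⊤ :=
    ne_top_of_le_ne_top (ENNReal.sum_ne_top.2 fun i _ => hUf i) (measure_biUnion_finset_le I U)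
  have hf2 : volume (Y ∪ Thin W A k) ≠ ⊤ := measure_union_ne_top hY (fin_Thin W A k)
  have hf : volume ((Y ∪ Thin W A k) ∪ ⋃ i ∈ I, U i) ≠ ⊤ := measure_union_ne_top hf2 hf1
  refine ⟨ne_top_of_le_ne_top hf (measure_mono hsub), ?_⟩
  have hP : 0 ≤ (k : ℝ) ^ (∑ j, W j - 1) := by positivity
  have h1 : volume.real (⋃ i ∈ I, U i) ≤ C1 * Cb * 2 * (k : ℝ) ^ (∑ j, W j - 1) := by
    calc volume.real (⋃ i ∈ I, U i) ≤ ∑ i ∈ I, volume.real (U i) :=
          measureReal_biUnion_finset_le I U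
      _ ≤ ∑ i ∈ I, C1 * Cb * (k : ℝ) ^ (∑ j, W j - 1) * ((2 : ℝ) ^ i / k) := by
          refine Finset.sum_le_sum fun i hi => ?_
          have hi' : (2 : ℝ) ^ i ≤ k := (Finset.mem_filter.1 hi).2
          have h2 := hb (2 ^ i) k (one_le_pow₀ (by norm_num)) hi'
          calc volume.real (U i)
              ≤ C1 * (((k : ℝ) / 2 ^ i) ^ p / k) * volume.real (Box W j0 A (2 ^ i) k) := hv i hi'
            _ = C1 * (((k : ℝ) / 2 ^ i) ^ p / k * volume.real (Box W j0 A (2 ^ i) k)) := by ring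
            _ ≤ C1 * (Cb * ((2 : ℝ) ^ i / k) * (k : ℝ) ^ (∑ j, W j - 1)) :=
                mul_le_mul_of_nonneg_left h2 hC1
            _ = C1 * Cb * (k : ℝ) ^ (∑ j, W j - 1) * ((2 : ℝ) ^ i / k) := by ring
      _ = C1 * Cb * (k : ℝ) ^ (∑ j, W j - 1) * ∑ i ∈ I, ((2 : ℝ) ^ i / k) := by
          rw [Finset.mul_sum]
      _ ≤ C1 * Cb * (k : ℝ) ^ (∑ j, W j - 1) * 2 :=
          mul_le_mul_of_nonneg_left (CDyad_geo k hk) (by positivity)
      _ = C1 * Cb * 2 * (k : ℝ) ^ (∑ j, W j - 1) := by ring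
  have h2 := ht k hk1
  calc volume.real X ≤ volume.real ((Y ∪ Thin W A k) ∪ ⋃ i ∈ I, U i) := measureReal_mono hsub hf
    _ ≤ volume.real (Y ∪ Thin W A k) + volume.real (⋃ i ∈ I, U i) := measureReal_union_le _ _
    _ ≤ (volume.real Y + volume.real (Thin W A k)) + volume.real (⋃ i ∈ I, U i) :=
        add_le_add_left (measureReal_union_le _ _) _
    _ ≤ volume.real Y + (Ct + C1 * Cb * 2) * (k : ℝ) ^ (∑ j, W j - 1) := by linarith

theorem CDyad_lam (k i p : ℕ) (hi : (2 : ℝ) ^ i ≤ k) : (1 : ℝ) ≤ ((k : ℝ) / 2 ^ i) ^ p :=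
  one_le_pow₀ ((one_le_div (by positivity)).2 hi)

theorem CDyad_ceil (C l : ℝ) (hC : 0 ≤ C) (hl : 1 ≤ l) : (⌈C * l⌉₊ : ℝ) ≤ (C + 1) * l := by
  have h1 := (Nat.ceil_lt_add_one (mul_nonneg hC (by linarith : (0 : ℝ) ≤ l))).le
  linarith

theorem Fam.dyad_up (h : Fam W B) (hW : ∀ j, 1 ≤ W j) (j0 : J) (hj0 : W j0 = 1) (p : ℕ)
    (hp : p + Fintype.card J ≤ ∑ j, W j) (A C : ℝ) (hA : 0 ≤ A) (hC : 0 ≤ C) :
    ∃ C' : ℝ, ∀ k : ℕ, 1 ≤ k → ∀ D : Set (J → ℝ),
      (∀ z ∈ D, z ∈ Thin W A k ∨ ∃ i : ℕ, (2 : ℝ) ^ i ≤ k ∧ z ∈ Box W j0 A (2 ^ i) k ∧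
        (((k : ℝ) / 2 ^ i) ^ p ≤ k → z ∈ B (k + C * ((k : ℝ) / 2 ^ i) ^ p))) →
      volume D ≠ ⊤ ∧ volume.real D ≤
        (k : ℝ) ^ (∑ j, W j) * volume.real (B 1) + C' * (k : ℝ) ^ (∑ j, W j - 1) := by
  classical
  set d := ∑ j, W j with hd
  set C1 : ℝ := 1 + d * (1 + (C + 1)) ^ d * (C + 1) with hC1
  have hC1' : 0 ≤ (d : ℝ) * (1 + (C + 1)) ^ d * (C + 1) := by positivity
  obtain ⟨C', hC'⟩ := CDyad_cover hW j0 hj0 p hp A C1 hA (by linarith)
  refine ⟨C', fun k hk D hD => ?_⟩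
  have hk0 : (0 : ℝ) < k := by exact_mod_cast hk
  have key := hC' k hk D (B k)
    (fun i => if ((k : ℝ) / 2 ^ i) ^ p ≤ k then Box W j0 A (2 ^ i) k ∩
      (B ((k + ⌈C * ((k : ℝ) / 2 ^ i) ^ p⌉₊ : ℕ) : ℝ) \ B k) else Box W j0 A (2 ^ i) k)
    (h.fin _) ?_ ?_ ?_
  · rwa [h.vol_nat k hk] at key
  · intro i
    split_ifs
    · exact Set.inter_subset_left
    · exact le_rfl
  · intro i hi
    have hl := CDyad_lam k i p hi
    have hce := CDyad_ceil C _ hC hl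
    set l : ℝ := ((k : ℝ) / 2 ^ i) ^ p
    have hv : 0 ≤ volume.real (Box W j0 A (2 ^ i) k) := measureReal_nonneg
    have hlk : 0 ≤ l / k := by positivity
    split_ifs with hc
    · have h1 := h.shell (meas_Box W j0 A (2 ^ i) k) (fin_Box W j0 A (2 ^ i) k)
        (fun t ht ht1 => dil_Box W j0 A (2 ^ i) k t ht ht1) k (k + ⌈C * l⌉₊) hk
        (Nat.le_add_right _ _)
      refine h1.trans (mul_le_mul_of_nonneg_right ?_ hv)
      have h2 : ((k + ⌈C * l⌉₊ : ℕ) : ℝ) / k = 1 + (⌈C * l⌉₊ : ℝ) / k := by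
        push_cast
        field_simp
      have h3 : (⌈C * l⌉₊ : ℝ) / k ≤ (C + 1) * (l / k) := by
        rw [← mul_div_assoc]
        exact div_le_div_of_nonneg_right hce hk0.le
      have h4 : l / k ≤ 1 := (div_le_one hk0).2 hc
      have h5 : (⌈C * l⌉₊ : ℝ) / k ≤ C + 1 :=
        h3.trans (mul_le_of_le_one_right (by linarith) h4)
      rw [h2]
      refine (CDyad_pow _ _ (by positivity) h5 d).trans ?_
      calc (d : ℝ) * (1 + (C + 1)) ^ d * ((⌈C * l⌉₊ : ℝ) / k)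
          ≤ (d : ℝ) * (1 + (C + 1)) ^ d * ((C + 1) * (l / k)) :=
            mul_le_mul_of_nonneg_left h3 (by positivity)
        _ = (d : ℝ) * (1 + (C + 1)) ^ d * (C + 1) * (l / k) := by ring
        _ ≤ C1 * (l / k) := mul_le_mul_of_nonneg_right (by linarith) hlk
    · have h4 : 1 ≤ l / k := (one_le_div hk0).2 (not_le.1 hc).le
      have h5 : 1 ≤ C1 * (l / k) := one_le_mul_of_one_le_of_one_le (by linarith) h4
      exact le_mul_of_one_le_left hv h5
  · intro z hz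
    by_cases hzk : z ∈ B k
    · exact Or.inl hzk
    rcases hD z hz with h1 | ⟨i, hi, h1, h2⟩
    · exact Or.inr (Or.inl h1)
    · refine Or.inr (Or.inr ⟨i, hi, ?_⟩)
      split_ifs with hc
      · refine ⟨h1, h.mono ?_ (h2 hc), hzk⟩
        push_cast
        linarith [Nat.le_ceil (C * ((k : ℝ) / 2 ^ i) ^ p)]
      · exact h1

theorem Fam.dyad_low (h : Fam W B) (hW : ∀ j, 1 ≤ W j) (j0 : J) (hj0 : W j0 = 1) (p : ℕ)
    (hp : p + Fintype.card J ≤ ∑ j, W j) (A C : ℝ) (hA : 0 ≤ A) (hC : 0 ≤ C) :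
    ∃ C' : ℝ, ∀ k : ℕ, 1 ≤ k → ∀ D : Set (J → ℝ), volume D ≠ ⊤ →
      (∀ z ∈ B k, z ∉ D → z ∈ Thin W A k ∨ ∃ i : ℕ, (2 : ℝ) ^ i ≤ k ∧ z ∈ Box W j0 A (2 ^ i) k ∧
        (((k : ℝ) / 2 ^ i) ^ p ≤ k → z ∉ B (k - C * ((k : ℝ) / 2 ^ i) ^ p))) →
      (k : ℝ) ^ (∑ j, W j) * volume.real (B 1) ≤
        volume.real D + C' * (k : ℝ) ^ (∑ j, W j - 1) := by
  classical
  set d := ∑ j, W j with hd
  set C1 : ℝ := 2 * (C + 1) + d * (1 + 1) ^ d * (2 * (C + 1)) with hC1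
  have hC1' : 0 ≤ (d : ℝ) * (1 + 1) ^ d * (2 * (C + 1)) := by positivity
  obtain ⟨C', hC'⟩ := CDyad_cover hW j0 hj0 p hp A C1 hA (by linarith)
  refine ⟨C', fun k hk D hDf hD => ?_⟩
  have hk0 : (0 : ℝ) < k := by exact_mod_cast hk
  have key := hC' k hk (B k) D
    (fun i => if ((k : ℝ) / 2 ^ i) ^ p ≤ k ∧ 2 * ⌈C * ((k : ℝ) / 2 ^ i) ^ p⌉₊ ≤ k then
      Box W j0 A (2 ^ i) k ∩ (B k \ B ((k - ⌈C * ((k : ℝ) / 2 ^ i) ^ p⌉₊ : ℕ) : ℝ))
      else Box W j0 A (2 ^ i) k)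
    hDf ?_ ?_ ?_
  · have h2 := key.2
    rwa [h.vol_nat k hk] at h2
  · intro i
    split_ifs
    · exact Set.inter_subset_left
    · exact le_rfl
  · intro i hi
    have hl := CDyad_lam k i p hi
    have hce := CDyad_ceil C _ hC hl
    set l : ℝ := ((k : ℝ) / 2 ^ i) ^ p
    set n : ℕ := ⌈C * l⌉₊
    have hv : 0 ≤ volume.real (Box W j0 A (2 ^ i) k) := measureReal_nonneg
    have hlk : 0 ≤ l / k := by positivity
    split_ifs with hc
    · obtain ⟨_, hc2⟩ := hc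
      have h1 := h.shell (meas_Box W j0 A (2 ^ i) k) (fin_Box W j0 A (2 ^ i) k)
        (fun t ht ht1 => dil_Box W j0 A (2 ^ i) k t ht ht1) (k - n) k (by omega) (Nat.sub_le _ _)
      refine h1.trans (mul_le_mul_of_nonneg_right ?_ hv)
      have hnk : 2 * (n : ℝ) ≤ k := by exact_mod_cast hc2
      have hn0 : (0 : ℝ) ≤ n := Nat.cast_nonneg n
      have hcast : ((k - n : ℕ) : ℝ) = k - n := Nat.cast_sub (by omega)
      have hpos : (0 : ℝ) < k - n := by linarith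
      have h2 : (k : ℝ) / ((k - n : ℕ) : ℝ) = 1 + (n : ℝ) / (k - n) := by
        rw [hcast]
        field_simp
        ring
      have h5 : (n : ℝ) / (k - n) ≤ 1 := (div_le_one hpos).2 (by linarith)
      have h3 : (n : ℝ) / (k - n) ≤ 2 * (C + 1) * (l / k) := by
        have h6 : (n : ℝ) / (k - n) ≤ 2 * n / k := by
          rw [div_le_div_iff₀ hpos hk0]
          nlinarith
        refine h6.trans ?_
        rw [← mul_div_assoc]
        exact div_le_div_of_nonneg_right (by linarith) hk0.le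
      rw [h2]
      refine (CDyad_pow _ _ (by positivity) h5 d).trans ?_
      calc (d : ℝ) * (1 + 1) ^ d * ((n : ℝ) / (k - n))
          ≤ (d : ℝ) * (1 + 1) ^ d * (2 * (C + 1) * (l / k)) :=
            mul_le_mul_of_nonneg_left h3 (by positivity)
        _ = (d : ℝ) * (1 + 1) ^ d * (2 * (C + 1)) * (l / k) := by ring
        _ ≤ C1 * (l / k) := mul_le_mul_of_nonneg_right (by linarith) hlk
    · have h4 : 1 ≤ 2 * (C + 1) * (l / k) := by
        rw [← mul_div_assoc, one_le_div hk0]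
        by_cases hc1 : l ≤ k
        · have h6 : k < 2 * n := by
            by_contra h7
            exact hc ⟨hc1, not_lt.1 h7⟩
          have h7 : (k : ℝ) < 2 * n := by exact_mod_cast h6
          linarith
        · have h6 := not_le.1 hc1
          nlinarith
      have h5 : 1 ≤ C1 * (l / k) := h4.trans (mul_le_mul_of_nonneg_right (by linarith) hlk)
      exact le_mul_of_one_le_left hv h5
  · intro z hz
    by_cases hzD : z ∈ D
    · exact Or.inl hzD
    rcases hD z hz hzD with h1 | ⟨i, hi, h1, h2⟩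
    · exact Or.inr (Or.inl h1)
    · refine Or.inr (Or.inr ⟨i, hi, ?_⟩)
      split_ifs with hc
      · refine ⟨h1, hz, fun h3 => h2 hc.1 (h.mono ?_ h3)⟩
        have hc2 := hc.2
        rw [Nat.cast_sub (by omega)]
        linarith [Nat.le_ceil (C * ((k : ℝ) / 2 ^ i) ^ p)]
      · exact h1

end Pool.Agent.MP_b3b911_al.Fil

end

section

open MeasureTheory

namespace Pool.Agent.MP_b3b911_al.Fil

variable {G : Type*} [Group G] {S : Finset G} {J : Type} [Fintype J]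

theorem CCore_floor (Z : Sys S J) (z : J → ℝ) (j : J) : |(Z.co (Z.pt z) j : ℝ) - z j| ≤ 1 := by
  rw [Z.co_pt, abs_le]
  have h1 := Int.floor_le (z j)
  have h2 := Int.lt_floor_add_one (z j)
  constructor <;> linarith

theorem Sys.fam (Z : Sys S J) : Fam Z.W Z.B := by
  refine ⟨Z.meas_B, Z.mono_B, fun a ha q z => Z.hom_B a ha q z, fun q => ?_⟩
  obtain ⟨R, hR, hlow⟩ := Z.low
  obtain ⟨C, hC, hbig⟩ := Z.big_est
  have hK : (1 : ℝ) ≤ max q 1 := le_max_right _ _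
  refine ne_top_of_le_ne_top (fin_big Z.W (C + R) (max q 1)) (measure_mono fun z hz j => ?_)
  obtain ⟨u, hu, hl, hj⟩ := hlow (max q 1) q hK (le_max_left _ _) z hz
  have h1 := hbig (max q 1) hK u.prod ⟨u, hl.trans (le_max_left _ _), hu, rfl⟩ j
  have h2 := hj j
  have h3 : (max q 1) ^ (Z.W j - 1) ≤ (max q 1) ^ Z.W j := pow_le_pow_right₀ hK (Nat.sub_le _ _)
  have h4 : R * (max q 1) ^ (Z.W j - 1) ≤ R * (max q 1) ^ Z.W j :=
    mul_le_mul_of_nonneg_left h3 (by linarith)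
  have h5 : |z j| ≤ |(Z.co u.prod j : ℝ)| + |(Z.co u.prod j : ℝ) - z j| := by
    have h6 := abs_sub (Z.co u.prod j : ℝ) ((Z.co u.prod j : ℝ) - z j)
    rwa [sub_sub_cancel] at h6
  rw [add_mul]
  linarith

theorem CCore_pos (Z : Sys S J) : 0 < volume.real (Z.B 1) := by
  obtain ⟨n, hn, hc⟩ := Z.cube
  have h1 := Z.fam.vol_nat n hn
  have h2 : volume.real (Set.Icc (0 : J → ℝ) 1) ≤ volume.real (Z.B n) :=
    measureReal_mono (fun z hz => hc z fun j => ⟨hz.1 j, hz.2 j⟩) (Z.fam.fin n)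
  have h3 : volume.real (Set.Icc (0 : J → ℝ) 1) = 1 := by
    rw [Measure.real, Real.volume_Icc_pi]
    simp
  rw [h3, h1] at h2
  by_contra h4
  have h5 : volume.real (Z.B 1) = 0 := le_antisymm (not_lt.1 h4) measureReal_nonneg
  rw [h5, mul_zero] at h2
  linarith

theorem Sys.core_vol (Z : Sys S J) : ∃ C : ℝ, ∀ k : ℕ, 1 ≤ k →
    |(growth S k : ℝ) - volume.real (Z.B 1) * (k : ℝ) ^ (∑ j, Z.W j)| ≤
      C * (k : ℝ) ^ (∑ j, Z.W j - 1) := by
  classical
  obtain ⟨R, hR, hlow⟩ := Z.low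
  obtain ⟨A, hA, hloc⟩ := Z.locate R hR
  obtain ⟨Cu, hCu, hup⟩ := Z.up
  obtain ⟨C2, hC2, hH2⟩ := Z.H2 (R + 1)
  have hC2R : 0 ≤ C2 * (R + 1) := mul_nonneg hC2 (by linarith)
  have hC : 0 ≤ Cu + C2 * (R + 1) + 1 := by linarith
  obtain ⟨C', hC'⟩ := Z.fam.dyad_up Z.W_pos Z.j0 Z.W_j0 Z.p Z.hp A _ hA hC
  obtain ⟨C'', hC''⟩ := Z.fam.dyad_low Z.W_pos Z.j0 Z.W_j0 Z.p Z.hp A _ hA hC
  refine ⟨max C' C'', fun k hk => ?_⟩
  have hk1 : (1 : ℝ) ≤ k := by exact_mod_cast hk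
  have hpw : ∀ j, (1 : ℝ) ≤ (k : ℝ) ^ (Z.W j - 1) := fun j => one_le_pow₀ hk1
  have hU := hC' k hk (Z.D k) (by
    intro z hz
    obtain ⟨u, hl, hu, hp⟩ := hz
    have hf : ∀ j, |(Z.co u.prod j : ℝ) - z j| ≤ 1 := fun j => by
      rw [hp]; exact CCore_floor Z z j
    have hl' : u.length ≤ k := by exact_mod_cast hl
    rcases hloc k hk u hu hl' z (fun j => (hf j).trans (by nlinarith [hpw j])) with
      h | ⟨i, hi, hb, hn⟩
    · exact Or.inl h
    · refine Or.inr ⟨i, hi, hb, fun hlam => ?_⟩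
      have h2 : (1 : ℝ) ≤ 2 ^ i := one_le_pow₀ (by norm_num)
      have h3 := hup k (2 ^ i) h2 hi hlam u hu hl hn z hf
      refine Z.mono_B ?_ h3
      have h4 : (0 : ℝ) ≤ ((k : ℝ) / 2 ^ i) ^ Z.p := by positivity
      nlinarith)
  have hL := hC'' k hk (Z.D k) hU.1 (by
    intro z hz hzD
    have hex : ∃ n : ℕ, z ∈ Z.B n := ⟨k, hz⟩
    have hn0 : Nat.find hex ≤ k := Nat.find_min' hex hz
    have hn0' : ((Nat.find hex : ℕ) : ℝ) ≤ k := by exact_mod_cast hn0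
    obtain ⟨u, hu, hl, hj⟩ := hlow k (Nat.find hex : ℕ) hk1 hn0' z (Nat.find_spec hex)
    have hlk : (u.length : ℝ) ≤ k := hl.trans hn0'
    have hl' : u.length ≤ k := by exact_mod_cast hlk
    rcases hloc k hk u hu hl' z hj with h | ⟨i, hi, hb, hn⟩
    · exact Or.inl h
    · refine Or.inr ⟨i, hi, hb, fun hlam hzB => hzD ?_⟩
      have h2 : (1 : ℝ) ≤ 2 ^ i := one_le_pow₀ (by norm_num)
      have h2' : (0 : ℝ) < 2 ^ i := by positivity
      have h4 : (1 : ℝ) ≤ ((k : ℝ) / 2 ^ i) ^ Z.p :=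
        one_le_pow₀ ((one_le_div h2').2 hi)
      have h5 := Z.nonneg_B hzB
      have h6 : z ∈ Z.B (⌈(k : ℝ) - (Cu + C2 * (R + 1) + 1) * ((k : ℝ) / 2 ^ i) ^ Z.p⌉₊ : ℕ) :=
        Z.mono_B (Nat.le_ceil _) hzB
      have h7 : ((Nat.find hex : ℕ) : ℝ) ≤
          (⌈(k : ℝ) - (Cu + C2 * (R + 1) + 1) * ((k : ℝ) / 2 ^ i) ^ Z.p⌉₊ : ℕ) := by
        exact_mod_cast Nat.find_min' hex h6
      have h8 := (Nat.ceil_lt_add_one h5).le
      obtain ⟨l', hw, hp, -, hlen⟩ := hH2 k (2 ^ i) (R + 1) h2 hi (by linarith)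
        (mul_le_mul_of_nonneg_left hlam (by linarith)) u hu hlk hn (Z.pt z) (fun j => by
          have e1 := CCore_floor Z z j
          have e2 := hj j
          have e3 := abs_sub_le (Z.co (Z.pt z) j : ℝ) (z j) (Z.co u.prod j : ℝ)
          rw [abs_sub_comm (z j)] at e3
          have e4 := hpw j
          rw [add_mul, one_mul]
          linarith)
      refine ⟨l', ?_, hw, hp⟩
      have h9 : 0 ≤ Cu * ((k : ℝ) / 2 ^ i) ^ Z.p := mul_nonneg hCu (by linarith)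
      nlinarith)
  rw [Z.vol_D] at hL
  have hU2 := hU.2
  rw [Z.vol_D] at hU2
  have hp0 : (0 : ℝ) ≤ (k : ℝ) ^ (∑ j, Z.W j - 1) := by positivity
  have m1 := mul_le_mul_of_nonneg_right (le_max_left C' C'') hp0
  have m2 := mul_le_mul_of_nonneg_right (le_max_right C' C'') hp0
  rw [abs_le]
  constructor <;> nlinarith

theorem Sys.core (Z : Sys S J) : ∃ c C : ℝ, 0 < c ∧ ∀ k : ℕ, 1 ≤ k →
    |(growth S k : ℝ) - c * (k : ℝ) ^ (∑ j, Z.W j)| ≤ C * (k : ℝ) ^ (∑ j, Z.W j - 1) := by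
  obtain ⟨C, h⟩ := Z.core_vol
  exact ⟨_, C, CCore_pos Z, h⟩

theorem Sys.vol_pt (Z : Sys S J) {A : Set G} (hA : A.Finite) :
    volume {z | Z.pt z ∈ A} ≠ ⊤ ∧ volume.real {z | Z.pt z ∈ A} = A.ncard := by
  classical
  set T : Finset G := hA.toFinset with hT
  let Q : G → Set (J → ℝ) := fun g =>
    Set.pi Set.univ fun j => Set.Ico ((Z.co g j : ℤ) : ℝ) (((Z.co g j : ℤ) : ℝ) + 1)
  have hQ : ∀ g z, z ∈ Q g ↔ Z.pt z = g := by
    intro g z
    rw [CBall_pt_eq_iff]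
    simp only [Q, Set.mem_pi, Set.mem_univ, true_imp_iff, Set.mem_Ico, Int.floor_eq_iff]
  have hD : {z | Z.pt z ∈ A} = ⋃ g ∈ T, Q g := by
    ext z
    simp only [Set.mem_setOf_eq, Set.mem_iUnion, hQ, hT, Set.Finite.mem_toFinset,
      exists_prop, exists_eq_right']
  have hmeas : ∀ g, MeasurableSet (Q g) := fun g =>
    MeasurableSet.univ_pi fun j => measurableSet_Ico
  have hvol : ∀ g, volume (Q g) = 1 := by
    intro g
    simp only [Q]
    rw [Real.volume_pi_Ico]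
    simp
  have hdisj : (T : Set G).PairwiseDisjoint Q := by
    intro g _ g' _ hne
    refine Set.disjoint_left.2 fun z hz hz' => hne ?_
    rw [← (hQ g z).1 hz, ← (hQ g' z).1 hz']
  rw [measureReal_def, hD, measure_biUnion_finset hdisj fun g _ => hmeas g,
    Set.ncard_eq_toFinset_card _ hA]
  simp [hvol, hT]

end Pool.Agent.MP_b3b911_al.Fil

end

section

namespace Pool.Agent.MP_b3b911_al.Fil

variable {G : Type*} [Group G] {S : Finset G} {J : Type} [Fintype J] [DecidableEq J]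

theorem nsys_bij (Z : Pre S J) :
    Function.Bijective fun (g : G) (o : Option J) => o.elim (Z.X g) (Z.V g) := by
  constructor
  · intro g h hgh
    have h1 : Z.X g = Z.X h := congrFun hgh none
    have h2 : Z.V g = Z.V h := funext fun j => congrFun hgh (some j)
    have h3 : g * Z.t ^ (-Z.X g) = h * Z.t ^ (-Z.X h) := by
      refine Z.inj _ _ ?_ ?_ h2
      · rw [Z.X_mul, Z.X_tpow]; omega
      · rw [Z.X_mul, Z.X_tpow]; omega
    rw [h1] at h3
    exact mul_right_cancel h3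
  · intro y
    obtain ⟨n, hn, hv⟩ := Z.surj fun j => y (some j)
    have hx : Z.X (n * Z.t ^ (y none)) = y none := by
      rw [Z.X_mul, Z.X_tpow, hn, zero_add]
    refine ⟨n * Z.t ^ (y none), funext fun o => ?_⟩
    cases o with
    | none => exact hx
    | some j =>
      change Z.V (n * Z.t ^ (y none)) j = y (some j)
      unfold Pre.V
      rw [hx, mul_assoc, ← zpow_add, add_neg_cancel, zpow_zero, mul_one, hv]

theorem nsys_ex (Z : Pre S J) : ∃ s ∈ S, Z.X s ≠ 0 := by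
  by_contra hc
  push Not at hc
  have h : ∀ g ∈ Subgroup.closure (S : Set G), Z.X g = 0 := by
    intro g hg
    induction hg using Subgroup.closure_induction with
    | mem x hx => exact hc x hx
    | one => exact Z.X_one
    | mul x y _ _ hx hy => rw [Z.X_mul, hx, hy, add_zero]
    | inv x _ hx => rw [Z.X_inv, hx, neg_zero]
  have h1 := h Z.t (Z.gen ▸ Subgroup.mem_top _)
  rw [Z.X_t] at h1
  exact one_ne_zero h1

theorem nsys_hp (Z : Pre S J) :
    ∑ q ∈ Finset.range Z.r, q + Fintype.card J ≤ ∑ j, Z.w j := by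
  have h1 : ∑ j, Z.w j = ∑ j, (Z.w j - 1) + Fintype.card J := by
    rw [← Finset.card_univ, Finset.card_eq_sum_ones, ← Finset.sum_add_distrib]
    exact Finset.sum_congr rfl fun j _ => (Nat.sub_add_cancel (Z.w_pos j)).symm
  rw [h1]
  refine Nat.add_le_add_right ?_ _
  have h2 : Finset.range Z.r ⊆ Finset.univ.image fun j => Z.w j - 1 := by
    intro q hq
    obtain ⟨j, hj⟩ := Z.occ (q + 1) (by omega) (Finset.mem_range.1 hq)
    exact Finset.mem_image.2 ⟨j, Finset.mem_univ _, by omega⟩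
  refine (Finset.sum_le_sum_of_subset h2).trans ?_
  exact Finset.sum_image_le_of_nonneg (f := fun q : ℕ => q) fun _ _ => Nat.zero_le _

theorem Pre.sys (Z : Pre S J) : ∃ Y : Sys S (Option J), Y.j0 = none ∧
    Y.p = ∑ q ∈ Finset.range Z.r, q ∧ (Y.W = fun o => o.elim 1 Z.w) ∧
    Y.co = fun g o => o.elim (Z.X g) (Z.V g) := by
  obtain ⟨c, C1, hC1, h1⟩ := Z.h1
  let Y : Sys S (Option J) :=
    { co := fun g o => o.elim (Z.X g) (Z.V g)
      bij := nsys_bij Z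
      j0 := none
      W := fun o => o.elim 1 Z.w
      W_pos := fun o => by
        cases o with
        | none => exact le_rfl
        | some j => exact Z.w_pos j
      W_j0 := rfl
      co_one := funext fun o => by
        cases o with
        | none => exact Z.X_one
        | some j =>
          change Z.V 1 j = 0
          unfold Pre.V
          rw [Z.X_one, neg_zero, zpow_zero, mul_one, Z.v_one]
          rfl
      add := Z.X_mul
      ex := nsys_ex Z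
      c := fun s o => o.elim (Z.X s : ℝ) (c s)
      p := ∑ q ∈ Finset.range Z.r, q
      hp := by
        have := nsys_hp Z
        rw [Fintype.card_option, Fintype.sum_option]
        simp only [Option.elim]
        omega
      H1 := ⟨C1, hC1, fun K hK g hg s hs o => by
        cases o with
        | none =>
          simp only [Option.elim, Z.X_mul, Nat.sub_self, pow_zero, mul_one, Int.cast_add]
          rw [show (Z.X g : ℝ) + Z.X s - Z.X g - Z.X s = 0 by ring, abs_zero, mul_zero]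
          exact hC1
        | some j => exact h1 K hK g hg s hs j⟩
      H2 := fun A => by
        obtain ⟨C, hC, h2⟩ := Z.h2 A
        refine ⟨C, hC, fun K L R hL hLK hR hA l hl hlK hn g hg => ?_⟩
        refine h2 K L R hL hLK hR hA l hl hlK hn g ?_ fun j => hg (some j)
        have := hg none
        simpa only [Option.elim, Nat.sub_self, pow_zero, mul_one] using this }
  exact ⟨Y, rfl, rfl, rfl, rfl⟩

theorem Pre.core (Z : Pre S J) : ∃ c C : ℝ, 0 < c ∧ ∀ k : ℕ, 1 ≤ k →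
    |(growth S k : ℝ) - c * (k : ℝ) ^ (1 + ∑ j, Z.w j)| ≤ C * (k : ℝ) ^ (∑ j, Z.w j) := by
  obtain ⟨Y, -, -, hW, -⟩ := Z.sys
  obtain ⟨c0, C0, hc0, h⟩ := Y.core
  have hs : ∑ j, Y.W j = 1 + ∑ j, Z.w j := by
    rw [Fintype.sum_option, hW]
    rfl
  refine ⟨c0, C0, hc0, fun k hk => ?_⟩
  have := h k hk
  rwa [hs, Nat.add_sub_cancel_left] at this

end Pool.Agent.MP_b3b911_al.Fil

end

section

open Filter Topology

namespace Pool.Agent.MP_b3b911_al.Fil

theorem log_ratio {a : ℕ → ℝ} {c : ℝ} {d : ℕ} (hc : 0 < c)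
    (h : Tendsto (fun k : ℕ => a k / (k : ℝ) ^ d) atTop (𝓝 c)) :
    Tendsto (fun k : ℕ => Real.log (a k) / Real.log k) atTop (𝓝 d) := by
  have h1 : Tendsto (fun k : ℕ => Real.log k) atTop atTop :=
    Real.tendsto_log_atTop.comp tendsto_natCast_atTop_atTop
  have h2 := ((h.log hc.ne').div_atTop h1).add_const (d : ℝ)
  rw [zero_add] at h2
  refine h2.congr' ?_
  filter_upwards [eventually_ge_atTop 2, h.eventually_const_lt hc] with k hk hp
  have hk' : (1 : ℝ) < k := by exact_mod_cast hk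
  have h3 : (0 : ℝ) < (k : ℝ) ^ d := by positivity
  have h4 : a k ≠ 0 := fun h0 => by simp [h0] at hp
  have h5 := (Real.log_pos hk').ne'
  rw [Real.log_div h4 h3.ne', Real.log_pow]
  field_simp
  ring

theorem ratio_of_bound {a : ℕ → ℝ} {c C : ℝ} {e : ℕ}
    (h : ∀ k : ℕ, 1 ≤ k → |a k - c * (k : ℝ) ^ (e + 1)| ≤ C * (k : ℝ) ^ e) :
    Tendsto (fun k : ℕ => a k / (k : ℝ) ^ (e + 1)) atTop (𝓝 c) := by
  rw [tendsto_iff_norm_sub_tendsto_zero]
  have h0 : Tendsto (fun k : ℕ => C * (k : ℝ)⁻¹) atTop (𝓝 0) := by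
    simpa using tendsto_inv_atTop_nhds_zero_nat.const_mul C
  refine squeeze_zero' (Eventually.of_forall fun k => norm_nonneg _) ?_ h0
  filter_upwards [eventually_ge_atTop 1] with k hk
  have hk' : (0 : ℝ) < k := by exact_mod_cast hk
  have h1 : a k / (k : ℝ) ^ (e + 1) - c = (a k - c * (k : ℝ) ^ (e + 1)) / (k : ℝ) ^ (e + 1) := by
    field_simp
  rw [Real.norm_eq_abs, h1, abs_div, abs_of_pos (pow_pos hk' _), div_le_iff₀ (pow_pos hk' _)]
  calc _ ≤ C * (k : ℝ) ^ e := h k hk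
    _ = C * (k : ℝ)⁻¹ * (k : ℝ) ^ (e + 1) := by field_simp; ring

end Pool.Agent.MP_b3b911_al.Fil

end
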