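import Mathlib
import Pool.Agent.Mg.Fb3b911.G6bbfaa

section

namespace Pool.Agent.MP_b3b911_al.Fil

variable {G : Type*} [Group G]

theorem ITor_three {H₁ H₂ H₃ N : Subgroup G} [N.Normal] (h1 : ⁅⁅H₂, H₃⁆, H₁⁆ ≤ N)
    (h2 : ⁅⁅H₃, H₁⁆, H₂⁆ ≤ N) : ⁅⁅H₁, H₂⁆, H₃⁆ ≤ N := by
  rw [← QuotientGroup.ker_mk' N, ← Subgroup.map_eq_bot_iff, Subgroup.map_commutator,
    Subgroup.map_commutator] at h1 h2 ⊢
  exact Subgroup.commutator_commutator_eq_bot_of_rotate h1 h2

theorem ITor_lcs (j : ℕ) : ∀ i : ℕ, ⁅(⊤ : Subgroup G).lowerCentralSeries i,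
    (⊤ : Subgroup G).lowerCentralSeries j⁆ ≤ (⊤ : Subgroup G).lowerCentralSeries (i + j + 1) := by
  induction j with
  | zero => exact fun i => le_rfl
  | succ j ih =>
    intro i
    rw [Subgroup.commutator_comm, Subgroup.lowerCentralSeries_succ _ j]
    refine ITor_three ?_ ?_
    · rw [Subgroup.commutator_comm ⊤, ← Subgroup.lowerCentralSeries_succ,
        show i + (j + 1) + 1 = i + 1 + j + 1 by omega]
      exact ih (i + 1)
    · rw [show i + (j + 1) + 1 = i + j + 1 + 1 by omega,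
        Subgroup.lowerCentralSeries_succ _ (i + j + 1)]
      exact Subgroup.commutator_mono (ih i) le_rfl

theorem ITor_cen (hz : ∀ z ∈ Subgroup.center G, IsOfFinOrder z → z = 1) :
    ∀ q ∈ Subgroup.center (G ⧸ Subgroup.center G), IsOfFinOrder q → q = 1 := by
  intro q hq hf
  obtain ⟨x, rfl⟩ := QuotientGroup.mk_surjective q
  obtain ⟨m, hm, hxm⟩ := isOfFinOrder_iff_pow_eq_one.1 hf
  rw [← QuotientGroup.mk_pow, QuotientGroup.eq_one_iff] at hxm
  rw [QuotientGroup.eq_one_iff, Subgroup.mem_center_iff]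
  intro g
  have hc : g * x * g⁻¹ * x⁻¹ ∈ Subgroup.center G := by
    rw [← QuotientGroup.eq_one_iff]
    simp only [QuotientGroup.mk_mul, QuotientGroup.mk_inv]
    rw [Subgroup.mem_center_iff.1 hq]
    simp
  have h1 : (g * x * g⁻¹ * x⁻¹ * x) ^ m = (g * x * g⁻¹ * x⁻¹) ^ m * x ^ m :=
    Commute.mul_pow (Subgroup.mem_center_iff.1 hc x).symm m
  rw [inv_mul_cancel_right, conj_pow, Subgroup.mem_center_iff.1 hxm g, mul_inv_cancel_right,
    right_eq_mul] at h1
  have h2 := hz _ hc (isOfFinOrder_iff_pow_eq_one.2 ⟨m, hm, h1⟩)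
  rwa [mul_inv_eq_one, mul_inv_eq_iff_eq_mul] at h2

theorem ITor_root (G : Type*) [Group G] [Group.IsNilpotent G] :
    (∀ z ∈ Subgroup.center G, IsOfFinOrder z → z = 1) →
      ∀ n : ℕ, 0 < n → ∀ x y : G, x ^ n = y ^ n → x = y := by
  refine Group.nilpotent_center_quotient_ind
    (P := fun G _ _ => (∀ z ∈ Subgroup.center G, IsOfFinOrder z → z = 1) →
      ∀ n : ℕ, 0 < n → ∀ x y : G, x ^ n = y ^ n → x = y) G
    (fun _ _ _ _ _ _ x y _ => Subsingleton.elim x y) fun G _ _ ih hz n hn x y h => ?_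
  have h1 := ih (ITor_cen hz) n hn x y (by rw [← QuotientGroup.mk_pow, h, QuotientGroup.mk_pow])
  have h2 : x⁻¹ * y ∈ Subgroup.center G := QuotientGroup.eq.1 h1
  have h3 : (x * (x⁻¹ * y)) ^ n = x ^ n * (x⁻¹ * y) ^ n :=
    Commute.mul_pow (Subgroup.mem_center_iff.1 h2 x) n
  rw [mul_inv_cancel_left, h, left_eq_mul] at h3
  exact inv_mul_eq_one.1 (hz _ h2 (isOfFinOrder_iff_pow_eq_one.2 ⟨n, hn, h3⟩))

theorem ITor_max (G : Type*) [Group G] :
    ∃ T, Maximal (fun T : Subgroup G => T.Normal ∧ ∀ g ∈ T, IsOfFinOrder g) T := by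
  obtain ⟨T, -, hT⟩ := zorn_le_nonempty₀ {T : Subgroup G | T.Normal ∧ ∀ g ∈ T, IsOfFinOrder g}
    (fun c hc hch y hy => by
      have hm : ∀ g, g ∈ sSup c ↔ ∃ s ∈ c, g ∈ s := fun g =>
        Subgroup.mem_sSup_of_directedOn ⟨y, hy⟩ hch.directedOn
      refine ⟨sSup c, ⟨⟨fun g hg a => ?_⟩, fun g hg => ?_⟩, fun z hz => le_sSup hz⟩
      · obtain ⟨s, h1, h2⟩ := (hm g).1 hg
        exact (hm _).2 ⟨s, h1, (hc h1).1.conj_mem g h2 a⟩
      · obtain ⟨s, h1, h2⟩ := (hm g).1 hg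
        exact (hc h1).2 g h2) ⊥ ⟨inferInstance, fun g hg => by
      rw [Subgroup.mem_bot.1 hg]
      exact IsOfFinOrder.one⟩
  exact ⟨T, hT⟩

theorem lcs_comm (i j : ℕ) {x y : G} (hx : x ∈ (⊤ : Subgroup G).lowerCentralSeries i)
    (hy : y ∈ (⊤ : Subgroup G).lowerCentralSeries j) :
    x * y * x⁻¹ * y⁻¹ ∈ (⊤ : Subgroup G).lowerCentralSeries (i + j + 1) :=
  ITor_lcs j i (Subgroup.commutator_mem_commutator hx hy)

theorem tors_mul [Group.IsNilpotent G] {x y : G} (hx : IsOfFinOrder x) (hy : IsOfFinOrder y) :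
    IsOfFinOrder (x * y) := by
  obtain ⟨T, hT⟩ := ITor_max G
  have := hT.prop.1
  have hz : ∀ z ∈ Subgroup.center (G ⧸ T), IsOfFinOrder z → z = 1 := by
    intro z hz hf
    obtain ⟨w, rfl⟩ := QuotientGroup.mk_surjective z
    have hn : (Subgroup.zpowers (w : G ⧸ T)).Normal := ⟨fun a ha g => by
      rwa [Subgroup.mem_center_iff.1 (Subgroup.zpowers_le.2 hz ha) g, mul_inv_cancel_right]⟩
    have hle : (Subgroup.zpowers (w : G ⧸ T)).comap (QuotientGroup.mk' T) ≤ T := by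
      refine hT.le_of_ge ⟨hn.comap _, fun g hg => ?_⟩ fun g hg => ?_
      · obtain ⟨k, hk⟩ := Subgroup.mem_zpowers_iff.1 (Subgroup.mem_comap.1 hg)
        obtain ⟨m, hm, h1⟩ := isOfFinOrder_iff_pow_eq_one.1 (hk ▸ hf.zpow (i := k))
        rw [← map_pow, QuotientGroup.mk'_apply, QuotientGroup.eq_one_iff] at h1
        exact (hT.prop.2 _ h1).of_pow hm.ne'
      · rw [Subgroup.mem_comap, QuotientGroup.mk'_apply, (QuotientGroup.eq_one_iff g).2 hg]
        exact one_mem _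
    exact (QuotientGroup.eq_one_iff w).2 (hle (Subgroup.mem_zpowers _))
  have key : ∀ g : G, IsOfFinOrder g → g ∈ T := fun g hg => by
    obtain ⟨m, hm, h1⟩ := isOfFinOrder_iff_pow_eq_one.1 hg
    exact (QuotientGroup.eq_one_iff g).1 (ITor_root (G ⧸ T) hz m hm _ _ (by
      rw [← QuotientGroup.mk_pow, h1, one_pow, QuotientGroup.mk_one]))
  exact hT.prop.2 _ (mul_mem (key x hx) (key y hy))

theorem root_unique [Group.IsNilpotent G] (htf : ∀ g : G, IsOfFinOrder g → g = 1) {n : ℕ}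
    (hn : 0 < n) {x y : G} (h : x ^ n = y ^ n) : x = y :=
  ITor_root G (fun z _ => htf z) n hn x y h

theorem comm_of_pow [Group.IsNilpotent G] (htf : ∀ g : G, IsOfFinOrder g → g = 1) {n m : ℕ}
    (hn : 0 < n) (hm : 0 < m) {x y : G} (h : Commute (x ^ n) (y ^ m)) : Commute x y := by
  have h1 : y ^ m * x * (y ^ m)⁻¹ = x :=
    root_unique htf hn (by rw [conj_pow, ← h.eq, mul_inv_cancel_right])
  have h2 : x * y * x⁻¹ = y :=
    root_unique htf hm (by rw [conj_pow, ← mul_inv_eq_iff_eq_mul.1 h1, mul_inv_cancel_right])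
  exact mul_inv_eq_iff_eq_mul.1 h2

end Pool.Agent.MP_b3b911_al.Fil

end

section

namespace Pool.Agent.MP_b3b911_al.Fil

variable {G : Type*} [Group G]

/-- the isolator of a normal subgroup of a nilpotent group -/
def isol [Group.IsNilpotent G] (H : Subgroup G) [H.Normal] : Subgroup G where
  carrier := {g | IsOfFinOrder (QuotientGroup.mk' H g)}
  one_mem' := by simp
  mul_mem' := fun {x y} hx hy => by
    simp only [Set.mem_setOf_eq, map_mul] at hx hy ⊢
    exact tors_mul hx hy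
  inv_mem' := fun {x} hx => by
    simp only [Set.mem_setOf_eq, map_inv] at hx ⊢
    exact hx.inv

/-- the isolator filtration -/
def isoF (G : Type*) [Group G] [Group.IsNilpotent G] (n : ℕ) : Subgroup G :=
  isol ((⊤ : Subgroup G).lowerCentralSeries (n - 1))

variable [Group.IsNilpotent G]

theorem mem_isol {H : Subgroup G} [H.Normal] {g : G} :
    g ∈ isol H ↔ ∃ n : ℕ, 0 < n ∧ g ^ n ∈ H := by
  change IsOfFinOrder (QuotientGroup.mk' H g) ↔ _
  rw [isOfFinOrder_iff_pow_eq_one]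
  refine exists_congr fun n => and_congr_right fun _ => ?_
  rw [← map_pow, QuotientGroup.mk'_apply, QuotientGroup.eq_one_iff]

theorem isol_normal (H : Subgroup G) [H.Normal] : (isol H).Normal := by
  refine ⟨fun x hx g => ?_⟩
  obtain ⟨n, hn, h⟩ := mem_isol.1 hx
  refine mem_isol.2 ⟨n, hn, ?_⟩
  rw [conj_pow]
  exact Subgroup.Normal.conj_mem inferInstance _ h g

theorem isol_pow {H : Subgroup G} [H.Normal] {g : G} {k : ℕ} (hk : 0 < k) (h : g ^ k ∈ isol H) :
    g ∈ isol H := by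
  obtain ⟨n, hn, h⟩ := mem_isol.1 h
  exact mem_isol.2 ⟨k * n, Nat.mul_pos hk hn, by rwa [pow_mul]⟩

/-- commutators modulo an isolator only depend on powers -/
theorem isol_comm {H : Subgroup G} [H.Normal] {x y : G} {n m : ℕ} (hn : 0 < n) (hm : 0 < m)
    (h : x ^ n * y ^ m * (x ^ n)⁻¹ * (y ^ m)⁻¹ ∈ isol H) : x * y * x⁻¹ * y⁻¹ ∈ isol H := by
  haveI := isol_normal H
  have htf : ∀ q : G ⧸ isol H, IsOfFinOrder q → q = 1 := by
    intro q hq
    obtain ⟨g, rfl⟩ := QuotientGroup.mk'_surjective (isol H) q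
    obtain ⟨k, hk, h1⟩ := isOfFinOrder_iff_pow_eq_one.1 hq
    rw [← map_pow, QuotientGroup.mk'_apply, QuotientGroup.eq_one_iff] at h1
    rw [QuotientGroup.mk'_apply, QuotientGroup.eq_one_iff]
    exact isol_pow hk h1
  have key : ∀ a b : G, a * b * a⁻¹ * b⁻¹ ∈ isol H ↔
      Commute (QuotientGroup.mk' (isol H) a) (QuotientGroup.mk' (isol H) b) := by
    intro a b
    rw [← QuotientGroup.eq_one_iff, ← commutatorElement_eq_one_iff_commute,
      ← map_commutatorElement, QuotientGroup.mk'_apply, commutatorElement_def]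
  rw [key] at h ⊢
  rw [map_pow, map_pow] at h
  exact comm_of_pow htf hn hm h

theorem isoF_filt : Filt (isoF G) := by
  refine ⟨fun a b hab g hg => ?_, fun n => isol_normal _, fun i j hi hj x hx y hy => ?_⟩
  · obtain ⟨n, hn, h⟩ := mem_isol.1 hg
    exact mem_isol.2 ⟨n, hn,
      (⊤ : Subgroup G).lowerCentralSeries_antitone (Nat.sub_le_sub_right hab 1) h⟩
  · obtain ⟨n, hn, h1⟩ := mem_isol.1 hx
    obtain ⟨m, hm, h2⟩ := mem_isol.1 hy
    have h3 := lcs_comm _ _ h1 h2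
    have e : i - 1 + (j - 1) + 1 = i + j - 1 := by omega
    rw [e] at h3
    exact isol_comm hn hm (mem_isol.2 ⟨1, Nat.one_pos, by rwa [pow_one]⟩)

theorem isoF_one : isoF G 1 = ⊤ := by
  refine eq_top_iff.2 fun g _ => mem_isol.2 ⟨1, Nat.one_pos, ?_⟩
  simp

theorem isoF_bot (htf : ∀ g : G, IsOfFinOrder g → g = 1) : ∃ r, isoF G (r + 1) = ⊥ := by
  refine ⟨Group.nilpotencyClass G, eq_bot_iff.2 fun g hg => ?_⟩
  obtain ⟨n, hn, h⟩ := mem_isol.1 hg
  rw [Nat.add_sub_cancel, Subgroup.lowerCentralSeries_nilpotencyClass, Subgroup.mem_bot] at h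
  exact Subgroup.mem_bot.2 (htf g (isOfFinOrder_iff_pow_eq_one.2 ⟨n, hn, h⟩))

theorem isoF_two (φ : G →* Multiplicative ℤ) : isoF G 2 ≤ φ.ker := by
  intro g hg
  obtain ⟨n, hn, h⟩ := mem_isol.1 hg
  have h1 : g ^ n ∈ commutator G := h
  have h2 : φ (g ^ n) = 1 := Abelianization.commutator_subset_ker φ h1
  rw [map_pow] at h2
  have h3 := congrArg Multiplicative.toAdd h2
  rw [toAdd_pow, toAdd_one, nsmul_eq_mul] at h3
  have h4 : Multiplicative.toAdd (φ g) = 0 := by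
    rcases mul_eq_zero.1 h3 with h5 | h5
    · exact absurd (by exact_mod_cast h5 : n = 0) hn.ne'
    · exact h5
  exact (MonoidHom.mem_ker).2 (toAdd_eq_zero.1 h4)

end Pool.Agent.MP_b3b911_al.Fil

end

section

namespace Pool.Agent.MP_b3b911_al.Fil

open scoped commutatorElement in
theorem IShift_three {G : Type*} [Group G] {A B C N : Subgroup G} [N.Normal]
    (h1 : ⁅⁅B, C⁆, A⁆ ≤ N) (h2 : ⁅⁅C, A⁆, B⁆ ≤ N) : ⁅⁅A, B⁆, C⁆ ≤ N := by
  have key : ∀ X : Subgroup G, X ≤ N ↔ X.map (QuotientGroup.mk' N) = ⊥ := fun X => by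
    rw [Subgroup.map_eq_bot_iff, QuotientGroup.ker_mk']
  rw [key] at h1 h2 ⊢
  simp only [Subgroup.map_commutator] at h1 h2 ⊢
  exact Subgroup.commutator_commutator_eq_bot_of_rotate h1 h2

theorem IShift_ker {G : Type*} [Group G] (φ : G →* Multiplicative ℤ) (t : G)
    (ht : φ t = Multiplicative.ofAdd 1) (g : G) :
    g * (t ^ (Multiplicative.toAdd (φ g)))⁻¹ ∈ φ.ker := by
  rw [MonoidHom.mem_ker, map_mul, map_inv, map_zpow, ht, ← ofAdd_zsmul, smul_eq_mul, mul_one,
    ofAdd_toAdd, mul_inv_cancel]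

theorem IShift_zero {G : Type*} [Group G] (φ : G →* Multiplicative ℤ) (t : G)
    (ht : φ t = Multiplicative.ofAdd 1) :
    ⁅(⊤ : Subgroup G), (⊤ : Subgroup G)⁆ ≤ ⁅φ.ker, (⊤ : Subgroup G)⁆ := by
  set N : Subgroup G := ⁅φ.ker, (⊤ : Subgroup G)⁆ with hN
  have hc : ∀ k ∈ φ.ker, ∀ g : G,
      Commute (QuotientGroup.mk' N k) (QuotientGroup.mk' N g) := by
    intro k hk g
    rw [← commutatorElement_eq_one_iff_commute, ← map_commutatorElement, ← MonoidHom.mem_ker,
      QuotientGroup.ker_mk']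
    exact Subgroup.commutator_mem_commutator hk (Subgroup.mem_top g)
  rw [Subgroup.commutator_le]
  intro x _ y _
  rw [← QuotientGroup.ker_mk' N, MonoidHom.mem_ker, map_commutatorElement,
    commutatorElement_eq_one_iff_commute]
  have hx := IShift_ker φ t ht x
  have hy := IShift_ker φ t ht y
  rw [← inv_mul_cancel_right x (t ^ (Multiplicative.toAdd (φ x))), map_mul]
  refine (hc _ hx y).mul_left ?_
  rw [← inv_mul_cancel_right y (t ^ (Multiplicative.toAdd (φ y))), map_mul]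
  refine (hc _ hy _).symm.mul_right ?_
  rw [map_zpow, map_zpow]
  exact Commute.zpow_zpow_self _ _ _

theorem IShift_one {G : Type*} [Group G] (φ : G →* Multiplicative ℤ) (i : ℕ) :
    (⊤ : Subgroup G).lowerCentralSeries (i + 1) ≤ φ.ker := by
  refine le_trans (Subgroup.lowerCentralSeries_antitone ⊤ (Nat.le_add_left 1 i)) ?_
  rw [Subgroup.top_lowerCentralSeries_one]
  exact Abelianization.commutator_subset_ker φ

variable {G : Type*} [Group G] [Group.IsNilpotent G]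

omit [Group.IsNilpotent G] in
theorem lcs_le_ker_comm (φ : G →* Multiplicative ℤ) (t : G) (ht : φ t = Multiplicative.ofAdd 1)
    (i : ℕ) : (⊤ : Subgroup G).lowerCentralSeries (i + 1) ≤
      ⁅φ.ker ⊓ (⊤ : Subgroup G).lowerCentralSeries i, (⊤ : Subgroup G)⁆ := by
  cases i with
  | zero =>
    rw [Subgroup.lowerCentralSeries_succ, Subgroup.lowerCentralSeries_zero, inf_top_eq]
    exact IShift_zero φ t ht
  | succ i =>
    rw [inf_eq_right.2 (IShift_one φ i)]
    exact le_rfl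

theorem IShift_sub (φ : G →* Multiplicative ℤ) (t : G) (ht : φ t = Multiplicative.ofAdd 1)
    (h : ∀ j : ℕ, ∀ x ∈ φ.ker, ∀ y ∈ φ.ker, y ∈ (⊤ : Subgroup G).lowerCentralSeries j →
      ∃ n : ℕ, 0 < n ∧ (x * y * x⁻¹ * y⁻¹) ^ n ∈ (⊤ : Subgroup G).lowerCentralSeries (j + 2))
    (a : ℕ) : ∀ b : ℕ, ⁅φ.ker ⊓ (⊤ : Subgroup G).lowerCentralSeries a,
      φ.ker ⊓ (⊤ : Subgroup G).lowerCentralSeries b⁆ ≤ isoF G (a + b + 3) := by
  induction a with
  | zero =>
    intro b
    rw [Subgroup.commutator_le]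
    intro x hx y hy
    rw [zero_add]
    exact mem_isol.2 (h b x hx.1 y hy.1 hy.2)
  | succ a ih =>
    intro b
    have := (isoF_filt (G := G)).normal (a + 1 + b + 3)
    refine le_trans (Subgroup.commutator_mono
      (inf_le_right.trans (lcs_le_ker_comm φ t ht a)) le_rfl) (IShift_three ?_ ?_)
    · have h1 : ⁅(⊤ : Subgroup G), φ.ker ⊓ (⊤ : Subgroup G).lowerCentralSeries b⁆ ≤
          φ.ker ⊓ (⊤ : Subgroup G).lowerCentralSeries (b + 1) := by
        have h2 : ⁅(⊤ : Subgroup G), φ.ker ⊓ (⊤ : Subgroup G).lowerCentralSeries b⁆ ≤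
            (⊤ : Subgroup G).lowerCentralSeries (b + 1) := by
          rw [Subgroup.commutator_comm, Subgroup.lowerCentralSeries_succ]
          exact Subgroup.commutator_mono inf_le_right le_rfl
        exact le_inf (h2.trans (IShift_one φ b)) h2
      refine le_trans (Subgroup.commutator_mono h1 le_rfl) ?_
      rw [Subgroup.commutator_comm, show a + 1 + b + 3 = a + (b + 1) + 3 by omega]
      exact ih (b + 1)
    · rw [Subgroup.commutator_comm (φ.ker ⊓ (⊤ : Subgroup G).lowerCentralSeries b)]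
      refine le_trans (Subgroup.commutator_mono (ih b) le_rfl) ?_
      rw [Subgroup.commutator_le, show a + 1 + b + 3 = a + b + 3 + 1 by omega]
      intro x hx y _
      exact (isoF_filt (G := G)).comm _ 1 (by omega) le_rfl x hx y (by
        rw [isoF_one]
        exact Subgroup.mem_top y)

theorem isoF_shift (φ : G →* Multiplicative ℤ) (t : G) (ht : φ t = Multiplicative.ofAdd 1)
    (h : ∀ j : ℕ, ∀ x ∈ φ.ker, ∀ y ∈ φ.ker, y ∈ (⊤ : Subgroup G).lowerCentralSeries j →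
      ∃ n : ℕ, 0 < n ∧ (x * y * x⁻¹ * y⁻¹) ^ n ∈ (⊤ : Subgroup G).lowerCentralSeries (j + 2)) :
    ∀ i j, 1 ≤ i → 1 ≤ j → ∀ x ∈ φ.ker, ∀ y ∈ φ.ker, x ∈ isoF G i → y ∈ isoF G j →
      x * y * x⁻¹ * y⁻¹ ∈ isoF G (i + j + 1) := by
  intro i j hi hj x hx y hy hxi hyj
  obtain ⟨n, hn, h1⟩ := mem_isol.1 hxi
  obtain ⟨m, hm, h2⟩ := mem_isol.1 hyj
  have h3 := IShift_sub φ t ht h (i - 1) (j - 1) (Subgroup.commutator_mem_commutator
    (⟨pow_mem hx n, h1⟩ : x ^ n ∈ φ.ker ⊓ (⊤ : Subgroup G).lowerCentralSeries (i - 1))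
    (⟨pow_mem hy m, h2⟩ : y ^ m ∈ φ.ker ⊓ (⊤ : Subgroup G).lowerCentralSeries (j - 1)))
  rw [show i - 1 + (j - 1) + 3 = i + j + 1 by omega] at h3
  exact isol_comm hn hm h3

end Pool.Agent.MP_b3b911_al.Fil

end

section

namespace Pool.Agent.MP_b3b911_al.Fil

variable {G : Type*} [Group G] [Group.IsNilpotent G]

omit [Group.IsNilpotent G] in
/-- bilinearity of commutators with central values -/
theorem IGen_main {Q : Type*} [Group Q] (π : G →* Q) (φ : G →* Multiplicative ℤ) (t : G)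
    (ht : φ t = Multiplicative.ofAdd 1) (A : Subgroup G)
    (hc : ∀ g, ∀ b ∈ A, ∀ q, π (g * b * g⁻¹ * b⁻¹) * π q = π q * π (g * b * g⁻¹ * b⁻¹))
    (hk : ∀ g ∈ φ.ker, ∀ b ∈ A, π (g * b * g⁻¹ * b⁻¹) = 1) :
    ∀ z ∈ ⁅A, (⊤ : Subgroup G)⁆, ∃ b ∈ A, π (t * b * t⁻¹ * b⁻¹) = π z := by
  have hr : ∀ g b b', b' ∈ A → π (g * (b * b') * g⁻¹ * (b * b')⁻¹) =
      π (g * b * g⁻¹ * b⁻¹) * π (g * b' * g⁻¹ * b'⁻¹) := fun g b b' hb' => by
    have e : g * (b * b') * g⁻¹ * (b * b')⁻¹ =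
        g * b * g⁻¹ * b⁻¹ * (b * (g * b' * g⁻¹ * b'⁻¹) * b⁻¹) := by group
    rw [e, map_mul π _ (b * _ * _), map_mul π (b * _), map_mul π b, ← hc g b' hb' b,
      mul_assoc (π _) (π b), ← map_mul π b, mul_inv_cancel, map_one, mul_one]
  have hl : ∀ g g' b, b ∈ A → π (g * g' * b * (g * g')⁻¹ * b⁻¹) =
      π (g' * b * g'⁻¹ * b⁻¹) * π (g * b * g⁻¹ * b⁻¹) := fun g g' b hb => by
    have e : g * g' * b * (g * g')⁻¹ * b⁻¹ =
        g * (g' * b * g'⁻¹ * b⁻¹) * g⁻¹ * (g * b * g⁻¹ * b⁻¹) := by group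
    rw [e, map_mul π _ (g * b * _ * _), map_mul π (g * _), map_mul π g, ← hc g' b hb g,
      mul_assoc (π _) (π g), ← map_mul π g, mul_inv_cancel, map_one, mul_one]
  let K : Subgroup Q :=
    { carrier := {q | ∃ b ∈ A, π (t * b * t⁻¹ * b⁻¹) = q}
      one_mem' := ⟨1, A.one_mem, by simp⟩
      mul_mem' := by
        rintro _ _ ⟨b, hb, rfl⟩ ⟨b', hb', rfl⟩
        exact ⟨b * b', A.mul_mem hb hb', hr t b b' hb'⟩
      inv_mem' := by
        rintro _ ⟨b, hb, rfl⟩
        refine ⟨b⁻¹, A.inv_mem hb, eq_inv_of_mul_eq_one_right ?_⟩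
        rw [← hr t b b⁻¹ (A.inv_mem hb)]
        simp }
  suffices h : ⁅A, (⊤ : Subgroup G)⁆ ≤ K.comap π from fun z hz => h hz
  refine Subgroup.commutator_le.2 fun a ha g _ => ?_
  let L : Subgroup G :=
    { carrier := {g | π (g * a * g⁻¹ * a⁻¹) ∈ K}
      one_mem' := by simp
      mul_mem' := fun {x y} hx hy => by
        rw [Set.mem_ofPred_eq, hl x y a ha]
        exact K.mul_mem hy hx
      inv_mem' := fun {x} hx => by
        have h1 := hl x x⁻¹ a ha
        rw [mul_inv_cancel, one_mul, inv_one, mul_one, mul_inv_cancel, map_one] at h1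
        rw [Set.mem_ofPred_eq, eq_inv_of_mul_eq_one_left h1.symm]
        exact K.inv_mem hx }
  have h1 : t ∈ L := ⟨a, ha, rfl⟩
  have h2 : g * t ^ (-(φ g).toAdd) ∈ L := by
    change π _ ∈ K
    rw [hk _ _ a ha]
    · exact K.one_mem
    · rw [MonoidHom.mem_ker, map_mul, map_zpow, ht, ← ofAdd_zsmul, smul_eq_mul, mul_one,
        ofAdd_neg, ofAdd_toAdd, mul_inv_cancel]
  have h3 : g ∈ L := (L.mul_mem_cancel_right (L.zpow_mem h1 _)).1 h2
  have e : a * g * a⁻¹ * g⁻¹ = (g * a * g⁻¹ * a⁻¹)⁻¹ := by group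
  rw [Subgroup.mem_comap, commutatorElement_def, e, map_inv]
  exact K.inv_mem h3

theorem isoF_gen (φ : G →* Multiplicative ℤ) (t : G) (ht : φ t = Multiplicative.ofAdd 1)
    (h : ∀ j : ℕ, ∀ x ∈ φ.ker, ∀ y ∈ φ.ker, y ∈ (⊤ : Subgroup G).lowerCentralSeries j →
      ∃ n : ℕ, 0 < n ∧ (x * y * x⁻¹ * y⁻¹) ^ n ∈ (⊤ : Subgroup G).lowerCentralSeries (j + 2)) :
    ∀ p, 1 ≤ p → ∀ γ ∈ isoF G (p + 1), ∃ n : ℕ, 0 < n ∧ ∃ β ∈ φ.ker, β ∈ isoF G p ∧
      (t * β * t⁻¹ * β⁻¹)⁻¹ * γ ^ n ∈ isoF G (p + 2) := by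
  intro p hp γ hγ
  obtain ⟨p, rfl⟩ : ∃ k, p = k + 1 := ⟨p - 1, by omega⟩
  have := (isoF_filt (G := G)).normal (p + 1 + 2)
  have hT : ∀ g : G, g ∈ isoF G 1 := fun g => by
    rw [isoF_one]
    exact Subgroup.mem_top g
  have hA : ∀ b ∈ φ.ker ⊓ (⊤ : Subgroup G).lowerCentralSeries p, b ∈ isoF G (p + 1) :=
    fun b hb => mem_isol.2 ⟨1, one_pos, by
      rw [pow_one]
      exact hb.2⟩
  obtain ⟨n, hn, h1⟩ := mem_isol.1 hγ
  obtain ⟨b, hb, h2⟩ := IGen_main (QuotientGroup.mk' (isoF G (p + 1 + 2))) φ t ht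
    (φ.ker ⊓ (⊤ : Subgroup G).lowerCentralSeries p) (fun g b hb q => by
      have h3 := isoF_filt.comm 1 (p + 1) le_rfl hp g (hT g) b (hA b hb)
      have h4 := isoF_filt.comm (1 + (p + 1)) 1 (by omega) le_rfl _ h3 q (hT q)
      rw [show 1 + (p + 1) + 1 = p + 1 + 2 by omega, ← QuotientGroup.eq_one_iff] at h4
      rw [← mul_inv_eq_one, ← map_mul, ← map_mul, ← map_inv, ← map_mul, mul_inv_rev, ← mul_assoc]
      exact h4) (fun g hg b hb => by
      have h3 := isoF_shift φ t ht h 1 (p + 1) le_rfl hp g hg b hb.1 (hT g) (hA b hb)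
      rw [show 1 + (p + 1) + 1 = p + 1 + 2 by omega, ← QuotientGroup.eq_one_iff] at h3
      exact h3) (γ ^ n) (lcs_le_ker_comm φ t ht p h1)
  exact ⟨n, hn, b, hb.1, hA b hb, QuotientGroup.eq.1 h2⟩

theorem fdata (htf : ∀ g : G, IsOfFinOrder g → g = 1) (φ : G →* Multiplicative ℤ) (t : G)
    (ht : φ t = Multiplicative.ofAdd 1)
    (h : ∀ j : ℕ, ∀ x ∈ φ.ker, ∀ y ∈ φ.ker, y ∈ (⊤ : Subgroup G).lowerCentralSeries j →
      ∃ n : ℕ, 0 < n ∧ (x * y * x⁻¹ * y⁻¹) ^ n ∈ (⊤ : Subgroup G).lowerCentralSeries (j + 2)) :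
    FData φ t (isoF G) := by
  exact ⟨ht, isoF_filt, isoF_one, isoF_bot htf, fun n g k hk hg => isol_pow hk hg, isoF_two φ,
    isoF_shift φ t ht h, isoF_gen φ t ht h⟩

end Pool.Agent.MP_b3b911_al.Fil

end

section

namespace Pool.Agent.MP_b3b911_al.Fil

open scoped commutatorElement

variable {G : Type*} [Group G]

theorem IFg_comm {A : Type*} [CommGroup A] [Group.FG A] (H : Subgroup A) : H.FG := by
  have : Module.Finite ℤ (Additive A) := Module.Finite.iff_addGroup_fg.2 inferInstance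
  rw [Subgroup.fg_iff_add_fg, ← AddSubgroup.toIntSubmodule_toAddSubgroup H.toAddSubgroup,
    ← Submodule.fg_iff_addSubgroup_fg]
  exact IsNoetherian.noetherian _

theorem IFg_central {B H : Subgroup G} (hB : B ≤ Subgroup.center G) (hfg : B.FG) (h : H ≤ B) :
    H.FG ∧ ((∀ g ∈ H, IsOfFinOrder g) → Finite H) := by
  have h1 : H.FG := by
    let _ : CommGroup B :=
      { (inferInstance : Group B) with
        mul_comm := fun a b => Subtype.ext (Subgroup.mem_center_iff.1 (hB b.2) a) }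
    have : Group.FG B := (Group.fg_iff_subgroup_fg B).2 hfg
    have : Group.FG (H.subgroupOf B) := (Group.fg_iff_subgroup_fg _).2 (IFg_comm _)
    exact (Group.fg_iff_subgroup_fg H).1
      (Group.fg_of_surjective (f := (Subgroup.subgroupOfEquivOfLe h).toMonoidHom)
        (Subgroup.subgroupOfEquivOfLe h).surjective)
  refine ⟨h1, fun ht => ?_⟩
  let _ : CommGroup H :=
    { (inferInstance : Group H) with
      mul_comm := fun a b => Subtype.ext (Subgroup.mem_center_iff.1 (hB (h b.2)) a) }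
  have : Group.FG H := (Group.fg_iff_subgroup_fg H).2 h1
  exact CommGroup.finite_of_fg_isMulTorsion H fun g =>
    (H.subtype_injective.isOfFinOrder_iff).1 (ht g g.2)

theorem IFg_ext {Q : Type*} [Group Q] (π : G →* Q) {H : Subgroup G} (h1 : (H.map π).FG)
    (h2 : (H ⊓ π.ker).FG) : H.FG := by
  obtain ⟨S, hS, hf⟩ := (Subgroup.fg_iff _).1 h1
  obtain ⟨T, hT, hTf, rfl⟩ := hf.exists_subset_finite_image_eq (f := π) (s := H)
    (by rw [← Subgroup.coe_map, ← hS]; exact Subgroup.subset_closure)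
  have hc : Subgroup.closure T ≤ H := (Subgroup.closure_le H).2 hT
  have e : H = Subgroup.closure T ⊔ H ⊓ π.ker := by
    refine le_antisymm (fun g hg => ?_) (sup_le hc inf_le_left)
    have : π g ∈ (Subgroup.closure T).map π := by
      rw [MonoidHom.map_closure, hS]
      exact Subgroup.mem_map_of_mem π hg
    obtain ⟨t, ht, e⟩ := this
    rw [← mul_inv_cancel_left t g]
    refine mul_mem (Subgroup.mem_sup_left ht) (Subgroup.mem_sup_right
      ⟨H.mul_mem (H.inv_mem (hc ht)) hg, ?_⟩)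
    change π (t⁻¹ * g) = 1
    rw [map_mul, map_inv, e, inv_mul_cancel]
  rw [e]
  exact ((Subgroup.fg_iff _).2 ⟨T, rfl, hTf⟩).sup h2

theorem IFg_fin {Q : Type*} [Group Q] (π : G →* Q) {H : Subgroup G} (h1 : Finite (H.map π))
    (h2 : Finite (H ⊓ π.ker : Subgroup G)) : Finite H := by
  refine (π.comp H.subtype).finite_iff_finite_ker_range.2 ⟨?_, ?_⟩
  · exact Finite.of_injective
      (fun x => (⟨x.1.1, x.1.2, x.2⟩ : (H ⊓ π.ker : Subgroup G)))
      fun x y e => Subtype.ext (Subtype.ext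
        (congrArg (fun z : (H ⊓ π.ker : Subgroup G) => (z : G)) e))
  · rwa [MonoidHom.range_comp, Subgroup.range_subtype]

theorem IFg_gen [Group.FG G] (i : ℕ) : ∃ S : Set G, S.Finite ∧
    S ⊆ (⊤ : Subgroup G).lowerCentralSeries i ∧ (⊤ : Subgroup G).lowerCentralSeries i ≤
      Subgroup.closure S ⊔ (⊤ : Subgroup G).lowerCentralSeries (i + 1) := by
  obtain ⟨T, hT, hTf⟩ := Group.fg_iff.1 ‹_›
  induction i with
  | zero => exact ⟨T, hTf, fun _ _ => Subgroup.mem_top _, by rw [hT]; exact le_sup_left⟩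
  | succ i ih =>
    obtain ⟨S, hS, h1, h2⟩ := ih
    have h3 : Set.image2 (fun s t : G => ⁅s, t⁆) S T ⊆
        (⊤ : Subgroup G).lowerCentralSeries (i + 1) := by
      rintro _ ⟨s, hs, t, -, rfl⟩
      exact Subgroup.commutator_mem_commutator (h1 hs) (Subgroup.mem_top _)
    refine ⟨_, hS.image2 _ hTf, h3, ?_⟩
    set K := Subgroup.closure (Set.image2 (fun s t : G => ⁅s, t⁆) S T) ⊔
      (⊤ : Subgroup G).lowerCentralSeries (i + 1 + 1) with hK
    have h4 : ∀ y ∈ (⊤ : Subgroup G).lowerCentralSeries (i + 1), ∀ g, ⁅y, g⁆ ∈ K := fun y hy g =>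
      Subgroup.mem_sup_right (Subgroup.commutator_mem_commutator hy (Subgroup.mem_top _))
    have hKle : K ≤ (⊤ : Subgroup G).lowerCentralSeries (i + 1) :=
      sup_le ((Subgroup.closure_le _).2 h3)
        ((⊤ : Subgroup G).lowerCentralSeries_antitone (Nat.le_succ _))
    have : K.Normal := ⟨fun k hk g => by
      have e : g * k * g⁻¹ = ⁅k, g⁆⁻¹ * k := by
        rw [commutatorElement_def]
        group
      rw [e]
      exact mul_mem (inv_mem (h4 k (hKle hk) g)) hk⟩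
    have h5 : ∀ x g : G, Commute (QuotientGroup.mk' K x) (QuotientGroup.mk' K g) ↔ ⁅x, g⁆ ∈ K :=
      fun x g => by
        rw [← commutatorElement_eq_one_iff_commute, ← map_commutatorElement,
          ← MonoidHom.mem_ker, QuotientGroup.ker_mk']
    have h6 : ∀ s ∈ S, ∀ g, ⁅s, g⁆ ∈ K := by
      intro s hs g
      have hg : g ∈ Subgroup.closure T := hT ▸ Subgroup.mem_top g
      rw [← h5]
      induction hg using Subgroup.closure_induction with
      | mem t ht =>
        exact (h5 _ _).2 (Subgroup.mem_sup_left (Subgroup.subset_closure ⟨s, hs, t, ht, rfl⟩))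
      | one => rw [map_one]; exact Commute.one_right _
      | mul a b _ _ ha hb => rw [map_mul]; exact ha.mul_right hb
      | inv a _ ha => rw [map_inv]; exact ha.inv_right
    refine Subgroup.commutator_le.2 fun x hx g _ => (h5 x g).1 ?_
    have h7 : Subgroup.closure S ⊔ (⊤ : Subgroup G).lowerCentralSeries (i + 1) ≤
        (Subgroup.centralizer {QuotientGroup.mk' K g}).comap (QuotientGroup.mk' K) :=
      sup_le ((Subgroup.closure_le _).2 fun s hs =>
        Subgroup.mem_centralizer_singleton_iff.2 ((h5 s g).2 (h6 s hs g)))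
        fun y hy => Subgroup.mem_centralizer_singleton_iff.2 ((h5 y g).2 (h4 y hy g))
    exact Subgroup.mem_centralizer_singleton_iff.1 (h7 (h2 hx))

theorem IFg_main [Group.IsNilpotent G] [Group.FG G] (H : Subgroup G) :
    H.FG ∧ ((∀ g ∈ H, IsOfFinOrder g) → Finite H) := by
  obtain ⟨c, hc⟩ := Subgroup.nilpotent_iff_lowerCentralSeries.1 ‹Group.IsNilpotent G›
  have key : ∀ i ≤ c, ∀ H ≤ (⊤ : Subgroup G).lowerCentralSeries i,
      H.FG ∧ ((∀ g ∈ H, IsOfFinOrder g) → Finite H) := by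
    intro i hi
    induction hi using Nat.decreasingInduction with
    | self =>
      intro H hH
      rw [hc, le_bot_iff] at hH
      subst hH
      exact ⟨Subgroup.FG.bot, fun _ => inferInstance⟩
    | of_succ i _ ih =>
      intro H hH
      obtain ⟨S, hS, h1, h2⟩ := IFg_gen (G := G) i
      let π := QuotientGroup.mk' ((⊤ : Subgroup G).lowerCentralSeries (i + 1))
      have hB : Subgroup.closure (π '' S) ≤ Subgroup.center _ := by
        refine (Subgroup.closure_le _).2 ?_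
        rintro _ ⟨s, hs, rfl⟩
        refine Subgroup.mem_center_iff.2 fun q => ?_
        obtain ⟨g, rfl⟩ := QuotientGroup.mk'_surjective _ q
        refine (commutatorElement_eq_one_iff_mul_comm.1 ?_).symm
        rw [← map_commutatorElement, ← MonoidHom.mem_ker, QuotientGroup.ker_mk']
        exact Subgroup.commutator_mem_commutator (h1 hs) (Subgroup.mem_top _)
      have hle : H.map π ≤ Subgroup.closure (π '' S) := by
        refine (Subgroup.map_mono (hH.trans h2)).trans ?_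
        rw [Subgroup.map_sup, MonoidHom.map_closure, QuotientGroup.map_mk'_self, sup_bot_eq]
      obtain ⟨a1, a2⟩ := IFg_central hB ((Subgroup.fg_iff _).2 ⟨_, rfl, hS.image π⟩) hle
      obtain ⟨b1, b2⟩ := ih (H ⊓ π.ker) (inf_le_right.trans (QuotientGroup.ker_mk' _).le)
      refine ⟨IFg_ext π a1 b1, fun ht => IFg_fin π (a2 ?_) (b2 fun g hg => ht g hg.1)⟩
      rintro _ ⟨g, hg, rfl⟩
      exact π.isOfFinOrder (ht g hg)
  exact key 0 (Nat.zero_le c) H le_top

theorem sub_fg [Group.IsNilpotent G] [Group.FG G] (H : Subgroup G) : H.FG := by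
  exact (IFg_main H).1

theorem tors_finite [Group.IsNilpotent G] [Group.FG G] (H : Subgroup G)
    (hH : ∀ g ∈ H, IsOfFinOrder g) : Finite H := by
  exact (IFg_main H).2 hH

end Pool.Agent.MP_b3b911_al.Fil

end

section

namespace Pool.Agent.MP_b3b911_al.Fil

variable {G Q : Type*} [Group G] [Group Q] [DecidableEq Q]

omit [DecidableEq Q] in
theorem IQuot_card (π : G →* Q) (T : Set Q) (hT : ∀ t ∈ T, ∃ g, π g = t) :
    (π ⁻¹' T).ncard = Nat.card π.ker * T.ncard := by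
  choose s hs using fun t : T => hT t t.2
  have hm : ∀ p : π.ker × T, π (s p.2 * p.1) = p.2 := fun p => by
    rw [map_mul, hs, MonoidHom.mem_ker.1 p.1.2, mul_one]
  rw [← Nat.card_coe_set_eq, ← Nat.card_coe_set_eq, ← Nat.card_prod]
  refine (Nat.card_eq_of_bijective (fun p : π.ker × T =>
    (⟨s p.2 * p.1, by rw [Set.mem_preimage, hm]; exact p.2.2⟩ : π ⁻¹' T)) ⟨?_, ?_⟩).symm
  · rintro ⟨z, t⟩ ⟨z', t'⟩ h
    have h1 : s t * z = s t' * z' := congrArg Subtype.val h
    obtain rfl : t = t' := Subtype.ext ((hm (z, t)).symm.trans (h1 ▸ hm (z', t')))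
    rw [Subtype.ext (mul_left_cancel h1)]
  · rintro ⟨g, hg⟩
    refine ⟨(⟨(s ⟨π g, hg⟩)⁻¹ * g, ?_⟩, ⟨π g, hg⟩), Subtype.ext (mul_inv_cancel_left _ _)⟩
    rw [MonoidHom.mem_ker, map_mul, map_inv, hs, inv_mul_cancel]

theorem IQuot_map (S : Finset G) (π : G →* Q) {q : ℝ} {g : G} (h : Ball S q g) :
    Ball (S.image π) q (π g) := by
  obtain ⟨l, h1, h2, rfl⟩ := h
  refine ⟨l.map π, by simpa using h1, fun y hy => ?_, (map_list_prod π l).symm⟩
  obtain ⟨x, hx, rfl⟩ := List.mem_map.1 hy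
  exact (h2 x hx).imp (Finset.mem_image_of_mem π) fun h => map_inv π x ▸ Finset.mem_image_of_mem π h

theorem IQuot_lift (S : Finset G) (π : G →* Q) {q : ℝ} {t : Q} (h : Ball (S.image π) q t) :
    ∃ g, Ball S q g ∧ π g = t := by
  obtain ⟨l, h1, h2, rfl⟩ := h
  have key : ∃ l' : List G, Word S l' ∧ l'.map π = l := by
    clear h1
    induction l with
    | nil => exact ⟨[], fun y hy => by simp at hy, rfl⟩
    | cons y l ih =>
      obtain ⟨l', a1, rfl⟩ := ih fun x hx => h2 x (List.mem_cons_of_mem _ hx)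
      have hy : ∃ x, (x ∈ S ∨ x⁻¹ ∈ S) ∧ π x = y := by
        rcases h2 y List.mem_cons_self with h | h
        · obtain ⟨x, hx, e⟩ := Finset.mem_image.1 h
          exact ⟨x, Or.inl hx, e⟩
        · obtain ⟨x, hx, e⟩ := Finset.mem_image.1 h
          exact ⟨x⁻¹, Or.inr (by rwa [inv_inv]), by rw [map_inv, e, inv_inv]⟩
      obtain ⟨x, hx, rfl⟩ := hy
      exact ⟨x :: l', fun z hz => (List.mem_cons.1 hz).elim (fun e => e ▸ hx) (a1 z), rfl⟩
  obtain ⟨l', a1, rfl⟩ := key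
  exact ⟨l'.prod, ⟨l', by simpa using h1, a1, rfl⟩, map_list_prod π l'⟩

theorem quot_transfer (S : Finset G) (hS : Subgroup.closure (S : Set G) = ⊤) (π : G →* Q)
    (hfin : Finite π.ker) {c C : ℝ} {e : ℕ} (hc : 0 < c)
    (h : ∀ k : ℕ, 1 ≤ k →
      |(growth (S.image π) k : ℝ) - c * (k : ℝ) ^ (e + 1)| ≤ C * (k : ℝ) ^ e) :
    ∃ c' C' : ℝ, 0 < c' ∧ ∀ k : ℕ, 1 ≤ k →
      |(growth S k : ℝ) - c' * (k : ℝ) ^ (e + 1)| ≤ C' * (k : ℝ) ^ e := by
  choose w hw using fun z : π.ker => exists_word hS (z : G)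
  obtain ⟨n, hn⟩ := (Set.finite_range fun z => (w z).length).bddAbove
  have hC : 0 ≤ C := by simpa using (abs_nonneg _).trans (h 1 le_rfl)
  have hτ : (0 : ℝ) < Nat.card π.ker := Nat.cast_pos.2 Nat.card_pos
  have hsub : ∀ k : ℕ, π ⁻¹' {t | Ball (S.image π) k t} ⊆ {g | Ball S (k + n : ℕ) g} := by
    intro k g hg
    obtain ⟨_, ⟨l, a1, a2, rfl⟩, a3⟩ := IQuot_lift S π hg
    have hz : l.prod⁻¹ * g ∈ π.ker := by
      rw [MonoidHom.mem_ker, map_mul, map_inv, a3, inv_mul_cancel]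
    refine ⟨l ++ w ⟨_, hz⟩, ?_, a2.append (hw _).1, ?_⟩
    · have a4 : (w ⟨_, hz⟩).length ≤ n := hn ⟨_, rfl⟩
      have a5 : l.length ≤ k := by exact_mod_cast a1
      rw [List.length_append]
      exact_mod_cast add_le_add a5 a4
    · rw [List.prod_append, (hw _).2, mul_inv_cancel_left]
  have hcard : ∀ k : ℕ, (π ⁻¹' {t | Ball (S.image π) k t}).ncard =
      Nat.card π.ker * growth (S.image π) k := fun k => by
    rw [growth_eq]
    exact IQuot_card π _ fun t ht => (IQuot_lift S π ht).imp fun _ h => h.2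
  have hup : ∀ k : ℕ, (growth S k : ℝ) ≤ Nat.card π.ker * growth (S.image π) k := fun k => by
    have := Set.ncard_le_ncard (s := {g | Ball S k g})
      (t := π ⁻¹' {t | Ball (S.image π) k t}) (fun g hg => IQuot_map S π hg)
      ((ball_finite S _).subset (hsub k))
    rw [hcard, ← growth_eq] at this
    exact_mod_cast this
  have hlo : ∀ k : ℕ, (Nat.card π.ker * growth (S.image π) k : ℝ) ≤ growth S (k + n) := fun k => by
    have := Set.ncard_le_ncard (hsub k) (ball_finite S _)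
    rw [hcard, ← growth_eq] at this
    exact_mod_cast this
  refine ⟨Nat.card π.ker * c, Nat.card π.ker * (C + c * (n * (e + 1))), mul_pos hτ hc,
    fun k hk => abs_le.2 ⟨?_, ?_⟩⟩
  · have key : c * (k : ℝ) ^ (e + 1) - (C + c * (n * (e + 1))) * (k : ℝ) ^ e ≤
        growth S k / Nat.card π.ker := by
      rcases le_or_gt k n with hkn | hkn
      · refine le_trans ?_ (div_nonneg (Nat.cast_nonneg _) hτ.le)
        have a1 : (k : ℝ) ≤ n * (e + 1) := by
          exact_mod_cast hkn.trans (Nat.le_mul_of_pos_right n e.succ_pos)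
        have a2 : (0 : ℝ) ≤ (k : ℝ) ^ e := by positivity
        have a3 := mul_le_mul_of_nonneg_left (mul_le_mul_of_nonneg_left a1 a2) hc.le
        rw [pow_succ]
        nlinarith [mul_nonneg hC a2]
      · obtain ⟨m, rfl⟩ := Nat.exists_eq_add_of_le' hkn.le
        have a1 := (abs_le.1 (h m (by omega))).1
        have a2 := (le_div_iff₀' hτ).2 (hlo m)
        have a3 : (m : ℝ) ≤ (m + n : ℕ) := by exact_mod_cast Nat.le_add_right m n
        have a4 := (le_abs_self _).trans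
          (abs_pow_sub_pow_le (a := ((m + n : ℕ) : ℝ)) (b := m) (n := e + 1))
        rw [Nat.abs_cast, Nat.abs_cast, max_eq_left a3, Nat.add_sub_cancel,
          show ((m + n : ℕ) : ℝ) - m = n by push_cast; ring, Nat.abs_cast] at a4
        have a5 := mul_le_mul_of_nonneg_left (pow_le_pow_left₀ (Nat.cast_nonneg m) a3 e) hC
        have a6 := mul_le_mul_of_nonneg_left a4 hc.le
        push_cast at a6 a5 a2 ⊢
        linarith
    have := (le_div_iff₀' hτ).1 key
    linarith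
  · have a1 := mul_le_mul_of_nonneg_left (abs_le.1 (h k hk)).2 hτ.le
    have a2 : (0 : ℝ) ≤ Nat.card π.ker * (c * (n * (e + 1))) * (k : ℝ) ^ e := by positivity
    have a3 := hup k
    linarith

end Pool.Agent.MP_b3b911_al.Fil

end

section

namespace Pool.Agent.MP_b3b911_al.Fil

variable {G : Type*} [Group G] {E : ℕ → Subgroup G} {H : Subgroup G} {d : ℕ} {f g : G → ℤ}

theorem NDeg_add (l : List (ℕ × G)) (f g : G → ℤ) :
    (Lds l fun x => f x + g x) = fun x => Lds l f x + Lds l g x := by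
  induction l generalizing f g with
  | nil => rfl
  | cons p l ih =>
    have e : (Ld p.2 fun x => f x + g x) = fun x => Ld p.2 f x + Ld p.2 g x := by
      funext x
      simp only [Ld]
      ring
    simp only [Lds]
    rw [e, ih]

theorem NDeg_neg (l : List (ℕ × G)) (f : G → ℤ) :
    (Lds l fun x => -f x) = fun x => -Lds l f x := by
  induction l generalizing f with
  | nil => rfl
  | cons p l ih =>
    have e : (Ld p.2 fun x => -f x) = fun x => -Ld p.2 f x := by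
      funext x
      simp only [Ld]
      ring
    simp only [Lds]
    rw [e, ih]

theorem NDeg_rt (l : List (ℕ × G)) (f : G → ℤ) (a : G) :
    (Lds l fun x => f (x * a)) = fun x => Lds l f (x * a) := by
  induction l generalizing f with
  | nil => rfl
  | cons p l ih =>
    have e : (Ld p.2 fun x => f (x * a)) = fun x => Ld p.2 f (x * a) := by
      funext x
      simp only [Ld, mul_assoc]
    simp only [Lds]
    rw [e, ih]

theorem NDeg_zero (l : List (ℕ × G)) : (Lds l fun _ : G => (0 : ℤ)) = fun _ => 0 := by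
  induction l with
  | nil => rfl
  | cons p l ih =>
    have e : (Ld p.2 fun _ : G => (0 : ℤ)) = fun _ => 0 := by
      funext x
      simp [Ld]
    simp only [Lds]
    rw [e, ih]

theorem NDeg_congr (l : List (ℕ × G)) (hl : ∀ p ∈ l, p.2 ∈ H) {f g : G → ℤ}
    (e : ∀ x ∈ H, g x = f x) : ∀ x ∈ H, Lds l g x = Lds l f x := by
  induction l generalizing f g with
  | nil => exact e
  | cons p l ih =>
    simp only [Lds]
    refine ih (fun q hq => hl q (List.mem_cons_of_mem _ hq)) fun x hx => ?_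
    simp only [Ld]
    rw [e x hx, e _ (H.mul_mem (hl p List.mem_cons_self) hx)]

theorem NDeg_snoc (l : List (ℕ × G)) (p : ℕ × G) (f : G → ℤ) :
    Lds (l ++ [p]) f = Ld p.2 (Lds l f) := by
  induction l generalizing f with
  | nil => rfl
  | cons q l ih =>
    simp only [List.cons_append, Lds]
    rw [ih]

theorem deg_zero : Deg E H 0 f ↔ ∀ x ∈ H, f x = 0 := by
  refine ⟨fun h x hx => h [] (by simp) (by simp) x hx, fun h l hl _ x hx => ?_⟩
  rw [NDeg_congr l (fun p hp => (hl p hp).2.2) (f := fun _ => 0) h x hx, NDeg_zero]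

theorem Deg.mono (h : Deg E H d f) {d' : ℕ} (hd : d ≤ d') : Deg E H d' f := by
  intro l hl hs
  exact h l hl (hd.trans hs)

theorem Deg.congr (h : Deg E H d f) (e : ∀ x ∈ H, g x = f x) : Deg E H d g := by
  intro l hl hs x hx
  rw [NDeg_congr l (fun p hp => (hl p hp).2.2) e x hx]
  exact h l hl hs x hx

theorem Deg.add (h : Deg E H d f) (h' : Deg E H d g) : Deg E H d fun x => f x + g x := by
  intro l hl hs x hx
  rw [NDeg_add]
  simp only [h l hl hs x hx, h' l hl hs x hx, add_zero]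

theorem Deg.neg (h : Deg E H d f) : Deg E H d fun x => -f x := by
  intro l hl hs x hx
  rw [NDeg_neg]
  simp only [h l hl hs x hx, neg_zero]

theorem deg_const (hd : 1 ≤ d) (c : ℤ) : Deg E H d fun _ => c := by
  intro l _ hs x _
  cases l with
  | nil =>
    simp only [List.map_nil, List.sum_nil] at hs
    omega
  | cons p l =>
    have e : (Ld p.2 fun _ : G => c) = fun _ => 0 := by
      funext y
      simp [Ld]
    simp only [Lds]
    rw [e, NDeg_zero]

theorem Deg.ld (h : Deg E H d f) {j : ℕ} (hj : 1 ≤ j) {a : G} (ha : a ∈ E j) (haH : a ∈ H) :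
    Deg E H (d - j) (Ld a f) := by
  intro l hl hs x hx
  refine h ((j, a) :: l) ?_ ?_ x hx
  · intro p hp
    rcases List.mem_cons.1 hp with rfl | hp
    · exact ⟨hj, ha, haH⟩
    · exact hl p hp
  · simp only [List.map_cons, List.sum_cons]
    omega

theorem Deg.rd (hE : Filt E) (h : Deg E H d f) {j : ℕ} (hj : 1 ≤ j) {a : G} (ha : a ∈ E j)
    (haH : a ∈ H) : Deg E H (d - j) (Rd a f) := by
  intro l hl hs x hx
  have e : Rd a f = fun y => f (y * a) + -f y := by
    funext y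
    simp only [Rd]
    ring
  have h1 := h (l ++ [(j, x * a * x⁻¹)]) ?_ ?_ x hx
  · rw [NDeg_snoc] at h1
    simp only [Ld, inv_mul_cancel_right] at h1
    rw [e, NDeg_add, NDeg_neg, NDeg_rt]
    simp only []
    omega
  · intro p hp
    rcases List.mem_append.1 hp with hp | hp
    · exact hl p hp
    · rw [List.mem_singleton.1 hp]
      exact ⟨hj, (hE.normal j).conj_mem a ha x, H.mul_mem (H.mul_mem hx haH) (H.inv_mem hx)⟩
  · simp only [List.map_append, List.sum_append, List.map_cons, List.map_nil, List.sum_cons,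
      List.sum_nil]
    omega

theorem deg_intro (hd : 1 ≤ d)
    (h : ∀ j, 1 ≤ j → ∀ a ∈ E j, a ∈ H → Deg E H (d - j) (Ld a f)) : Deg E H d f := by
  intro l hl hs x hx
  cases l with
  | nil =>
    simp only [List.map_nil, List.sum_nil] at hs
    omega
  | cons p l =>
    obtain ⟨h1, h2, h3⟩ := hl p List.mem_cons_self
    simp only [List.map_cons, List.sum_cons] at hs
    exact h p.1 h1 p.2 h2 h3 l (fun q hq => hl q (List.mem_cons_of_mem _ hq)) (by omega) x hx

theorem deg_intro_one (hH : H ≤ E 1) (h1 : f 1 = 0)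
    (h : ∀ j, 1 ≤ j → ∀ a ∈ E j, a ∈ H → Deg E H (d - j) (Ld a f)) : Deg E H d f := by
  rcases Nat.eq_zero_or_pos d with rfl | hd
  · refine deg_zero.2 fun x hx => ?_
    have h2 := h 1 le_rfl x (hH hx) hx
    rw [Nat.zero_sub] at h2
    have h3 := deg_zero.1 h2 1 H.one_mem
    simp only [Ld, mul_one] at h3
    omega
  · exact deg_intro hd h

theorem Deg.ltrans (hH : H ≤ E 1) (h : Deg E H d f) {a : G} (ha : a ∈ H) :
    Deg E H d fun x => f (a * x) := by
  refine (((h.ld le_rfl (hH ha) ha).mono (Nat.sub_le _ _)).add h).congr fun x _ => ?_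
  simp only [Ld]
  ring

theorem Deg.rtrans (h : Deg E H d f) {a : G} (ha : a ∈ H) : Deg E H d fun x => f (x * a) := by
  intro l hl hs x hx
  rw [NDeg_rt]
  exact h l hl hs _ (H.mul_mem hx ha)

theorem Deg.van (h : Deg E H d f) {j : ℕ} (hj : 1 ≤ j) (hd : d ≤ j) {a x : G} (ha : a ∈ E j)
    (haH : a ∈ H) (hx : x ∈ H) : f (a * x) = f x := by
  have h1 := h [(j, a)] (by
    intro p hp
    rw [List.mem_singleton.1 hp]
    exact ⟨hj, ha, haH⟩) (by simpa using hd) x hx
  simp only [Lds, Ld] at h1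
  omega

theorem Deg.van2 (h : Deg E H d f) {i j : ℕ} (hi : 1 ≤ i) (hj : 1 ≤ j) (hd : d ≤ i + j)
    {a b x : G} (ha : a ∈ E i) (haH : a ∈ H) (hb : b ∈ E j) (hbH : b ∈ H) (hx : x ∈ H) :
    f (a * b * x) - f (a * x) - f (b * x) + f x = 0 := by
  have h1 := h [(i, a), (j, b)] (by
    intro p hp
    rcases List.mem_cons.1 hp with rfl | hp
    · exact ⟨hi, ha, haH⟩
    · rw [List.mem_singleton.1 hp]
      exact ⟨hj, hb, hbH⟩) (by simpa using hd) x hx
  simp only [Lds, Ld] at h1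
  rw [mul_assoc]
  omega

/-- conjugation by an element of weight `ω` changes `f` by a function of lower degree -/
theorem Deg.cd (hE : Filt E) (hH : H ≤ E 1) [H.Normal] (h : Deg E H d f) {ω : ℕ} (hω : 1 ≤ ω)
    {a : G} (ha : a ∈ E ω) : Deg E H (d - ω) (Cd a f) := by
  have hn : H.Normal := inferInstance
  induction d using Nat.strong_induction_on generalizing f with
  | _ d ih =>
    rcases Nat.eq_zero_or_pos d with rfl | hd
    · rw [Nat.zero_sub]
      refine deg_zero.2 fun x hx => ?_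
      have h0 := deg_zero.1 h
      simp only [Cd]
      rw [h0 x hx, h0 _ (hn.conj_mem x hx a), sub_zero]
    refine deg_intro_one hH (by simp [Cd]) fun j hj b hb hbH => ?_
    have hb' : a * b * a⁻¹ ∈ H := hn.conj_mem b hbH a
    have h1 : Deg E H (d - j - ω) (Cd a (Ld (a * b * a⁻¹) f)) :=
      ih (d - j) (by omega) (h.ld hj ((hE.normal j).conj_mem b hb a) hb')
    have h2 : Deg E H (d - (ω + j)) fun x => Ld (a * b * a⁻¹ * b⁻¹) f (b * x) :=
      (h.ld (by omega) (hE.comm ω j hω hj a ha b hb) (H.mul_mem hb' (H.inv_mem hbH))).ltrans hH hbH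
    refine ((h1.mono (d' := d - ω - j) (by omega)).add (h2.mono (by omega))).congr fun x _ => ?_
    simp only [Ld, Cd]
    have e1 : a * b * a⁻¹ * (a * x * a⁻¹) = a * (b * x) * a⁻¹ := by group
    have e2 : a * b * a⁻¹ * b⁻¹ * (b * x) = a * b * a⁻¹ * x := by group
    rw [e1, e2]
    ring

end Pool.Agent.MP_b3b911_al.Fil

end

section

namespace Pool.Agent.MP_b3b911_al.Fil

variable {G : Type*} [Group G] {φ : G →* Multiplicative ℤ} {t : G} {F : ℕ → Subgroup G}
  {J : Type} [Fintype J] [DecidableEq J]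

theorem NKap_iter (t g : G) (k : ℕ) (f : G → ℤ) :
    (fwdDiff (1 : ℤ))^[k] (fun y : ℤ => f (t ^ y * g * t ^ (-y))) =
      fun y : ℤ => ((Cd t)^[k] f) (t ^ y * g * t ^ (-y)) := by
  induction k generalizing f with
  | zero => rfl
  | succ k ih =>
    rw [Function.iterate_succ_apply, Function.iterate_succ_apply, ← ih]
    congr 1
    funext y
    have e : t ^ (y + 1) * g * t ^ (-(y + 1)) = t * (t ^ y * g * t ^ (-y)) * t⁻¹ := by
      group
    simp only [fwdDiff, Cd, e]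

theorem NKap_one (t : G) (k : ℕ) {f : G → ℤ} (hf : f 1 = 0) : ((Cd t)^[k] f) 1 = 0 := by
  induction k with
  | zero => exact hf
  | succ k _ =>
    rw [Function.iterate_succ_apply']
    simp [Cd]

theorem NKap_deg (h : FData φ t F) {d : ℕ} {f : G → ℤ} (hf : Deg F φ.ker d f) (k : ℕ) :
    Deg F φ.ker (d - k) ((Cd t)^[k] f) := by
  induction k with
  | zero => exact hf
  | succ k ih =>
    rw [Function.iterate_succ_apply']
    have ht : t ∈ F 1 := by rw [h.top]; exact Subgroup.mem_top t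
    have := ih.cd h.filt (by rw [h.top]; exact le_top) le_rfl ht
    rwa [Nat.sub_sub] at this

theorem NKap_const {ψ : ℤ → ℤ} (h : fwdDiff (1 : ℤ) ψ = 0) (y : ℤ) : ψ y = ψ 0 := by
  have h1 : ∀ y, ψ (y + 1) = ψ y := by
    intro y
    have := congrFun h y
    simp only [fwdDiff, Pi.zero_apply] at this
    omega
  induction y using Int.induction_on with
  | zero => rfl
  | succ n ih => rw [h1, ih]
  | pred n ih =>
    have := h1 (-(n : ℤ) - 1)
    rw [sub_add_cancel] at this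
    rw [← this, ih]

theorem NKap_conj (H : Subgroup G) (hH : H.Normal) (t : G) (y : ℤ) {g : G} (hg : g ∈ H) :
    t ^ y * g * t ^ (-y) ∈ H := by
  rw [zpow_neg]
  exact hH.conj_mem g hg _

theorem FData.deg_v (h : FData φ t F) (C : Coord F φ.ker J) (j : J) :
    Deg F φ.ker (C.w j + 1) fun g => C.v g j := by
  exact C.deg F 0 h.filt (fun _ _ => rfl) j

theorem FData.low (h : FData φ t F) (C : Coord F φ.ker J) {p : ℕ} {g : G} (hg : g ∈ φ.ker)
    (hgp : g ∈ F p) {j : J} (hj : C.w j < p) : C.v g j = 0 := by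
  have := (h.deg_v C j).van (j := p) (by omega) hj hgp hg (one_mem _)
  simpa [C.v_one] using this

theorem FData.mem_of_low (h : FData φ t F) (C : Coord F φ.ker J) {p : ℕ} {g : G} (hg : g ∈ φ.ker)
    (hv : ∀ j, C.w j < p → C.v g j = 0) : g ∈ F p := by
  obtain ⟨l, hl, hκ⟩ := C.word g hg
  have h0 := hκ fun j => if C.w j < p then 1 else 0
  have h1 : ∑ j, |(C.v g j : ℝ)| * (if C.w j < p then (1 : ℝ) else 0) = 0 := by
    refine Finset.sum_eq_zero fun j _ => ?_
    split_ifs with hj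
    · simp [hv j hj]
    · simp
  rw [h1] at h0
  have h2 : ∀ a ∈ l, p ≤ C.w a.1 := by
    intro a ha
    by_contra hlt
    have h3 : (if C.w a.1 < p then (1 : ℝ) else 0) ≤
        (l.map fun a => if C.w a.1 < p then (1 : ℝ) else 0).sum := by
      refine List.single_le_sum ?_ _ (List.mem_map.2 ⟨a, ha, rfl⟩)
      intro x hx
      obtain ⟨b, -, rfl⟩ := List.mem_map.1 hx
      split_ifs <;> norm_num
    rw [h0, if_pos (by omega)] at h3
    norm_num at h3
  rw [← hl]
  refine Subgroup.list_prod_mem _ fun x hx => ?_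
  obtain ⟨a, ha, rfl⟩ := List.mem_map.1 hx
  have h4 : C.b a.1 ∈ F p := h.filt.anti (h2 a ha) (C.b_mem a.1).2
  unfold lt
  split_ifs
  · exact h4
  · exact inv_mem h4

theorem FData.pdeg (h : FData φ t F) (C : Coord F φ.ker J) {p : ℕ} (hp : 1 ≤ p) {g : G}
    (hg : g ∈ φ.ker) (hgp : g ∈ F p) {j : J} (hj : p ≤ C.w j) :
    (fwdDiff (1 : ℤ))^[C.w j - p + 1] (fun y : ℤ => C.v (t ^ y * g * t ^ (-y)) j) = 0 := by
  rw [NKap_iter t g _ fun g => C.v g j]
  funext y
  have h1 := (NKap_deg h (h.deg_v C j) (C.w j - p + 1)).van hp (by omega)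
    (NKap_conj _ (h.filt.normal p) t y hgp) (NKap_conj _ inferInstance t y hg) (one_mem _)
  rw [mul_one, NKap_one t _ (by simp [C.v_one])] at h1
  exact h1

theorem NKap_ptop (h : FData φ t F) (C : Coord F φ.ker J) (i : J) (m : ℕ) :
    ∀ p : ℕ, 1 ≤ p → p + m = C.w i →
    ∃ (q : ℤ) (g : G), 0 < q ∧ (g ∈ φ.ker ∧ g ∈ F p) ∧ ∀ j, C.w j = C.w i →
    (fwdDiff (1 : ℤ))^[m] (fun y : ℤ => C.v (t ^ y * g * t ^ (-y)) j) =
      fun _ => if j = i then q else 0 := by
  induction m with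
  | zero =>
    intro p hp hi
    have hb : C.b i ∈ F p := by
      have := (C.b_mem i).2
      rwa [← hi] at this
    refine ⟨1, C.b i, one_pos, ⟨(C.b_mem i).1, hb⟩, fun j hj => ?_⟩
    have h1 := h.pdeg C hp (C.b_mem i).1 hb (j := j) (by omega)
    rw [show C.w j - p + 1 = 1 by omega, Function.iterate_one] at h1
    funext y
    rw [Function.iterate_zero_apply, NKap_const h1 y]
    simp [C.v_b, Pi.single_apply]
  | succ m ih =>
    intro p hp hi
    obtain ⟨q, γ, hq, ⟨hγ, hγp⟩, hj0⟩ := ih (p + 1) (by omega) (by omega)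
    obtain ⟨n, hn, β, hβ, hβp, hδ⟩ := h.gen p hp γ hγp
    refine ⟨n * q, β, by positivity, ⟨hβ, hβp⟩, fun j hj => ?_⟩
    have h1 := h.pdeg C hp hβ hβp (j := j) (by omega)
    rw [show C.w j - p + 1 = (m + 1) + 1 by omega, Function.iterate_succ_apply'] at h1
    funext y
    rw [NKap_const h1 y, NKap_iter t β _ fun g => C.v g j]
    have h2 := congrFun (hj0 j hj) 0
    rw [NKap_iter t γ _ fun g => C.v g j] at h2
    simp only [zpow_zero, neg_zero, one_mul, mul_one] at h2 ⊢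
    rw [Function.iterate_succ_apply']
    have hd := NKap_deg h (h.deg_v C j) m
    have hf1 : ((Cd t)^[m] fun g => C.v g j) 1 = 0 := NKap_one t _ (by simp [C.v_one])
    generalize ((Cd t)^[m] fun g => C.v g j) = f at hd hf1 h2 ⊢
    have ht : t ∈ F 1 := by rw [h.top]; exact Subgroup.mem_top t
    have hc : t * β * t⁻¹ * β⁻¹ ∈ F (1 + p) := h.filt.comm 1 p le_rfl hp t ht β hβp
    have hck : t * β * t⁻¹ * β⁻¹ ∈ φ.ker :=
      mul_mem ((inferInstance : φ.ker.Normal).conj_mem β hβ t) (inv_mem hβ)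
    generalize hcd : t * β * t⁻¹ * β⁻¹ = c at hc hck hδ
    have e1 : t * β * t⁻¹ = c * β * 1 := by rw [← hcd]; group
    have h3 := hd.van2 (i := 1 + p) (j := p) (by omega) hp (by omega) hc hck hβp hβ (one_mem _)
    have h4 : ∀ k : ℕ, f (γ ^ k) = k * f γ := by
      intro k
      induction k with
      | zero => simp [hf1]
      | succ k ihk =>
        have := hd.van2 (i := p + 1) (j := p + 1) (by omega) (by omega) (by omega)
          (pow_mem hγp k) (pow_mem hγ k) hγp hγ (one_mem _)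
        simp only [mul_one] at this
        rw [pow_succ]
        push_cast
        rw [hf1, ihk] at this
        linarith
    have h5 : f (γ ^ n) = f c := by
      have hδk : c⁻¹ * γ ^ n ∈ φ.ker := mul_mem (inv_mem hck) (pow_mem hγ n)
      have := hd.van (j := p + 2) (by omega) (by omega)
        ((h.filt.normal (p + 2)).conj_mem _ hδ c)
        ((inferInstance : φ.ker.Normal).conj_mem _ hδk c) hck
      rw [← this]
      congr 1
      group
    have h6 : Cd t f β = f c := by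
      simp only [Cd, e1]
      simp only [mul_one] at h3 ⊢
      linarith
    rw [h6, ← h5, h4, h2]
    split_ifs <;> simp

theorem FData.ptop (h : FData φ t F) (C : Coord F φ.ker J) {p : ℕ} (hp : 1 ≤ p) {i : J}
    (hi : p ≤ C.w i) : ∃ (q : ℤ) (g : G), 0 < q ∧ (g ∈ φ.ker ∧ g ∈ F p) ∧ ∀ j, C.w j = C.w i →
    (fwdDiff (1 : ℤ))^[C.w i - p] (fun y : ℤ => C.v (t ^ y * g * t ^ (-y)) j) =
      fun _ => if j = i then q else 0 := by
  exact NKap_ptop h C i (C.w i - p) p hp (by omega)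

theorem FData.occ (h : FData φ t F) (C : Coord F φ.ker J) {q : ℕ} (hq : 1 ≤ q) {i : J}
    (hi : q ≤ C.w i) : ∃ j, C.w j = q := by
  by_contra hne
  push Not at hne
  obtain ⟨q', g, hq', ⟨hg, hgp⟩, hj⟩ := h.ptop C hq hi
  have hg1 : g ∈ F (q + 1) := h.mem_of_low C hg fun j hj =>
    h.low C hg hgp (by have := hne j; omega)
  have hi' := hne i
  have h1 := h.pdeg C (p := q + 1) (by omega) hg hg1 (j := i) (by omega)
  rw [show C.w i - (q + 1) + 1 = C.w i - q by omega, hj i rfl] at h1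
  have := congrFun h1 0
  simp at this
  omega

end Pool.Agent.MP_b3b911_al.Fil

end

section

namespace Pool.Agent.MP_b3b911_al.Fil

variable {G : Type*} [Group G] {E : ℕ → Subgroup G} {H : Subgroup G} {Λ : Type*} [Finite Λ]
  {el : Λ → G} {w ω : Λ → ℕ}

omit [Finite Λ] in
theorem NPb_mem (hel : ∀ a, el a ∈ H) {K A : ℝ} {z : G} (hz : Cst el w K A z) : z ∈ H := by
  obtain ⟨l, rfl, -⟩ := hz
  refine H.list_prod_mem ?_
  intro x hx
  obtain ⟨a, -, rfl⟩ := List.mem_map.1 hx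
  exact hel a

theorem NPb_scale {K C X : ℝ} {d j i : ℕ} (hK : 1 ≤ K) (hC : 0 ≤ C) (hi : i ≤ j) (hj : j ≤ d)
    (h : X ≤ C * K ^ (d - j)) : K ^ i * X ≤ C * K ^ d := by
  have h0 : 0 < K := by linarith
  have h1 : K ^ i * K ^ (d - j) ≤ K ^ d := by
    rw [← pow_add]
    exact pow_le_pow_right₀ hK (by omega)
  calc K ^ i * X ≤ K ^ i * (C * K ^ (d - j)) := by gcongr
    _ = C * (K ^ i * K ^ (d - j)) := by ring
    _ ≤ C * K ^ d := by gcongr

omit [Finite Λ] in
theorem NPb_tele {K A M : ℝ} (hK : 1 ≤ K) (Fn : G → ℝ)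
    (h : ∀ a z, Cst el w K A z → |Fn (z * el a) - Fn z| ≤ M * (1 / K ^ w a)) (l : List Λ)
    (hl : (l.map fun a => 1 / K ^ w a).sum ≤ A) :
    |Fn (l.map el).prod - Fn 1| ≤ M * (l.map fun a => 1 / K ^ w a).sum := by
  have h0 : 0 < K := by linarith
  induction l using List.reverseRecOn with
  | nil => simp
  | append_singleton l a ih =>
    simp only [List.map_append, List.map_cons, List.map_nil, List.sum_append, List.sum_cons,
      List.sum_nil, add_zero, List.prod_append, List.prod_cons, List.prod_nil, mul_one] at hl ⊢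
    have hp : (0 : ℝ) ≤ 1 / K ^ w a := by positivity
    have hl' : (l.map fun a => 1 / K ^ w a).sum ≤ A := by linarith
    have h1 := ih hl'
    have h2 := h a (l.map el).prod ⟨l, rfl, hl'⟩
    have h3 := abs_sub_le (Fn ((l.map el).prod * el a)) (Fn (l.map el).prod) (Fn 1)
    rw [mul_add]
    linarith

theorem NPb_gen (hE : Filt E) (hω : ∀ a, 1 ≤ ω a) (hw : ∀ a, w a ≤ ω a)
    (hel : ∀ a, el a ∈ E (ω a) ∧ el a ∈ H) {T : Type*} (adm : ℝ → T → Prop)
    (Φ : (G → ℤ) → T → G → ℝ) (m : ℕ) (A : ℝ)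
    (hstep : ∀ f t z h, Φ f t (z * h) - Φ f t z = Φ (Rd h f) t z)
    (hvan : ∀ f : G → ℤ, (∀ x ∈ H, f x = 0) → ∀ K t, adm K t → ∀ z ∈ H, Φ f t z = 0)
    (hbase : ∀ d f, Deg E H d f → ∃ C : ℝ, 0 ≤ C ∧ ∀ K : ℝ, 1 ≤ K → ∀ t, adm K t →
      K ^ m * |Φ f t 1| ≤ C * K ^ d) (d : ℕ) :
    ∀ f, Deg E H d f → ∃ C : ℝ, 0 ≤ C ∧ ∀ K : ℝ, 1 ≤ K → ∀ t, adm K t → ∀ z, Cst el w K A z →
      K ^ m * |Φ f t z| ≤ C * K ^ d := by
  induction d using Nat.strong_induction_on with
  | _ d ih =>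
  intro f hf
  have key : ∀ a, ∃ C : ℝ, 0 ≤ C ∧ ∀ K : ℝ, 1 ≤ K → ∀ t, adm K t → ∀ z, Cst el w K A z →
      K ^ w a * (K ^ m * |Φ (Rd (el a) f) t z|) ≤ C * K ^ d := by
    intro a
    have hd := Deg.rd hE hf (hω a) (hel a).1 (hel a).2
    by_cases hle : ω a ≤ d
    · obtain ⟨C, hC, h⟩ := ih (d - ω a) (by have := hω a; omega) _ hd
      exact ⟨C, hC, fun K hK t ht z hz => NPb_scale hK hC (hw a) hle (h K hK t ht z hz)⟩
    · refine ⟨0, le_rfl, fun K hK t ht z hz => ?_⟩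
      rw [show d - ω a = 0 by omega] at hd
      rw [hvan _ (deg_zero.1 hd) K t ht z (NPb_mem (fun a => (hel a).2) hz)]
      simp
  choose Ca hCa hkey using key
  obtain ⟨M0, hM0⟩ := Finite.exists_le Ca
  obtain ⟨C0, hC0, hb⟩ := hbase d f hf
  refine ⟨C0 + max M0 0 * max A 0, by positivity, fun K hK t ht z hz => ?_⟩
  have h0 : 0 < K := by linarith
  obtain ⟨l, rfl, hl⟩ := hz
  have h1 := NPb_tele (el := el) (w := w) (A := A) (M := max M0 0 * K ^ d) hK
    (fun z => K ^ m * Φ f t z) (fun a z hz => by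
      have h2 := hkey a K hK t ht z hz
      have h3 : Ca a * K ^ d ≤ max M0 0 * K ^ d := by
        gcongr
        exact (hM0 a).trans (le_max_left _ _)
      rw [← mul_sub, hstep, abs_mul, abs_of_pos (pow_pos h0 m), mul_one_div,
        le_div_iff₀ (pow_pos h0 _)]
      linarith) l hl
  have h2 := hb K hK t ht
  have h3 : max M0 0 * K ^ d * (l.map fun a => 1 / K ^ w a).sum ≤ max M0 0 * K ^ d * max A 0 := by
    gcongr
    exact hl.trans (le_max_left _ _)
  have h4 : |K ^ m * Φ f t (l.map el).prod| ≤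
      |K ^ m * Φ f t (l.map el).prod - K ^ m * Φ f t 1| + |K ^ m * Φ f t 1| := by
    have := abs_add_le (K ^ m * Φ f t (l.map el).prod - K ^ m * Φ f t 1) (K ^ m * Φ f t 1)
    rwa [sub_add_cancel] at this
  rw [abs_mul, abs_mul, abs_of_pos (pow_pos h0 m)] at h4
  calc K ^ m * |Φ f t (l.map el).prod| ≤ C0 * K ^ d + max M0 0 * K ^ d * max A 0 := by linarith
    _ = (C0 + max M0 0 * max A 0) * K ^ d := by ring

theorem Cst.mul {K A B : ℝ} {x y : G} (hx : Cst el w K A x) (hy : Cst el w K B y) :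
    Cst el w K (A + B) (x * y) := by
  obtain ⟨l, rfl, hl⟩ := hx
  obtain ⟨l', rfl, hl'⟩ := hy
  refine ⟨l ++ l', by simp, ?_⟩
  rw [List.map_append, List.sum_append]
  exact add_le_add hl hl'

theorem pb0 (hE : Filt E) (hω : ∀ a, 1 ≤ ω a) (hw : ∀ a, w a ≤ ω a)
    (hel : ∀ a, el a ∈ E (ω a) ∧ el a ∈ H) {d : ℕ} {f : G → ℤ} (hf : Deg E H d f) (A : ℝ) :
    ∃ C : ℝ, 0 ≤ C ∧ ∀ K : ℝ, 1 ≤ K → ∀ z, Cst el w K A z → K * |(f z : ℝ)| ≤ C * K ^ d := by
  obtain ⟨C, hC, h⟩ := NPb_gen hE hω hw hel (T := Unit) (fun _ _ => True)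
    (fun f _ z => (f z : ℝ)) 1 A (fun f _ z h => by simp [Rd])
    (fun f hf _ _ _ z hz => by simp [hf z hz])
    (fun d f hf => by
      refine ⟨|(f 1 : ℝ)|, abs_nonneg _, fun K hK _ _ => ?_⟩
      rcases Nat.eq_zero_or_pos d with rfl | hd
      · simp [deg_zero.1 hf 1 H.one_mem]
      · rw [mul_comm]
        exact mul_le_mul_of_nonneg_left (pow_le_pow_right₀ hK hd) (abs_nonneg _)) d f hf
  refine ⟨C, hC, fun K hK z hz => ?_⟩
  have := h K hK () trivial z hz
  rwa [pow_one] at this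

theorem pb1 (hE : Filt E) (hω : ∀ a, 1 ≤ ω a) (hw : ∀ a, w a ≤ ω a)
    (hel : ∀ a, el a ∈ E (ω a) ∧ el a ∈ H) {d : ℕ} {f : G → ℤ} (hf : Deg E H d f) (β : Λ) (A : ℝ) :
    ∃ C : ℝ, 0 ≤ C ∧ ∀ K : ℝ, 1 ≤ K → ∀ x y, Cst el w K A x → Cst el w K A y →
      K ^ (ω β + 1) * |(f (x * el β * y) : ℝ) - f (x * y)| ≤ C * K ^ d := by
  have hm : ∀ {K : ℝ} {z : G}, Cst el w K A z → z ∈ H := fun hz =>
    NPb_mem (fun a => (hel a).2) hz
  obtain ⟨C, hC, h⟩ := NPb_gen hE hω hw hel (T := G) (fun K x => Cst el w K A x)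
    (fun f x y => (f (x * el β * y) : ℝ) - f (x * y)) (ω β + 1) A
    (fun f x z h => by simp only [Rd, mul_assoc]; push_cast; ring)
    (fun f hf K x hx z hz => by
      simp [hf _ (H.mul_mem (H.mul_mem (hm hx) (hel β).2) hz), hf _ (H.mul_mem (hm hx) hz)])
    (fun d f hf => by
      have hd := Deg.rd hE hf (hω β) (hel β).1 (hel β).2
      have e : ∀ x, (f (x * el β * 1) : ℝ) - f (x * 1) = (Rd (el β) f x : ℤ) := by
        intro x
        simp [Rd]
      by_cases hle : ω β ≤ d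
      · obtain ⟨C, hC, h⟩ := pb0 hE hω hw hel hd A
        refine ⟨C, hC, fun K hK x hx => ?_⟩
        have := NPb_scale hK hC le_rfl hle (h K hK x hx)
        rw [e, pow_succ, mul_assoc]
        exact this
      · refine ⟨0, le_rfl, fun K hK x hx => ?_⟩
        rw [show d - ω β = 0 by omega] at hd
        rw [e, deg_zero.1 hd x (hm hx)]
        simp) d f hf
  exact ⟨C, hC, fun K hK x y hx hy => h K hK x hx y hy⟩

theorem pb2 (hE : Filt E) (hω : ∀ a, 1 ≤ ω a) (hw : ∀ a, w a ≤ ω a)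
    (hel : ∀ a, el a ∈ E (ω a) ∧ el a ∈ H) {d : ℕ} {f : G → ℤ} (hf : Deg E H d f) (β γ : Λ)
    (A : ℝ) : ∃ C : ℝ, 0 ≤ C ∧ ∀ K : ℝ, 1 ≤ K → ∀ x y z, Cst el w K A x → Cst el w K A y →
      Cst el w K A z → K ^ (ω β + ω γ + 1) * |(f (x * el β * y * el γ * z) : ℝ) -
        f (x * y * el γ * z) - f (x * el β * y * z) + f (x * y * z)| ≤ C * K ^ d := by
  have hm : ∀ {K : ℝ} {z : G}, Cst el w K A z → z ∈ H := fun hz =>
    NPb_mem (fun a => (hel a).2) hz
  obtain ⟨C, hC, h⟩ := NPb_gen hE hω hw hel (T := G × G)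
    (fun K p => Cst el w K A p.1 ∧ Cst el w K A p.2)
    (fun f p z => (f (p.1 * el β * p.2 * el γ * z) : ℝ) -
        f (p.1 * p.2 * el γ * z) - f (p.1 * el β * p.2 * z) + f (p.1 * p.2 * z)) (ω β + ω γ + 1) A
    (fun f p z h => by simp only [Rd, mul_assoc]; push_cast; ring)
    (fun f hf K p hp z hz => by
      have h1 := H.mul_mem (hm hp.1) (hm hp.2)
      have h2 := H.mul_mem (H.mul_mem (hm hp.1) (hel β).2) (hm hp.2)
      simp [hf _ (H.mul_mem (H.mul_mem h2 (hel γ).2) hz),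
        hf _ (H.mul_mem (H.mul_mem h1 (hel γ).2) hz), hf _ (H.mul_mem h2 hz),
        hf _ (H.mul_mem h1 hz)])
    (fun d f hf => by
      have hd := Deg.rd hE hf (hω γ) (hel γ).1 (hel γ).2
      have e : ∀ x y, (f (x * el β * y * el γ * 1) : ℝ) - f (x * y * el γ * 1) -
          f (x * el β * y * 1) + f (x * y * 1) =
          ((Rd (el γ) f (x * el β * y) : ℤ) : ℝ) - (Rd (el γ) f (x * y) : ℤ) := by
        intro x y
        simp only [Rd, mul_one]
        push_cast
        ring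
      by_cases hle : ω γ ≤ d
      · obtain ⟨C, hC, h⟩ := pb1 hE hω hw hel hd β A
        refine ⟨C, hC, fun K hK p hp => ?_⟩
        have := NPb_scale hK hC le_rfl hle (h K hK p.1 p.2 hp.1 hp.2)
        rw [e, show ω β + ω γ + 1 = ω γ + (ω β + 1) by ring, pow_add, mul_assoc]
        exact this
      · refine ⟨0, le_rfl, fun K hK p hp => ?_⟩
        rw [show d - ω γ = 0 by omega] at hd
        rw [e, deg_zero.1 hd _ (H.mul_mem (hm hp.1) (hm hp.2)),
          deg_zero.1 hd _ (H.mul_mem (H.mul_mem (hm hp.1) (hel β).2) (hm hp.2))]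
        simp) d f hf
  exact ⟨C, hC, fun K hK x y z hx hy hz => h K hK (x, y) ⟨hx, hy⟩ z hz⟩

end Pool.Agent.MP_b3b911_al.Fil

end

section

namespace Pool.Agent.MP_b3b911_al.Fil

variable {G : Type*} [Group G] {E : ℕ → Subgroup G} {H : Subgroup G} {Λ : Type*} [Finite Λ]
  {el : Λ → G} {w : Λ → ℕ}

omit [Finite Λ] in
theorem NBil_cost_nonneg {K : ℝ} (hK : 1 ≤ K) (l : List Λ) :
    0 ≤ (l.map fun a => 1 / K ^ w a).sum := by
  refine List.sum_nonneg fun t ht => ?_
  obtain ⟨a, -, rfl⟩ := List.mem_map.1 ht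
  have : 0 < K := by linarith
  positivity

omit [Finite Λ] in
theorem NBil_nonneg {K A : ℝ} (hK : 1 ≤ K) {x : G} (hx : Cst el w K A x) : 0 ≤ A := by
  obtain ⟨l, -, hl⟩ := hx
  exact (NBil_cost_nonneg hK l).trans hl

omit [Finite Λ] in
theorem NBil_mono {K A B : ℝ} {x : G} (hx : Cst el w K A x) (h : A ≤ B) : Cst el w K B x := by
  obtain ⟨l, h1, hl⟩ := hx
  exact ⟨l, h1, hl.trans h⟩

omit [Finite Λ] in
theorem NBil_tel_list {K A M : ℝ} (hK : 1 ≤ K) (F : G → ℝ)
    (h : ∀ x a, Cst el w K A x → |F (x * el a) - F x| ≤ M * (1 / K ^ w a)) (l : List Λ) :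
    (l.map fun a => 1 / K ^ w a).sum ≤ A →
      |F (l.map el).prod - F 1| ≤ M * (l.map fun a => 1 / K ^ w a).sum := by
  induction l using List.reverseRecOn with
  | nil => intro _; simp
  | append_singleton l a ih =>
    intro hl
    have hK0 : 0 < K := by linarith
    have ha : 0 ≤ 1 / K ^ w a := by positivity
    simp only [List.map_append, List.sum_append, List.prod_append, List.map_cons, List.map_nil,
      List.sum_cons, List.sum_nil, List.prod_cons, List.prod_nil, add_zero, mul_one] at hl ⊢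
    have h1 := ih (by linarith)
    have h2 := h (l.map el).prod a ⟨l, rfl, by linarith⟩
    have h3 := abs_sub_le (F ((l.map el).prod * el a)) (F (l.map el).prod) (F 1)
    rw [mul_add]
    linarith

omit [Finite Λ] in
theorem NBil_tel {K A M α : ℝ} (hK : 1 ≤ K) (hM : 0 ≤ M) (hα : α ≤ A) (F : G → ℝ)
    (h : ∀ x a, Cst el w K A x → |F (x * el a) - F x| ≤ M * (1 / K ^ w a)) {x : G}
    (hx : Cst el w K α x) : |F x - F 1| ≤ M * α := by
  obtain ⟨l, rfl, hl⟩ := hx
  exact (NBil_tel_list hK F h l (hl.trans hα)).trans (mul_le_mul_of_nonneg_left hl hM)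

theorem NBil_unif (hE : Filt E) (hel : ∀ a, el a ∈ E (w a + 1) ∧ el a ∈ H) {e : ℕ} {f : G → ℤ}
    (hf : Deg E H (e + 2) f) (A : ℝ) : ∃ M : ℝ, 0 ≤ M ∧ ∀ K : ℝ, 1 ≤ K → ∀ β γ x y z,
      Cst el w K A x → Cst el w K A y → Cst el w K A z →
      K * |(f (x * el β * y * el γ * z) : ℝ) - f (x * y * el γ * z) - f (x * el β * y * z) +
        f (x * y * z)| ≤ M * K ^ e * (1 / K ^ w β) * (1 / K ^ w γ) := by
  have h := fun p : Λ × Λ => pb2 (el := el) (w := w) (ω := fun a => w a + 1) hE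
    (fun a => Nat.le_add_left 1 _) (fun a => Nat.le_succ _) hel hf p.1 p.2 A
  choose C hC0 hC using h
  obtain ⟨M, hM⟩ := (Set.finite_range C).bddAbove
  refine ⟨max M 0, le_max_right _ _, fun K hK β γ x y z hx hy hz => ?_⟩
  have hK0 : 0 < K := by linarith
  have h1 := hC (β, γ) K hK x y z hx hy hz
  have h2 : C (β, γ) ≤ max M 0 := (hM ⟨_, rfl⟩).trans (le_max_left _ _)
  dsimp only at h1
  generalize |(f (x * el β * y * el γ * z) : ℝ) - f (x * y * el γ * z) - f (x * el β * y * z) +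
        f (x * y * z)| = T at h1 ⊢
  have h3 : K ^ (w β + 1 + (w γ + 1) + 1) * T ≤ max M 0 * K ^ (e + 2) :=
    h1.trans (mul_le_mul_of_nonneg_right h2 (by positivity))
  have h4 : max M 0 * K ^ e * (1 / K ^ w β) * (1 / K ^ w γ) =
      max M 0 * K ^ (e + 2) / (K ^ w β * K ^ w γ * K ^ 2) := by
    field_simp
    ring
  rw [h4, le_div_iff₀ (by positivity)]
  refine le_trans (le_of_eq ?_) h3
  ring

theorem bil (hE : Filt E) (hel : ∀ a, el a ∈ E (w a + 1) ∧ el a ∈ H) {e : ℕ} {f : G → ℤ}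
    (hf : Deg E H (e + 2) f) (A : ℝ) : ∃ C : ℝ, 0 ≤ C ∧ ∀ K α ε : ℝ, 1 ≤ K → α ≤ A → ε ≤ A →
      ∀ x u y, Cst el w K α x → Cst el w K ε u → Cst el w K A y →
      K * |(f (x * u * y) : ℝ) - f (x * y) - f (u * y) + f y| ≤ C * α * ε * K ^ e := by
  obtain ⟨M, hM0, hM⟩ := NBil_unif hE hel hf A
  refine ⟨M, hM0, fun K α ε hK hα hε x u y hx hu hy => ?_⟩
  have hK0 : 0 < K := by linarith
  have hε0 : 0 ≤ ε := NBil_nonneg hK hu
  have h1 : ∀ x' β, Cst el w K A x' →
      |K * ((f (x' * el β * u * y) : ℝ) - f (x' * el β * y)) - K * ((f (x' * u * y) : ℝ) - f (x' * y))|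
        ≤ M * K ^ e * ε * (1 / K ^ w β) := by
    intro x' β hx'
    have h2 := NBil_tel (M := M * K ^ e * (1 / K ^ w β)) hK (by positivity) hε
      (fun u' => K * ((f (x' * el β * u' * y) : ℝ) - f (x' * u' * y))) (fun u' γ hu' => by
        have h3 := hM K hK β γ x' u' y hx' hu' hy
        refine le_trans (le_of_eq ?_) h3
        rw [← abs_of_pos hK0, ← abs_mul, abs_of_pos hK0]
        simp only [← mul_assoc]
        congr 1
        ring) hu
    simp only [mul_one] at h2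
    refine le_trans (le_of_eq ?_) (h2.trans (le_of_eq (by ring)))
    congr 1
    ring
  have h4 := NBil_tel (M := M * K ^ e * ε) hK (by positivity) hα
    (fun x' => K * ((f (x' * u * y) : ℝ) - f (x' * y))) h1 hx
  simp only [one_mul] at h4
  refine le_trans (le_of_eq ?_) (h4.trans (le_of_eq (by ring)))
  rw [← abs_of_pos hK0, ← abs_mul, abs_of_pos hK0]
  congr 1
  ring

theorem key_est (hE : Filt E) (hel : ∀ a, el a ∈ E (w a + 1) ∧ el a ∈ H) {e : ℕ} {f : G → ℤ}
    (hf : Deg E H (e + 2) f) (h1 : f 1 = 0) (A : ℝ) : ∃ C : ℝ, 0 ≤ C ∧ ∀ K ε : ℝ, 1 ≤ K → ε ≤ A →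
      ∀ x u y, Cst el w K A x → Cst el w K ε u → Cst el w K A y →
      K * |(f (x * u * y) : ℝ) - f (x * y) - f u| ≤ C * ε * K ^ e := by
  obtain ⟨C, hC0, hC⟩ := bil hE hel hf A
  refine ⟨2 * C * |A|, by positivity, fun K ε hK hε x u y hx hu hy => ?_⟩
  have hK0 : 0 < K := by linarith
  have hA : 0 ≤ A := NBil_nonneg hK hx
  have hone : Cst el w K A (1 : G) := ⟨[], by simp, by simpa using hA⟩
  have h2 := hC K A ε hK le_rfl hε x u y hx hu hy
  have h3 := hC K ε A hK hε le_rfl u y 1 hu hy hone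
  simp only [mul_one, h1, Int.cast_zero, add_zero] at h3
  have h4 : (f (x * u * y) : ℝ) - f (x * y) - f u =
      ((f (x * u * y) : ℝ) - f (x * y) - f (u * y) + f y) + ((f (u * y) : ℝ) - f u - f y) := by ring
  rw [h4, abs_of_nonneg hA]
  have h5 := mul_le_mul_of_nonneg_left (abs_add_le ((f (x * u * y) : ℝ) - f (x * y) - f (u * y) + f y)
    ((f (u * y) : ℝ) - f u - f y)) hK0.le
  nlinarith [h2, h3, h5]

end Pool.Agent.MP_b3b911_al.Fil

end

section

namespace Pool.Agent.MP_b3b911_al.Fil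

variable {G : Type*} [Group G] {E : ℕ → Subgroup G} {H H' : Subgroup G}

theorem NExt_zpow {lam : G → ℤ} (hadd : ∀ x ∈ H, ∀ y ∈ H, lam (x * y) = lam x + lam y) {b : G}
    (hb : b ∈ H) (hlb : lam b = 1) (n : ℤ) : lam (b ^ n) = n := by
  induction n using Int.induction_on with
  | zero =>
    have := hadd 1 H.one_mem 1 H.one_mem
    rw [mul_one] at this
    rw [zpow_zero]
    omega
  | succ n ih => rw [zpow_add_one, hadd _ (H.zpow_mem hb _) _ hb, ih, hlb]
  | pred n ih =>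
    have := hadd _ (H.zpow_mem hb (-(n : ℤ) - 1)) _ hb
    rw [← zpow_add_one, sub_add_cancel, ih, hlb] at this
    omega

/-- The elements whose left difference has small degree form a subgroup. -/
def NExt_sub (E : ℕ → Subgroup G) (H : Subgroup G) (hH : H ≤ E 1) (d : ℕ) (F : G → ℤ) :
    Subgroup G where
  carrier := {a | a ∈ H ∧ Deg E H d (Ld a F)}
  mul_mem' := fun {a b} ha hb => ⟨H.mul_mem ha.1 hb.1,
    ((ha.2.ltrans hH hb.1).add hb.2).congr fun x _ => by simp only [Ld, mul_assoc]; ring⟩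
  one_mem' := ⟨H.one_mem, (deg_zero.mpr fun x _ => by simp [Ld]).mono (Nat.zero_le _)⟩
  inv_mem' := fun {a} ha => ⟨H.inv_mem ha.1,
    (ha.2.ltrans hH (H.inv_mem ha.1)).neg.congr fun x _ => by
      simp only [Ld, mul_inv_cancel_left]; ring⟩

theorem deg_lam (ω : ℕ) (lam : G → ℤ) (hHE : H ≤ E ω) (hω : 1 ≤ ω) (hE : Filt E)
    (hadd : ∀ x ∈ H, ∀ y ∈ H, lam (x * y) = lam x + lam y)
    (hker : ∀ x ∈ H, x ∈ E (ω + 1) → lam x = 0) : Deg E H (ω + 1) lam := by
  refine deg_intro (by omega) fun j hj a ha haH => ?_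
  by_cases h : j ≤ ω
  · exact (deg_const (by omega) (lam a)).congr fun x hx => by
      simp only [Ld, hadd a haH x hx]; ring
  · refine (deg_zero.mpr fun x hx => ?_).mono (Nat.zero_le _)
    simp only [Ld, hadd a haH x hx, hker a haH (hE.anti (by omega : ω + 1 ≤ j) ha)]
    ring

theorem deg_ext (hE : Filt E) [H'.Normal] (hle : H' ≤ H) (ω : ℕ) (hω : 1 ≤ ω) (hHE : H ≤ E ω)
    (hup : ∀ x ∈ H, x ∈ E (ω + 1) → x ∈ H') (b : G) (hb : b ∈ H) (lam : G → ℤ)
    (hadd : ∀ x ∈ H, ∀ y ∈ H, lam (x * y) = lam x + lam y) (hlb : lam b = 1)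
    (hker : ∀ x ∈ H, lam x = 0 ↔ x ∈ H') {d : ℕ} {f : G → ℤ} (hf : Deg E H' d f) :
    Deg E H d fun g => f (g * b ^ (-lam g)) := by
  have hH : H ≤ E 1 := hHE.trans (hE.anti hω)
  have hπ : ∀ g ∈ H, g * b ^ (-lam g) ∈ H' := fun g hg =>
    (hker _ (H.mul_mem hg (H.zpow_mem hb _))).mp (by
      rw [hadd g hg _ (H.zpow_mem hb _), NExt_zpow hadd hb hlb, add_neg_cancel])
  induction d using Nat.strong_induction_on generalizing f with
  | _ d ih =>
    rcases Nat.eq_zero_or_pos d with rfl | hd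
    · exact deg_zero.mpr fun x hx => deg_zero.mp hf _ (hπ x hx)
    have h1 : ∀ j, 1 ≤ j → ∀ a ∈ E j, a ∈ H' →
        Deg E H (d - j) (Ld a fun g => f (g * b ^ (-lam g))) := fun j hj a ha haH =>
      (ih (d - j) (by omega) (hf.ld hj ha haH)).congr fun x hx => by
        simp only [Ld, hadd a (hle haH) x hx, (hker a (hle haH)).mpr haH, zero_add, mul_assoc]
    refine deg_intro hd fun j hj a ha haH => ?_
    by_cases h : j ≤ ω
    · have h2 : b ∈ NExt_sub E H hH (d - ω) fun g => f (g * b ^ (-lam g)) :=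
        ⟨hb, (ih (d - ω) (by omega) (hf.cd hE (hle.trans hH) hω (hHE hb))).congr fun x hx => by
          simp only [Ld, Cd, hadd b hb x hx, hlb]
          congr 2
          group⟩
      have h3 : a * b ^ (-lam a) ∈ NExt_sub E H hH (d - ω) fun g => f (g * b ^ (-lam g)) :=
        ⟨hle (hπ a haH), h1 ω hω _ (hHE (hle (hπ a haH))) (hπ a haH)⟩
      have h4 := Subgroup.mul_mem _ h3 (Subgroup.zpow_mem _ h2 (lam a))
      rw [mul_assoc, ← zpow_add, neg_add_cancel, zpow_zero, mul_one] at h4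
      exact h4.2.mono (by omega)
    · exact h1 j hj a ha (hup a haH (hE.anti (by omega : ω + 1 ≤ j) ha))

end Pool.Agent.MP_b3b911_al.Fil

end

section

namespace Pool.Agent.MP_b3b911_al.Fil

variable {G : Type*} [Group G] {φ : G →* Multiplicative ℤ} {t : G} {F : ℕ → Subgroup G}
  {J : Type} [Fintype J] [DecidableEq J]

theorem NMk_ker (φ : G →* Multiplicative ℤ) (g : G) :
    Multiplicative.toAdd (φ g) = 0 ↔ g ∈ φ.ker := by
  rw [MonoidHom.mem_ker, toAdd_eq_zero]

theorem NMk_nonneg {Λ : Type*} {el : Λ → G} {w : Λ → ℕ} {K A : ℝ} {z : G} (hK : 1 ≤ K)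
    (h : Cst el w K A z) : 0 ≤ A := by
  obtain ⟨l, -, hl⟩ := h
  refine le_trans (List.sum_nonneg ?_) hl
  intro x hx
  obtain ⟨a, -, rfl⟩ := List.mem_map.1 hx
  have : (0 : ℝ) < K := by linarith
  positivity

theorem NMk_inv {J : Type} (b : J → G) (w : J → ℕ) {K A : ℝ} {x : G}
    (h : Cst (lt b) (fun a : J × Bool => w a.1) K A x) :
    Cst (lt b) (fun a : J × Bool => w a.1) K A x⁻¹ := by
  obtain ⟨l, h1, h2⟩ := h
  refine ⟨(l.map fun a => (a.1, !a.2)).reverse, ?_, ?_⟩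
  · rw [← h1, List.prod_inv_reverse, List.map_reverse, List.map_map, List.map_map]
    congr 2
    refine List.map_congr_left ?_
    rintro ⟨j, c⟩ -
    cases c <;> simp [lt]
  · rw [List.map_reverse, List.sum_reverse, List.map_map]
    exact h2

/-- The shifted filtration of the kernel. -/
def NMk_E (φ : G →* Multiplicative ℤ) (F : ℕ → Subgroup G) (n : ℕ) : Subgroup G :=
  if n ≤ 1 then φ.ker else F (n - 1) ⊓ φ.ker

theorem NMk_mem (h : FData φ t F) {n : ℕ} {x : G} :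
    x ∈ NMk_E φ F n ↔ x ∈ F (max (n - 1) 1) ∧ x ∈ φ.ker := by
  unfold NMk_E
  split_ifs with hn
  · have : max (n - 1) 1 = 1 := by omega
    rw [this, h.top]
    simp
  · have : max (n - 1) 1 = n - 1 := by omega
    rw [this, Subgroup.mem_inf]

theorem NMk_filt (h : FData φ t F) : Filt (NMk_E φ F) where
  anti := by
    intro n m hnm x hx
    rw [NMk_mem h] at hx ⊢
    exact ⟨h.filt.anti (by omega) hx.1, hx.2⟩
  normal := by
    intro n
    refine ⟨fun x hx g => ?_⟩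
    rw [NMk_mem h] at hx ⊢
    exact ⟨(h.filt.normal _).conj_mem x hx.1 g, (MonoidHom.normal_ker φ).conj_mem x hx.2 g⟩
  comm := by
    intro i j hi hj x hx y hy
    rw [NMk_mem h] at hx hy ⊢
    refine ⟨h.filt.anti ?_ (h.shift _ _ (le_max_right _ _) (le_max_right _ _) x hx.2 y hy.2
      hx.1 hy.1), ?_⟩
    · omega
    · exact mul_mem (mul_mem (mul_mem hx.2 hy.2) (inv_mem hx.2)) (inv_mem hy.2)

theorem NMk_KE (h : FData φ t F) (C : Coord F φ.ker J) (A : ℝ) : ∃ D : ℝ, 0 ≤ D ∧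
    ∀ K ε : ℝ, 1 ≤ K → ε ≤ A → ∀ x u y,
    Cst (lt C.b) (fun a : J × Bool => C.w a.1) K A x →
    Cst (lt C.b) (fun a : J × Bool => C.w a.1) K ε u →
    Cst (lt C.b) (fun a : J × Bool => C.w a.1) K A y → ∀ j,
    K * |(C.v (x * u * y) j : ℝ) - C.v (x * y) j - C.v u j| ≤ D * ε * K ^ C.w j := by
  have hel : ∀ a : J × Bool, lt C.b a ∈ NMk_E φ F (C.w a.1 + 1) ∧ lt C.b a ∈ φ.ker := by
    rintro ⟨j, c⟩
    have hw := C.w_pos j
    have e : max (C.w j + 1 - 1) 1 = C.w j := by omega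
    rw [NMk_mem h]
    simp only [e]
    cases c
    · exact ⟨⟨inv_mem (C.b_mem j).2, inv_mem (C.b_mem j).1⟩, inv_mem (C.b_mem j).1⟩
    · exact ⟨⟨(C.b_mem j).2, (C.b_mem j).1⟩, (C.b_mem j).1⟩
  have hd : ∀ j, Deg (NMk_E φ F) φ.ker (C.w j + 2) fun g => C.v g j := by
    intro j
    refine C.deg (NMk_E φ F) 1 (NMk_filt h) ?_ j
    intro n hn
    ext x
    have e : max (n + 1 - 1) 1 = n := by omega
    rw [Subgroup.mem_inf, Subgroup.mem_inf, NMk_mem h, e]
    tauto
  have hk := fun j => key_est (w := fun a : J × Bool => C.w a.1) (NMk_filt h) hel (hd j)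
    (by simp [C.v_one]) A
  choose D hD0 hD using hk
  refine ⟨∑ j, D j, Finset.sum_nonneg fun j _ => hD0 j, ?_⟩
  intro K ε hK hε x u y hx hu hy j
  refine (hD j K ε hK hε x u y hx hu hy).trans ?_
  have h0 : 0 ≤ ε := NMk_nonneg hK hu
  have h1 : D j ≤ ∑ j, D j := Finset.single_le_sum (fun j _ => hD0 j) (Finset.mem_univ j)
  have : (0 : ℝ) < K := by linarith
  gcongr

theorem NMk_v (C : Coord F φ.ker J) (K : ℝ) {g : G} (hg : g ∈ φ.ker) :
    Cst (lt C.b) (fun a : J × Bool => C.w a.1) K (∑ j, |(C.v g j : ℝ)| / K ^ C.w j) g := by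
  obtain ⟨l, h1, h2⟩ := C.word g hg
  refine ⟨l, h1, le_of_eq ?_⟩
  rw [h2 fun j => 1 / K ^ C.w j]
  refine Finset.sum_congr rfl fun j _ => ?_
  rw [mul_one_div]

theorem NMk_ball (h : FData φ t F) (C : Coord F φ.ker J) (S : Finset G) (A : ℝ) :
    ∃ D : ℝ, 0 ≤ D ∧ ∀ K : ℝ, 1 ≤ K → ∀ g, Ball S (A * K) g →
    Cst (lt C.b) (fun a : J × Bool => C.w a.1) K D
      (g * t ^ (-Multiplicative.toAdd (φ g))) := by
  classical
  have hd : ∀ j, Deg F ⊤ (C.w j + 1)
      fun g => C.v (g * t ^ (-Multiplicative.toAdd (φ g))) j := by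
    intro j
    refine deg_ext (H := ⊤) (H' := φ.ker) h.filt le_top 1 le_rfl (by rw [h.top])
      (fun x _ hx => h.two hx) t (Subgroup.mem_top _) (fun g => Multiplicative.toAdd (φ g))
      (fun x _ y _ => by simp) (by simp [h.ht]) (fun x _ => NMk_ker φ x) (h.deg_v C j)
  have hk := fun j => pb0 (Λ := ↥(S ∪ S.image (·⁻¹))) (el := Subtype.val) (w := fun _ => 1)
    (ω := fun _ => 1) h.filt (fun _ => le_rfl) (fun _ => le_rfl)
    (fun a => ⟨by rw [h.top]; exact Subgroup.mem_top _, Subgroup.mem_top _⟩) (hd j) A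
  choose D hD0 hD using hk
  refine ⟨∑ j, D j, Finset.sum_nonneg fun j _ => hD0 j, ?_⟩
  rintro K hK g ⟨l, hl, hw, rfl⟩
  have hK0 : (0 : ℝ) < K := by linarith
  have hm : ∀ x ∈ l, x ∈ S ∪ S.image (·⁻¹) := by
    intro x hx
    rcases hw x hx with h | h
    · exact Finset.mem_union_left _ h
    · exact Finset.mem_union_right _ (Finset.mem_image.2 ⟨x⁻¹, h, inv_inv x⟩)
  have hc : Cst (Λ := ↥(S ∪ S.image (·⁻¹))) Subtype.val (fun _ => 1) K A l.prod := by
    refine ⟨l.pmap Subtype.mk hm, by simp [List.map_pmap], ?_⟩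
    rw [List.map_const', List.sum_replicate, List.length_pmap, nsmul_eq_mul, pow_one,
      mul_one_div, div_le_iff₀ hK0]
    exact hl
  have hker : l.prod * t ^ (-Multiplicative.toAdd (φ l.prod)) ∈ φ.ker := by
    rw [← NMk_ker]
    simp [h.ht]
  obtain ⟨l', h1, h2⟩ := NMk_v C K hker
  refine ⟨l', h1, h2.trans (Finset.sum_le_sum fun j _ => ?_)⟩
  have := hD j K hK _ hc
  rw [div_le_iff₀ (by positivity)]
  rw [pow_succ] at this
  nlinarith [this]

theorem FData.pre (h : FData φ t F) (C : Coord F φ.ker J) (S : Finset G)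
    (hS : Subgroup.closure (S : Set G) = ⊤) : Nonempty (Pre S J) := by
  refine ⟨{
    X := fun g => Multiplicative.toAdd (φ g)
    X_mul := fun g h => by simp
    t := t
    X_t := by simp [h.ht]
    gen := hS
    v := C.v
    w := C.w
    r := Finset.univ.sup C.w
    w_pos := C.w_pos
    w_le := fun j => Finset.le_sup (Finset.mem_univ j)
    occ := ?_
    v_one := C.v_one
    inj := fun g g' hg hg' e => C.inj g ((NMk_ker φ g).1 hg) g' ((NMk_ker φ g').1 hg') e
    surj := fun y => by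
      obtain ⟨g, hg, e⟩ := C.surj y
      exact ⟨g, (NMk_ker φ g).2 hg, e⟩
    P := fun p g => g ∈ φ.ker ∧ g ∈ F p
    P_X := fun p g hg => (NMk_ker φ g).2 hg.1
    P_one := fun g hg => ⟨(NMk_ker φ g).1 hg, by rw [h.top]; exact Subgroup.mem_top _⟩
    P_conj := fun p g y hg => by
      rw [zpow_neg]
      exact ⟨(MonoidHom.normal_ker φ).conj_mem g hg.1 _, (h.filt.normal p).conj_mem g hg.2 _⟩
    P_low := fun p g j hg hj => h.low C hg.1 hg.2 hj
    P_deg := fun p g j hp hg hj => h.pdeg C hp hg.1 hg.2 hj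
    P_top := fun p i hp hi => h.ptop C hp hi
    P_bas := fun p i _ hi => ⟨C.b i, ⟨(C.b_mem i).1, h.filt.anti hi (C.b_mem i).2⟩, C.v_b i⟩
    Sm := fun K A => Cst (lt C.b) (fun a : J × Bool => C.w a.1) K A
    Sm_mul := fun K A B x y hx hy => hx.mul hy
    Sm_inv := fun K A x hx => NMk_inv C.b C.w hx
    Sm_mono := fun K A B x hAB hx => by
      obtain ⟨l, h1, h2⟩ := hx
      exact ⟨l, h1, h2.trans hAB⟩
    Sm_v := fun K _ g hg => NMk_v C K ((NMk_ker φ g).1 hg)
    Sm_ball := fun A => NMk_ball h C S A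
    KE := fun A => by
      obtain ⟨D, hD0, hD⟩ := NMk_KE h C A
      exact ⟨D, hD0, fun K ε hK hε x u y _ _ _ hx hu hy j => hD K ε hK hε x u y hx hu hy j⟩
    KV := ?_ }⟩
  · intro q hq hr
    have hne : (Finset.univ : Finset J).Nonempty := by
      by_contra hn
      rw [Finset.not_nonempty_iff_eq_empty] at hn
      rw [hn, Finset.sup_empty] at hr
      simp at hr
      omega
    obtain ⟨i, -, hi⟩ := Finset.exists_mem_eq_sup Finset.univ hne C.w
    exact h.occ C hq (i := i) (hi ▸ hr)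
  · intro p x u y j hx hu hy hj
    have hx' := (NMk_ker φ x).1 hx
    have hy' := (NMk_ker φ y).1 hy
    have hp : 1 ≤ p := (C.w_pos j).trans hj
    have hT : ∀ z : G, z ∈ F 1 := fun z => by rw [h.top]; exact Subgroup.mem_top _
    have e1 := (h.deg_v C j).van2 le_rfl hp (by omega) (hT x) hx' hu.2 hu.1 hy'
    have e2 := (h.deg_v C j).van2 hp le_rfl (by omega) hu.2 hu.1 (hT y) hy' (one_mem _)
    simp only [mul_one, C.v_one, Pi.zero_apply] at e1 e2
    omega

end Pool.Agent.MP_b3b911_al.Fil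

end

section

namespace Pool.Agent.MP_b3b911_al.Fil

variable {G : Type*} [Group G] {F : ℕ → Subgroup G} {H H' : Subgroup G}

theorem NStep_lam_one {lam : G → ℤ}
    (hadd : ∀ x ∈ H, ∀ y ∈ H, lam (x * y) = lam x + lam y) : lam 1 = 0 := by
  have := hadd 1 H.one_mem 1 H.one_mem
  rw [mul_one] at this
  omega

theorem NStep_lam_inv {lam : G → ℤ}
    (hadd : ∀ x ∈ H, ∀ y ∈ H, lam (x * y) = lam x + lam y) {g : G} (hg : g ∈ H) :
    lam g⁻¹ = -lam g := by
  have := hadd g hg g⁻¹ (H.inv_mem hg)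
  rw [mul_inv_cancel, NStep_lam_one hadd] at this
  omega

theorem NStep_lam_zpow {lam : G → ℤ}
    (hadd : ∀ x ∈ H, ∀ y ∈ H, lam (x * y) = lam x + lam y) {b : G} (hb : b ∈ H)
    (hlb : lam b = 1) (n : ℤ) : lam (b ^ n) = n := by
  induction n using Int.induction_on with
  | zero => simp [NStep_lam_one hadd]
  | succ n ih => rw [zpow_add_one, hadd _ (H.zpow_mem hb _) _ hb, ih, hlb]
  | pred n ih =>
    rw [zpow_sub_one, hadd _ (H.zpow_mem hb _) _ (H.inv_mem hb), ih, NStep_lam_inv hadd hb, hlb]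
    ring

theorem NStep_ker {lam : G → ℤ}
    (hadd : ∀ x ∈ H, ∀ y ∈ H, lam (x * y) = lam x + lam y) {b : G} (hb : b ∈ H)
    (hlb : lam b = 1) (hker : ∀ x ∈ H, lam x = 0 ↔ x ∈ H') {g : G} (hg : g ∈ H) :
    g * b ^ (-lam g) ∈ H' := by
  have h1 : b ^ (-lam g) ∈ H := H.zpow_mem hb _
  rw [← hker _ (H.mul_mem hg h1), hadd _ hg _ h1, NStep_lam_zpow hadd hb hlb]
  ring

theorem NStep_rep {J : Type} (c : Option J → G) (n : ℤ) :
    ((List.replicate n.natAbs ((none : Option J), decide (0 ≤ n))).map (lt c)).prod =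
      c none ^ n := by
  rw [List.map_replicate, List.prod_replicate]
  by_cases h : 0 ≤ n
  · have e : lt c ((none : Option J), decide (0 ≤ n)) = c none := by simp [lt, h]
    rw [e, ← zpow_natCast, Int.natAbs_of_nonneg h]
  · have e : lt c ((none : Option J), decide (0 ≤ n)) = (c none)⁻¹ := by simp [lt, h]
    rw [e, ← zpow_natCast, inv_zpow', Int.ofNat_natAbs_of_nonpos (by omega), neg_neg]

theorem coord_bot (F : ℕ → Subgroup G) : Nonempty (Coord F ⊥ Empty) := by
  refine ⟨⟨fun j => j.elim, fun j => j.elim, fun _ j => j.elim, fun j => j.elim, fun j => j.elim,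
    funext fun j => j.elim, fun j => j.elim, ?_, ?_, ?_, fun _ _ _ _ j => j.elim⟩⟩
  · intro g hg h hh _
    rw [Subgroup.mem_bot] at hg hh
    rw [hg, hh]
  · intro y
    exact ⟨1, Subgroup.one_mem _, funext fun j => j.elim⟩
  · intro g hg
    rw [Subgroup.mem_bot] at hg
    refine ⟨[], by simp [hg], fun κ => by simp⟩

theorem coord_step {J : Type} [Fintype J] [DecidableEq J] (C : Coord F H' J) [H'.Normal]
    (hle : H' ≤ H) (ω : ℕ) (hω : 1 ≤ ω) (hHF : H ≤ F ω)
    (hup : ∀ x ∈ H, x ∈ F (ω + 1) → x ∈ H') (b : G) (hb : b ∈ H) (lam : G → ℤ)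
    (hadd : ∀ x ∈ H, ∀ y ∈ H, lam (x * y) = lam x + lam y) (hlb : lam b = 1)
    (hker : ∀ x ∈ H, lam x = 0 ↔ x ∈ H') : Nonempty (Coord F H (Option J)) := by
  have hone : lam 1 = 0 := NStep_lam_one hadd
  have hK : ∀ g ∈ H, g * b ^ (-lam g) ∈ H' := fun g hg => NStep_ker hadd hb hlb hker hg
  refine ⟨⟨fun o => o.elim b C.b, fun o => o.elim ω C.w,
    fun g o => o.elim (lam g) (C.v (g * b ^ (-lam g))), ?_, ?_, ?_, ?_, ?_, ?_, ?_, ?_⟩⟩
  · rintro (_ | j)
    · exact hω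
    · exact C.w_pos j
  · rintro (_ | j)
    · exact ⟨hb, hHF hb⟩
    · exact ⟨hle (C.b_mem j).1, (C.b_mem j).2⟩
  · funext o
    rcases o with _ | j
    · simpa using hone
    · simp [hone, C.v_one]
  · rintro (_ | j)
    · funext o
      rcases o with _ | i
      · simpa using hlb
      · simp [hlb, C.v_one]
    · have h0 : lam (C.b j) = 0 := (hker _ (hle (C.b_mem j).1)).2 (C.b_mem j).1
      funext o
      rcases o with _ | i
      · simpa using h0
      · simp [h0, C.v_b, Pi.single_apply]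
  · intro g hg h hh e
    have e0 : lam g = lam h := congrFun e none
    have e1 : C.v (g * b ^ (-lam g)) = C.v (h * b ^ (-lam h)) :=
      funext fun j => congrFun e (some j)
    have e2 := C.inj _ (hK g hg) _ (hK h hh) e1
    rw [e0] at e2
    exact mul_right_cancel e2
  · intro y
    obtain ⟨g, hg, hv⟩ := C.surj fun j => y (some j)
    have hb' : b ^ (y none) ∈ H := H.zpow_mem hb _
    have hl : lam (g * b ^ (y none)) = y none := by
      rw [hadd _ (hle hg) _ hb', (hker _ (hle hg)).2 hg, NStep_lam_zpow hadd hb hlb, zero_add]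
    refine ⟨g * b ^ (y none), H.mul_mem (hle hg) hb', ?_⟩
    funext o
    rcases o with _ | j
    · simpa using hl
    · simp [hl, hv]
  · intro g hg
    obtain ⟨l, hl, hκ⟩ := C.word _ (hK g hg)
    refine ⟨l.map (fun a => (some a.1, a.2)) ++
      List.replicate (lam g).natAbs ((none : Option J), decide (0 ≤ lam g)), ?_, ?_⟩
    · rw [List.map_append, List.prod_append, NStep_rep, List.map_map]
      have e : (lt (fun o : Option J => o.elim b C.b) ∘ fun a : J × Bool => (some a.1, a.2)) =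
          lt C.b := by
        funext a
        simp [lt]
      rw [e, hl]
      simp
    · intro κ
      rw [List.map_append, List.sum_append, List.map_map, List.map_replicate, List.sum_replicate,
        Fintype.sum_option]
      have e := hκ fun j => κ (some j)
      have e2 : (((lam g).natAbs : ℕ) : ℝ) = |(lam g : ℝ)| := by
        rw [← Int.cast_abs, Int.abs_eq_natAbs, Int.cast_natCast]
      simp only [Function.comp_def, nsmul_eq_mul, Option.elim_none, Option.elim_some]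
      rw [e, e2, add_comm]
  · intro E σ hE hEF
    have hHE : H ≤ E (ω + σ) := fun x hx => by
      have : x ∈ E (ω + σ) ⊓ H := by rw [hEF ω hω]; exact ⟨hHF hx, hx⟩
      exact this.1
    have hup' : ∀ x ∈ H, x ∈ E (ω + σ + 1) → x ∈ H' := fun x hx hx' => by
      have : x ∈ F (ω + 1) ⊓ H := by
        rw [← hEF (ω + 1) (by omega), show ω + 1 + σ = ω + σ + 1 by ring]
        exact ⟨hx', hx⟩
      exact hup x hx this.1
    have hEF' : ∀ n, 1 ≤ n → E (n + σ) ⊓ H' = F n ⊓ H' := fun n hn => by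
      ext x
      have := congrArg (fun K : Subgroup G => x ∈ K) (hEF n hn)
      simp only [Subgroup.mem_inf, eq_iff_iff] at this ⊢
      constructor
      · rintro ⟨h1, h2⟩
        exact ⟨(this.1 ⟨h1, hle h2⟩).1, h2⟩
      · rintro ⟨h1, h2⟩
        exact ⟨(this.2 ⟨h1, hle h2⟩).1, h2⟩
    rintro (_ | j)
    · exact deg_lam (ω + σ) lam hHE (by omega) hE hadd
        fun x hx hx' => (hker x hx).2 (hup' x hx hx')
    · exact deg_ext hE hle (ω + σ) (by omega) hHE hup' b hb lam hadd hlb hker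
        (f := fun g => C.v g j) (C.deg E σ hE hEF' j)

end Pool.Agent.MP_b3b911_al.Fil

end

section

namespace Pool.Agent.MP_b3b911_al.Fil

variable {G : Type*} [Group G]

theorem NCoord_free (Q : Type*) [CommGroup Q] [Group.FG Q]
    (h : ∀ (q : Q) (k : ℕ), 0 < k → q ^ k = 1 → q = 1) :
    ∃ (m : ℕ) (e : Q → Fin m → ℤ), (∀ x y, e (x * y) = e x + e y) ∧ (∀ x, e x = 0 ↔ x = 1) ∧
      Function.Surjective e := by
  have : Module.Finite ℤ (Additive Q) := Module.Finite.iff_addGroup_fg.2 inferInstance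
  have : IsMulTorsionFree Q := ⟨fun k hk x y hxy => by
    have h1 : (x * y⁻¹) ^ k = 1 := by
      have hxy' : x ^ k = y ^ k := hxy
      rw [mul_pow, inv_pow, hxy', mul_inv_cancel]
    exact mul_inv_eq_one.1 (h _ k (Nat.pos_of_ne_zero hk) h1)⟩
  have : Module.Free ℤ (Additive Q) := Module.free_of_finite_type_torsion_free'
  let B := Module.finBasis ℤ (Additive Q)
  refine ⟨_, fun q => B.equivFun (Additive.ofMul q), fun x y => ?_, fun x => ?_, fun y => ?_⟩
  · exact map_add B.equivFun (Additive.ofMul x) (Additive.ofMul y)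
  · rw [LinearEquiv.map_eq_zero_iff, ofMul_eq_zero]
  · exact ⟨Additive.toMul (B.equivFun.symm y), B.equivFun.apply_symm_apply y⟩

theorem NCoord_co {A A' : Subgroup G} [A'.Normal] (hfg : A.FG)
    (hc : ∀ x ∈ A, ∀ y ∈ A, x * y * x⁻¹ * y⁻¹ ∈ A')
    (hiso : ∀ x ∈ A, ∀ k : ℕ, 0 < k → x ^ k ∈ A' → x ∈ A') :
    ∃ (m : ℕ) (co : G → Fin m → ℤ), (∀ x ∈ A, ∀ y ∈ A, co (x * y) = co x + co y) ∧
      (∀ x ∈ A, co x = 0 ↔ x ∈ A') ∧ ∀ z, ∃ b ∈ A, co b = z := by
  classical
  have : Group.FG A := (Group.fg_iff_subgroup_fg A).2 hfg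
  let _ : CommGroup (A ⧸ A'.subgroupOf A) :=
    { QuotientGroup.Quotient.group (A'.subgroupOf A) with
      mul_comm := fun a b => by
        obtain ⟨x, rfl⟩ := QuotientGroup.mk_surjective a
        obtain ⟨y, rfl⟩ := QuotientGroup.mk_surjective b
        rw [← QuotientGroup.mk_mul, ← QuotientGroup.mk_mul, QuotientGroup.eq,
          Subgroup.mem_subgroupOf]
        have := hc _ (A.inv_mem y.2) _ (A.inv_mem x.2)
        simpa [mul_assoc] using this }
  obtain ⟨m, e, h1, h2, h3⟩ := NCoord_free (A ⧸ A'.subgroupOf A) (by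
    intro q k hk hq
    obtain ⟨x, rfl⟩ := QuotientGroup.mk_surjective q
    rw [← QuotientGroup.mk_pow, QuotientGroup.eq_one_iff, Subgroup.mem_subgroupOf] at hq
    rw [QuotientGroup.eq_one_iff, Subgroup.mem_subgroupOf]
    exact hiso _ x.2 k hk hq)
  refine ⟨m, fun g => if h : g ∈ A then e (QuotientGroup.mk ⟨g, h⟩) else 0, ?_, ?_, ?_⟩
  · intro x hx y hy
    simp only [dif_pos hx, dif_pos hy, dif_pos (A.mul_mem hx hy)]
    rw [← h1]
    rfl
  · intro x hx
    simp only [dif_pos hx]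
    rw [h2, QuotientGroup.eq_one_iff, Subgroup.mem_subgroupOf]
  · intro z
    obtain ⟨q, rfl⟩ := h3 z
    obtain ⟨x, rfl⟩ := QuotientGroup.mk_surjective q
    exact ⟨x, x.2, by simp only [dif_pos x.2]⟩

theorem NCoord_level {F : ℕ → Subgroup G} (hF : Filt F) (htop : F 1 = ⊤)
    (hiso : ∀ n g (k : ℕ), 0 < k → g ^ k ∈ F n → g ∈ F n)
    (hfg : ∀ H : Subgroup G, H.FG) (N : Subgroup G) [hN : N.Normal] (n : ℕ) (hn : 1 ≤ n)
    (h : ∃ (J : Type) (_ : Fintype J) (_ : DecidableEq J), Nonempty (Coord F (N ⊓ F (n + 1)) J)) :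
    ∃ (J : Type) (_ : Fintype J) (_ : DecidableEq J), Nonempty (Coord F (N ⊓ F n) J) := by
  have := hF.normal (n + 1)
  have hcm : ∀ g, ∀ x ∈ N ⊓ F n, g * x * g⁻¹ * x⁻¹ ∈ N ⊓ F (n + 1) := by
    intro g x hx
    refine ⟨N.mul_mem (hN.conj_mem x hx.1 g) (N.inv_mem hx.1), ?_⟩
    rw [add_comm]
    exact hF.comm 1 n le_rfl hn g (by rw [htop]; trivial) x hx.2
  have hle : N ⊓ F (n + 1) ≤ N ⊓ F n := inf_le_inf_left N (hF.anti (Nat.le_succ n))
  obtain ⟨m, co, h1, h2, h3⟩ := NCoord_co (A := N ⊓ F n) (A' := N ⊓ F (n + 1)) (hfg _)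
    (fun x _ y hy => hcm x y hy) fun x hx k hk hxk => ⟨hx.1, hiso _ x k hk hxk.2⟩
  have h0 : co 1 = 0 := (h2 1 (one_mem _)).2 (one_mem _)
  let H : ℕ → Subgroup G := fun i =>
    { carrier := {x | x ∈ N ⊓ F n ∧ ∀ j : Fin m, i ≤ j → co x j = 0}
      one_mem' := ⟨one_mem _, fun j _ => by rw [h0]; rfl⟩
      mul_mem' := fun {x y} hx hy => ⟨mul_mem hx.1 hy.1, fun j hj => by
        rw [h1 x hx.1 y hy.1, Pi.add_apply, hx.2 j hj, hy.2 j hj, add_zero]⟩
      inv_mem' := fun {x} hx => ⟨inv_mem hx.1, fun j hj => by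
        have := congrFun (h1 x hx.1 x⁻¹ (inv_mem hx.1)) j
        rw [mul_inv_cancel, h0, Pi.add_apply, hx.2 j hj, zero_add] at this
        exact this.symm⟩ }
  have hH : ∀ i x, x ∈ H i ↔ x ∈ N ⊓ F n ∧ ∀ j : Fin m, i ≤ j → co x j = 0 := fun _ _ => Iff.rfl
  have hlow : ∀ i, ∀ x ∈ N ⊓ F (n + 1), x ∈ H i := fun i x hx =>
    ⟨hle hx, fun j _ => by rw [(h2 x (hle hx)).2 hx]; rfl⟩
  have hH0 : H 0 = N ⊓ F (n + 1) := by
    ext x
    exact ⟨fun hx => (h2 x hx.1).1 (funext fun j => hx.2 j (Nat.zero_le _)), hlow 0 x⟩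
  have hHm : H m = N ⊓ F n := by
    ext x
    exact ⟨fun hx => hx.1, fun hx => ⟨hx, fun j hj => absurd j.2 (not_lt.2 hj)⟩⟩
  have key : ∀ i ≤ m,
      ∃ (J : Type) (_ : Fintype J) (_ : DecidableEq J), Nonempty (Coord F (H i) J) := by
    intro i
    induction i with
    | zero => intro _; rw [hH0]; exact h
    | succ i ih =>
      intro hi
      obtain ⟨J, _, _, ⟨C⟩⟩ := ih (Nat.le_of_succ_le hi)
      have : (H i).Normal := ⟨fun x hx g => by
        have := (H i).mul_mem (hlow i _ (hcm g x hx.1)) hx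
        rwa [inv_mul_cancel_right] at this⟩
      obtain ⟨b, hb, hb'⟩ := h3 (Pi.single ⟨i, hi⟩ 1)
      refine ⟨Option J, inferInstance, inferInstance, coord_step C
        (fun x hx => ⟨hx.1, fun j hj => hx.2 j (Nat.le_of_succ_le hj)⟩) n hn
        (fun x hx => hx.1.2) (fun x hx hx' => hlow i x ⟨hx.1.1, hx'⟩) b ⟨hb, fun j hj => ?_⟩
        (fun g => co g ⟨i, hi⟩) (fun x hx y hy => ?_) ?_ fun x hx => ?_⟩
      · rw [hb', Pi.single_eq_of_ne]
        intro hji
        rw [hji] at hj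
        exact Nat.not_succ_le_self i hj
      · rw [h1 x hx.1 y hy.1, Pi.add_apply]
      · rw [hb', Pi.single_eq_same]
      · refine ⟨fun h0 => ⟨hx.1, fun j hj => ?_⟩, fun hx' => hx'.2 _ le_rfl⟩
        rcases hj.eq_or_lt with hji | hji
        · have : j = ⟨i, hi⟩ := Fin.ext hji.symm
          rw [this]
          exact h0
        · exact hx.2 j hji
  rw [← hHm]
  exact key m le_rfl

theorem coord_exists {F : ℕ → Subgroup G} (hF : Filt F) (htop : F 1 = ⊤) (r : ℕ)
    (hbot : F (r + 1) = ⊥) (hiso : ∀ n g (k : ℕ), 0 < k → g ^ k ∈ F n → g ∈ F n)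
    (hfg : ∀ H : Subgroup G, H.FG) (N : Subgroup G) [N.Normal] :
    ∃ (J : Type) (_ : Fintype J) (_ : DecidableEq J), Nonempty (Coord F N J) := by
  have key : ∀ k n, n + k = r →
      ∃ (J : Type) (_ : Fintype J) (_ : DecidableEq J), Nonempty (Coord F (N ⊓ F (n + 1)) J) := by
    intro k
    induction k with
    | zero =>
      intro n hn
      rw [add_zero] at hn
      rw [hn, hbot, inf_bot_eq]
      exact ⟨Empty, inferInstance, inferInstance, coord_bot F⟩
    | succ k ih =>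
      intro n hn
      exact NCoord_level hF htop hiso hfg N (n + 1) (Nat.le_add_left 1 n) (ih (n + 1) (by omega))
  have := key r 0 (zero_add r)
  rwa [zero_add, htop, inf_top_eq] at this

end Pool.Agent.MP_b3b911_al.Fil

end

section

open Filter Topology

namespace Pool.Agent.MP_b3b911_al.Fil

theorem IFinal_fg {G : Type*} [Group G] (S : Finset G)
    (hS : Subgroup.closure (S : Set G) = ⊤) : Group.FG G :=
  ⟨⟨S, hS⟩⟩

/-- the hypothesis passes to a quotient through which the map to the integers factors -/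
theorem IFinal_pass {G Q : Type*} [Group G] [Group Q] (π : G →* Q) (hπ : Function.Surjective π)
    (φ : G →* Multiplicative ℤ) (ψ : Q →* Multiplicative ℤ) (hψ : ∀ g, ψ (π g) = φ g)
    (h : ∀ j : ℕ, ∀ x ∈ φ.ker, ∀ y ∈ φ.ker, y ∈ (⊤ : Subgroup G).lowerCentralSeries j →
      ∃ n : ℕ, 0 < n ∧ (x * y * x⁻¹ * y⁻¹) ^ n ∈ (⊤ : Subgroup G).lowerCentralSeries (j + 2)) :
    ∀ j : ℕ, ∀ x ∈ ψ.ker, ∀ y ∈ ψ.ker, y ∈ (⊤ : Subgroup Q).lowerCentralSeries j →
      ∃ n : ℕ, 0 < n ∧ (x * y * x⁻¹ * y⁻¹) ^ n ∈ (⊤ : Subgroup Q).lowerCentralSeries (j + 2) := by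
  have hmap : ∀ j, (⊤ : Subgroup Q).lowerCentralSeries j =
      ((⊤ : Subgroup G).lowerCentralSeries j).map π := by
    intro j
    rw [Subgroup.map_lowerCentralSeries, Subgroup.map_top_of_surjective π hπ]
  intro j x hx y hy hyj
  rw [hmap] at hyj
  obtain ⟨y', hy', rfl⟩ := hyj
  obtain ⟨x', rfl⟩ := hπ x
  rw [MonoidHom.mem_ker, hψ] at hx hy
  obtain ⟨n, hn, hm⟩ := h j x' hx y' hy hy'
  refine ⟨n, hn, ?_⟩
  rw [hmap]
  exact ⟨_, hm, by simp only [map_pow, map_mul, map_inv]⟩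

theorem bounded_tf {G : Type*} [Group G] [Group.IsNilpotent G]
    (htf : ∀ g : G, IsOfFinOrder g → g = 1) (S : Finset G)
    (hS : Subgroup.closure (S : Set G) = ⊤) (φ : G →* Multiplicative ℤ)
    (hφ : Function.Surjective φ)
    (h : ∀ j : ℕ, ∀ x ∈ φ.ker, ∀ y ∈ φ.ker, y ∈ (⊤ : Subgroup G).lowerCentralSeries j →
      ∃ n : ℕ, 0 < n ∧ (x * y * x⁻¹ * y⁻¹) ^ n ∈ (⊤ : Subgroup G).lowerCentralSeries (j + 2)) :
    ∃ (e : ℕ) (c C : ℝ), 0 < c ∧ ∀ k : ℕ, 1 ≤ k →
      |(growth S k : ℝ) - c * (k : ℝ) ^ (e + 1)| ≤ C * (k : ℝ) ^ e := by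
  have : Group.FG G := IFinal_fg S hS
  obtain ⟨t, ht⟩ := hφ (Multiplicative.ofAdd 1)
  have hD := fdata htf φ t ht h
  obtain ⟨r, hr⟩ := hD.bot
  obtain ⟨J, _, _, ⟨C⟩⟩ := coord_exists hD.filt hD.top r hr hD.iso (fun H => sub_fg H) φ.ker
  obtain ⟨Z⟩ := hD.pre C S hS
  obtain ⟨c, C', hc, hb⟩ := Z.core
  refine ⟨∑ j, Z.w j, c, C', hc, fun k hk => ?_⟩
  rw [add_comm]
  exact hb k hk

theorem bounded {G : Type*} [Group G] [Group.IsNilpotent G] (S : Finset G)
    (hS : Subgroup.closure (S : Set G) = ⊤) (φ : G →* Multiplicative ℤ)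
    (hφ : Function.Surjective φ)
    (h : ∀ j : ℕ, ∀ x ∈ φ.ker, ∀ y ∈ φ.ker, y ∈ (⊤ : Subgroup G).lowerCentralSeries j →
      ∃ n : ℕ, 0 < n ∧ (x * y * x⁻¹ * y⁻¹) ^ n ∈ (⊤ : Subgroup G).lowerCentralSeries (j + 2)) :
    ∃ (d : ℕ) (c C : ℝ),
      Tendsto (fun k : ℕ => Real.log (growth S k) / Real.log k) atTop (𝓝 d) ∧ 0 < c ∧
      Tendsto (fun k : ℕ => (growth S k : ℝ) / (k : ℝ) ^ d) atTop (𝓝 c) ∧
      ∀ k : ℕ, 1 ≤ k →
        |((growth S k : ℝ) - c * (k : ℝ) ^ d) / (k : ℝ) ^ ((d : ℤ) - 1)| ≤ C := by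
  classical
  have : Group.FG G := IFinal_fg S hS
  set T : Subgroup G := isol (⊥ : Subgroup G) with hT
  have : T.Normal := isol_normal ⊥
  have hTt : ∀ g ∈ T, IsOfFinOrder g := by
    intro g hg
    obtain ⟨n, hn, hg⟩ := mem_isol.1 hg
    exact isOfFinOrder_iff_pow_eq_one.2 ⟨n, hn, Subgroup.mem_bot.1 hg⟩
  have hfin : Finite T := tors_finite T hTt
  have hφT : ∀ g ∈ T, φ g = 1 := by
    intro g hg
    have h1 : IsOfFinOrder (φ g) := φ.isOfFinOrder (hTt g hg)
    exact h1.eq_one'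
  set π : G →* G ⧸ T := QuotientGroup.mk' T with hπ
  have hsurj : Function.Surjective π := QuotientGroup.mk'_surjective T
  set ψ : G ⧸ T →* Multiplicative ℤ := QuotientGroup.lift T φ hφT with hψ
  have hψπ : ∀ g, ψ (π g) = φ g := fun g => rfl
  have hψs : Function.Surjective ψ := by
    intro z
    obtain ⟨g, rfl⟩ := hφ z
    exact ⟨π g, hψπ g⟩
  have htf : ∀ q : G ⧸ T, IsOfFinOrder q → q = 1 := by
    intro q hq
    obtain ⟨g, rfl⟩ := hsurj q
    obtain ⟨n, hn, hq⟩ := isOfFinOrder_iff_pow_eq_one.1 hq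
    rw [← map_pow] at hq
    have h1 : g ^ n ∈ T := (QuotientGroup.eq_one_iff _).1 hq
    exact (QuotientGroup.eq_one_iff _).2 (isol_pow hn h1)
  have hS' : Subgroup.closure ((S.image π : Finset (G ⧸ T)) : Set (G ⧸ T)) = ⊤ := by
    rw [Finset.coe_image, ← MonoidHom.map_closure, hS, Subgroup.map_top_of_surjective π hsurj]
  obtain ⟨e, c, C, hc, hb⟩ := bounded_tf htf (S.image π) hS' ψ hψs
    (IFinal_pass π hsurj φ ψ hψπ h)
  have hker : Finite π.ker := by
    rw [hπ, QuotientGroup.ker_mk']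
    exact hfin
  obtain ⟨c', C', hc', hb'⟩ := quot_transfer S hS π hker hc hb
  have hr := ratio_of_bound (a := fun k => (growth S k : ℝ)) hb'
  refine ⟨e + 1, c', C', log_ratio (a := fun k => (growth S k : ℝ)) hc' hr, hc', hr,
    fun k hk => ?_⟩
  have hk' : (0 : ℝ) < k := by exact_mod_cast hk
  have he : (((e + 1 : ℕ) : ℤ) - 1) = (e : ℤ) := by push_cast; ring
  rw [he, zpow_natCast, abs_div, abs_of_pos (pow_pos hk' e), div_le_iff₀ (pow_pos hk' e)]
  exact hb' k hk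

end Pool.Agent.MP_b3b911_al.Fil

end
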