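import Pool.Agent.Mg.Fb3b911.G921cfc

section

/-! Block sums, generic directions, and the error term of a system. -/

open MeasureTheory Filter Topology Set

namespace Pool.Agent.MP_b3b911_al

theorem fund_sum {P Γ : Type*} [AddCommGroup Γ] (act : Γ → P → P) (act0 : ∀ p, act 0 p = p)
    (act_add : ∀ a b p, act (a + b) p = act a (act b p)) (blk : P → Γ)
    (blk_act : ∀ a p, blk (act a p) = blk p + a) (σ : P ≃ P)
    (σ_act : ∀ a p, σ (act a p) = act a (σ p)) (S S' : P → Prop)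
    (S_act : ∀ a p, S p → S (act a p)) (S'_act : ∀ a p, S' p → S' (act a p))
    (hσ : ∀ p, S p ↔ S' (σ p)) (φ : P → ℝ) (φ_act : ∀ a p, φ (act a p) = φ p)
    (φ_σ : ∀ p, φ (σ p) = φ p) (D D' : Finset P) (ξ ξ' : Γ)
    (hD : ∀ p, p ∈ D ↔ S p ∧ blk p = ξ) (hD' : ∀ p, p ∈ D' ↔ S' p ∧ blk p = ξ') :
    ∑ p ∈ D, φ p = ∑ p ∈ D', φ p := by
  have σ_act' : ∀ a p, σ.symm (act a p) = act a (σ.symm p) := fun a p => by
    apply σ.injective; rw [σ_act]; simp
  refine Finset.sum_bij' (fun p _ => act (ξ' - blk (σ p)) (σ p))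
    (fun p _ => act (ξ - blk (σ.symm p)) (σ.symm p)) ?_ ?_ ?_ ?_ ?_
  · intro p hp
    rw [hD'] ; rw [hD] at hp
    exact ⟨S'_act _ _ ((hσ p).1 hp.1), by rw [blk_act]; abel⟩
  · intro p hp
    rw [hD]; rw [hD'] at hp
    exact ⟨S_act _ _ ((hσ _).2 (by simpa using hp.1)), by rw [blk_act]; abel⟩
  · intro p hp
    rw [hD] at hp
    rw [σ_act', Equiv.symm_apply_apply, blk_act, ← act_add, hp.2]
    convert act0 p; abel
  · intro p hp
    rw [hD'] at hp
    rw [σ_act, Equiv.apply_symm_apply, blk_act, ← act_add, hp.2]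
    convert act0 p; abel
  · intro p _
    rw [φ_act, φ_σ]

theorem fund_const {P Γ : Type*} [AddCommGroup Γ] (act : Γ → P → P) (act0 : ∀ p, act 0 p = p)
    (act_add : ∀ a b p, act (a + b) p = act a (act b p)) (blk : P → Γ)
    (blk_act : ∀ a p, blk (act a p) = blk p + a) (σ : P ≃ P)
    (σ_act : ∀ a p, σ (act a p) = act a (σ p)) (S : ℕ → P → Prop)
    (S_act : ∀ k a p, S k p → S k (act a p))
    (hσ : ∀ k p, S k p ↔ S (k + 1) (σ p)) (φ : P → ℝ) (φ_act : ∀ a p, φ (act a p) = φ p)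
    (φ_σ : ∀ p, φ (σ p) = φ p) (block : ℕ → Γ → Finset P)
    (hD : ∀ k ξ p, p ∈ block k ξ ↔ S k p ∧ blk p = ξ) (k : ℕ) (ξ : Γ) :
    ∑ p ∈ block k ξ, φ p = ∑ p ∈ block 0 0, φ p := by
  induction k generalizing ξ with
  | zero =>
    exact fund_sum act act0 act_add blk blk_act (Equiv.refl P) (fun _ _ => rfl) (S 0) (S 0)
      (S_act 0) (S_act 0) (fun _ => Iff.rfl) φ φ_act (fun _ => rfl) _ _ ξ 0 (hD 0 ξ) (hD 0 0)
  | succ k ih =>
    rw [← ih ξ]
    exact (fund_sum act act0 act_add blk blk_act σ σ_act (S k) (S (k + 1))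
      (S_act k) (S_act (k + 1)) (hσ k) φ φ_act φ_σ _ _ ξ ξ (hD k ξ) (hD (k + 1) ξ)).symm

theorem block_riemann {ι' P : Type*} [Fintype ι'] (blk : P → ι' → ℤ)
    (block : ℕ → (ι' → ℤ) → Finset P) (S : ℕ → P → Prop)
    (mem : ∀ k ξ p, p ∈ block k ξ ↔ S k p ∧ blk p = ξ) (f : ℕ → P → ℝ) (Lk : ℕ → Finset P)
    (hL : ∀ k p, p ∈ Lk k → S k p) (hL' : ∀ k p, S k p → f k p ≠ 0 → p ∈ Lk k)
    (M : ℕ) (hM : ∀ k ξ, (block k ξ).card ≤ M) (K : ℝ) (hK : 0 ≤ K)
    (hb : ∀ᶠ k in atTop, ∀ p ∈ Lk k, |f k p| ≤ K)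
    (hs : ∀ᶠ k : ℕ in atTop, ∀ p ∈ Lk k, ‖toR (blk p)‖ ≤ K * k)
    (hl : ∀ᵐ θ : ι' → ℝ, ∃ (φ : P → ℝ) (β : ℝ), (∀ k ξ, ∑ p ∈ block k ξ, φ p = β) ∧
      ∀ ε > 0, ∀ᶠ k : ℕ in atTop, ∀ p ∈ block k (fun i => ⌊(k : ℝ) * θ i⌋), |f k p - φ p| ≤ ε) :
    ∃ L, Tendsto (fun k : ℕ => (∑ p ∈ Lk k, f k p) / (k : ℝ) ^ Fintype.card ι') atTop (𝓝 L) := by
  classical
  have hne : ∀ k ξ, ∑ p ∈ block k ξ, f k p ≠ 0 → ∃ p ∈ Lk k, blk p = ξ := by
    intro k ξ h
    obtain ⟨p, hp, h0⟩ := Finset.exists_ne_zero_of_sum_ne_zero h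
    rw [mem] at hp
    exact ⟨p, hL' k p hp.1 h0, hp.2⟩
  refine (riemann (fun k ξ => ∑ p ∈ block k ξ, f k p) (fun k => (Lk k).image blk)
    ((M + 1) * K) (fun k ξ h => Finset.mem_image.2 (hne k ξ h)) ?_ ?_ ?_).imp
    fun L hL0 => hL0.congr fun k => ?_
  rotate_right
  · congr 1
    rw [← Finset.sum_fiberwise_of_maps_to (s := Lk k) (t := (Lk k).image blk) (g := blk)
      (fun p hp => Finset.mem_image_of_mem _ hp)]
    refine Finset.sum_congr rfl fun ξ _ => (Finset.sum_subset ?_ ?_).symm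
    · intro p hp
      rw [Finset.mem_filter] at hp
      exact (mem _ _ _).2 ⟨hL _ _ hp.1, hp.2⟩
    · intro p hp hp'
      by_contra h0
      rw [mem] at hp
      exact hp' (Finset.mem_filter.2 ⟨hL' k p hp.1 h0, hp.2⟩)
  · filter_upwards [hb] with k hk ξ
    refine (Finset.abs_sum_le_sum_abs _ _).trans ?_
    have h1 : ∀ p ∈ block k ξ, |f k p| ≤ K := by
      intro p hp
      by_cases h0 : f k p = 0
      · rw [h0, abs_zero]; exact hK
      · exact hk p (hL' k p ((mem _ _ _).1 hp).1 h0)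
    refine (Finset.sum_le_card_nsmul _ _ _ h1).trans ?_
    have : ((block k ξ).card : ℝ) ≤ M + 1 := by
      have : ((block k ξ).card : ℝ) ≤ M := by exact_mod_cast hM k ξ
      linarith
    rw [nsmul_eq_mul]; gcongr
  · filter_upwards [hs] with k hk ξ h
    obtain ⟨p, hp, rfl⟩ := hne k ξ h
    refine (hk p hp).trans ?_
    have : (0 : ℝ) ≤ M * K * k := by positivity
    nlinarith
  · filter_upwards [hl] with θ ⟨φ, β, h1, h2⟩
    refine ⟨β, Metric.tendsto_nhds.2 fun ε hε => ?_⟩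
    filter_upwards [h2 (ε / (M + 1)) (by positivity)] with k hk
    rw [Real.dist_eq, ← h1 k (fun i => ⌊(k : ℝ) * θ i⌋), ← Finset.sum_sub_distrib]
    refine ((Finset.abs_sum_le_sum_abs _ _).trans (Finset.sum_le_card_nsmul _ _ _ hk)).trans_lt ?_
    have : ((block k (fun i => ⌊(k : ℝ) * θ i⌋)).card : ℝ) < M + 1 := by
      have : ((block k (fun i => ⌊(k : ℝ) * θ i⌋)).card : ℝ) ≤ M := by exact_mod_cast hM k _
      linarith
    rw [nsmul_eq_mul, mul_div_assoc', div_lt_iff₀ (by positivity)]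
    nlinarith

theorem ae_gen {ι' : Type*} [Fintype ι'] (f : (ι' → ℝ) → ℝ) (hf : Measurable f)
    (h : ∀ x0 v, ∃ α β : ℝ, ∀ r : ℝ, f (x0 + r • v) = α * r ^ 2 + β * r + f x0) :
    ∀ᵐ y, f y = 0 → ∀ y', f y' = 0 := by
  by_cases h0 : ∀ y', f y' = 0
  · exact Eventually.of_forall fun _ _ => h0
  · push Not at h0
    obtain ⟨x0, hx0⟩ := h0
    have := null_of_lines f hf x0 hx0 (h x0)
    filter_upwards [measure_eq_zero_iff_ae_notMem.1 this] with y hy h1
    exact absurd h1 hy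

theorem ae_gen_lin {ι' U : Type*} [Fintype ι'] [Fintype U] (T : (ι' → ℝ) →ₗ[ℝ] (U → ℝ))
    (θ0 : U → ℝ) (a : U → ℤ) : ∀ᵐ y, rd a (θ0 + T y) = 0 → ∀ y', rd a (θ0 + T y') = 0 := by
  refine ae_gen _ ((rd a).continuous_of_finiteDimensional.comp
    (continuous_const.add T.continuous_of_finiteDimensional)).measurable fun x0 v =>
    ⟨0, rd a (T v), fun r => ?_⟩
  simp only [map_add, map_smul, smul_eq_mul]; ring

theorem abs_ediv_sub_le {x : ℤ} {m : ℕ} (hm : 0 < m) {y : ℝ} (h : x / m = ⌊y⌋) :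
    |(x : ℝ) - m * y| ≤ m := by
  have hm' : (0 : ℤ) < m := by exact_mod_cast hm
  have hm'' : (0 : ℝ) < m := by exact_mod_cast hm
  have a1 := Int.emod_add_mul_ediv x m
  have a2 := Int.emod_nonneg x hm'.ne'
  have a3 := Int.emod_lt_of_pos x hm'
  rw [h] at a1
  have b1 : ((x % m : ℤ) : ℝ) + m * (⌊y⌋ : ℝ) = x := by exact_mod_cast a1
  have b2 : (0 : ℝ) ≤ ((x % m : ℤ) : ℝ) := by exact_mod_cast a2
  have b3 : ((x % m : ℤ) : ℝ) < m := by exact_mod_cast a3
  have c1 := Int.floor_le y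
  have c2 := Int.lt_floor_add_one y
  rw [abs_le]; constructor <;> nlinarith

theorem norm_ediv_le {ι' U : Type*} [Fintype ι'] [Fintype U] (x : U → ℤ) (j : ι' → U) (m : ℤ) :
    ‖toR (fun i => x (j i) / m)‖ ≤ ‖toR x‖ := by
  rw [pi_norm_le_iff_of_nonneg (norm_nonneg _)]
  intro i
  refine le_trans ?_ (norm_le_pi_norm (toR x) (j i))
  simp only [toR, Real.norm_eq_abs]
  exact_mod_cast Int.abs_ediv_le_abs (x (j i)) m

/-- Spatial vectors at level zero. -/
def emb (ι : Type) : (ι → ℝ) →ₗ[ℝ] (Option ι → ℝ) where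
  toFun η := fun o => o.elim 0 η
  map_add' x y := by funext o; cases o <;> simp
  map_smul' c x := by funext o; cases o <;> simp

@[simp] theorem emb_none {ι : Type} (η : ι → ℝ) : emb ι η none = 0 := rfl
@[simp] theorem emb_some {ι : Type} (η : ι → ℝ) (i : ι) : emb ι η (some i) = η i := rfl

/-- The level direction. -/
def e0 (ι : Type) : Option ι → ℝ := fun o => o.elim 1 fun _ => 0

@[simp] theorem e0_none {ι : Type} : e0 ι none = 1 := rfl
@[simp] theorem e0_some {ι : Type} (i : ι) : e0 ι (some i) = 0 := rfl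

theorem norm_emb_le {ι : Type} [Fintype ι] {η : ι → ℝ} (h : η ∈ cube ι) : ‖emb ι η‖ ≤ 1 := by
  rw [pi_norm_le_iff_of_nonneg zero_le_one]
  rintro (_ | i)
  · simp
  · exact (norm_le_pi_norm η i).trans (norm_le_of_mem_cube h)

theorem near_emb {ι : Type} [Fintype ι] {η : ι → ℝ} (h : η ∈ cube ι) {w w0 : Option ι → ℝ}
    {ρ : ℝ} (hw : ‖w - w0‖ ≤ ρ) : ‖w + emb ι η - w0‖ ≤ ρ + 1 := by
  calc _ = ‖(w - w0) + emb ι η‖ := by congr 1; abel
    _ ≤ _ := norm_add_le _ _
    _ ≤ _ := add_le_add hw (norm_emb_le h)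

namespace Sys

variable {ι : Type} [Fintype ι] {P : Type*} [Group P] {X : Base ι P} {C : Type*} [Fintype C]
  (Y : Sys X C)

/-- Bound for the forms. -/
noncomputable def B0 : ℝ := Y.exists_B.choose

theorem B0_nonneg : 0 ≤ Y.B0 := Y.exists_B.choose_spec.1

theorem B0_const {c : C} {ab : (Option ι → ℤ) × ℤ} (h : ab ∈ Y.Φ c) : |(ab.2 : ℝ)| ≤ Y.B0 :=
  Y.exists_B.choose_spec.2.1 c ab h

theorem B0_form {a : Option ι → ℤ} (h : a ∈ Y.forms) (w : Option ι → ℝ) :
    |rd a w| ≤ Y.B0 * ‖w‖ := Y.exists_B.choose_spec.2.2 a h w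

/-- Slope of the reachable cone. -/
noncomputable def C0 : ℝ := Y.exists_supp.choose

theorem one_le_C0 : 1 ≤ Y.C0 := Y.exists_supp.choose_spec.1

theorem C0_R {p : P} (h : X.R p) : ‖toR (X.u p)‖ ≤ Y.C0 * X.u p none :=
  Y.exists_supp.choose_spec.2.1 p h

theorem C0_lead {w : Option ι → ℝ} (h : Y.lead w ≠ 0) : ‖w‖ ≤ Y.C0 * w none := by
  refine Y.exists_supp.choose_spec.2.2 w 1 ?_
  by_contra h0
  rw [Finset.not_nonempty_iff_eq_empty] at h0
  exact h (by rw [lead, Av, h0, val_empty])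

/-- The part of a level that matters. -/
noncomputable def Lk (k : ℕ) : Finset P :=
  Set.Finite.toFinset (s := {p | X.u p none = k ∧ ‖toR (X.u p)‖ ≤ Y.C0 * k + 1})
    ((X.finite_ball0 _).subset fun _ h => h.2)

theorem mem_Lk {k : ℕ} {p : P} :
    p ∈ Y.Lk k ↔ X.u p none = k ∧ ‖toR (X.u p)‖ ≤ Y.C0 * k + 1 := by
  simp [Lk]

theorem norm_Lk {k : ℕ} (hk : 1 ≤ k) {p : P} (hp : p ∈ Y.Lk k) :
    ‖toR (X.u p)‖ ≤ (Y.C0 + 1) * k := by
  have : (1 : ℝ) ≤ k := by exact_mod_cast hk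
  have := (Y.mem_Lk.1 hp).2
  linarith

/-- Error term at one point. -/
noncomputable def term (p : P) : ℝ := Y.F p - ∫ η in cube ι, Y.lead (toR (X.u p) + emb ι η)

theorem measurable_shift (w : Option ι → ℝ) : Measurable fun η : ι → ℝ => w + emb ι η :=
  (continuous_const.add (emb ι).continuous_of_finiteDimensional).measurable

theorem integrableOn_lead (w : Option ι → ℝ) :
    IntegrableOn (fun η => Y.lead (w + emb ι η)) (cube ι) := by
  obtain ⟨C1, h0, h1⟩ := Y.exists_lead_bound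
  refine integrableOn_cube (Y.measurable_lead.comp (measurable_shift w))
    (K := C1 * (‖w‖ + 1) ^ 2) fun η hη => (h1 _).trans ?_
  have : ‖w + emb ι η‖ ≤ ‖w‖ + 1 := (norm_add_le _ _).trans (by linarith [norm_emb_le hη])
  gcongr

theorem mem_Lk_of_term {k : ℕ} {p : P} (hk : X.u p none = k) (h : Y.term p ≠ 0) : p ∈ Y.Lk k := by
  rw [mem_Lk]
  refine ⟨hk, ?_⟩
  by_contra hc
  push Not at hc
  apply h
  have h1 : Y.F p = 0 := Y.zero p fun hR => by
    have := Y.C0_R hR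
    rw [hk] at this
    push_cast at this
    linarith
  have h2 : ∫ η in cube ι, Y.lead (toR (X.u p) + emb ι η) = 0 := by
    refine setIntegral_eq_zero_of_forall_eq_zero fun η hη => ?_
    by_contra h0
    have a1 := Y.C0_lead h0
    simp only [Pi.add_apply, emb_none, add_zero, toR, hk, Int.cast_natCast] at a1
    have a2 : ‖toR (X.u p)‖ ≤ ‖toR (X.u p) + emb ι η‖ + 1 := by
      calc ‖toR (X.u p)‖ = ‖(toR (X.u p) + emb ι η) - emb ι η‖ := by simp
        _ ≤ _ := norm_sub_le _ _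
        _ ≤ _ := by linarith [norm_emb_le hη]
    have a3 : ‖toR (X.u p) + emb ι η‖ ≤ Y.C0 * k := a1
    linarith
  rw [term, h1, h2, sub_zero]

/-- Forms with a nonzero spatial part. -/
noncomputable def forms' : Finset (Option ι → ℤ) := by
  classical
  exact Y.forms.filter fun a => ∃ i, a (some i) ≠ 0

theorem mem_forms' {a : Option ι → ℤ} : a ∈ Y.forms' ↔ a ∈ Y.forms ∧ ∃ i, a (some i) ≠ 0 := by
  unfold forms'; simp only [Finset.mem_filter]

/-- The slabs containing a point. -/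
noncomputable def slabs (p : P) : Finset (Option ι → ℤ) := by
  classical
  exact Y.forms'.filter fun a => |rd a (toR (X.u p))| ≤ Y.B0

theorem mem_slabs {a : Option ι → ℤ} {p : P} :
    a ∈ Y.slabs p ↔ a ∈ Y.forms' ∧ |rd a (toR (X.u p))| ≤ Y.B0 := by
  unfold slabs; simp only [Finset.mem_filter]

/-- Templates relevant for the leading term near a ray, seen from a side. -/
noncomputable def W (θ z : Option ι → ℝ) : Finset C := by
  classical
  exact Finset.univ.filter fun c => Y.cong c 1 ∧ ∀ ab ∈ Y.Φ c,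
    0 < rd ab.1 θ ∨ (rd ab.1 θ = 0 ∧ (0 < rd ab.1 z ∨ (rd ab.1 z = 0 ∧ ab.2 ≤ 0)))

theorem mem_W {θ z : Option ι → ℝ} {c : C} : c ∈ Y.W θ z ↔ Y.cong c 1 ∧ ∀ ab ∈ Y.Φ c,
    0 < rd ab.1 θ ∨ (rd ab.1 θ = 0 ∧ (0 < rd ab.1 z ∨ (rd ab.1 z = 0 ∧ ab.2 ≤ 0))) := by
  unfold W; simp only [Finset.mem_filter, Finset.mem_univ, true_and]

theorem ev_W (θ : Option ι → ℝ) (ρ : ℝ) : ∀ᶠ t : ℝ in atTop, ∀ w,
    ‖w - t • θ‖ ≤ ρ → Y.V w 1 = Y.W θ w := by
  filter_upwards [ev_sign Y.forms θ ρ 0] with t ht w hw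
  ext c
  rw [mem_V, mem_W]
  refine and_congr_right fun _ => forall₂_congr fun ab hab => ?_
  obtain ⟨h1, h2⟩ := ht _ hw _ (Y.mem_forms hab)
  rw [X.u_one, dotProduct_zero]
  rcases lt_trichotomy 0 (rd ab.1 θ) with h | h | h
  · simp [h, h1 h]
  · simp [← h]
  · have := h2 h
    rw [neg_zero] at this
    simp [h.not_gt, h.ne, this.not_gt, this.ne]

theorem W_off {θ : Option ι → ℝ} (h : Y.Off θ) (z : Option ι → ℝ) : Y.W θ z = Y.V θ 1 := by
  ext c
  rw [mem_V, mem_W]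
  refine and_congr_right fun _ => forall₂_congr fun ab hab => or_congr_right
    (and_congr_right fun h0 => ?_)
  rw [h _ (Y.mem_forms hab) h0]
  simp [rd_zero]

end Sys

end Pool.Agent.MP_b3b911_al

end

section

/-! Second order analysis away from the walls. -/

open MeasureTheory Filter Topology Set

namespace Pool.Agent.MP_b3b911_al

namespace Sys

variable {ι : Type} [Fintype ι] {P : Type*} [Group P] {X : Base ι P} {C : Type*} [Fintype C]
  (Y : Sys X C)

/-- Generic for the quadratic forms. -/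
def Gen (θ : Option ι → ℝ) : Prop := ∀ c c', Y.Q c θ = Y.Q c' θ → ∀ w, Y.Q c w = Y.Q c' w

theorem ev_gap (θ : Option ι → ℝ) (c0 : C) (ρ C5 : ℝ) : ∀ᶠ t : ℝ in atTop, ∀ c,
    Y.Q c θ < Y.Q c0 θ → ∀ w, ‖w - t • θ‖ ≤ ρ → Y.Q c w + C5 * t ≤ Y.Q c0 w := by
  obtain ⟨C2, h0, h⟩ := Y.exists_expand θ ρ
  rw [eventually_all]
  intro c
  by_cases hc : Y.Q c θ < Y.Q c0 θ
  swap
  · exact Eventually.of_forall fun _ h => absurd h hc
  filter_upwards [eventually_ge_atTop 1,
    eventually_ge_atTop ((4 * C2 + C5) / (Y.Q c0 θ - Y.Q c θ))] with t ht1 ht _ w hw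
  rw [div_le_iff₀ (sub_pos.2 hc)] at ht
  obtain ⟨a1, a2, -⟩ := h c _ hw
  obtain ⟨b1, b2, -⟩ := h c0 _ hw
  have e1 : w = t • θ + (w - t • θ) := by abel
  rw [e1, Q_expand, Q_expand]
  rw [abs_le] at a1 a2 b1 b2
  have : (4 * C2 + C5) * t ≤ t * (Y.Q c0 θ - Y.Q c θ) * t := by gcongr
  nlinarith [a1.1, a1.2, a2.1, a2.2, b1.1, b1.2, b2.1, b2.2]

/-- Second order coefficient. -/
noncomputable def bb (θ : Option ι → ℝ) (c0 : C) (p : P) : ℝ := by
  classical
  exact val ((Y.V θ p).filter fun c => Y.Q c θ = Y.Q c0 θ) fun c => Y.l c θ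

theorem bb_τ {θ : Option ι → ℝ} (h : Y.Off θ) (c0 : C) (z : Option ι → ℤ) (p : P) :
    Y.bb θ c0 (X.τ z * p) = Y.bb θ c0 p := by
  unfold bb
  rw [Y.V_τ fun a ha h0 => by rw [h a ha h0, zero_dotProduct]]

theorem ev_SO {θ : Option ι → ℝ} (h : Y.Off θ) (hg : Y.Gen θ) {c0 : C} (hc0 : c0 ∈ Y.V θ 1)
    (hmax : Y.Av θ 1 = Y.Q c0 θ) (ρ : ℝ) : ∃ C4 : ℝ, ∀ᶠ t : ℝ in atTop, ∀ p,
    ‖toR (X.u p) - t • θ‖ ≤ ρ →
      X.R p ∧ |Y.F p - Y.Q c0 (toR (X.u p)) - t * Y.bb θ c0 p| ≤ C4 := by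
  classical
  obtain ⟨C2, h0, h2⟩ := Y.exists_expand θ ρ
  refine ⟨Y.K + C2, ?_⟩
  filter_upwards [Y.ev_valid θ ρ, Y.ev_gap θ c0 ρ (2 * C2), eventually_ge_atTop 0]
    with t ht hgap ht0 p hp
  obtain ⟨a1, a2⟩ := Y.F_val (ht p hp)
  obtain ⟨a3, a4⟩ := Y.Av_eq_of_A (Y.A_off h p)
  have hne := a4.2 ⟨c0, hc0⟩
  refine ⟨a1.2 hne, ?_⟩
  have e1 : toR (X.u p) = t • θ + (toR (X.u p) - t • θ) := by abel
  have el : ∀ c, Y.l c (toR (X.u p)) = t * Y.l c θ + Y.l c (toR (X.u p) - t • θ) := fun c => by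
    conv_lhs => rw [e1]
    rw [map_add, map_smul, smul_eq_mul]
  obtain ⟨c1, hc1, -, b1, -⟩ := exists_wsup hne fun c => Y.Q c θ
  have hc1' : c1 ∈ (Y.V θ p).filter fun c => Y.Q c θ = Y.Q c0 θ :=
    Finset.mem_filter.2 ⟨hc1, by rw [← hmax, ← a3, Av, b1]⟩
  obtain ⟨c2, hc2, -, b2, b3⟩ := exists_wsup ⟨c1, hc1'⟩ fun c => Y.l c θ
  have hb : Y.bb θ c0 p = Y.l c2 θ := b2
  rw [Finset.mem_filter] at hc2
  have d1 := le_val (fun c => Y.Q c (toR (X.u p)) + Y.l c (toR (X.u p))) hc2.1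
  obtain ⟨c3, hc3, -, d2, -⟩ := exists_wsup hne
    fun c => Y.Q c (toR (X.u p)) + Y.l c (toR (X.u p))
  obtain ⟨-, -, f1, f2, -⟩ := h2 c2 _ hp
  obtain ⟨-, -, f3, f4, -⟩ := h2 c3 _ hp
  simp only [hg _ _ hc2.2, el c2] at d1
  have d3 : Y.Q c3 (toR (X.u p)) + Y.l c3 (toR (X.u p)) ≤
      Y.Q c0 (toR (X.u p)) + t * Y.l c2 θ + C2 := by
    have g1 : Y.Q c3 θ ≤ Y.Q c0 θ := by
      rw [← hmax, ← a3]; exact le_val (fun c => Y.Q c θ) hc3
    rw [abs_le] at f1 f2 f3 f4
    rcases g1.lt_or_eq with g1 | g1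
    · have := hgap c3 g1 _ hp
      rw [el c3]
      nlinarith [f1.1, f1.2, f2.1, f2.2, f3.1, f3.2, f4.1, f4.2]
    · have := b3 c3 (Finset.mem_filter.2 ⟨hc3, g1⟩)
      rw [el c3, hg _ _ g1]
      nlinarith [f3.1, f3.2]
  rw [hb]
  rw [abs_le] at a2 f1 ⊢
  constructor <;> linarith [a2.1, a2.2, f1.1, f1.2]

theorem ev_lead_off {θ : Option ι → ℝ} (h : Y.Off θ) (hg : Y.Gen θ) {c0 : C}
    (hc0 : c0 ∈ Y.V θ 1) (hmax : Y.Av θ 1 = Y.Q c0 θ) (ρ : ℝ) : ∀ᶠ t : ℝ in atTop, ∀ w,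
    ‖w - t • θ‖ ≤ ρ → Y.lead w = Y.Q c0 w := by
  filter_upwards [Y.ev_W θ ρ, Y.ev_gap θ c0 ρ 0] with t ht hgap w hw
  rw [lead, Av, ht w hw, Y.W_off h]
  refine val_eq_of (fun c => Y.Q c w) hc0 fun c hc => ?_
  have g1 : Y.Q c θ ≤ Y.Q c0 θ := by
    rw [← hmax]; exact le_val (fun c => Y.Q c θ) hc
  rcases g1.lt_or_eq with g1 | g1
  · simpa using hgap c g1 w hw
  · exact (hg _ _ g1 w).le

omit [Fintype C] in
theorem Q_shift (c : C) (θ w v : Option ι → ℝ) (t : ℝ) :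
    Y.Q c (w + v) - Y.Q c w =
      t * Y.D c θ v + (Y.Q c (w + v - t • θ) - Y.Q c (w - t • θ)) := by
  have e1 : w = t • θ + (w - t • θ) := by abel
  have e2 : w + v = t • θ + (w + v - t • θ) := by abel
  have e3 : w + v - t • θ = (w - t • θ) + v := by abel
  conv_lhs => rw [e2, Q_expand]; arg 2; rw [e1, Q_expand]
  rw [e3, map_add]; ring

theorem exists_bb_inv {θ : Option ι → ℝ} (hθ : 0 < θ none) (h : Y.Off θ) (hg : Y.Gen θ) {c0 : C}
    (hc0 : c0 ∈ Y.V θ 1) (hmax : Y.Av θ 1 = Y.Q c0 θ) :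
    ∃ s ∈ X.L, ∀ p, Y.bb θ c0 (p * s) = Y.bb θ c0 p := by
  obtain ⟨ρ, hρ⟩ := X.exists_seq θ
  have h1 : ∀ s ∈ X.L, ∀ p, Y.bb θ c0 p + (Y.lam s θ - Y.D c0 θ (toR (X.u s))) ≤
      Y.bb θ c0 (p * s) := by
    intro s hs p
    set ρ' := ρ + ‖toR (X.u p)‖ + ‖toR (X.u (p * s))‖
    obtain ⟨C4, h4⟩ := Y.ev_SO h hg hc0 hmax ρ'
    obtain ⟨C2, hC2, h2⟩ := Y.exists_expand θ ρ'
    refine le_of_lin (C := 2 * C4 + 3 * C2 + Y.K) ?_
    filter_upwards [h4] with t ht
    obtain ⟨z, -, hz'⟩ := hρ t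
    have n1 : ‖toR (X.u (X.τ z * p)) - t • θ‖ ≤ ρ' := (hz' p).trans (by
      have := norm_nonneg (toR (X.u (p * s))); simp only [ρ']; linarith)
    have n2 : ‖toR (X.u (X.τ z * (p * s))) - t • θ‖ ≤ ρ' := (hz' _).trans (by
      have := norm_nonneg (toR (X.u p)); simp only [ρ']; linarith)
    obtain ⟨hR, a2⟩ := ht _ n1
    obtain ⟨-, a4⟩ := ht _ n2
    rw [Y.bb_τ h] at a2 a4
    have a5 := Y.mono s hs _ hR
    rw [mul_assoc] at a5
    have e0 : toR (X.u (X.τ z * (p * s))) = toR (X.u (X.τ z * p)) + toR (X.u s) := by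
      rw [← mul_assoc, X.u_mul, toR_add]
    obtain ⟨-, b3, -, -, b⟩ := h2 c0 _ n1
    obtain ⟨-, b4, -⟩ := h2 c0 _ n2
    obtain ⟨b1, -⟩ := b s hs
    rw [e0] at a4 b4
    have a6 := Y.Q_shift c0 θ (toR (X.u (X.τ z * p))) (toR (X.u s)) t
    have e1 : Y.lam s (toR (X.u (X.τ z * p))) =
        t * Y.lam s θ + Y.lam s (toR (X.u (X.τ z * p)) - t • θ) := by
      rw [map_sub, map_smul, smul_eq_mul]; ring
    rw [abs_le] at a2 a4 b1 b3 b4
    nlinarith [a2.1, a2.2, a4.1, a4.2, b1.1, b1.2, b3.1, b3.2, b4.1, b4.2]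
  have h2 : ∃ s ∈ X.L, 0 ≤ Y.lam s θ - Y.D c0 θ (toR (X.u s)) := by
    by_contra hc
    push Not at hc
    obtain ⟨r, hr0, hr⟩ := exists_fin_bound X.L (fun s r => ‖toR (X.u (s ^ X.N))‖ ≤ r)
      (fun _ _ _ h1 _ h2 => h2.trans h1) fun s _ => ⟨_, norm_nonneg _, le_rfl⟩
    set ρ' := ρ + ‖toR (X.u 1)‖ + r
    obtain ⟨C4, h4⟩ := Y.ev_SO h hg hc0 hmax ρ'
    obtain ⟨C2, hC2, h2⟩ := Y.exists_expand θ ρ'
    have hN : (0 : ℝ) < X.N := by exact_mod_cast X.N_pos
    have h5 : ∀ᶠ t : ℝ in atTop, ∀ s ∈ X.L, 2 * C4 + 2 * C2 + X.N * C2 + Y.K <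
        t * (X.N * -(Y.lam s θ - Y.D c0 θ (toR (X.u s)))) := by
      rw [Finset.eventually_all]
      intro s hs
      have := hc s hs
      exact (tendsto_id.atTop_mul_const (mul_pos hN (neg_pos.2 this))).eventually_gt_atTop _
    have h6 : ∀ᶠ t : ℝ in atTop, ρ' + Y.k0 ≤ t * θ none :=
      (tendsto_id.atTop_mul_const hθ).eventually_ge_atTop _
    obtain ⟨t, ht, ht5, ht6⟩ := (h4.and (h5.and h6)).exists
    obtain ⟨z, -, hz'⟩ := hρ t
    have n1 : ‖toR (X.u (X.τ z * 1)) - t • θ‖ ≤ ρ' := (hz' 1).trans (by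
      simp only [ρ']; linarith)
    obtain ⟨hR, a2⟩ := ht _ n1
    have a0 : |(toR (X.u (X.τ z * 1)) - t • θ) none| ≤ ρ' := (norm_le_pi_norm _ none).trans n1
    simp only [Pi.sub_apply, toR, Pi.smul_apply, smul_eq_mul] at a0
    have a1 : Y.k0 ≤ X.u (X.τ z * 1) none := by
      have : (Y.k0 : ℝ) ≤ X.u (X.τ z * 1) none := by linarith [(abs_le.1 a0).1]
      exact_mod_cast this
    obtain ⟨s, hs, p', -, e, a3⟩ := Y.opt _ hR a1
    have e0 : toR (X.u (X.τ z * 1)) = toR (X.u p') + (X.N : ℝ) • toR (X.u s) := by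
      rw [e, X.u_mul, toR_add, X.u_pow, toR_nsmul]
    have n2 : ‖toR (X.u p') - t • θ‖ ≤ ρ' := by
      have b1 := hr s hs
      rw [X.u_pow, toR_nsmul] at b1
      calc _ = ‖(toR (X.u (X.τ z * 1)) - t • θ) - (X.N : ℝ) • toR (X.u s)‖ := by
            rw [e0]; congr 1; abel
        _ ≤ _ := norm_sub_le _ _
        _ ≤ _ := add_le_add (hz' 1) b1
    obtain ⟨-, a4⟩ := ht _ n2
    have e2 : Y.bb θ c0 (X.τ z * 1) = Y.bb θ c0 p' := by
      rw [e, X.pow_eq, ← X.τ_comm, Y.bb_τ h]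
    obtain ⟨-, b3, -⟩ := h2 c0 _ n1
    obtain ⟨-, b4, -, -, b⟩ := h2 c0 _ n2
    obtain ⟨b1, -⟩ := b s hs
    rw [e0] at a2 b3
    rw [e2] at a2
    have a6 := Y.Q_shift c0 θ (toR (X.u p')) ((X.N : ℝ) • toR (X.u s)) t
    rw [map_smul, smul_eq_mul] at a6
    have e1 : Y.lam s (toR (X.u p')) = t * Y.lam s θ + Y.lam s (toR (X.u p') - t • θ) := by
      rw [map_sub, map_smul, smul_eq_mul]; ring
    have a7 := ht5 s hs
    rw [abs_le] at a2 a4 b1 b3 b4
    rw [e1] at a3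
    nlinarith [a2.1, a2.2, a4.1, a4.2, b1.1, b1.2, b3.1, b3.2, b4.1, b4.2]
  obtain ⟨s, hs, h2⟩ := h2
  refine ⟨s, hs, fun p => le_antisymm ?_ (by linarith [h1 s hs p])⟩
  have h3 : ∀ n p, Y.bb θ c0 p ≤ Y.bb θ c0 (p * s ^ n) := by
    intro n
    induction n with
    | zero => simp
    | succ n ih =>
      intro p
      rw [pow_succ, ← mul_assoc]
      linarith [ih p, h1 s hs (p * s ^ n)]
  obtain ⟨n, hn⟩ : ∃ n, X.N = n + 1 := ⟨X.N - 1, by have := X.N_pos; omega⟩
  have := h3 n (p * s)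
  rwa [mul_assoc, ← pow_succ', ← hn, X.pow_eq, ← X.τ_comm, Y.bb_τ h] at this

theorem term_interior {θ : Option ι → ℝ} (hθ : 0 < θ none) (h : Y.Off θ) (hg : Y.Gen θ) :
    ∃ (φ : P → ℝ) (s : P), s ∈ X.L ∧ (∀ p, φ (p * s) = φ p) ∧ (∀ z p, φ (X.τ z * p) = φ p) ∧
      ∀ ρ, ∃ C6 : ℝ, ∀ᶠ t : ℝ in atTop, ∀ p, ‖toR (X.u p) - t • θ‖ ≤ ρ →
        |Y.term p - t * φ p| ≤ C6 := by
  rcases (Y.V θ 1).eq_empty_or_nonempty with h0 | h0
  · obtain ⟨s, hs⟩ : X.L.Nonempty := by
      by_contra hc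
      rw [Finset.not_nonempty_iff_eq_empty] at hc
      have h1 := X.L_gen
      rw [hc, Finset.coe_empty, Subgroup.closure_empty] at h1
      obtain ⟨g, hg⟩ := X.u_surj fun _ => 1
      have : g ∈ (⊥ : Subgroup P) := by rw [h1]; trivial
      rw [Subgroup.mem_bot] at this
      rw [this, X.u_one] at hg
      simpa using congrFun hg none
    refine ⟨fun _ => 0, s, hs, fun _ => rfl, fun _ _ => rfl, fun ρ => ⟨0, ?_⟩⟩
    obtain ⟨C3, h3⟩ := Y.ev_LO θ ρ
    filter_upwards [h3, Y.ev_W θ (ρ + 1)] with t ht hW p hp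
    have a1 : Y.F p = 0 := Y.zero p fun hR => by
      have := (Y.Av_eq_of_A (Y.A_off h p)).2.1 ((ht p hp).1.1 hR)
      rw [h0] at this
      exact absurd this Finset.not_nonempty_empty
    have a2 : ∫ η in cube ι, Y.lead (toR (X.u p) + emb ι η) = 0 := by
      refine setIntegral_eq_zero_of_forall_eq_zero fun η hη => ?_
      rw [lead, Av, hW _ (near_emb hη hp), Y.W_off h, h0, val_empty]
    simp [term, a1, a2]
  obtain ⟨c0, hc0, -, hmax, -⟩ := exists_wsup h0 fun c => Y.Q c θ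
  obtain ⟨s, hs, hinv⟩ := Y.exists_bb_inv hθ h hg hc0 hmax
  refine ⟨fun p => Y.bb θ c0 p - ∫ η in cube ι, Y.D c0 θ (emb ι η), s, hs,
    fun p => by simp only [hinv], fun z p => by simp only [Y.bb_τ h], fun ρ => ?_⟩
  obtain ⟨C4, h4⟩ := Y.ev_SO h hg hc0 hmax ρ
  obtain ⟨C2, hC2, h2⟩ := Y.exists_expand θ (ρ + 1)
  obtain ⟨C1, hC1, h1⟩ := exists_lin_bound (Y.D c0 θ)
  refine ⟨C4 + 2 * C2, ?_⟩
  filter_upwards [h4, Y.ev_lead_off h hg hc0 hmax (ρ + 1)] with t ht hl p hp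
  obtain ⟨-, a1⟩ := ht p hp
  have hi : IntegrableOn (fun η => Y.D c0 θ (emb ι η)) (cube ι) :=
    integrableOn_cube ((Y.D c0 θ).continuous_of_finiteDimensional.comp
      (emb ι).continuous_of_finiteDimensional).measurable (K := C1) fun η hη =>
        (h1 _).trans (by nlinarith [norm_emb_le hη])
  have hi0 : IntegrableOn (fun _ : ι → ℝ => Y.Q c0 (toR (X.u p))) (cube ι) :=
    integrableOn_cube measurable_const fun _ _ => le_rfl
  have a2 := abs_cube_integral_sub_le (Y.integrableOn_lead (toR (X.u p)))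
    (hi0.add (hi.const_mul t)) (K := 2 * C2) (fun η hη => by
      have n1 := near_emb hη hp
      obtain ⟨-, b3, -⟩ := h2 c0 _ n1
      obtain ⟨-, b4, -⟩ := h2 c0 _ (hp.trans (by linarith : ρ ≤ ρ + 1))
      have a6 := Y.Q_shift c0 θ (toR (X.u p)) (emb ι η) t
      rw [hl _ n1]
      simp only [Pi.add_apply]
      rw [abs_le] at b3 b4 ⊢
      constructor <;> linarith [b3.1, b3.2, b4.1, b4.2])
  simp only [Pi.add_apply] at a2
  rw [integral_add hi0 (hi.const_mul t), cube_integral_const, integral_const_mul] at a2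
  rw [term]
  rw [abs_le] at a1 a2 ⊢
  constructor <;> linarith [a1.1, a1.2, a2.1, a2.2]

theorem ae_interior : ∀ᵐ y : ι → ℝ,
    Y.Off (e0 ι + ((X.N : ℝ) • emb ι) y) ∧
      Y.Gen (e0 ι + ((X.N : ℝ) • emb ι) y) := by
  classical
  have hN : (X.N : ℝ) ≠ 0 := by exact_mod_cast X.N_pos.ne'
  set T : (ι → ℝ) →ₗ[ℝ] (Option ι → ℝ) := (X.N : ℝ) • emb ι with hT
  set θ0 : Option ι → ℝ := e0 ι with hθ0
  have hw : ∀ w : Option ι → ℝ, w = w none • θ0 + T fun i => w (some i) / X.N := by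
    intro w; funext o
    cases o with
    | none => simp [hT, hθ0]
    | some i => simp [hT, hθ0]; field_simp
  refine Eventually.and ?_ ?_
  · filter_upwards [(Finset.eventually_all Y.forms).2 fun a _ => ae_gen_lin T θ0 a]
      with y hy a ha h0
    have h1 := hy a ha h0
    have h2 : ∀ w, rd a w = 0 := by
      intro w
      have b1 := h1 0
      have b2 := h1 fun i => w (some i) / X.N
      rw [map_zero, add_zero] at b1
      rw [map_add, b1, zero_add] at b2
      rw [hw w, map_add, map_smul, b1, b2]; simp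
    funext o
    have := h2 (Pi.single o 1)
    simpa [rd_apply, Pi.single_apply] using this
  · have : ∀ cc : C × C, ∀ᵐ y : ι → ℝ, Y.Q cc.1 (θ0 + T y) - Y.Q cc.2 (θ0 + T y) = 0 →
        ∀ y', Y.Q cc.1 (θ0 + T y') - Y.Q cc.2 (θ0 + T y') = 0 := by
      intro cc
      have hc : Continuous fun y => θ0 + T y :=
        continuous_const.add T.continuous_of_finiteDimensional
      refine ae_gen _ (((continuous_bilin (Y.q cc.1)).comp hc).sub
        ((continuous_bilin (Y.q cc.2)).comp hc)).measurable fun x0 v =>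
        ⟨Y.Q cc.1 (T v) - Y.Q cc.2 (T v),
          Y.D cc.1 (T v) (θ0 + T x0) - Y.D cc.2 (T v) (θ0 + T x0), fun r => ?_⟩
      have e : θ0 + T (x0 + r • v) = r • T v + (θ0 + T x0) := by
        rw [map_add, map_smul]; abel
      rw [e, Q_expand, Q_expand]; ring
    filter_upwards [eventually_all.2 this] with y hy c c' h0
    have h1 := hy (c, c') (sub_eq_zero.2 h0)
    have h2 : ∀ w : Option ι → ℝ, w none ≠ 0 → Y.Q c w = Y.Q c' w := by
      intro w hw0
      have e : w = w none • (θ0 + T fun i => w (some i) / X.N / w none) := by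
        funext o
        cases o with
        | none => simp [hT, hθ0]
        | some i => simp [hT, hθ0]; field_simp
      rw [e, Q_smul, Q_smul, sub_eq_zero.1 (h1 _)]
    intro w
    by_cases hw0 : w none = 0
    swap
    · exact h2 w hw0
    have b1 := h2 ((1 : ℝ) • θ0 + w) (by simp [hθ0, hw0])
    have b2 := h2 ((-1 : ℝ) • θ0 + w) (by simp [hθ0, hw0])
    have b3 := h2 θ0 (by simp [hθ0])
    rw [Q_expand, Q_expand] at b1 b2
    linarith

theorem interior_bound : ∃ K : ℝ, 0 ≤ K ∧ ∀ᶠ k : ℕ in atTop, ∀ p ∈ Y.Lk k, Y.slabs p = ∅ →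
    |Y.term p| ≤ K * k := by
  obtain ⟨C1, h0, h1, h2, -⟩ := Y.exists_C
  have hC0 := Y.one_le_C0
  have hK := Y.K_nonneg
  refine ⟨Y.K + C1 * (Y.C0 + 1) + C1 * (2 * (Y.C0 + 1) + 1), by positivity, ?_⟩
  filter_upwards [eventually_ge_atTop 1, tendsto_natCast_atTop_atTop.eventually_gt_atTop Y.B0]
    with k hk1 hkB p hp hs
  have hk1' : (1 : ℝ) ≤ k := by exact_mod_cast hk1
  have hn := Y.norm_Lk hk1 hp
  have hk := (Y.mem_Lk.1 hp).1
  have hbig : ∀ a ∈ Y.forms, a ≠ 0 → Y.B0 < |rd a (toR (X.u p))| := by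
    intro a ha hne
    by_cases ha' : ∃ i, a (some i) ≠ 0
    · by_contra hc
      have : a ∈ Y.slabs p := Y.mem_slabs.2 ⟨Y.mem_forms'.2 ⟨ha, ha'⟩, not_lt.1 hc⟩
      rw [hs] at this
      exact absurd this (Finset.notMem_empty _)
    · push Not at ha'
      have e : rd a (toR (X.u p)) = a none * k := by
        rw [rd_apply, Fintype.sum_option]; simp [ha', toR, hk]
      have : a none ≠ 0 := fun h => hne (funext fun o => by cases o <;> simp [h, ha'])
      have : (1 : ℝ) ≤ |(a none : ℝ)| := by exact_mod_cast Int.one_le_abs this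
      rw [e, abs_mul, abs_of_nonneg (by linarith : (0 : ℝ) ≤ k)]
      nlinarith
  have hoff : Y.Off (toR (X.u p)) := by
    intro a ha h0
    by_contra hne
    have := hbig a ha hne
    rw [h0, abs_zero] at this
    linarith [Y.B0_nonneg]
  have hv : ∀ c, Y.valid c p ↔ c ∈ Y.V (toR (X.u p)) p := by
    intro c
    rw [mem_V, valid]
    refine and_congr_right fun _ => forall₂_congr fun ab hab => ?_
    by_cases ha : ab.1 = 0
    · simp [ha, rd_zero]
    have b1 := hbig _ (Y.mem_forms hab) ha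
    have b2 := abs_le.1 (Y.B0_const hab)
    rw [rd_toR] at b1 ⊢
    rcases lt_abs.1 b1 with b1 | b1
    · have : (ab.2 : ℝ) ≤ ((ab.1 ⬝ᵥ X.u p : ℤ) : ℝ) := by linarith [b2.2]
      have b3 : (0 : ℝ) < ((ab.1 ⬝ᵥ X.u p : ℤ) : ℝ) := by linarith [Y.B0_nonneg]
      simp only [Int.cast_le.1 this, b3, true_or]
    · have : ((ab.1 ⬝ᵥ X.u p : ℤ) : ℝ) < (ab.2 : ℝ) := by linarith [b2.1]
      have b3 : ((ab.1 ⬝ᵥ X.u p : ℤ) : ℝ) < 0 := by linarith [Y.B0_nonneg]
      simp only [not_le.2 (Int.cast_lt.1 this), b3.not_gt, and_false, or_false]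
  obtain ⟨-, a1⟩ := Y.F_val hv
  have a2 : |val (Y.V (toR (X.u p)) p) (fun c => Y.Q c (toR (X.u p)) + Y.l c (toR (X.u p))) -
      Y.lead (toR (X.u p))| ≤ C1 * ((Y.C0 + 1) * k) := by
    rw [lead, ← (Y.Av_eq_of_A (Y.A_off hoff p)).1, Av]
    refine abs_val_sub_le (by positivity) fun c _ => ?_
    rw [add_sub_cancel_left]
    exact (h2 c _).trans (by gcongr)
  have a3 := abs_cube_integral_sub_le (Y.integrableOn_lead (toR (X.u p)))
    (g := fun _ => Y.lead (toR (X.u p))) (integrableOn_cube measurable_const fun _ _ => le_rfl)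
    (K := C1 * (2 * ((Y.C0 + 1) * k) + 1)) (fun η hη => by
      have hη' := norm_emb_le hη
      have e : Y.V (toR (X.u p) + emb ι η) 1 = Y.V (toR (X.u p)) 1 := by
        ext c
        rw [mem_V, mem_V]
        refine and_congr_right fun _ => forall₂_congr fun ab hab => ?_
        by_cases ha : ab.1 = 0
        · simp [ha, rd_zero]
        have b1 := hbig _ (Y.mem_forms hab) ha
        have b2 : |rd ab.1 (emb ι η)| ≤ Y.B0 := (Y.B0_form (Y.mem_forms hab) _).trans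
          (by nlinarith [Y.B0_nonneg])
        rw [map_add]
        rw [abs_le] at b2
        rcases lt_abs.1 b1 with b1 | b1
        · have b3 : 0 < rd ab.1 (toR (X.u p)) := by linarith [Y.B0_nonneg]
          have b4 : 0 < rd ab.1 (toR (X.u p)) + rd ab.1 (emb ι η) := by linarith [b2.1]
          simp only [b3, b4, true_or]
        · have b3 : rd ab.1 (toR (X.u p)) < 0 := by linarith [Y.B0_nonneg]
          have b4 : rd ab.1 (toR (X.u p)) + rd ab.1 (emb ι η) < 0 := by linarith [b2.2]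
          simp only [b3.not_gt, b4.not_gt, b3.ne, b4.ne, false_and]
      rw [lead, lead, Av, Av, e]
      refine abs_val_sub_le (by positivity) fun c _ => ?_
      have e2 := Y.Q_expand c (toR (X.u p)) (emb ι η) 1
      rw [one_smul, D_apply] at e2
      have b1 := (h1 c (toR (X.u p)) (emb ι η)).trans
        (show _ ≤ C1 * ((Y.C0 + 1) * k) * 1 by gcongr)
      have b2 := (h1 c (emb ι η) (toR (X.u p))).trans
        (show _ ≤ C1 * 1 * ((Y.C0 + 1) * k) by gcongr)
      have b3 := (h1 c (emb ι η) (emb ι η)).trans (show _ ≤ C1 * 1 * 1 by gcongr)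
      rw [e2]
      simp only [Q] at *
      rw [abs_le] at b1 b2 b3 ⊢
      constructor <;> linarith [b1.1, b1.2, b2.1, b2.2, b3.1, b3.2])
  rw [cube_integral_const] at a3
  rw [term]
  rw [abs_le] at a1 a2 a3 ⊢
  have : Y.K ≤ Y.K * k := by nlinarith
  have : C1 ≤ C1 * k := by nlinarith
  constructor <;> nlinarith [a1.1, a1.2, a2.1, a2.2, a3.1, a3.2]

theorem near_blockI {p : P} {t : ℝ} (hk : (X.u p none : ℝ) = t) {y : ι → ℝ}
    (h : (fun i => X.u p (some i) / X.N) = fun i => ⌊y i⌋) :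
    ‖toR (X.u p) - (t • e0 ι + ((X.N : ℝ) • emb ι) y)‖ ≤ X.N := by
  classical
  rw [pi_norm_le_iff_of_nonneg (Nat.cast_nonneg _)]
  rintro (_ | i)
  · simp [toR, hk]
  · have := abs_ediv_sub_le X.N_pos (congrFun h i)
    simpa [toR] using this

theorem interior_limit : ∃ L, Tendsto (fun k : ℕ =>
    (∑ p ∈ Y.Lk k, if Y.slabs p = ∅ then Y.term p / k else 0) / (k : ℝ) ^ Fintype.card ι)
    atTop (𝓝 L) := by
  classical
  have hfin : ∀ (k : ℕ) (ξ : ι → ℤ),
      {p | X.u p none = k ∧ (fun i => X.u p (some i) / X.N) = ξ}.Finite := fun k ξ =>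
    (X.finite_ball _ X.N).subset fun p hp =>
      near_blockI (t := k) (y := toR ξ) (by rw [hp.1]; simp) (by rw [hp.2]; funext i; simp [toR])
  obtain ⟨M, hM⟩ := X.card_le_of_ball X.N
  obtain ⟨K, hK0, hK⟩ := Y.interior_bound
  have hC0 := Y.one_le_C0
  have hmem : ∀ k ξ p, p ∈ (hfin k ξ).toFinset ↔
      X.u p none = k ∧ (fun i => X.u p (some i) / X.N) = ξ := fun k ξ p => by simp
  refine block_riemann (fun p i => X.u p (some i) / X.N) (fun k ξ => (hfin k ξ).toFinset)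
    (fun k p => X.u p none = k) hmem _ Y.Lk (fun k p hp => (Y.mem_Lk.1 hp).1) ?_ M ?_
    (K + (Y.C0 + 1)) (by positivity) ?_ ?_ ?_
  · intro k p hk h
    refine Y.mem_Lk_of_term hk fun h0 => h ?_
    simp [h0]
  · intro k ξ
    exact hM _ _ fun p hp => near_blockI (t := k) (y := toR ξ) (by rw [((hmem _ _ _).1 hp).1]; simp)
      (by rw [((hmem _ _ _).1 hp).2]; funext i; simp [toR])
  · filter_upwards [hK, eventually_ge_atTop 1] with k hk hk1 p hp
    have hk1' : (0 : ℝ) < k := by exact_mod_cast hk1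
    split_ifs with hs
    · rw [abs_div, abs_of_pos hk1', div_le_iff₀ hk1']
      refine (hk p hp hs).trans ?_
      gcongr; linarith
    · rw [abs_zero]; positivity
  · filter_upwards [eventually_ge_atTop 1] with k hk1 p hp
    refine (norm_ediv_le (X.u p) some _).trans ((Y.norm_Lk hk1 hp).trans ?_)
    exact mul_le_mul_of_nonneg_right (by linarith) (Nat.cast_nonneg _)
  · filter_upwards [Y.ae_interior] with y ⟨hoff, hgen⟩
    obtain ⟨φ, s, hs, h1, h2, h3⟩ := Y.term_interior (by simp) hoff hgen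
    refine ⟨φ, _, fund_const (fun ζ p => X.τ (fun o => o.elim 0 ζ) * p) ?_ ?_
      (fun p i => X.u p (some i) / X.N) ?_ (Equiv.mulRight s) (fun _ _ => mul_assoc _ _ _)
      (fun k p => X.u p none = k) ?_ ?_ φ (fun _ _ => h2 _ _) h1 _ hmem, fun ε hε => ?_⟩
    · intro p
      have : (fun o : Option ι => o.elim (0 : ℤ) (0 : ι → ℤ)) = 0 := by
        funext o; cases o <;> rfl
      rw [this, X.τ_zero, one_mul]
    · intro a b p
      have : (fun o : Option ι => o.elim (0 : ℤ) (a + b)) =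
          (fun o : Option ι => o.elim (0 : ℤ) a) + fun o : Option ι => o.elim (0 : ℤ) b := by
        funext o; cases o <;> simp
      rw [this, X.τ_add, mul_assoc]
    · intro a p
      funext i
      have : (X.N : ℤ) ≠ 0 := by exact_mod_cast X.N_pos.ne'
      simp only [X.u_mul, X.u_τ, Pi.add_apply, Pi.smul_apply, Option.elim_some]
      rw [nsmul_eq_mul, add_comm, Int.add_mul_ediv_left _ _ this]
    · intro k a p hp
      simp [X.u_mul, X.u_τ, hp]
    · intro k p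
      simp [X.u_mul, X.L_one s hs]
    obtain ⟨C6, h6⟩ := h3 X.N
    filter_upwards [tendsto_natCast_atTop_atTop.eventually h6,
      tendsto_natCast_atTop_atTop.eventually (ev_sign Y.forms _ X.N Y.B0),
      eventually_ge_atTop 1, tendsto_natCast_atTop_atTop.eventually_ge_atTop (C6 / ε)]
      with k hk hsg hk1 hkε p hp
    have hk1' : (0 : ℝ) < k := by exact_mod_cast hk1
    rw [hmem] at hp
    have n1 := near_blockI (t := k) (y := (k : ℝ) • y) (by rw [hp.1]; simp) hp.2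
    rw [map_smul, ← smul_add] at n1
    have hs : Y.slabs p = ∅ := by
      rw [Finset.eq_empty_iff_forall_notMem]
      intro a ha
      rw [mem_slabs, mem_forms'] at ha
      obtain ⟨⟨ha1, i, hi⟩, ha2⟩ := ha
      obtain ⟨b1, b2⟩ := hsg _ n1 a ha1
      rw [abs_le] at ha2
      rcases lt_trichotomy 0 (rd a (e0 ι + ((X.N : ℝ) • emb ι) y)) with h | h | h
      · linarith [b1 h, ha2.2]
      · exact hi (by rw [hoff a ha1 h.symm]; rfl)
      · linarith [b2 h, ha2.1]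
    rw [if_pos hs]
    have b1 := hk p n1
    rw [div_le_iff₀ hε] at hkε
    have e : Y.term p / k - φ p = (Y.term p - k * φ p) / k := by field_simp
    rw [e, abs_div, abs_of_pos hk1', div_le_iff₀ hk1']
    linarith

end Sys

end Pool.Agent.MP_b3b911_al

end

section

/-! Leading order analysis in the slabs around the walls. -/

open MeasureTheory Filter Topology Set

namespace Pool.Agent.MP_b3b911_al

section Param

variable {ι : Type} [Fintype ι] [DecidableEq ι]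

theorem rd_split (a : Option ι → ℤ) (i0 : ι) (w : Option ι → ℝ) :
    rd a w = a none * w none + a (some i0) * w (some i0) +
      ∑ j : {i // i ≠ i0}, (a (some j) : ℝ) * w (some j) := by
  rw [rd_apply, Fintype.sum_option, Fintype.sum_eq_add_sum_subtype_ne _ i0, add_assoc]

/-- Parametrisation of the spatial part of a wall. -/
noncomputable def wallT (a : Option ι → ℤ) (i0 : ι) :
    ({i // i ≠ i0} → ℝ) →ₗ[ℝ] (Option ι → ℝ) where
  toFun y := fun o => o.elim 0 fun i =>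
    if h : i = i0 then -(∑ j : {i // i ≠ i0}, (a (some j) : ℝ) * y j) / a (some i0) else y ⟨i, h⟩
  map_add' x y := by
    funext o
    rcases o with _ | i
    · simp
    · by_cases h : i = i0
      · simp [h, mul_add, Finset.sum_add_distrib]; ring
      · simp [h]
  map_smul' c x := by
    funext o
    rcases o with _ | i
    · simp
    · by_cases h : i = i0
      · simp only [h, Option.elim_some, dite_true, Pi.smul_apply, smul_eq_mul, RingHom.id_apply]
        rw [← mul_div_assoc, mul_neg, Finset.mul_sum]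
        congr 2
        exact Finset.sum_congr rfl fun _ _ => by ring
      · simp [h]

/-- Base point of a wall. -/
noncomputable def wall0 (a : Option ι → ℤ) (i0 : ι) : Option ι → ℝ :=
  fun o => o.elim 1 fun i => if i = i0 then -(a none : ℝ) / a (some i0) else 0

/-- Lattice vectors in a wall. -/
def wallE (a : Option ι → ℤ) (i0 : ι) (ζ : {i // i ≠ i0} → ℤ) : Option ι → ℤ :=
  fun o => o.elim 0 fun i =>
    if h : i = i0 then -((a (some i0)).sign * ∑ j : {i // i ≠ i0}, a (some j) * ζ j)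
    else ((a (some i0)).natAbs : ℤ) * ζ ⟨i, h⟩

variable {a : Option ι → ℤ} {i0 : ι}

@[simp] theorem wallT_none (y : {i // i ≠ i0} → ℝ) : wallT a i0 y none = 0 := rfl

@[simp] theorem wallT_ne (y : {i // i ≠ i0} → ℝ) (j : {i // i ≠ i0}) :
    wallT a i0 y (some j) = y j := by
  simp [wallT, j.2]

theorem wallT_i0 (y : {i // i ≠ i0} → ℝ) : wallT a i0 y (some i0) =
    -(∑ j : {i // i ≠ i0}, (a (some j) : ℝ) * y j) / a (some i0) := by
  simp [wallT]

omit [Fintype ι] in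
@[simp] theorem wall0_none : wall0 a i0 none = 1 := rfl

omit [Fintype ι] in
@[simp] theorem wall0_ne (j : {i // i ≠ i0}) : wall0 a i0 (some j) = 0 := by
  simp [wall0, j.2]

theorem rd_wallT (h : a (some i0) ≠ 0) (y : {i // i ≠ i0} → ℝ) : rd a (wallT a i0 y) = 0 := by
  have : (a (some i0) : ℝ) ≠ 0 := by exact_mod_cast h
  rw [rd_split a i0, wallT_i0]
  simp only [wallT_none, wallT_ne]
  field_simp
  ring

theorem rd_wall0 (h : a (some i0) ≠ 0) : rd a (wall0 a i0) = 0 := by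
  have : (a (some i0) : ℝ) ≠ 0 := by exact_mod_cast h
  rw [rd_split a i0]
  simp only [wall0_none, wall0_ne]
  simp only [wall0, Option.elim_some, if_true]
  field_simp
  simp

theorem near_wall (h : a (some i0) ≠ 0) {w : Option ι → ℝ} {t B m : ℝ} (hm : 0 ≤ m) (hB : 0 ≤ B)
    (h0 : w none = t) (h1 : |rd a w| ≤ B) {y : {i // i ≠ i0} → ℝ}
    (h2 : ∀ j : {i // i ≠ i0}, |w (some j) - y j| ≤ m) :
    ‖w - (t • wall0 a i0 + wallT a i0 y)‖ ≤
      m + B + ∑ j : {i // i ≠ i0}, |(a (some j) : ℝ)| * m := by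
  have hs : 0 ≤ ∑ j : {i // i ≠ i0}, |(a (some j) : ℝ)| * m := by positivity
  set e := w - (t • wall0 a i0 + wallT a i0 y) with he
  have e1 : e none = 0 := by simp [he, h0]
  have e2 : ∀ j : {i // i ≠ i0}, |e (some j)| ≤ m := fun j => by simpa [he] using h2 j
  have e3 : rd a e = rd a w := by
    rw [he, map_sub, map_add, map_smul, rd_wall0 h, rd_wallT h]; simp
  rw [pi_norm_le_iff_of_nonneg (by positivity)]
  rintro (_ | i)
  · rw [e1, norm_zero]; positivity
  by_cases hi : i = i0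
  · subst hi
    rw [rd_split a i, e1, mul_zero, zero_add] at e3
    have b1 : |∑ j : {j // j ≠ i}, (a (some j) : ℝ) * e (some j)| ≤
        ∑ j : {j // j ≠ i}, |(a (some j) : ℝ)| * m := by
      refine (Finset.abs_sum_le_sum_abs _ _).trans (Finset.sum_le_sum fun j _ => ?_)
      rw [abs_mul]
      exact mul_le_mul_of_nonneg_left (e2 j) (abs_nonneg _)
    have b2 : |(a (some i) : ℝ) * e (some i)| ≤ B + ∑ j : {j // j ≠ i}, |(a (some j) : ℝ)| * m := by
      rw [eq_sub_of_add_eq e3]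
      exact (abs_sub _ _).trans (add_le_add h1 b1)
    have b3 : (1 : ℝ) ≤ |(a (some i) : ℝ)| := by exact_mod_cast Int.one_le_abs h
    rw [abs_mul] at b2
    rw [Real.norm_eq_abs]
    nlinarith [abs_nonneg (e (some i))]
  · have := e2 ⟨i, hi⟩
    rw [Real.norm_eq_abs]
    linarith

theorem wall_decomp (h : a (some i0) ≠ 0) {z : Option ι → ℝ} (hz : rd a z = 0) :
    z = z none • wall0 a i0 + wallT a i0 fun j => z (some j) := by
  have := near_wall h (w := z) (m := 0) (B := 0) le_rfl le_rfl rfl (by simp [hz])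
    (y := fun j => z (some j)) (fun j => by simp)
  simp only [mul_zero, Finset.sum_const_zero, add_zero, norm_le_zero_iff] at this
  exact sub_eq_zero.1 this

@[simp] theorem wallE_none (ζ : {i // i ≠ i0} → ℤ) : wallE a i0 ζ none = 0 := rfl

@[simp] theorem wallE_ne (ζ : {i // i ≠ i0} → ℤ) (j : {i // i ≠ i0}) :
    wallE a i0 ζ (some j) = ((a (some i0)).natAbs : ℤ) * ζ j := by
  simp [wallE, j.2]

theorem wallE_zero : wallE a i0 0 = 0 := by
  funext o
  rcases o with _ | i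
  · rfl
  · simp [wallE]

theorem wallE_add (x y : {i // i ≠ i0} → ℤ) :
    wallE a i0 (x + y) = wallE a i0 x + wallE a i0 y := by
  funext o
  rcases o with _ | i
  · rfl
  · by_cases h : i = i0
    · simp [wallE, h, mul_add, Finset.sum_add_distrib]; ring
    · simp [wallE, h, mul_add]

theorem rd_wallE (ζ : {i // i ≠ i0} → ℤ) : rd a (toR (wallE a i0 ζ)) = 0 := by
  rw [rd_toR, Int.cast_eq_zero, dotProduct, Fintype.sum_option,
    Fintype.sum_eq_add_sum_subtype_ne _ i0]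
  simp only [wallE_none, wallE_ne, mul_zero, zero_add]
  have : wallE a i0 ζ (some i0) =
      -((a (some i0)).sign * ∑ j : {i // i ≠ i0}, a (some j) * ζ j) := by simp [wallE]
  rw [this, mul_neg, ← mul_assoc, Int.mul_sign_self, Finset.mul_sum, neg_add_eq_zero]
  exact Finset.sum_congr rfl fun _ _ => by ring

end Param

namespace Sys

variable {ι : Type} [Fintype ι] {P : Type*} [Group P] {X : Base ι P} {C : Type*} [Fintype C]
  (Y : Sys X C)

/-- Side limits of the leading term along a ray. -/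
noncomputable def LL (θ z : Option ι → ℝ) : ℝ := val (Y.W θ z) fun c => Y.Q c θ

theorem measurable_LL (θ : Option ι → ℝ) : Measurable (Y.LL θ) := by
  refine measurable_val (fun z => Y.W θ z) (fun c => ?_) (fun c _ => Y.Q c θ)
    fun c => measurable_const
  simp only [mem_W]
  refine MeasurableSet.inter (MeasurableSet.const _) ?_
  have : {z | ∀ ab ∈ Y.Φ c, 0 < rd ab.1 θ ∨
      (rd ab.1 θ = 0 ∧ (0 < rd ab.1 z ∨ (rd ab.1 z = 0 ∧ ab.2 ≤ 0)))} =
      ⋂ ab ∈ Y.Φ c, ({_z | 0 < rd ab.1 θ} ∪ ({_z | rd ab.1 θ = 0} ∩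
        ({z | 0 < rd ab.1 z} ∪ ({z | rd ab.1 z = 0} ∩ {_z | ab.2 ≤ 0})))) := by
    ext w; simp
  change MeasurableSet {z | ∀ ab ∈ Y.Φ c, 0 < rd ab.1 θ ∨
      (rd ab.1 θ = 0 ∧ (0 < rd ab.1 z ∨ (rd ab.1 z = 0 ∧ ab.2 ≤ 0)))}
  rw [this]
  refine Finset.measurableSet_biInter _ fun ab _ => ?_
  exact (MeasurableSet.const _).union ((MeasurableSet.const _).inter
    ((measurableSet_rd_pos _).union ((measurableSet_rd_zero _).inter (MeasurableSet.const _))))

theorem integrableOn_LL (θ w : Option ι → ℝ) :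
    IntegrableOn (fun η => Y.LL θ (w + emb ι η)) (cube ι) := by
  obtain ⟨C1, h0, h1, -⟩ := Y.exists_C
  exact integrableOn_cube ((Y.measurable_LL θ).comp (measurable_shift w))
    (K := C1 * ‖θ‖ * ‖θ‖) fun η _ => abs_val_le (by positivity) fun c _ => h1 c θ θ

theorem LL_add {θ z' : Option ι → ℝ} (h : ∀ a ∈ Y.forms, rd a θ = 0 → rd a z' = 0)
    (z : Option ι → ℝ) : Y.LL θ (z + z') = Y.LL θ z := by
  have : Y.W θ (z + z') = Y.W θ z := by
    ext c
    rw [mem_W, mem_W]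
    refine and_congr_right fun _ => forall₂_congr fun ab hab => or_congr_right
      (and_congr_right fun h0 => ?_)
    rw [map_add, h _ (Y.mem_forms hab) h0, add_zero]
  rw [LL, this, LL]

/-- Limit of the normalised error term. -/
noncomputable def psi (θ : Option ι → ℝ) (p : P) : ℝ :=
  Y.Av θ p - ∫ η in cube ι, Y.LL θ (toR (X.u p) + emb ι η)

theorem ev_term (θ : Option ι → ℝ) (ρ : ℝ) : ∃ C7 : ℝ, ∀ᶠ t : ℝ in atTop, ∀ p,
    ‖toR (X.u p) - t • θ‖ ≤ ρ → |Y.term p - t ^ 2 * Y.psi θ p| ≤ C7 * t := by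
  obtain ⟨C3, h3⟩ := Y.ev_LO θ ρ
  obtain ⟨C2, hC2, h2⟩ := Y.exists_expand θ (ρ + 1)
  refine ⟨C3 + 2 * C2, ?_⟩
  filter_upwards [h3, Y.ev_W θ (ρ + 1), eventually_ge_atTop 1] with t ht hW ht1 p hp
  obtain ⟨-, a1⟩ := ht p hp
  have a2 := abs_cube_integral_sub_le (Y.integrableOn_lead (toR (X.u p)))
    ((Y.integrableOn_LL θ (toR (X.u p))).const_mul (t ^ 2)) (K := 2 * C2 * t) (fun η hη => by
      have n1 := near_emb hη hp
      rw [lead, Av, hW _ n1, LL, ← val_mul _ (sq_nonneg t)]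
      refine abs_val_sub_le (by positivity) fun c _ => ?_
      obtain ⟨b1, b2, -⟩ := h2 c _ n1
      have e1 : toR (X.u p) + emb ι η = t • θ + (toR (X.u p) + emb ι η - t • θ) := by abel
      rw [e1, Q_expand]
      rw [abs_le] at b1 b2 ⊢
      constructor <;> nlinarith [b1.1, b1.2, b2.1, b2.2])
  rw [integral_const_mul] at a2
  rw [term, psi]
  rw [abs_le] at a1 a2 ⊢
  constructor <;> nlinarith [a1.1, a1.2, a2.1, a2.2]

theorem psi_eq_zero {θ : Option ι → ℝ} {a : Option ι → ℤ} {i0 : ι} (hi : a (some i0) ≠ 0)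
    (hg : ∀ a' ∈ Y.forms, rd a' θ = 0 → ∀ z, rd a z = 0 → rd a' z = 0)
    (hc : ∀ p, Y.A θ p = Y.A θ 1) (p : P) : Y.psi θ p = 0 := by
  classical
  have hi' : (a (some i0) : ℝ) ≠ 0 := by exact_mod_cast hi
  have key : ∀ z, Y.LL θ z = Y.Av θ 1 := by
    intro z
    obtain ⟨σ, lam, hlam, hσ⟩ : ∃ (σ : ℤ) (lam : ℝ), 0 < lam ∧ rd a z / a (some i0) = lam * σ := by
      rcases lt_trichotomy 0 (rd a z / a (some i0)) with h | h | h
      · exact ⟨1, _, h, by simp⟩
      · exact ⟨0, 1, one_pos, by simp [← h]⟩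
      · exact ⟨-1, _, neg_pos.2 h, by simp⟩
    obtain ⟨n, hn⟩ := exists_nat_gt Y.B0
    have : Y.W θ z = Y.V θ (X.τ (Pi.single (some i0) (n * σ)) * 1) := by
      ext c
      rw [mem_W, mem_V, cong_τ_iff]
      refine and_congr_right fun _ => forall₂_congr fun ab hab => or_congr_right
        (and_congr_right fun h0 => ?_)
      have b1 := hg _ (Y.mem_forms hab) h0 (z - (rd a z / a (some i0)) • Pi.single (some i0) 1)
        (by
          rw [map_sub, map_smul]
          have : rd a (Pi.single (some i0) 1) = a (some i0) := by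
            simp [rd_apply, Pi.single_apply]
          rw [this, smul_eq_mul]; field_simp; ring)
      have b2 : rd ab.1 (Pi.single (some i0) 1) = ab.1 (some i0) := by
        simp [rd_apply, Pi.single_apply]
      rw [map_sub, map_smul, b2, hσ, smul_eq_mul, sub_eq_zero, mul_assoc] at b1
      rw [mul_one, X.u_τ, dotProduct_smul, dotProduct_single, b1]
      have b3 := abs_le.1 (Y.B0_const hab)
      have hN : (1 : ℤ) ≤ X.N := by exact_mod_cast X.N_pos
      have b4 : ab.2 < n := by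
        have : (ab.2 : ℝ) < n := by linarith [b3.2]
        exact_mod_cast this
      have b5 : -(n : ℤ) < ab.2 := by
        have : -(n : ℝ) < ab.2 := by linarith [b3.1]
        exact_mod_cast this
      have hn0 : (0 : ℤ) ≤ n := Nat.cast_nonneg n
      have e : X.N • (ab.1 (some i0) * (n * σ)) = X.N * n * (σ * ab.1 (some i0)) := by
        rw [nsmul_eq_mul]; ring
      rw [e, ← Int.cast_mul]
      generalize σ * ab.1 (some i0) = x
      have hNn : (n : ℤ) ≤ X.N * n := by nlinarith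
      rcases lt_trichotomy 0 x with h | h | h
      · have c1 : 0 < lam * (x : ℝ) := mul_pos hlam (by exact_mod_cast h)
        have c2 : ab.2 ≤ X.N * n * x := by nlinarith
        simp only [c1, c2, true_or]
      · simp [← h]
      · have c1 : lam * (x : ℝ) < 0 := mul_neg_of_pos_of_neg hlam (by exact_mod_cast h)
        have c2 : X.N * n * x < ab.2 := by nlinarith
        simp only [c1.not_gt, c1.ne, not_le.2 c2, false_and, or_false]
    rw [LL, this]
    exact (Y.Av_eq_of_A (hc _)).1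
  simp only [psi, key, cube_integral_const, (Y.Av_eq_of_A (hc p)).1, sub_self]

theorem term_bound : ∃ K : ℝ, 0 ≤ K ∧ ∀ k : ℕ, 1 ≤ k → ∀ p ∈ Y.Lk k, |Y.term p| ≤ K * k ^ 2 := by
  obtain ⟨C1, h0, h1, h2, -⟩ := Y.exists_C
  obtain ⟨C2, h3, h4⟩ := Y.exists_lead_bound
  have hC0 := Y.one_le_C0
  have hK := Y.K_nonneg
  refine ⟨Y.K + C1 * (Y.C0 + 1) ^ 2 + C1 * (Y.C0 + 1) + C2 * (Y.C0 + 2) ^ 2, by positivity,
    fun k hk p hp => ?_⟩
  have hk1 : (1 : ℝ) ≤ k := by exact_mod_cast hk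
  have hk2 : (k : ℝ) ≤ k ^ 2 := by nlinarith
  have hn := Y.norm_Lk hk hp
  have a1 : |Y.F p| ≤ (Y.K + C1 * (Y.C0 + 1) ^ 2 + C1 * (Y.C0 + 1)) * k ^ 2 := by
    by_cases hR : X.R p
    · obtain ⟨c, b1, b2, b3⟩ := Y.up p hR
      have b4 := (Y.low c p b1 b2).2
      have b5 := (h1 c (toR (X.u p)) (toR (X.u p))).trans
        (show _ ≤ C1 * ((Y.C0 + 1) * k) * ((Y.C0 + 1) * k) by gcongr)
      have b6 := (h2 c (toR (X.u p))).trans (show _ ≤ C1 * ((Y.C0 + 1) * k ^ 2) by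
        gcongr; exact hn.trans (by gcongr))
      have b7 : Y.K ≤ Y.K * k ^ 2 := by nlinarith
      rw [abs_le] at b5 b6 ⊢
      constructor <;> nlinarith [b5.1, b5.2, b6.1, b6.2]
    · rw [Y.zero p hR, abs_zero]; positivity
  have a2 : |∫ η in cube ι, Y.lead (toR (X.u p) + emb ι η)| ≤ C2 * (Y.C0 + 2) ^ 2 * k ^ 2 := by
    refine abs_cube_integral_le fun η hη => (h4 _).trans ?_
    have : ‖toR (X.u p) + emb ι η‖ ≤ (Y.C0 + 2) * k :=
      (norm_add_le _ _).trans (by linarith [norm_emb_le hη])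
    rw [mul_assoc, ← mul_pow]
    gcongr
  rw [term]
  refine (abs_sub _ _).trans ?_
  linarith

/-- The slabs along a ray. -/
noncomputable def slabsAt (θ : Option ι → ℝ) (p : P) : Finset (Option ι → ℤ) := by
  classical
  exact Y.forms'.filter fun a => rd a θ = 0 ∧ |rd a (toR (X.u p))| ≤ Y.B0

theorem slabsAt_congr {θ : Option ι → ℝ} {p p' : P} {z : Option ι → ℝ}
    (e : toR (X.u p') = toR (X.u p) + z) (h : ∀ a ∈ Y.forms, rd a θ = 0 → rd a z = 0) :
    Y.slabsAt θ p' = Y.slabsAt θ p := by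
  unfold slabsAt
  refine Finset.filter_congr fun a ha => and_congr_right fun h0 => ?_
  rw [e, map_add, h a (Y.mem_forms'.1 ha).1 h0, add_zero]

theorem ev_slabs (θ : Option ι → ℝ) (ρ : ℝ) : ∀ᶠ t : ℝ in atTop, ∀ p,
    ‖toR (X.u p) - t • θ‖ ≤ ρ → Y.slabs p = Y.slabsAt θ p := by
  filter_upwards [ev_sign Y.forms θ ρ Y.B0] with t ht p hp
  unfold slabs slabsAt
  refine Finset.filter_congr fun a ha => ⟨fun h => ⟨?_, h⟩, fun h => h.2⟩
  obtain ⟨b1, b2⟩ := ht _ hp a (Y.mem_forms'.1 ha).1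
  rw [abs_le] at h
  rcases lt_trichotomy 0 (rd a θ) with h0 | h0 | h0
  · linarith [b1 h0, h.2]
  · exact h0.symm
  · linarith [b2 h0, h.1]

open Classical in
theorem slab_limit {a : Option ι → ℤ} (ha : a ∈ Y.forms') : ∃ L, Tendsto (fun k : ℕ =>
    (∑ p ∈ (Y.Lk k).filter (fun p => a ∈ Y.slabs p), ((Y.slabs p).card : ℝ)⁻¹ * Y.term p) /
      (k : ℝ) ^ (Fintype.card ι + 1)) atTop (𝓝 L) := by
  obtain ⟨i0, hi⟩ := (Y.mem_forms'.1 ha).2
  set m : ℕ := X.N * (a (some i0)).natAbs with hm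
  have hm0 : 0 < m := Nat.mul_pos X.N_pos (Int.natAbs_pos.2 hi)
  have hm' : (m : ℝ) ≠ 0 := by exact_mod_cast hm0.ne'
  set ρ : ℝ := m + Y.B0 + ∑ j : {i // i ≠ i0}, |(a (some j) : ℝ)| * m with hρ
  set T : ({i // i ≠ i0} → ℝ) →ₗ[ℝ] (Option ι → ℝ) := (m : ℝ) • wallT a i0 with hT
  have near : ∀ (p : P) (t : ℝ) (y : {i // i ≠ i0} → ℝ), (X.u p none : ℝ) = t →
      |rd a (toR (X.u p))| ≤ Y.B0 →
      ((fun j : {i // i ≠ i0} => X.u p (some j) / m) = fun j => ⌊y j⌋) →
      ‖toR (X.u p) - (t • wall0 a i0 + T y)‖ ≤ ρ := by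
    intro p t y h1 h2 h3
    have := near_wall hi (w := toR (X.u p)) (Nat.cast_nonneg m) Y.B0_nonneg h1 h2
      (y := (m : ℝ) • y) fun j => abs_ediv_sub_le hm0 (congrFun h3 j)
    rwa [map_smul] at this
  have hfin : ∀ (k : ℕ) (ξ : {i // i ≠ i0} → ℤ),
      {p | (X.u p none = k ∧ |rd a (toR (X.u p))| ≤ Y.B0) ∧
        (fun j : {i // i ≠ i0} => X.u p (some j) / m) = ξ}.Finite := fun k ξ =>
    (X.finite_ball _ ρ).subset fun p hp =>
      near p k (toR ξ) (by rw [hp.1.1]; simp) hp.1.2 (by rw [hp.2]; funext i; simp [toR])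
  obtain ⟨M, hM⟩ := X.card_le_of_ball ρ
  obtain ⟨K, hK0, hK⟩ := Y.term_bound
  have hC0 := Y.one_le_C0
  have hmem : ∀ k ξ p, p ∈ (hfin k ξ).toFinset ↔
      (X.u p none = k ∧ |rd a (toR (X.u p))| ≤ Y.B0) ∧
        (fun j : {i // i ≠ i0} => X.u p (some j) / m) = ξ := fun k ξ p => by simp
  have hw : ∀ T : Finset (Option ι → ℤ), |(T.card : ℝ)⁻¹| ≤ 1 := fun T => by
    rw [abs_of_nonneg (by positivity)]
    exact Nat.cast_inv_le_one _
  refine (block_riemann (fun p (j : {i // i ≠ i0}) => X.u p (some j) / m)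
    (fun k ξ => (hfin k ξ).toFinset) (fun k p => X.u p none = k ∧ |rd a (toR (X.u p))| ≤ Y.B0) hmem
    (fun k p => ((Y.slabs p).card : ℝ)⁻¹ * Y.term p / (k : ℝ) ^ 2)
    (fun k => (Y.Lk k).filter (fun p => a ∈ Y.slabs p)) ?_ ?_ M ?_
    (K + (Y.C0 + 1)) (by positivity) ?_ ?_ ?_).imp fun L hL => hL.congr fun k => ?_
  · intro k p hp
    rw [Finset.mem_filter] at hp
    exact ⟨(Y.mem_Lk.1 hp.1).1, (Y.mem_slabs.1 hp.2).2⟩
  · intro k p hk h
    refine Finset.mem_filter.2 ⟨Y.mem_Lk_of_term hk.1 fun h0 => h ?_, Y.mem_slabs.2 ⟨ha, hk.2⟩⟩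
    simp [h0]
  · intro k ξ
    exact hM _ _ fun p hp => near p k (toR ξ) (by rw [((hmem _ _ _).1 hp).1.1]; simp)
      ((hmem _ _ _).1 hp).1.2 (by rw [((hmem _ _ _).1 hp).2]; funext i; simp [toR])
  · filter_upwards [eventually_ge_atTop 1] with k hk1 p hp
    have hk1' : (0 : ℝ) < (k : ℝ) ^ 2 := by
      have : (0 : ℝ) < k := by exact_mod_cast hk1
      positivity
    have b1 := hK k hk1 p (Finset.mem_filter.1 hp).1
    rw [abs_div, abs_of_pos hk1', div_le_iff₀ hk1', abs_mul]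
    have b2 := hw (Y.slabs p)
    have b3 : |((Y.slabs p).card : ℝ)⁻¹| * |Y.term p| ≤ 1 * (K * k ^ 2) := by gcongr
    nlinarith
  · filter_upwards [eventually_ge_atTop 1] with k hk1 p hp
    refine (norm_ediv_le (X.u p) (fun j : {i // i ≠ i0} => some j.1) _).trans
      ((Y.norm_Lk hk1 (Finset.mem_filter.1 hp).1).trans ?_)
    exact mul_le_mul_of_nonneg_right (by linarith) (Nat.cast_nonneg _)
  · filter_upwards [(Finset.eventually_all Y.forms).2 fun a' _ => ae_gen_lin T (wall0 a i0) a']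
      with y hy
    set θ := wall0 a i0 + T y with hθ
    have hθ0 : rd a θ = 0 := by
      rw [hθ, map_add, rd_wall0 hi, hT, LinearMap.smul_apply, map_smul, rd_wallT hi]; simp
    have hθ1 : 0 < θ none := by simp [hθ, hT]
    have hg : ∀ a' ∈ Y.forms, rd a' θ = 0 → ∀ z, rd a z = 0 → rd a' z = 0 := by
      intro a' ha' h0 z hz
      have b1 := hy a' ha' h0 0
      have b2 := hy a' ha' h0 ((m : ℝ)⁻¹ • fun j : {i // i ≠ i0} => z (some j))
      rw [map_zero, add_zero] at b1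
      rw [map_add, b1, zero_add, hT, LinearMap.smul_apply, map_smul (wallT a i0), smul_smul,
        mul_inv_cancel₀ hm', one_smul] at b2
      rw [wall_decomp hi hz, map_add, map_smul, b1, b2]; simp
    have hφ : ∃ β : ℝ, ∀ k ξ, ∑ p ∈ (hfin k ξ).toFinset,
        ((Y.slabsAt θ p).card : ℝ)⁻¹ * Y.psi θ p = β := by
      rcases Y.dichotomy hθ1 hθ0 hg with ⟨s, hs, h0⟩ | hc
      swap
      · exact ⟨0, fun k ξ => by simp [Y.psi_eq_zero hi hg hc]⟩
      have hE : ∀ ζ, rd a (toR (X.N • wallE a i0 ζ)) = 0 := fun ζ => by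
        rw [toR_nsmul, map_smul, rd_wallE, smul_zero]
      have hs0 : rd a (toR (X.u s)) = 0 := by rw [rd_toR, h0]; simp
      have eE : ∀ ζ p, toR (X.u (X.τ (wallE a i0 ζ) * p)) =
          toR (X.u p) + toR (X.N • wallE a i0 ζ) := fun ζ p => by
        rw [X.u_mul, X.u_τ, toR_add, add_comm]
      have es : ∀ p, toR (X.u (p * s)) = toR (X.u p) + toR (X.u s) := fun p => by
        rw [X.u_mul, toR_add]
      refine ⟨_, fund_const (fun ζ p => X.τ (wallE a i0 ζ) * p) ?_ ?_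
        (fun p (j : {i // i ≠ i0}) => X.u p (some j) / m) ?_ (Equiv.mulRight s)
        (fun _ _ => mul_assoc _ _ _)
        (fun k p => X.u p none = k ∧ |rd a (toR (X.u p))| ≤ Y.B0) ?_ ?_ _ ?_ ?_ _ hmem⟩
      · intro p; rw [wallE_zero, X.τ_zero, one_mul]
      · intro x y p; rw [wallE_add, X.τ_add, mul_assoc]
      · intro ζ p
        funext j
        have : (m : ℤ) ≠ 0 := by exact_mod_cast hm0.ne'
        simp only [X.u_mul, X.u_τ, Pi.add_apply, Pi.smul_apply, wallE_ne]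
        rw [nsmul_eq_mul, add_comm, ← mul_assoc, ← Nat.cast_mul, ← hm,
          Int.add_mul_ediv_left _ _ this]
      · intro k ζ p hp
        refine ⟨by simp [X.u_mul, X.u_τ, hp.1], ?_⟩
        rw [eE, map_add, hE, add_zero]; exact hp.2
      · intro k p
        simp only [Equiv.coe_mulRight]
        rw [es, map_add, hs0, add_zero]
        simp [X.u_mul, X.L_one s hs]
      · intro ζ p
        have b1 : ∀ a' ∈ Y.forms, rd a' θ = 0 → rd a' (toR (X.N • wallE a i0 ζ)) = 0 :=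
          fun a' ha' h' => hg a' ha' h' _ (hE ζ)
        simp only [Y.slabsAt_congr (eE ζ p) b1, psi, eE]
        have b2 : Y.Av θ (X.τ (wallE a i0 ζ) * p) = Y.Av θ p := by
          refine (Y.Av_eq_of_A (Y.A_τ (fun a' ha' h' => ?_) p)).1
          have := hg a' ha' h' _ (rd_wallE ζ)
          rwa [rd_toR, Int.cast_eq_zero] at this
        rw [b2]
        simp only [add_right_comm _ (toR (X.N • wallE a i0 ζ)), Y.LL_add b1]
      · intro p
        have b1 : ∀ a' ∈ Y.forms, rd a' θ = 0 → rd a' (toR (X.u s)) = 0 :=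
          fun a' ha' h' => hg a' ha' h' _ hs0
        simp only [Equiv.coe_mulRight, Y.slabsAt_congr (es p) b1, psi, es]
        have b2 : Y.Av θ (p * s) = Y.Av θ p := by
          refine (Y.Av_eq_of_A (Y.A_inv θ hs X.R_one (fun a' ha' h' => ?_) p)).1
          have := b1 a' ha' h'
          rwa [rd_toR, Int.cast_eq_zero, ← mul_one s] at this
        rw [b2]
        simp only [add_right_comm _ (toR (X.u s)), Y.LL_add b1]
    obtain ⟨β, hβ⟩ := hφ
    refine ⟨_, β, hβ, fun ε hε => ?_⟩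
    obtain ⟨C7, h7⟩ := Y.ev_term θ ρ
    filter_upwards [tendsto_natCast_atTop_atTop.eventually h7,
      tendsto_natCast_atTop_atTop.eventually (Y.ev_slabs θ ρ),
      eventually_ge_atTop 1, tendsto_natCast_atTop_atTop.eventually_ge_atTop (C7 / ε)]
      with k hk hsl hk1 hkε p hp
    have hk1' : (0 : ℝ) < k := by exact_mod_cast hk1
    rw [hmem] at hp
    have n1 := near p k ((k : ℝ) • y) (by rw [hp.1.1]; simp) hp.1.2 hp.2
    rw [map_smul, ← smul_add] at n1
    have b1 := hk p n1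
    rw [hsl p n1]
    rw [div_le_iff₀ hε] at hkε
    have e : ((Y.slabsAt θ p).card : ℝ)⁻¹ * Y.term p / k ^ 2 -
        ((Y.slabsAt θ p).card : ℝ)⁻¹ * Y.psi θ p =
        ((Y.slabsAt θ p).card : ℝ)⁻¹ * ((Y.term p - k ^ 2 * Y.psi θ p) / k ^ 2) := by
      field_simp
    have b2 : |(Y.term p - k ^ 2 * Y.psi θ p) / k ^ 2| ≤ ε := by
      rw [abs_div, abs_of_pos (by positivity : (0 : ℝ) < k ^ 2), div_le_iff₀ (by positivity)]
      nlinarith
    rw [e, abs_mul]
    have b3 := hw (Y.slabsAt θ p)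
    calc _ ≤ 1 * ε := by gcongr
      _ = ε := one_mul _
  · have : Fintype.card ι = Fintype.card {i // i ≠ i0} + 1 := by
      rw [Fintype.card_subtype_compl, Fintype.card_subtype_eq]
      have : 0 < Fintype.card ι := Fintype.card_pos_iff.2 ⟨i0⟩
      omega
    rw [← Finset.sum_div, div_div, this]
    congr 1
    ring

end Sys

end Pool.Agent.MP_b3b911_al

end

section

/-! The abstract two term asymptotic expansion. -/

open MeasureTheory Filter Topology Set

namespace Pool.Agent.MP_b3b911_al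

namespace Base

variable {ι : Type} [Fintype ι] {P : Type*} [Group P] (X : Base ι P)

theorem finite_lev (k : ℕ) : {p | X.R p ∧ X.u p none = k}.Finite := by
  obtain ⟨C0, _, h⟩ := X.exists_R_norm
  refine (X.finite_ball0 (C0 * k)).subset fun p hp => ?_
  have := h p hp.1
  rw [hp.2] at this
  simpa using this

/-- Reachable elements of a given level. -/
noncomputable def lev (k : ℕ) : Finset P := (X.finite_lev k).toFinset

theorem mem_lev {k : ℕ} {p : P} : p ∈ X.lev k ↔ X.R p ∧ X.u p none = k := by simp [lev]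

end Base

namespace Sys

variable {ι : Type} [Fintype ι] {P : Type*} [Group P] {X : Base ι P} {C : Type*} [Fintype C]
  (Y : Sys X C)

theorem sum_lev (k : ℕ) : ∑ p ∈ X.lev k, Y.F p = ∑ p ∈ Y.Lk k, Y.F p := by
  refine Finset.sum_subset (fun p hp => ?_) fun p hp hp' => Y.zero p fun hR => hp' ?_
  · rw [X.mem_lev] at hp
    have := Y.C0_R hp.1
    rw [hp.2] at this
    exact Y.mem_Lk.2 ⟨hp.2, this.trans (by simp)⟩
  · exact X.mem_lev.2 ⟨hR, (Y.mem_Lk.1 hp).1⟩

theorem sum_lead {k : ℕ} (hk : 1 ≤ k) :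
    ∑ p ∈ Y.Lk k, ∫ η in cube ι, Y.lead (toR (X.u p) + emb ι η) =
      ({p | X.u p = 0}.ncard * ∫ x, Y.lead (e0 ι + emb ι x)) * (k : ℝ) ^ (Fintype.card ι + 2) := by
  classical
  have hk' : (0 : ℝ) < k := by exact_mod_cast hk
  let mk : (ι → ℤ) → Option ι → ℤ := fun x o => o.elim k x
  have hmk : ∀ x, toR (mk x) = (k : ℝ) • e0 ι + emb ι (toR x) := fun x => by
    funext o; cases o <;> simp [mk, toR]
  have hfin : {x : ι → ℤ | ‖toR (mk x)‖ ≤ Y.C0 * k + 1}.Finite := by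
    refine (Base.finite_norm_le (U := Option ι) (Y.C0 * k + 1)).preimage (f := mk) ?_
    intro x _ y _ h
    funext i
    exact congrFun h (some i)
  let f : (ι → ℝ) → ℝ := fun θ => Y.lead ((k : ℝ) • e0 ι + emb ι θ)
  have hsupp : ∀ θ, f θ ≠ 0 → ‖(k : ℝ) • e0 ι + emb ι θ‖ ≤ Y.C0 * k := fun θ h => by
    simpa using Y.C0_lead h
  have hint : Integrable f := by
    obtain ⟨C1, h0, h1⟩ := Y.exists_lead_bound
    refine IntegrableOn.integrable_of_forall_notMem_eq_zero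
      (s := Metric.closedBall 0 (Y.C0 * k)) ?_ ?_
    · refine Measure.integrableOn_of_bounded (M := C1 * (Y.C0 * k) ^ 2)
        measure_closedBall_lt_top.ne
        (Y.measurable_lead.comp (measurable_shift _)).aestronglyMeasurable
        (Eventually.of_forall fun θ => ?_)
      by_cases hθ : f θ = 0
      · rw [hθ, norm_zero]; positivity
      · refine (h1 _).trans ?_
        have := hsupp θ hθ
        gcongr
    · intro θ hθ
      by_contra h
      apply hθ
      rw [mem_closedBall_zero_iff, pi_norm_le_iff_of_nonneg (by have := Y.one_le_C0; positivity)]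
      intro i
      simpa using (norm_le_pi_norm _ (some i)).trans (hsupp θ h)
  have h1 := sum_cube_integral f hint hfin.toFinset fun θ h => by
    have h2 : θ - toR (fun i => ⌊θ i⌋) ∈ cube ι := by
      rw [mem_cube]; intro i
      simp only [Pi.sub_apply, toR]
      constructor
      · linarith [Int.floor_le (θ i)]
      · linarith [Int.lt_floor_add_one (θ i)]
    rw [Set.Finite.mem_toFinset, mem_ofPred_eq, hmk]
    calc _ = ‖((k : ℝ) • e0 ι + emb ι θ) - emb ι (θ - toR fun i => ⌊θ i⌋)‖ := by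
          rw [map_sub]; congr 1; abel
      _ ≤ _ := norm_sub_le _ _
      _ ≤ _ := add_le_add (hsupp θ h) (norm_emb_le h2)
  have h2 := Measure.integral_comp_smul (volume : Measure (ι → ℝ)) f (k : ℝ)
  have h3 : ∀ x, f ((k : ℝ) • x) = (k : ℝ) ^ 2 * Y.lead (e0 ι + emb ι x) := fun x => by
    simp only [f]
    rw [map_smul, ← smul_add, Y.lead_smul _ hk']
  simp only [h3, integral_const_mul, Module.finrank_fintype_fun_eq_card, smul_eq_mul] at h2
  rw [abs_of_pos (by positivity)] at h2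
  have h4 : ∫ θ, f θ = (∫ x, Y.lead (e0 ι + emb ι x)) * (k : ℝ) ^ (Fintype.card ι + 2) := by
    field_simp at h2
    rw [← h2]; ring
  rw [mul_assoc, ← h4, ← h1, Finset.mul_sum,
    ← Finset.sum_fiberwise_of_maps_to (s := Y.Lk k) (t := hfin.toFinset)
      (g := fun p i => X.u p (some i))]
  · refine Finset.sum_congr rfl fun x hx => ?_
    rw [Set.Finite.mem_toFinset, mem_ofPred_eq] at hx
    have e : ∀ p, p ∈ (Y.Lk k).filter (fun p => (fun i => X.u p (some i)) = x) ↔ X.u p = mk x := by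
      intro p
      rw [Finset.mem_filter, mem_Lk]
      constructor
      · rintro ⟨⟨a1, -⟩, a2⟩
        funext o
        cases o with
        | none => exact a1
        | some i => exact congrFun a2 i
      · intro h
        rw [h]
        exact ⟨⟨rfl, hx⟩, rfl⟩
    rw [Finset.sum_congr rfl (g := fun _ => ∫ η in cube ι, f (toR x + η)) fun p hp => by
      rw [(e p).1 hp, hmk]; simp only [f, map_add, add_assoc]]
    rw [Finset.sum_const, nsmul_eq_mul, ← X.ncard_fiber (mk x), ← Set.ncard_coe_finset]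
    congr 3
    ext p
    exact e p
  · intro p hp
    rw [Set.Finite.mem_toFinset, mem_ofPred_eq]
    rw [mem_Lk] at hp
    have : mk (fun i => X.u p (some i)) = X.u p := by
      funext o
      cases o with
      | none => exact hp.1.symm
      | some i => rfl
    rw [this]; exact hp.2

theorem main : ∃ α L : ℝ, Tendsto (fun k : ℕ =>
    (∑ p ∈ X.lev k, Y.F p - α * (k : ℝ) ^ (Fintype.card ι + 2)) / (k : ℝ) ^ (Fintype.card ι + 1))
    atTop (𝓝 L) := by
  classical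
  obtain ⟨L0, h0⟩ := Y.interior_limit
  choose! L1 h1 using fun a (ha : a ∈ Y.forms') => Y.slab_limit ha
  refine ⟨{p | X.u p = 0}.ncard * ∫ x, Y.lead (e0 ι + emb ι x), _,
    (h0.add (tendsto_finsetSum _ h1)).congr' ?_⟩
  · filter_upwards [eventually_ge_atTop 1] with k hk
    have hk' : (0 : ℝ) < k := by exact_mod_cast hk
    rw [Y.sum_lev, ← Y.sum_lead hk, ← Finset.sum_sub_distrib, ← Finset.sum_div]
    have e1 : (∑ p ∈ Y.Lk k, if Y.slabs p = ∅ then Y.term p / k else 0) / (k : ℝ) ^ Fintype.card ι =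
        (∑ p ∈ Y.Lk k, if Y.slabs p = ∅ then Y.term p else 0) / (k : ℝ) ^ (Fintype.card ι + 1) := by
      rw [pow_succ', ← div_div, Finset.sum_div _ _ (k : ℝ)]
      congr 1
      refine Finset.sum_congr rfl fun p _ => ?_
      split_ifs <;> simp
    rw [e1, ← add_div]
    congr 1
    simp only [Finset.sum_filter]
    rw [Finset.sum_comm, ← Finset.sum_add_distrib]
    refine Finset.sum_congr rfl fun p _ => ?_
    have e2 : Y.forms'.filter (fun a => a ∈ Y.slabs p) = Y.slabs p := by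
      ext a
      rw [Finset.mem_filter, and_iff_right_iff_imp]
      exact fun h => (Y.mem_slabs.1 h).1
    rw [← Finset.sum_filter, e2, Finset.sum_const, nsmul_eq_mul]
    change _ = Y.term p
    split_ifs with h
    · simp [h]
    · have : ((Y.slabs p).card : ℝ) ≠ 0 := by
        exact_mod_cast (Finset.card_pos.2 (Finset.nonempty_iff_ne_empty.2 h)).ne'
      field_simp
      simp

end Sys

end Pool.Agent.MP_b3b911_al

end
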