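import Pool.Agent.Mg.Fb3b911.G921cfc
import Pool.Agent.Mg.Fb3b911.G15b2fb
import Pool.Agent.MP_b3b911_al.Defs

section

/-! The maximal height function is a piecewise quadratic system. -/

open Filter Topology

namespace Pool.Agent.MP_b3b911_al

/-- Passing to a multiple of the period. -/
def Base.scale {ι : Type} {P : Type*} [Group P] (X : Base ι P) (m : ℕ) (hm : 0 < m) : Base ι P :=
  { X with
    N := X.N * m
    N_pos := Nat.mul_pos X.N_pos hm
    τ := fun z => X.τ (m • z)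
    τ_add := fun z z' => by rw [smul_add, X.τ_add]
    τ_comm := fun z p => X.τ_comm _ _
    pow_eq := fun g => by rw [pow_mul, X.pow_eq, X.τ_nsmul] }

theorem exists_affine_data {I U : Type*} [Fintype I] [Fintype U]
    (Λ : (I → ℚ) →ₗ[ℚ] (U → ℚ)) (μ : (U → ℚ) →ₗ[ℚ] (I → ℚ)) (B : LinearMap.BilinForm ℚ (I → ℚ))
    (ℓ : (I → ℚ) →ₗ[ℚ] ℚ) (w : I → ℚ) (r C : ℚ) (u0 : U → ℚ) :
    ∃ (Φ : Finset ((U → ℤ) × ℤ)) (q : LinearMap.BilinForm ℝ (U → ℝ)) (l : (U → ℝ) →ₗ[ℝ] ℝ) (c : ℝ),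
      ∀ u : U → ℤ, ((∀ ab ∈ Φ, ab.2 ≤ ab.1 ⬝ᵥ u) ↔ Λ (μ (r • (toQ u - u0))) = r • (toQ u - u0) ∧
        ∀ i, C ≤ (μ (r • (toQ u - u0)) + w) i) ∧
      q (toR u) (toR u) + l (toR u) + c =
        (B (μ (r • (toQ u - u0)) + w) (μ (r • (toQ u - u0)) + w) +
          ℓ (μ (r • (toQ u - u0)) + w) : ℚ) := by
  classical
  let ψ : (U → ℚ) →ₗ[ℚ] (U → ℚ) := r • (Λ ∘ₗ μ - LinearMap.id)
  let A : (U → ℚ) →ₗ[ℚ] (I → ℚ) := r • μ
  let b : I → ℚ := w - A u0
  have hA : ∀ u, μ (r • (u - u0)) + w = A u + b := fun u => by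
    simp only [A, b, LinearMap.smul_apply, map_smul, map_sub, smul_sub]; abel
  obtain ⟨Φ1, h1⟩ := exists_int_ineqs (fun o => LinearMap.proj o ∘ₗ ψ) (fun o => ψ u0 o)
  obtain ⟨Φ2, h2⟩ := exists_int_ineqs (fun o => -(LinearMap.proj o ∘ₗ ψ)) (fun o => -ψ u0 o)
  obtain ⟨Φ3, h3⟩ := exists_int_ineqs (fun i => LinearMap.proj i ∘ₗ A) (fun i => C - b i)
  obtain ⟨q, hq⟩ := exists_real_bilin (B.comp A A)
  obtain ⟨l, hl⟩ := exists_real_lin ((B b + B.flip b + ℓ) ∘ₗ A)
  refine ⟨Φ1 ∪ Φ2 ∪ Φ3, q, l, (B b b + ℓ b : ℚ), fun u => ⟨?_, ?_⟩⟩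
  · rw [Finset.forall_mem_union, Finset.forall_mem_union, h1, h2, h3, hA]
    refine and_congr ?_ (forall_congr' fun i => ?_)
    · have : Λ (μ (r • (toQ u - u0))) = r • (toQ u - u0) ↔ ψ (toQ u) = ψ u0 := by
        rw [← sub_eq_zero, ← sub_eq_zero (a := ψ _), ← map_sub]
        simp only [ψ, LinearMap.smul_apply, LinearMap.sub_apply, LinearMap.comp_apply, map_smul,
          LinearMap.id_apply, smul_sub (r) (Λ _)]
      rw [this, funext_iff, ← forall_and]
      refine forall_congr' fun o => ?_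
      simp only [LinearMap.comp_apply, LinearMap.proj_apply, LinearMap.neg_apply, neg_le_neg_iff]
      exact ⟨fun h => le_antisymm h.2 h.1, fun h => ⟨h.ge, h.le⟩⟩
    · simp only [LinearMap.comp_apply, LinearMap.proj_apply, Pi.add_apply]
      exact sub_le_iff_le_add
  · rw [hq, hl, hA]
    simp only [LinearMap.BilinForm.comp_apply, LinearMap.comp_apply, LinearMap.add_apply, map_add,
      LinearMap.BilinForm.flip_apply]
    push_cast
    ring

/-- Extension by zero. -/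
def extJ {M : ℕ} (J : Finset (Fin M)) : (J → ℚ) →ₗ[ℚ] (Fin M → ℚ) where
  toFun t := fun j => if h : j ∈ J then t ⟨j, h⟩ else 0
  map_add' x y := by funext j; by_cases h : j ∈ J <;> simp [h]
  map_smul' c x := by funext j; by_cases h : j ∈ J <;> simp [h]

/-- Exponents built from a base point and nonnegative parameters. -/
def nn {M : ℕ} (J : Finset (Fin M)) (N : ℕ) (n0 : Fin M → ℕ) (t : J → ℤ) : Fin M → ℕ :=
  fun j => n0 j + N * if h : j ∈ J then (t ⟨j, h⟩).toNat else 0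

namespace Ext

variable {ι : Type} {P : Type*} [Group P] {X : Base ι P} {G : Type*} [Group G] (E : Ext X G)

/-- The word with prescribed blocks. -/
def word {M : ℕ} (τ : Fin M → G) (n : Fin M → ℕ) : G := bw (List.ofFn fun j => (τ j, n j))

theorem word_succ {M : ℕ} (τ : Fin (M + 1) → G) (n : Fin (M + 1) → ℕ) :
    word τ n = τ 0 ^ n 0 * word (fun j => τ j.succ) (fun j => n j.succ) := by
  simp [word, List.ofFn_succ]

theorem cl_word {M : ℕ} (τ : Fin M → E.S) (n : Fin M → ℕ) : E.cl (word (fun j => (τ j : G)) n) := by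
  refine E.cl_bw fun e he => ?_
  obtain ⟨j, rfl⟩ := List.mem_ofFn.1 he
  exact (τ j).2

theorem u_word {M : ℕ} (τ : Fin M → G) (n : Fin M → ℕ) :
    X.u (E.pr (word τ n)) = ∑ j, n j • X.u (E.pr (τ j)) := by
  induction M with
  | zero => simp [word, X.u_one]
  | succ M ih => rw [word_succ, map_mul, X.u_mul, ih, Fin.sum_univ_succ, map_pow, X.u_pow]

theorem word_quad {M : ℕ} (τ : Fin M → G) : ∃ (B : LinearMap.BilinForm ℚ (Fin M → ℚ))
    (h : (Fin M → ℚ) →ₗ[ℚ] ℚ), ∀ n : Fin M → ℕ, E.ht (word τ n) =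
      B (fun j => n j) (fun j => n j) + h fun j => n j := by
  induction M with
  | zero => exact ⟨0, 0, fun n => by simp [word, E.ht_one]⟩
  | succ M ih =>
    obtain ⟨B, h, hB⟩ := ih fun j => τ j.succ
    let tl : (Fin (M + 1) → ℚ) →ₗ[ℚ] (Fin M → ℚ) := LinearMap.funLeft ℚ ℚ Fin.succ
    let Λ : (Fin M → ℚ) →ₗ[ℚ] (Option ι → ℚ) :=
      Fintype.linearCombination ℚ fun j => E.v (τ j.succ)
    refine ⟨B.comp tl tl + (LinearMap.proj 0 : (Fin (M + 1) → ℚ) →ₗ[ℚ] ℚ).smulRight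
      (E.ω (E.v (τ 0)) ∘ₗ Λ ∘ₗ tl), h ∘ₗ tl + E.ht (τ 0) • LinearMap.proj 0, fun n => ?_⟩
    have e1 : tl (fun j => n j) = fun j => (n j.succ : ℚ) := rfl
    have e2 : E.v (word (fun j => τ j.succ) fun j => n j.succ) = Λ fun j => (n j.succ : ℚ) := by
      rw [v, u_word]
      funext o
      simp [Λ, toQ, Fintype.linearCombination_apply, Finset.sum_apply, v]
    rw [word_succ, ht_mul', hB, ht_pow, v_pow, e2]
    simp only [LinearMap.add_apply, LinearMap.BilinForm.comp_apply, e1, LinearMap.smulRight_apply,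
      LinearMap.proj_apply, LinearMap.smul_apply, LinearMap.comp_apply, map_smul, smul_eq_mul]
    ring

theorem pr_word_add {M : ℕ} (τ : Fin M → G) (n t : Fin M → ℕ) :
    E.pr (word τ fun j => n j + X.N * t j) =
      E.pr (word τ n) * X.τ (∑ j, t j • X.u (E.pr (τ j))) := by
  induction M with
  | zero => simp [word, X.τ_zero]
  | succ M ih =>
    rw [word_succ, word_succ, map_mul, map_mul, ih, Fin.sum_univ_succ, X.τ_add, map_pow, map_pow,
      pow_add, pow_mul, X.pow_eq, ← X.τ_nsmul, mul_assoc, mul_assoc, ← mul_assoc (X.τ _),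
      X.τ_comm, mul_assoc]

theorem exists_word (M : ℕ) {s0 : G} (hs0 : s0 ∈ E.S) (l : List (G × ℕ)) (hl : E.ok l)
    (hM : l.length ≤ M) : ∃ (τ : Fin M → E.S) (n : Fin M → ℕ),
      word (fun j => (τ j : G)) n = bw l := by
  have h1 : ∀ l' : List (G × ℕ), E.ok l' → l'.length = M → ∃ (τ : Fin M → E.S) (n : Fin M → ℕ),
      word (fun j => (τ j : G)) n = bw l' := by
    intro l' h1 h2
    subst h2
    exact ⟨fun j => ⟨(l'.get j).1, h1 _ (List.get_mem _ _)⟩, fun j => (l'.get j).2, by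
      simp [word]⟩
  obtain ⟨τ, n, h⟩ := h1 (l ++ List.replicate (M - l.length) (s0, 0)) (by
    intro e he
    rcases List.mem_append.1 he with he | he
    · exact hl e he
    · rw [List.eq_of_mem_replicate he]; exact hs0) (by simp; omega)
  exact ⟨τ, n, by rw [h, bw_append]; simp [bw]⟩

/-- Integer parametrisation. -/
def LamZ {M : ℕ} (τ : Fin M → G) (J : Finset (Fin M)) (t : J → ℤ) : Option ι → ℤ :=
  ∑ i : J, t i • X.u (E.pr (τ i))

/-- Rational parametrisation. -/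
noncomputable def Lam {M : ℕ} (τ : Fin M → G) (J : Finset (Fin M)) :
    (J → ℚ) →ₗ[ℚ] (Option ι → ℚ) :=
  Fintype.linearCombination ℚ fun i : J => E.v (τ i)

theorem Lam_toQ {M : ℕ} (τ : Fin M → G) (J : Finset (Fin M)) (t : J → ℤ) :
    E.Lam τ J (toQ t) = toQ (E.LamZ τ J t) := by
  funext o
  simp [Lam, LamZ, toQ, Fintype.linearCombination_apply, Finset.sum_apply, v]

theorem pr_nn {M : ℕ} (τ : Fin M → G) (J : Finset (Fin M)) (n0 : Fin M → ℕ) {t : J → ℤ}
    (ht : ∀ i, 0 ≤ t i) :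
    E.pr (word τ (nn J X.N n0 t)) = E.pr (word τ n0) * X.τ (E.LamZ τ J t) := by
  have := E.pr_word_add τ n0 fun j => if h : j ∈ J then (t ⟨j, h⟩).toNat else 0
  refine this.trans ?_
  congr 2
  rw [← Finset.sum_subset (Finset.subset_univ J) (fun j _ hj => by simp [hj]), LamZ,
    ← Finset.sum_coe_sort]
  refine Finset.sum_congr rfl fun i _ => ?_
  simp only [i.2, dite_true]
  rw [← natCast_zsmul, Int.toNat_of_nonneg (ht i)]

/-- Quadratic part of the height of a template. -/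
noncomputable def Bq {M : ℕ} (τ : Fin M → G) (J : Finset (Fin M)) :
    LinearMap.BilinForm ℚ (J → ℚ) :=
  (E.word_quad τ).choose.comp ((X.N : ℚ) • extJ J) ((X.N : ℚ) • extJ J)

theorem exists_ell {M : ℕ} (τ : Fin M → G) (J : Finset (Fin M)) (n0 : Fin M → ℕ) :
    ∃ ℓ : (J → ℚ) →ₗ[ℚ] ℚ, ∀ t : J → ℤ, (∀ i, 0 ≤ t i) → E.ht (word τ (nn J X.N n0 t)) =
      E.Bq τ J (toQ t) (toQ t) + ℓ (toQ t) + E.ht (word τ n0) := by
  obtain ⟨h, hB⟩ := (E.word_quad τ).choose_spec
  refine ⟨((E.word_quad τ).choose (fun j => n0 j) + (E.word_quad τ).choose.flip (fun j => n0 j) + h)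
    ∘ₗ ((X.N : ℚ) • extJ J), fun t ht => ?_⟩
  have e : (fun j => (nn J X.N n0 t j : ℚ)) =
      (fun j => (n0 j : ℚ)) + ((X.N : ℚ) • extJ J) (toQ t) := by
    funext j
    by_cases hj : j ∈ J
    · have : (((t ⟨j, hj⟩).toNat : ℕ) : ℚ) = t ⟨j, hj⟩ := by
        exact_mod_cast congrArg (fun x : ℤ => (x : ℚ)) (Int.toNat_of_nonneg (ht ⟨j, hj⟩))
      simp [nn, extJ, hj, toQ, this]
    · simp [nn, extJ, hj]
  rw [hB, hB, e]
  simp only [Bq, LinearMap.BilinForm.comp_apply, LinearMap.comp_apply, LinearMap.add_apply, map_add,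
    LinearMap.BilinForm.flip_apply]
  ring

theorem last_big (N : ℕ) (l : List (G × ℕ)) (h : ∃ e ∈ l, N ≤ e.2) :
    ∃ l1 s m l2, l = l1 ++ (s, m) :: l2 ∧ N ≤ m ∧ ∀ e ∈ l2, e.2 < N := by
  induction l with
  | nil => simp at h
  | cons e l ih =>
    by_cases h' : ∃ e ∈ l, N ≤ e.2
    · obtain ⟨l1, s, m, l2, h1, h2, h3⟩ := ih h'
      exact ⟨e :: l1, s, m, l2, by rw [h1]; rfl, h2, h3⟩
    · push Not at h'
      obtain ⟨e', h1, h2⟩ := h
      rcases List.mem_cons.1 h1 with rfl | h1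
      · exact ⟨[], e'.1, e'.2, l, rfl, h2, h'⟩
      · exact absurd h2 (not_le.2 (h' e' h1))

theorem lv_bw_le {N : ℕ} {l : List (G × ℕ)} (hl : E.ok l) (h : ∀ e ∈ l, e.2 < N) :
    E.lv (bw l) + l.length ≤ l.length * N := by
  induction l with
  | nil => simp [lv_one]
  | cons e l ih =>
    have a1 := ih (fun e he => hl e (by simp [he])) fun e he => h e (by simp [he])
    have a2 : (e.2 : ℤ) < N := by exact_mod_cast h e (by simp)
    rw [bw_cons, lv_mul, lv_pow, E.lv_letter (hl e (by simp))]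
    simp only [List.length_cons]
    push_cast
    linarith

variable [Fintype ι]

theorem exists_sys {s0 : G} (hs0 : s0 ∈ E.S) : ∃ (m : ℕ) (hm : 0 < m) (M Cb : ℕ)
    (Y : Sys (X.scale m hm) ((Fin M → E.S) × Finset (Fin M) × (Fin M → Fin Cb))),
    Y.F = E.top := by
  classical
  obtain ⟨M, hM⟩ := E.consolidate
  obtain ⟨Ω, hΩ1, hΩ2⟩ := E.exists_Ω
  let D := fun (τ : Fin M → E.S) (J : Finset (Fin M)) =>
    (nonempty_qp (E.Lam (fun j => (τ j : G)) J) (E.Bq (fun j => (τ j : G)) J)).some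
  let den : ℕ := ∏ x : (Fin M → E.S) × Finset (Fin M), (D x.1 x.2).den
  have hden : 0 < den := Finset.prod_pos fun x _ => (D x.1 x.2).den_pos
  have hden' : ∀ τ J, (D τ J).den ∣ den := fun τ J =>
    Finset.dvd_prod_of_mem (fun x : (Fin M → E.S) × Finset (Fin M) => (D x.1 x.2).den)
      (Finset.mem_univ (τ, J))
  let Cq : ℕ := Finset.univ.sup fun x : (Fin M → E.S) × Finset (Fin M) => (D x.1 x.2).C
  have hCq : ∀ τ J, (D τ J).C ≤ Cq := fun τ J =>
    Finset.le_sup (f := fun x : (Fin M → E.S) × Finset (Fin M) => (D x.1 x.2).C)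
      (Finset.mem_univ (τ, J))
  set Cb : ℕ := X.N * (2 * Cq + 1) with hCb
  have hN := X.N_pos
  have hN' : (X.N : ℚ) ≠ 0 := by exact_mod_cast hN.ne'
  choose ℓ hℓ using fun (τ : Fin M → E.S) (J : Finset (Fin M)) (n0 : Fin M → ℕ) =>
    E.exists_ell (fun j => (τ j : G)) J n0
  let w0 : (Fin M → E.S) × Finset (Fin M) × (Fin M → Fin Cb) → G :=
    fun c => word (fun j => (c.1 j : G)) fun j => (c.2.2 j : ℕ)
  choose Φ q l cst hdat using fun c : (Fin M → E.S) × Finset (Fin M) × (Fin M → Fin Cb) =>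
    exists_affine_data (E.Lam (fun j => (c.1 j : G)) c.2.1) (D c.1 c.2.1).μ
      (E.Bq (fun j => (c.1 j : G)) c.2.1) (ℓ c.1 c.2.1 fun j => (c.2.2 j : ℕ))
      ((D c.1 c.2.1).wc (ℓ c.1 c.2.1 fun j => (c.2.2 j : ℕ))) (X.N : ℚ)⁻¹ Cq (E.v (w0 c))
  obtain ⟨K1, hK1, hK1'⟩ := exists_fin_bound Finset.univ
    (fun c K => |(E.ht (w0 c) : ℝ) + cst c| ≤ K) (fun _ _ _ h1 _ h2 => h2.trans h1)
    fun c _ => ⟨_, abs_nonneg _, le_rfl⟩
  choose lam hlam using fun s : P => exists_real_lin (E.ω.flip (toQ (X.u s)))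
  have hx : ∀ c p x, p = E.pr (w0 c) * X.τ x →
      (X.N : ℚ)⁻¹ • (toQ (X.u p) - E.v (w0 c)) = toQ x := by
    intro c p x hp
    rw [hp, X.u_mul, X.u_τ, toQ_add, toQ_nsmul, v, add_sub_cancel_left, smul_smul,
      inv_mul_cancel₀ hN', one_smul]
  set N1 : ℕ := X.N * den with hN1
  set K : ℝ := K1 + Cq + Ω + N1 * Ω + 2 * N1 * (Ω * (M * N1)) with hK
  have k1 : (0 : ℝ) ≤ N1 * Ω := by positivity
  have k2 : (0 : ℝ) ≤ 2 * N1 * (Ω * (M * N1)) := by positivity
  have k3 : (0 : ℝ) ≤ Cq := by positivity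
  have k4 : (0 : ℝ) ≤ Ω := by positivity
  refine ⟨den, hden, M, Cb,
    { F := E.top
      cong := fun c p => (D c.1 c.2.1).good ∧ ∃ (z : Option ι → ℤ) (t : c.2.1 → ℤ),
        p = E.pr (w0 c) * X.τ (E.LamZ (fun j => (c.1 j : G)) c.2.1 t + den • z)
      cong_τ := ?_
      Φ := Φ
      q := q
      l := l
      K := K
      K_nonneg := by linarith
      low := ?_
      up := ?_
      zero := fun p hp => E.top_eq_zero hp
      lam := lam
      mono := ?_
      k0 := M * N1 + 1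
      opt := ?_ }, rfl⟩
  · rintro c z p ⟨h1, z', t, rfl⟩
    refine ⟨h1, z' + z, t, ?_⟩
    change X.τ (den • z) * _ = _
    rw [X.τ_comm, mul_assoc, ← X.τ_add, smul_add, add_assoc]
  · rintro c p ⟨hg, z, t, hp⟩ hΦ
    change X.R p ∧ q c (toR (X.u p)) (toR (X.u p)) + l c (toR (X.u p)) - K ≤ E.top p
    obtain ⟨d1, d2⟩ := hdat c (X.u p)
    obtain ⟨d3, d4⟩ := d1.1 hΦ
    rw [hx c p _ hp] at d2 d3 d4
    have hd : (den : ℚ) ≠ 0 := by exact_mod_cast hden.ne'
    rw [toQ_add, toQ_nsmul, ← Lam_toQ, map_add, map_add, (D c.1 c.2.1).range, add_right_inj,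
      map_smul, map_smul] at d3
    obtain ⟨t', ht'⟩ := (D c.1 c.2.1).lattice z (smul_right_injective _ hd d3)
    obtain ⟨e, he⟩ := hden' c.1 c.2.1
    have e1 : toQ (E.LamZ (fun j => (c.1 j : G)) c.2.1 t + den • z) =
        E.Lam (fun j => (c.1 j : G)) c.2.1 (toQ (t + e • t')) := by
      rw [toQ_add, toQ_add, toQ_nsmul, toQ_nsmul, map_add, map_smul, ht', Lam_toQ, smul_smul, he]
      push_cast
      rw [mul_comm]
    rw [e1] at d2 d4
    obtain ⟨t1, r1, r2, r3⟩ := (D c.1 c.2.1).round hg (ℓ c.1 c.2.1 fun j => (c.2.2 j : ℕ))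
      (t + e • t')
    have hC : ((D c.1 c.2.1).C : ℚ) ≤ Cq := by exact_mod_cast hCq c.1 c.2.1
    have ht1 : ∀ i, 0 ≤ t1 i := fun i => by
      have : (0 : ℚ) ≤ t1 i := by linarith [r2 i, d4 i]
      exact_mod_cast this
    have f1 := E.pr_nn (fun j => (c.1 j : G)) c.2.1 (fun j => (c.2.2 j : ℕ)) ht1
    rw [toQ_injective ((E.Lam_toQ _ _ t1).symm.trans (r1.trans e1.symm)), ← hp] at f1
    have f2 := hℓ c.1 c.2.1 (fun j => (c.2.2 j : ℕ)) t1 ht1
    have f3 := E.le_top (E.cl_word c.1 _) f1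
    refine ⟨f1 ▸ E.R_pr (E.cl_word c.1 _), ?_⟩
    have f4 := (abs_le.1 (hK1' c (Finset.mem_univ _))).1
    have f5 := (Rat.cast_le (K := ℝ)).2 (r3.trans' (sub_le_sub_left hC _))
    rw [f2] at f3
    push_cast at f3 f5 d2
    simp only [w0] at f4
    linarith
  · intro p hp
    change ∃ c, _ ∧ (∀ ab ∈ Φ c, ab.2 ≤ ab.1 ⬝ᵥ X.u p) ∧
      E.top p ≤ q c (toR (X.u p)) (toR (X.u p)) + l c (toR (X.u p)) + K
    obtain ⟨g, g1, g2, g3⟩ := E.exists_top hp
    obtain ⟨L, l1, l2, l3, l4⟩ := hM g g1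
    obtain ⟨τ, n', hn'⟩ := E.exists_word M hs0 L l1 l2
    have hmax : ∀ n, E.pr (word (fun j => (τ j : G)) n) = p →
        E.ht (word (fun j => (τ j : G)) n) ≤ E.ht g := fun n hn => by
      have := E.le_top (E.cl_word τ n) hn
      rw [g3] at this
      exact_mod_cast this
    have hfin : {n : Fin M → ℕ | E.pr (word (fun j => (τ j : G)) n) = p ∧
        E.ht g ≤ E.ht (word (fun j => (τ j : G)) n)}.Finite := by
      refine (Set.Finite.pi' fun _ : Fin M => Set.finite_Iic (X.u p none).toNat).subset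
        fun n hn j => ?_
      have a1 := congrFun (E.u_word (fun j => (τ j : G)) n) none
      rw [hn.1, Finset.sum_apply] at a1
      have a2 : ∀ j, (n j • X.u (E.pr (τ j))) none = n j := fun j => by
        rw [Pi.smul_apply, X.L_one _ (E.pr_mem (τ j).2)]; simp
      simp only [a2] at a1
      have a3 := Finset.single_le_sum (f := fun j => (n j : ℤ)) (fun _ _ => Nat.cast_nonneg _)
        (Finset.mem_univ j)
      simp only [Set.mem_Iic]
      omega
    obtain ⟨n, ⟨hn1, hn2⟩, hn3⟩ := Set.exists_max_image _ (fun n : Fin M → ℕ => ∑ j, (n j : ℤ) ^ 2)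
      hfin ⟨n', by rw [Set.mem_ofPred_eq, hn']; exact ⟨l3.trans g2, l4⟩⟩
    let J : Finset (Fin M) := Finset.univ.filter fun j => Cb ≤ n j
    have hJ : ∀ j, j ∈ J ↔ Cb ≤ n j := fun j => by simp [J]
    let n0 : Fin M → Fin Cb := fun j => ⟨if j ∈ J then n j % X.N else n j, by
      split_ifs with h
      · exact (Nat.mod_lt _ hN).trans_le (Nat.le_mul_of_pos_right _ (by omega))
      · exact not_le.1 fun h' => h ((hJ j).2 h')⟩
    let t : J → ℤ := fun i => ((n i / X.N : ℕ) : ℤ)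
    have ht : ∀ i, (2 * Cq + 1 : ℤ) ≤ t i := fun i => by
      have : 2 * Cq + 1 ≤ n i / X.N := by
        rw [Nat.le_div_iff_mul_le hN, mul_comm]; exact (hJ i).1 i.2
      simp only [t]
      exact_mod_cast this
    have ht0 : ∀ i, 0 ≤ t i := fun i => Nat.cast_nonneg _
    have en : nn J X.N (fun j => (n0 j : ℕ)) t = n := by
      funext j
      by_cases h : j ∈ J
      · simp only [nn, n0, t, h, if_true, dite_true, Int.toNat_natCast]
        exact Nat.mod_add_div _ _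
      · simp [nn, n0, h]
    have hp0 := E.pr_nn (fun j => (τ j : G)) J (fun j => (n0 j : ℕ)) ht0
    have hh0 := hℓ τ J (fun j => (n0 j : ℕ)) t ht0
    rw [en] at hp0 hh0
    rw [hn1] at hp0
    have hC : ((D τ J).C : ℤ) ≤ Cq := by exact_mod_cast hCq τ J
    have move : ∀ κ : J → ℤ, E.Lam (fun j => (τ j : G)) J (toQ κ) = 0 → (∀ i, |κ i| ≤ (D τ J).C) →
        (∀ i, 0 ≤ (t + κ) i) ∧
          E.pr (word (fun j => (τ j : G)) (nn J X.N (fun j => (n0 j : ℕ)) (t + κ))) = p := by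
      intro κ h1 h2
      have a1 : ∀ i, 0 ≤ (t + κ) i := fun i => by
        have := (abs_le.1 (h2 i)).1
        have := ht i
        rw [Pi.add_apply]
        omega
      refine ⟨a1, ?_⟩
      rw [E.pr_nn _ _ _ a1, hp0]
      congr 2
      apply toQ_injective
      rw [← Lam_toQ, ← Lam_toQ, toQ_add, map_add, h1, add_zero]
    have hg : (D τ J).good := by
      by_contra hbad
      obtain ⟨κ, b1, b2, b3, b4⟩ := (D τ J).bad hbad
      obtain ⟨c1, c2⟩ := move κ b2 b4
      obtain ⟨c3, c4⟩ := move (-κ) (by rw [toQ_neg, map_neg, b2, neg_zero]) (by simpa using b4)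
      have c5 := hmax _ c2
      have c6 := hmax _ c4
      have c7 := hℓ τ J (fun j => (n0 j : ℕ)) _ c1
      have c8 := hℓ τ J (fun j => (n0 j : ℕ)) _ c3
      rw [toQ_add] at c7 c8
      rw [toQ_neg] at c8
      simp only [map_add, map_neg, LinearMap.add_apply, LinearMap.neg_apply] at c7 c8
      have d1 := hn3 _ ⟨c2, by linarith⟩
      have d2 := hn3 _ ⟨c4, by linarith⟩
      have cn : ∀ κ : J → ℤ, (∀ i, 0 ≤ (t + κ) i) → ∀ j,
          (nn J X.N (fun j => (n0 j : ℕ)) (t + κ) j : ℤ) =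
            n j + X.N * if h : j ∈ J then κ ⟨j, h⟩ else 0 := by
        intro κ hκ j
        conv_rhs => rw [← en]
        by_cases h : j ∈ J
        · simp only [nn, h, dite_true]
          push_cast
          rw [Int.toNat_of_nonneg (hκ _), Int.toNat_of_nonneg (ht0 _), Pi.add_apply]; ring
        · simp [nn, h]
      simp only [cn κ c1, cn (-κ) c3] at d1 d2
      obtain ⟨i, hi⟩ := Function.ne_iff.1 b1
      have d3 : ∑ j, 2 * (n j : ℤ) ^ 2 < ∑ j, ((n j + X.N * if h : j ∈ J then κ ⟨j, h⟩ else 0) ^ 2 +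
          (n j + X.N * if h : j ∈ J then (-κ) ⟨j, h⟩ else 0) ^ 2) := by
        refine Finset.sum_lt_sum (fun j _ => ?_) ⟨i, Finset.mem_univ _, ?_⟩
        · by_cases h : j ∈ J
          · simp only [h, dite_true, Pi.neg_apply]
            nlinarith [sq_nonneg (X.N * κ ⟨j, h⟩)]
          · simp [h, two_mul]
        · simp only [i.2, dite_true, Pi.neg_apply]
          have : (X.N : ℤ) * κ i ≠ 0 := mul_ne_zero (by exact_mod_cast hN.ne') hi
          nlinarith [sq_pos_of_ne_zero this]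
      rw [Finset.sum_add_distrib, ← Finset.mul_sum] at d3
      linarith
    have hprox := (D τ J).prox hg (ℓ τ J fun j => (n0 j : ℕ)) t fun κ h1 h2 => by
      obtain ⟨c1, c2⟩ := move κ h1 h2
      have c5 := hmax _ c2
      have c7 := hℓ τ J (fun j => (n0 j : ℕ)) _ c1
      linarith
    have hmx := (D τ J).max hg (ℓ τ J fun j => (n0 j : ℕ)) (toQ t)
    obtain ⟨d1, d2⟩ := hdat (τ, J, n0) (X.u p)
    rw [hx (τ, J, n0) p _ hp0, ← Lam_toQ] at d1 d2
    refine ⟨(τ, J, n0), ⟨hg, 0, t, by simpa using hp0⟩, d1.2 ⟨(D τ J).range _, fun i => ?_⟩, ?_⟩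
    · have a1 : (2 * Cq + 1 : ℚ) ≤ t i := by exact_mod_cast ht i
      have a2 : ((D τ J).C : ℚ) ≤ Cq := by exact_mod_cast hC
      linarith [hprox i]
    · have f4 := (abs_le.1 (hK1' (τ, J, n0) (Finset.mem_univ _))).2
      have f5 := (Rat.cast_le (K := ℝ)).2 ((hn2.trans hh0.le).trans (add_le_add_left hmx _))
      rw [g3]
      push_cast at f5 d2
      simp only [w0] at f4
      linarith
  · intro σ hσ p hp
    change E.top p + lam σ (toR (X.u p)) - K ≤ E.top (p * σ)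
    obtain ⟨s, hs, rfl⟩ := (E.L_eq σ).1 hσ
    obtain ⟨g, g1, rfl, g3⟩ := E.exists_top hp
    have a1 := E.le_top (g1.mul (E.cl_letter hs)) (map_mul E.pr g s)
    have a2 := (Rat.cast_le (K := ℝ)).2 (abs_le.1 (hΩ1 s hs)).1
    rw [g3, hlam, LinearMap.BilinForm.flip_apply]
    rw [E.ht_mul] at a1
    push_cast at a1 a2
    linarith
  · intro p hp hk
    change ∃ s ∈ X.L, ∃ p', X.R p' ∧ p = p' * s ^ N1 ∧
      E.top p - N1 * lam s (toR (X.u p')) - K ≤ E.top p'
    change (M * N1 + 1 : ℤ) ≤ X.u p none at hk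
    obtain ⟨g, g1, g2, g3⟩ := E.exists_top hp
    obtain ⟨L, l1, l2, l3, l4⟩ := hM g g1
    have l2' : (L.length : ℤ) ≤ M := by exact_mod_cast l2
    obtain ⟨L1, s, m, L2, rfl, hm, hL2⟩ := last_big N1 L (by
      by_contra hc
      push Not at hc
      have a1 := E.lv_bw_le l1 hc
      rw [lv, l3, g2] at a1
      have : (L.length : ℤ) * N1 ≤ M * N1 := by gcongr
      have : (0 : ℤ) ≤ L.length := Nat.cast_nonneg _
      linarith)
    obtain ⟨m', rfl⟩ := Nat.exists_eq_add_of_le hm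
    have hs : s ∈ E.S := l1 (s, N1 + m') (by simp)
    have o1 : E.ok L1 := fun e he => l1 e (by simp [he])
    have o2 : E.ok L2 := fun e he => l1 e (by simp [he])
    have c1 := (E.cl_bw o1).mul (((E.cl_letter hs).pow m').mul (E.cl_bw o2))
    refine ⟨E.pr s, E.pr_mem hs, _, E.R_pr c1, ?_, ?_⟩
    · rw [← g2, ← l3]
      simp only [bw_append, bw_cons, map_mul, map_pow, pow_add, mul_assoc]
      rw [← mul_assoc (E.pr s ^ m'), ← E.pr_pow_comm s (Dvd.intro _ rfl)]
    · have a1 := E.le_top c1 rfl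
      have a2 := abs_le.1 (hΩ1 s hs)
      have a3 := hΩ2 _ _ (E.cl_letter hs) (E.cl_bw o2)
      have a4 := E.lv_bw_le o2 hL2
      have a5 : (E.lv (bw L2) : ℚ) ≤ M * N1 := by
        have b1 : (L2.length : ℤ) ≤ M := by
          simp only [List.length_append, List.length_cons] at l2'
          push_cast at l2'
          have : (0 : ℤ) ≤ L1.length := Nat.cast_nonneg _
          linarith
        have : (L2.length : ℤ) * N1 ≤ M * N1 := by gcongr
        have : (0 : ℤ) ≤ L2.length := Nat.cast_nonneg _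
        have : E.lv (bw L2) ≤ M * N1 := by linarith
        exact_mod_cast this
      rw [E.lv_letter hs, Int.cast_one, mul_one] at a3
      have a6 := (abs_le.1 (a3.trans (mul_le_mul_of_nonneg_left a5 (Nat.cast_nonneg _)))).2
      have a7 := E.ω_swap (E.v (bw L2)) (E.v s)
      have n0 : (0 : ℚ) ≤ N1 := Nat.cast_nonneg _
      have a8 : E.ht g - N1 * E.ω (E.v (bw L1 * (s ^ m' * bw L2))) (E.v s) -
          (N1 * Ω + 2 * N1 * (Ω * (M * N1))) ≤ E.ht (bw L1 * (s ^ m' * bw L2)) := by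
        simp only [bw_append, bw_cons, ht_mul', v_mul, v_pow, ht_pow, map_add, map_smul,
          LinearMap.add_apply, LinearMap.smul_apply, smul_eq_mul, E.ω_self] at l4 ⊢
        push_cast at l4
        nlinarith [mul_le_mul_of_nonneg_left a2.2 n0, mul_le_mul_of_nonneg_left a6 n0]
      have a9 := (Rat.cast_le (K := ℝ)).2 a8
      rw [g3, hlam, LinearMap.BilinForm.flip_apply]
      simp only [v] at a9
      push_cast at a9
      linarith

end Ext

/-- The counting system attached to a system. -/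
noncomputable def Sys.count {ι : Type} [Fintype ι] {P : Type*} [Group P] {X : Base ι P} {C : Type*}
    (Y : Sys X C) : Sys X C := by
  classical
  exact
  { F := fun p => if X.R p then (X.u p none : ℝ) ^ 2 else 0
    cong := Y.cong
    cong_τ := Y.cong_τ
    Φ := Y.Φ
    q := fun _ => (LinearMap.proj none : (Option ι → ℝ) →ₗ[ℝ] ℝ).smulRight (LinearMap.proj none)
    l := fun _ => 0
    K := (X.N : ℝ) ^ 2
    K_nonneg := sq_nonneg _
    low := fun c p h1 h2 => by
      have := (Y.low c p h1 h2).1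
      refine ⟨this, ?_⟩
      simp [this, toR, sq, mul_self_nonneg]
    up := fun p hp => by
      obtain ⟨c, h1, h2, -⟩ := Y.up p hp
      refine ⟨c, h1, h2, ?_⟩
      simp [hp, toR, sq, mul_self_nonneg]
    zero := fun p hp => if_neg hp
    lam := fun _ => (2 : ℝ) • LinearMap.proj none
    mono := fun s hs p hp => by
      simp only [hp, Base.R_mul hp (X.R_of_mem hs), if_true, X.u_mul, Pi.add_apply, X.L_one s hs,
        LinearMap.smul_apply, LinearMap.proj_apply, toR, smul_eq_mul]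
      push_cast
      nlinarith [sq_nonneg (X.N : ℝ)]
    k0 := Y.k0
    opt := fun p hp hk => by
      obtain ⟨s, hs, p', h1, h2, -⟩ := Y.opt p hp hk
      refine ⟨s, hs, p', h1, h2, ?_⟩
      simp only [hp, h1, if_true, LinearMap.smul_apply, LinearMap.proj_apply, toR, smul_eq_mul]
      rw [h2, X.u_mul, X.u_pow, Pi.add_apply, Pi.smul_apply, X.L_one s hs]
      simp only [nsmul_eq_mul, mul_one]
      push_cast
      nlinarith }

namespace Ext

variable {ι : Type} [Fintype ι] {P : Type*} [Group P] {X : Base ι P} {G : Type*} [Group G]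
  (E : Ext X G)

theorem top_limit {s0 : G} (hs0 : s0 ∈ E.S) : ∃ α L : ℝ, Tendsto (fun k : ℕ =>
    (∑ p ∈ X.lev k, E.top p - α * (k : ℝ) ^ (Fintype.card ι + 2)) / (k : ℝ) ^ (Fintype.card ι + 1))
    atTop (𝓝 L) := by
  obtain ⟨m, hm, M, Cb, Y, hY⟩ := E.exists_sys hs0
  have := Y.main
  rw [hY] at this
  exact this

theorem count_limit {s0 : G} (hs0 : s0 ∈ E.S) : ∃ α L : ℝ, Tendsto (fun k : ℕ =>
    ((X.lev k).card * (k : ℝ) ^ 2 - α * (k : ℝ) ^ (Fintype.card ι + 2)) /
      (k : ℝ) ^ (Fintype.card ι + 1)) atTop (𝓝 L) := by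
  obtain ⟨m, hm, M, Cb, Y, -⟩ := E.exists_sys hs0
  obtain ⟨α, L, h⟩ := Y.count.main
  refine ⟨α, L, h.congr fun k => ?_⟩
  congr 2
  change ∑ p ∈ X.lev k, _ = _
  rw [← nsmul_eq_mul, ← Finset.sum_const]
  refine Finset.sum_congr rfl fun p hp => ?_
  rw [X.mem_lev] at hp
  have h1 : (X.scale m hm).R p := hp.1
  have h2 : (X.scale m hm).u p none = k := hp.2
  simp [Sys.count, h1, h2]

end Ext

end Pool.Agent.MP_b3b911_al

end

section

/-! Two term asymptotics for the number of products of letters at a given level. -/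

open Filter Topology

namespace Pool.Agent.MP_b3b911_al

theorem lim_of_two {a : ℕ → ℝ} {α L : ℝ} {n : ℕ}
    (h : Tendsto (fun k : ℕ => (a k - α * (k : ℝ) ^ (n + 1)) / (k : ℝ) ^ n) atTop (𝓝 L)) :
    Tendsto (fun k : ℕ => a k / (k : ℝ) ^ (n + 1)) atTop (𝓝 α) := by
  have h1 := (h.mul tendsto_inv_atTop_nhds_zero_nat).add_const α
  rw [mul_zero, zero_add] at h1
  refine h1.congr' ?_
  filter_upwards [eventually_ge_atTop 1] with k hk
  have : (k : ℝ) ≠ 0 := by exact_mod_cast (by omega : k ≠ 0)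
  field_simp
  ring

namespace Ext

variable {ι : Type} {P : Type*} [Group P] {X : Base ι P} {G : Type*} [Group G] (E : Ext X G)

/-- Number of products of exactly `k` letters. -/
noncomputable def beta (k : ℕ) : ℕ := {g | E.cl g ∧ E.lv g = k}.ncard

theorem neg_neg_top (p : P) : E.neg.neg.top p = E.top p := by
  simp only [top, neg, neg_neg]

/-- A central padding letter and formal inverses. -/
structure Pad where
  e : G
  mem : e ∈ E.S
  comm : ∀ g, e * g = g * e
  spatial : ∀ i, X.u (E.pr e) (some i) = 0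
  inv : ∀ s ∈ E.S, ∃ s' ∈ E.S, s * s' = e ^ 2
  surj : Function.Surjective E.pr

/-- The padding data for the reversed height. -/
def Pad.neg {E : Ext X G} (Z : E.Pad) : E.neg.Pad := ⟨Z.e, Z.mem, Z.comm, Z.spatial, Z.inv, Z.surj⟩

theorem card_fib {D : ℕ} (hD : 0 < D)
    (hcong : ∀ g g', E.pr g = E.pr g' → ∃ j : ℤ, E.ht g' = E.ht g + D * j)
    (hinj : ∀ g g', E.pr g = E.pr g' → E.ht g = E.ht g' → g = g')
    (hm : ∀ s ∈ E.S, ∀ t ∈ E.S, E.ω (E.v s) (E.v t) ≠ 0 → ∃ m : ℕ,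
      E.pr s ^ m * E.pr t = E.pr t * E.pr s ^ m ∧ |2 * (m * E.ω (E.v s) (E.v t))| = D) :
    ∃ C : ℝ, 0 ≤ C ∧ ∀ p, X.R p → 1 ≤ X.u p none →
      |((E.fib p).card : ℝ) - (E.top p + E.neg.top p) / D| ≤ C * X.u p none ∧
      (C * X.u p none ≤ E.top p → C * X.u p none ≤ E.neg.top p →
        |((E.fib p).card : ℝ) - (E.top p + E.neg.top p) / D| ≤ C) := by
  classical
  obtain ⟨C1, h1⟩ := E.fill hD hcong hm
  obtain ⟨C2, h2⟩ := E.neg.fill hD (fun g g' h => by
    obtain ⟨j, hj⟩ := hcong g g' h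
    exact ⟨-j, by simp only [neg, hj]; push_cast; ring⟩) (fun s hs t ht hω => by
    obtain ⟨m, a1, a2⟩ := hm s hs t ht fun h0 => hω (by
      change -(E.ω (E.v s) (E.v t)) = 0; rw [h0, neg_zero])
    refine ⟨m, a1, ?_⟩
    change |2 * (m * -(E.ω (E.v s) (E.v t)))| = D
    rw [mul_neg, mul_neg, abs_neg, a2])
  obtain ⟨C3, h3⟩ := E.sym
  obtain ⟨C4, h4⟩ := E.neg.sym
  refine ⟨2 * (C1 + C2) + C3 + C4 + 1, by positivity, fun p hp hk => ?_⟩
  obtain ⟨g0, a1, a2, a3⟩ := E.exists_top hp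
  obtain ⟨g1, b1, b2, b3⟩ := E.neg.exists_top hp
  change E.pr g1 = p at b2
  change E.neg.top p = ((-E.ht g1 : ℚ) : ℝ) at b3
  have hD' : (1 : ℚ) ≤ D := by exact_mod_cast hD
  have hup : ∀ g, E.cl g → E.pr g = p → E.ht g ≤ E.ht g0 := fun g c1 c2 => by
    have := E.le_top c1 c2
    rw [a3] at this
    exact_mod_cast this
  have hlo : ∀ g, E.cl g → E.pr g = p → E.ht g1 ≤ E.ht g := fun g c1 c2 => by
    have := E.neg.le_top (g := g) c1 c2
    rw [b3] at this
    change ((-E.ht g : ℚ) : ℝ) ≤ _ at this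
    have : -E.ht g ≤ -E.ht g1 := by exact_mod_cast this
    linarith
  have hnat : ∀ g, E.cl g → E.pr g = p → ∃ w : ℕ, E.ht g = E.ht g0 - D * w := fun g c1 c2 => by
    obtain ⟨j, hj⟩ := hcong g0 g (a2.trans c2.symm)
    have c3 := hup g c1 c2
    have c4 : 0 ≤ -j := by
      have : (0 : ℚ) ≤ D * ((-j : ℤ) : ℚ) := by push_cast; linarith
      exact_mod_cast (mul_nonneg_iff_of_pos_left (by linarith)).1 this
    obtain ⟨w, hw⟩ := Int.eq_ofNat_of_zero_le c4
    have : (j : ℚ) = -w := by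
      have : -(j : ℚ) = w := by exact_mod_cast hw
      linarith
    exact ⟨w, by rw [hj, this]; ring⟩
  obtain ⟨w, hw⟩ := hnat g1 b1 b2
  have e1 : (E.top p + E.neg.top p) / D = w := by
    have : (D : ℝ) ≠ 0 := by exact_mod_cast hD.ne'
    rw [a3, b3, hw]
    push_cast
    field_simp
    ring
  have e2 : ((E.fib p).image E.ht).card = (E.fib p).card :=
    Finset.card_image_of_injOn fun g hg g' hg' h =>
      hinj g g' ((E.mem_fib.1 hg).2.trans (E.mem_fib.1 hg').2.symm) h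
  have u1 : (E.fib p).card ≤ w + 1 := by
    rw [← e2]
    refine (Finset.card_le_card (t := (Finset.range (w + 1)).image
      fun i : ℕ => E.ht g0 - D * i) fun x hx => ?_).trans
      (Finset.card_image_le.trans (by simp))
    obtain ⟨g, hg, rfl⟩ := Finset.mem_image.1 hx
    rw [mem_fib] at hg
    obtain ⟨i, hi⟩ := hnat g hg.1 hg.2
    refine Finset.mem_image.2 ⟨i, Finset.mem_range.2 (Nat.lt_succ_of_le ?_), hi.symm⟩
    have c1 := hlo g hg.1 hg.2
    rw [hi, hw] at c1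
    have : (i : ℚ) ≤ w := le_of_mul_le_mul_left (by linarith) (by linarith : (0 : ℚ) < D)
    exact_mod_cast this
  have lv0 : E.lv g0 = X.u p none := by rw [lv, a2]
  have lv1 : E.neg.lv g1 = X.u p none := by change X.u (E.pr g1) none = _; rw [b2]
  have hk' : (1 : ℝ) ≤ X.u p none := by exact_mod_cast hk
  have u2 : (C1 + C2 : ℝ) * X.u p none ≤ E.top p → (C1 + C2 : ℝ) * X.u p none ≤ E.neg.top p →
      w ≤ (E.fib p).card + 2 * (C1 + C2) := by
    intro c1 c2
    have c0 : (0 : ℝ) ≤ C1 * X.u p none := by positivity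
    have c0' : (0 : ℝ) ≤ C2 * X.u p none := by positivity
    have c3 : (C1 : ℚ) * E.lv g0 ≤ E.ht g0 := by
      have : (C1 : ℝ) * X.u p none ≤ E.ht g0 := by rw [← a3]; linarith
      rw [lv0]; exact_mod_cast this
    have c4 : (C2 : ℚ) * E.neg.lv g1 ≤ E.neg.ht g1 := by
      have : (C2 : ℝ) * X.u p none ≤ ((-E.ht g1 : ℚ) : ℝ) := by rw [← b3]; linarith
      rw [lv1]; exact_mod_cast this
    have c5 : (Finset.Icc (C1 + C2) (w - (C1 + C2))).image (fun i : ℕ => E.ht g0 - D * i) ⊆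
        (E.fib p).image E.ht ∨ w ≤ 2 * (C1 + C2) := by
      by_cases hw2 : w ≤ 2 * (C1 + C2)
      · exact Or.inr hw2
      refine Or.inl fun x hx => ?_
      obtain ⟨i, hi, rfl⟩ := Finset.mem_image.1 hx
      rw [Finset.mem_Icc] at hi
      have d1 : (C1 + C2 : ℚ) ≤ i := by exact_mod_cast hi.1
      have d2 : (i : ℚ) + (C1 + C2) ≤ w := by exact_mod_cast (by omega : i + (C1 + C2) ≤ w)
      have d3 : (0 : ℚ) ≤ C1 := Nat.cast_nonneg _
      have d4 : (0 : ℚ) ≤ C2 := Nat.cast_nonneg _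
      rcases le_total 0 (E.ht g0 - D * i) with h0 | h0
      · obtain ⟨g', f1, f2, f3⟩ := h1 g0 a1 (lv0 ▸ hk) c3 (-i) (by push_cast; linarith)
          (by push_cast; nlinarith)
        refine Finset.mem_image.2 ⟨g', E.mem_fib.2 ⟨f1, f2.trans a2⟩, ?_⟩
        rw [f3]; push_cast; ring
      · have e3 : E.neg.ht g1 = -E.ht g1 := rfl
        obtain ⟨g', f1, f2, f3⟩ := h2 g1 b1 (lv1 ▸ hk) c4 (i - w)
          (by rw [e3, hw]; push_cast; linarith) (by push_cast; nlinarith)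
        refine Finset.mem_image.2 ⟨g', E.mem_fib.2 ⟨f1, f2.trans b2⟩, ?_⟩
        change -E.ht g' = -E.ht g1 + _ at f3
        rw [hw] at f3
        push_cast at f3
        linarith
    rcases c5 with c5 | c5
    · have c6 := Finset.card_le_card c5
      rw [e2, Finset.card_image_of_injective _ (fun i j h => by
        have : (D : ℚ) * i = D * j := by linarith
        exact_mod_cast mul_left_cancel₀ (by linarith : (D : ℚ) ≠ 0) this), Nat.card_Icc] at c6
      omega
    · omega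
  have s1 := h3 p hp
  have s2 := h4 p hp
  rw [neg_neg_top] at s2
  have u1' : ((E.fib p).card : ℝ) ≤ w + 1 := by exact_mod_cast u1
  have n1 : (0 : ℝ) ≤ C1 := Nat.cast_nonneg _
  have n2 : (0 : ℝ) ≤ C2 := Nat.cast_nonneg _
  have n3 : (0 : ℝ) ≤ C3 := Nat.cast_nonneg _
  have n4 : (0 : ℝ) ≤ C4 := Nat.cast_nonneg _
  have n5 : (0 : ℝ) ≤ (E.fib p).card := Nat.cast_nonneg _
  have hboth : (C1 + C2 : ℝ) * X.u p none ≤ E.top p → (C1 + C2 : ℝ) * X.u p none ≤ E.neg.top p →
      |((E.fib p).card : ℝ) - w| ≤ 2 * (C1 + C2) + C3 + C4 + 1 := fun c1 c2 => by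
    have : (w : ℝ) ≤ (E.fib p).card + 2 * (C1 + C2) := by exact_mod_cast u2 c1 c2
    rw [abs_le]; constructor <;> linarith
  rw [e1]
  have hle : (C1 + C2 : ℝ) * X.u p none ≤ (2 * (C1 + C2) + C3 + C4 + 1) * X.u p none :=
    mul_le_mul_of_nonneg_right (by linarith) (by linarith)
  refine ⟨?_, fun c1 c2 => hboth (hle.trans c1) (hle.trans c2)⟩
  by_cases hb : (C1 + C2 : ℝ) * X.u p none ≤ E.top p ∧ (C1 + C2 : ℝ) * X.u p none ≤ E.neg.top p
  · exact (hboth hb.1 hb.2).trans (le_mul_of_one_le_right (by positivity) hk')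
  · have e3 : (w : ℝ) ≤ E.top p + E.neg.top p := by
      have hD1 : (1 : ℝ) ≤ D := by exact_mod_cast hD
      rw [div_eq_iff (by linarith)] at e1
      rw [e1]
      exact le_mul_of_one_le_right (Nat.cast_nonneg _) hD1
    have m3 : (0 : ℝ) ≤ C3 * X.u p none := by positivity
    have m4 : (0 : ℝ) ≤ C4 * X.u p none := by positivity
    have m5 : (0 : ℝ) ≤ (C1 + C2) * X.u p none := by positivity
    rw [not_and_or, not_le, not_le] at hb
    rw [abs_le]
    rcases hb with hb | hb <;> constructor <;> linarith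

theorem low_top (Z : E.Pad) (hpair : ∃ s ∈ E.S, ∃ t ∈ E.S, E.ω (E.v s) (E.v t) ≠ 0) :
    ∃ c1 C1 : ℝ, 0 < c1 ∧ 0 ≤ C1 ∧ ∀ (x : ℕ) (p : P), X.R p →
      c1 * x ^ 2 - C1 * x - C1 * X.u p none ≤ E.top (p * E.pr Z.e ^ (4 * X.N * x)) := by
  obtain ⟨Ω, hΩ1, -⟩ := E.exists_Ω
  obtain ⟨C4, h4⟩ := E.neg.sym
  obtain ⟨s, hs, t, ht, hω⟩ : ∃ s ∈ E.S, ∃ t ∈ E.S, 0 < E.ω (E.v s) (E.v t) := by
    obtain ⟨s, hs, t, ht, h⟩ := hpair
    rcases lt_or_gt_of_ne h with h | h
    · exact ⟨t, ht, s, hs, by rw [E.ω_swap]; linarith⟩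
    · exact ⟨s, hs, t, ht, h⟩
  obtain ⟨s', hs', es⟩ := Z.inv s hs
  obtain ⟨t', ht', et⟩ := Z.inv t ht
  have he : ∀ g, E.ω (E.v g) (E.v Z.e) = 0 := fun g => by
    have a1 := congrArg E.ht (Z.comm g)
    rw [ht_mul', ht_mul', E.ω_swap (E.v Z.e)] at a1
    linarith
  have he' : ∀ g, E.ω (E.v Z.e) (E.v g) = 0 := fun g => by rw [E.ω_swap, he, neg_zero]
  have vs : E.v s' = (2 : ℚ) • E.v Z.e - E.v s := by
    have := congrArg E.v es
    rw [v_mul, v_pow] at this
    exact eq_sub_of_add_eq' this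
  have vt : E.v t' = (2 : ℚ) • E.v Z.e - E.v t := by
    have := congrArg E.v et
    rw [v_mul, v_pow] at this
    exact eq_sub_of_add_eq' this
  have hN : (1 : ℝ) ≤ X.N := by exact_mod_cast X.N_pos
  refine ⟨E.ω (E.v s) (E.v t), 4 * Ω * X.N + C4, by exact_mod_cast hω, by positivity,
    fun x p hp => ?_⟩
  obtain ⟨g, g1, g2, g3⟩ := E.exists_top hp
  have a1 := h4 p hp
  rw [neg_neg_top] at a1
  have a2 := E.neg.le_top (g := g) g1 g2
  change ((-E.ht g : ℚ) : ℝ) ≤ _ at a2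
  set n := X.N * x with hn
  have hp1 : ∀ a : G, E.pr (a ^ n) = X.τ (x • X.u (E.pr a)) := fun a => by
    rw [map_pow, hn, pow_mul, X.pow_eq, X.τ_nsmul]
  have a3 : E.pr (s ^ n * t ^ n * s' ^ n * t' ^ n) = E.pr Z.e ^ (4 * X.N * x) := by
    have b1 := congrArg (fun a => X.u (E.pr a)) es
    have b2 := congrArg (fun a => X.u (E.pr a)) et
    simp only [map_mul, map_pow, X.u_mul, X.u_pow] at b1 b2
    rw [map_mul, map_mul, map_mul, hp1, hp1, hp1, hp1, ← X.τ_add, ← X.τ_add, ← X.τ_add,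
      mul_comm 4, mul_assoc, pow_mul, X.pow_eq, ← X.τ_nsmul]
    congr 1
    rw [← smul_add, ← smul_add, ← smul_add, add_right_comm (X.u (E.pr s)), add_assoc, b1, b2,
      ← add_nsmul, smul_smul, mul_comm]
  have cl := (((E.cl_letter hs).pow n).mul ((E.cl_letter ht).pow n) |>.mul
    ((E.cl_letter hs').pow n)).mul ((E.cl_letter ht').pow n)
  have a4 := E.le_top (g1.mul cl) (by rw [map_mul, g2, a3])
  have a5 : E.ht g + 2 * n ^ 2 * E.ω (E.v s) (E.v t) - 4 * Ω * n ≤
      E.ht (g * (s ^ n * t ^ n * s' ^ n * t' ^ n)) := by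
    have b1 := (abs_le.1 (hΩ1 s hs)).1
    have b2 := (abs_le.1 (hΩ1 t ht)).1
    have b3 := (abs_le.1 (hΩ1 s' hs')).1
    have b4 := (abs_le.1 (hΩ1 t' ht')).1
    have b5 := E.ω_swap (E.v t) (E.v s)
    have n0 : (0 : ℚ) ≤ n := Nat.cast_nonneg _
    simp only [ht_mul', v_mul, v_pow, ht_pow, map_add, map_smul, map_sub, LinearMap.add_apply,
      LinearMap.smul_apply, LinearMap.sub_apply, smul_eq_mul, E.ω_self, vs, vt, he, he', b5]
    nlinarith [mul_le_mul_of_nonneg_left b1 n0, mul_le_mul_of_nonneg_left b2 n0,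
      mul_le_mul_of_nonneg_left b3 n0, mul_le_mul_of_nonneg_left b4 n0]
  have a6 := ((Rat.cast_le (K := ℝ)).2 a5).trans a4
  have a7 : (0 : ℝ) < E.ω (E.v s) (E.v t) := by exact_mod_cast hω
  have a8 : (0 : ℝ) ≤ X.u p none := by
    have := E.lv_nonneg g1
    rw [lv, g2] at this
    exact_mod_cast this
  rw [hn] at a6
  rw [g3] at a1
  push_cast at a2 a6
  have x0 : (0 : ℝ) ≤ x := Nat.cast_nonneg _
  have a9 : (x : ℝ) ^ 2 ≤ (X.N * x) ^ 2 := by gcongr; exact le_mul_of_one_le_left x0 hN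
  have b1 : (0 : ℝ) ≤ C4 * x := by positivity
  have b2 : (0 : ℝ) ≤ C4 * X.u p none := by positivity
  have b3 : (0 : ℝ) ≤ 4 * Ω * X.N * X.u p none := by positivity
  have b4 := mul_le_mul_of_nonneg_right a9 a7.le
  have b5 := mul_nonneg (sq_nonneg (x : ℝ)) a7.le
  linarith

variable [Fintype ι]

theorem beta_eq (k : ℕ) : E.beta k = ∑ p ∈ X.lev k, (E.fib p).card := by
  classical
  rw [beta, Set.ncard_eq_toFinset_card _ (E.finite_cl k),
    Finset.card_eq_sum_card_fiberwise (f := E.pr) (t := X.lev k)]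
  · refine Finset.sum_congr rfl fun p hp => ?_
    congr 1
    ext g
    rw [Finset.mem_filter, Set.Finite.mem_toFinset, mem_fib, Set.mem_ofPred_eq]
    refine ⟨fun h => ⟨h.1.1, h.2⟩, fun h => ⟨⟨h.1, ?_⟩, h.2⟩⟩
    rw [lv, h.2]; exact (X.mem_lev.1 hp).2
  · intro g hg
    rw [Finset.mem_coe, Set.Finite.mem_toFinset] at hg
    exact X.mem_lev.2 ⟨E.R_pr hg.1, hg.2⟩

omit [Fintype ι] in
theorem pad_reach (Z : E.Pad) (p : P) : ∃ j : ℕ, X.R (p * E.pr Z.e ^ j) := by
  have hc : ∀ p, Commute (E.pr Z.e) p := fun p => by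
    obtain ⟨g, rfl⟩ := Z.surj p
    have := congrArg E.pr (Z.comm g)
    rwa [map_mul, map_mul] at this
  have h1 : ∀ q, X.R q → ∃ j : ℕ, X.R (q⁻¹ * E.pr Z.e ^ j) := by
    intro q hq
    induction hq using Submonoid.closure_induction with
    | mem σ hσ =>
      obtain ⟨s, hs, rfl⟩ := (E.L_eq σ).1 hσ
      obtain ⟨s', hs', e⟩ := Z.inv s hs
      refine ⟨2, ?_⟩
      rw [← map_pow, ← e, map_mul, inv_mul_cancel_left]
      exact X.R_of_mem (E.pr_mem hs')
    | one => exact ⟨0, by simpa using X.R_one⟩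
    | mul a b _ _ ha hb =>
      obtain ⟨i, hi⟩ := ha
      obtain ⟨j, hj⟩ := hb
      refine ⟨j + i, ?_⟩
      have := Base.R_mul hj hi
      rwa [mul_assoc, ← mul_assoc _ a⁻¹, ((hc a⁻¹).pow_left j).eq, mul_assoc, ← pow_add,
        ← mul_assoc, ← mul_inv_rev] at this
  have hp : p ∈ Subgroup.closure (X.L : Set P) := by rw [X.L_gen]; trivial
  induction hp using Subgroup.closure_induction with
  | mem σ hσ => exact ⟨0, by simpa using X.R_of_mem hσ⟩
  | one => exact ⟨0, by simpa using X.R_one⟩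
  | mul a b _ _ ha hb =>
    obtain ⟨i, hi⟩ := ha
    obtain ⟨j, hj⟩ := hb
    refine ⟨i + j, ?_⟩
    have := Base.R_mul hi hj
    rwa [mul_assoc, ← mul_assoc _ b, ((hc b).pow_left i).eq, mul_assoc, ← pow_add,
      ← mul_assoc] at this
  | inv a _ ha =>
    obtain ⟨i, hi⟩ := ha
    obtain ⟨j, hj⟩ := h1 _ hi
    have := Base.R_mul hj (Base.R_pow (X.R_of_mem (E.pr_mem Z.mem)) i)
    refine ⟨j, ?_⟩
    rwa [← ((hc a).pow_left i).eq, mul_inv_rev, mul_assoc, mul_assoc, ← pow_add, add_comm j, pow_add,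
      inv_mul_cancel_left] at this

theorem count_lower (Z : E.Pad) : ∃ J : ℕ, 0 < J ∧ ∀ x : ℕ,
    x ^ Fintype.card ι ≤ (X.lev (J * x)).card := by
  classical
  choose h hh using fun i : ι => X.u_surj (Pi.single (some i) 1)
  choose j hj using fun i : ι => E.pad_reach Z (h i)
  have he : X.u (E.pr Z.e) none = 1 := X.L_one _ (E.pr_mem Z.mem)
  refine ⟨∑ i, j i + 1, by omega, fun x => ?_⟩
  have key : ∀ (ξ : ι → ℕ) (T : Finset ι), ∃ p, X.R p ∧
      X.u p = ∑ i ∈ T, ξ i • X.u (h i * E.pr Z.e ^ j i) := by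
    intro ξ T
    induction T using Finset.induction_on with
    | empty => exact ⟨1, X.R_one, by simp [X.u_one]⟩
    | insert i T hi ih =>
      obtain ⟨p, h1, h2⟩ := ih
      exact ⟨(h i * E.pr Z.e ^ j i) ^ ξ i * p, Base.R_mul (Base.R_pow (hj i) _) h1, by
        rw [Finset.sum_insert hi, X.u_mul, X.u_pow, h2]⟩
  have key2 : ∀ ξ : ι → Fin x, ∃ p ∈ X.lev ((∑ i, j i + 1) * x),
      ∀ i, X.u p (some i) = (ξ i : ℕ) := by
    intro ξ
    obtain ⟨p, h1, h2⟩ := key (fun i => ξ i) Finset.univ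
    have hle : ∑ i, (ξ i : ℕ) * j i ≤ (∑ i, j i + 1) * x := by
      rw [add_mul, Finset.sum_mul]
      refine le_add_right (Finset.sum_le_sum fun i _ => ?_)
      rw [mul_comm]
      exact Nat.mul_le_mul_left _ (ξ i).2.le
    refine ⟨p * E.pr Z.e ^ ((∑ i, j i + 1) * x - ∑ i, (ξ i : ℕ) * j i), X.mem_lev.2
      ⟨Base.R_mul h1 (Base.R_pow (X.R_of_mem (E.pr_mem Z.mem)) _), ?_⟩, fun i => ?_⟩
    · rw [X.u_mul, X.u_pow, h2]
      simp only [Pi.add_apply, Finset.sum_apply, Pi.smul_apply, X.u_mul, X.u_pow, hh, he]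
      simp only [nsmul_eq_mul, mul_one]
      push_cast [hle]
      simp
    · rw [X.u_mul, X.u_pow, h2]
      simp [Finset.sum_apply, X.u_mul, X.u_pow, hh, Z.spatial, Pi.single_apply]
  choose f hf1 hf2 using key2
  have := Finset.card_le_card_of_injOn (s := Finset.univ) f (fun ξ _ => hf1 ξ) fun ξ _ ξ' _ e => by
    funext i
    have a1 := hf2 ξ i
    rw [e, hf2] at a1
    exact Fin.ext (by exact_mod_cast a1.symm)
  simpa using this

theorem count_lim (Z : E.Pad) : ∃ α L : ℝ, 0 < α ∧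
    Tendsto (fun k : ℕ => ((X.lev k).card : ℝ) / (k : ℝ) ^ Fintype.card ι) atTop (𝓝 α) ∧
    Tendsto (fun k : ℕ => (((X.lev k).card : ℝ) - α * (k : ℝ) ^ Fintype.card ι) /
      (k : ℝ) ^ ((Fintype.card ι : ℤ) - 1)) atTop (𝓝 L) := by
  obtain ⟨α, L, h⟩ := E.count_limit Z.mem
  have h1 : Tendsto (fun k : ℕ => ((X.lev k).card : ℝ) / (k : ℝ) ^ Fintype.card ι) atTop (𝓝 α) := by
    refine (lim_of_two h).congr' ?_
    filter_upwards [eventually_ge_atTop 1] with k hk
    have : (k : ℝ) ≠ 0 := by exact_mod_cast (by omega : k ≠ 0)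
    field_simp
    ring
  refine ⟨α, L, ?_, h1, h.congr' ?_⟩
  · obtain ⟨J, hJ, hx⟩ := E.count_lower Z
    have hJ' : (0 : ℝ) < J := by exact_mod_cast hJ
    have h2 := h1.comp (tendsto_id.const_mul_atTop' hJ)
    refine lt_of_lt_of_le (b := 1 / (J : ℝ) ^ Fintype.card ι) (by positivity)
      (ge_of_tendsto h2 ?_)
    filter_upwards [eventually_ge_atTop 1] with x hx1
    have hx' : (0 : ℝ) < x := by exact_mod_cast hx1
    have : ((x : ℝ)) ^ Fintype.card ι ≤ (X.lev (J * x)).card := by exact_mod_cast hx x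
    simp only [Function.comp, id]
    push_cast
    rw [div_le_div_iff₀ (by positivity) (by positivity), mul_pow]
    have : (0 : ℝ) < (J : ℝ) ^ Fintype.card ι := by positivity
    nlinarith
  · filter_upwards [eventually_ge_atTop 1] with k hk
    have : (k : ℝ) ≠ 0 := by exact_mod_cast (by omega : k ≠ 0)
    rw [zpow_sub₀ this, zpow_natCast]
    field_simp
    ring

theorem case_one (Z : E.Pad) (hinj : Function.Injective E.pr) : ∃ c L : ℝ, 0 < c ∧
    Tendsto (fun k : ℕ => ((E.beta k : ℝ) - c * (k : ℝ) ^ Fintype.card ι) /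
      (k : ℝ) ^ ((Fintype.card ι : ℤ) - 1)) atTop (𝓝 L) := by
  obtain ⟨α, L, h0, -, h⟩ := E.count_lim Z
  refine ⟨α, L, h0, h.congr fun k => ?_⟩
  congr 3
  rw [beta_eq, Finset.card_eq_sum_ones]
  refine Finset.sum_congr rfl fun p hp => ?_
  obtain ⟨g, g1, g2⟩ := E.R_iff.1 (X.mem_lev.1 hp).1
  refine (Finset.card_eq_one.2 ⟨g, ?_⟩).symm
  ext g'
  rw [mem_fib, Finset.mem_singleton]
  exact ⟨fun h => hinj (h.2.trans g2.symm), fun h => h ▸ ⟨g1, g2⟩⟩

theorem tendsto_sqrt_div : Tendsto (fun k : ℕ => (Nat.sqrt k : ℝ) / k) atTop (𝓝 0) := by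
  have h1 : Tendsto (fun k : ℕ => (Real.sqrt k)⁻¹) atTop (𝓝 0) :=
    (Real.tendsto_sqrt_atTop.comp tendsto_natCast_atTop_atTop).inv_tendsto_atTop
  refine squeeze_zero' (Eventually.of_forall fun k => by positivity) ?_ h1
  filter_upwards [eventually_ge_atTop 1] with k hk
  have hk' : (0 : ℝ) < k := by exact_mod_cast hk
  rw [div_le_iff₀ hk', inv_mul_eq_div, Real.div_sqrt]
  exact Real.nat_sqrt_le_real_sqrt

theorem case_two (Z : E.Pad) {D : ℕ} (hD : 0 < D)
    (hcong : ∀ g g', E.pr g = E.pr g' → ∃ j : ℤ, E.ht g' = E.ht g + D * j)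
    (hinj : ∀ g g', E.pr g = E.pr g' → E.ht g = E.ht g' → g = g')
    (hm : ∀ s ∈ E.S, ∀ t ∈ E.S, E.ω (E.v s) (E.v t) ≠ 0 → ∃ m : ℕ,
      E.pr s ^ m * E.pr t = E.pr t * E.pr s ^ m ∧ |2 * (m * E.ω (E.v s) (E.v t))| = D)
    (hpair : ∃ s ∈ E.S, ∃ t ∈ E.S, E.ω (E.v s) (E.v t) ≠ 0) : ∃ c L : ℝ, 0 < c ∧
    Tendsto (fun k : ℕ => ((E.beta k : ℝ) - c * (k : ℝ) ^ (Fintype.card ι + 2)) /
      (k : ℝ) ^ (Fintype.card ι + 1)) atTop (𝓝 L) := by
  classical
  obtain ⟨C, hC0, hC⟩ := E.card_fib hD hcong hinj hm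
  obtain ⟨c1, C1, hc1, hC1, h1⟩ := E.low_top Z hpair
  obtain ⟨c2, C2, hc2, hC2, h2⟩ := E.neg.low_top Z.neg (by
    obtain ⟨s, hs, t, ht, h⟩ := hpair
    exact ⟨s, hs, t, ht, neg_ne_zero.2 h⟩)
  change ∀ (x : ℕ) (p : P), X.R p → _ ≤ E.neg.top (p * E.pr Z.e ^ (4 * X.N * x)) at h2
  obtain ⟨α0, -, hα0, h0, -⟩ := E.count_lim Z
  obtain ⟨α1, L1, t1⟩ := E.top_limit Z.mem
  obtain ⟨α2, L2, t2⟩ := E.neg.top_limit Z.mem
  have hD' : (0 : ℝ) < D := by exact_mod_cast hD
  have he : X.u (E.pr Z.e) none = 1 := X.L_one _ (E.pr_mem Z.mem)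
  have himg : ∀ k m : ℕ, (X.lev k).image (fun p => p * E.pr Z.e ^ m) ⊆ X.lev (k + m) := by
    intro k m q hq
    obtain ⟨p, hp, rfl⟩ := Finset.mem_image.1 hq
    rw [X.mem_lev] at hp ⊢
    refine ⟨Base.R_mul hp.1 (Base.R_pow (X.R_of_mem (E.pr_mem Z.mem)) _), ?_⟩
    rw [X.u_mul, X.u_pow, Pi.add_apply, Pi.smul_apply, hp.2, he]; simp
  have hcard : ∀ k m : ℕ, ((X.lev k).image (fun p => p * E.pr Z.e ^ m)).card = (X.lev k).card :=
    fun k m => Finset.card_image_of_injective _ (mul_left_injective _)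
  obtain ⟨R, hR⟩ := exists_nat_ge (1 + 4 * (2 * C1 + C) / c1 + 4 * (2 * C2 + C) / c2)
  have q1 : 0 ≤ 4 * (2 * C1 + C) / c1 := by positivity
  have q2 : 0 ≤ 4 * (2 * C2 + C) / c2 := by positivity
  have hR0 : (1 : ℝ) ≤ R := by linarith
  have hR1 : 4 * (2 * C1 + C) ≤ R * c1 := by rw [← div_le_iff₀ hc1]; linarith
  have hR2 : 4 * (2 * C2 + C) ≤ R * c2 := by rw [← div_le_iff₀ hc2]; linarith
  have good : ∀ (c1 C1 : ℝ), 0 < c1 → 0 ≤ C1 → 4 * (2 * C1 + C) ≤ R * c1 → ∀ k k' : ℕ, 1 ≤ k →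
      k' ≤ k → C * k ≤ c1 * ((R * Nat.sqrt k : ℕ) : ℝ) ^ 2 - C1 * (R * Nat.sqrt k : ℕ) - C1 * k' := by
    intro c1 C1 a1 a2 a3 k k' hk hk'
    have b1 : k ≤ 4 * (Nat.sqrt k * Nat.sqrt k) := by
      have := Nat.lt_succ_sqrt k
      have : 1 ≤ Nat.sqrt k := Nat.sqrt_pos.2 hk
      nlinarith
    have b2 : (k : ℝ) ≤ 4 * (Nat.sqrt k * Nat.sqrt k) := by exact_mod_cast b1
    have b3 : (Nat.sqrt k : ℝ) ≤ k := by exact_mod_cast Nat.sqrt_le_self k
    have b4 : (k' : ℝ) ≤ k := by exact_mod_cast hk'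
    have b5 : (0 : ℝ) ≤ k := Nat.cast_nonneg _
    have b6 : 4 * (2 * C1 + C) * R * k ≤ R * c1 * R * (4 * (Nat.sqrt k * Nat.sqrt k)) := by gcongr
    have b7 : C1 * (R * Nat.sqrt k) ≤ C1 * (R * k) := by gcongr
    have b8 : C1 * k' ≤ C1 * (R * k) := by gcongr; nlinarith
    have b9 : C * k ≤ C * (R * k) := by gcongr; nlinarith
    push_cast
    nlinarith
  let m : ℕ → ℕ := fun k => 4 * X.N * (R * Nat.sqrt k)
  have hm0 : Tendsto (fun k : ℕ => (m k : ℝ) / k) atTop (𝓝 0) := by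
    have := tendsto_sqrt_div.const_mul (4 * X.N * R : ℝ)
    rw [mul_zero] at this
    refine this.congr fun k => ?_
    simp only [m]; push_cast; ring
  have hm1 : ∀ᶠ k : ℕ in atTop, 2 * m k ≤ k := by
    filter_upwards [hm0.eventually_lt_const (by norm_num : (0 : ℝ) < 1 / 2), eventually_ge_atTop 1]
      with k hk hk1
    have hk' : (0 : ℝ) < k := by exact_mod_cast hk1
    rw [div_lt_iff₀ hk'] at hk
    have : (2 * m k : ℝ) ≤ k := by linarith
    exact_mod_cast this
  have hm2 : Tendsto (fun k => k - m k) atTop atTop := by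
    refine tendsto_atTop.2 fun b => ?_
    filter_upwards [hm1, eventually_ge_atTop (2 * b)] with k a1 a2
    omega
  have hm3 : Tendsto (fun k : ℕ => ((X.lev (k - m k)).card : ℝ) / (k : ℝ) ^ Fintype.card ι) atTop
      (𝓝 α0) := by
    have a1 := (h0.comp hm2).mul ((hm0.const_sub 1).pow (Fintype.card ι))
    rw [sub_zero, one_pow, mul_one] at a1
    refine a1.congr' ?_
    filter_upwards [hm1, eventually_ge_atTop 1] with k b1 b2
    have hk' : (k : ℝ) ≠ 0 := by exact_mod_cast (by omega : k ≠ 0)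
    have b3 : ((k - m k : ℕ) : ℝ) ≠ 0 := by exact_mod_cast (by omega : k - m k ≠ 0)
    have b4 : 1 - (m k : ℝ) / k = ((k - m k : ℕ) : ℝ) / k := by
      rw [Nat.cast_sub (by omega)]; field_simp
    simp only [Function.comp]
    rw [b4, div_pow]
    field_simp
  have herr : Tendsto (fun k : ℕ => ((E.beta k : ℝ) -
      (∑ p ∈ X.lev k, E.top p + ∑ p ∈ X.lev k, E.neg.top p) / D) / (k : ℝ) ^ (Fintype.card ι + 1))
      atTop (𝓝 0) := by
    have a1 := ((h0.mul tendsto_inv_atTop_nhds_zero_nat).add (h0.sub hm3)).const_mul C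
    rw [mul_zero, sub_self, add_zero, mul_zero] at a1
    refine squeeze_zero_norm' ?_ a1
    filter_upwards [hm1, eventually_ge_atTop 1] with k b1 b2
    have hk' : (0 : ℝ) < k := by exact_mod_cast b2
    have hsub := himg (k - m k) (m k)
    rw [Nat.sub_add_cancel (by omega)] at hsub
    have b3 : |(E.beta k : ℝ) - (∑ p ∈ X.lev k, E.top p + ∑ p ∈ X.lev k, E.neg.top p) / D| ≤
        C * (X.lev k).card + C * k * ((X.lev k).card - (X.lev (k - m k)).card) := by
      rw [beta_eq, ← Finset.sum_add_distrib, Finset.sum_div, Nat.cast_sum, ← Finset.sum_sub_distrib]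
      refine (Finset.abs_sum_le_sum_abs _ _).trans ?_
      rw [← Finset.sum_sdiff hsub, add_comm]
      refine add_le_add ?_ ?_
      · refine (Finset.sum_le_card_nsmul _ _ C fun q hq => ?_).trans ?_
        · have hq' := X.mem_lev.1 (hsub hq)
          obtain ⟨p, hp, rfl⟩ := Finset.mem_image.1 hq
          rw [X.mem_lev] at hp
          have c1' := h1 (R * Nat.sqrt k) p hp.1
          have c2' := h2 (R * Nat.sqrt k) p hp.1
          rw [hp.2, Int.cast_natCast] at c1' c2'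
          refine (hC _ hq'.1 (by rw [hq'.2]; exact_mod_cast b2)).2 ?_ ?_
          · rw [hq'.2, Int.cast_natCast]
            exact (good c1 C1 hc1 hC1 hR1 k _ b2 (Nat.sub_le _ _)).trans c1'
          · rw [hq'.2, Int.cast_natCast]
            exact (good c2 C2 hc2 hC2 hR2 k _ b2 (Nat.sub_le _ _)).trans c2'
        · rw [nsmul_eq_mul, mul_comm]
          gcongr
      · refine (Finset.sum_le_card_nsmul _ _ (C * k) fun q hq => ?_).trans ?_
        · have hq' := X.mem_lev.1 (Finset.mem_sdiff.1 hq).1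
          have := (hC _ hq'.1 (by rw [hq'.2]; exact_mod_cast b2)).1
          rwa [hq'.2, Int.cast_natCast] at this
        · rw [nsmul_eq_mul, mul_comm, Finset.cast_card_sdiff hsub, hcard]
    rw [Real.norm_eq_abs, abs_div, abs_of_pos (by positivity : (0 : ℝ) < (k : ℝ) ^ _),
      div_le_iff₀ (by positivity)]
    refine b3.trans (le_of_eq ?_)
    field_simp
    ring
  have hmain : Tendsto (fun k : ℕ => ((E.beta k : ℝ) - (α1 + α2) / D *
      (k : ℝ) ^ (Fintype.card ι + 2)) / (k : ℝ) ^ (Fintype.card ι + 1)) atTop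
      (𝓝 (0 + (L1 + L2) / D)) := by
    refine (herr.add ((t1.add t2).div_const D)).congr fun k => ?_
    ring
  refine ⟨_, _, ?_, hmain⟩
  have hN : (0 : ℝ) < X.N := by exact_mod_cast X.N_pos
  have hN4 : 0 < 4 * X.N := by have := X.N_pos; omega
  have a1 := (lim_of_two hmain).comp (tendsto_id.const_mul_atTop' (by omega : 0 < 2 * (4 * X.N)))
  have a2 := h0.comp (tendsto_id.const_mul_atTop' hN4)
  have a3 := ((tendsto_inv_atTop_nhds_zero_nat (𝕜 := ℝ)).const_mul
    ((C1 + C2) * (1 + 4 * X.N) / D + C * (8 * X.N))).const_sub ((c1 + c2) / D)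
  have a4 := (a2.mul a3).div_const ((2 : ℝ) ^ Fintype.card ι * (8 * X.N) ^ 2)
  rw [mul_zero, sub_zero] at a4
  refine lt_of_lt_of_le (by positivity) (le_of_tendsto_of_tendsto a4 a1 ?_)
  filter_upwards [eventually_ge_atTop 1] with x hx
  have hx' : (0 : ℝ) < x := by exact_mod_cast hx
  have hsub := himg (4 * X.N * x) (4 * X.N * x)
  rw [← two_mul, ← mul_assoc] at hsub
  have b1 : ((X.lev (4 * X.N * x)).card : ℝ) * ((c1 + c2) / D * x ^ 2 -
      ((C1 + C2) * (1 + 4 * X.N) / D + C * (8 * X.N)) * x) ≤ E.beta (2 * (4 * X.N) * x) := by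
    rw [beta_eq, Nat.cast_sum, ← hcard _ (4 * X.N * x), ← nsmul_eq_mul]
    refine le_trans (Finset.card_nsmul_le_sum _ _ _ fun q hq => ?_)
      (Finset.sum_le_sum_of_subset_of_nonneg hsub fun _ _ _ => Nat.cast_nonneg _)
    have hq' := X.mem_lev.1 (hsub hq)
    obtain ⟨p, hp, rfl⟩ := Finset.mem_image.1 hq
    rw [X.mem_lev] at hp
    have c1' := h1 x p hp.1
    have c2' := h2 x p hp.1
    have c3 := (abs_le.1 (hC _ hq'.1 (by
      rw [hq'.2]; exact_mod_cast Nat.mul_pos (by omega) hx)).1).1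
    rw [hp.2] at c1' c2'
    rw [hq'.2] at c3
    push_cast at c1' c2' c3
    have c4 := div_le_div_of_nonneg_right (add_le_add c1' c2') hD'.le
    have c5 : (c1 * x ^ 2 - C1 * x - C1 * (4 * X.N * x) + (c2 * x ^ 2 - C2 * x - C2 * (4 * X.N * x)))
        / D = (c1 + c2) / D * x ^ 2 - (C1 + C2) * (1 + 4 * X.N) / D * x := by ring
    linarith
  simp only [Function.comp, id]
  rw [div_le_div_iff₀ (by positivity) (by positivity)]
  refine le_trans (le_of_eq ?_) (mul_le_mul_of_nonneg_right b1 (by positivity))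
  push_cast
  rw [mul_assoc (2 : ℝ), mul_pow (2 : ℝ)]
  field_simp
  ring

end Ext

end Pool.Agent.MP_b3b911_al

end

section

/-! Passing from a concrete group to the abstract structures. -/

open Filter Topology

namespace Pool.Agent.MP_b3b911_al

theorem exists_pow_central {Q A : Type*} [Group Q] [AddCommGroup A] (u : Q → A)
    (u_mul : ∀ p q, u (p * q) = u p + u q) (hfin : {p | u p = 0}.Finite) :
    ∃ N : ℕ, 0 < N ∧ (∀ g p : Q, g ^ N * p = p * g ^ N) ∧
      (∀ g h : Q, (g * h) ^ N = g ^ N * h ^ N) ∧ ∀ g h : Q, u g = u h → g ^ N = h ^ N := by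
  classical
  let f : Q →* Multiplicative A := MonoidHom.mk' (fun p => Multiplicative.ofAdd (u p))
    fun p q => by rw [u_mul, ofAdd_add]
  have hf : ∀ p, p ∈ f.ker ↔ u p = 0 := fun p => Iff.rfl
  have hf' : ∀ p q, u p = u q ↔ f p = f q := fun p q => Iff.rfl
  haveI : Finite f.ker := hfin.to_subtype
  haveI := Fintype.ofFinite f.ker
  set c := Nat.card f.ker with hc
  have hc0 : 0 < c := Nat.card_pos
  have h1 : ∀ g p : Q, Commute (g ^ c.factorial) p := by
    intro g p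
    obtain ⟨i, hi, j, hj, hij, e⟩ := Finset.exists_ne_map_eq_of_card_lt_of_maps_to
      (s := Finset.range (c + 1)) (t := (Finset.univ : Finset f.ker))
      (by rw [Finset.card_univ, Finset.card_range, ← Nat.card_eq_fintype_card]; omega)
      (f := fun n => (⟨p⁻¹ * (g ^ n * p * (g ^ n)⁻¹), by
        simp [MonoidHom.mem_ker, mul_right_comm]⟩ : f.ker)) (fun _ _ => Finset.mem_univ _)
    have key : ∀ i j : ℕ, i < j → j < c + 1 → g ^ i * p * (g ^ i)⁻¹ = g ^ j * p * (g ^ j)⁻¹ →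
        Commute (g ^ c.factorial) p := by
      intro i j h1 h2 e
      obtain ⟨d, rfl⟩ := Nat.exists_eq_add_of_lt h1
      have a1 : Commute (g ^ (d + 1)) p := by
        rw [add_assoc, pow_add] at e
        have : p = g ^ (d + 1) * p * (g ^ (d + 1))⁻¹ := by
          calc p = (g ^ i)⁻¹ * (g ^ i * p * (g ^ i)⁻¹) * g ^ i := by group
            _ = _ := by rw [e]; group
        exact mul_inv_eq_iff_eq_mul.1 this.symm
      obtain ⟨e, he⟩ := Nat.dvd_factorial (Nat.succ_pos d) (by omega : d + 1 ≤ c)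
      rw [he, pow_mul]
      exact a1.pow_left _
    simp only [Subtype.mk.injEq, mul_right_inj] at e
    rw [Finset.mem_range] at hi hj
    rcases lt_or_gt_of_ne hij with h | h
    · exact key i j h hj e
    · exact key j i h hi e.symm
  have h2 : ∀ κ : Q, f κ = 1 → κ ^ c = 1 := fun κ h =>
    congrArg Subtype.val (pow_card_eq_one' (x := (⟨κ, h⟩ : f.ker)))
  have h3 : ∀ a b : Q, (∀ p, Commute a p) → f a = f b → b ^ c = a ^ c := by
    intro a b ha e
    have := (ha (a⁻¹ * b)).mul_pow c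
    rw [mul_inv_cancel_left, h2 (a⁻¹ * b) (by simp [e]), mul_one] at this
    exact this
  refine ⟨c.factorial * c, Nat.mul_pos c.factorial_pos hc0, fun g p => ?_, fun g h => ?_,
    fun g h e => ?_⟩
  · rw [pow_mul]; exact ((h1 g p).pow_left c).eq
  · rw [pow_mul, pow_mul, pow_mul, ← (h1 g _).mul_pow]
    exact h3 _ _ (fun p => (h1 g p).mul_left (h1 h p)) (by simp [mul_pow])
  · rw [pow_mul, pow_mul]
    exact h3 _ _ (h1 h) (by simp [(hf' g h).1 e])

theorem exists_base {ι : Type} {H : Type*} [Group H] (π : H → ι → ℤ)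
    (π_mul : ∀ p q, π (p * q) = π p + π q) (hsurj : Function.Surjective π)
    (hfin : {p | π p = 0}.Finite) (T : Finset H) (hT : Subgroup.closure (T : Set H) = ⊤)
    (h1 : (1 : H) ∈ T) : ∃ X : Base ι (H × Multiplicative ℤ),
      (∀ p, X.u p none = p.2.toAdd) ∧ (∀ p i, X.u p (some i) = π p.1 i) ∧
      ∀ p, p ∈ X.L ↔ p.1 ∈ T ∧ p.2 = Multiplicative.ofAdd 1 := by
  classical
  let u : H × Multiplicative ℤ → Option ι → ℤ := fun p o => o.elim p.2.toAdd (π p.1)
  have u_mul : ∀ p q, u (p * q) = u p + u q := fun p q => by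
    funext o; cases o <;> simp [u, π_mul]
  have u_surj : Function.Surjective u := fun z => by
    obtain ⟨h, hh⟩ := hsurj fun i => z (some i)
    exact ⟨(h, Multiplicative.ofAdd (z none)), by funext o; cases o <;> simp [u, hh]⟩
  have ker_fin : {p | u p = 0}.Finite := by
    refine (hfin.prod (Set.finite_singleton (1 : Multiplicative ℤ))).subset fun p hp => ⟨?_, ?_⟩
    · funext i; exact congrFun hp (some i)
    · exact congrFun hp none
  obtain ⟨N, hN, a1, a2, a3⟩ := exists_pow_central u u_mul ker_fin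
  choose sec hsec using u_surj
  have hL : ∀ p : H × Multiplicative ℤ, p ∈ T ×ˢ {Multiplicative.ofAdd (1 : ℤ)} ↔
      p.1 ∈ T ∧ p.2 = Multiplicative.ofAdd 1 := fun p => by
    rw [Finset.mem_product, Finset.mem_singleton]
  refine ⟨⟨u, u_mul, fun z => ⟨_, hsec z⟩, ker_fin, N, hN, fun z => sec z ^ N, fun z z' => ?_,
    fun z p => a1 _ _, fun g => a3 _ _ (hsec _).symm, T ×ˢ {Multiplicative.ofAdd (1 : ℤ)},
    fun s hs => ?_, ?_⟩, fun _ => rfl, fun _ _ => rfl, hL⟩
  · rw [← a2]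
    exact a3 _ _ (by rw [u_mul, hsec, hsec, hsec])
  · simp [u, ((hL s).1 hs).2]
  · rw [eq_top_iff]
    rintro ⟨h, n⟩ -
    set C := Subgroup.closure ((T ×ˢ {Multiplicative.ofAdd (1 : ℤ)} :
      Finset (H × Multiplicative ℤ)) : Set (H × Multiplicative ℤ))
    have e1 : ((1 : H), Multiplicative.ofAdd (1 : ℤ)) ∈ C :=
      Subgroup.subset_closure ((hL _).2 ⟨h1, rfl⟩)
    have e2 : ∀ h : H, (h, (1 : Multiplicative ℤ)) ∈ C := by
      intro h
      have hh : h ∈ Subgroup.closure (T : Set H) := by rw [hT]; trivial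
      induction hh using Subgroup.closure_induction with
      | mem s hs =>
        have := C.mul_mem (Subgroup.subset_closure ((hL (s, _)).2 ⟨hs, rfl⟩)) (C.inv_mem e1)
        simpa using this
      | one => exact C.one_mem
      | mul a b _ _ ha hb => simpa using C.mul_mem ha hb
      | inv a _ ha => simpa using C.inv_mem ha
    have := C.mul_mem (e2 h) (C.zpow_mem e1 n.toAdd)
    simpa [← ofAdd_zsmul] using this

/-- Symmetrised generating set with the identity. -/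
noncomputable def symS {G : Type*} [Group G] (S : Finset G) : Finset G := by
  classical
  exact insert 1 (S ∪ S.image fun x => x⁻¹)

theorem mem_symS {G : Type*} [Group G] {S : Finset G} {x : G} :
    x ∈ symS S ↔ x = 1 ∨ x ∈ S ∨ x⁻¹ ∈ S := by
  unfold symS
  simp only [Finset.mem_insert, Finset.mem_union, Finset.mem_image]
  refine or_congr_right (or_congr_right ⟨?_, fun h => ⟨_, h, inv_inv _⟩⟩)
  rintro ⟨y, hy, rfl⟩
  simpa using hy

theorem transfer_main {ι : Type} [Fintype ι] {G H : Type*} [Group G] [Group H] (S : Finset G)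
    (hS : Subgroup.closure (S : Set G) = ⊤) (φ : G →* H) (hφ : Function.Surjective φ)
    (π : H → ι → ℤ) (π_mul : ∀ p q, π (p * q) = π p + π q) (hsurj : Function.Surjective π)
    (hfin : {p | π p = 0}.Finite) (ht : G → ℚ) (ω : LinearMap.BilinForm ℚ (ι → ℚ))
    (ω_self : ∀ x, ω x x = 0)
    (ht_mul : ∀ g h, ht (g * h) = ht g + ht h + ω (toQ (π (φ g))) (toQ (π (φ h)))) :
    (Function.Injective φ → ∃ c L : ℝ, 0 < c ∧
      Tendsto (fun k : ℕ => ((growth S k : ℝ) - c * (k : ℝ) ^ Fintype.card ι) /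
        (k : ℝ) ^ ((Fintype.card ι : ℤ) - 1)) atTop (𝓝 L)) ∧
    ∀ D : ℕ, 0 < D → (∀ g g', φ g = φ g' → ∃ j : ℤ, ht g' = ht g + D * j) →
      (∀ g g', φ g = φ g' → ht g = ht g' → g = g') →
      (∀ s ∈ symS S, ∀ t ∈ symS S, ω (toQ (π (φ s))) (toQ (π (φ t))) ≠ 0 → ∃ m : ℕ,
        φ s ^ m * φ t = φ t * φ s ^ m ∧ |2 * (m * ω (toQ (π (φ s))) (toQ (π (φ t))))| = D) →
      (∃ s ∈ S, ∃ t ∈ S, ω (toQ (π (φ s))) (toQ (π (φ t))) ≠ 0) → ∃ c L : ℝ, 0 < c ∧
      Tendsto (fun k : ℕ => ((growth S k : ℝ) - c * (k : ℝ) ^ (Fintype.card ι + 2)) /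
        (k : ℝ) ^ (Fintype.card ι + 1)) atTop (𝓝 L) := by
  classical
  obtain ⟨X, x1, x2, x3⟩ := exists_base π π_mul hsurj hfin ((symS S).image φ) (by
    rw [Finset.coe_image, ← MonoidHom.map_closure, eq_top_iff, ← Subgroup.map_top_of_surjective φ hφ,
      ← hS]
    exact Subgroup.map_mono (Subgroup.closure_mono fun x hx => mem_symS.2 (Or.inr (Or.inl hx))))
    (Finset.mem_image.2 ⟨1, mem_symS.2 (Or.inl rfl), map_one φ⟩)
  have hL : ∀ p : G × Multiplicative ℤ, p ∈ symS S ×ˢ {Multiplicative.ofAdd (1 : ℤ)} ↔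
      p.1 ∈ symS S ∧ p.2 = Multiplicative.ofAdd 1 := fun p => by
    rw [Finset.mem_product, Finset.mem_singleton]
  let sp : (Option ι → ℚ) →ₗ[ℚ] (ι → ℚ) := LinearMap.funLeft ℚ ℚ some
  have hsp : ∀ p, sp (toQ (X.u p)) = toQ (π p.1) := fun p => by
    funext i; simp [sp, LinearMap.funLeft_apply, toQ, x2]
  let E : Ext X (G × Multiplicative ℤ) :=
    { pr := φ.prodMap (MonoidHom.id _)
      S := symS S ×ˢ {Multiplicative.ofAdd (1 : ℤ)}
      L_eq := fun p => by
        rw [x3, Finset.mem_image]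
        constructor
        · rintro ⟨⟨s, hs, e⟩, h2⟩
          exact ⟨(s, p.2), (hL _).2 ⟨hs, h2⟩, Prod.ext e rfl⟩
        · rintro ⟨s, hs, rfl⟩
          exact ⟨⟨s.1, ((hL _).1 hs).1, rfl⟩, ((hL _).1 hs).2⟩
      ht := fun g => ht g.1
      ω := ω.comp sp sp
      ω_self := fun x => ω_self _
      ht_mul := fun g h => by
        rw [LinearMap.BilinForm.comp_apply, hsp, hsp]
        exact ht_mul _ _ }
  have hω : ∀ g h, E.ω (E.v g) (E.v h) = ω (toQ (π (φ g.1))) (toQ (π (φ h.1))) := fun g h => by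
    change ω (sp (toQ _)) (sp (toQ _)) = _
    rw [hsp, hsp]; rfl
  have π1 : π 1 = 0 := by simpa using π_mul 1 1
  let Z : E.Pad :=
    { e := (1, Multiplicative.ofAdd 1)
      mem := (hL _).2 ⟨mem_symS.2 (Or.inl rfl), rfl⟩
      comm := fun g => Prod.ext (by simp) (mul_comm _ _)
      spatial := fun i => by
        rw [x2]
        change π (φ 1) i = 0
        rw [map_one, π1]; rfl
      inv := fun s hs => ⟨(s.1⁻¹, s.2), (hL _).2 ⟨by
        have := mem_symS.1 ((hL _).1 hs).1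
        rw [mem_symS]
        simp only [inv_eq_one, inv_inv]
        tauto, ((hL _).1 hs).2⟩, Prod.ext (by simp) (by simp [((hL _).1 hs).2, sq])⟩
      surj := fun p => by
        obtain ⟨g, hg⟩ := hφ p.1
        exact ⟨(g, p.2), Prod.ext hg rfl⟩ }
  have hlv : ∀ g, E.lv g = g.2.toAdd := fun g => x1 _
  have hbeta : ∀ k, E.beta k = growth S k := by
    intro k
    have a1 : ∀ g, E.cl g → ∃ l : List G, (l.length : ℤ) ≤ g.2.toAdd ∧
        (∀ x ∈ l, x ∈ S ∨ x⁻¹ ∈ S) ∧ l.prod = g.1 := by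
      intro g hg
      induction hg using Submonoid.closure_induction with
      | mem s hs =>
        obtain ⟨b1, b2⟩ := (hL s).1 hs
        rcases mem_symS.1 b1 with b1 | b1
        · exact ⟨[], by simp [b2], by simp, by simp [b1]⟩
        · exact ⟨[s.1], by simp [b2], by simpa using b1, by simp⟩
      | one => exact ⟨[], by simp, by simp, by simp⟩
      | mul a b _ _ ha hb =>
        obtain ⟨l1, b1, b2, b3⟩ := ha
        obtain ⟨l2, c1, c2, c3⟩ := hb
        refine ⟨l1 ++ l2, by simp; linarith, fun x hx => ?_, by simp [b3, c3]⟩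
        exact (List.mem_append.1 hx).elim (b2 x) (c2 x)
    have a2 : ∀ l : List G, (∀ x ∈ l, x ∈ S ∨ x⁻¹ ∈ S) →
        E.cl (l.prod, Multiplicative.ofAdd (l.length : ℤ)) := by
      intro l hl
      induction l with
      | nil => exact E.cl_one
      | cons x l ih =>
        have b1 : E.cl (x, Multiplicative.ofAdd 1) :=
          E.cl_letter ((hL _).2 ⟨mem_symS.2 (Or.inr (hl x (by simp))), rfl⟩)
        have := b1.mul (ih fun y hy => hl y (by simp [hy]))
        simpa [ofAdd_add, mul_comm] using this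
    rw [Ext.beta, growth, ← Set.InjOn.ncard_image (f := Prod.fst)]
    · congr 1
      ext g
      constructor
      · rintro ⟨g', ⟨h1, h2⟩, rfl⟩
        obtain ⟨l, b1, b2⟩ := a1 g' h1
        rw [← hlv, h2] at b1
        exact ⟨l, by exact_mod_cast b1, b2⟩
      · rintro ⟨l, b1, b2, rfl⟩
        have := (a2 l b2).mul ((E.cl_letter Z.mem).pow (k - l.length))
        refine ⟨_, ⟨this, ?_⟩, by simp [Z]⟩
        rw [hlv]
        simp [Z, b1]
    · intro g hg g' hg' e
      refine Prod.ext e (Multiplicative.toAdd.injective ?_)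
      rw [← hlv, ← hlv, hg.2, hg'.2]
  refine ⟨fun hinj => ?_, fun D hD hcong hinj hm hpair => ?_⟩
  · have := E.case_one Z fun g g' e =>
      Prod.ext (hinj (congrArg Prod.fst e)) (congrArg (Prod.snd : H × Multiplicative ℤ → _) e)
    simpa only [hbeta] using this
  · have := E.case_two Z hD (fun g g' e => hcong _ _ (congrArg Prod.fst e))
      (fun g g' e h => Prod.ext (hinj _ _ (congrArg Prod.fst e) h) (congrArg (Prod.snd : H × Multiplicative ℤ → _) e))
      (fun s hs t ht' h => by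
        rw [hω] at h ⊢
        obtain ⟨m, b1, b2⟩ := hm _ ((hL _).1 hs).1 _ ((hL _).1 ht').1 h
        exact ⟨m, Prod.ext b1 (mul_comm _ _), b2⟩)
      (by
        obtain ⟨s, hs, t, ht', h⟩ := hpair
        exact ⟨(s, _), (hL _).2 ⟨mem_symS.2 (Or.inr (Or.inl hs)), rfl⟩,
          (t, _), (hL _).2 ⟨mem_symS.2 (Or.inr (Or.inl ht')), rfl⟩, by rwa [hω]⟩)
    simpa only [hbeta] using this

end Pool.Agent.MP_b3b911_al

end

section

/-! The height cocycle of a group whose commutator subgroup is virtually a central cyclic group. -/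

open Filter Topology

namespace Pool.Agent.MP_b3b911_al

variable {G : Type*} [Group G]

theorem exists_pi [Group.FG G] : ∃ (ι : Type) (_ : Fintype ι) (π : G → ι → ℤ) (K : Subgroup G),
    (∀ p q, π (p * q) = π p + π q) ∧ Function.Surjective π ∧ (∀ g, g ∈ K ↔ π g = 0) ∧
      (commutator G).relIndex K ≠ 0 := by
  haveI : Group.FG (Abelianization G) :=
    Group.fg_of_surjective (f := Abelianization.of) QuotientGroup.mk_surjective
  obtain ⟨κ, ι, _, _, p, hp, e, ⟨f⟩⟩ :=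
    CommGroup.equiv_free_prod_prod_multiplicative_zmod (Abelianization G)
  let F : G →* (ι → Multiplicative ℤ) := (MonoidHom.fst _ _).comp
    (f.toMonoidHom.comp Abelianization.of)
  refine ⟨ι, inferInstance, fun g i => (F g i).toAdd, F.ker, fun p q => ?_, fun x => ?_,
    fun g => ?_, ?_⟩
  · funext i; simp
  · obtain ⟨g, hg⟩ := QuotientGroup.mk_surjective
      (f.symm (fun i => Multiplicative.ofAdd (x i), 1))
    refine ⟨g, funext fun i => ?_⟩
    have : Abelianization.of g = f.symm (fun i => Multiplicative.ofAdd (x i), 1) := hg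
    simp [F, this]
  · rw [MonoidHom.mem_ker, funext_iff, funext_iff]
    rfl
  · rw [← Abelianization.ker_of, Subgroup.relIndex_ker]
    haveI : ∀ i, NeZero (p i ^ e i) := fun i => ⟨pow_ne_zero _ (hp i).ne_zero⟩
    haveI : Finite (F.ker.map Abelianization.of) := by
      refine Finite.of_injective (fun a => (f a.1).2) ?_
      rintro ⟨_, g, hg, rfl⟩ ⟨_, g', hg', rfl⟩ h
      refine Subtype.ext (f.injective (Prod.ext ?_ h))
      exact (MonoidHom.mem_ker.1 hg).trans (MonoidHom.mem_ker.1 hg').symm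
    exact Nat.card_pos.ne'

theorem zpowers_normal {z : G} (hz : ∀ g, g * z = z * g) : (Subgroup.zpowers z).Normal := by
  refine ⟨?_⟩
  rintro _ ⟨j, rfl⟩ g
  refine ⟨j, ?_⟩
  have : Commute g z := hz g
  simp only
  rw [(this.zpow_right j).eq, mul_inv_cancel_right]

theorem relIndex_zpow {z : G} (hz : ∀ g, g * z = z * g) {j : ℤ} (hj : j ≠ 0) :
    (Subgroup.zpowers (z ^ j)).relIndex (Subgroup.zpowers z) ≠ 0 := by
  haveI := zpowers_normal (z := z ^ j) fun g => ((show Commute g z from hz g).zpow_right j).eq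
  rw [← QuotientGroup.ker_mk' (Subgroup.zpowers (z ^ j)), Subgroup.relIndex_ker,
    MonoidHom.map_zpowers]
  have : IsOfFinOrder (QuotientGroup.mk' (Subgroup.zpowers (z ^ j)) z) := by
    rw [isOfFinOrder_iff_zpow_eq_one]
    refine ⟨j, hj, ?_⟩
    rw [← map_zpow, QuotientGroup.mk'_apply, QuotientGroup.eq_one_iff]
    exact Subgroup.mem_zpowers _
  haveI := this.finite_zpowers.to_subtype
  exact Nat.card_pos.ne'

theorem exists_psi (K : Subgroup G) [K.Normal] {z : G} (hz : ∀ g, g * z = z * g) (hzK : z ∈ K)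
    (hinf : ¬ IsOfFinOrder z) (hfin : (Subgroup.zpowers z).relIndex K ≠ 0) :
    ∃ ψ : G → ℚ, (∀ a ∈ K, ∀ b ∈ K, ψ (a * b) = ψ a + ψ b) ∧
      (∀ g, ∀ a ∈ K, ψ (g * a * g⁻¹) = ψ a) ∧ (∀ j : ℤ, ψ (z ^ j) = j) ∧
      ∃ n : ℕ, 0 < n ∧ ∀ a ∈ K, a ^ n ∈ Subgroup.zpowers z := by
  classical
  haveI := zpowers_normal hz
  have hc : ∀ g, Commute g z := hz
  haveI : ((Subgroup.zpowers z).subgroupOf K).FiniteIndex := ⟨hfin⟩
  haveI : (Subgroup.center K).FiniteIndex := Subgroup.finiteIndex_of_le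
    (H := (Subgroup.zpowers z).subgroupOf K) fun a ha => by
      obtain ⟨j, hj⟩ := Subgroup.mem_subgroupOf.1 ha
      rw [Subgroup.mem_center_iff]
      intro b
      apply Subtype.ext
      simp only [Subgroup.coe_mul, ← hj]
      exact ((hc b).zpow_right j).eq
  set c := (Subgroup.center K).index
  set d := (Subgroup.zpowers z).relIndex K
  have hn : 0 < c * d := Nat.mul_pos (Nat.pos_of_ne_zero Subgroup.FiniteIndex.index_ne_zero)
    (Nat.pos_of_ne_zero hfin)
  have h1 : ∀ a ∈ K, a ^ (c * d) ∈ Subgroup.zpowers z := fun a ha => by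
    rw [pow_mul]
    exact Subgroup.pow_relIndex_mem _ (K.pow_mem ha c)
  have h2 : ∀ a ∈ K, ∀ b ∈ K, (a * b) ^ (c * d) = a ^ (c * d) * b ^ (c * d) := by
    intro a ha b hb
    have e1 := congrArg (fun x : Subgroup.center K => ((x : K) : G))
      ((MonoidHom.transferCenterPow K).map_mul ⟨a, ha⟩ ⟨b, hb⟩)
    simp only [Subgroup.coe_mul, MonoidHom.transferCenterPow_apply, SubmonoidClass.coe_pow] at e1
    have e2 := congrArg Subtype.val (Subgroup.mem_center_iff.1
      ((Subgroup.center K).pow_index_mem ⟨a, ha⟩) (⟨b, hb⟩ ^ c))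
    simp only [Subgroup.coe_mul, SubmonoidClass.coe_pow] at e2
    rw [pow_mul, pow_mul, pow_mul, e1]
    exact (show Commute (a ^ c) (b ^ c) from e2.symm).mul_pow d
  choose! f hf using h1
  have hinj := injective_zpow_iff_not_isOfFinOrder.2 hinf
  have hn' : ((c * d : ℕ) : ℚ) ≠ 0 := by exact_mod_cast hn.ne'
  refine ⟨fun a => f a / (c * d : ℕ), fun a ha b hb => ?_, fun g a ha => ?_, fun j => ?_,
    c * d, hn, fun a ha => ⟨_, hf a ha⟩⟩
  · have : f (a * b) = f a + f b := hinj (by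
      have e1 := hf _ (K.mul_mem ha hb)
      have e2 := hf a ha
      have e3 := hf b hb
      simp only at e1 e2 e3 ⊢
      rw [e1, zpow_add, e2, e3, h2 a ha b hb])
    simp only [this]; push_cast; ring
  · have : f (g * a * g⁻¹) = f a := hinj (by
      have e1 := hf _ (Subgroup.Normal.conj_mem ‹_› a ha g)
      have e2 := hf a ha
      simp only at e1 e2 ⊢
      rw [e1, conj_pow, ← e2, ((hc g).zpow_right _).eq, mul_inv_cancel_right])
    simp only [this]
  · have : f (z ^ j) = j * (c * d : ℕ) := hinj (by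
      have e1 := hf _ (K.zpow_mem hzK j)
      simp only at e1 ⊢
      rw [e1, zpow_mul, zpow_natCast])
    simp only [this]
    rw [div_eq_iff hn']; push_cast; ring

theorem additive_zpow {f : G → ℚ} (hf : ∀ a b, f (a * b) = f a + f b) (a : G) (j : ℤ) :
    f (a ^ j) = j * f a := by
  let F : G →* Multiplicative ℚ := MonoidHom.mk' (fun p => Multiplicative.ofAdd (f p))
    fun p q => by rw [hf, ofAdd_add]
  have := congrArg Multiplicative.toAdd (map_zpow F a j)
  simpa [F] using this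

theorem exists_ht {ι : Type} [Fintype ι] (π : G → ι → ℤ) (π_mul : ∀ p q, π (p * q) = π p + π q)
    (hsurj : Function.Surjective π) (K : Subgroup G) [K.Normal] (hK : ∀ g, g ∈ K ↔ π g = 0)
    {z : G} (hz : ∀ g, g * z = z * g) (ψ : G → ℚ)
    (ψ_mul : ∀ a ∈ K, ∀ b ∈ K, ψ (a * b) = ψ a + ψ b) (ψ_conj : ∀ g, ∀ a ∈ K, ψ (g * a * g⁻¹) = ψ a)
    {n : ℕ} (hn : 0 < n) (hpow : ∀ a ∈ K, a ^ n ∈ Subgroup.zpowers z) :
    ∃ (ht : G → ℚ) (ω : LinearMap.BilinForm ℚ (ι → ℚ)), (∀ x, ω x x = 0) ∧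
      (∀ g h, ht (g * h) = ht g + ht h + ω (toQ (π g)) (toQ (π h))) ∧
      (∀ g h, ψ (g * h * g⁻¹ * h⁻¹) = 2 * ω (toQ (π g)) (toQ (π h))) ∧ ∀ a ∈ K, ht a = ψ a := by
  classical
  have π1 : π 1 = 0 := by simpa using π_mul 1 1
  have πinv : ∀ g, π g⁻¹ = -π g := fun g => by
    have := π_mul g⁻¹ g
    rw [inv_mul_cancel, π1] at this
    exact eq_neg_of_add_eq_zero_left this.symm
  have ψ1 : ψ 1 = 0 := by simpa using ψ_mul 1 K.one_mem 1 K.one_mem
  have hcK : ∀ g h, g * h * g⁻¹ * h⁻¹ ∈ K := fun g h => by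
    rw [hK]; simp only [π_mul, πinv]; abel
  let W : G → G → ℚ := fun g h => ψ (g * h * g⁻¹ * h⁻¹) / 2
  have W1 : ∀ g g' h, W (g * g') h = W g h + W g' h := fun g g' h => by
    have e : g * g' * h * (g * g')⁻¹ * h⁻¹ =
      g * (g' * h * g'⁻¹ * h⁻¹) * g⁻¹ * (g * h * g⁻¹ * h⁻¹) := by group
    simp only [W]
    rw [e, ψ_mul _ (Subgroup.Normal.conj_mem ‹_› _ (hcK _ _) g) _ (hcK _ _), ψ_conj _ _ (hcK _ _)]
    ring
  have Wswap : ∀ g h, W g h = -W h g := fun g h => by
    have := ψ_mul _ (hcK g h) _ (hcK h g)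
    rw [show g * h * g⁻¹ * h⁻¹ * (h * g * h⁻¹ * g⁻¹) = 1 by group, ψ1] at this
    simp only [W]; linarith
  have W2 : ∀ g h h', W g (h * h') = W g h + W g h' := fun g h h' => by
    rw [Wswap, W1, Wswap h, Wswap h']; ring
  have Wself : ∀ g, W g g = 0 := fun g => by linarith [Wswap g g]
  have WK : ∀ a ∈ K, ∀ h, W a h = 0 := fun a ha h => by
    have e1 := additive_zpow (f := fun g => W g h) (fun a b => W1 a b h) a n
    obtain ⟨j, hj⟩ := hpow a ha
    simp only at hj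
    have hc : Commute h z := hz h
    simp only [zpow_natCast, ← hj, W] at e1
    rw [← (hc.zpow_right j).eq, mul_inv_cancel_right, mul_inv_cancel, ψ1] at e1
    have : (n : ℚ) ≠ 0 := by exact_mod_cast hn.ne'
    simp only [W]
    simpa [this] using e1
  have Wl : ∀ g g' h, π g = π g' → W g h = W g' h := fun g g' h e => by
    have := W1 (g * g'⁻¹) g' h
    rwa [inv_mul_cancel_right, WK (g * g'⁻¹) (by rw [hK, π_mul, πinv, e, add_neg_cancel]),
      zero_add] at this
  have Wr : ∀ g h h', π h = π h' → W g h = W g h' := fun g h h' e => by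
    rw [Wswap, Wl _ _ _ e, ← Wswap]
  choose b hb using fun i : ι => hsurj (Pi.single i 1)
  let sec : List ι → (ι → ℤ) → G := fun l x => (l.map fun i => b i ^ x i).prod
  have sec_cons : ∀ i l x, sec (i :: l) x = b i ^ x i * sec l x := fun i l x => by simp [sec]
  have hadd : ∀ f : G → ℚ, (∀ a b, f (a * b) = f a + f b) → ∀ l x,
      f (sec l x) = (l.map fun i => x i * f (b i)).sum := by
    intro f hf l x
    induction l with
    | nil => simpa [sec] using hf 1 1
    | cons i l ih => rw [sec_cons, hf, ih, additive_zpow hf]; simp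
  have hπ : ∀ x, π (sec Finset.univ.toList x) = x := fun x => by
    funext j
    have := hadd (fun g => π g j) (fun a b => by rw [π_mul]; simp) Finset.univ.toList x
    rw [Finset.sum_map_toList] at this
    simp only [hb, Pi.single_apply] at this
    have e : ∑ i, (x i : ℚ) * (((if j = i then 1 else 0 : ℤ)) : ℚ) = x j := by simp
    rw [e] at this
    exact_mod_cast this
  have hπadd : ∀ l x y, π (sec l (x + y)) = π (sec l x) + π (sec l y) := by
    intro l x y
    induction l with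
    | nil => simp [sec, π1]
    | cons i l ih =>
      simp only [sec_cons, π_mul, ih, Pi.add_apply, zpow_add]; abel
  have hq : ∀ l, ∃ q : (ι → ℤ) → ℚ, ∀ x y, ψ (sec l x * sec l y * (sec l (x + y))⁻¹) =
      W (sec l x) (sec l y) + q x + q y - q (x + y) := by
    intro l
    induction l with
    | nil => exact ⟨fun _ => 0, fun x y => by simp [sec, W, ψ1]⟩
    | cons i l ih =>
      obtain ⟨q, hq⟩ := ih
      refine ⟨fun x => W (b i ^ x i) (sec l x) + q x, fun x y => ?_⟩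
      have k1 : sec l x * sec l y * (sec l (x + y))⁻¹ ∈ K := by
        rw [hK, π_mul, π_mul, πinv, hπadd, add_neg_cancel]
      have k2 := Subgroup.Normal.conj_mem ‹K.Normal› _ k1 (b i ^ y i)
      have e : sec (i :: l) x * sec (i :: l) y * (sec (i :: l) (x + y))⁻¹ =
          b i ^ x i * ((sec l x * b i ^ y i * (sec l x)⁻¹ * (b i ^ y i)⁻¹) *
            (b i ^ y i * (sec l x * sec l y * (sec l (x + y))⁻¹) * (b i ^ y i)⁻¹)) *
              (b i ^ x i)⁻¹ := by
        simp only [sec_cons, Pi.add_apply, zpow_add]; group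
      have e1 : ψ (sec l x * b i ^ y i * (sec l x)⁻¹ * (b i ^ y i)⁻¹) =
          2 * W (sec l x) (b i ^ y i) := by simp only [W]; ring
      have e2 : W (b i ^ x i) (b i ^ y i) = 0 := by
        have := additive_zpow (f := fun g => W g (b i ^ y i)) (fun a b => W1 a b _) (b i) (x i)
        have h2 := additive_zpow (f := fun g => W (b i) g) (W2 _) (b i) (y i)
        simp only [this, h2, Wself, mul_zero]
      rw [e, ψ_conj _ _ (K.mul_mem (hcK _ _) k2), ψ_mul _ (hcK _ _) _ k2, ψ_conj _ _ k1, e1, hq]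
      beta_reduce
      rw [Wr _ (sec l (x + y)) (sec l x * sec l y) (by rw [hπadd, π_mul])]
      simp only [sec_cons, Pi.add_apply, zpow_add, W1, W2, e2]
      linarith [Wswap (sec l x) (b i ^ y i)]
  obtain ⟨q, hq⟩ := hq Finset.univ.toList
  let ω : LinearMap.BilinForm ℚ (ι → ℚ) := Matrix.toBilin' fun i j => W (b i) (b j)
  have hω : ∀ x y, ω x y = ∑ i, ∑ j, x i * W (b i) (b j) * y j := fun x y =>
    Matrix.toBilin'_apply _ x y
  have hωW : ∀ g h, ω (toQ (π g)) (toQ (π h)) = W g h := fun g h => by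
    rw [hω, Wl g _ h (hπ (π g)).symm, hadd (fun g => W g h) (fun a b => W1 a b h),
      Finset.sum_map_toList]
    refine Finset.sum_congr rfl fun i _ => ?_
    rw [Wr (b i) h _ (hπ (π h)).symm, hadd (fun g => W (b i) g) (W2 _), Finset.sum_map_toList,
      Finset.mul_sum]
    exact Finset.sum_congr rfl fun j _ => by simp only [toQ]; ring
  set s := sec Finset.univ.toList with hs
  have kk : ∀ g, g * (s (π g))⁻¹ ∈ K := fun g => by rw [hK, π_mul, πinv, hπ, add_neg_cancel]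
  have s0 : s 0 = 1 := by simp [hs, sec]
  refine ⟨fun g => ψ (g * (s (π g))⁻¹) + q (π g), ω, fun x => ?_, fun g h => ?_, fun g h => ?_,
    fun a ha => ?_⟩
  · have e1 := hω x x
    have e2 : ω x x = -∑ i, ∑ j, x i * W (b i) (b j) * x j := by
      rw [e1]
      conv_lhs => rw [Finset.sum_comm]
      rw [← Finset.sum_neg_distrib]
      refine Finset.sum_congr rfl fun i _ => ?_
      rw [← Finset.sum_neg_distrib]
      exact Finset.sum_congr rfl fun j _ => by rw [Wswap (b j)]; ring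
    linarith
  · have k1 : s (π g) * s (π h) * (s (π g + π h))⁻¹ ∈ K := by
      rw [hK, π_mul, π_mul, πinv, hπ, hπ, hπ, add_neg_cancel]
    have k2 := Subgroup.Normal.conj_mem ‹K.Normal› _ (kk h) (s (π g))
    have e : g * h * (s (π g + π h))⁻¹ = (g * (s (π g))⁻¹) *
        ((s (π g) * (h * (s (π h))⁻¹) * (s (π g))⁻¹) *
          (s (π g) * s (π h) * (s (π g + π h))⁻¹)) := by group
    simp only [π_mul]
    rw [e, ψ_mul _ (kk g) _ (K.mul_mem k2 k1), ψ_mul _ k2 _ k1, ψ_conj _ _ (kk h), hq, hωW,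
      Wl _ g _ (hπ _), Wr _ _ h (hπ _)]
    ring
  · rw [hωW]; simp only [W]; ring
  · have := hq 0 0
    simp only [add_zero, s0, mul_one, inv_one, ψ1, Wself] at this
    simp only [(hK a).1 ha, s0, inv_one, mul_one]
    linarith

theorem two_term (S : Finset G) (hS : Subgroup.closure (S : Set G) = ⊤) (z : G)
    (hz : z ∈ Subgroup.center G) (hfin : (Subgroup.zpowers z).relIndex (commutator G) ≠ 0) :
    ∃ (d : ℕ) (c L : ℝ), 0 < c ∧ Tendsto (fun k : ℕ => ((growth S k : ℝ) - c * (k : ℝ) ^ d) /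
      (k : ℝ) ^ ((d : ℤ) - 1)) atTop (𝓝 L) := by
  classical
  haveI : Group.FG G := ⟨⟨S, hS⟩⟩
  obtain ⟨ι, _, π, K, π_mul, hsurj, hK, hrel0⟩ := exists_pi (G := G)
  have π1 : π 1 = 0 := by simpa using π_mul 1 1
  have πinv : ∀ g, π g⁻¹ = -π g := fun g => by
    have := π_mul g⁻¹ g
    rw [inv_mul_cancel, π1] at this
    exact eq_neg_of_add_eq_zero_left this.symm
  haveI : K.Normal := ⟨fun a ha g => by
    rw [hK] at ha ⊢; rw [π_mul, π_mul, πinv, ha]; simp⟩
  have hz' : ∀ g, g * z = z * g := Subgroup.mem_center_iff.1 hz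
  have h1 := Subgroup.relIndex_ne_zero_trans hfin hrel0
  by_cases hKf : Finite K
  · obtain ⟨c, L, h⟩ := (transfer_main S hS (MonoidHom.id G) Function.surjective_id π π_mul hsurj
      (by
        have : {p | π p = 0} = (K : Set G) := by ext p; simp [hK]
        rw [this]; exact Set.toFinite _) (fun _ => 0) 0 (fun _ => rfl) (fun _ _ => by simp)).1
      Function.injective_id
    exact ⟨_, c, L, h⟩
  obtain ⟨w, hw, hwK, hwinf, h2⟩ : ∃ w : G, (∀ g, g * w = w * g) ∧ w ∈ K ∧ ¬ IsOfFinOrder w ∧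
      (Subgroup.zpowers w).relIndex K ≠ 0 := by
    have a1 : ¬ Finite ((Subgroup.zpowers z).subgroupOf K) := fun h => hKf (by
      have := ((Subgroup.zpowers z).subgroupOf K).card_mul_index
      refine Nat.finite_of_card_ne_zero ?_
      rw [← this]
      exact mul_ne_zero Nat.card_pos.ne' h1)
    have a2 : ¬ IsOfFinOrder z := fun h => a1 (by
      haveI := h.finite_zpowers.to_subtype
      refine Finite.of_injective (β := Subgroup.zpowers z) (fun a => ⟨a.1.1, a.2⟩) ?_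
      intro a b e
      exact Subtype.ext (Subtype.ext (congrArg (fun x : Subgroup.zpowers z => x.1) e)))
    have a3 : ∃ j : ℤ, j ≠ 0 ∧ z ^ j ∈ K := by
      by_contra hc
      push Not at hc
      refine a1 (@Finite.of_subsingleton _ ⟨?_⟩)
      have : ∀ a : (Subgroup.zpowers z).subgroupOf K, a.1.1 = 1 := by
        rintro ⟨⟨a, ha⟩, j, hj⟩
        simp only [Subgroup.coe_subtype] at hj ⊢
        by_cases h0 : j = 0
        · rw [← hj, h0, zpow_zero]
        · exact absurd (hj ▸ ha) (hc j h0)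
      intro a b
      exact Subtype.ext (Subtype.ext ((this a).trans (this b).symm))
    obtain ⟨j, hj, hjK⟩ := a3
    refine ⟨z ^ j, fun g => ((show Commute g z from hz' g).zpow_right j).eq, hjK, fun h => ?_,
      Subgroup.relIndex_ne_zero_trans (relIndex_zpow hz' hj) h1⟩
    obtain ⟨i, hi, hi'⟩ := isOfFinOrder_iff_zpow_eq_one.1 h
    exact a2 (isOfFinOrder_iff_zpow_eq_one.2 ⟨j * i, mul_ne_zero hj hi, by rw [zpow_mul, hi']⟩)
  clear hfin hz hz' h1 z
  have hwc : ∀ g, Commute g w := hw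
  obtain ⟨ψ, ψ_mul, ψ_conj, ψw, n, hn, hpow⟩ := exists_psi K hw hwK hwinf h2
  obtain ⟨ht, ω, ω_self, ht_mul, hψω, htK⟩ := exists_ht π π_mul hsurj K hK hw ψ ψ_mul ψ_conj hn hpow
  have hquot : ∀ j : ℤ, j ≠ 0 → ∀ [(Subgroup.zpowers (w ^ j)).Normal],
      ∃ π' : G ⧸ Subgroup.zpowers (w ^ j) → ι → ℤ, (∀ g : G, π' g = π g) ∧
      (∀ p q, π' (p * q) = π' p + π' q) ∧ {p | π' p = 0}.Finite := by
    intro j hj _
    let F : G →* Multiplicative (ι → ℤ) := MonoidHom.mk' (fun p => Multiplicative.ofAdd (π p))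
      fun p q => by rw [π_mul, ofAdd_add]
    let F' := QuotientGroup.lift (Subgroup.zpowers (w ^ j)) F (by
      rintro _ ⟨i, rfl⟩
      exact (hK _).1 (K.zpow_mem (K.zpow_mem hwK j) i))
    refine ⟨fun p => (F' p).toAdd, fun g => rfl, fun p q => by simp, ?_⟩
    have a1 := Subgroup.relIndex_ne_zero_trans (relIndex_zpow hw hj) h2
    rw [← QuotientGroup.ker_mk' (Subgroup.zpowers (w ^ j)), Subgroup.relIndex_ker] at a1
    haveI := Nat.finite_of_card_ne_zero a1
    refine (Set.toFinite ((K.map (QuotientGroup.mk' (Subgroup.zpowers (w ^ j))) : Subgroup _) :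
      Set _)).subset fun p hp => ?_
    obtain ⟨g, rfl⟩ := QuotientGroup.mk_surjective p
    exact ⟨g, (hK g).2 hp, rfl⟩
  have hnorm : ∀ j : ℤ, (Subgroup.zpowers (w ^ j)).Normal := fun j =>
    zpowers_normal fun g => ((hwc g).zpow_right j).eq
  obtain ⟨D1, hD1, hcomm⟩ : ∃ D1 : ℕ, 0 < D1 ∧ ∀ s t : G, ∃ e : ℤ,
      s ^ D1 * t = w ^ e * t * s ^ D1 := by
    haveI := hnorm 1
    obtain ⟨π', a1, a2, a3⟩ := hquot 1 one_ne_zero
    obtain ⟨N, hN, b1, -⟩ := exists_pow_central π' a2 a3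
    refine ⟨N, hN, fun s t => ?_⟩
    have := b1 (t : G ⧸ Subgroup.zpowers (w ^ (1 : ℤ)))⁻¹ 1
    have b2 := (b1 (s : G ⧸ Subgroup.zpowers (w ^ (1 : ℤ))) t).symm
    rw [← QuotientGroup.mk_pow, ← QuotientGroup.mk_mul, ← QuotientGroup.mk_mul,
      QuotientGroup.eq] at b2
    obtain ⟨e, he⟩ := b2
    simp only [zpow_one] at he
    refine ⟨e, ?_⟩
    rw [mul_assoc, ← ((hwc _).zpow_right e).eq, he, mul_inv_cancel_left]
  choose e he using hcomm
  have heω : ∀ s t, (e s t : ℚ) = 2 * (D1 * ω (toQ (π s)) (toQ (π t))) := fun s t => by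
    have a1 := hψω (s ^ D1) t
    rw [he, mul_inv_cancel_right, mul_inv_cancel_right, ψw] at a1
    have a2 : ∀ m : ℕ, π (s ^ m) = m • π s := fun m => by
      induction m with
      | zero => simp [π1]
      | succ m ih => rw [pow_succ, π_mul, ih, succ_nsmul]
    rw [a1, a2, toQ_nsmul, map_smul, LinearMap.smul_apply, smul_eq_mul]
  have hepow : ∀ s t (i : ℕ), s ^ (D1 * i) * t = w ^ (e s t * i) * t * s ^ (D1 * i) := by
    intro s t i
    induction i with
    | zero => simp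
    | succ i ih =>
      rw [mul_add, mul_one, pow_add, mul_assoc, he, mul_assoc, ← mul_assoc (s ^ (D1 * i)),
        ((hwc _).zpow_right _).eq, mul_assoc, ← mul_assoc (s ^ (D1 * i)), ih]
      push_cast
      rw [mul_add, mul_one, add_comm, zpow_add]
      simp only [mul_assoc]
  set D : ℕ := ∏ x ∈ (symS S ×ˢ symS S).filter (fun x => e x.1 x.2 ≠ 0), (e x.1 x.2).natAbs with hD
  have hD0 : 0 < D := Finset.prod_pos fun x hx => Int.natAbs_pos.2 (Finset.mem_filter.1 hx).2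
  haveI := hnorm D
  obtain ⟨π', a1, a2, a3⟩ := hquot D (by exact_mod_cast hD0.ne')
  have hφ : ∀ g, π' (QuotientGroup.mk' (Subgroup.zpowers (w ^ (D : ℤ))) g) = π g := a1
  have hrel : ∀ g g' : G, QuotientGroup.mk' (Subgroup.zpowers (w ^ (D : ℤ))) g =
      QuotientGroup.mk' (Subgroup.zpowers (w ^ (D : ℤ))) g' →
      ∃ j : ℤ, g' = g * w ^ (D * j) ∧ ht g' = ht g + D * j := fun g g' h => by
    obtain ⟨j, hj⟩ := QuotientGroup.eq.1 h
    simp only [← zpow_mul] at hj
    have b1 : g' = g * w ^ (D * j) := by rw [hj, mul_inv_cancel_left]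
    have b2 := K.zpow_mem hwK (D * j)
    refine ⟨j, b1, ?_⟩
    rw [b1, ht_mul, htK _ b2, ψw, (hK _).1 b2, toQ_zero, map_zero]
    push_cast; ring
  obtain ⟨c, L, h0, h⟩ := (transfer_main S hS (QuotientGroup.mk' (Subgroup.zpowers (w ^ (D : ℤ))))
    (QuotientGroup.mk'_surjective _) π' a2 (fun x => by
      obtain ⟨g, hg⟩ := hsurj x
      exact ⟨g, by rw [a1, hg]⟩) a3 ht ω ω_self (fun g h => by rw [hφ, hφ, ht_mul])).2 D hD0
    (fun g g' h => by
      obtain ⟨j, -, hj⟩ := hrel g g' h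
      exact ⟨j, hj⟩)
    (fun g g' h h' => by
      obtain ⟨j, b1, b2⟩ := hrel g g' h
      have b3 : (D : ℚ) * j = 0 := by linarith
      have b4 : (D : ℤ) * j = 0 := by exact_mod_cast b3
      rw [b1, b4, zpow_zero, mul_one])
    (fun s hs t ht' h => by
      rw [hφ, hφ] at h ⊢
      have b1 : e s t ≠ 0 := fun h0 => by
        have := heω s t
        rw [h0] at this
        have b2 : (D1 : ℚ) ≠ 0 := by exact_mod_cast hD1.ne'
        simp [b2, h] at this
      obtain ⟨i, hi⟩ : (e s t).natAbs ∣ D := Finset.dvd_prod_of_mem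
        (fun x : G × G => (e x.1 x.2).natAbs)
        (Finset.mem_filter.2 ⟨Finset.mem_product.2 ⟨hs, ht'⟩, b1⟩ : (s, t) ∈ _)
      refine ⟨D1 * i, ?_, ?_⟩
      · rw [← map_pow, ← map_mul, ← map_mul, hepow, mul_assoc, map_mul]
        have : QuotientGroup.mk' (Subgroup.zpowers (w ^ (D : ℤ))) (w ^ (e s t * i)) = 1 := by
          rw [QuotientGroup.mk'_apply, QuotientGroup.eq_one_iff]
          refine ⟨(e s t).sign, ?_⟩
          simp only [← zpow_mul]
          rw [hi]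
          push_cast
          rw [mul_right_comm, mul_comm |e s t|, Int.sign_mul_abs]
        rw [this, one_mul]
      · have : (2 * ((D1 * i : ℕ) * ω (toQ (π s)) (toQ (π t))) : ℚ) = e s t * i := by
          rw [heω]; push_cast; ring
        rw [this, hi, abs_mul]
        push_cast
        rw [Nat.abs_cast, Nat.cast_natAbs, Int.cast_abs])
    (by
      by_contra hc
      push Not at hc
      simp only [hφ] at hc
      have b1 : ∀ g h, ω (toQ (π g)) (toQ (π h)) = 0 := by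
        have c1 : ∀ (f : (ι → ℚ) →ₗ[ℚ] ℚ), (∀ s ∈ S, f (toQ (π s)) = 0) → ∀ g, f (toQ (π g)) = 0 := by
          intro f hf g
          have hg : g ∈ Subgroup.closure (S : Set G) := by rw [hS]; trivial
          induction hg using Subgroup.closure_induction with
          | mem s hs => exact hf s hs
          | one => rw [π1, toQ_zero, map_zero]
          | mul a b _ _ ha hb => rw [π_mul, toQ_add, map_add, ha, hb, add_zero]
          | inv a _ ha => rw [πinv, toQ_neg, map_neg, ha, neg_zero]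
        intro g h
        exact c1 (ω.flip _) (fun s hs => c1 (ω _) (hc s hs) h) g
      have b2 : ∀ a ∈ commutator G, ht a = 0 := by
        simp only [b1, add_zero] at ht_mul
        let F : G →* Multiplicative ℚ := MonoidHom.mk' (fun p => Multiplicative.ofAdd (ht p))
          fun p q => by rw [ht_mul, ofAdd_add]
        exact fun a ha => Abelianization.commutator_subset_ker F ha
      obtain ⟨i, hi, -, hi'⟩ := Subgroup.exists_pow_mem_of_relIndex_ne_zero hrel0 hwK
      have b3 := b2 _ hi'.1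
      rw [htK _ hi'.2, ← zpow_natCast, ψw] at b3
      exact hi.ne' (by exact_mod_cast b3))
  refine ⟨Fintype.card ι + 2, c, L, h0, h.congr fun k => ?_⟩
  rw [← zpow_natCast (k : ℝ) (Fintype.card ι + 1)]
  congr 2
  push_cast; ring

end Pool.Agent.MP_b3b911_al

end

section

/-! Final form of the asymptotic statement. -/

open Filter Topology

namespace Pool.Agent.MP_b3b911_al

theorem ratio_of_two {a : ℕ → ℝ} {c L : ℝ} {d : ℕ}
    (h : Tendsto (fun k : ℕ => (a k - c * (k : ℝ) ^ d) / (k : ℝ) ^ ((d : ℤ) - 1)) atTop (𝓝 L)) :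
    Tendsto (fun k : ℕ => a k / (k : ℝ) ^ d) atTop (𝓝 c) := by
  have h1 := (h.mul tendsto_inv_atTop_nhds_zero_nat).add_const c
  rw [mul_zero, zero_add] at h1
  refine h1.congr' ?_
  filter_upwards [eventually_ge_atTop 1] with k hk
  have : (k : ℝ) ≠ 0 := by exact_mod_cast (by omega : k ≠ 0)
  rw [zpow_sub₀ this, zpow_natCast]
  field_simp
  ring

theorem log_of_ratio {a : ℕ → ℝ} {c : ℝ} {d : ℕ} (hc : 0 < c)
    (h : Tendsto (fun k : ℕ => a k / (k : ℝ) ^ d) atTop (𝓝 c)) :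
    Tendsto (fun k : ℕ => Real.log (a k) / Real.log k) atTop (𝓝 d) := by
  have h1 : Tendsto (fun k : ℕ => Real.log k) atTop atTop :=
    Real.tendsto_log_atTop.comp tendsto_natCast_atTop_atTop
  have h2 := ((h.log hc.ne').div_atTop h1).add_const (d : ℝ)
  rw [zero_add] at h2
  refine h2.congr' ?_
  filter_upwards [eventually_ge_atTop 2, h.eventually_const_lt hc] with k hk hp
  have hk' : (1 : ℝ) < k := by exact_mod_cast hk
  have h3 : (0 : ℝ) < (k : ℝ) ^ d := by positivity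
  have h4 : a k ≠ 0 := fun h0 => by simp [h0] at hp
  have h5 := (Real.log_pos hk').ne'
  rw [Real.log_div h4 h3.ne', Real.log_pow]
  field_simp
  ring

theorem final {G : Type*} [Group G] (S : Finset G) (hS : Subgroup.closure (S : Set G) = ⊤) (z : G)
    (hz : z ∈ Subgroup.center G) (hfin : (Subgroup.zpowers z).relIndex (commutator G) ≠ 0) :
    ∃ (d : ℕ) (c L : ℝ),
      Tendsto (fun k : ℕ => Real.log (growth S k) / Real.log k) atTop (𝓝 d) ∧ 0 < c ∧
      Tendsto (fun k : ℕ => (growth S k : ℝ) / (k : ℝ) ^ d) atTop (𝓝 c) ∧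
      Tendsto (fun k : ℕ => ((growth S k : ℝ) - c * (k : ℝ) ^ d) / (k : ℝ) ^ ((d : ℤ) - 1))
        atTop (𝓝 L) := by
  obtain ⟨d, c, L, h0, h⟩ := two_term S hS z hz hfin
  exact ⟨d, c, L, log_of_ratio h0 (ratio_of_two h), h0, ratio_of_two h, h⟩

end Pool.Agent.MP_b3b911_al

end
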