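import Mathlib

section

/-! Null sets of quadratic functions, lattice Riemann sums, unit cube averages. -/

open MeasureTheory Filter Topology Set

namespace Pool.Agent.MP_b3b911_al

section Null

variable {ι : Type*} [Fintype ι]

theorem null_of_lines (f : (ι → ℝ) → ℝ) (hf : Measurable f) (x0 : ι → ℝ) (h0 : f x0 ≠ 0)
    (h : ∀ v, ∃ α β : ℝ, ∀ r : ℝ, f (x0 + r • v) = α * r ^ 2 + β * r + f x0) :
    volume {x | f x = 0} = 0 := by
  have h3 : ∀ (v : ι → ℝ) (r1 r2 r3 : ℝ), r1 ≠ r2 → r1 ≠ r3 → r2 ≠ r3 →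
      f (x0 + r1 • v) = 0 → f (x0 + r2 • v) = 0 → f (x0 + r3 • v) = 0 → False := by
    intro v r1 r2 r3 h12 h13 h23 e1 e2 e3
    obtain ⟨α, β, hv⟩ := h v
    rw [hv] at e1 e2 e3
    have a1 : (r1 - r2) * (α * (r1 + r2) + β) = 0 := by linear_combination e1 - e2
    have a2 : (r1 - r3) * (α * (r1 + r3) + β) = 0 := by linear_combination e1 - e3
    have b1 := (mul_eq_zero.1 a1).resolve_left (sub_ne_zero.2 h12)
    have b2 := (mul_eq_zero.1 a2).resolve_left (sub_ne_zero.2 h13)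
    have a3 : (r2 - r3) * α = 0 := by linear_combination b1 - b2
    have c1 := (mul_eq_zero.1 a3).resolve_left (sub_ne_zero.2 h23)
    have c2 : β = 0 := by rw [c1] at b1; simpa using b1
    rw [c1, c2] at e1
    exact h0 (by simpa using e1)
  have hZ : MeasurableSet {x | f x = 0} := hf (measurableSet_singleton 0)
  have key : ∀ R : ℕ, volume ({x | f x = 0} ∩ Metric.closedBall x0 R) = 0 := by
    intro R
    set A := {x | f x = 0} ∩ Metric.closedBall x0 (R : ℝ) with hA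
    have hAm : MeasurableSet A := hZ.inter Metric.isClosed_closedBall.measurableSet
    let r : ℕ → ℝ := fun i => 1 / 2 + 1 / (2 * ((i : ℝ) + 1))
    have hr1 : ∀ i, 1 / 2 < r i := fun i => by
      have : (0 : ℝ) < 1 / (2 * ((i : ℝ) + 1)) := by positivity
      simp only [r]; linarith
    have hr2 : ∀ i, r i ≤ 1 := fun i => by
      have h1 : (1 : ℝ) / (2 * ((i : ℝ) + 1)) ≤ 1 / 2 := by
        apply one_div_le_one_div_of_le (by norm_num)
        have : (0 : ℝ) ≤ i := Nat.cast_nonneg i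
        linarith
      simp only [r]; linarith
    have hrinj : ∀ i j, r i = r j → i = j := by
      intro i j hij
      simp only [r] at hij
      have h1 : (1 : ℝ) / (2 * ((i : ℝ) + 1)) = 1 / (2 * ((j : ℝ) + 1)) := by linarith
      have h2 : (2 * ((i : ℝ) + 1)) = 2 * ((j : ℝ) + 1) := by
        have := congrArg (fun t : ℝ => t⁻¹) h1
        simpa using this
      have : (i : ℝ) = j := by linarith
      exact_mod_cast this
    let Ar : ℕ → Set (ι → ℝ) := fun i => (fun y => r i • y) ⁻¹' ((fun y => x0 + y) ⁻¹' A)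
    have hArm : ∀ i, MeasurableSet (Ar i) := fun i =>
      (measurable_const_smul (r i)) ((measurable_const_add x0) hAm)
    have hAr : ∀ i, volume A ≤ volume (Ar i) := by
      intro i
      have hpos : 0 < r i := lt_trans (by norm_num) (hr1 i)
      simp only [Ar]
      rw [Measure.addHaar_preimage_smul _ hpos.ne', measure_preimage_add]
      have h1 : (1 : ℝ) ≤ |(r i ^ Module.finrank ℝ (ι → ℝ))⁻¹| := by
        rw [abs_of_pos (by positivity)]
        exact one_le_inv_iff₀.2 ⟨by positivity, pow_le_one₀ hpos.le (hr2 i)⟩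
      calc volume A = 1 * volume A := (one_mul _).symm
        _ ≤ _ := by
          gcongr
          rw [← ENNReal.ofReal_one]
          exact ENNReal.ofReal_le_ofReal h1
    have hsub : ∀ i, Ar i ⊆ Metric.closedBall 0 (2 * R) := by
      intro i y hy
      have hpos : 0 < r i := lt_trans (by norm_num) (hr1 i)
      have h1 : x0 + r i • y ∈ Metric.closedBall x0 (R : ℝ) := hy.2
      rw [mem_closedBall_iff_norm, add_sub_cancel_left, norm_smul, Real.norm_eq_abs,
        abs_of_pos hpos] at h1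
      rw [mem_closedBall_zero_iff]
      have := hr1 i
      nlinarith [norm_nonneg y]
    have hb : ∀ n : ℕ, (n : ENNReal) * volume A ≤
        2 * volume (Metric.closedBall (0 : ι → ℝ) (2 * R)) := by
      intro n
      have hpt : ∀ y, ∑ i ∈ Finset.range n, (Ar i).indicator (fun _ => (1 : ENNReal)) y ≤
          (Metric.closedBall (0 : ι → ℝ) (2 * R)).indicator (fun _ => (2 : ENNReal)) y := by
        intro y
        classical
        have e1 : ∑ i ∈ Finset.range n, (Ar i).indicator (fun _ => (1 : ENNReal)) y =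
            (((Finset.range n).filter (fun i => y ∈ Ar i)).card : ENNReal) := by
          rw [Finset.card_filter]
          push_cast
          refine Finset.sum_congr rfl fun i _ => ?_
          by_cases hy : y ∈ Ar i <;> simp [hy]
        rw [e1]
        by_cases hy : y ∈ Metric.closedBall (0 : ι → ℝ) (2 * R)
        · rw [indicator_of_mem hy]
          have : ((Finset.range n).filter (fun i => y ∈ Ar i)).card ≤ 2 := by
            by_contra hc
            obtain ⟨a, b, c, ha, hb, hc', hab, hac, hbc⟩ := Finset.two_lt_card_iff.1 (not_le.1 hc)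
            exact h3 y (r a) (r b) (r c) (fun e => hab (hrinj _ _ e)) (fun e => hac (hrinj _ _ e))
              (fun e => hbc (hrinj _ _ e)) (Finset.mem_filter.1 ha).2.1
              (Finset.mem_filter.1 hb).2.1 (Finset.mem_filter.1 hc').2.1
          exact_mod_cast this
        · have : ((Finset.range n).filter (fun i => y ∈ Ar i)) = ∅ := by
            rw [Finset.filter_eq_empty_iff]
            intro i _ hi
            exact hy (hsub i hi)
          simp [this]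
      calc (n : ENNReal) * volume A = ∑ _i ∈ Finset.range n, volume A := by simp
        _ ≤ ∑ i ∈ Finset.range n, volume (Ar i) := Finset.sum_le_sum fun i _ => hAr i
        _ = ∑ i ∈ Finset.range n, ∫⁻ y, (Ar i).indicator (fun _ => (1 : ENNReal)) y := by
            refine Finset.sum_congr rfl fun i _ => ?_
            rw [lintegral_indicator (hArm i)]; simp
        _ = ∫⁻ y, ∑ i ∈ Finset.range n, (Ar i).indicator (fun _ => (1 : ENNReal)) y := by
            rw [lintegral_finsetSum]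
            intro i _
            exact measurable_const.indicator (hArm i)
        _ ≤ ∫⁻ y, (Metric.closedBall (0 : ι → ℝ) (2 * R)).indicator (fun _ => (2 : ENNReal)) y :=
            lintegral_mono hpt
        _ = _ := by
            rw [lintegral_indicator Metric.isClosed_closedBall.measurableSet]; simp
    by_contra hne
    have hfin : 2 * volume (Metric.closedBall (0 : ι → ℝ) (2 * R)) ≠ ⊤ :=
      ENNReal.mul_ne_top (by norm_num) measure_closedBall_lt_top.ne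
    obtain ⟨n, hn⟩ := ENNReal.exists_nat_mul_gt hne hfin
    exact absurd (hb n) (not_le.2 hn)
  have : {x | f x = 0} = ⋃ R : ℕ, ({x | f x = 0} ∩ Metric.closedBall x0 R) := by
    rw [← inter_iUnion, Metric.iUnion_closedBall_nat, inter_univ]
  rw [this]
  exact measure_iUnion_null key

end Null

section Cubes

variable {ι : Type*} [Fintype ι]

/-- The half-open unit cube. -/
def cube (ι : Type*) : Set (ι → ℝ) := Set.pi univ fun _ => Ico (0 : ℝ) 1

theorem cube_meas : MeasurableSet (cube ι) :=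
  MeasurableSet.univ_pi fun _ => measurableSet_Ico

theorem cube_vol : volume (cube ι) = 1 := by
  unfold cube
  rw [Real.volume_pi_Ico (a := fun _ => (0 : ℝ)) (b := fun _ => (1 : ℝ))]
  simp

theorem cube_real : (volume : Measure (ι → ℝ)).real (cube ι) = 1 := by
  simp [Measure.real, cube_vol]

theorem mem_cube {η : ι → ℝ} : η ∈ cube ι ↔ ∀ i, 0 ≤ η i ∧ η i < 1 := by
  simp [cube, Set.mem_pi]

theorem norm_le_of_mem_cube {η : ι → ℝ} (h : η ∈ cube ι) : ‖η‖ ≤ 1 := by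
  rw [pi_norm_le_iff_of_nonneg zero_le_one]
  intro i
  obtain ⟨h1, h2⟩ := mem_cube.1 h i
  rw [Real.norm_eq_abs, abs_of_nonneg h1]; exact h2.le

theorem abs_cube_integral_le {f : (ι → ℝ) → ℝ} {K : ℝ} (h : ∀ η ∈ cube ι, |f η| ≤ K) :
    |∫ η in cube ι, f η| ≤ K := by
  have := norm_setIntegral_le_of_norm_le_const (μ := volume) (s := cube ι) (f := f) (C := K)
    (by rw [cube_vol]; exact ENNReal.one_lt_top) (fun x hx => h x hx)
  rwa [cube_real, mul_one] at this

theorem integrableOn_cube {f : (ι → ℝ) → ℝ} (hf : Measurable f) {K : ℝ}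
    (h : ∀ η ∈ cube ι, |f η| ≤ K) : IntegrableOn f (cube ι) := by
  refine Measure.integrableOn_of_bounded (M := K) (by rw [cube_vol]; exact ENNReal.one_ne_top)
    hf.aestronglyMeasurable ?_
  exact (ae_restrict_iff' cube_meas).2 (Eventually.of_forall fun x hx => h x hx)

theorem abs_cube_integral_sub_le {f g : (ι → ℝ) → ℝ} (hf : IntegrableOn f (cube ι))
    (hg : IntegrableOn g (cube ι)) {K : ℝ} (h : ∀ η ∈ cube ι, |f η - g η| ≤ K) :
    |(∫ η in cube ι, f η) - ∫ η in cube ι, g η| ≤ K := by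
  rw [← integral_sub hf hg]
  exact abs_cube_integral_le h

theorem cube_integral_const (c : ℝ) : ∫ _η in cube ι, c = c := by
  simp [cube_real]

/-- Integer vectors as real vectors. -/
def toR (x : ι → ℤ) : ι → ℝ := fun i => (x i : ℝ)

theorem sum_cube_integral (f : (ι → ℝ) → ℝ) (hf : Integrable f) (T : Finset (ι → ℤ))
    (hT : ∀ θ, f θ ≠ 0 → (fun i => ⌊θ i⌋) ∈ T) :
    ∑ x ∈ T, ∫ η in cube ι, f (toR x + η) = ∫ θ, f θ := by
  classical
  have h1 : ∀ x : ι → ℤ, ∫ η in cube ι, f (toR x + η) =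
      ∫ θ, ((fun θ => θ - toR x) ⁻¹' cube ι).indicator f θ := by
    intro x
    rw [← integral_indicator cube_meas,
      ← integral_add_left_eq_self (μ := volume)
        (((fun θ => θ - toR x) ⁻¹' cube ι).indicator f) (toR x)]
    refine integral_congr_ae (Eventually.of_forall fun η => ?_)
    beta_reduce
    by_cases hη : η ∈ cube ι
    · rw [indicator_of_mem hη, indicator_of_mem (by simpa using hη)]
    · rw [indicator_of_notMem hη, indicator_of_notMem (by simpa using hη)]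
  simp_rw [h1]
  rw [← integral_finsetSum]
  · refine integral_congr_ae (Eventually.of_forall fun θ => ?_)
    have hm : ∀ x : ι → ℤ, θ ∈ (fun θ => θ - toR x) ⁻¹' cube ι ↔ x = fun i => ⌊θ i⌋ := by
      intro x
      rw [mem_preimage, mem_cube, funext_iff]
      refine forall_congr' fun i => ?_
      rw [eq_comm, Int.floor_eq_iff]
      simp only [Pi.sub_apply, toR]
      constructor <;> rintro ⟨a, b⟩ <;> constructor <;> linarith
    by_cases h0 : f θ = 0
    · simp only [h0]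
      refine Finset.sum_eq_zero fun x _ => ?_
      by_cases hx : θ ∈ (fun θ => θ - toR x) ⁻¹' cube ι
      · rw [indicator_of_mem hx, h0]
      · rw [indicator_of_notMem hx]
    · simp only
      rw [Finset.sum_eq_single (fun i => ⌊θ i⌋)]
      · rw [indicator_of_mem ((hm _).2 rfl)]
      · intro x _ hx
        rw [indicator_of_notMem (fun h => hx ((hm x).1 h))]
      · intro h; exact absurd (hT θ h0) h
  · intro x _
    exact hf.indicator ((measurable_id.sub_const _) cube_meas)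

theorem measurable_floor_comp (g : (ι → ℤ) → ℝ) (t : ℝ) :
    Measurable fun θ : ι → ℝ => g (fun i => ⌊t * θ i⌋) := by
  refine (measurable_of_countable g).comp ?_
  refine measurable_pi_lambda _ fun i => Int.measurable_floor.comp ?_
  exact measurable_const.mul (measurable_pi_apply i)

theorem integral_floor (g : (ι → ℤ) → ℝ) (T : Finset (ι → ℤ)) (hT : ∀ ξ, g ξ ≠ 0 → ξ ∈ T) :
    ∫ θ : ι → ℝ, g (fun i => ⌊θ i⌋) = ∑ ξ ∈ T, g ξ := by
  have hint : Integrable fun θ : ι → ℝ => g (fun i => ⌊θ i⌋) := by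
    have hm : Measurable fun θ : ι → ℝ => g (fun i => ⌊θ i⌋) := by
      simpa using measurable_floor_comp g 1
    obtain ⟨R, hR⟩ : ∃ R : ℝ, ∀ ξ ∈ T, ‖toR ξ‖ ≤ R :=
      ⟨∑ ξ ∈ T, ‖toR ξ‖, fun ξ hξ =>
        Finset.single_le_sum (f := fun ξ => ‖toR ξ‖) (fun _ _ => norm_nonneg _) hξ⟩
    refine IntegrableOn.integrable_of_forall_notMem_eq_zero
      (s := Metric.closedBall 0 (R + 1)) ?_ ?_
    · refine Measure.integrableOn_of_bounded (M := ∑ ξ ∈ T, |g ξ|)
        measure_closedBall_lt_top.ne hm.aestronglyMeasurable (Eventually.of_forall fun θ => ?_)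
      by_cases h0 : g (fun i => ⌊θ i⌋) = 0
      · rw [h0, norm_zero]; positivity
      · exact Finset.single_le_sum (f := fun ξ => |g ξ|) (fun _ _ => abs_nonneg _) (hT _ h0)
    · intro θ hθ
      by_contra h0
      apply hθ
      have h1 := hR _ (hT _ h0)
      have h2 : θ - toR (fun i => ⌊θ i⌋) ∈ cube ι := by
        rw [mem_cube]; intro i
        simp only [Pi.sub_apply, toR]
        constructor
        · linarith [Int.floor_le (θ i)]
        · linarith [Int.lt_floor_add_one (θ i)]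
      rw [mem_closedBall_zero_iff]
      have h3 := norm_le_of_mem_cube h2
      calc ‖θ‖ = ‖toR (fun i => ⌊θ i⌋) + (θ - toR (fun i => ⌊θ i⌋))‖ := by simp
        _ ≤ _ := norm_add_le _ _
        _ ≤ R + 1 := add_le_add h1 h3
  rw [← sum_cube_integral _ hint T (fun θ h => hT _ h)]
  refine Finset.sum_congr rfl fun x _ => ?_
  rw [← cube_integral_const (ι := ι) (g x)]
  refine setIntegral_congr_fun cube_meas fun η hη => ?_
  congr 1
  funext i
  obtain ⟨h1, h2⟩ := mem_cube.1 hη i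
  rw [Int.floor_eq_iff]
  simp only [Pi.add_apply, toR]
  constructor <;> linarith

/-- Lattice Riemann sums: bounded, supported in a box of linear size, pointwise convergent. -/
theorem riemann (g : ℕ → (ι → ℤ) → ℝ) (T : ℕ → Finset (ι → ℤ)) (K : ℝ)
    (hT : ∀ k ξ, g k ξ ≠ 0 → ξ ∈ T k)
    (hb : ∀ᶠ k in atTop, ∀ ξ, |g k ξ| ≤ K)
    (hs : ∀ᶠ k in atTop, ∀ ξ, g k ξ ≠ 0 → ‖toR ξ‖ ≤ K * k)
    (hl : ∀ᵐ θ : ι → ℝ, ∃ l, Tendsto (fun k : ℕ => g k (fun i => ⌊(k : ℝ) * θ i⌋)) atTop (𝓝 l)) :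
    ∃ L, Tendsto (fun k : ℕ => (∑ ξ ∈ T k, g k ξ) / (k : ℝ) ^ Fintype.card ι) atTop (𝓝 L) := by
  let G : ℕ → (ι → ℝ) → ℝ := fun k θ => g k (fun i => ⌊(k : ℝ) * θ i⌋)
  have hG : Tendsto (fun k => ∫ θ, G k θ) atTop
      (𝓝 (∫ θ, limUnder atTop (fun k => G k θ))) := by
    refine tendsto_integral_filter_of_dominated_convergence
      ((Metric.closedBall (0 : ι → ℝ) (K + 1)).indicator fun _ => K) ?_ ?_ ?_ ?_
    · exact Eventually.of_forall fun k => (measurable_floor_comp (g k) k).aestronglyMeasurable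
    · filter_upwards [hb, hs, eventually_ge_atTop 1] with k hb hs hk
      refine Eventually.of_forall fun θ => ?_
      by_cases hθ : θ ∈ Metric.closedBall (0 : ι → ℝ) (K + 1)
      · rw [indicator_of_mem hθ]; exact hb _
      · rw [indicator_of_notMem hθ]
        by_contra hc
        apply hθ
        have h0 : G k θ ≠ 0 := fun h => hc (by rw [h, norm_zero])
        have h1 := hs _ h0
        have hk' : (1 : ℝ) ≤ k := by exact_mod_cast hk
        have h2 : (k : ℝ) • θ - toR (fun i => ⌊(k : ℝ) * θ i⌋) ∈ cube ι := by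
          rw [mem_cube]; intro i
          simp only [Pi.sub_apply, toR, Pi.smul_apply, smul_eq_mul]
          constructor
          · linarith [Int.floor_le ((k : ℝ) * θ i)]
          · linarith [Int.lt_floor_add_one ((k : ℝ) * θ i)]
        have h3 := norm_le_of_mem_cube h2
        have h4 : ‖(k : ℝ) • θ‖ ≤ K * k + 1 := by
          calc ‖(k : ℝ) • θ‖ = ‖toR (fun i => ⌊(k : ℝ) * θ i⌋) +
              ((k : ℝ) • θ - toR (fun i => ⌊(k : ℝ) * θ i⌋))‖ := by simp
            _ ≤ _ := norm_add_le _ _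
            _ ≤ _ := add_le_add h1 h3
        rw [norm_smul, Real.norm_eq_abs, abs_of_nonneg (by linarith)] at h4
        rw [mem_closedBall_zero_iff]
        by_contra h5
        push Not at h5
        nlinarith
    · exact (integrable_indicator_iff Metric.isClosed_closedBall.measurableSet).2
        (integrableOn_const measure_closedBall_lt_top.ne)
    · filter_upwards [hl] with θ h
      exact tendsto_nhds_limUnder h
  refine ⟨_, hG.congr' ?_⟩
  filter_upwards [eventually_ge_atTop 1] with k hk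
  have hk' : (0 : ℝ) < k := by exact_mod_cast hk
  have h1 := Measure.integral_comp_smul (volume : Measure (ι → ℝ))
    (fun θ : ι → ℝ => g k (fun i => ⌊θ i⌋)) (k : ℝ)
  rw [integral_floor (g k) (T k) (hT k)] at h1
  simp only [Pi.smul_apply, smul_eq_mul, Module.finrank_fintype_fun_eq_card] at h1
  simp only [G]
  rw [h1, abs_of_pos (by positivity)]
  field_simp

end Cubes

end Pool.Agent.MP_b3b911_al

end

section

/-! Finite maxima, integer forms, approximation of rays by lattice points, the base structure. -/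

open MeasureTheory Filter Topology Set

namespace Pool.Agent.MP_b3b911_al

section Val

variable {C : Type*}

/-- Maximum over a finite set, bottom if empty. -/
noncomputable def wsup (V : Finset C) (f : C → ℝ) : WithBot ℝ :=
  V.sup fun c => (f c : WithBot ℝ)

/-- Maximum over a finite set, zero if empty. -/
noncomputable def val (V : Finset C) (f : C → ℝ) : ℝ := (wsup V f).unbotD 0

theorem wsup_empty (f : C → ℝ) : wsup ∅ f = ⊥ := rfl

theorem val_empty (f : C → ℝ) : val ∅ f = 0 := rfl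

theorem le_wsup {V : Finset C} (f : C → ℝ) {c : C} (hc : c ∈ V) : (f c : WithBot ℝ) ≤ wsup V f :=
  Finset.le_sup (f := fun c => (f c : WithBot ℝ)) hc

theorem exists_wsup {V : Finset C} (hV : V.Nonempty) (f : C → ℝ) :
    ∃ c ∈ V, wsup V f = f c ∧ val V f = f c ∧ ∀ c' ∈ V, f c' ≤ f c := by
  obtain ⟨c, hc, h⟩ := Finset.exists_mem_eq_sup V hV fun c => (f c : WithBot ℝ)
  have h' : wsup V f = f c := h
  refine ⟨c, hc, h', by simp [val, h'], fun c' hc' => ?_⟩
  have := le_wsup f hc'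
  rw [h'] at this
  exact_mod_cast this

theorem wsup_eq_bot {V : Finset C} (f : C → ℝ) : wsup V f = ⊥ ↔ V = ∅ := by
  constructor
  · intro h
    by_contra hne
    obtain ⟨c, _, h1, _⟩ := exists_wsup (Finset.nonempty_iff_ne_empty.2 hne) f
    rw [h] at h1
    exact WithBot.bot_ne_coe h1
  · rintro rfl; rfl

theorem wsup_eq_val {V : Finset C} (hV : V.Nonempty) (f : C → ℝ) : wsup V f = val V f := by
  obtain ⟨c, _, h1, h2, _⟩ := exists_wsup hV f
  rw [h1, h2]

theorem le_val {V : Finset C} (f : C → ℝ) {c : C} (hc : c ∈ V) : f c ≤ val V f := by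
  obtain ⟨c', _, _, h2, h3⟩ := exists_wsup ⟨c, hc⟩ f
  rw [h2]; exact h3 c hc

theorem val_eq_of {V : Finset C} (f : C → ℝ) {c : C} (hc : c ∈ V) (h : ∀ c' ∈ V, f c' ≤ f c) :
    val V f = f c := by
  obtain ⟨c', hc', _, h2, h3⟩ := exists_wsup ⟨c, hc⟩ f
  rw [h2]; exact le_antisymm (h c' hc') (h3 c hc)

theorem abs_val_sub_le {V : Finset C} {f g : C → ℝ} {ε : ℝ} (hε : 0 ≤ ε)
    (h : ∀ c ∈ V, |f c - g c| ≤ ε) : |val V f - val V g| ≤ ε := by
  rcases V.eq_empty_or_nonempty with rfl | hV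
  · simpa [val_empty] using hε
  · obtain ⟨c, hc, _, h2, _⟩ := exists_wsup hV f
    obtain ⟨c', hc', _, h2', _⟩ := exists_wsup hV g
    have a1 := le_val g hc
    have a2 := le_val f hc'
    have a3 := abs_le.1 (h c hc)
    have a4 := abs_le.1 (h c' hc')
    rw [abs_le]; constructor <;> linarith [a3.1, a3.2, a4.1, a4.2]

theorem abs_val_le {V : Finset C} {f : C → ℝ} {ε : ℝ} (hε : 0 ≤ ε)
    (h : ∀ c ∈ V, |f c| ≤ ε) : |val V f| ≤ ε := by
  rcases V.eq_empty_or_nonempty with rfl | hV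
  · simpa [val_empty] using hε
  · obtain ⟨c, hc, _, h2, _⟩ := exists_wsup hV f
    rw [h2]; exact h c hc

theorem val_mul {V : Finset C} (f : C → ℝ) {t : ℝ} (ht : 0 ≤ t) :
    val V (fun c => t * f c) = t * val V f := by
  rcases V.eq_empty_or_nonempty with rfl | hV
  · simp [val_empty]
  · obtain ⟨c, hc, _, h2, h3⟩ := exists_wsup hV f
    rw [h2]
    exact val_eq_of (fun c => t * f c) hc fun c' hc' => mul_le_mul_of_nonneg_left (h3 c' hc') ht

theorem measurable_val [Fintype C] {α : Type*} [MeasurableSpace α] (V : α → Finset C)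
    (hV : ∀ c, MeasurableSet {w | c ∈ V w}) (f : C → α → ℝ) (hf : ∀ c, Measurable (f c)) :
    Measurable fun w => val (V w) (fun c => f c w) := by
  classical
  have h1 : (fun w => val (V w) (fun c => f c w)) =
      fun w => ∑ V0 : Finset C, if V w = V0 then val V0 (fun c => f c w) else 0 := by
    funext w; simp
  rw [h1]
  refine Finset.measurable_sum _ fun V0 _ => Measurable.ite ?_ ?_ measurable_const
  · have : {w | V w = V0} = ⋂ c, {w | c ∈ V w ↔ c ∈ V0} := by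
      ext w; simp [Finset.ext_iff]
    rw [this]
    refine MeasurableSet.iInter fun c => ?_
    by_cases hc : c ∈ V0
    · simpa [hc] using hV c
    · have := (hV c).compl
      simpa [hc, compl_ofPred] using this
  · rcases V0.eq_empty_or_nonempty with rfl | hV0
    · simp [val_empty]
    · have : (fun w => val V0 (fun c => f c w)) = V0.sup' hV0 f := by
        funext w
        rw [Finset.sup'_apply]
        obtain ⟨c, hc, _, h2, h3⟩ := exists_wsup hV0 (fun c => f c w)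
        rw [h2]
        exact le_antisymm (Finset.le_sup' (fun c => f c w) hc) (Finset.sup'_le _ _ h3)
      rw [this]
      exact Finset.measurable_sup' hV0 fun c _ => hf c

end Val

section Forms

variable {U : Type*} [Fintype U]

omit [Fintype U] in
theorem toR_add (x y : U → ℤ) : toR (x + y) = toR x + toR y := by
  funext i; simp [toR]

omit [Fintype U] in
theorem toR_zero : toR (0 : U → ℤ) = 0 := by
  funext i; simp [toR]

omit [Fintype U] in
theorem toR_nsmul (n : ℕ) (x : U → ℤ) : toR (n • x) = (n : ℝ) • toR x := by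
  funext i; simp [toR]

omit [Fintype U] in
theorem toR_neg (x : U → ℤ) : toR (-x) = - toR x := by
  funext i; simp [toR]

/-- An integer form evaluated at a real vector. -/
noncomputable def rd (a : U → ℤ) : (U → ℝ) →ₗ[ℝ] ℝ where
  toFun w := toR a ⬝ᵥ w
  map_add' _ _ := dotProduct_add _ _ _
  map_smul' _ _ := dotProduct_smul _ _ _

theorem rd_apply (a : U → ℤ) (w : U → ℝ) : rd a w = ∑ i, (a i : ℝ) * w i := rfl

theorem rd_toR (a z : U → ℤ) : rd a (toR z) = ((a ⬝ᵥ z : ℤ) : ℝ) := by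
  simp [rd_apply, toR, dotProduct]

theorem rd_zero (w : U → ℝ) : rd 0 w = 0 := by simp [rd_apply]

theorem exists_lin_bound (f : (U → ℝ) →ₗ[ℝ] ℝ) : ∃ C, 0 ≤ C ∧ ∀ w, |f w| ≤ C * ‖w‖ :=
  ⟨‖LinearMap.toContinuousLinearMap f‖, norm_nonneg _, fun w =>
    (LinearMap.toContinuousLinearMap f).le_opNorm w⟩

theorem exists_bilin_bound (q : LinearMap.BilinForm ℝ (U → ℝ)) :
    ∃ C, 0 ≤ C ∧ ∀ v w, |q v w| ≤ C * ‖v‖ * ‖w‖ := by
  let q1 : (U → ℝ) →ₗ[ℝ] ((U → ℝ) →L[ℝ] ℝ) :=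
    (LinearMap.toContinuousLinearMap (𝕜 := ℝ) (E := U → ℝ) (F' := ℝ)).toLinearMap ∘ₗ q
  refine ⟨‖LinearMap.toContinuousLinearMap q1‖, ContinuousLinearMap.opNorm_nonneg _,
    fun v w => ?_⟩
  exact (LinearMap.toContinuousLinearMap q1).le_opNorm₂ v w

theorem continuous_bilin (q : LinearMap.BilinForm ℝ (U → ℝ)) : Continuous fun w => q w w := by
  let q1 : (U → ℝ) →ₗ[ℝ] ((U → ℝ) →L[ℝ] ℝ) :=
    (LinearMap.toContinuousLinearMap (𝕜 := ℝ) (E := U → ℝ) (F' := ℝ)).toLinearMap ∘ₗ q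
  exact (LinearMap.toContinuousLinearMap q1).continuous₂.comp (continuous_id.prodMk continuous_id)

theorem exists_fin_bound {α : Type*} (T : Finset α) (p : α → ℝ → Prop)
    (hp : ∀ a x y, x ≤ y → 0 ≤ x → p a x → p a y) (h : ∀ a ∈ T, ∃ C, 0 ≤ C ∧ p a C) :
    ∃ C, 0 ≤ C ∧ ∀ a ∈ T, p a C := by
  classical
  choose! f hf using h
  refine ⟨∑ a ∈ T, f a, Finset.sum_nonneg fun a ha => (hf a ha).1, fun a ha => ?_⟩
  exact hp a _ _ (Finset.single_le_sum (fun a ha => (hf a ha).1) ha) (hf a ha).1 (hf a ha).2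

theorem exists_int_mul {α : Type*} [Fintype α] (v : α → ℚ) :
    ∃ m : ℕ, 0 < m ∧ ∃ κ : α → ℤ, ∀ i, (κ i : ℚ) = m * v i := by
  classical
  refine ⟨∏ i, (v i).den, Finset.prod_pos fun i _ => (v i).den_pos,
    fun i => (∏ j ∈ Finset.univ.erase i, ((v j).den : ℤ)) * (v i).num, fun i => ?_⟩
  rw [← Finset.mul_prod_erase _ _ (Finset.mem_univ i)]
  push_cast
  rw [← Rat.mul_den_eq_num (v i)]
  ring

/-- Every ray is at bounded distance from lattice points killed by all integer forms that kill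
the ray. -/
theorem app (θ : U → ℝ) (N : ℕ) (hN : 0 < N) : ∃ ρ : ℝ, ∀ t : ℝ, ∃ z : U → ℤ,
    ‖toR (N • z) - t • θ‖ ≤ ρ ∧ ∀ a : U → ℤ, rd a θ = 0 → a ⬝ᵥ z = 0 := by
  classical
  let B := Module.Basis.ofVectorSpace ℚ ℝ
  let S := Finset.univ.biUnion fun i => (B.repr (θ i)).support
  choose m hm κ hκ using fun b => exists_int_mul fun i => B.repr (θ i) b
  have hθ : θ = ∑ b ∈ S, (B b / m b) • toR (κ b) := by
    funext i
    have h1 := B.linearCombination_repr (θ i)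
    rw [Finsupp.linearCombination_apply, Finsupp.sum_of_support_subset _
      (s := S) (fun b hb => Finset.mem_biUnion.2 ⟨i, Finset.mem_univ _, hb⟩) _ (by simp)] at h1
    rw [← h1, Finset.sum_apply]
    refine Finset.sum_congr rfl fun b _ => ?_
    have h2 : ((κ b i : ℤ) : ℝ) = (m b : ℝ) * ((B.repr (θ i) b : ℚ) : ℝ) := by
      exact_mod_cast congrArg (fun x : ℚ => (x : ℝ)) (hκ b i)
    have h3 : (m b : ℝ) ≠ 0 := by exact_mod_cast (hm b).ne'
    simp only [Pi.smul_apply, toR, smul_eq_mul, h2, Rat.smul_def]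
    field_simp
  have hN' : (0 : ℝ) < N := by exact_mod_cast hN
  refine ⟨∑ b ∈ S, N * ‖toR (κ b)‖, fun t => ⟨∑ b ∈ S, ⌊t * (B b / m b) / N⌋ • κ b, ?_, ?_⟩⟩
  · have h1 : toR (N • ∑ b ∈ S, ⌊t * (B b / m b) / N⌋ • κ b) - t • θ =
        ∑ b ∈ S, ((N : ℝ) * ⌊t * (B b / m b) / N⌋ - t * (B b / m b)) • toR (κ b) := by
      conv_lhs => rw [hθ]
      funext i
      simp only [toR, Pi.sub_apply, Pi.smul_apply, Finset.sum_apply, smul_eq_mul]
      rw [nsmul_eq_mul]
      push_cast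
      rw [Finset.mul_sum, Finset.mul_sum, ← Finset.sum_sub_distrib]
      refine Finset.sum_congr rfl fun b _ => by ring
    rw [h1]
    refine (norm_sum_le _ _).trans (Finset.sum_le_sum fun b _ => ?_)
    rw [norm_smul]
    refine mul_le_mul_of_nonneg_right ?_ (norm_nonneg _)
    have a1 := Int.floor_le (t * (B b / m b) / N)
    have a2 := Int.lt_floor_add_one (t * (B b / m b) / N)
    rw [le_div_iff₀ hN'] at a1
    rw [div_lt_iff₀ hN'] at a2
    rw [Real.norm_eq_abs, abs_le]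
    constructor <;> nlinarith
  · intro a ha
    rw [dotProduct_sum]
    refine Finset.sum_eq_zero fun b _ => ?_
    rw [dotProduct_smul]
    have h1 : ∑ i, (a i : ℚ) * B.repr (θ i) b = 0 := by
      have h2 := congrArg (fun x => B.repr x b) ha
      simp only [rd_apply, map_sum, map_zero, Finsupp.coe_zero, Pi.zero_apply,
        Finsupp.coe_finsetSum, Finset.sum_apply] at h2
      rw [← h2]
      refine Finset.sum_congr rfl fun i _ => ?_
      have : (a i : ℝ) * θ i = (a i : ℚ) • θ i := by simp [Rat.smul_def]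
      rw [this, map_smul]; simp
    have h3 : ((a ⬝ᵥ κ b : ℤ) : ℚ) = 0 := by
      simp only [dotProduct]
      push_cast
      simp_rw [hκ]
      have : ∑ i, (a i : ℚ) * (m b * B.repr (θ i) b) = m b * ∑ i, (a i : ℚ) * B.repr (θ i) b := by
        rw [Finset.mul_sum]; exact Finset.sum_congr rfl fun i _ => by ring
      rw [this, h1, mul_zero]
    have h4 : a ⬝ᵥ κ b = 0 := by exact_mod_cast h3
    rw [h4, smul_zero]

theorem le_of_sq {a b C : ℝ} (h : ∀ᶠ t : ℝ in atTop, t ^ 2 * a ≤ t ^ 2 * b + C * t) : a ≤ b := by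
  by_contra hab
  push Not at hab
  obtain ⟨t, h1, h2, h3⟩ := (h.and ((eventually_gt_atTop (C / (a - b))).and
    (eventually_gt_atTop 0))).exists
  rw [div_lt_iff₀ (sub_pos.2 hab)] at h2
  nlinarith

theorem le_of_lin {a b C : ℝ} (h : ∀ᶠ t : ℝ in atTop, t * a ≤ t * b + C) : a ≤ b := by
  by_contra hab
  push Not at hab
  obtain ⟨t, h1, h2⟩ := (h.and (eventually_gt_atTop (C / (a - b)))).exists
  rw [div_lt_iff₀ (sub_pos.2 hab)] at h2
  nlinarith

theorem ev_sign (T : Finset (U → ℤ)) (θ : U → ℝ) (ρ B : ℝ) :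
    ∀ᶠ t : ℝ in atTop, ∀ w, ‖w - t • θ‖ ≤ ρ → ∀ a ∈ T,
      (0 < rd a θ → B < rd a w) ∧ (rd a θ < 0 → rd a w < -B) := by
  have : ∀ a ∈ T, ∀ᶠ t : ℝ in atTop, ∀ w, ‖w - t • θ‖ ≤ ρ →
      (0 < rd a θ → B < rd a w) ∧ (rd a θ < 0 → rd a w < -B) := by
    intro a _
    obtain ⟨C, hC, hb⟩ := exists_lin_bound (rd a)
    have key : ∀ t w, ‖w - t • θ‖ ≤ ρ → |rd a w - t * rd a θ| ≤ C * ρ := by
      intro t w hw
      have := hb (w - t • θ)
      rw [map_sub, map_smul, smul_eq_mul] at this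
      exact this.trans (mul_le_mul_of_nonneg_left hw hC)
    filter_upwards [eventually_gt_atTop ((B + C * ρ) / |rd a θ|)] with t ht w hw
    have h1 := abs_le.1 (key t w hw)
    constructor
    · intro h
      rw [abs_of_pos h, div_lt_iff₀ h] at ht
      linarith [h1.1]
    · intro h
      rw [abs_of_neg h, div_lt_iff₀ (neg_pos.2 h)] at ht
      linarith [h1.2]
  filter_upwards [(Finset.eventually_all T).2 this] with t ht w hw a ha
  exact ht a ha w hw

end Forms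

/-- A group mapping onto a lattice with finite kernel, central powers, and graded letters. -/
structure Base (ι : Type) (P : Type*) [Group P] where
  u : P → Option ι → ℤ
  u_mul : ∀ p q, u (p * q) = u p + u q
  u_surj : Function.Surjective u
  ker_fin : {p | u p = 0}.Finite
  N : ℕ
  N_pos : 0 < N
  τ : (Option ι → ℤ) → P
  τ_add : ∀ z z', τ (z + z') = τ z * τ z'
  τ_comm : ∀ z p, τ z * p = p * τ z
  pow_eq : ∀ g, g ^ N = τ (u g)
  L : Finset P
  L_one : ∀ s ∈ L, u s none = 1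
  L_gen : Subgroup.closure (L : Set P) = ⊤

namespace Base

variable {ι : Type} {P : Type*} [Group P] (X : Base ι P)

theorem u_one : X.u 1 = 0 := by
  have := X.u_mul 1 1
  rw [mul_one] at this
  simpa using this

theorem u_inv (p : P) : X.u p⁻¹ = - X.u p := by
  have := X.u_mul p⁻¹ p
  rw [inv_mul_cancel, X.u_one] at this
  exact eq_neg_of_add_eq_zero_left this.symm

theorem u_pow (p : P) (n : ℕ) : X.u (p ^ n) = n • X.u p := by
  induction n with
  | zero => simp [X.u_one]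
  | succ n ih => rw [pow_succ, X.u_mul, ih, succ_nsmul]

theorem u_τ (z : Option ι → ℤ) : X.u (X.τ z) = X.N • z := by
  obtain ⟨g, rfl⟩ := X.u_surj z
  rw [← X.pow_eq, X.u_pow]

theorem τ_zero : X.τ 0 = 1 := by
  have := X.τ_add 0 0
  rw [add_zero] at this
  simpa using this

theorem τ_neg_mul (z : Option ι → ℤ) (p : P) : X.τ (-z) * (X.τ z * p) = p := by
  rw [← mul_assoc, ← X.τ_add, neg_add_cancel, X.τ_zero, one_mul]

theorem τ_nsmul (n : ℕ) (z : Option ι → ℤ) : X.τ (n • z) = X.τ z ^ n := by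
  induction n with
  | zero => simp [X.τ_zero]
  | succ n ih => rw [succ_nsmul, X.τ_add, ih, pow_succ]

/-- Reachable elements. -/
def R (p : P) : Prop := p ∈ Submonoid.closure (X.L : Set P)

theorem R_one : X.R 1 := Submonoid.one_mem _

theorem R_mul {X : Base ι P} {p q : P} (hp : X.R p) (hq : X.R q) : X.R (p * q) :=
  Submonoid.mul_mem _ hp hq

theorem R_pow {X : Base ι P} {p : P} (hp : X.R p) (n : ℕ) : X.R (p ^ n) :=
  Submonoid.pow_mem _ hp n

theorem R_of_mem {s : P} (hs : s ∈ X.L) : X.R s := Submonoid.subset_closure hs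

theorem R_form (f : (Option ι → ℝ) →ₗ[ℝ] ℝ) (h : ∀ s ∈ X.L, 0 ≤ f (toR (X.u s))) {p : P}
    (hp : X.R p) : 0 ≤ f (toR (X.u p)) := by
  induction hp using Submonoid.closure_induction with
  | mem s hs => exact h s hs
  | one => simp [X.u_one, toR_zero]
  | mul p q _ _ hp hq => rw [X.u_mul, toR_add, map_add]; exact add_nonneg hp hq

variable [Fintype ι]

theorem exists_R_norm : ∃ C0 : ℝ, 1 ≤ C0 ∧ ∀ p, X.R p → ‖toR (X.u p)‖ ≤ C0 * X.u p none := by
  refine ⟨1 + ∑ s ∈ X.L, ‖toR (X.u s)‖, by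
    have : 0 ≤ ∑ s ∈ X.L, ‖toR (X.u s)‖ := by positivity
    linarith, fun p hp => ?_⟩
  induction hp using Submonoid.closure_induction with
  | mem s hs =>
    rw [X.L_one s hs]
    have := Finset.single_le_sum (f := fun s => ‖toR (X.u s)‖) (fun _ _ => norm_nonneg _) hs
    simp only [Int.cast_one, mul_one]
    linarith
  | one => simp [X.u_one, toR_zero]
  | mul p q _ _ hp hq =>
    rw [X.u_mul, toR_add]
    refine (norm_add_le _ _).trans ?_
    simp only [Pi.add_apply, Int.cast_add]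
    linarith

theorem finite_fiber (z : Option ι → ℤ) : {p | X.u p = z}.Finite := by
  obtain ⟨g, rfl⟩ := X.u_surj z
  refine (X.ker_fin.image fun p => g * p).subset fun p hp => ⟨g⁻¹ * p, ?_, by simp⟩
  simp only [mem_ofPred_eq] at hp ⊢
  rw [X.u_mul, X.u_inv, hp, neg_add_cancel]

theorem ncard_fiber (z : Option ι → ℤ) : {p | X.u p = z}.ncard = {p | X.u p = 0}.ncard := by
  obtain ⟨g, rfl⟩ := X.u_surj z
  have : {p | X.u p = X.u g} = (fun p => g * p) '' {p | X.u p = 0} := by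
    ext p
    simp only [mem_ofPred_eq, mem_image]
    constructor
    · intro hp
      exact ⟨g⁻¹ * p, by rw [X.u_mul, X.u_inv, hp, neg_add_cancel], by simp⟩
    · rintro ⟨q, hq, rfl⟩
      rw [X.u_mul, hq, add_zero]
  rw [this, ncard_image_of_injective _ (mul_right_injective g)]

theorem finite_norm_le {U : Type*} [Fintype U] (ρ : ℝ) : {z : U → ℤ | ‖toR z‖ ≤ ρ}.Finite := by
  refine (Set.Finite.pi' (fun _ : U => Set.finite_Icc (-⌈ρ⌉) ⌈ρ⌉)).subset fun z hz i => ?_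
  have h1 : |(z i : ℝ)| ≤ ρ := (norm_le_pi_norm (toR z) i).trans hz
  have h2 := abs_le.1 (h1.trans (Int.le_ceil ρ))
  constructor
  · exact_mod_cast h2.1
  · exact_mod_cast h2.2

theorem finite_ball0 (ρ : ℝ) : {p | ‖toR (X.u p)‖ ≤ ρ}.Finite := by
  refine ((finite_norm_le (U := Option ι) ρ).biUnion fun z _ => X.finite_fiber z).subset ?_
  intro p hp
  simp only [mem_iUnion]
  exact ⟨X.u p, hp, rfl⟩

theorem ball_subset (w : Option ι → ℝ) (ρ : ℝ) : ∃ g : P,
    {p | ‖toR (X.u p) - w‖ ≤ ρ} ⊆ (fun p => g * p) '' {p | ‖toR (X.u p)‖ ≤ ρ + 1} := by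
  obtain ⟨g, hg⟩ := X.u_surj fun i => ⌊w i⌋
  refine ⟨g, fun p hp => ⟨g⁻¹ * p, ?_, by simp⟩⟩
  simp only [mem_ofPred_eq] at hp ⊢
  rw [X.u_mul, X.u_inv, hg, toR_add, toR_neg]
  have h2 : w - toR (fun i => ⌊w i⌋) ∈ cube (Option ι) := by
    rw [mem_cube]; intro i
    simp only [Pi.sub_apply, toR]
    constructor
    · linarith [Int.floor_le (w i)]
    · linarith [Int.lt_floor_add_one (w i)]
  have h3 := norm_le_of_mem_cube h2
  calc ‖-toR (fun i => ⌊w i⌋) + toR (X.u p)‖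
      = ‖(toR (X.u p) - w) + (w - toR (fun i => ⌊w i⌋))‖ := by congr 1; abel
    _ ≤ _ := norm_add_le _ _
    _ ≤ ρ + 1 := add_le_add hp h3

theorem finite_ball (w : Option ι → ℝ) (ρ : ℝ) : {p | ‖toR (X.u p) - w‖ ≤ ρ}.Finite := by
  obtain ⟨g, hg⟩ := X.ball_subset w ρ
  exact ((X.finite_ball0 _).image _).subset hg

theorem card_le_of_ball (ρ : ℝ) : ∃ M : ℕ, ∀ (w : Option ι → ℝ) (T : Finset P),
    (∀ p ∈ T, ‖toR (X.u p) - w‖ ≤ ρ) → T.card ≤ M := by
  refine ⟨{p | ‖toR (X.u p)‖ ≤ ρ + 1}.ncard, fun w T hT => ?_⟩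
  obtain ⟨g, hg⟩ := X.ball_subset w ρ
  rw [← Set.ncard_coe_finset, ← ncard_image_of_injective {p | ‖toR (X.u p)‖ ≤ ρ + 1}
    (mul_right_injective g)]
  exact ncard_le_ncard (fun p hp => hg (hT p hp)) ((X.finite_ball0 _).image _)

end Base

end Pool.Agent.MP_b3b911_al

end

section

/-! Parametric integer quadratic programs with a definite form. -/

namespace Pool.Agent.MP_b3b911_al

/-- Integer vectors as rational vectors. -/
def toQ {α : Type*} (x : α → ℤ) : α → ℚ := fun i => (x i : ℚ)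

theorem toQ_add {α : Type*} (x y : α → ℤ) : toQ (x + y) = toQ x + toQ y := by
  funext i; simp [toQ]

theorem toQ_neg {α : Type*} (x : α → ℤ) : toQ (-x) = - toQ x := by
  funext i; simp [toQ]

theorem toQ_zero {α : Type*} : toQ (0 : α → ℤ) = 0 := by
  funext i; simp [toQ]

theorem toQ_nsmul {α : Type*} (n : ℕ) (x : α → ℤ) : toQ (n • x) = (n : ℚ) • toQ x := by
  funext i; simp [toQ]

theorem toQ_injective {α : Type*} {x y : α → ℤ} (h : toQ x = toQ y) : x = y := by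
  funext i
  have := congrFun h i
  simpa [toQ] using this

section QP

variable {I U : Type*} [Fintype I] [Fintype U]

theorem exists_den (μ : (U → ℚ) →ₗ[ℚ] (I → ℚ)) :
    ∃ den : ℕ, 0 < den ∧ ∀ z : U → ℤ, ∃ t : I → ℤ, toQ t = (den : ℚ) • μ (toQ z) := by
  classical
  obtain ⟨m, hm, κ, hκ⟩ := exists_int_mul fun x : U × I => μ (Pi.single x.1 1) x.2
  refine ⟨m, hm, fun z => ⟨fun i => ∑ o, z o * κ (o, i), ?_⟩⟩
  funext i
  have : toQ z = ∑ o, (z o : ℚ) • Pi.single o (1 : ℚ) := by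
    funext o; simp [toQ, Finset.sum_apply, Pi.single_apply]
  rw [this, map_sum]
  simp only [toQ, map_smul, Pi.smul_apply, Finset.sum_apply, smul_eq_mul, Finset.mul_sum]
  push_cast
  exact Finset.sum_congr rfl fun o _ => by rw [hκ]; ring

/-- The data attached to a parametric quadratic program. -/
structure QPData (Λ : (I → ℚ) →ₗ[ℚ] (U → ℚ)) (B : LinearMap.BilinForm ℚ (I → ℚ)) where
  good : Prop
  C : ℕ
  den : ℕ
  den_pos : 0 < den
  μ : (U → ℚ) →ₗ[ℚ] (I → ℚ)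
  wc : ((I → ℚ) →ₗ[ℚ] ℚ) → I → ℚ
  bad : ¬ good → ∃ κ : I → ℤ, κ ≠ 0 ∧ Λ (toQ κ) = 0 ∧ 0 ≤ B (toQ κ) (toQ κ) ∧ ∀ i, |κ i| ≤ C
  range : ∀ t, Λ (μ (Λ t)) = Λ t
  lattice : ∀ z : U → ℤ, Λ (μ (toQ z)) = toQ z → ∃ t : I → ℤ, Λ (toQ t) = (den : ℚ) • toQ z
  max : good → ∀ ℓ t, B t t + ℓ t ≤
    B (μ (Λ t) + wc ℓ) (μ (Λ t) + wc ℓ) + ℓ (μ (Λ t) + wc ℓ)
  prox : good → ∀ (ℓ : (I → ℚ) →ₗ[ℚ] ℚ) (t : I → ℤ),
    (∀ κ : I → ℤ, Λ (toQ κ) = 0 → (∀ i, |κ i| ≤ C) →
      B (toQ (t + κ)) (toQ (t + κ)) + ℓ (toQ (t + κ)) ≤ B (toQ t) (toQ t) + ℓ (toQ t)) →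
    ∀ i, (t i : ℚ) - C ≤ (μ (Λ (toQ t)) + wc ℓ) i
  round : good → ∀ (ℓ : (I → ℚ) →ₗ[ℚ] ℚ) (t0 : I → ℤ), ∃ t : I → ℤ, Λ (toQ t) = Λ (toQ t0) ∧
    (∀ i, (μ (Λ (toQ t0)) + wc ℓ) i - C ≤ t i) ∧
    B (μ (Λ (toQ t0)) + wc ℓ) (μ (Λ (toQ t0)) + wc ℓ) + ℓ (μ (Λ (toQ t0)) + wc ℓ) - C ≤
      B (toQ t) (toQ t) + ℓ (toQ t)

theorem exists_ginv (Λ : (I → ℚ) →ₗ[ℚ] (U → ℚ)) :
    ∃ g : (U → ℚ) →ₗ[ℚ] (I → ℚ), ∀ t, Λ (g (Λ t)) = Λ t := by
  obtain ⟨h, hh⟩ := Λ.rangeRestrict.exists_rightInverse_of_surjective Λ.range_rangeRestrict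
  obtain ⟨g, hg⟩ := h.exists_extend
  refine ⟨g, fun t => ?_⟩
  have a1 := LinearMap.congr_fun hg ⟨Λ t, LinearMap.mem_range_self _ _⟩
  have a2 := congrArg Subtype.val (LinearMap.congr_fun hh ⟨Λ t, LinearMap.mem_range_self _ _⟩)
  simp only [LinearMap.coe_comp, Submodule.coe_subtype, Function.comp_apply] at a1
  rw [a1]
  simpa using a2

theorem lattice_of (Λ : (I → ℚ) →ₗ[ℚ] (U → ℚ)) (μ : (U → ℚ) →ₗ[ℚ] (I → ℚ)) :
    ∃ den : ℕ, 0 < den ∧ ∀ z : U → ℤ, Λ (μ (toQ z)) = toQ z →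
      ∃ t : I → ℤ, Λ (toQ t) = (den : ℚ) • toQ z := by
  obtain ⟨den, h0, h1⟩ := exists_den μ
  refine ⟨den, h0, fun z hz => ?_⟩
  obtain ⟨t, ht⟩ := h1 z
  exact ⟨t, by rw [ht, map_smul, hz]⟩

theorem nonempty_qp (Λ : (I → ℚ) →ₗ[ℚ] (U → ℚ)) (B0 : LinearMap.BilinForm ℚ (I → ℚ)) :
    Nonempty (QPData Λ B0) := by
  classical
  obtain ⟨g, hg⟩ := exists_ginv Λ
  by_cases hgood : ∀ w, Λ w = 0 → w ≠ 0 → B0 w w < 0
  swap
  · push Not at hgood
    obtain ⟨w, h1, h2, h3⟩ := hgood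
    obtain ⟨m, hm, κ, hκ⟩ := exists_int_mul w
    have e : toQ κ = (m : ℚ) • w := funext hκ
    have hm' : (0 : ℚ) < m := by exact_mod_cast hm
    obtain ⟨den, d1, d2⟩ := lattice_of Λ g
    refine ⟨⟨False, ∑ i, (κ i).natAbs, den, d1, g, fun _ => 0, fun _ => ⟨κ, ?_, ?_, ?_, ?_⟩, hg, d2,
      False.elim, False.elim, False.elim⟩⟩
    · rintro rfl
      rw [toQ_zero, eq_comm, smul_eq_zero] at e
      exact h2 (e.resolve_left hm'.ne')
    · rw [e, map_smul, h1, smul_zero]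
    · rw [e]
      simp only [map_smul, LinearMap.smul_apply, smul_eq_mul]
      positivity
    · intro i
      rw [← Int.natCast_natAbs]
      exact_mod_cast Finset.single_le_sum (f := fun i => (κ i).natAbs) (fun _ _ => Nat.zero_le _)
        (Finset.mem_univ i)
  let B : LinearMap.BilinForm ℚ (I → ℚ) := B0 + B0.flip
  have hB : ∀ x y, B x y = B0 x y + B0 y x := fun _ _ => rfl
  let W := LinearMap.ker Λ
  have hnd0 : ∀ x : W, B x x = 0 → x = 0 := by
    intro x hx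
    by_contra hne
    have := hgood x x.2 (fun h => hne (Subtype.ext h))
    rw [hB] at hx
    linarith
  have hnd : (B.restrict W).Nondegenerate :=
    ⟨fun x hx => hnd0 x (hx x), fun x hx => hnd0 x (hx x)⟩
  let T := ((B.restrict W).toDual hnd).symm
  have hT : ∀ (f : Module.Dual ℚ W) (w : W), B (T f) w = f w := fun f w =>
    LinearMap.BilinForm.apply_toDual_symm_apply (hB := hnd) f w
  let π : (I → ℚ) →ₗ[ℚ] (I → ℚ) := W.subtype ∘ₗ T.toLinearMap ∘ₗ W.subtype.dualMap ∘ₗ B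
  have hπ1 : ∀ t, Λ (π t) = 0 := fun t => (T (W.subtype.dualMap (B t))).2
  have hπ2 : ∀ t (w : W), B (π t) w = B t w := fun t w => hT _ w
  let μ : (U → ℚ) →ₗ[ℚ] (I → ℚ) := g - π ∘ₗ g
  have hμ1 : ∀ t, Λ (μ (Λ t)) = Λ t := fun t => by
    simp only [μ, LinearMap.sub_apply, LinearMap.comp_apply, map_sub, hπ1, hg, sub_zero]
  have hμ2 : ∀ x (w : W), B (μ x) w = 0 := fun x w => by
    simp only [μ, LinearMap.sub_apply, LinearMap.comp_apply, map_sub, hπ2, sub_self]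
  let wc : ((I → ℚ) →ₗ[ℚ] ℚ) → I → ℚ := fun ℓ => T (-(ℓ ∘ₗ W.subtype))
  have hw1 : ∀ ℓ, Λ (wc ℓ) = 0 := fun ℓ => (T (-(ℓ ∘ₗ W.subtype))).2
  have hw2 : ∀ ℓ (w : W), B (wc ℓ) w = -ℓ w := fun ℓ w => hT _ w
  have key : ∀ (ℓ : (I → ℚ) →ₗ[ℚ] ℚ) x d, Λ d = 0 →
      B0 (μ x + wc ℓ + d) (μ x + wc ℓ + d) + ℓ (μ x + wc ℓ + d) =
        B0 (μ x + wc ℓ) (μ x + wc ℓ) + ℓ (μ x + wc ℓ) + B0 d d := by
    intro ℓ x d hd
    have a1 := hμ2 x ⟨d, hd⟩
    have a2 := hw2 ℓ ⟨d, hd⟩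
    rw [hB] at a1 a2
    simp only [map_add, LinearMap.add_apply] at a1 a2 ⊢
    linarith
  have hd : ∀ (ℓ : (I → ℚ) →ₗ[ℚ] ℚ) t, Λ (t - (μ (Λ t) + wc ℓ)) = 0 := fun ℓ t => by
    rw [map_sub, map_add, hμ1, hw1, add_zero, sub_self]
  obtain ⟨den, d1, d2⟩ := lattice_of Λ μ
  let b := Module.finBasis ℚ W
  choose m hm κ hκ using fun j => exists_int_mul (b j : I → ℚ)
  have eκ : ∀ j, toQ (κ j) = (m j : ℚ) • (b j : I → ℚ) := fun j => funext (hκ j)
  have hm1 : ∀ j, (1 : ℚ) ≤ m j := fun j => by exact_mod_cast hm j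
  have hκ0 : ∀ j, Λ (toQ (κ j)) = 0 := fun j => by
    rw [eκ, map_smul, (b j).2, smul_zero]
  let bd := (B.restrict W).dualBasis hnd b
  obtain ⟨C, hC⟩ := exists_nat_ge ((∑ i, ∑ j, |(κ j i : ℚ)|) +
    (∑ i, ∑ j, |B0 (toQ (κ j)) (toQ (κ j))| * |(bd j : I → ℚ) i|) +
    ∑ j, ∑ j', |B0 (toQ (κ j)) (toQ (κ j'))|)
  have p1 : 0 ≤ ∑ i, ∑ j, |(κ j i : ℚ)| := by positivity
  have p2 : 0 ≤ ∑ i, ∑ j, |B0 (toQ (κ j)) (toQ (κ j))| * |(bd j : I → ℚ) i| := by positivity
  have p3 : 0 ≤ ∑ j, ∑ j', |B0 (toQ (κ j)) (toQ (κ j'))| := by positivity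
  have c1 : ∀ i, ∑ j, |(κ j i : ℚ)| ≤ C := fun i =>
    (Finset.single_le_sum (f := fun i => ∑ j, |(κ j i : ℚ)|) (fun _ _ => by positivity)
      (Finset.mem_univ i)).trans (by linarith)
  have c2 : ∀ i, ∑ j, |B0 (toQ (κ j)) (toQ (κ j))| * |(bd j : I → ℚ) i| ≤ C := fun i =>
    (Finset.single_le_sum (f := fun i => ∑ j, |B0 (toQ (κ j)) (toQ (κ j))| * |(bd j : I → ℚ) i|)
      (fun _ _ => by positivity) (Finset.mem_univ i)).trans (by linarith)
  refine ⟨⟨True, C, den, d1, μ, wc, fun h => absurd trivial h, hμ1, d2, fun _ ℓ t => ?_,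
    fun _ ℓ t h i => ?_, fun _ ℓ t0 => ?_⟩⟩
  · have a1 := key ℓ (Λ t) _ (hd ℓ t)
    rw [add_sub_cancel] at a1
    have a2 : B0 (t - (μ (Λ t) + wc ℓ)) (t - (μ (Λ t) + wc ℓ)) ≤ 0 := by
      by_cases h0 : t - (μ (Λ t) + wc ℓ) = 0
      · simp [h0]
      · exact (hgood _ (hd ℓ t) h0).le
    linarith
  · set d := toQ t - (μ (Λ (toQ t)) + wc ℓ) with hdd
    have hd0 : Λ d = 0 := hd ℓ _
    have a0 := key ℓ (Λ (toQ t)) _ hd0
    have e0 : μ (Λ (toQ t)) + wc ℓ + d = toQ t := by rw [hdd]; abel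
    rw [e0] at a0
    have hb : ∀ j, |B d (b j)| ≤ |B0 (toQ (κ j)) (toQ (κ j))| := by
      intro j
      have hk : ∀ i, |κ j i| ≤ C := fun i => by
        have : |(κ j i : ℚ)| ≤ C := (Finset.single_le_sum (f := fun j => |(κ j i : ℚ)|)
          (fun _ _ => abs_nonneg _) (Finset.mem_univ j)).trans (c1 i)
        exact_mod_cast this
      have a1 := h (κ j) (hκ0 j) hk
      have a2 := h (-κ j) (by rw [toQ_neg, map_neg, hκ0, neg_zero]) (by simpa using hk)
      have a3 := key ℓ (Λ (toQ t)) (d + toQ (κ j)) (by rw [map_add, hd0, hκ0, add_zero])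
      have a4 := key ℓ (Λ (toQ t)) (d + -toQ (κ j))
        (by rw [map_add, map_neg, hd0, hκ0, neg_zero, add_zero])
      rw [← add_assoc, e0] at a3 a4
      rw [toQ_add] at a1 a2
      rw [toQ_neg] at a2
      rw [a3, a0] at a1
      rw [a4, a0] at a2
      simp only [map_add, map_neg, LinearMap.add_apply, LinearMap.neg_apply] at a1 a2
      have a5 : |B d (toQ (κ j))| ≤ |B0 (toQ (κ j)) (toQ (κ j))| := by
        have := neg_abs_le (B0 (toQ (κ j)) (toQ (κ j)))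
        rw [hB, abs_le]; constructor <;> linarith
      rw [eκ j, map_smul, smul_eq_mul, abs_mul, ← eκ j, abs_of_nonneg (Nat.cast_nonneg _)] at a5
      nlinarith [hm1 j, abs_nonneg (B d (b j))]
    have e1 := congrFun (congrArg Subtype.val (bd.sum_repr ⟨d, hd0⟩)) i
    simp only [AddSubmonoidClass.coe_finsetSum, SetLike.val_smul, Finset.sum_apply, Pi.smul_apply,
      smul_eq_mul, bd, LinearMap.BilinForm.dualBasis_repr_apply] at e1
    have a6 : |d i| ≤ C := by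
      rw [← e1]
      refine (Finset.abs_sum_le_sum_abs _ _).trans (le_trans (Finset.sum_le_sum fun j _ => ?_) (c2 i))
      rw [abs_mul]
      exact mul_le_mul_of_nonneg_right (hb j) (abs_nonneg _)
    have a7 : d i = t i - (μ (Λ (toQ t)) + wc ℓ) i := rfl
    linarith [(abs_le.1 a6).2]
  · set d := toQ t0 - (μ (Λ (toQ t0)) + wc ℓ) with hdd
    have hd0 : Λ d = 0 := hd ℓ _
    let x := fun j => b.repr ⟨d, hd0⟩ j / m j
    have e1 : d = ∑ j, x j • toQ (κ j) := by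
      have := congrArg Subtype.val (b.sum_repr ⟨d, hd0⟩)
      simp only [AddSubmonoidClass.coe_finsetSum, SetLike.val_smul] at this
      rw [← this]
      refine Finset.sum_congr rfl fun j _ => ?_
      have : (m j : ℚ) ≠ 0 := by linarith [hm1 j]
      rw [eκ, smul_smul]
      congr 1
      simp only [x]; field_simp
    have e2 : toQ (t0 - ∑ j, ⌊x j⌋ • κ j) =
        μ (Λ (toQ t0)) + wc ℓ + ∑ j, Int.fract (x j) • toQ (κ j) := by
      have : toQ t0 = μ (Λ (toQ t0)) + wc ℓ + d := by rw [hdd]; abel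
      funext i
      have a1 := congrFun this i
      rw [e1] at a1
      simp only [toQ, Pi.sub_apply, Pi.add_apply, Finset.sum_apply, Pi.smul_apply, smul_eq_mul,
        Int.fract] at a1 ⊢
      push_cast
      rw [a1]
      simp only [sub_mul, Finset.sum_sub_distrib]
      ring
    have e3 : Λ (∑ j, Int.fract (x j) • toQ (κ j)) = 0 := by
      simp [map_sum, hκ0]
    have hf : ∀ j, |Int.fract (x j)| ≤ 1 := fun j => by
      rw [abs_of_nonneg (Int.fract_nonneg _)]; exact (Int.fract_lt_one _).le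
    refine ⟨t0 - ∑ j, ⌊x j⌋ • κ j, ?_, fun i => ?_, ?_⟩
    · rw [e2, map_add, map_add, hμ1, hw1, e3, add_zero, add_zero]
    · have a1 := congrFun e2 i
      have a2 : |(∑ j, Int.fract (x j) • toQ (κ j)) i| ≤ C := by
        rw [Finset.sum_apply]
        refine (Finset.abs_sum_le_sum_abs _ _).trans
          (le_trans (Finset.sum_le_sum fun j _ => ?_) (c1 i))
        simp only [Pi.smul_apply, smul_eq_mul, abs_mul, toQ]
        exact mul_le_of_le_one_left (abs_nonneg _) (hf j)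
      rw [Pi.add_apply] at a1
      have a3 : toQ (t0 - ∑ j, ⌊x j⌋ • κ j) i = ((t0 - ∑ j, ⌊x j⌋ • κ j) i : ℤ) := rfl
      rw [← a3, a1]
      linarith [(abs_le.1 a2).1]
    · rw [e2, key ℓ _ _ e3]
      have a2 : |B0 (∑ j, Int.fract (x j) • toQ (κ j)) (∑ j, Int.fract (x j) • toQ (κ j))| ≤ C := by
        refine le_trans ?_ (show ∑ j, ∑ j', |B0 (toQ (κ j)) (toQ (κ j'))| ≤ C by linarith)
        rw [map_sum B0, LinearMap.sum_apply]
        refine (Finset.abs_sum_le_sum_abs _ _).trans (Finset.sum_le_sum fun j _ => ?_)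
        rw [map_sum]
        refine (Finset.abs_sum_le_sum_abs _ _).trans (Finset.sum_le_sum fun j' _ => ?_)
        simp only [map_smul, LinearMap.smul_apply, smul_eq_mul, abs_mul]
        exact (mul_le_of_le_one_left (by positivity) (hf _)).trans
          (mul_le_of_le_one_left (abs_nonneg _) (hf _))
      linarith [(abs_le.1 a2).1]

theorem exists_int_ineq (φ : (U → ℚ) →ₗ[ℚ] ℚ) (b : ℚ) :
    ∃ ab : (U → ℤ) × ℤ, ∀ u : U → ℤ, ab.2 ≤ ab.1 ⬝ᵥ u ↔ b ≤ φ (toQ u) := by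
  classical
  obtain ⟨m, hm, κ, hκ⟩ := exists_int_mul fun o : Option U => o.elim b fun o => φ (Pi.single o 1)
  refine ⟨⟨fun o => κ (some o), κ none⟩, fun u => ?_⟩
  have hm' : (0 : ℚ) < m := by exact_mod_cast hm
  have e : toQ u = ∑ o, (u o : ℚ) • Pi.single o (1 : ℚ) := by
    funext o; simp [toQ, Finset.sum_apply, Pi.single_apply]
  have e2 : (((fun o => κ (some o)) ⬝ᵥ u : ℤ) : ℚ) = m * φ (toQ u) := by
    rw [e, map_sum, Finset.mul_sum, dotProduct]
    push_cast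
    exact Finset.sum_congr rfl fun o _ => by rw [hκ]; simp; ring
  rw [← Int.cast_le (R := ℚ), e2, hκ]
  exact mul_le_mul_iff_right₀ hm'

theorem exists_int_ineqs {A : Type*} [Fintype A] (φ : A → (U → ℚ) →ₗ[ℚ] ℚ) (b : A → ℚ) :
    ∃ Φ : Finset ((U → ℤ) × ℤ), ∀ u : U → ℤ,
      (∀ ab ∈ Φ, ab.2 ≤ ab.1 ⬝ᵥ u) ↔ ∀ a, b a ≤ φ a (toQ u) := by
  classical
  choose ab hab using fun a => exists_int_ineq (φ a) (b a)
  refine ⟨Finset.univ.image ab, fun u => ?_⟩
  simp [hab]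

theorem exists_real_lin (φ : (U → ℚ) →ₗ[ℚ] ℚ) :
    ∃ φ' : (U → ℝ) →ₗ[ℝ] ℝ, ∀ u : U → ℤ, φ' (toR u) = (φ (toQ u) : ℚ) := by
  classical
  refine ⟨∑ o, ((φ (Pi.single o 1) : ℚ) : ℝ) • LinearMap.proj o, fun u => ?_⟩
  have e : toQ u = ∑ o, (u o : ℚ) • Pi.single o (1 : ℚ) := by
    funext o; simp [toQ, Finset.sum_apply, Pi.single_apply]
  rw [e, map_sum]
  simp only [LinearMap.sum_apply, LinearMap.smul_apply, LinearMap.proj_apply, toR, smul_eq_mul,
    map_smul]
  push_cast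
  exact Finset.sum_congr rfl fun o _ => by ring

theorem exists_real_bilin (q : LinearMap.BilinForm ℚ (U → ℚ)) :
    ∃ q' : LinearMap.BilinForm ℝ (U → ℝ), ∀ u : U → ℤ,
      q' (toR u) (toR u) = (q (toQ u) (toQ u) : ℚ) := by
  classical
  choose f hf using fun o => exists_real_lin (q (Pi.single o 1))
  refine ⟨∑ o, (LinearMap.proj o : (U → ℝ) →ₗ[ℝ] ℝ).smulRight (f o), fun u => ?_⟩
  have e : toQ u = ∑ o, (u o : ℚ) • Pi.single o (1 : ℚ) := by
    funext o; simp [toQ, Finset.sum_apply, Pi.single_apply]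
  have : q (toQ u) = ∑ o, (u o : ℚ) • q (Pi.single o 1) := by
    conv_lhs => rw [e, map_sum]
    simp
  rw [this]
  simp only [LinearMap.sum_apply, LinearMap.smulRight_apply, LinearMap.proj_apply,
    LinearMap.smul_apply, smul_eq_mul, hf]
  push_cast
  rfl

end QP

end Pool.Agent.MP_b3b911_al

end

section

/-! Heights of words, and consolidation of words into boundedly many blocks. -/

namespace Pool.Agent.MP_b3b911_al

/-- A group over the base with a height cocycle. -/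
structure Ext {ι : Type} {P : Type*} [Group P] (X : Base ι P) (G : Type*) [Group G] where
  pr : G →* P
  S : Finset G
  L_eq : ∀ p, p ∈ X.L ↔ ∃ s ∈ S, pr s = p
  ht : G → ℚ
  ω : LinearMap.BilinForm ℚ (Option ι → ℚ)
  ω_self : ∀ x, ω x x = 0
  ht_mul : ∀ g h, ht (g * h) = ht g + ht h + ω (toQ (X.u (pr g))) (toQ (X.u (pr h)))

/-- Product of a list of blocks. -/
def bw {G : Type*} [Group G] (l : List (G × ℕ)) : G := (l.map fun e => e.1 ^ e.2).prod

section bw

variable {G : Type*} [Group G]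

@[simp] theorem bw_nil : bw ([] : List (G × ℕ)) = 1 := rfl

@[simp] theorem bw_cons (e : G × ℕ) (l : List (G × ℕ)) : bw (e :: l) = e.1 ^ e.2 * bw l := by
  simp [bw]

@[simp] theorem bw_append (l l' : List (G × ℕ)) : bw (l ++ l') = bw l * bw l' := by
  simp [bw]

open Classical in
/-- Total multiplicity of a letter. -/
noncomputable def cnt (s : G) (l : List (G × ℕ)) : ℕ :=
  (l.map fun e => if e.1 = s then e.2 else 0).sum

open Classical in
/-- Removal of a letter. -/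
noncomputable def rem (s : G) (l : List (G × ℕ)) : List (G × ℕ) := l.filter fun e => e.1 ≠ s

omit [Group G] in
theorem cnt_append (s : G) (l l' : List (G × ℕ)) : cnt s (l ++ l') = cnt s l + cnt s l' := by
  simp [cnt]

omit [Group G] in
theorem rem_append (s : G) (l l' : List (G × ℕ)) : rem s (l ++ l') = rem s l ++ rem s l' := by
  simp [rem]

omit [Group G] in
theorem cnt_cons_self (s : G) (n : ℕ) (l : List (G × ℕ)) : cnt s ((s, n) :: l) = n + cnt s l := by
  simp [cnt]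

omit [Group G] in
theorem cnt_cons_ne {s t : G} (h : t ≠ s) (n : ℕ) (l : List (G × ℕ)) :
    cnt s ((t, n) :: l) = cnt s l := by
  simp [cnt, h]

omit [Group G] in
theorem rem_cons_self (s : G) (n : ℕ) (l : List (G × ℕ)) : rem s ((s, n) :: l) = rem s l := by
  simp [rem]

omit [Group G] in
theorem rem_cons_ne {s t : G} (h : t ≠ s) (n : ℕ) (l : List (G × ℕ)) :
    rem s ((t, n) :: l) = (t, n) :: rem s l := by
  simp [rem, h]

end bw

namespace Ext

variable {ι : Type} {P : Type*} [Group P] {X : Base ι P} {G : Type*} [Group G] (E : Ext X G)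

/-- Image in the rational lattice. -/
def v (g : G) : Option ι → ℚ := toQ (X.u (E.pr g))

/-- Level. -/
def lv (g : G) : ℤ := X.u (E.pr g) none

/-- Products of letters. -/
def cl (g : G) : Prop := g ∈ Submonoid.closure (E.S : Set G)

/-- All blocks use letters. -/
def ok (l : List (G × ℕ)) : Prop := ∀ e ∈ l, e.1 ∈ E.S

theorem v_mul (g h : G) : E.v (g * h) = E.v g + E.v h := by
  simp only [v, map_mul, X.u_mul, toQ_add]

theorem v_one : E.v 1 = 0 := by simp only [v, map_one, X.u_one, toQ_zero]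

theorem v_pow (g : G) (n : ℕ) : E.v (g ^ n) = (n : ℚ) • E.v g := by
  simp only [v, map_pow, X.u_pow, toQ_nsmul]

theorem v_congr {g h : G} (e : E.pr g = E.pr h) : E.v g = E.v h := by simp only [v, e]

theorem lv_mul (g h : G) : E.lv (g * h) = E.lv g + E.lv h := by
  simp only [lv, map_mul, X.u_mul, Pi.add_apply]

theorem lv_one : E.lv 1 = 0 := by simp only [lv, map_one, X.u_one, Pi.zero_apply]

theorem lv_pow (g : G) (n : ℕ) : E.lv (g ^ n) = n * E.lv g := by
  simp only [lv, map_pow, X.u_pow, Pi.smul_apply, nsmul_eq_mul]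

theorem lv_congr {g h : G} (e : E.pr g = E.pr h) : E.lv g = E.lv h := by simp only [lv, e]

theorem pr_mem {s : G} (hs : s ∈ E.S) : E.pr s ∈ X.L := (E.L_eq _).2 ⟨s, hs, rfl⟩

theorem lv_letter {s : G} (hs : s ∈ E.S) : E.lv s = 1 := X.L_one _ (E.pr_mem hs)

theorem ht_mul' (g h : G) : E.ht (g * h) = E.ht g + E.ht h + E.ω (E.v g) (E.v h) := E.ht_mul g h

theorem ht_one : E.ht 1 = 0 := by
  have := E.ht_mul' 1 1
  rw [mul_one, E.ω_self] at this
  linarith

theorem ht_pow (g : G) (n : ℕ) : E.ht (g ^ n) = n * E.ht g := by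
  induction n with
  | zero => simp [E.ht_one]
  | succ n ih =>
    rw [pow_succ, ht_mul', ih, v_pow, map_smul, LinearMap.smul_apply, E.ω_self]
    push_cast; simp; ring

theorem ω_swap (x y : Option ι → ℚ) : E.ω x y = - E.ω y x := by
  have := E.ω_self (x + y)
  simp only [map_add, LinearMap.add_apply, E.ω_self] at this
  linarith

theorem cl_one : E.cl 1 := Submonoid.one_mem _

variable {E} in
theorem cl.mul {g h : G} (hg : E.cl g) (hh : E.cl h) : E.cl (g * h) := Submonoid.mul_mem _ hg hh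

variable {E} in
theorem cl.pow {g : G} (hg : E.cl g) (n : ℕ) : E.cl (g ^ n) := Submonoid.pow_mem _ hg n

theorem cl_letter {s : G} (hs : s ∈ E.S) : E.cl s := Submonoid.subset_closure hs

theorem cl_bw {l : List (G × ℕ)} (h : E.ok l) : E.cl (bw l) := by
  induction l with
  | nil => exact E.cl_one
  | cons e l ih =>
    rw [bw_cons]
    exact ((E.cl_letter (h e (by simp))).pow _).mul (ih fun e he => h e (by simp [he]))

theorem R_iff {p : P} : X.R p ↔ ∃ g, E.cl g ∧ E.pr g = p := by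
  have : (X.L : Set P) = E.pr '' E.S := by
    ext p; simp [E.L_eq]
  rw [Base.R, this, ← MonoidHom.map_mclosure, Submonoid.mem_map]
  rfl

theorem R_pr {g : G} (h : E.cl g) : X.R (E.pr g) := E.R_iff.2 ⟨g, h, rfl⟩

theorem lv_nonneg {g : G} (h : E.cl g) : 0 ≤ E.lv g := by
  induction h using Submonoid.closure_induction with
  | mem s hs => rw [E.lv_letter hs]; exact zero_le_one
  | one => rw [lv_one]
  | mul p q _ _ hp hq => rw [lv_mul]; exact add_nonneg hp hq

theorem exists_Ω : ∃ Ω : ℕ, (∀ s ∈ E.S, |E.ht s| ≤ Ω) ∧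
    ∀ g h, E.cl g → E.cl h → |E.ω (E.v g) (E.v h)| ≤ Ω * E.lv g * E.lv h := by
  obtain ⟨Ω, hΩ⟩ := exists_nat_ge (∑ s ∈ E.S, |E.ht s| + ∑ s ∈ E.S, ∑ t ∈ E.S, |E.ω (E.v s) (E.v t)|)
  have p1 : 0 ≤ ∑ s ∈ E.S, |E.ht s| := Finset.sum_nonneg fun _ _ => abs_nonneg _
  have p2 : 0 ≤ ∑ s ∈ E.S, ∑ t ∈ E.S, |E.ω (E.v s) (E.v t)| :=
    Finset.sum_nonneg fun _ _ => Finset.sum_nonneg fun _ _ => abs_nonneg _
  refine ⟨Ω, fun s hs => (Finset.single_le_sum (f := fun s => |E.ht s|)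
    (fun _ _ => abs_nonneg _) hs).trans (by linarith), fun g h hg hh => ?_⟩
  induction hg using Submonoid.closure_induction with
  | mem s hs =>
    induction hh using Submonoid.closure_induction with
    | mem t ht =>
      rw [E.lv_letter hs, E.lv_letter ht]
      have a1 := Finset.single_le_sum (f := fun t => |E.ω (E.v s) (E.v t)|)
        (fun _ _ => abs_nonneg _) ht
      have a2 := Finset.single_le_sum (f := fun s => ∑ t ∈ E.S, |E.ω (E.v s) (E.v t)|)
        (fun _ _ => Finset.sum_nonneg fun _ _ => abs_nonneg _) hs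
      simp only [Int.cast_one, mul_one]
      linarith
    | one => simp [v_one, lv_one]
    | mul p q _ _ hp hq =>
      rw [v_mul, lv_mul, map_add]
      push_cast
      exact (abs_add_le _ _).trans (by linarith)
  | one => simp [v_one, lv_one]
  | mul p q _ _ hp hq =>
    rw [v_mul, lv_mul, map_add, LinearMap.add_apply]
    push_cast
    exact (abs_add_le _ _).trans (by linarith)

theorem finite_cl (k : ℤ) : {g | E.cl g ∧ E.lv g = k}.Finite := by
  have h1 : ∀ n : ℕ, {g | ∃ l : List G, (∀ x ∈ l, x ∈ E.S) ∧ l.length = n ∧ l.prod = g}.Finite := by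
    intro n
    induction n with
    | zero => exact (Set.finite_singleton 1).subset (by rintro _ ⟨l, -, h, rfl⟩; simp_all)
    | succ n ih =>
      refine (Set.Finite.image2 (· * ·) E.S.finite_toSet ih).subset ?_
      rintro _ ⟨l, h1, h2, rfl⟩
      rcases l with _ | ⟨x, l⟩
      · simp at h2
      · exact ⟨x, h1 x (by simp), l.prod, ⟨l, fun y hy => h1 y (by simp [hy]), by simpa using h2,
          rfl⟩, by simp⟩
  have h2 : ∀ l : List G, (∀ x ∈ l, x ∈ E.S) → E.lv l.prod = l.length := by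
    intro l hl
    induction l with
    | nil => simp [lv_one]
    | cons x l ih =>
      rw [List.prod_cons, lv_mul, E.lv_letter (hl x (by simp)), ih fun y hy => hl y (by simp [hy])]
      simp; ring
  refine (h1 k.toNat).subset fun g hg => ?_
  obtain ⟨l, hl, rfl⟩ := Submonoid.exists_list_of_mem_closure hg.1
  refine ⟨l, hl, ?_, rfl⟩
  have := hg.2
  rw [h2 l hl] at this
  omega

/-- Products of letters over a given point. -/
noncomputable def fib (p : P) : Finset G :=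
  Set.Finite.toFinset (s := {g | E.cl g ∧ E.pr g = p})
    ((E.finite_cl (X.u p none)).subset fun g hg => ⟨hg.1, by rw [← hg.2]; rfl⟩)

theorem mem_fib {p : P} {g : G} : g ∈ E.fib p ↔ E.cl g ∧ E.pr g = p := by simp [fib]

/-- Maximal height over a given point. -/
noncomputable def top (p : P) : ℝ := val (E.fib p) fun g => (E.ht g : ℝ)

theorem le_top {p : P} {g : G} (h : E.cl g) (e : E.pr g = p) : (E.ht g : ℝ) ≤ E.top p :=
  le_val (fun g => (E.ht g : ℝ)) (E.mem_fib.2 ⟨h, e⟩)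

theorem exists_top {p : P} (h : X.R p) : ∃ g, E.cl g ∧ E.pr g = p ∧ E.top p = E.ht g := by
  obtain ⟨g, h1, h2⟩ := E.R_iff.1 h
  obtain ⟨g', h3, -, h4, -⟩ := exists_wsup ⟨g, E.mem_fib.2 ⟨h1, h2⟩⟩ fun g => (E.ht g : ℝ)
  exact ⟨g', (E.mem_fib.1 h3).1, (E.mem_fib.1 h3).2, h4⟩

theorem top_eq_zero {p : P} (h : ¬ X.R p) : E.top p = 0 := by
  have : E.fib p = ∅ := by
    rw [Finset.eq_empty_iff_forall_notMem]
    intro g hg
    exact h (E.R_iff.2 ⟨g, E.mem_fib.1 hg⟩)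
  rw [top, this, val_empty]

theorem pr_pow_comm (g : G) {n : ℕ} (h : X.N ∣ n) (p : P) : E.pr g ^ n * p = p * E.pr g ^ n := by
  obtain ⟨m, rfl⟩ := h
  rw [pow_mul, X.pow_eq, ← X.τ_nsmul, X.τ_comm]

theorem u_bw (s : G) (l : List (G × ℕ)) :
    X.u (E.pr (bw l)) = cnt s l • X.u (E.pr s) + X.u (E.pr (bw (rem s l))) := by
  induction l with
  | nil => simp [cnt, rem]
  | cons e l ih =>
    obtain ⟨t, n⟩ := e
    by_cases h : t = s
    · subst h
      rw [cnt_cons_self, rem_cons_self, bw_cons, map_mul, X.u_mul, ih, map_pow, X.u_pow, add_nsmul,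
        add_assoc]
    · rw [cnt_cons_ne h, rem_cons_ne h, bw_cons, bw_cons, map_mul, map_mul, X.u_mul, X.u_mul, ih]
      abel

theorem v_bw (s : G) (l : List (G × ℕ)) :
    E.v (bw l) = (cnt s l : ℚ) • E.v s + E.v (bw (rem s l)) := by
  simp only [v, E.u_bw s l, toQ_add, toQ_nsmul]

theorem slot (s : G) (l : List (G × ℕ)) : ∃ l1 l2, rem s l = l1 ++ l2 ∧
    E.ht (bw l) ≤ E.ht (bw (l1 ++ (s, cnt s l) :: l2)) := by
  induction l with
  | nil => exact ⟨[], [], rfl, by simp [cnt]⟩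
  | cons e l ih =>
    obtain ⟨t, n⟩ := e
    obtain ⟨l1, l2, h1, h2⟩ := ih
    have hv := E.v_bw s l
    rw [h1, bw_append, v_mul] at hv
    by_cases h : t = s
    · subst h
      rw [cnt_cons_self, rem_cons_self, h1]
      simp only [bw_append, bw_cons, ht_mul', v_mul, v_pow, ht_pow, map_add, map_smul,
        LinearMap.add_apply, LinearMap.smul_apply, smul_eq_mul, E.ω_self] at h2
      have a1 := E.ω_swap (E.v (bw l1)) (E.v t)
      have n0 : (0 : ℚ) ≤ n := Nat.cast_nonneg _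
      have c0 : (0 : ℚ) ≤ cnt t l := Nat.cast_nonneg _
      rcases le_total 0 (E.ω (E.v t) (E.v (bw l1))) with h0 | h0
      · refine ⟨[], l1 ++ l2, rfl, ?_⟩
        simp only [List.nil_append, bw_append, bw_cons, ht_mul', v_mul, v_pow, ht_pow, map_add,
          map_smul, LinearMap.smul_apply, smul_eq_mul, E.ω_self, hv]
        push_cast
        nlinarith [mul_nonneg c0 h0]
      · refine ⟨l1, l2, rfl, ?_⟩
        simp only [bw_append, bw_cons, ht_mul', v_mul, v_pow, ht_pow, map_add,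
          map_smul, LinearMap.smul_apply, smul_eq_mul, E.ω_self, hv]
        push_cast
        nlinarith [mul_nonneg n0 (neg_nonneg.2 h0)]
    · refine ⟨(t, n) :: l1, l2, by rw [rem_cons_ne h, h1]; rfl, ?_⟩
      rw [cnt_cons_ne h, List.cons_append, bw_cons, bw_cons, ht_mul', ht_mul' E (t ^ n)]
      have : E.v (bw l) = E.v (bw (l1 ++ (s, cnt s l) :: l2)) := by
        rw [hv, bw_append, bw_cons, v_mul, v_mul, v_pow]; abel
      rw [this]
      linarith

theorem reduce (l : List (G × ℕ)) (hl : E.ok l)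
    (hlen : E.S.card * (X.ker_fin.toFinset.card * X.N) * 2 < l.length) :
    ∃ l', E.ok l' ∧ l'.length < l.length ∧ E.pr (bw l') = E.pr (bw l) ∧
      E.ht (bw l) ≤ E.ht (bw l') := by
  classical
  let κ : G → List (G × ℕ) → P := fun s l =>
    E.pr (bw l) * (E.pr s ^ cnt s l * E.pr (bw (rem s l)))⁻¹
  let a : ℕ → G := fun i => (l.getD i (1, 0)).1
  let f : ℕ → G × P × ℕ := fun i => (a i, κ (a i) (l.take i), cnt (a i) (l.take i) % X.N)
  obtain ⟨y, -, hy⟩ := Finset.exists_lt_card_fiber_of_mul_lt_card_of_maps_to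
    (s := Finset.range l.length) (t := E.S ×ˢ X.ker_fin.toFinset ×ˢ Finset.range X.N) (f := f)
    (n := 2) (fun i hi => by
      rw [Finset.mem_range] at hi
      simp only [f, Finset.mem_product, Set.Finite.mem_toFinset, Set.mem_ofPred_eq,
        Finset.mem_range]
      refine ⟨?_, ?_, Nat.mod_lt _ X.N_pos⟩
      · simp only [a, List.getD_eq_getElem _ _ hi]
        exact hl _ (List.getElem_mem hi)
      · simp only [κ]
        rw [X.u_mul, X.u_inv, X.u_mul, X.u_pow, ← E.u_bw, add_neg_cancel])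
    (by simpa using hlen)
  set T := (Finset.range l.length).filter fun i => f i = y with hT
  have hne : T.Nonempty := Finset.card_pos.1 (by omega)
  obtain ⟨i2, hi2⟩ : ((T.erase (T.min' hne)).erase (T.max' hne)).Nonempty := by
    rw [← Finset.card_pos]
    have := Finset.pred_card_le_card_erase (s := T) (a := T.min' hne)
    have := Finset.pred_card_le_card_erase (s := T.erase (T.min' hne)) (a := T.max' hne)
    omega
  simp only [Finset.mem_erase] at hi2
  obtain ⟨n3, n1, m2⟩ := hi2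
  have h12 : T.min' hne < i2 := lt_of_le_of_ne (T.min'_le _ m2) n1.symm
  have h23 : i2 < T.max' hne := lt_of_le_of_ne (T.le_max' _ m2) n3
  have m1 := T.min'_mem hne
  have m3 := T.max'_mem hne
  generalize T.min' hne = i1 at *
  generalize T.max' hne = i3 at *
  simp only [hT, Finset.mem_filter, Finset.mem_range] at m1 m2 m3
  obtain ⟨s, k0, r⟩ := y
  simp only [f, Prod.mk.injEq] at m1 m2 m3
  obtain ⟨l1, s1, k1, r1⟩ := m1
  obtain ⟨l2, s2, -, -⟩ := m2
  obtain ⟨l3, s3, k3, r3⟩ := m3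
  rw [s1] at k1 r1
  rw [s3] at k3 r3
  obtain ⟨Y, hY⟩ : ∃ Y, l.take i3 = l.take i1 ++ Y :=
    ⟨(l.take i3).drop i1, by
      conv_lhs => rw [← List.take_append_drop i1 (l.take i3)]
      rw [List.take_take, min_eq_left (by omega)]⟩
  have hcount : ∀ i (hi : i < l.length), a i = s → (l.take (i + 1)).countP (fun e => e.1 = s) =
      (l.take i).countP (fun e => e.1 = s) + 1 := by
    intro i hi h
    simp only [a, List.getD_eq_getElem _ _ hi] at h
    rw [List.take_add_one, List.getElem?_eq_getElem hi, List.countP_append]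
    simp [h]
  have hmono : ∀ i j, i ≤ j → (l.take i).countP (fun e => e.1 = s) ≤
      (l.take j).countP (fun e => e.1 = s) := fun i j h =>
    (List.take_sublist_take_left h).countP_le
  have hY2 : 2 ≤ Y.countP (fun e => e.1 = s) := by
    have b1 := hcount i1 l1 s1
    have b2 := hcount i2 l2 s2
    have b3 := hmono (i1 + 1) i2 h12
    have b4 := hmono (i2 + 1) i3 h23
    rw [hY, List.countP_append] at b4
    omega
  have hY3 : (rem s Y).length + 2 ≤ Y.length := by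
    have : ∀ Y : List (G × ℕ), (rem s Y).length + Y.countP (fun e => e.1 = s) = Y.length := by
      intro Y
      induction Y with
      | nil => simp [rem]
      | cons e Y ih =>
        obtain ⟨t, n⟩ := e
        by_cases h : t = s
        · subst h
          rw [rem_cons_self]; simp; omega
        · rw [rem_cons_ne h]; simp [h]; omega
    have := this Y
    omega
  have hdvd : X.N ∣ cnt s Y := by
    rw [hY, cnt_append, ← r1] at r3
    exact (Nat.modEq_iff_dvd' (Nat.le_add_right _ _)).1 r3.symm |>.trans (by simp)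
  have hpr : E.pr (bw Y) = E.pr s ^ cnt s Y * E.pr (bw (rem s Y)) := by
    rw [← k1, hY] at k3
    simp only [κ, cnt_append, rem_append, bw_append, map_mul, pow_add] at k3
    rw [mul_assoc, mul_right_inj, mul_inv_eq_iff_eq_mul] at k3
    rw [k3, mul_assoc (E.pr s ^ cnt s (l.take i1)), ← mul_assoc (E.pr s ^ cnt s Y),
      E.pr_pow_comm s hdvd]
    group
  obtain ⟨Y1, Y2, e1, e2⟩ := E.slot s Y
  have hl' : l = l.take i1 ++ Y ++ l.drop i3 := by rw [← hY, List.take_append_drop]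
  have hpr' : E.pr (bw (Y1 ++ (s, cnt s Y) :: Y2)) = E.pr (bw Y) := by
    rw [hpr, e1]
    simp only [bw_append, bw_cons, map_mul, map_pow]
    rw [← mul_assoc, ← mul_assoc, E.pr_pow_comm s hdvd]
  refine ⟨l.take i1 ++ (Y1 ++ (s, cnt s Y) :: Y2) ++ l.drop i3, ?_, ?_, ?_, ?_⟩
  · intro e he
    have hsub : ∀ e ∈ rem s Y, e.1 ∈ E.S := fun e he =>
      hl e (by rw [hl']; simp [List.mem_of_mem_filter he])
    rw [e1] at hsub
    simp only [List.mem_append, List.mem_cons] at he hsub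
    rcases he with (he | he | he | he) | he
    · exact hl e (List.mem_of_mem_take he)
    · exact hsub e (Or.inl he)
    · rw [he, ← s1]
      simp only [a, List.getD_eq_getElem _ _ l1]
      exact hl _ (List.getElem_mem l1)
    · exact hsub e (Or.inr he)
    · exact hl e (List.mem_of_mem_drop he)
  · rw [e1] at hY3
    conv_rhs => rw [hl']
    simp only [List.length_append, List.length_cons] at hY3 ⊢
    omega
  · conv_rhs => rw [hl']
    rw [bw_append, bw_append, bw_append (l.take i1 ++ Y), bw_append (l.take i1) Y, map_mul,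
      map_mul, map_mul, map_mul, hpr']
  · conv_lhs => rw [hl']
    rw [bw_append, bw_append, bw_append (l.take i1 ++ _), bw_append (l.take i1)]
    simp only [ht_mul', v_mul, E.v_congr hpr']
    linarith

theorem consolidate : ∃ M : ℕ, ∀ g, E.cl g → ∃ l, E.ok l ∧ l.length ≤ M ∧ E.pr (bw l) = E.pr g ∧
    E.ht g ≤ E.ht (bw l) := by
  refine ⟨E.S.card * (X.ker_fin.toFinset.card * X.N) * 2, fun g hg => ?_⟩
  obtain ⟨l0, h0, rfl⟩ := Submonoid.exists_list_of_mem_closure hg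
  have e : l0.prod = bw (l0.map fun x => (x, 1)) := by
    simp [bw, Function.comp_def]
  have h1 : E.ok (l0.map fun x => (x, 1)) := by
    intro e he
    obtain ⟨x, hx, rfl⟩ := List.mem_map.1 he
    exact h0 x hx
  rw [e]
  generalize (l0.map fun x => (x, 1)) = l at h1
  induction hn : l.length using Nat.strong_induction_on generalizing l with
  | _ n ih =>
    by_cases h : E.S.card * (X.ker_fin.toFinset.card * X.N) * 2 < l.length
    · obtain ⟨l', a1, a2, a3, a4⟩ := E.reduce l h1 h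
      obtain ⟨l'', b1, b2, b3, b4⟩ := ih _ (hn ▸ a2) l' a1 rfl
      exact ⟨l'', b1, b2, b3.trans a3, a4.trans b4⟩
    · exact ⟨l, h1, not_lt.1 h, rfl, le_rfl⟩

end Ext

end Pool.Agent.MP_b3b911_al

end

section

/-! Filling the range of heights over a point. -/

namespace Pool.Agent.MP_b3b911_al

theorem chain_ivt {α : Type*} {r : α → α → Prop} {Inv : α → Prop} {f : α → ℚ} {c : ℚ} (hc : 0 ≤ c)
    (hr : ∀ a b, r a b → Inv b ∧ f a - f b ≤ c) {x y : α} (h : Relation.ReflTransGen r x y)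
    (hx : Inv x) {t : ℚ} (h1 : f y ≤ t) (h2 : t ≤ f x) : ∃ e, Inv e ∧ t ≤ f e ∧ f e ≤ t + c := by
  induction h using Relation.ReflTransGen.head_induction_on with
  | refl => exact ⟨y, hx, h2, by linarith⟩
  | @head a b hab _ ih =>
    by_cases h3 : t ≤ f b
    · exact ih (hr a b hab).1 h3
    · exact ⟨a, hx, h2, by linarith [(hr a b hab).2, not_le.1 h3]⟩

theorem first_split {α : Type*} (p : α → Prop) (l : List α) (h : ∃ e ∈ l, p e) :
    ∃ l1 e l2, l = l1 ++ e :: l2 ∧ p e ∧ ∀ x ∈ l1, ¬ p x := by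
  induction l with
  | nil => simp at h
  | cons a l ih =>
    by_cases ha : p a
    · exact ⟨[], a, l, rfl, ha, by simp⟩
    · obtain ⟨e, h1, h2⟩ := h
      rcases List.mem_cons.1 h1 with rfl | h1
      · exact absurd h2 ha
      obtain ⟨l1, e', l2, h3, h4, h5⟩ := ih ⟨e, h1, h2⟩
      refine ⟨a :: l1, e', l2, by rw [h3]; rfl, h4, fun x hx => ?_⟩
      rcases List.mem_cons.1 hx with rfl | hx
      · exact ha
      · exact h5 x hx

namespace Ext

variable {ι : Type} {P : Type*} [Group P] {X : Base ι P} {G : Type*} [Group G] (E : Ext X G)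

/-- Reversing the sign of the height. -/
def neg : Ext X G :=
  { E with
    ht := fun g => -E.ht g
    ω := -E.ω
    ω_self := fun x => by simp [E.ω_self]
    ht_mul := fun g h => by rw [E.ht_mul]; simp; ring }

/-- One small move. -/
def Step (c : ℚ) (g g' : G) : Prop := E.cl g' ∧ E.pr g' = E.pr g ∧ E.ht g - E.ht g' ≤ c

/-- A chain of small moves. -/
def Ch (c : ℚ) : G → G → Prop := Relation.ReflTransGen (E.Step c)

variable {E}

theorem Ch.inv {c : ℚ} {g g' : G} (h : E.Ch c g g') (hg : E.cl g) : E.cl g' ∧ E.pr g' = E.pr g := by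
  induction h with
  | refl => exact ⟨hg, rfl⟩
  | tail _ h2 ih => exact ⟨h2.1, h2.2.1.trans ih.2⟩

theorem Ch.ctx {c : ℚ} {g g' : G} (h : E.Ch c g g') {A B : G} (hA : E.cl A) (hB : E.cl B) :
    E.Ch c (A * g * B) (A * g' * B) := by
  refine Relation.ReflTransGen.lift (p := E.Step c) (fun g => A * g * B) (fun a b hab => ?_) _ _ h
  refine ⟨(hA.mul hab.1).mul hB, by simp only [map_mul, hab.2.1], ?_⟩
  simp only [ht_mul', v_mul, E.v_congr hab.2.1]
  linarith [hab.2.2]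

theorem Ch.ctxL {c : ℚ} {g g' : G} (h : E.Ch c g g') {A : G} (hA : E.cl A) :
    E.Ch c (A * g) (A * g') := by simpa using h.ctx hA E.cl_one

theorem Ch.ctxR {c : ℚ} {g g' : G} (h : E.Ch c g g') {B : G} (hB : E.cl B) :
    E.Ch c (g * B) (g' * B) := by simpa using h.ctx E.cl_one hB

theorem Ch.trans {c : ℚ} {g g' g'' : G} (h : E.Ch c g g') (h' : E.Ch c g' g'') : E.Ch c g g'' :=
  Relation.ReflTransGen.trans h h'

theorem swap_pow {c : ℚ} {e f : G} (he : E.cl e) (hf : E.cl f)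
    (hc : ∀ p, E.pr e * p = p * E.pr e) (hω : 2 * E.ω (E.v e) (E.v f) ≤ c) (i : ℕ) :
    E.Ch c (e ^ i * f) (f * e ^ i) := by
  induction i with
  | zero => simp; exact Relation.ReflTransGen.refl
  | succ i ih =>
    have h1 : E.Ch c (e * f) (f * e) := Relation.ReflTransGen.single
      ⟨hf.mul he, by simp only [map_mul, hc], by
        simp only [ht_mul']; linarith [E.ω_swap (E.v f) (E.v e)]⟩
    have h2 := h1.ctxL (he.pow i)
    have h3 := ih.ctxR he
    rw [← mul_assoc, ← pow_succ, ← mul_assoc] at h2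
    rw [mul_assoc f, ← pow_succ] at h3
    exact h2.trans h3

theorem swap_bw {c : ℚ} {e : G} (he : E.cl e) (hc : ∀ p, E.pr e * p = p * E.pr e) (i : ℕ)
    (l : List (G × ℕ)) (hl : ∀ x ∈ l, E.cl x.1 ∧ 2 * E.ω (E.v e) (E.v x.1) ≤ c) :
    E.cl (bw l) ∧ E.Ch c (e ^ i * bw l) (bw l * e ^ i) := by
  induction l with
  | nil => simp; exact ⟨E.cl_one, Relation.ReflTransGen.refl⟩
  | cons x l ih =>
    obtain ⟨f, j⟩ := x
    obtain ⟨h1, h2⟩ := ih fun x hx => hl x (by simp [hx])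
    obtain ⟨hf, hω⟩ := hl (f, j) (by simp)
    have h3 : ∀ j, E.Ch c (e ^ i * f ^ j) (f ^ j * e ^ i) := by
      intro j
      induction j with
      | zero => simp; exact Relation.ReflTransGen.refl
      | succ j ihj =>
        have a1 := (swap_pow he hf hc hω i).ctxR (hf.pow j)
        have a2 := ihj.ctxL hf
        rw [mul_assoc, ← pow_succ', mul_assoc] at a1
        rw [← mul_assoc f (f ^ j), ← pow_succ'] at a2
        exact a1.trans a2
    rw [bw_cons]
    refine ⟨(hf.pow j).mul h1, ?_⟩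
    have a1 := (h3 j).ctxR h1
    have a2 := h2.ctxL (hf.pow j)
    rw [mul_assoc, mul_assoc] at a1
    rw [mul_assoc]
    exact a1.trans a2

variable (E)

theorem rev {Ω : ℕ} (hΩ1 : ∀ s ∈ E.S, |E.ht s| ≤ Ω)
    (hΩ2 : ∀ g h, E.cl g → E.cl h → |E.ω (E.v g) (E.v h)| ≤ Ω * E.lv g * E.lv h)
    {c : ℚ} (hc : 2 * Ω * X.N * X.N ≤ c) (l : List (G × ℕ)) (hl : E.ok l) :
    ∃ g, E.Ch c (bw l) g ∧ E.ht (bw l) + E.ht g ≤ 2 * Ω * (1 + X.N * l.length) * E.lv (bw l) := by
  have hN : (1 : ℚ) ≤ X.N := by exact_mod_cast X.N_pos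
  have key : ∃ l1 l2 : List (G × ℕ), (∀ x ∈ l1 ++ l2, E.cl x.1 ∧ (E.lv x.1 : ℚ) ≤ X.N) ∧
      E.Ch c (bw l) (bw (l1 ++ l2)) ∧
      E.ht (bw l) + E.ht (bw (l1 ++ l2)) ≤ 2 * Ω * (1 + X.N * l.length) * E.lv (bw l) := by
    induction l with
    | nil => exact ⟨[], [], by simp, Relation.ReflTransGen.refl, by simp [ht_one, lv_one]⟩
    | cons x l ih =>
      obtain ⟨s, n⟩ := x
      have hl' : E.ok l := fun e he => hl e (by simp [he])
      obtain ⟨l1, l2, h1, h2, h3⟩ := ih hl'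
      have hs : s ∈ E.S := hl (s, n) (by simp)
      have cs := E.cl_letter hs
      have lN : (E.lv (s ^ X.N) : ℚ) = X.N := by rw [lv_pow, E.lv_letter hs]; simp
      obtain ⟨b1, b2⟩ := swap_bw (c := c) (cs.pow X.N)
        (fun p => by rw [map_pow]; exact E.pr_pow_comm s dvd_rfl p) (n / X.N) (l1 ++ l2)
        fun x hx => ⟨(h1 x hx).1, by
          have a1 := (abs_le.1 (hΩ2 _ _ (cs.pow X.N) (h1 x hx).1)).2
          rw [lN] at a1
          have a2 : (Ω : ℚ) * X.N * E.lv x.1 ≤ Ω * X.N * X.N :=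
            mul_le_mul_of_nonneg_left (h1 x hx).2 (by positivity)
          linarith⟩
      have e1 : s ^ n = s ^ (n % X.N) * (s ^ X.N) ^ (n / X.N) := by
        rw [← pow_mul, ← pow_add, Nat.mod_add_div]
      have e2 : bw (((s, n % X.N) :: l1) ++ (l2 ++ [(s ^ X.N, n / X.N)])) =
          s ^ (n % X.N) * (bw (l1 ++ l2) * (s ^ X.N) ^ (n / X.N)) := by
        simp [mul_assoc]
      refine ⟨(s, n % X.N) :: l1, l2 ++ [(s ^ X.N, n / X.N)], fun x hx => ?_, ?_, ?_⟩
      · simp only [List.mem_append, List.mem_cons, List.not_mem_nil, or_false] at hx h1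
        rcases hx with (rfl | hx) | hx | rfl
        · exact ⟨cs, by rw [E.lv_letter hs]; exact_mod_cast X.N_pos⟩
        · exact h1 x (Or.inl hx)
        · exact h1 x (Or.inr hx)
        · exact ⟨cs.pow _, lN.le⟩
      · rw [e2, bw_cons, e1, mul_assoc]
        exact ((h2.ctxL ((cs.pow _).pow _)).trans b2).ctxL (cs.pow _)
      · have hv := E.v_congr (h2.inv (E.cl_bw hl')).2
        have a1 := (abs_le.1 (hΩ1 s hs)).2
        have a2 := (abs_le.1 (hΩ2 _ _ cs (E.cl_bw hl'))).2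
        have a3 : (0 : ℚ) ≤ E.lv (bw l) := by exact_mod_cast E.lv_nonneg (E.cl_bw hl')
        have a4 : ((n % X.N : ℕ) : ℚ) ≤ X.N := by exact_mod_cast (Nat.mod_lt n X.N_pos).le
        have a5 : (n : ℚ) = (n % X.N : ℕ) + X.N * (n / X.N : ℕ) := by
          exact_mod_cast (Nat.mod_add_div n X.N).symm
        have a6 := E.ω_swap (E.v (bw l)) (E.v s)
        rw [E.lv_letter hs, Int.cast_one, mul_one] at a2
        rw [e2, bw_cons, lv_mul, lv_pow, E.lv_letter hs]
        simp only [ht_mul', v_mul, v_pow, ht_pow, map_add, map_smul, LinearMap.smul_apply,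
          smul_eq_mul, E.ω_self, hv, List.length_cons, a6]
        push_cast
        have n0 : (0 : ℚ) ≤ n := Nat.cast_nonneg _
        have r0 : (0 : ℚ) ≤ (n % X.N : ℕ) := Nat.cast_nonneg _
        have o0 : (0 : ℚ) ≤ Ω := Nat.cast_nonneg _
        have l0 : (0 : ℚ) ≤ l.length := Nat.cast_nonneg _
        have b3 : ((n % X.N : ℕ) : ℚ) * E.ω (E.v s) (E.v (bw l)) ≤ X.N * (Ω * E.lv (bw l)) :=
          (mul_le_mul_of_nonneg_left a2 r0).trans (mul_le_mul_of_nonneg_right a4 (by positivity))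
        have b4 : (n : ℚ) * E.ht s ≤ n * Ω := mul_le_mul_of_nonneg_left a1 n0
        have b5 : (0 : ℚ) ≤ Ω * (X.N * (l.length + 1)) * n := by positivity
        generalize ((n % X.N : ℕ) : ℚ) = r at *
        generalize ((n / X.N : ℕ) : ℚ) = q at *
        rw [a5] at b4 b5 ⊢
        nlinarith
  obtain ⟨l1, l2, -, h2, h3⟩ := key
  exact ⟨_, h2, h3⟩

theorem sym : ∃ C : ℕ, ∀ p, X.R p → E.top p - E.neg.top p ≤ C * X.u p none := by
  obtain ⟨M, hM⟩ := E.consolidate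
  obtain ⟨Ω, hΩ1, hΩ2⟩ := E.exists_Ω
  refine ⟨2 * Ω * (1 + X.N * M), fun p hp => ?_⟩
  obtain ⟨g, g1, g2, g3⟩ := E.exists_top hp
  obtain ⟨l, l1, l2, l3, l4⟩ := hM g g1
  obtain ⟨g', h1, h2⟩ := E.rev hΩ1 hΩ2 le_rfl l l1
  obtain ⟨h3, h4⟩ := h1.inv (E.cl_bw l1)
  have a1 := E.neg.le_top (g := g') h3 (h4.trans (l3.trans g2))
  have a2 : E.lv (bw l) = X.u p none := by rw [lv, l3, g2]
  have a3 : (0 : ℚ) ≤ E.lv (bw l) := by exact_mod_cast E.lv_nonneg (E.cl_bw l1)
  have a4 : (l.length : ℚ) ≤ M := by exact_mod_cast l2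
  have a5 : E.ht g + E.ht g' ≤ 2 * Ω * (1 + X.N * M) * E.lv (bw l) := by
    have : (2 * Ω * (1 + X.N * l.length) * E.lv (bw l) : ℚ) ≤
      2 * Ω * (1 + X.N * M) * E.lv (bw l) := by gcongr
    linarith
  rw [a2] at a5
  have a6 := (Rat.cast_le (K := ℝ)).2 a5
  have a7 : E.neg.ht g' = -E.ht g' := rfl
  rw [a7] at a1
  rw [g3]
  push_cast at a1 a6 ⊢
  linarith

theorem small_omega {Ω : ℕ}
    (hΩ2 : ∀ g h, E.cl g → E.cl h → |E.ω (E.v g) (E.v h)| ≤ Ω * E.lv g * E.lv h) {s : G}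
    (hs : s ∈ E.S) (a : ℕ) (l : List (G × ℕ)) (hl : E.ok l)
    (h : ∀ x ∈ l, ¬ (a ≤ x.2 ∧ E.ω (E.v s) (E.v x.1) ≠ 0)) :
    E.ω (E.v s) (E.v (bw l)) ≤ Ω * (l.length * a) := by
  induction l with
  | nil => simp [v_one]
  | cons x l ih =>
    have a1 := ih (fun e he => hl e (by simp [he])) fun e he => h e (by simp [he])
    have a2 : (x.2 : ℚ) * E.ω (E.v s) (E.v x.1) ≤ Ω * a := by
      by_cases h0 : E.ω (E.v s) (E.v x.1) = 0
      · rw [h0, mul_zero]; positivity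
      · have b1 : x.2 < a := by
          by_contra hc
          exact h x (by simp) ⟨not_lt.1 hc, h0⟩
        have b2 := (abs_le.1 (hΩ2 _ _ (E.cl_letter hs) (E.cl_letter (hl x (by simp))))).2
        rw [E.lv_letter hs, E.lv_letter (hl x (by simp))] at b2
        simp only [Int.cast_one, mul_one] at b2
        have b3 : (x.2 : ℚ) ≤ a := by exact_mod_cast b1.le
        calc _ ≤ (x.2 : ℚ) * Ω := mul_le_mul_of_nonneg_left b2 (Nat.cast_nonneg _)
          _ ≤ a * Ω := mul_le_mul_of_nonneg_right b3 (Nat.cast_nonneg _)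
          _ = _ := mul_comm _ _
    rw [bw_cons, v_mul, v_pow, map_add, map_smul, smul_eq_mul, List.length_cons]
    push_cast
    linarith

theorem pair_or_small {Ω : ℕ} (hΩ1 : ∀ s ∈ E.S, |E.ht s| ≤ Ω)
    (hΩ2 : ∀ g h, E.cl g → E.cl h → |E.ω (E.v g) (E.v h)| ≤ Ω * E.lv g * E.lv h)
    (a : ℕ) (l : List (G × ℕ)) (hl : E.ok l) :
    E.ht (bw l) ≤ Ω * (1 + l.length * a) * E.lv (bw l) ∨
      ∃ l1 s n1 l2 t n2 l3, l = l1 ++ (s, n1) :: (l2 ++ (t, n2) :: l3) ∧ a ≤ n1 ∧ a ≤ n2 ∧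
        E.ω (E.v s) (E.v t) ≠ 0 ∧ E.ω (E.v s) (E.v (bw l2)) ≤ Ω * (l2.length * a) := by
  induction l with
  | nil => left; simp [ht_one, lv_one]
  | cons x l ih =>
    obtain ⟨s, n⟩ := x
    have hl' : E.ok l := fun e he => hl e (by simp [he])
    have hs : s ∈ E.S := hl (s, n) (by simp)
    rcases ih hl' with ih | ⟨l1, s', n1, l2, t, n2, l3, h1, h2⟩
    swap
    · exact Or.inr ⟨(s, n) :: l1, s', n1, l2, t, n2, l3, by rw [h1]; rfl, h2⟩
    by_cases hp : a ≤ n ∧ ∃ x ∈ l, a ≤ x.2 ∧ E.ω (E.v s) (E.v x.1) ≠ 0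
    · obtain ⟨l2, x, l3, h1, h2, h3⟩ := first_split _ l hp.2
      refine Or.inr ⟨[], s, n, l2, x.1, x.2, l3, by rw [h1]; rfl, hp.1, h2.1, h2.2, ?_⟩
      exact E.small_omega hΩ2 hs a l2 (fun e he => hl' e (by simp [h1, he])) h3
    left
    have a1 := (abs_le.1 (hΩ1 s hs)).2
    have a3 : (0 : ℚ) ≤ E.lv (bw l) := by exact_mod_cast E.lv_nonneg (E.cl_bw hl')
    have n0 : (0 : ℚ) ≤ n := Nat.cast_nonneg _
    have o0 : (0 : ℚ) ≤ Ω := Nat.cast_nonneg _
    have l0 : (0 : ℚ) ≤ l.length := Nat.cast_nonneg _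
    have a0 : (0 : ℚ) ≤ a := Nat.cast_nonneg _
    have a2 : (n : ℚ) * E.ω (E.v s) (E.v (bw l)) ≤
        n * (Ω * (l.length * a)) + a * (Ω * E.lv (bw l)) := by
      by_cases hn : a ≤ n
      · have := E.small_omega hΩ2 hs a l hl' fun x hx h => hp ⟨hn, x, hx, h⟩
        have b1 := mul_le_mul_of_nonneg_left this n0
        have b2 : (0 : ℚ) ≤ a * (Ω * E.lv (bw l)) := by positivity
        linarith
      · have b0 := (abs_le.1 (hΩ2 _ _ (E.cl_letter hs) (E.cl_bw hl'))).2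
        rw [E.lv_letter hs, Int.cast_one, mul_one] at b0
        have b1 : (n : ℚ) ≤ a := by exact_mod_cast (not_le.1 hn).le
        have b2 : (0 : ℚ) ≤ n * (Ω * (l.length * a)) := by positivity
        have b3 := (mul_le_mul_of_nonneg_left b0 n0).trans
          (mul_le_mul_of_nonneg_right b1 (by positivity))
        linarith
    rw [bw_cons, lv_mul, lv_pow, E.lv_letter hs, ht_mul', ht_pow, v_pow, map_smul,
      LinearMap.smul_apply, smul_eq_mul, List.length_cons]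
    push_cast
    have b4 : (n : ℚ) * E.ht s ≤ n * Ω := mul_le_mul_of_nonneg_left a1 n0
    have b5 : (0 : ℚ) ≤ Ω * a * n := by positivity
    nlinarith

theorem abs_ht_le {Ω : ℕ} (hΩ1 : ∀ s ∈ E.S, |E.ht s| ≤ Ω)
    (hΩ2 : ∀ g h, E.cl g → E.cl h → |E.ω (E.v g) (E.v h)| ≤ Ω * E.lv g * E.lv h)
    {g : G} (hg : E.cl g) : |E.ht g| ≤ Ω * E.lv g ^ 2 := by
  induction hg using Submonoid.closure_induction with
  | mem s hs => rw [E.lv_letter hs]; simpa using hΩ1 s hs
  | one => simp [ht_one, lv_one]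
  | mul p q hp' hq' hp hq =>
    have a1 := hΩ2 p q hp' hq'
    have a2 : (0 : ℚ) ≤ E.lv p := by exact_mod_cast E.lv_nonneg hp'
    have a3 : (0 : ℚ) ≤ E.lv q := by exact_mod_cast E.lv_nonneg hq'
    have a4 : (0 : ℚ) ≤ Ω * E.lv p * E.lv q := by positivity
    rw [ht_mul', lv_mul]
    push_cast
    rw [abs_le] at *
    constructor <;> nlinarith [hp.1, hp.2, hq.1, hq.2, a1.1, a1.2]

theorem gadget {e t : G} (he : E.cl e) (ht : E.cl t) (hc : E.pr e * E.pr t = E.pr t * E.pr e)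
    {D : ℚ} (hD : |2 * E.ω (E.v e) (E.v t)| = D) {y : ℕ} (hy : 0 < y) :
    ∃ γ, E.cl γ ∧ E.pr γ = E.pr (e ^ y * t ^ y) ∧ E.ht (e ^ y * t ^ y) ≤ E.ht γ ∧
      ∀ i, i < y * y → ∃ γ', E.cl γ' ∧ E.pr γ' = E.pr γ ∧ E.ht γ' = E.ht γ - i * D := by
  have hc' : Commute (E.pr e) (E.pr t) := hc
  have key : ∀ n, n < y * y → ∃ γ', E.cl γ' ∧ E.pr γ' = E.pr (e ^ y * t ^ y) ∧
      E.ht γ' = E.ht (e ^ y * t ^ y) - n * (2 * E.ω (E.v e) (E.v t)) := by
    intro n hn
    have h1 : n / y < y := Nat.div_lt_of_lt_mul hn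
    have h2 : n % y < y := Nat.mod_lt _ hy
    have h3 : (n : ℚ) = (n % y : ℕ) + y * (n / y : ℕ) := by
      exact_mod_cast (Nat.mod_add_div n y).symm
    generalize n / y = b at *
    generalize n % y = j at *
    obtain ⟨a, ha⟩ : ∃ a, y = a + 1 + b := ⟨y - 1 - b, by omega⟩
    obtain ⟨j', hj⟩ : ∃ j', y = j + j' := ⟨y - j, by omega⟩
    refine ⟨e ^ a * t ^ j * e * t ^ j' * e ^ b, (((he.pow _).mul (ht.pow _)).mul he |>.mul
      (ht.pow _)).mul (he.pow _), ?_, ?_⟩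
    · simp only [map_mul, map_pow]
      conv_rhs => rw [ha]; arg 2; rw [← ha, hj]
      rw [pow_add, pow_add, pow_add, pow_one, mul_assoc (E.pr e ^ a), ← (hc'.pow_right j).eq]
      simp only [mul_assoc]
      rw [← (hc'.pow_pow b j').eq, ← mul_assoc (E.pr t ^ j), ← (hc'.pow_pow b j).eq, mul_assoc]
    · have a1 := E.ω_swap (E.v t) (E.v e)
      have b1 : (y : ℚ) = a + 1 + b := by exact_mod_cast ha
      have b2 : (j' : ℚ) = y - j := by rw [hj]; push_cast; ring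
      simp only [ht_mul', v_mul, v_pow, ht_pow, map_add, map_smul, LinearMap.add_apply,
        LinearMap.smul_apply, smul_eq_mul, E.ω_self, a1]
      rw [h3, b2, b1]; ring
  rcases le_total 0 (2 * E.ω (E.v e) (E.v t)) with h0 | h0
  · rw [abs_of_nonneg h0] at hD
    refine ⟨_, (he.pow y).mul (ht.pow y), rfl, le_rfl, fun i hi => ?_⟩
    rw [← hD]; exact key i hi
  · rw [abs_of_nonpos h0] at hD
    have hyy : 0 < y * y := Nat.mul_pos hy hy
    obtain ⟨γ, h1, h2, h3⟩ := key (y * y - 1) (by omega)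
    refine ⟨γ, h1, h2, ?_, fun i hi => ?_⟩
    · have : (0 : ℚ) ≤ (y * y - 1 : ℕ) := Nat.cast_nonneg _
      nlinarith
    · obtain ⟨γ', h4, h5, h6⟩ := key (y * y - 1 - i) (by omega)
      refine ⟨γ', h4, h5.trans h2.symm, ?_⟩
      have : ((y * y - 1 : ℕ) : ℚ) = (y * y - 1 - i : ℕ) + i := by
        exact_mod_cast (by omega : y * y - 1 = y * y - 1 - i + i)
      rw [h6, h3, this, ← hD]; ring

theorem fill {D : ℕ} (hD : 0 < D)
    (hcong : ∀ g g', E.pr g = E.pr g' → ∃ j : ℤ, E.ht g' = E.ht g + D * j)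
    (hm : ∀ s ∈ E.S, ∀ t ∈ E.S, E.ω (E.v s) (E.v t) ≠ 0 → ∃ m : ℕ,
      E.pr s ^ m * E.pr t = E.pr t * E.pr s ^ m ∧ |2 * (m * E.ω (E.v s) (E.v t))| = D) :
    ∃ C : ℕ, ∀ g, E.cl g → 1 ≤ E.lv g → C * E.lv g ≤ E.ht g →
      ∀ j : ℤ, 0 ≤ E.ht g + D * j → E.ht g + D * j ≤ E.ht g - C →
        ∃ g', E.cl g' ∧ E.pr g' = E.pr g ∧ E.ht g' = E.ht g + D * j := by
  classical
  obtain ⟨M, hM⟩ := E.consolidate
  obtain ⟨Ω, hΩ1, hΩ2⟩ := E.exists_Ω
  choose! m hm1 hm2 using hm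
  set mx : ℕ := ∑ s ∈ E.S, ∑ t ∈ E.S, m s t + 1 with hmx
  have hmle : ∀ s ∈ E.S, ∀ t ∈ E.S, m s t + 1 ≤ mx := fun s hs t ht => by
    have a1 := Finset.single_le_sum (f := fun t => m s t) (fun _ _ => Nat.zero_le _) ht
    have a2 := Finset.single_le_sum (f := fun s => ∑ t ∈ E.S, m s t) (fun _ _ => Nat.zero_le _) hs
    omega
  set y : ℕ := X.N * (2 * Ω * mx + 2 * Ω * X.N + 1) with hy
  have hN := X.N_pos
  have hy0 : 0 < y := Nat.mul_pos hN (by omega)
  set a : ℕ := mx * y with ha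
  set c : ℕ := 2 * Ω * X.N * X.N + 2 * Ω * a with hc
  have hcy : c < y * y := by
    have b1 : X.N ≤ y := Nat.le_mul_of_pos_right _ (by omega)
    have b2 : 2 * Ω * mx + 2 * Ω * X.N + 1 ≤ y := Nat.le_mul_of_pos_left _ hN
    have b3 := Nat.mul_le_mul_left y b2
    have b4 := Nat.mul_le_mul_left (2 * Ω * X.N) b1
    rw [hc, ha]
    nlinarith
  refine ⟨Ω * (1 + M * a) + 2 * a * (Ω * (M * a)) + 2 * (Ω * a ^ 2) + 2 * Ω * (1 + X.N * M) +
    2 * Ω * a + 1, fun g g1 hk htop j hj1 hj2 => ?_⟩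
  obtain ⟨l, l1, l2, l3, l4⟩ := hM g g1
  have hk' : (1 : ℚ) ≤ E.lv g := by exact_mod_cast hk
  have elv : E.lv (bw l) = E.lv g := E.lv_congr l3
  have l2' : (l.length : ℚ) ≤ M := by exact_mod_cast l2
  have o0 : (0 : ℚ) ≤ Ω := Nat.cast_nonneg _
  have a0 : (0 : ℚ) ≤ a := Nat.cast_nonneg _
  have M0 : (0 : ℚ) ≤ M := Nat.cast_nonneg _
  have N0 : (0 : ℚ) ≤ X.N := Nat.cast_nonneg _
  push_cast at htop hj2
  have p1 : (0 : ℚ) ≤ Ω * (1 + M * a) := by positivity
  have p2 : (0 : ℚ) ≤ 2 * a * (Ω * (M * a)) := by positivity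
  have p3 : (0 : ℚ) ≤ 2 * (Ω * a ^ 2) := by positivity
  have p4 : (0 : ℚ) ≤ 2 * Ω * (1 + X.N * M) := by positivity
  have p5 : (0 : ℚ) ≤ 2 * Ω * a := by positivity
  rcases E.pair_or_small hΩ1 hΩ2 a l l1 with h | ⟨L1, s, n1, L2, t, n2, L3, rfl, hn1, hn2, hω, hL2⟩
  · exfalso
    rw [elv] at h
    have : (Ω * (1 + l.length * a) * E.lv g : ℚ) ≤ Ω * (1 + M * a) * E.lv g := by gcongr
    have h0 := zero_le_one.trans hk'
    linarith [mul_nonneg p2 h0, mul_nonneg p3 h0, mul_nonneg p4 h0, mul_nonneg p5 h0]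
  have hs : s ∈ E.S := l1 (s, n1) (by simp)
  have ht : t ∈ E.S := l1 (t, n2) (by simp)
  have cs := E.cl_letter hs
  have ct := E.cl_letter ht
  obtain ⟨γ, γ1, γ2, γ3, γ4⟩ := E.gadget (e := s ^ m s t) (cs.pow _) ct
    (by rw [map_pow]; exact hm1 s hs t ht hω) (D := D)
    (by rw [v_pow, map_smul, LinearMap.smul_apply, smul_eq_mul]; exact hm2 s hs t ht hω) hy0
  rw [← pow_mul] at γ2 γ3
  have hma : m s t * y + y ≤ a := by
    have := Nat.mul_le_mul_right y (hmle s hs t ht)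
    rw [ha]; linarith
  obtain ⟨n1', rfl⟩ : ∃ n', n1 = n' + m s t * y := ⟨n1 - m s t * y, by omega⟩
  obtain ⟨n2', rfl⟩ : ∃ n', n2 = y + n' := ⟨n2 - y, by omega⟩
  have hNy : X.N ∣ y := Dvd.intro _ rfl
  have hcen : ∀ p, E.pr γ * p = p * E.pr γ := fun p => by
    rw [γ2, map_mul, map_pow, map_pow, mul_assoc, E.pr_pow_comm t hNy, ← mul_assoc,
      E.pr_pow_comm s (hNy.mul_left _), mul_assoc]
  have γlv : (E.lv γ : ℚ) ≤ a := by
    rw [E.lv_congr γ2, lv_mul, lv_pow, lv_pow, E.lv_letter hs, E.lv_letter ht]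
    exact_mod_cast (by simpa using hma)
  have γ0 : (0 : ℚ) ≤ E.lv γ := by exact_mod_cast E.lv_nonneg γ1
  have o1 : E.ok (L1 ++ (s, n1') :: L2) := fun e he => by
    simp only [List.mem_append, List.mem_cons] at he
    rcases he with he | rfl | he
    · exact l1 e (by simp [he])
    · exact hs
    · exact l1 e (by simp [he])
  have o2 : E.ok ((t, n2') :: L3) := fun e he => by
    rcases List.mem_cons.1 he with rfl | he
    · exact ht
    · exact l1 e (by simp [he])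
  have o3 : E.ok ((L1 ++ (s, n1') :: L2) ++ (t, n2') :: L3) := fun e he =>
    (List.mem_append.1 he).elim (o1 e) (o2 e)
  have cA := E.cl_bw o1
  have cB := E.cl_bw o2
  set A0 := bw (L1 ++ (s, n1') :: L2) with hA0
  set B0 := bw ((t, n2') :: L3) with hB0
  have q1 : E.pr (A0 * γ * B0) = E.pr g := by
    rw [← l3, map_mul, map_mul, γ2, hA0, hB0]
    simp only [bw_append, bw_cons, map_mul, map_pow, pow_add, mul_assoc]
    rw [← mul_assoc (E.pr (bw L2)), ← E.pr_pow_comm s (hNy.mul_left _), mul_assoc]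
  have q2 : E.ht g - 2 * a * (Ω * (M * a)) ≤ E.ht (A0 * γ * B0) := by
    have b1 : (L2.length : ℚ) ≤ M := by
      simp only [List.length_append, List.length_cons] at l2
      exact_mod_cast (by omega : L2.length ≤ M)
    have b2 : E.ω (E.v s) (E.v (bw L2)) ≤ Ω * (M * a) := hL2.trans (by gcongr)
    have b3 : ((m s t * y : ℕ) : ℚ) ≤ a := by exact_mod_cast (by omega : m s t * y ≤ a)
    have b4 := (mul_le_mul_of_nonneg_left b2 (Nat.cast_nonneg (m s t * y))).trans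
      (mul_le_mul_of_nonneg_right b3 (by positivity))
    have b5 := E.ω_swap (E.v (bw L2)) (E.v s)
    rw [ht_mul', ht_mul', v_mul, E.v_congr γ2, hA0, hB0]
    simp only [bw_append, bw_cons, pow_add, ht_mul', v_mul, v_pow, ht_pow, map_add, map_smul,
      LinearMap.add_apply, LinearMap.smul_apply, smul_eq_mul, E.ω_self, b5] at l4 γ3 ⊢
    linarith
  let r : G × G → G × G → Prop := fun x x' => (E.cl x'.1 ∧ E.cl x'.2 ∧
    E.pr (x'.1 * x'.2) = E.pr (A0 * B0)) ∧ E.ht (x.1 * γ * x.2) - E.ht (x'.1 * γ * x'.2) ≤ c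
  have r1 : ∀ A, E.cl A → ∀ B, E.cl B → E.pr (A * B) = E.pr (A0 * B0) →
      Relation.ReflTransGen r (A, B) (1, A * B) := by
    intro A hA
    induction hA using Submonoid.closure_induction_right with
    | one => intro B _ _; rw [one_mul]
    | mul_right A hA s' hs' ih =>
      intro B hB e
      have cs' := E.cl_letter hs'
      rw [mul_assoc] at e
      rw [mul_assoc]
      refine Relation.ReflTransGen.head (b := (A, s' * B)) ⟨⟨hA, cs'.mul hB, e⟩, ?_⟩
        (ih _ (cs'.mul hB) e)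
      have b1 := (abs_le.1 (hΩ2 _ _ cs' γ1)).2
      rw [E.lv_letter hs', Int.cast_one, mul_one] at b1
      have b2 := E.ω_swap (E.v γ) (E.v s')
      have b3 : (Ω : ℚ) * E.lv γ ≤ Ω * a := by gcongr
      have b4 : (0 : ℚ) ≤ 2 * Ω * X.N * X.N := by positivity
      simp only [ht_mul', v_mul, map_add, LinearMap.add_apply, b2, hc]
      push_cast
      linarith
  obtain ⟨g', h1, h2⟩ := E.rev hΩ1 hΩ2 (c := c) (by rw [hc]; push_cast; linarith) _ o3
  rw [bw_append, ← hA0, ← hB0] at h1 h2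
  have r2 : ∀ g', E.Ch c (A0 * B0) g' → Relation.ReflTransGen r (1, A0 * B0) (1, g') := by
    intro g' h
    induction h with
    | refl => exact Relation.ReflTransGen.refl
    | @tail b d h3 h4 ih =>
      have h5 := (Ch.inv h3 (cA.mul cB)).2
      refine ih.tail ⟨⟨E.cl_one, h4.1, by rw [one_mul, h4.2.1, h5]⟩, ?_⟩
      simp only [one_mul, ht_mul', E.v_congr h4.2.1]
      linarith [h4.2.2]
  have q3 : E.ht (1 * γ * g') ≤ 0 := by
    have b0 := E.v_congr (h1.inv (cA.mul cB)).2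
    have b1 : E.lv A0 + E.lv γ + E.lv B0 = E.lv g := by
      rw [← E.lv_congr q1, lv_mul, lv_mul]
    have b1' : (E.lv A0 : ℚ) + E.lv γ + E.lv B0 = E.lv g := by exact_mod_cast b1
    have b2 : (0 : ℚ) ≤ E.lv A0 := by exact_mod_cast E.lv_nonneg cA
    have b3 : (0 : ℚ) ≤ E.lv B0 := by exact_mod_cast E.lv_nonneg cB
    have b4 : ((L1 ++ (s, n1') :: L2 ++ (t, n2') :: L3).length : ℚ) ≤ M := by
      simp only [List.length_append, List.length_cons] at l2 ⊢
      exact_mod_cast (by omega)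
    have b5 : (E.lv (A0 * B0) : ℚ) ≤ E.lv g := by rw [lv_mul]; push_cast; linarith
    have b5' : (0 : ℚ) ≤ E.lv (A0 * B0) := by rw [lv_mul]; push_cast; linarith
    have b6 : E.ht (A0 * B0) + E.ht g' ≤ 2 * Ω * (1 + X.N * M) * E.lv g := h2.trans (by gcongr)
    have b7 := (abs_le.1 ((E.abs_ht_le hΩ1 hΩ2 γ1).trans
      (show _ ≤ (Ω : ℚ) * a ^ 2 by gcongr))).2
    have bB : (E.lv B0 : ℚ) ≤ E.lv g := by linarith
    have b8 := (abs_le.1 ((hΩ2 _ _ γ1 cB).trans (show _ ≤ (Ω : ℚ) * a * E.lv g from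
      mul_le_mul (mul_le_mul_of_nonneg_left γlv o0) bB b3 (mul_nonneg o0 a0)))).2
    have b9 := E.ω_swap (E.v A0) (E.v γ)
    simp only [one_mul, ht_mul', v_mul, map_add, LinearMap.add_apply, b0, b9] at q2 b6 ⊢
    linarith [mul_le_mul_of_nonneg_left hk' p2, mul_le_mul_of_nonneg_left hk' p3,
      mul_nonneg p1 (zero_le_one.trans hk')]
  obtain ⟨⟨A, B⟩, ⟨i1, i2, i3⟩, i4, i5⟩ := chain_ivt (r := r) (c := c)
    (Inv := fun x => E.cl x.1 ∧ E.cl x.2 ∧ E.pr (x.1 * x.2) = E.pr (A0 * B0))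
    (f := fun x => E.ht (x.1 * γ * x.2)) (Nat.cast_nonneg _) (fun _ _ h => h)
    ((r1 A0 cA B0 cB rfl).trans (r2 g' h1)) ⟨cA, cB, rfl⟩ (t := E.ht g + D * j)
    (q3.trans hj1) (by linarith)
  simp only at i1 i2 i3 i4 i5
  have q4 : E.pr (A * γ * B) = E.pr g := by
    rw [← q1, map_mul, map_mul, ← hcen, mul_assoc, ← map_mul, i3, map_mul, map_mul, map_mul,
      ← hcen, mul_assoc]
  obtain ⟨j', hj'⟩ := hcong _ _ q4.symm
  have hD' : (1 : ℚ) ≤ D := by exact_mod_cast hD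
  have i6 : 0 ≤ j' - j := by
    have : (0 : ℚ) ≤ D * ((j' - j : ℤ) : ℚ) := by push_cast; linarith
    exact_mod_cast (mul_nonneg_iff_of_pos_left (by linarith)).1 this
  obtain ⟨i, hi⟩ := Int.eq_ofNat_of_zero_le i6
  have hi' : (j' : ℚ) - j = i := by exact_mod_cast hi
  have i7 : i < y * y := by
    have b1 : (D : ℚ) * i ≤ c := by rw [← hi']; linarith
    have b2 : (i : ℚ) ≤ c := by nlinarith [(Nat.cast_nonneg i : (0 : ℚ) ≤ i)]
    have : i ≤ c := by exact_mod_cast b2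
    omega
  obtain ⟨γ', k1, k2, k3⟩ := γ4 i i7
  refine ⟨A * γ' * B, (i1.mul k1).mul i2, by rw [← q4]; simp only [map_mul, k2], ?_⟩
  simp only [ht_mul', v_mul, E.v_congr k2, k3] at hj' ⊢
  rw [← hi']
  linarith

end Ext

end Pool.Agent.MP_b3b911_al

end

section

/-! Piecewise quadratic systems: leading order behaviour along rays. -/

open MeasureTheory Filter Topology Set

namespace Pool.Agent.MP_b3b911_al

/-- A function on the group given, up to bounded error, by a maximum of quadratic functions over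
polyhedral congruence domains, with two monotonicity properties. -/
structure Sys {ι : Type} [Fintype ι] {P : Type*} [Group P] (X : Base ι P) (C : Type*) where
  F : P → ℝ
  cong : C → P → Prop
  cong_τ : ∀ c z p, cong c p → cong c (X.τ z * p)
  Φ : C → Finset ((Option ι → ℤ) × ℤ)
  q : C → LinearMap.BilinForm ℝ (Option ι → ℝ)
  l : C → (Option ι → ℝ) →ₗ[ℝ] ℝ
  K : ℝ
  K_nonneg : 0 ≤ K
  low : ∀ c p, cong c p → (∀ ab ∈ Φ c, ab.2 ≤ ab.1 ⬝ᵥ X.u p) →
    X.R p ∧ q c (toR (X.u p)) (toR (X.u p)) + l c (toR (X.u p)) - K ≤ F p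
  up : ∀ p, X.R p → ∃ c, cong c p ∧ (∀ ab ∈ Φ c, ab.2 ≤ ab.1 ⬝ᵥ X.u p) ∧
    F p ≤ q c (toR (X.u p)) (toR (X.u p)) + l c (toR (X.u p)) + K
  zero : ∀ p, ¬ X.R p → F p = 0
  lam : P → (Option ι → ℝ) →ₗ[ℝ] ℝ
  mono : ∀ s ∈ X.L, ∀ p, X.R p → F p + lam s (toR (X.u p)) - K ≤ F (p * s)
  k0 : ℤ
  opt : ∀ p, X.R p → k0 ≤ X.u p none → ∃ s ∈ X.L, ∃ p', X.R p' ∧ p = p' * s ^ X.N ∧
    F p - X.N * lam s (toR (X.u p')) - K ≤ F p'

namespace Sys

variable {ι : Type} [Fintype ι] {P : Type*} [Group P] {X : Base ι P} {C : Type*} [Fintype C]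
  (Y : Sys X C)

/-- All forms that occur. -/
noncomputable def forms : Finset (Option ι → ℤ) := by
  classical exact Finset.univ.biUnion fun c => (Y.Φ c).image Prod.fst

theorem mem_forms {c : C} {ab : (Option ι → ℤ) × ℤ} (h : ab ∈ Y.Φ c) : ab.1 ∈ Y.forms := by
  classical
  unfold forms
  exact Finset.mem_biUnion.2 ⟨c, Finset.mem_univ _, Finset.mem_image_of_mem _ h⟩

theorem exists_B : ∃ B : ℝ, 0 ≤ B ∧ (∀ c, ∀ ab ∈ Y.Φ c, |(ab.2 : ℝ)| ≤ B) ∧
    ∀ a ∈ Y.forms, ∀ w, |rd a w| ≤ B * ‖w‖ := by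
  obtain ⟨B1, h1, h2⟩ := exists_fin_bound Finset.univ
    (fun c B => ∀ ab ∈ Y.Φ c, |(ab.2 : ℝ)| ≤ B) (fun c x y hxy _ h ab hab => (h ab hab).trans hxy)
    (fun c _ => exists_fin_bound (Y.Φ c) (fun ab B => |(ab.2 : ℝ)| ≤ B)
      (fun _ _ _ hxy _ h => h.trans hxy) fun ab _ => ⟨_, abs_nonneg _, le_rfl⟩)
  obtain ⟨B2, h3, h4⟩ := exists_fin_bound Y.forms
    (fun a B => ∀ w, |rd a w| ≤ B * ‖w‖)
    (fun a x y hxy _ h w => (h w).trans (mul_le_mul_of_nonneg_right hxy (norm_nonneg _)))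
    (fun a _ => exists_lin_bound (rd a))
  refine ⟨B1 + B2, by linarith, fun c ab hab => (h2 c (Finset.mem_univ _) ab hab).trans
    (by linarith), fun a ha w => (h4 a ha w).trans ?_⟩
  exact mul_le_mul_of_nonneg_right (by linarith) (norm_nonneg _)

theorem exists_C : ∃ C1 : ℝ, 0 ≤ C1 ∧ (∀ c v w, |Y.q c v w| ≤ C1 * ‖v‖ * ‖w‖) ∧
    (∀ c w, |Y.l c w| ≤ C1 * ‖w‖) ∧ ∀ s ∈ X.L, ∀ w, |Y.lam s w| ≤ C1 * ‖w‖ := by
  obtain ⟨B1, h1, h2⟩ := exists_fin_bound Finset.univ
    (fun c B => ∀ v w, |Y.q c v w| ≤ B * ‖v‖ * ‖w‖)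
    (fun c x y hxy _ h v w => (h v w).trans (by gcongr))
    (fun c _ => exists_bilin_bound (Y.q c))
  obtain ⟨B2, h3, h4⟩ := exists_fin_bound Finset.univ
    (fun c B => ∀ w, |Y.l c w| ≤ B * ‖w‖)
    (fun c x y hxy _ h w => (h w).trans (by gcongr))
    (fun c _ => exists_lin_bound (Y.l c))
  obtain ⟨B3, h5, h6⟩ := exists_fin_bound X.L
    (fun s B => ∀ w, |Y.lam s w| ≤ B * ‖w‖)
    (fun c x y hxy _ h w => (h w).trans (by gcongr))
    (fun s _ => exists_lin_bound (Y.lam s))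
  refine ⟨B1 + B2 + B3, by linarith, fun c v w => (h2 c (Finset.mem_univ _) v w).trans ?_,
    fun c w => (h4 c (Finset.mem_univ _) w).trans ?_, fun s hs w => (h6 s hs w).trans ?_⟩
  · gcongr; linarith
  · gcongr; linarith
  · gcongr; linarith

/-- The quadratic form of a template. -/
def Q (c : C) (w : Option ι → ℝ) : ℝ := Y.q c w w

/-- The derivative of the quadratic form. -/
def D (c : C) (θ : Option ι → ℝ) : (Option ι → ℝ) →ₗ[ℝ] ℝ := Y.q c θ + (Y.q c).flip θ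

omit [Fintype C] in
theorem D_apply (c : C) (θ e : Option ι → ℝ) : Y.D c θ e = Y.q c θ e + Y.q c e θ := rfl

omit [Fintype C] in
theorem Q_expand (c : C) (θ e : Option ι → ℝ) (t : ℝ) :
    Y.Q c (t • θ + e) = t ^ 2 * Y.Q c θ + t * Y.D c θ e + Y.Q c e := by
  simp only [Q, D_apply, map_add, map_smul, LinearMap.add_apply, LinearMap.smul_apply, smul_eq_mul]
  ring

omit [Fintype C] in
theorem Q_smul (c : C) (θ : Option ι → ℝ) (t : ℝ) : Y.Q c (t • θ) = t ^ 2 * Y.Q c θ := by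
  simp only [Q, map_smul, LinearMap.smul_apply, smul_eq_mul]
  ring

/-- Templates valid near the ray. -/
noncomputable def V (θ : Option ι → ℝ) (p : P) : Finset C := by
  classical
  exact Finset.univ.filter fun c => Y.cong c p ∧ ∀ ab ∈ Y.Φ c,
    0 < rd ab.1 θ ∨ (rd ab.1 θ = 0 ∧ ab.2 ≤ ab.1 ⬝ᵥ X.u p)

theorem mem_V {θ : Option ι → ℝ} {p : P} {c : C} : c ∈ Y.V θ p ↔ Y.cong c p ∧ ∀ ab ∈ Y.Φ c,
    0 < rd ab.1 θ ∨ (rd ab.1 θ = 0 ∧ ab.2 ≤ ab.1 ⬝ᵥ X.u p) := by
  unfold V; simp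

/-- Leading coefficient near the ray. -/
noncomputable def A (θ : Option ι → ℝ) (p : P) : WithBot ℝ := wsup (Y.V θ p) fun c => Y.Q c θ

/-- Real valued leading coefficient near the ray. -/
noncomputable def Av (θ : Option ι → ℝ) (p : P) : ℝ := val (Y.V θ p) fun c => Y.Q c θ

/-- The leading term. -/
noncomputable def lead (w : Option ι → ℝ) : ℝ := Y.Av w 1

/-- Validity of a template. -/
def valid (c : C) (p : P) : Prop := Y.cong c p ∧ ∀ ab ∈ Y.Φ c, ab.2 ≤ ab.1 ⬝ᵥ X.u p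

theorem ev_valid (θ : Option ι → ℝ) (ρ : ℝ) : ∀ᶠ t : ℝ in atTop, ∀ p,
    ‖toR (X.u p) - t • θ‖ ≤ ρ → ∀ c, Y.valid c p ↔ c ∈ Y.V θ p := by
  obtain ⟨B, _, hB, _⟩ := Y.exists_B
  filter_upwards [ev_sign Y.forms θ ρ B] with t ht p hp c
  rw [mem_V, valid]
  refine and_congr_right fun _ => forall₂_congr fun ab hab => ?_
  obtain ⟨h1, h2⟩ := ht _ hp _ (Y.mem_forms hab)
  rw [rd_toR] at h1 h2
  have h3 := abs_le.1 (hB c ab hab)
  rcases lt_trichotomy 0 (rd ab.1 θ) with h | h | h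
  · have : (ab.2 : ℝ) ≤ ((ab.1 ⬝ᵥ X.u p : ℤ) : ℝ) := by linarith [h1 h, h3.2]
    simp [h, Int.cast_le.1 this]
  · simp [← h]
  · have : ((ab.1 ⬝ᵥ X.u p : ℤ) : ℝ) < (ab.2 : ℝ) := by linarith [h2 h, h3.1]
    simp [h.not_gt, h.ne, not_le.2 (Int.cast_lt.1 this)]

omit [Fintype C] in
theorem F_val {p : P} {V : Finset C} (h : ∀ c, Y.valid c p ↔ c ∈ V) :
    (X.R p ↔ V.Nonempty) ∧
      |Y.F p - val V (fun c => Y.Q c (toR (X.u p)) + Y.l c (toR (X.u p)))| ≤ Y.K := by
  by_cases hR : X.R p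
  · obtain ⟨c, h1, h2, h3⟩ := Y.up p hR
    have hc : c ∈ V := (h c).1 ⟨h1, h2⟩
    refine ⟨⟨fun _ => ⟨c, hc⟩, fun _ => hR⟩, ?_⟩
    have a1 := le_val (fun c => Y.Q c (toR (X.u p)) + Y.l c (toR (X.u p))) hc
    obtain ⟨c', hc', _, a2, _⟩ := exists_wsup ⟨c, hc⟩
      (fun c => Y.Q c (toR (X.u p)) + Y.l c (toR (X.u p)))
    have a3 := (Y.low c' p ((h c').2 hc').1 ((h c').2 hc').2).2
    rw [abs_le]
    simp only [Q] at a1 a2 ⊢
    constructor <;> linarith
  · have hV : V = ∅ := by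
      by_contra hne
      obtain ⟨c, hc⟩ := Finset.nonempty_iff_ne_empty.2 hne
      exact hR (Y.low c p ((h c).2 hc).1 ((h c).2 hc).2).1
    subst hV
    simp [hR, val_empty, Y.zero p hR, Y.K_nonneg]

theorem exists_expand (θ : Option ι → ℝ) (ρ : ℝ) : ∃ C2 : ℝ, 0 ≤ C2 ∧ ∀ c e, ‖e‖ ≤ ρ →
    |Y.D c θ e| ≤ C2 ∧ |Y.Q c e| ≤ C2 ∧ |Y.l c e| ≤ C2 ∧ |Y.l c θ| ≤ C2 ∧
      ∀ s ∈ X.L, |Y.lam s e| ≤ C2 ∧ |Y.lam s θ| ≤ C2 := by
  obtain ⟨C1, h0, h1, h2, h3⟩ := Y.exists_C
  set r := |ρ| + ‖θ‖ + 1 with hr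
  have hr1 : 1 ≤ r := by have := abs_nonneg ρ; have := norm_nonneg θ; linarith
  have hθ : ‖θ‖ ≤ r := by have := abs_nonneg ρ; linarith
  refine ⟨2 * C1 * r * r, by positivity, fun c e he => ?_⟩
  have he' : ‖e‖ ≤ r := by have := le_abs_self ρ; have := norm_nonneg θ; linarith
  have b1 : ∀ v w : Option ι → ℝ, ‖v‖ ≤ r → ‖w‖ ≤ r → C1 * ‖v‖ * ‖w‖ ≤ C1 * r * r :=
    fun v w hv hw => by gcongr
  have b0 : 0 ≤ C1 * r * r := by positivity
  have b2 : ∀ w : Option ι → ℝ, ‖w‖ ≤ r → C1 * ‖w‖ ≤ 2 * C1 * r * r := fun w hw => by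
    have : C1 * ‖w‖ ≤ C1 * r := by gcongr
    have : C1 * r * 1 ≤ C1 * r * r := by gcongr
    linarith
  refine ⟨?_, ?_, (h2 _ _).trans (b2 _ he'), (h2 _ _).trans (b2 _ hθ), fun s hs =>
    ⟨(h3 s hs _).trans (b2 _ he'), (h3 s hs _).trans (b2 _ hθ)⟩⟩
  · rw [D_apply]
    have := (h1 c θ e).trans (b1 _ _ hθ he')
    have := (h1 c e θ).trans (b1 _ _ he' hθ)
    have := abs_add_le (Y.q c θ e) (Y.q c e θ)
    linarith
  · have := (h1 c e e).trans (b1 _ _ he' he')
    simp only [Q]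
    linarith

theorem ev_LO (θ : Option ι → ℝ) (ρ : ℝ) : ∃ C3 : ℝ, ∀ᶠ t : ℝ in atTop, ∀ p,
    ‖toR (X.u p) - t • θ‖ ≤ ρ →
      (X.R p ↔ (Y.V θ p).Nonempty) ∧ |Y.F p - t ^ 2 * Y.Av θ p| ≤ C3 * t := by
  obtain ⟨C2, h0, h⟩ := Y.exists_expand θ ρ
  refine ⟨Y.K + 4 * C2, ?_⟩
  filter_upwards [Y.ev_valid θ ρ, eventually_ge_atTop 1] with t ht ht1 p hp
  obtain ⟨a1, a2⟩ := Y.F_val (ht p hp)
  refine ⟨a1, ?_⟩
  have a3 : |val (Y.V θ p) (fun c => Y.Q c (toR (X.u p)) + Y.l c (toR (X.u p))) -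
      t ^ 2 * Y.Av θ p| ≤ 4 * C2 * t := by
    rw [Av, ← val_mul _ (sq_nonneg t)]
    refine abs_val_sub_le (by positivity) fun c _ => ?_
    obtain ⟨b1, b2, b3, b4, _⟩ := h c _ hp
    have e1 : toR (X.u p) = t • θ + (toR (X.u p) - t • θ) := by abel
    rw [e1, Q_expand, map_add (Y.l c), map_smul, smul_eq_mul]
    rw [abs_le] at b1 b2 b3 b4 ⊢
    constructor <;> nlinarith [b1.1, b1.2, b2.1, b2.2, b3.1, b3.2, b4.1, b4.2]
  have a4 := abs_sub_le (Y.F p)
    (val (Y.V θ p) (fun c => Y.Q c (toR (X.u p)) + Y.l c (toR (X.u p)))) (t ^ 2 * Y.Av θ p)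
  have := Y.K_nonneg
  nlinarith

omit [Fintype C] in
theorem cong_τ_iff (c : C) (z : Option ι → ℤ) (p : P) : Y.cong c (X.τ z * p) ↔ Y.cong c p :=
  ⟨fun h => by simpa [X.τ_neg_mul] using Y.cong_τ c (-z) _ h, Y.cong_τ c z p⟩

theorem V_τ {θ : Option ι → ℝ} {z : Option ι → ℤ}
    (hz : ∀ a ∈ Y.forms, rd a θ = 0 → a ⬝ᵥ z = 0) (p : P) : Y.V θ (X.τ z * p) = Y.V θ p := by
  ext c
  rw [mem_V, mem_V, cong_τ_iff]
  refine and_congr_right fun _ => forall₂_congr fun ab hab => or_congr_right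
    (and_congr_right fun h => ?_)
  rw [X.u_mul, X.u_τ, dotProduct_add, dotProduct_smul, hz _ (Y.mem_forms hab) h, smul_zero,
    zero_add]

theorem A_τ {θ : Option ι → ℝ} {z : Option ι → ℤ}
    (hz : ∀ a ∈ Y.forms, rd a θ = 0 → a ⬝ᵥ z = 0) (p : P) : Y.A θ (X.τ z * p) = Y.A θ p := by
  rw [A, Y.V_τ hz, A]

theorem _root_.Pool.Agent.MP_b3b911_al.Base.exists_seq (X : Base ι P) (θ : Option ι → ℝ) :
    ∃ ρ : ℝ, ∀ t : ℝ, ∃ z : Option ι → ℤ, (∀ a, rd a θ = 0 → a ⬝ᵥ z = 0) ∧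
      ∀ p, ‖toR (X.u (X.τ z * p)) - t • θ‖ ≤ ρ + ‖toR (X.u p)‖ := by
  obtain ⟨ρ, h⟩ := app θ X.N X.N_pos
  refine ⟨ρ, fun t => ?_⟩
  obtain ⟨z, h1, h2⟩ := h t
  refine ⟨z, h2, fun p => ?_⟩
  rw [X.u_mul, X.u_τ, toR_add]
  calc _ = ‖(toR (X.N • z) - t • θ) + toR (X.u p)‖ := by congr 1; abel
    _ ≤ _ := norm_add_le _ _
    _ ≤ _ := by linarith

theorem A_mono (θ : Option ι → ℝ) {s : P} (hs : s ∈ X.L) (p : P) : Y.A θ p ≤ Y.A θ (p * s) := by
  rcases (Y.V θ p).eq_empty_or_nonempty with h0 | h0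
  · rw [A, h0, wsup_empty]; exact bot_le
  obtain ⟨ρ, hρ⟩ := X.exists_seq θ
  set ρ' := ρ + ‖toR (X.u p)‖ + ‖toR (X.u (p * s))‖
  obtain ⟨C3, h3⟩ := Y.ev_LO θ ρ'
  obtain ⟨C2, hC2, h2⟩ := Y.exists_expand θ ρ'
  have key : ∀ᶠ t : ℝ in atTop, (Y.V θ (p * s)).Nonempty ∧
      t ^ 2 * Y.Av θ p ≤ t ^ 2 * Y.Av θ (p * s) + (2 * C3 + 2 * C2 + Y.K) * t := by
    filter_upwards [h3, eventually_ge_atTop 1] with t ht ht1
    obtain ⟨z, hz, hz'⟩ := hρ t
    have n1 : ‖toR (X.u (X.τ z * p)) - t • θ‖ ≤ ρ' := (hz' p).trans (by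
      have := norm_nonneg (toR (X.u (p * s))); simp only [ρ']; linarith)
    have n2 : ‖toR (X.u (X.τ z * (p * s))) - t • θ‖ ≤ ρ' := (hz' _).trans (by
      have := norm_nonneg (toR (X.u p)); simp only [ρ']; linarith)
    obtain ⟨a1, a2⟩ := ht _ n1
    obtain ⟨a3, a4⟩ := ht _ n2
    simp only [Av] at a2 a4 ⊢
    rw [Y.V_τ fun a _ => hz a] at a1 a2 a3 a4
    have hR := a1.2 h0
    have hR' : X.R (X.τ z * (p * s)) := by
      rw [← mul_assoc]; exact Base.R_mul hR (X.R_of_mem hs)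
    refine ⟨a3.1 hR', ?_⟩
    have a5 := Y.mono s hs _ hR
    rw [mul_assoc] at a5
    obtain ⟨c, _⟩ := h0
    obtain ⟨-, -, -, -, b⟩ := h2 c _ n1
    obtain ⟨b1, b2⟩ := b s hs
    have e1 : toR (X.u (X.τ z * p)) = t • θ + (toR (X.u (X.τ z * p)) - t • θ) := by abel
    rw [e1, map_add, map_smul, smul_eq_mul] at a5
    rw [abs_le] at a2 a4 b1 b2
    have := Y.K_nonneg
    nlinarith [a2.1, a2.2, a4.1, a4.2, b1.1, b1.2, b2.1, b2.2]
  have h4 := key.exists.choose_spec.1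
  rw [A, A, wsup_eq_val h0, wsup_eq_val h4]
  exact WithBot.coe_le_coe.2 (le_of_sq (key.mono fun _ h => h.2))

theorem A_monoM (θ : Option ι → ℝ) {g : P} (hg : X.R g) (p : P) : Y.A θ p ≤ Y.A θ (p * g) := by
  induction hg using Submonoid.closure_induction generalizing p with
  | mem s hs => exact Y.A_mono θ hs p
  | one => simp
  | mul g g' _ _ h1 h2 => rw [← mul_assoc]; exact (h1 p).trans (h2 _)

theorem A_inv (θ : Option ι → ℝ) {s g : P} (hs : s ∈ X.L) (hg : X.R g)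
    (h : ∀ a ∈ Y.forms, rd a θ = 0 → a ⬝ᵥ X.u (s * g) = 0) (p : P) :
    Y.A θ (p * s) = Y.A θ p := by
  refine le_antisymm ?_ (Y.A_mono θ hs p)
  obtain ⟨n, hn⟩ : ∃ n, X.N = n + 1 := ⟨X.N - 1, by have := X.N_pos; omega⟩
  have h1 := Y.A_monoM θ (Base.R_mul hg (Base.R_pow (Base.R_mul (X.R_of_mem hs) hg) n)) (p * s)
  have e : p * s * (g * (s * g) ^ n) = X.τ (X.u (s * g)) * p := by
    rw [X.τ_comm, ← X.pow_eq, hn, pow_succ']; simp only [mul_assoc]
  rwa [e, Y.A_τ h] at h1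

theorem A_const (θ : Option ι → ℝ) (h : ∀ s ∈ X.L, ∀ p, Y.A θ (p * s) = Y.A θ p) (p : P) :
    Y.A θ p = Y.A θ 1 := by
  have key : ∀ g ∈ Subgroup.closure (X.L : Set P), ∀ p, Y.A θ (p * g) = Y.A θ p := by
    intro g hg
    induction hg using Subgroup.closure_induction with
    | mem s hs => exact h s hs
    | one => simp
    | mul g g' _ _ h1 h2 => intro p; rw [← mul_assoc, h2, h1]
    | inv g _ h1 => intro p; rw [← h1 (p * g⁻¹)]; simp
  have := key p (by rw [X.L_gen]; trivial) 1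
  rwa [one_mul] at this

/-- Off all walls. -/
def Off (θ : Option ι → ℝ) : Prop := ∀ a ∈ Y.forms, rd a θ = 0 → a = 0

theorem A_off {θ : Option ι → ℝ} (h : Y.Off θ) (p : P) : Y.A θ p = Y.A θ 1 :=
  Y.A_const θ (fun _ hs p => Y.A_inv θ hs X.R_one
    (fun a ha h0 => by rw [h a ha h0, zero_dotProduct]) p) p

theorem Av_eq_of_A {θ θ' : Option ι → ℝ} {p p' : P} (h : Y.A θ p = Y.A θ' p') :
    Y.Av θ p = Y.Av θ' p' ∧ ((Y.V θ p).Nonempty ↔ (Y.V θ' p').Nonempty) := by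
  refine ⟨by simp only [Av, val]; rw [A, A] at h; rw [h], ?_⟩
  rw [Finset.nonempty_iff_ne_empty, Finset.nonempty_iff_ne_empty, Ne, Ne,
    ← wsup_eq_bot (fun c => Y.Q c θ), ← wsup_eq_bot (fun c => Y.Q c θ')]
  rw [A, A] at h; rw [h]

theorem ev_R {θ : Option ι → ℝ} {p : P} (h : (Y.V θ p).Nonempty) : ∃ ρ : ℝ, ∀ᶠ t : ℝ in atTop,
    ∃ z : Option ι → ℤ, (∀ a, rd a θ = 0 → a ⬝ᵥ z = 0) ∧ X.R (X.τ z * p) ∧
      ‖toR (X.u (X.τ z * p)) - t • θ‖ ≤ ρ := by
  obtain ⟨ρ, hρ⟩ := X.exists_seq θ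
  obtain ⟨C3, h3⟩ := Y.ev_LO θ (ρ + ‖toR (X.u p)‖)
  refine ⟨ρ + ‖toR (X.u p)‖, ?_⟩
  filter_upwards [h3] with t ht
  obtain ⟨z, hz, hz'⟩ := hρ t
  refine ⟨z, hz, (ht _ (hz' p)).1.2 ?_, hz' p⟩
  rwa [Y.V_τ fun a _ => hz a]

theorem exists_supp : ∃ C0 : ℝ, 1 ≤ C0 ∧ (∀ p, X.R p → ‖toR (X.u p)‖ ≤ C0 * X.u p none) ∧
    ∀ θ p, (Y.V θ p).Nonempty → ‖θ‖ ≤ C0 * θ none := by
  obtain ⟨C0, h0, h1⟩ := X.exists_R_norm
  refine ⟨C0, h0, h1, fun θ p h => ?_⟩
  obtain ⟨ρ, hρ⟩ := Y.ev_R h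
  refine le_of_lin (C := ρ + C0 * ρ) ?_
  filter_upwards [hρ, eventually_ge_atTop 0] with t ⟨z, _, hR, hn⟩ ht
  have a1 := h1 _ hR
  have a2 : |(toR (X.u (X.τ z * p)) - t • θ) none| ≤ ρ := (norm_le_pi_norm _ none).trans hn
  simp only [Pi.sub_apply, toR, Pi.smul_apply, smul_eq_mul] at a2
  have a3 : ‖t • θ‖ ≤ ‖toR (X.u (X.τ z * p))‖ + ρ := by
    calc ‖t • θ‖ = ‖toR (X.u (X.τ z * p)) - (toR (X.u (X.τ z * p)) - t • θ)‖ := by congr 1; abel
      _ ≤ _ := norm_sub_le _ _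
      _ ≤ _ := by linarith
  rw [norm_smul, Real.norm_eq_abs, abs_of_nonneg ht] at a3
  have a4 := (abs_le.1 a2).2
  nlinarith

theorem V_empty_of_pos {θ : Option ι → ℝ} (hθ : 0 < θ none) {a : Option ι → ℤ}
    (ha : rd a θ = 0) (h : ∀ s ∈ X.L, 0 < a ⬝ᵥ X.u s) (p : P) : Y.V θ p = ∅ := by
  by_contra hne
  obtain ⟨ρ, hρ⟩ := Y.ev_R (Finset.nonempty_iff_ne_empty.2 hne)
  have : θ none ≤ 0 := by
    refine le_of_lin (C := ρ + (a ⬝ᵥ X.u p : ℤ)) ?_
    filter_upwards [hρ] with t ⟨z, hz, hR, hn⟩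
    have a1 := X.R_form (rd a - LinearMap.proj none) (fun s hs => by
      have := h s hs
      simp only [LinearMap.sub_apply, rd_toR, LinearMap.coe_proj, Function.eval, toR,
        X.L_one s hs]
      have : (1 : ℝ) ≤ ((a ⬝ᵥ X.u s : ℤ) : ℝ) := by exact_mod_cast this
      push_cast at this ⊢
      linarith) hR
    have a2 : |(toR (X.u (X.τ z * p)) - t • θ) none| ≤ ρ := (norm_le_pi_norm _ none).trans hn
    simp only [LinearMap.sub_apply, rd_toR, LinearMap.coe_proj, Function.eval] at a1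
    rw [X.u_mul, X.u_τ, dotProduct_add, dotProduct_smul, hz a ha, smul_zero, zero_add] at a1
    rw [X.u_mul, X.u_τ] at a2
    simp only [Pi.sub_apply, Pi.smul_apply, smul_eq_mul] at a2
    have a4 := (abs_le.1 a2).1
    linarith
  linarith

theorem dichotomy {θ : Option ι → ℝ} (hθ : 0 < θ none) {a : Option ι → ℤ} (ha : rd a θ = 0)
    (hg : ∀ a' ∈ Y.forms, rd a' θ = 0 → ∀ z, rd a z = 0 → rd a' z = 0) :
    (∃ s ∈ X.L, a ⬝ᵥ X.u s = 0) ∨ ∀ p, Y.A θ p = Y.A θ 1 := by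
  by_cases h0 : ∃ s ∈ X.L, a ⬝ᵥ X.u s = 0
  · exact Or.inl h0
  right
  push Not at h0
  by_cases h1 : ∀ s ∈ X.L, 0 < a ⬝ᵥ X.u s
  · intro p; rw [A, A, Y.V_empty_of_pos hθ ha h1, Y.V_empty_of_pos hθ ha h1]
  by_cases h2 : ∀ s ∈ X.L, 0 < (-a) ⬝ᵥ X.u s
  · have ha' : rd (-a) θ = 0 := by
      rw [rd_apply] at ha ⊢; simp [ha]
    intro p; rw [A, A, Y.V_empty_of_pos hθ ha' h2, Y.V_empty_of_pos hθ ha' h2]
  push Not at h1 h2
  obtain ⟨s1, hs1, h1⟩ := h1
  obtain ⟨s2, hs2, h2⟩ := h2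
  rw [neg_dotProduct] at h2
  have key : ∀ s ∈ X.L, ∀ s' ∈ X.L, (a ⬝ᵥ X.u s) * (a ⬝ᵥ X.u s') < 0 → ∀ p,
      Y.A θ (p * s) = Y.A θ p := by
    intro s hs s' hs' hss
    have hne := h0 s' hs'
    refine Y.A_inv θ hs (g := s ^ ((a ⬝ᵥ X.u s').natAbs - 1) * s' ^ (a ⬝ᵥ X.u s).natAbs)
      (Base.R_mul (Base.R_pow (X.R_of_mem hs) _) (Base.R_pow (X.R_of_mem hs') _)) ?_
    intro a' ha' h'
    have := hg a' ha' h' (toR (X.u (s * (s ^ ((a ⬝ᵥ X.u s').natAbs - 1) *
      s' ^ (a ⬝ᵥ X.u s).natAbs)))) (by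
        rw [rd_toR, Int.cast_eq_zero, X.u_mul, X.u_mul, X.u_pow, X.u_pow, dotProduct_add,
          dotProduct_add, dotProduct_smul, dotProduct_smul]
        generalize a ⬝ᵥ X.u s = x at *
        generalize a ⬝ᵥ X.u s' = y at *
        have e1 : ((y.natAbs - 1 : ℕ) : ℤ) = |y| - 1 := by
          have : 1 ≤ y.natAbs := Int.natAbs_pos.2 hne
          push_cast [this]; simp
        simp only [nsmul_eq_mul, e1, Nat.cast_natAbs, Int.cast_abs, Int.cast_id]
        rcases lt_or_gt_of_ne hne with hy | hy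
        · have hx : 0 < x := by nlinarith
          rw [abs_of_neg hy, abs_of_pos hx]; ring
        · have hx : x < 0 := by nlinarith
          rw [abs_of_pos hy, abs_of_neg hx]; ring)
    rwa [rd_toR, Int.cast_eq_zero] at this
  refine Y.A_const θ fun s hs => ?_
  have a1 := lt_of_le_of_ne h1 (h0 s1 hs1)
  have a2 : 0 < a ⬝ᵥ X.u s2 := lt_of_le_of_ne (by linarith) (h0 s2 hs2).symm
  rcases lt_or_gt_of_ne (h0 s hs) with h | h
  · exact key s hs s2 hs2 (mul_neg_of_neg_of_pos h a2)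
  · exact key s hs s1 hs1 (mul_neg_of_pos_of_neg h a1)

theorem V_smul (w : Option ι → ℝ) {t : ℝ} (ht : 0 < t) (p : P) : Y.V (t • w) p = Y.V w p := by
  ext c
  simp only [mem_V, map_smul, smul_eq_mul, mul_pos_iff_of_pos_left ht, mul_eq_zero, ht.ne',
    false_or]

theorem lead_smul (w : Option ι → ℝ) {t : ℝ} (ht : 0 < t) : Y.lead (t • w) = t ^ 2 * Y.lead w := by
  simp only [lead, Av, Y.V_smul w ht, Q_smul]
  exact val_mul _ (sq_nonneg t)

theorem measurableSet_rd_pos (a : Option ι → ℤ) : MeasurableSet {w | 0 < rd a w} :=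
  measurableSet_lt measurable_const (rd a).continuous_of_finiteDimensional.measurable

theorem measurableSet_rd_zero (a : Option ι → ℤ) : MeasurableSet {w | rd a w = 0} :=
  measurableSet_eq_fun (rd a).continuous_of_finiteDimensional.measurable measurable_const

theorem measurable_lead : Measurable Y.lead := by
  refine measurable_val (fun w => Y.V w 1) (fun c => ?_) (fun c w => Y.Q c w)
    fun c => (continuous_bilin (Y.q c)).measurable
  simp only [mem_V]
  refine MeasurableSet.inter (MeasurableSet.const _) ?_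
  have : {w | ∀ ab ∈ Y.Φ c, 0 < rd ab.1 w ∨ (rd ab.1 w = 0 ∧ ab.2 ≤ ab.1 ⬝ᵥ X.u 1)} =
      ⋂ ab ∈ Y.Φ c, ({w | 0 < rd ab.1 w} ∪ ({w | rd ab.1 w = 0} ∩ {_w | ab.2 ≤ ab.1 ⬝ᵥ X.u 1})) := by
    ext w; simp
  change MeasurableSet {w | ∀ ab ∈ Y.Φ c, 0 < rd ab.1 w ∨ (rd ab.1 w = 0 ∧ ab.2 ≤ ab.1 ⬝ᵥ X.u 1)}
  rw [this]
  refine Finset.measurableSet_biInter _ fun ab _ => ?_
  exact (measurableSet_rd_pos _).union ((measurableSet_rd_zero _).inter (MeasurableSet.const _))

theorem exists_lead_bound : ∃ C1 : ℝ, 0 ≤ C1 ∧ ∀ w, |Y.lead w| ≤ C1 * ‖w‖ ^ 2 := by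
  obtain ⟨C1, h0, h1, -⟩ := Y.exists_C
  refine ⟨C1, h0, fun w => abs_val_le (by positivity) fun c _ => ?_⟩
  have := h1 c w w
  rwa [mul_assoc, ← sq] at this

end Sys

end Pool.Agent.MP_b3b911_al

end
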